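import Pool.Agent.Lib.MP_af4270_co.ASum

/-!
# PAN-A11: good cycles adjacent to a given good cycle have small total weight

Fix a good cycle `C`. Let `Nb` be the set of vertices outside `vs C` adjacent to `vs C`; `|Nb| ≤ |vs C|
≤ 2 L` (each vertex of `C` has only one dart outside `C`). For a good `C'` with
`Disjoint (vs C) (vs C')`, `e := |bt (vs C) (vs C')|` is the number of vertices of `C'` in `Nb`
(a vertex of `C'` has only one dart outside `C'`).

Weighted matrix `M` on darts (real entries): `M x y = 0` unless `st x y`, `x` and `y` inside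
`A \ vs C`; then `M x y = 1` if `hd x ∈ Nb` and `M x y = 1/2` otherwise.
(a) Row sums of `M` are `≤ 1`: if `hd x ∈ Nb` one of the two successors of `x` goes to `vs C`
(or `rv x` does, but `x` is inside `A \ vs C`), so at most one successor is inside `A \ vs C`.
Hence row sums of `M ^ k` are `≤ 1`.
(b) Let `τ = 2 d - 2`. `(M ^ τ) x y ≤ 2 ^ (1 - τ)` for all `x, y`: `M ^ τ` is a sum over walks of
`τ + 1` darts from `x` to `y` inside `A`; there is at most one walk (`walk_unique`,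
`2 (τ + 1) ≤ ℓ`); its weight is `(1/2)^(τ - v)` with `v` the number of `i < τ` with `hd (w i) ∈ Nb`;
`v ≤ 1`: two such indices `i < j < τ` give a walk: from `c ∈ vs C` to `hd (w i)`, then
`w (i+1), ..., w j`, then from `hd (w j)` to `c' ∈ vs C`, of length `j - i + 2 ≤ τ + 1 ≤ 2 d`
(non-backtracking since the darts `w` are inside `A \ vs C`), with ends on `C` but not in `C`.
(c) So `(M ^ k) x x ≤ 2 ^ (1 - τ)` for `k ≥ τ` (`M ^ k = M ^ (k-τ) * M ^ τ`, row sums).
(d) For a good `C'`, disjoint from `C`, with `e ≥ 1` and `k = |C'|` (`k > ℓ ≥ τ`): choose a dart `x` of `C'`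
with tail in `Nb` (and the direction); going around `C'` gives a closed walk with weight
`(1/2)^(k - e)` in `(M ^ k) x x`. Different `C'` (with the same `x`, `k`) give different walks.
So `∑_{C'} (1/2)^(|C'| - e) ≤ ∑_{k ≤ 2L} ∑_{x : tl x ∈ Nb} (M ^ k) x x ≤ (2 L + 1) * (3 * 2 L) * 2^(1-τ)
≤ 18 L² 2^(3 - 2 d) ≤ 1` as `64 L² ≤ 2^d`.
-/

set_option autoImplicit false
set_option linter.unusedSectionVars false

namespace Pool.Agent.Lib.MP_af4270_co

open Finset

variable {V E : Type} [Fintype V] [DecidableEq V] [Fintype E] [DecidableEq E]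

namespace Cub

variable (Γ : Cub V E)

/-! ### the walk around a cycle -/

theorem aadj_third {C : E → ZMod 2} (hC : C ∈ Γ.Z) {x : V} (hx : x ∈ Γ.vs C) {d d' : E × Bool}
    (hd : Γ.tl d = x) (hd' : Γ.tl d' = x) (h : C d.1 = 0) (h' : C d'.1 = 0) : d = d' := by
  classical
  have h1 := (Γ.mem_vs_iff_deg hC x).1 hx
  have h2 : ((Γ.dt x).filter (fun d => ¬ (C d.1 ≠ 0))).card = 1 := by
    have h3 := Finset.card_filter_add_card_filter_not (s := Γ.dt x) (fun d => C d.1 ≠ 0)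
    rw [Γ.card_dt] at h3
    have h4 : ((Γ.dt x).filter (fun d => C d.1 ≠ 0)).card = 2 := h1
    omega
  obtain ⟨a, ha⟩ := Finset.card_eq_one.1 h2
  have e1 : d ∈ (Γ.dt x).filter (fun d => ¬ (C d.1 ≠ 0)) := by
    rw [Finset.mem_filter, mem_dt]; exact ⟨hd, by simpa using h⟩
  have e2 : d' ∈ (Γ.dt x).filter (fun d => ¬ (C d.1 ≠ 0)) := by
    rw [Finset.mem_filter, mem_dt]; exact ⟨hd', by simpa using h'⟩
  rw [ha, Finset.mem_singleton] at e1 e2
  rw [e1, e2]

theorem aadj_hd_mem {C : E → ZMod 2} {d : E × Bool} (h : C d.1 ≠ 0) : Γ.hd d ∈ Γ.vs C := by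
  obtain ⟨e, b⟩ := d
  cases b
  · exact Γ.t_mem_vs h
  · exact Γ.s_mem_vs h

theorem aadj_tl_mem {C : E → ZMod 2} {d : E × Bool} (h : C d.1 ≠ 0) : Γ.tl d ∈ Γ.vs C := by
  obtain ⟨e, b⟩ := d
  cases b
  · exact Γ.s_mem_vs h
  · exact Γ.t_mem_vs h

/-- three darts of an even set with the same tail: two are equal -/
theorem aadj_two {C : E → ZMod 2} (hC : C ∈ Γ.Z) {a b c : E × Bool} (hab : Γ.tl a = Γ.tl b)
    (hac : Γ.tl a = Γ.tl c) (ha : C a.1 ≠ 0) (hb : C b.1 ≠ 0) (hc : C c.1 ≠ 0)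
    (h1 : a ≠ b) (h2 : a ≠ c) : b = c := by
  classical
  by_contra h3
  have hx : Γ.tl a ∈ Γ.vs C := Γ.aadj_tl_mem ha
  have h4 := (Γ.mem_vs_iff_deg hC _).1 hx
  have h5 : ({a, b, c} : Finset (E × Bool)) ⊆ Γ.dR C (Γ.tl a) := by
    intro z hz
    simp only [Finset.mem_insert, Finset.mem_singleton] at hz
    rw [mem_dR]
    rcases hz with rfl | rfl | rfl
    · exact ⟨rfl, ha⟩
    · exact ⟨hab.symm, hb⟩
    · exact ⟨hac.symm, hc⟩
  have h6 := Finset.card_le_card h5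
  rw [h4, Finset.card_eq_three.2 ⟨a, b, c, h1, h2, h3, rfl⟩] at h6
  omega

theorem aadj_exists_succ {C : E → ZMod 2} (hC : C ∈ Γ.Z) {d : E × Bool} (h : C d.1 ≠ 0) :
    ∃ d', Γ.st d d' ∧ C d'.1 ≠ 0 := by
  classical
  have hx : Γ.tl (rv d) ∈ Γ.vs C := by rw [Γ.tl_rv]; exact Γ.aadj_hd_mem h
  have h4 := (Γ.mem_vs_iff_deg hC _).1 hx
  have h5 : rv d ∈ Γ.dR C (Γ.tl (rv d)) := by rw [mem_dR]; exact ⟨rfl, h⟩
  have h6 : 1 < (Γ.dR C (Γ.tl (rv d))).card := by omega
  obtain ⟨d', hd', hne⟩ := Finset.exists_mem_ne h6 (rv d)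
  rw [mem_dR] at hd'
  refine ⟨d', ?_, hd'.2⟩
  rw [st_iff]
  refine ⟨?_, hne⟩
  rw [hd'.1, Γ.tl_rv]

theorem aadj_succ_unique {C : E → ZMod 2} (hC : C ∈ Γ.Z) {d a b : E × Bool} (h : C d.1 ≠ 0)
    (ha : Γ.st d a) (ha' : C a.1 ≠ 0) (hb : Γ.st d b) (hb' : C b.1 ≠ 0) : a = b := by
  rw [st_iff] at ha hb
  apply Γ.aadj_two hC (a := rv d) (b := a) (c := b)
  · rw [Γ.tl_rv]; exact ha.1
  · rw [Γ.tl_rv]; exact hb.1
  · exact h
  · exact ha'
  · exact hb'
  · exact fun h => ha.2 h.symm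
  · exact fun h => hb.2 h.symm

/-- walking around a cycle -/
theorem aadj_around {C : E → ZMod 2} (hC : Γ.Single C) {x : E × Bool} (hx : C x.1 ≠ 0) :
    ∃ w : ℕ → E × Bool, w 0 = x ∧ w (supp C).card = x ∧ (∀ i, C (w i).1 ≠ 0) ∧
      (∀ i, Γ.st (w i) (w (i + 1))) ∧
      (∀ i j, i < (supp C).card → j < (supp C).card → Γ.tl (w i) = Γ.tl (w j) → i = j) ∧
      (∀ e, C e ≠ 0 → ∃ i < (supp C).card, (w i).1 = e) := by
  classical
  have hCZ := hC.1
  -- the successor map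
  have hex : ∀ d : {d : E × Bool // C d.1 ≠ 0}, ∃ d' : {d : E × Bool // C d.1 ≠ 0},
      Γ.st d.1 d'.1 := by
    rintro ⟨d, hd⟩
    obtain ⟨d', h1, h2⟩ := Γ.aadj_exists_succ hCZ hd
    exact ⟨⟨d', h2⟩, h1⟩
  choose σ hσ using hex
  let W : ℕ → {d : E × Bool // C d.1 ≠ 0} := fun i => σ^[i] ⟨x, hx⟩
  have hW0 : W 0 = ⟨x, hx⟩ := rfl
  have hWs : ∀ i, W (i + 1) = σ (W i) := fun i => Function.iterate_succ_apply' σ i _
  have hWst : ∀ i, Γ.st (W i).1 (W (i + 1)).1 := fun i => by rw [hWs]; exact hσ _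
  have hWC : ∀ i, C (W i).1.1 ≠ 0 := fun i => (W i).2
  -- reversal
  let R : {d : E × Bool // C d.1 ≠ 0} → {d : E × Bool // C d.1 ≠ 0} := fun d => ⟨rv d.1, d.2⟩
  have hRR : ∀ d, R (R d) = d := fun d => Subtype.ext (rv_rv _)
  have hσR : ∀ d, σ (R (σ d)) = R d := by
    intro d
    apply Subtype.ext
    apply Γ.aadj_succ_unique hCZ (R (σ d)).2 (hσ _) (σ (R (σ d))).2 _ (R d).2
    exact Γ.st_rv.2 (hσ d)
  have hinj : Function.Injective σ := by
    intro a b hab
    have h1 := hσR a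
    rw [hab, hσR b] at h1
    rw [← hRR a, ← h1, hRR]
  -- the period
  have hper : ∃ p, 0 < p ∧ W p = W 0 := by
    obtain ⟨i, j, hij, he⟩ := Finite.exists_ne_map_eq_of_infinite W
    wlog hlt : i < j generalizing i j
    · exact this j i hij.symm he.symm (by omega)
    refine ⟨j - i, by omega, ?_⟩
    have h1 : (σ^[i]) (W (j - i)) = (σ^[i]) (W 0) := by
      change (σ^[i]) (σ^[j - i] _) = (σ^[i]) (σ^[0] _)
      rw [← Function.iterate_add_apply, ← Function.iterate_add_apply]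
      have : i + (j - i) = j := by omega
      rw [this, add_zero]
      exact he.symm
    exact hinj.iterate i h1
  set p := Nat.find hper with hp
  have hp1 := (Nat.find_spec hper).1
  have hp2 := (Nat.find_spec hper).2
  have hpmin : ∀ m, 0 < m → m < p → W m ≠ W 0 := by
    intro m h1 h2 h3
    exact Nat.find_min hper h2 ⟨h1, h3⟩
  have hWinj : ∀ i j, i < p → j < p → W i = W j → i = j := by
    intro i j hi hj he
    by_contra hne
    wlog hlt : i < j generalizing i j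
    · exact this j i hj hi he.symm (fun h => hne h.symm) (by omega)
    apply hpmin (j - i) (by omega) (by omega)
    have h1 : (σ^[i]) (W (j - i)) = (σ^[i]) (W 0) := by
      change (σ^[i]) (σ^[j - i] _) = (σ^[i]) (σ^[0] _)
      rw [← Function.iterate_add_apply, ← Function.iterate_add_apply]
      have : i + (j - i) = j := by omega
      rw [this, add_zero]
      exact he.symm
    exact hinj.iterate i h1
  -- distinct tails
  have htl : ∀ i j, i < p → j < p → Γ.tl (W i).1 = Γ.tl (W j).1 → i = j := by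
    intro i j hi hj he
    by_contra hne
    wlog hlt : i < j generalizing i j
    · exact this j i hj hi he.symm (fun h => hne h.symm) (by omega)
    have hWne : W i ≠ W j := fun h => hne (hWinj i j hi hj h)
    have hj1 : j - 1 + 1 = j := by omega
    have hst := hWst (j - 1)
    rw [hj1, st_iff] at hst
    -- `W i` is the reverse of `W (j-1)`
    have h1 : W i = R (W (j - 1)) := by
      apply Subtype.ext
      apply Γ.aadj_two hCZ (a := (W j).1) (b := (W i).1) (c := (R (W (j - 1))).1)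
      · exact he.symm
      · change _ = Γ.tl (rv _)
        rw [Γ.tl_rv]; exact hst.1.symm
      · exact (W j).2
      · exact (W i).2
      · exact (R (W (j - 1))).2
      · exact fun h => hWne (Subtype.ext h.symm)
      · exact fun h => hst.2 h
    have h2 : ∀ m, i + m ≤ j - 1 → W (i + m) = R (W (j - 1 - m)) := by
      intro m
      induction m with
      | zero => intro _; simpa using h1
      | succ m ih =>
        intro hm
        have h3 := ih (by omega)
        have h4 : j - 1 - m = (j - 1 - (m + 1)) + 1 := by omega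
        rw [← add_assoc, hWs, h3, h4, hWs, hσR]
    obtain ⟨s, hs⟩ : ∃ s, j - 1 = i + s := ⟨j - 1 - i, by omega⟩
    rcases Nat.even_or_odd s with ⟨m, hm⟩ | ⟨m, hm⟩
    · have h3 := h2 m (by omega)
      have h4 : j - 1 - m = i + m := by omega
      rw [h4] at h3
      have h5 := congrArg Subtype.val h3
      exact rv_ne _ h5.symm
    · have h3 := h2 m (by omega)
      have h4 : j - 1 - m = i + m + 1 := by omega
      rw [h4] at h3
      have h5 := congrArg Subtype.val h3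
      have h6 := hWst (i + m)
      rw [st_iff] at h6
      apply h6.2
      rw [h5]
      exact (rv_rv _).symm
  -- the list
  set l : List (E × Bool) := List.ofFn (fun i : Fin p => (W i).1) with hl
  have hlen : l.length = p := by simp [hl]
  have hl0 : l ≠ [] := by
    intro h0
    rw [h0] at hlen
    simp at hlen
    omega
  have hget : ∀ i (h : i < l.length), l[i] = (W i).1 := by
    intro i h
    simp [hl]
  have hcw : Γ.Cw univ p l := by
    refine ⟨hlen, ?_, ?_, ?_⟩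
    · intro d _
      exact ⟨mem_univ _, mem_univ _⟩
    · rw [hl, List.isChain_ofFn]
      intro i hi
      exact hWst i
    · intro a ha b hb
      rw [List.getLast?_eq_getElem?, hlen, Option.mem_def] at ha
      rw [List.head?_eq_getElem?, Option.mem_def] at hb
      have h1 : l[p - 1]? = some (W (p - 1)).1 := by
        rw [List.getElem?_eq_getElem (by omega), hget]
      have h2 : l[0]? = some (W 0).1 := by
        rw [List.getElem?_eq_getElem (by omega), hget]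
      rw [h1] at ha
      rw [h2] at hb
      cases ha
      cases hb
      have h3 := hWst (p - 1)
      have h4 : p - 1 + 1 = p := by omega
      rw [h4, hp2] at h3
      exact h3
  have hnd : (l.map Γ.tl).Nodup := by
    rw [List.nodup_iff_injective_getElem]
    rintro ⟨i, hi⟩ ⟨j, hj⟩ hij
    simp only [List.getElem_map, hget] at hij
    simp only [List.length_map, hlen] at hi hj
    have := htl i j hi hj hij
    simp [this]
  obtain ⟨C', hC', htr⟩ := Γ.trav_of_nodup hcw hl0 hnd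
  have hCC : C' = C := by
    apply hC.2.2 C' hC'.1 hC'.2.1
    intro e he
    rw [mem_supp] at he ⊢
    obtain ⟨d, hd, rfl⟩ := (htr.2 e).1 he
    rw [hl, List.mem_ofFn] at hd
    obtain ⟨i, rfl⟩ := hd
    exact hWC i
  rw [hCC] at htr
  have hpc : (supp C).card = p := by
    have h1 := htr.1.1
    rw [hlen] at h1
    exact h1.symm
  refine ⟨fun i => (W i).1, rfl, ?_, hWC, hWst, ?_, ?_⟩
  · change (W (supp C).card).1 = x
    rw [hpc, show W p = W 0 from hp2, hW0]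
  · intro i j hi hj he
    rw [hpc] at hi hj
    exact htl i j hi hj he
  · intro e he
    obtain ⟨d, hd, rfl⟩ := (htr.2 e).1 he
    rw [hl, List.mem_ofFn] at hd
    obtain ⟨i, rfl⟩ := hd
    exact ⟨i, by rw [hpc]; exact i.2, rfl⟩

/-- the walk given by a sequence of darts -/
theorem aadj_wk (W : ℕ → E × Bool) (n : ℕ) (h : ∀ i < n, Γ.st (W i) (W (i + 1))) :
    Γ.Wk (Γ.tl (W 0)) (Γ.hd (W n)) (List.ofFn (fun i : Fin (n + 1) => W i)) := by
  set l := List.ofFn (fun i : Fin (n + 1) => W i) with hl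
  have hlen : l.length = n + 1 := by simp [hl]
  have hget : ∀ i (h : i < l.length), l[i] = W i := by
    intro i h
    simp only [hl, List.getElem_ofFn]
  refine ⟨?_, ?_, ?_, ?_⟩
  · rw [hl, List.isChain_ofFn]
    intro i hi
    exact h i (by omega)
  · intro h0
    rw [h0] at hlen
    simp at hlen
  · intro d hd
    rw [List.head?_eq_getElem?, Option.mem_def, List.getElem?_eq_getElem (by omega), hget] at hd
    cases hd
    rfl
  · intro d hd
    rw [List.getLast?_eq_getElem?, hlen, Option.mem_def, List.getElem?_eq_getElem (by omega),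
      hget] at hd
    cases hd
    rfl

/-! ### the weighted matrix -/

/-- vertices outside `vs C` adjacent to `vs C` -/
def aadjNb (C : E → ZMod 2) : Finset V :=
  univ.filter (fun z => z ∉ Γ.vs C ∧ ∃ δ : E × Bool, Γ.tl δ = z ∧ Γ.hd δ ∈ Γ.vs C)

theorem aadj_mem_Nb {C : E → ZMod 2} {z : V} : z ∈ Γ.aadjNb C ↔
    z ∉ Γ.vs C ∧ ∃ δ : E × Bool, Γ.tl δ = z ∧ Γ.hd δ ∈ Γ.vs C := by
  simp [aadjNb]

theorem aadj_card_Nb {C : E → ZMod 2} (hC : C ∈ Γ.Z) : (Γ.aadjNb C).card ≤ (supp C).card := by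
  classical
  rw [← Γ.card_vs hC]
  rcases (Γ.aadjNb C).eq_empty_or_nonempty with h0 | ⟨z₀, hz₀⟩
  · rw [h0]; simp
  obtain ⟨-, δ₀, -⟩ := (Γ.aadj_mem_Nb).1 hz₀
  have : Nonempty (E × Bool) := ⟨δ₀⟩
  have hex : ∀ z ∈ Γ.aadjNb C, ∃ δ : E × Bool, Γ.tl δ = z ∧ Γ.hd δ ∈ Γ.vs C := by
    intro z hz
    exact ((Γ.aadj_mem_Nb).1 hz).2
  choose! f hf1 hf2 using hex
  apply Finset.card_le_card_of_injOn (fun z => Γ.hd (f z))
  · intro z hz
    exact hf2 z hz
  · intro z hz z' hz' he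
    simp only at he
    have hC0 : ∀ z ∈ Γ.aadjNb C, C (f z).1 = 0 := by
      intro z hz
      by_contra h
      have h1 := Γ.aadj_tl_mem h
      rw [hf1 z hz] at h1
      exact ((Γ.aadj_mem_Nb).1 hz).1 h1
    have h1 : rv (f z) = rv (f z') := by
      apply Γ.aadj_third hC (hf2 z hz)
      · exact Γ.tl_rv _
      · rw [Γ.tl_rv]; exact he.symm
      · exact hC0 z hz
      · exact hC0 z' hz'
    have h2 : f z = f z' := by rw [← rv_rv (f z), h1, rv_rv]
    rw [← hf1 z hz, h2, hf1 z' hz']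

open Classical in
/-- the weighted matrix -/
noncomputable def aadjM (A : Finset V) (C : E → ZMod 2) :
    Matrix (E × Bool) (E × Bool) ℝ := fun x y =>
  if Γ.st x y ∧ Γ.dIn (A \ Γ.vs C) x ∧ Γ.dIn (A \ Γ.vs C) y then
    (if Γ.hd x ∈ Γ.aadjNb C then 1 else 1 / 2) else 0

theorem aadjM_nonneg (A : Finset V) (C : E → ZMod 2) (x y : E × Bool) :
    0 ≤ Γ.aadjM A C x y := by
  unfold aadjM
  split_ifs <;> norm_num

theorem aadjM_row (A : Finset V) (C : E → ZMod 2) (x : E × Bool) :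
    ∑ y, Γ.aadjM A C x y ≤ 1 := by
  classical
  unfold aadjM
  by_cases hx : Γ.dIn (A \ Γ.vs C) x
  swap
  · rw [Finset.sum_eq_zero]
    · norm_num
    · intro y _
      rw [if_neg]
      tauto
  have hsum : ∑ y, (if Γ.st x y ∧ Γ.dIn (A \ Γ.vs C) x ∧ Γ.dIn (A \ Γ.vs C) y then
      (if Γ.hd x ∈ Γ.aadjNb C then (1 : ℝ) else 1 / 2) else 0) =
      ((univ.filter (fun y => Γ.st x y ∧ Γ.dIn (A \ Γ.vs C) y)).card : ℝ) *
        (if Γ.hd x ∈ Γ.aadjNb C then (1 : ℝ) else 1 / 2) := by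
    rw [← Finset.sum_filter, Finset.sum_const, nsmul_eq_mul]
    congr 3
    ext y
    simp only [Finset.mem_filter, Finset.mem_univ, true_and]
    tauto
  rw [hsum]
  have h2 := Γ.card_succ x
  have hsub : (univ.filter (fun y => Γ.st x y ∧ Γ.dIn (A \ Γ.vs C) y)) ⊆
      univ.filter (fun y => Γ.st x y) := by
    intro y hy
    simp only [Finset.mem_filter, Finset.mem_univ, true_and] at hy ⊢
    exact hy.1
  by_cases hN : Γ.hd x ∈ Γ.aadjNb C
  · rw [if_pos hN, mul_one]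
    obtain ⟨-, δ, hδ1, hδ2⟩ := (Γ.aadj_mem_Nb).1 hN
    have hlt : (univ.filter (fun y => Γ.st x y ∧ Γ.dIn (A \ Γ.vs C) y)).card <
        (univ.filter (fun y => Γ.st x y)).card := by
      apply Finset.card_lt_card
      rw [Finset.ssubset_iff_of_subset hsub]
      refine ⟨δ, ?_, ?_⟩
      · simp only [Finset.mem_filter, Finset.mem_univ, true_and]
        rw [st_iff]
        refine ⟨hδ1.symm, ?_⟩
        intro h0
        rw [h0, Γ.hd_rv] at hδ2
        have := hx.1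
        rw [Finset.mem_sdiff] at this
        exact this.2 hδ2
      · simp only [Finset.mem_filter, Finset.mem_univ, true_and, not_and]
        intro _ h3
        have := h3.2
        rw [Finset.mem_sdiff] at this
        exact this.2 hδ2
    have : (univ.filter (fun y => Γ.st x y ∧ Γ.dIn (A \ Γ.vs C) y)).card ≤ 1 := by omega
    exact_mod_cast this
  · rw [if_neg hN]
    have h3 := Finset.card_le_card hsub
    rw [h2] at h3
    have h4 : ((univ.filter (fun y => Γ.st x y ∧ Γ.dIn (A \ Γ.vs C) y)).card : ℝ) ≤ 2 := by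
      exact_mod_cast h3
    linarith

theorem aadjM_pow_nonneg (A : Finset V) (C : E → ZMod 2) (k : ℕ) (x y : E × Bool) :
    0 ≤ (Γ.aadjM A C ^ k) x y := by
  induction k generalizing x y with
  | zero =>
    rw [pow_zero, Matrix.one_apply]
    split_ifs <;> norm_num
  | succ k ih =>
    rw [pow_succ, Matrix.mul_apply]
    exact Finset.sum_nonneg fun z _ => mul_nonneg (ih x z) (Γ.aadjM_nonneg A C z y)

theorem aadjM_pow_row (A : Finset V) (C : E → ZMod 2) (k : ℕ) (x : E × Bool) :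
    ∑ y, (Γ.aadjM A C ^ k) x y ≤ 1 := by
  classical
  induction k generalizing x with
  | zero => simp [Matrix.one_apply]
  | succ k ih =>
    simp only [pow_succ', Matrix.mul_apply]
    rw [Finset.sum_comm]
    calc ∑ z, ∑ y, Γ.aadjM A C x z * (Γ.aadjM A C ^ k) z y
        = ∑ z, Γ.aadjM A C x z * ∑ y, (Γ.aadjM A C ^ k) z y := by
          simp only [Finset.mul_sum]
      _ ≤ ∑ z, Γ.aadjM A C x z * 1 := by
          apply Finset.sum_le_sum
          intro z _
          exact mul_le_mul_of_nonneg_left (ih z) (Γ.aadjM_nonneg A C x z)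
      _ ≤ 1 := by simp only [mul_one]; exact Γ.aadjM_row A C x

/-- facts on a step with nonzero weight -/
theorem aadjM_ne {A : Finset V} {C : E → ZMod 2} {x y : E × Bool} (h : Γ.aadjM A C x y ≠ 0) :
    Γ.st x y ∧ Γ.dIn (A \ Γ.vs C) x ∧ Γ.dIn (A \ Γ.vs C) y ∧
      Γ.aadjM A C x y = (if Γ.hd x ∈ Γ.aadjNb C then (1 : ℝ) else 1 / 2) := by
  classical
  unfold aadjM at h ⊢
  by_cases h1 : Γ.st x y ∧ Γ.dIn (A \ Γ.vs C) x ∧ Γ.dIn (A \ Γ.vs C) y
  · refine ⟨h1.1, h1.2.1, h1.2.2, ?_⟩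
    rw [if_pos h1]
  · rw [if_neg h1] at h
    exact absurd rfl h

/-- two visits of `Nb` within a short walk are impossible -/
theorem aadj_one_visit {A : Finset V} {d L : ℕ} {C : E → ZMod 2} (hC : Γ.Good A d L C)
    {n : ℕ} (hn : n + 3 ≤ 2 * d) (W : ℕ → E × Bool)
    (hst : ∀ i ≤ n, Γ.st (W i) (W (i + 1)))
    (hin : ∀ i ≤ n + 1, Γ.dIn (A \ Γ.vs C) (W i))
    (h0 : Γ.hd (W 0) ∈ Γ.aadjNb C) (h1 : Γ.hd (W (n + 1)) ∈ Γ.aadjNb C) : False := by
  classical
  obtain ⟨-, δ, hδ1, hδ2⟩ := (Γ.aadj_mem_Nb).1 h0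
  obtain ⟨-, δ', hδ1', hδ2'⟩ := (Γ.aadj_mem_Nb).1 h1
  -- the walk `rv δ, W 1, ..., W (n+1), δ'`
  let U : ℕ → E × Bool := fun i => if i = 0 then rv δ else if i ≤ n + 1 then W i else δ'
  have hU0 : U 0 = rv δ := by simp [U]
  have hU1 : ∀ i, 0 < i → i ≤ n + 1 → U i = W i := by
    intro i h2 h3
    simp only [U]
    rw [if_neg (by omega), if_pos h3]
  have hU2 : U (n + 2) = δ' := by
    simp only [U]
    rw [if_neg (by omega), if_neg (by omega)]
  have hUst : ∀ i < n + 2, Γ.st (U i) (U (i + 1)) := by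
    intro i hi
    rcases Nat.eq_zero_or_pos i with rfl | hpos
    · rw [hU0, hU1 (0 + 1) (by omega) (by omega), st_iff, Γ.hd_rv, rv_rv]
      have h3 := hst 0 (by omega)
      rw [st_iff] at h3
      refine ⟨by rw [hδ1]; exact h3.1, ?_⟩
      intro h4
      have h5 := (hin (0 + 1) (by omega)).2
      rw [h4, Finset.mem_sdiff] at h5
      exact h5.2 hδ2
    · rcases Nat.lt_or_ge i (n + 1) with hlt | hge
      · rw [hU1 i hpos (by omega), hU1 (i + 1) (by omega) (by omega)]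
        exact hst i (by omega)
      · have : i = n + 1 := by omega
        subst this
        rw [hU1 (n + 1) (by omega) (by omega), hU2, st_iff]
        refine ⟨hδ1'.symm, ?_⟩
        intro h4
        rw [h4, Γ.hd_rv] at hδ2'
        have h5 := (hin (n + 1) (by omega)).1
        rw [Finset.mem_sdiff] at h5
        exact h5.2 hδ2'
  have hwk := Γ.aadj_wk U (n + 2) hUst
  rw [hU0, hU2, Γ.tl_rv] at hwk
  have h3 := hC.2.2.2 _ _ _ hδ2 hδ2' hwk (by
    rw [List.length_ofFn]; omega) (U 1) (by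
    rw [List.mem_ofFn]
    exact ⟨⟨1, by omega⟩, rfl⟩)
  rw [hU1 1 (by omega) (by omega)] at h3
  have h4 := Γ.aadj_tl_mem h3
  have h5 := (hin 1 (by omega)).1
  rw [Finset.mem_sdiff] at h5
  exact h5.2 h4

/-- weight of a walk of length `τ` -/
theorem aadj_weight {A : Finset V} {d L : ℕ} {C : E → ZMod 2} (hC : Γ.Good A d L C)
    {τ : ℕ} (hτ : τ + 2 ≤ 2 * d) (w : Fin (τ + 1) → E × Bool)
    (hw : ∏ i : Fin τ, Γ.aadjM A C (w i.castSucc) (w i.succ) ≠ 0) :
    ∏ i : Fin τ, Γ.aadjM A C (w i.castSucc) (w i.succ) ≤ 2 * (1 / 2 : ℝ) ^ τ := by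
  classical
  have hne : ∀ i : Fin τ, Γ.aadjM A C (w i.castSucc) (w i.succ) ≠ 0 := by
    intro i
    exact Finset.prod_ne_zero_iff.1 hw i (mem_univ _)
  have hall : ∀ i : Fin τ, Γ.aadjM A C (w i.castSucc) (w i.succ) =
      (if Γ.hd (w i.castSucc) ∈ Γ.aadjNb C then (1 : ℝ) else 1 / 2) := fun i =>
    (Γ.aadjM_ne (hne i)).2.2.2
  rw [Finset.prod_congr rfl (fun i _ => hall i)]
  rw [Finset.prod_ite, Finset.prod_const_one, one_mul, Finset.prod_const]
  have hcard := Finset.card_filter_add_card_filter_not (s := (univ : Finset (Fin τ)))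
    (fun i => Γ.hd (w i.castSucc) ∈ Γ.aadjNb C)
  rw [Finset.card_univ, Fintype.card_fin] at hcard
  have hle1 : (univ.filter (fun i : Fin τ => Γ.hd (w i.castSucc) ∈ Γ.aadjNb C)).card ≤ 1 := by
    rw [Finset.card_le_one]
    intro a ha b hb
    rw [Finset.mem_filter] at ha hb
    by_contra hab
    wlog hlt : a < b generalizing a b
    · exact this b hb a ha (fun h => hab h.symm) (lt_of_le_of_ne (not_lt.1 hlt)
        (fun h => hab h.symm))
    have hlt' : (a : ℕ) < b := hlt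
    have hb2 : (b : ℕ) < τ := b.2
    let W : ℕ → E × Bool := fun i => if h : (a : ℕ) + i < τ + 1 then w ⟨a + i, h⟩ else w 0
    have hW : ∀ i, (h : (a : ℕ) + i < τ + 1) → W i = w ⟨a + i, h⟩ := by
      intro i h
      simp only [W]
      rw [dif_pos h]
    obtain ⟨n, hn⟩ : ∃ n, (b : ℕ) = a + n + 1 := ⟨b - a - 1, by omega⟩
    have hstep : ∀ i, (h : (a : ℕ) + i < τ) → Γ.aadjM A C (W i) (W (i + 1)) ≠ 0 := by
      intro i h
      rw [hW i (by omega), hW (i + 1) (by omega)]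
      exact hne ⟨a + i, h⟩
    refine Γ.aadj_one_visit hC (n := n) (by omega) W ?_ ?_ ?_ ?_
    · intro i hi
      exact (Γ.aadjM_ne (hstep i (by omega))).1
    · intro i hi
      rcases Nat.eq_zero_or_pos i with rfl | hpos
      · exact (Γ.aadjM_ne (hstep 0 (by omega))).2.1
      · have h3 := (Γ.aadjM_ne (hstep (i - 1) (by omega))).2.2.1
        have h4 : i - 1 + 1 = i := by omega
        rw [h4] at h3
        exact h3
    · rw [hW 0 (by omega)]
      exact ha.2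
    · rw [hW (n + 1) (by omega)]
      have h5 : (⟨(a : ℕ) + (n + 1), by omega⟩ : Fin (τ + 1)) = b.castSucc := by
        apply Fin.ext
        simp only [Fin.val_castSucc]
        omega
      rw [h5]
      exact hb.2
  set c := (univ.filter (fun i : Fin τ => ¬ Γ.hd (w i.castSucc) ∈ Γ.aadjNb C)).card with hc
  have h3 : τ ≤ c + 1 := by omega
  have h4 : (1 / 2 : ℝ) ^ (c + 1) ≤ (1 / 2 : ℝ) ^ τ :=
    pow_le_pow_of_le_one (by norm_num) (by norm_num) h3
  rw [pow_succ] at h4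
  linarith

/-- entries of the power `τ` -/
theorem aadj_entry {A : Finset V} {ℓ d L : ℕ} (hA : Γ.Free ℓ A) {C : E → ZMod 2}
    (hC : Γ.Good A d L C) {τ : ℕ} (hτ : τ + 2 ≤ 2 * d) (hτ0 : 0 < τ) (hℓ : 2 * (τ + 1) ≤ ℓ)
    (x y : E × Bool) : (Γ.aadjM A C ^ τ) x y ≤ 2 * (1 / 2 : ℝ) ^ τ := by
  classical
  rw [pow_apply_eq_sum]
  set S := univ.filter (fun w : Fin (τ + 1) → E × Bool => w 0 = x ∧ w (Fin.last τ) = y) with hS
  by_cases hz : ∀ w ∈ S, ∏ i : Fin τ, Γ.aadjM A C (w i.castSucc) (w i.succ) = 0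
  · rw [Finset.sum_eq_zero hz]
    positivity
  push Not at hz
  obtain ⟨w, hwS, hw⟩ := hz
  have hwalk : ∀ w : Fin (τ + 1) → E × Bool, w ∈ S →
      ∏ i : Fin τ, Γ.aadjM A C (w i.castSucc) (w i.succ) ≠ 0 →
      Γ.Wk (Γ.tl x) (Γ.hd y) (List.ofFn w) ∧ ∀ d ∈ List.ofFn w, Γ.dIn A d := by
    intro w hwS hw
    have hne : ∀ i : Fin τ, Γ.aadjM A C (w i.castSucc) (w i.succ) ≠ 0 := fun i =>
      Finset.prod_ne_zero_iff.1 hw i (mem_univ _)
    rw [hS, Finset.mem_filter] at hwS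
    let W : ℕ → E × Bool := fun i => if h : i < τ + 1 then w ⟨i, h⟩ else w 0
    have hW : ∀ i, (h : i < τ + 1) → W i = w ⟨i, h⟩ := by
      intro i h
      simp only [W]
      rw [dif_pos h]
    have hstep : ∀ i, (h : i < τ) → Γ.aadjM A C (W i) (W (i + 1)) ≠ 0 := by
      intro i h
      rw [hW i (by omega), hW (i + 1) (by omega)]
      exact hne ⟨i, h⟩
    have h1 := Γ.aadj_wk W τ (fun i hi => (Γ.aadjM_ne (hstep i hi)).1)
    have h2 : (fun i : Fin (τ + 1) => W i) = w := by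
      funext i
      rw [hW i i.2]
    rw [h2, hW 0 (by omega), hW τ (by omega)] at h1
    have h3 : w ⟨0, by omega⟩ = x := hwS.2.1
    have h4 : w ⟨τ, by omega⟩ = y := hwS.2.2
    rw [h3, h4] at h1
    refine ⟨h1, ?_⟩
    intro d hd
    rw [List.mem_ofFn] at hd
    obtain ⟨i, rfl⟩ := hd
    have h5 : Γ.dIn (A \ Γ.vs C) (w i) := by
      rcases Nat.lt_or_ge (i : ℕ) τ with hlt | hge
      · have h6 := (Γ.aadjM_ne (hstep i hlt)).2.1
        rw [hW i i.2] at h6
        exact h6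
      · have h7 : (i : ℕ) = τ - 1 + 1 := by have := i.2; omega
        have h6 := (Γ.aadjM_ne (hstep (τ - 1) (by omega))).2.2.1
        rw [← h7, hW i i.2] at h6
        exact h6
    exact ⟨(Finset.mem_sdiff.1 h5.1).1, (Finset.mem_sdiff.1 h5.2).1⟩
  obtain ⟨hwk, hwin⟩ := hwalk w hwS hw
  rw [Finset.sum_eq_single w]
  · exact Γ.aadj_weight hC hτ w hw
  · intro w' hw'S hne'
    by_contra hw'
    obtain ⟨hwk', hwin'⟩ := hwalk w' hw'S hw'
    apply hne'
    apply List.ofFn_injective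
    apply Γ.walk_unique hA hwk' hwk hwin' hwin
    rw [List.length_ofFn, List.length_ofFn]
    omega
  · intro h
    exact absurd hwS h

theorem aadj_diag {A : Finset V} {ℓ d L : ℕ} (hA : Γ.Free ℓ A) {C : E → ZMod 2}
    (hC : Γ.Good A d L C) {τ : ℕ} (hτ : τ + 2 ≤ 2 * d) (hτ0 : 0 < τ) (hℓ : 2 * (τ + 1) ≤ ℓ)
    {k : ℕ} (hk : τ ≤ k) (x : E × Bool) :
    (Γ.aadjM A C ^ k) x x ≤ 2 * (1 / 2 : ℝ) ^ τ := by
  have h1 : k = (k - τ) + τ := by omega
  rw [h1, pow_add, Matrix.mul_apply]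
  calc ∑ z, (Γ.aadjM A C ^ (k - τ)) x z * (Γ.aadjM A C ^ τ) z x
      ≤ ∑ z, (Γ.aadjM A C ^ (k - τ)) x z * (2 * (1 / 2 : ℝ) ^ τ) := by
        apply Finset.sum_le_sum
        intro z _
        exact mul_le_mul_of_nonneg_left (Γ.aadj_entry hA hC hτ hτ0 hℓ z x)
          (Γ.aadjM_pow_nonneg A C _ x z)
    _ = (∑ z, (Γ.aadjM A C ^ (k - τ)) x z) * (2 * (1 / 2 : ℝ) ^ τ) := by
        rw [Finset.sum_mul]
    _ ≤ 1 * (2 * (1 / 2 : ℝ) ^ τ) := by
        apply mul_le_mul_of_nonneg_right (Γ.aadjM_pow_row A C _ x)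
        positivity
    _ = 2 * (1 / 2 : ℝ) ^ τ := one_mul _

/-- the weight of the walk around `C'` -/
theorem aadj_cycle_weight {A : Finset V} {C C' : E → ZMod 2}
    (hC' : C' ∈ Γ.Z) (hA : Γ.vs C' ⊆ A) (hdis : Disjoint (Γ.vs C) (Γ.vs C'))
    {w : ℕ → E × Bool} (hw0 : w (supp C').card = w 0) (hwC : ∀ i, C' (w i).1 ≠ 0)
    (hst : ∀ i, Γ.st (w i) (w (i + 1)))
    (hall : ∀ e, C' e ≠ 0 → ∃ i < (supp C').card, (w i).1 = e) :
    (2 : ℝ) ^ (Γ.bt (Γ.vs C) (Γ.vs C')).card * (1 / 2 : ℝ) ^ (supp C').card ≤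
      ∏ i : Fin (supp C').card, Γ.aadjM A C (w i) (w (i + 1)) := by
  classical
  set k := (supp C').card with hk
  have hin : ∀ i, Γ.dIn (A \ Γ.vs C) (w i) := by
    intro i
    have h1 := Γ.aadj_tl_mem (hwC i)
    have h2 := Γ.aadj_hd_mem (hwC i)
    constructor
    · rw [Finset.mem_sdiff]
      exact ⟨hA h1, fun h => (Finset.disjoint_left.1 hdis h) h1⟩
    · rw [Finset.mem_sdiff]
      exact ⟨hA h2, fun h => (Finset.disjoint_left.1 hdis h) h2⟩
  have hM : ∀ i : Fin k, Γ.aadjM A C (w i) (w (i + 1)) =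
      (if Γ.hd (w i) ∈ Γ.aadjNb C then (1 : ℝ) else 1 / 2) := by
    intro i
    unfold aadjM
    rw [if_pos ⟨hst i, hin i, hin (i + 1)⟩]
  rw [Finset.prod_congr rfl (fun i _ => hM i)]
  rw [Finset.prod_ite, Finset.prod_const_one, one_mul, Finset.prod_const]
  have hcard := Finset.card_filter_add_card_filter_not (s := (univ : Finset (Fin k)))
    (fun i => Γ.hd (w i) ∈ Γ.aadjNb C)
  rw [Finset.card_univ, Fintype.card_fin] at hcard
  -- injection of the edges into the indices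
  have hedge : ∀ e ∈ Γ.bt (Γ.vs C) (Γ.vs C'), ∃ δ : E × Bool, δ.1 = e ∧ Γ.tl δ ∈ Γ.vs C' ∧
      Γ.hd δ ∈ Γ.vs C := by
    intro e he
    rw [mem_bt] at he
    rcases he with h | h
    · exact ⟨(e, true), rfl, h.2, h.1⟩
    · exact ⟨(e, false), rfl, h.1, h.2⟩
  have hind : ∀ z ∈ Γ.vs C', ∃ i : Fin k, Γ.hd (w i) = z := by
    intro z hz
    -- `z` is the tail of some `w j`
    have h1 : ∃ j < k, Γ.tl (w j) = z := by
      obtain ⟨δ, hδ, hδC⟩ := (Γ.mem_vs_iff_dart).1 hz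
      rw [mem_dt] at hδ
      obtain ⟨j, hj, hje⟩ := hall δ.1 hδC
      by_cases hb : w j = δ
      · exact ⟨j, hj, by rw [hb]; exact hδ⟩
      · -- `w j = rv δ`, then `hd (w j) = z`
        have h2 : w j = rv δ := by
          refine Prod.ext (show (w j).1 = (rv δ).1 from hje) ?_
          have h3 : (w j).2 ≠ δ.2 := fun h => hb (Prod.ext hje h)
          change (w j).2 = !δ.2
          cases h4 : (w j).2 <;> cases h5 : δ.2 <;> simp_all
        have h3 : Γ.hd (w j) = z := by rw [h2, Γ.hd_rv]; exact hδ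
        have h4 := (Γ.st_iff _ _).1 (hst j)
        rcases Nat.lt_or_ge (j + 1) k with hlt | hge
        · exact ⟨j + 1, hlt, by rw [← h4.1]; exact h3⟩
        · have h5 : j + 1 = k := by omega
          rw [h5, hw0] at h4
          exact ⟨0, by omega, by rw [← h4.1]; exact h3⟩
    obtain ⟨j, hj, hjz⟩ := h1
    rcases Nat.eq_zero_or_pos j with rfl | hpos
    · refine ⟨⟨k - 1, by omega⟩, ?_⟩
      have h2 := (Γ.st_iff _ _).1 (hst (k - 1))
      have h3 : k - 1 + 1 = k := by omega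
      rw [h3, hw0] at h2
      change Γ.hd (w (k - 1)) = z
      rw [h2.1]; exact hjz
    · refine ⟨⟨j - 1, by omega⟩, ?_⟩
      have h2 := (Γ.st_iff _ _).1 (hst (j - 1))
      have h3 : j - 1 + 1 = j := by omega
      rw [h3] at h2
      change Γ.hd (w (j - 1)) = z
      rw [h2.1]; exact hjz
  have hk0 : 0 < k := by
    rw [hk, Finset.card_pos]
    exact ⟨_, mem_supp.2 (hwC 0)⟩
  have : Nonempty (Fin k) := ⟨⟨0, hk0⟩⟩
  have : Nonempty (E × Bool) := ⟨w 0⟩
  choose! δ hδ1 hδ2 hδ3 using hedge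
  choose! ind hind using hind
  have hle : (Γ.bt (Γ.vs C) (Γ.vs C')).card ≤
      (univ.filter (fun i : Fin k => Γ.hd (w i) ∈ Γ.aadjNb C)).card := by
    apply Finset.card_le_card_of_injOn (fun e => ind (Γ.tl (δ e)))
    · intro e he
      rw [Finset.mem_coe, Finset.mem_filter]
      refine ⟨mem_univ _, ?_⟩
      rw [hind _ (hδ2 e he), aadj_mem_Nb]
      refine ⟨?_, δ e, rfl, hδ3 e he⟩
      intro h
      exact (Finset.disjoint_left.1 hdis h) (hδ2 e he)
    · intro e he e' he' hee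
      simp only at hee
      have h1 : Γ.tl (δ e) = Γ.tl (δ e') := by
        rw [← hind _ (hδ2 e he), ← hind _ (hδ2 e' he'), hee]
      have hzero : ∀ e ∈ Γ.bt (Γ.vs C) (Γ.vs C'), C' (δ e).1 = 0 := by
        intro e he
        by_contra h
        exact (Finset.disjoint_left.1 hdis (hδ3 e he)) (Γ.aadj_hd_mem h)
      have h2 : δ e = δ e' := Γ.aadj_third hC' (hδ2 e he) rfl h1.symm (hzero e he) (hzero e' he')
      rw [← hδ1 e he, h2, hδ1 e' he']
  set v := (univ.filter (fun i : Fin k => Γ.hd (w i) ∈ Γ.aadjNb C)).card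
  set c := (univ.filter (fun i : Fin k => ¬ Γ.hd (w i) ∈ Γ.aadjNb C)).card
  set e := (Γ.bt (Γ.vs C) (Γ.vs C')).card
  have h1 : k = v + c := hcard.symm
  rw [h1, pow_add, ← mul_assoc]
  have h2 : (2 : ℝ) ^ e * (1 / 2 : ℝ) ^ v ≤ 1 := by
    calc (2 : ℝ) ^ e * (1 / 2 : ℝ) ^ v ≤ (2 : ℝ) ^ v * (1 / 2 : ℝ) ^ v := by
          apply mul_le_mul_of_nonneg_right _ (by positivity)
          exact pow_le_pow_right₀ (by norm_num) hle
      _ = 1 := by rw [← mul_pow]; norm_num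
  calc (2 : ℝ) ^ e * (1 / 2 : ℝ) ^ v * (1 / 2 : ℝ) ^ c ≤ 1 * (1 / 2 : ℝ) ^ c := by
        apply mul_le_mul_of_nonneg_right h2 (by positivity)
    _ = (1 / 2 : ℝ) ^ c := one_mul _

end Cub

open Classical in
theorem HypA.adj_sum {Γ : Cub V E} {A : Finset V} {ℓ d L K k₀ : ℕ} (h : HypA Γ A ℓ d L K k₀)
    {C : E → ZMod 2} (hC : Γ.Good A d L C) :
    ∑ C' ∈ (Γ.gd A d L).filter (fun C' => Disjoint (Γ.vs C) (Γ.vs C') ∧
        (Γ.bt (Γ.vs C) (Γ.vs C')).Nonempty),
      (2 : ℝ) ^ (Γ.bt (Γ.vs C) (Γ.vs C')).card * (1 / 2 : ℝ) ^ (supp C').card ≤ 1 := by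
  obtain ⟨hL36, hd78⟩ := h.big
  have hℓ := h.hℓ
  have hLd := h.hd
  set τ := 2 * d - 2 with hτ
  set 𝒞 := (Γ.gd A d L).filter (fun C' => Disjoint (Γ.vs C) (Γ.vs C') ∧
        (Γ.bt (Γ.vs C) (Γ.vs C')).Nonempty) with h𝒞
  have hmem : ∀ C' ∈ 𝒞, Γ.Good A d L C' ∧ Disjoint (Γ.vs C) (Γ.vs C') ∧
      (Γ.bt (Γ.vs C) (Γ.vs C')).Nonempty := by
    intro C' hC'
    rw [h𝒞, Finset.mem_filter, Cub.gd, Finset.mem_filter] at hC'
    exact ⟨hC'.1.2, hC'.2.1, hC'.2.2⟩
  rcases 𝒞.eq_empty_or_nonempty with h0 | ⟨C₁, hC₁⟩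
  · rw [h0, Finset.sum_empty]
    exact zero_le_one
  obtain ⟨f₁, -⟩ := (hmem C₁ hC₁).2.2
  have : Nonempty (E × Bool) := ⟨(f₁, true)⟩
  -- the starting dart and the walk
  have hex : ∀ C' ∈ 𝒞, ∃ w : ℕ → E × Bool, Γ.tl (w 0) ∈ Γ.aadjNb C ∧
      w (supp C').card = w 0 ∧ (∀ i, C' (w i).1 ≠ 0) ∧
      (∀ i, Γ.st (w i) (w (i + 1))) ∧
      (∀ i j, i < (supp C').card → j < (supp C').card → Γ.tl (w i) = Γ.tl (w j) → i = j) ∧
      (∀ e, C' e ≠ 0 → ∃ i < (supp C').card, (w i).1 = e) := by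
    intro C' hC'
    obtain ⟨hG, hdis, f, hf⟩ := hmem C' hC'
    have h1 : ∃ δ : E × Bool, Γ.tl δ ∈ Γ.vs C' ∧ Γ.hd δ ∈ Γ.vs C := by
      rw [Cub.mem_bt] at hf
      rcases hf with h | h
      · exact ⟨(f, true), h.2, h.1⟩
      · exact ⟨(f, false), h.1, h.2⟩
    obtain ⟨δ, hδ1, hδ2⟩ := h1
    obtain ⟨x, hx1, hx2⟩ := (Γ.mem_vs_iff_dart).1 hδ1
    rw [Cub.mem_dt] at hx1
    obtain ⟨w, hw0, hw1, hw2, hw3, hw4, hw5⟩ := Γ.aadj_around hG.1 hx2
    refine ⟨w, ?_, by rw [hw1, hw0], hw2, hw3, hw4, hw5⟩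
    rw [hw0, hx1, Cub.aadj_mem_Nb]
    exact ⟨fun h => (Finset.disjoint_left.1 hdis h) hδ1, δ, rfl, hδ2⟩
  choose! w hwN hwk hwC hwst hwtl hwall using hex
  have hsize : ∀ C' ∈ 𝒞, τ ≤ (supp C').card ∧ (supp C').card ≤ 2 * L := by
    intro C' hC'
    obtain ⟨hG, -, -⟩ := hmem C' hC'
    refine ⟨?_, hG.2.1⟩
    have h1 : supp C' ⊆ Γ.EU A := by
      rw [Cub.supp_subset_EU_iff]
      exact hG.2.2.1.trans (Γ.mar_subset A _)
    have h2 := h.free C' hG.1.1 hG.1.2.1 h1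
    omega
  have hvsA : ∀ C' ∈ 𝒞, Γ.vs C' ⊆ A := fun C' hC' =>
    (hmem C' hC').1.2.2.1.trans (Γ.mar_subset A _)
  set Dn : Finset (E × Bool) := univ.filter (fun x => Γ.tl x ∈ Γ.aadjNb C) with hDn
  set c : ℝ := 2 * (1 / 2 : ℝ) ^ τ with hc
  have hc0 : 0 ≤ c := by rw [hc]; positivity
  -- fibres
  let g : (E → ZMod 2) → ℕ × (E × Bool) := fun C' => ((supp C').card, w C' 0)
  have hg : ∀ C' ∈ 𝒞, g C' ∈ (range (2 * L + 1)) ×ˢ Dn := by
    intro C' hC'
    rw [Finset.mem_product, Finset.mem_range, hDn, Finset.mem_filter]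
    exact ⟨by have := (hsize C' hC').2; simp only [g]; omega, mem_univ _, hwN C' hC'⟩
  have hfib : ∀ p ∈ (range (2 * L + 1)) ×ˢ Dn, ∑ C' ∈ 𝒞.filter (fun C' => g C' = p),
      (2 : ℝ) ^ (Γ.bt (Γ.vs C) (Γ.vs C')).card * (1 / 2 : ℝ) ^ (supp C').card ≤ c := by
    rintro ⟨k, x⟩ -
    rcases (𝒞.filter (fun C' => g C' = (k, x))).eq_empty_or_nonempty with h0 | ⟨C₀, hC₀⟩
    · rw [h0, Finset.sum_empty]
      exact hc0
    have hτk : τ ≤ k := by
      rw [Finset.mem_filter] at hC₀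
      have h1 := (hsize C₀ hC₀.1).1
      have h2 : (supp C₀).card = k := congrArg Prod.fst hC₀.2
      omega
    refine le_trans ?_ (Γ.aadj_diag h.free hC (τ := τ) (by omega) (by omega) (by omega) hτk x)
    rw [pow_apply_eq_sum]
    let ι : (E → ZMod 2) → (Fin (k + 1) → E × Bool) := fun C' i => w C' i
    have hι : ∀ C' ∈ 𝒞.filter (fun C' => g C' = (k, x)),
        (2 : ℝ) ^ (Γ.bt (Γ.vs C) (Γ.vs C')).card * (1 / 2 : ℝ) ^ (supp C').card ≤
          ∏ i : Fin k, Γ.aadjM A C (ι C' i.castSucc) (ι C' i.succ) := by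
      intro C' hC'
      rw [Finset.mem_filter] at hC'
      have h2 : (supp C').card = k := congrArg Prod.fst hC'.2
      have h3 := Γ.aadj_cycle_weight (A := A) (hmem C' hC'.1).1.1.1 (hvsA C' hC'.1)
        (hmem C' hC'.1).2.1 (hwk C' hC'.1) (hwC C' hC'.1) (hwst C' hC'.1)
        (hwall C' hC'.1)
      subst h2
      exact h3
    refine (Finset.sum_le_sum hι).trans ?_
    have hinj : Set.InjOn ι (𝒞.filter (fun C' => g C' = (k, x)) : Set (E → ZMod 2)) := by
      intro C₁ h₁ C₂ h₂ he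
      rw [Finset.mem_coe, Finset.mem_filter] at h₁ h₂
      have hk1 : (supp C₁).card = k := congrArg Prod.fst h₁.2
      have hk2 : (supp C₂).card = k := congrArg Prod.fst h₂.2
      apply supp_eq_iff.1
      ext e
      rw [mem_supp, mem_supp]
      constructor
      · intro h3
        obtain ⟨i, hi, hie⟩ := hwall C₁ h₁.1 e h3
        have h4 := congrFun he ⟨i, by omega⟩
        simp only [ι] at h4
        rw [← hie, h4]
        exact hwC C₂ h₂.1 i
      · intro h3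
        obtain ⟨i, hi, hie⟩ := hwall C₂ h₂.1 e h3
        have h4 := congrFun he ⟨i, by omega⟩
        simp only [ι] at h4
        rw [← hie, ← h4]
        exact hwC C₁ h₁.1 i
    rw [← Finset.sum_image (f := fun u : Fin (k + 1) → E × Bool =>
      ∏ i : Fin k, Γ.aadjM A C (u i.castSucc) (u i.succ)) hinj]
    apply Finset.sum_le_sum_of_subset_of_nonneg
    · intro u hu
      rw [Finset.mem_image] at hu
      obtain ⟨C', hC', rfl⟩ := hu
      rw [Finset.mem_filter] at hC'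
      have h2 : (supp C').card = k := congrArg Prod.fst hC'.2
      have h3 : w C' 0 = x := congrArg Prod.snd hC'.2
      rw [Finset.mem_filter]
      refine ⟨mem_univ _, h3, ?_⟩
      have h4 := hwk C' hC'.1
      rw [h2, h3] at h4
      exact h4
    · intro u _ _
      exact Finset.prod_nonneg fun i _ => Γ.aadjM_nonneg A C _ _
  have hDcard : Dn.card ≤ 3 * (2 * L) := by
    have h1 : Dn ⊆ (Γ.aadjNb C).biUnion Γ.dt := by
      intro x hx
      rw [hDn, Finset.mem_filter] at hx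
      rw [Finset.mem_biUnion]
      exact ⟨_, hx.2, (Γ.mem_dt).2 rfl⟩
    have h2 := (Finset.card_le_card h1).trans Finset.card_biUnion_le
    simp only [Γ.card_dt, Finset.sum_const, smul_eq_mul] at h2
    have h3 := Γ.aadj_card_Nb hC.1.1
    have h4 := hC.2.1
    omega
  calc ∑ C' ∈ 𝒞, (2 : ℝ) ^ (Γ.bt (Γ.vs C) (Γ.vs C')).card * (1 / 2 : ℝ) ^ (supp C').card
      = ∑ p ∈ (range (2 * L + 1)) ×ˢ Dn, ∑ C' ∈ 𝒞.filter (fun C' => g C' = p),
        (2 : ℝ) ^ (Γ.bt (Γ.vs C) (Γ.vs C')).card * (1 / 2 : ℝ) ^ (supp C').card :=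
        (Finset.sum_fiberwise_of_maps_to hg _).symm
    _ ≤ ∑ _p ∈ (range (2 * L + 1)) ×ˢ Dn, c := Finset.sum_le_sum hfib
    _ = ((2 * L + 1 : ℕ) : ℝ) * (Dn.card : ℝ) * c := by
        rw [Finset.sum_const, Finset.card_product, Finset.card_range, nsmul_eq_mul]
        push_cast; ring
    _ ≤ ((2 * L + 1 : ℕ) : ℝ) * ((3 * (2 * L) : ℕ) : ℝ) * c := by
        gcongr
    _ ≤ 1 := by
        have hL1 : (1 : ℝ) ≤ (L : ℝ) := by
          have : 1 ≤ L := le_trans (by norm_num) hL36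
          exact_mod_cast this
        have h2d : (64 : ℝ) * (L : ℝ) ^ 2 ≤ 2 ^ d := by exact_mod_cast hLd
        have hτd : (1 / 2 : ℝ) ^ τ * (2 ^ d) ^ 2 = 4 := by
          have h1 : τ + 2 = d * 2 := by omega
          have h2 : ((2 : ℝ) ^ d) ^ 2 = 2 ^ (τ + 2) := by rw [← pow_mul, h1]
          rw [h2, pow_add, ← mul_assoc, ← mul_pow]
          norm_num
        have hpos : (0 : ℝ) < (1 / 2 : ℝ) ^ τ := by positivity
        have h3 : (1 / 2 : ℝ) ^ τ * (64 * (L : ℝ) ^ 2) ^ 2 ≤ 4 := by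
          rw [← hτd]
          gcongr
        rw [hc]
        push_cast
        have h4 : (2 * (L : ℝ) + 1) * (3 * (2 * L)) ≤ 18 * (L : ℝ) ^ 2 := by nlinarith
        have h5 : (1 : ℝ) ≤ (L : ℝ) ^ 2 := by nlinarith
        calc (2 * (L : ℝ) + 1) * (3 * (2 * L)) * (2 * (1 / 2 : ℝ) ^ τ)
            ≤ 18 * (L : ℝ) ^ 2 * (2 * (1 / 2 : ℝ) ^ τ) := by gcongr
          _ = 36 * ((1 / 2 : ℝ) ^ τ * (L : ℝ) ^ 2) := by ring
          _ ≤ 36 * ((1 / 2 : ℝ) ^ τ * ((L : ℝ) ^ 2 * (L : ℝ) ^ 2)) := by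
              gcongr
              nlinarith
          _ ≤ 1 := by nlinarith [h3]

end Pool.Agent.Lib.MP_af4270_co
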