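import Pool.Agent.Lib.MP_af4270_co.ADarts

/-!
# PAN-A3: margins

`card_sdiff_mar`. Let `n_m = |mar A m \ mar A (m+1)|`. `n_0 ≤ |bd A|`: each vertex of
`A \ mar A 1` is an end of an edge of `bd A` (choose one; an edge of `bd A` has one end in `A`).
`n_(m+1) ≤ 2 n_m`: each `x ∈ mar A (m+1) \ mar A (m+2)` has a dart to a vertex `y` which is not in
`mar A (m+1)` but (since `inc x ⊆ EU (mar A m)`) in `mar A m`, so `y ∈ mar A m \ mar A (m+1)`. Such
a `y` has an edge not inside `mar A m`, so at most 2 of its 3 darts go to `mar A (m+1) ⊆ mar A m`.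
Count the darts `y → x`. Hence `|A \ mar A m| = ∑_{i<m} n_i ≤ |bd A| (1 + 2 + ... + 2^(m-1))`.

`bd_mar_le`: every edge of `bd (mar A (m+1))` has its outer end in `mar A m \ mar A (m+1)`,
and each such vertex has at most `3` edges; so `|bd (mar A m)| ≤ 3 |A \ mar A m|` for `m ≥ 1`.

`walk_in_mar`: induction on the length: the first dart of a walk starting in `mar A (m + n + 1)` is
inside `mar A (m + n)`.
-/

set_option autoImplicit false
set_option linter.unusedSectionVars false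

namespace Pool.Agent.Lib.MP_af4270_co

open Finset

variable {V E : Type} [Fintype V] [DecidableEq V] [Fintype E] [DecidableEq E]

namespace Cub

variable (Γ : Cub V E)

theorem mar_succ_subset (A : Finset V) (m : ℕ) : Γ.mar A (m + 1) ⊆ Γ.mar A m := by
  rw [mar]
  exact Finset.filter_subset _ _

theorem mar_anti (A : Finset V) {m m' : ℕ} (h : m ≤ m') : Γ.mar A m' ⊆ Γ.mar A m := by
  induction h with
  | refl => exact Finset.Subset.refl _
  | step _ ih => exact (Γ.mar_succ_subset A _).trans ih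

theorem mar_subset (A : Finset V) (m : ℕ) : Γ.mar A m ⊆ A :=
  Γ.mar_anti A (Nat.zero_le m)

/-- all edges at a vertex of `mar A (m+1)` are inside `mar A m` -/
theorem inc_mar {A : Finset V} {m : ℕ} {x : V} (hx : x ∈ Γ.mar A (m + 1)) {e : E}
    (he : e ∈ Γ.inc x) : Γ.s e ∈ Γ.mar A m ∧ Γ.t e ∈ Γ.mar A m := by
  rw [mar, Finset.mem_filter] at hx
  exact (Γ.mem_EU).1 (hx.2 he)

/-- a vertex of `mar A m` which is not in `mar A (m+1)` has a dart leaving `mar A m` -/
theorem exists_dart_of_notMem {A : Finset V} {m : ℕ} {x : V} (hx : x ∈ Γ.mar A m)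
    (hx' : x ∉ Γ.mar A (m + 1)) : ∃ d ∈ Γ.dt x, Γ.hd d ∉ Γ.mar A m := by
  rw [mar, Finset.mem_filter, not_and] at hx'
  obtain ⟨e, he, he'⟩ := Finset.not_subset.1 (hx' hx)
  rw [mem_EU, not_and_or] at he'
  rw [mem_inc] at he
  rcases he' with he' | he'
  · have h1 : Γ.t e = x := by
      rcases he with he | he
      · rw [he] at he'; exact absurd hx he'
      · exact he
    exact ⟨(e, true), by rw [mem_dt, tl_true]; exact h1, by rw [hd_true]; exact he'⟩
  · have h1 : Γ.s e = x := by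
      rcases he with he | he
      · exact he
      · rw [he] at he'; exact absurd hx he'
    exact ⟨(e, false), by rw [mem_dt, tl_false]; exact h1, by rw [hd_false]; exact he'⟩

theorem dart_fst_mem_inc_tl (d : E × Bool) : d.1 ∈ Γ.inc (Γ.tl d) := by
  rcases d with ⟨e, b⟩
  cases b
  · exact (Γ.mem_inc).2 (Or.inl rfl)
  · exact (Γ.mem_inc).2 (Or.inr rfl)

theorem hd_mem_mar {A : Finset V} {m : ℕ} {d : E × Bool} (hx : Γ.tl d ∈ Γ.mar A (m + 1)) :
    Γ.hd d ∈ Γ.mar A m := by
  have h := Γ.inc_mar hx (Γ.dart_fst_mem_inc_tl d)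
  rcases d with ⟨e, b⟩
  cases b
  · exact h.2
  · exact h.1

theorem card_layer_zero (A : Finset V) : (A \ Γ.mar A 1).card ≤ (Γ.bd A).card := by
  have hsub : A \ Γ.mar A 1 ⊆ (Γ.bd A).image (fun e => if Γ.s e ∈ A then Γ.s e else Γ.t e) := by
    intro x hx
    rw [Finset.mem_sdiff] at hx
    obtain ⟨⟨e, b⟩, hd1, hd2⟩ := Γ.exists_dart_of_notMem (m := 0) hx.1 hx.2
    rw [mem_dt] at hd1
    change Γ.hd (e, b) ∉ A at hd2
    rw [Finset.mem_image]
    cases b
    · rw [tl_false] at hd1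
      rw [hd_false] at hd2
      refine ⟨e, ?_, ?_⟩
      · rw [mem_bd]; left; exact ⟨by rw [hd1]; exact hx.1, hd2⟩
      · rw [hd1, if_pos hx.1]
    · rw [tl_true] at hd1
      rw [hd_true] at hd2
      refine ⟨e, ?_, ?_⟩
      · rw [mem_bd]; right; exact ⟨hd2, by rw [hd1]; exact hx.1⟩
      · rw [if_neg hd2, hd1]
  exact (Finset.card_le_card hsub).trans Finset.card_image_le

theorem card_layer_succ (A : Finset V) (m : ℕ) :
    (Γ.mar A (m + 1) \ Γ.mar A (m + 2)).card ≤ 2 * (Γ.mar A m \ Γ.mar A (m + 1)).card := by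
  set T : Finset (E × Bool) := (Γ.mar A m \ Γ.mar A (m + 1)).biUnion
    (fun y => (Γ.dt y).filter (fun d => Γ.hd d ∈ Γ.mar A (m + 1))) with hT
  have hsub : Γ.mar A (m + 1) \ Γ.mar A (m + 2) ⊆ T.image Γ.hd := by
    intro x hx
    rw [Finset.mem_sdiff] at hx
    obtain ⟨d, hd1, hd2⟩ := Γ.exists_dart_of_notMem hx.1 hx.2
    rw [mem_dt] at hd1
    rw [Finset.mem_image]
    have h1 : Γ.hd d ∈ Γ.mar A m := Γ.hd_mem_mar (by rw [hd1]; exact hx.1)
    refine ⟨rv d, ?_, by rw [hd_rv, hd1]⟩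
    rw [hT, Finset.mem_biUnion]
    refine ⟨Γ.hd d, Finset.mem_sdiff.2 ⟨h1, hd2⟩, ?_⟩
    rw [Finset.mem_filter, mem_dt, tl_rv, hd_rv, hd1]
    exact ⟨rfl, hx.1⟩
  have hc : T.card ≤ 2 * (Γ.mar A m \ Γ.mar A (m + 1)).card := by
    rw [mul_comm]
    refine Finset.card_biUnion_le_card_mul _ _ _ ?_
    intro y hy
    rw [Finset.mem_sdiff] at hy
    obtain ⟨d, hd1, hd2⟩ := Γ.exists_dart_of_notMem hy.1 hy.2
    have h1 : ((Γ.dt y).filter (fun d => Γ.hd d ∈ Γ.mar A (m + 1))) ⊂ Γ.dt y := by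
      rw [Finset.ssubset_iff_of_subset (Finset.filter_subset _ _)]
      refine ⟨d, hd1, ?_⟩
      rw [Finset.mem_filter, not_and]
      intro _ h
      exact hd2 (Γ.mar_succ_subset A m h)
    have h2 := Finset.card_lt_card h1
    rw [card_dt] at h2
    omega
  exact ((Finset.card_le_card hsub).trans Finset.card_image_le).trans hc

theorem card_layer (A : Finset V) (m : ℕ) :
    (Γ.mar A m \ Γ.mar A (m + 1)).card ≤ (Γ.bd A).card * 2 ^ m := by
  induction m with
  | zero =>
    rw [pow_zero, mul_one]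
    exact Γ.card_layer_zero A
  | succ m ih =>
    have := Γ.card_layer_succ A m
    rw [pow_succ]
    calc _ ≤ _ := this
      _ ≤ 2 * ((Γ.bd A).card * 2 ^ m) := Nat.mul_le_mul_left _ ih
      _ = _ := by ring

theorem card_sdiff_mar (A : Finset V) (m : ℕ) :
    (A \ Γ.mar A m).card ≤ (Γ.bd A).card * 2 ^ m := by
  have key : (A \ Γ.mar A m).card + (Γ.bd A).card ≤ (Γ.bd A).card * 2 ^ m := by
    induction m with
    | zero => simp [mar]
    | succ m ih =>
      have h1 : A \ Γ.mar A (m + 1) ⊆ (A \ Γ.mar A m) ∪ (Γ.mar A m \ Γ.mar A (m + 1)) := by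
        intro x hx
        rw [Finset.mem_sdiff] at hx
        rw [Finset.mem_union, Finset.mem_sdiff, Finset.mem_sdiff]
        by_cases h : x ∈ Γ.mar A m
        · exact Or.inr ⟨h, hx.2⟩
        · exact Or.inl ⟨hx.1, h⟩
      have h2 := (Finset.card_le_card h1).trans (Finset.card_union_le _ _)
      have h3 := Γ.card_layer A m
      rw [pow_succ]
      calc _ ≤ (A \ Γ.mar A m).card + (Γ.mar A m \ Γ.mar A (m + 1)).card + (Γ.bd A).card := by
            omega
        _ ≤ (Γ.bd A).card * 2 ^ m + (Γ.bd A).card * 2 ^ m := by omega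
        _ = _ := by ring
  omega

theorem bd_mar_le (A : Finset V) {m : ℕ} (hm : 1 ≤ m) :
    (Γ.bd (Γ.mar A m)).card ≤ 3 * (A \ Γ.mar A m).card := by
  obtain ⟨m, rfl⟩ := Nat.exists_eq_add_of_le' hm
  set T : Finset (E × Bool) := (A \ Γ.mar A (m + 1)).biUnion (fun y => Γ.dt y) with hT
  have hsub : Γ.bd (Γ.mar A (m + 1)) ⊆ T.image Prod.fst := by
    intro e he
    rw [mem_bd] at he
    rw [Finset.mem_image]
    rcases he with ⟨h1, h2⟩ | ⟨h1, h2⟩
    · have h3 := Γ.hd_mem_mar (d := (e, false)) h1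
      rw [hd_false] at h3
      refine ⟨(e, true), ?_, rfl⟩
      rw [hT, Finset.mem_biUnion]
      exact ⟨Γ.t e, Finset.mem_sdiff.2 ⟨Γ.mar_subset A m h3, h2⟩, by rw [mem_dt, tl_true]⟩
    · have h3 := Γ.hd_mem_mar (d := (e, true)) h2
      rw [hd_true] at h3
      refine ⟨(e, false), ?_, rfl⟩
      rw [hT, Finset.mem_biUnion]
      exact ⟨Γ.s e, Finset.mem_sdiff.2 ⟨Γ.mar_subset A m h3, h1⟩, by rw [mem_dt, tl_false]⟩
  refine ((Finset.card_le_card hsub).trans Finset.card_image_le).trans ?_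
  rw [mul_comm]
  refine Finset.card_biUnion_le_card_mul _ _ _ ?_
  intro y _
  rw [card_dt]

/-- walks of length `≤ n` starting in `mar A (m + n)` stay in `mar A m` -/
theorem walk_in_mar {A : Finset V} {m n : ℕ} {x y : V} {l : List (E × Bool)}
    (hx : x ∈ Γ.mar A (m + n)) (hl : Γ.Wk x y l) (hn : l.length ≤ n) :
    y ∈ Γ.mar A m ∧ ∀ d ∈ l, Γ.dIn (Γ.mar A m) d := by
  induction l generalizing x n with
  | nil =>
    have h := hl.2.1 rfl
    subst h
    exact ⟨Γ.mar_anti A (by omega) hx, by simp⟩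
  | cons d l ih =>
    obtain ⟨h1, h2, h3, h4⟩ := hl
    rw [List.isChain_cons] at h1
    have hd : Γ.tl d = x := h3 d (by simp)
    rw [List.length_cons] at hn
    obtain ⟨n, rfl⟩ := Nat.exists_eq_add_of_le' (show 1 ≤ n by omega)
    have hh : Γ.hd d ∈ Γ.mar A (m + n) := Γ.hd_mem_mar (by rw [hd]; exact hx)
    have hw : Γ.Wk (Γ.hd d) y l := by
      refine ⟨h1.2, ?_, ?_, ?_⟩
      · rintro rfl
        exact h4 d (by simp)
      · intro d' hd'
        exact ((h1.1 d' hd').1).symm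
      · intro d' hd'
        apply h4
        cases l with
        | nil => simp at hd'
        | cons a l => simpa [List.getLast?_cons_cons] using hd'
    obtain ⟨i1, i2⟩ := ih hh hw (by omega)
    refine ⟨i1, ?_⟩
    intro d' hd'
    rcases List.mem_cons.1 hd' with rfl | hd'
    · refine ⟨?_, Γ.mar_anti A (by omega) hh⟩
      rw [hd]
      exact Γ.mar_anti A (by omega) hx
    · exact i2 d' hd'

end Cub

end Pool.Agent.Lib.MP_af4270_co
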