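import Pool.Agent.Lib.MP_af4270_co.ADarts

/-!
# PAN-A5a: closed walks with distinct vertices are cycles

`trav_of_nodup`. Let `C e = 1` if `e` is the edge of some dart of `l` and `0` otherwise.
The edges of `l` are pairwise distinct: two darts `i ≠ j` of `l` with the same edge are equal (then
equal tails, contradiction to distinct tails) or reverse to each other; then `tl (l i) = hd (l j) =
tl (l (j+1))`, so `i = j + 1` (cyclically), and `st (l j) (l (j+1))` excludes `l (j+1) = rv (l j)`.
`C ∈ Z`: at a vertex `x`, the darts of `C` leaving `x` are: `l i` with `tl (l i) = x` and `rv (l (i-1))`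
for that `i` (exactly one `i` if `x` is the tail of a dart of `l`, none otherwise), and they are
different (`st (l (i-1)) (l i)`): two darts or none.
`Single`: let `D ∈ Z`, `D ≠ 0`, `supp D ⊆ supp C`. `D` contains some `(l i).1`; at the vertex
`hd (l i) = tl (l (i+1))` the darts of `C` are `rv (l i)` and `l (i+1)`, and `D` has degree 0 or 2
there (`deg_cases`), so `D` contains `(l (i+1)).1`. Going around, `D` contains all edges of `C`.
The number of edges of `C` is `l.length` (distinct edges).

`trav_rotate`, `trav_reverse`: rotations and reversals (`(l.map rv).reverse`) of traversals.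
-/

set_option autoImplicit false
set_option linter.unusedSectionVars false

namespace Pool.Agent.Lib.MP_af4270_co

open Finset

variable {V E : Type} [Fintype V] [DecidableEq V] [Fintype E] [DecidableEq E]

namespace Cub

variable (Γ : Cub V E)

/-- the periodic sequence of the darts of a closed list -/
theorem tv_fun {A : Finset V} {k : ℕ} {l : List (E × Bool)} (hl : Γ.Cw A k l) (h0 : l ≠ []) :
    ∃ D : ℕ → E × Bool, (∀ i, D i ∈ l) ∧ (∀ d ∈ l, ∃ i, D i = d) ∧
      (∀ i, Γ.st (D i) (D (i + 1))) ∧ (∀ i, D (i + k) = D i) ∧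
      ∀ i, ∃ h : i % k < l.length, D i = l[i % k] := by
  have hk : l.length = k := hl.1
  have hpos : 0 < l.length := List.length_pos_iff.mpr h0
  have hmod : ∀ i, i % l.length < l.length := fun i => Nat.mod_lt _ hpos
  refine ⟨fun i => l[i % l.length]'(hmod i), fun i => List.getElem_mem _, ?_, ?_, ?_, ?_⟩
  · intro d hd
    obtain ⟨i, hi, rfl⟩ := List.mem_iff_getElem.mp hd
    refine ⟨i, ?_⟩
    simp only [Nat.mod_eq_of_lt hi]
  · intro i
    have hch := List.isChain_iff_getElem.mp hl.2.2.1
    by_cases h : i % l.length + 1 < l.length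
    · have h1 : (i + 1) % l.length = i % l.length + 1 := by
        rw [Nat.add_mod, Nat.mod_eq_of_lt (show 1 < l.length by omega), Nat.mod_eq_of_lt h]
      have := hch (i % l.length) h
      simp only [h1]
      exact this
    · have h2 : i % l.length = l.length - 1 := by
        have := hmod i
        omega
      have h1 : (i + 1) % l.length = 0 := by
        have h3 : (i + 1) % l.length = (i % l.length + 1) % l.length := by
          rw [Nat.mod_add_mod]
        rw [h3, h2]
        have : l.length - 1 + 1 = l.length := by omega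
        rw [this, Nat.mod_self]
      simp only [h1, h2]
      apply hl.2.2.2
      · rw [Option.mem_def, List.getLast?_eq_getElem?]
        exact List.getElem?_eq_getElem _
      · rw [Option.mem_def, List.head?_eq_getElem?]
        exact List.getElem?_eq_getElem _
  · intro i
    subst hk
    simp only [Nat.add_mod_right]
  · intro i
    subst hk
    exact ⟨hmod i, rfl⟩

theorem tv_dart {d d' : E × Bool} (h : d.1 = d'.1) : d = d' ∨ d = rv d' := by
  obtain ⟨e, u⟩ := d
  obtain ⟨f, v⟩ := d'
  dsimp only at h
  subst h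
  cases u <;> cases v <;> simp [rv]

/-- a closed non-backtracking list with distinct tails traverses a cycle -/
theorem trav_of_nodup {k : ℕ} {l : List (E × Bool)} (hl : Γ.Cw univ k l) (h0 : l ≠ [])
    (hnd : (l.map Γ.tl).Nodup) : ∃ C, Γ.Single C ∧ Γ.Trav C l := by
  classical
  obtain ⟨D, hDl, hlD, hst, hper, hget⟩ := Γ.tv_fun hl h0
  have hk : l.length = k := hl.1
  have hpos : 0 < k := by rw [← hk]; exact List.length_pos_iff.mpr h0
  -- tails determine the index
  have htl : ∀ i j, Γ.tl (D i) = Γ.tl (D j) → i % k = j % k := by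
    intro i j hij
    obtain ⟨h1, h2⟩ := hget i
    obtain ⟨h3, h4⟩ := hget j
    rw [h2, h4] at hij
    have h5 : (l.map Γ.tl)[i % k]'(by rw [List.length_map]; exact h1) =
        (l.map Γ.tl)[j % k]'(by rw [List.length_map]; exact h3) := by
      rw [List.getElem_map, List.getElem_map]
      exact hij
    exact (List.Nodup.getElem_inj_iff hnd).mp h5
  have hDeq : ∀ i j, i % k = j % k → D i = D j := by
    intro i j hij
    obtain ⟨h1, h2⟩ := hget i
    obtain ⟨h3, h4⟩ := hget j
    rw [h2, h4]
    simp only [hij]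
  have hedge : ∀ i j, (D i).1 = (D j).1 → i % k = j % k := by
    intro i j hij
    rcases tv_dart hij with h | h
    · exact htl i j (by rw [h])
    · exfalso
      have h1 : Γ.tl (D i) = Γ.tl (D (j + 1)) := by
        rw [h, tl_rv]
        exact (hst j).1
      have h2 := hDeq _ _ (htl _ _ h1)
      exact (hst j).2 (by rw [← h2, h]; rfl)
  -- the cycle
  obtain ⟨C, hC⟩ : ∃ C : E → ZMod 2, C = fun e => if ∃ d ∈ l, d.1 = e then 1 else 0 := ⟨_, rfl⟩
  have hC1 : ∀ e, C e ≠ 0 ↔ ∃ d ∈ l, d.1 = e := by
    intro e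
    rw [hC]
    by_cases h : ∃ d ∈ l, d.1 = e
    · simp only [h, if_true]
      simp
    · simp only [h, if_false]
      simp
  have hC2 : ∀ e, C e = if C e ≠ 0 then 1 else 0 := by
    intro e
    rcases zm_cases (C e) with a | a <;> simp [a]
  have hCD : ∀ i, C (D i).1 ≠ 0 := fun i => (hC1 _).mpr ⟨D i, hDl i, rfl⟩
  have hCZ : C ∈ Γ.Z := by
    rw [mem_Z]
    intro x
    have h2 : ∑ d ∈ Γ.dt x, C d.1 = ((Γ.dR C x).card : ZMod 2) := by
      rw [Finset.sum_congr rfl fun d _ => hC2 d.1, dR, ← Finset.sum_filter]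
      simp
    rw [h2]
    by_cases hx : ∃ i, Γ.tl (D i) = x
    · obtain ⟨i₀, hi₀⟩ := hx
      obtain ⟨i, hi, hi1⟩ : ∃ i, Γ.tl (D (i + 1)) = x ∧ True := by
        refine ⟨i₀ + k - 1, ?_, trivial⟩
        have : i₀ + k - 1 + 1 = i₀ + k := by omega
        rw [this, hper]
        exact hi₀
      have h3 : Γ.dR C x = {D (i + 1), rv (D i)} := by
        ext d
        rw [mem_dR, mem_insert, mem_singleton]
        constructor
        · rintro ⟨h4, h5⟩
          obtain ⟨d', hd', hdd⟩ := (hC1 _).mp h5
          obtain ⟨j, rfl⟩ := hlD d' hd'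
          rcases tv_dart hdd with h6 | h6
          · left
            rw [← h6]
            apply hDeq
            apply htl
            rw [h6, h4, hi]
          · right
            have h7 : rv (D j) = d := by rw [h6, rv_rv]
            rw [← h7]
            have h8 : Γ.tl (D (j + 1)) = Γ.tl (D (i + 1)) := by
              rw [← (hst j).1, hi, ← h4, ← h7, tl_rv]
            have h9 := htl _ _ h8
            have h10 : j % k = i % k := by
              have : (j + 1) ≡ (i + 1) [MOD k] := h9
              exact Nat.ModEq.add_right_cancel' 1 this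
            rw [hDeq _ _ h10]
        · rintro (rfl | rfl)
          · exact ⟨hi, hCD _⟩
          · refine ⟨?_, hCD i⟩
            rw [tl_rv, (hst i).1, hi]
      rw [h3, Finset.card_pair (show D (i + 1) ≠ rv (D i) from (hst i).2)]
      decide
    · have h3 : Γ.dR C x = ∅ := by
        rw [Finset.eq_empty_iff_forall_notMem]
        intro d hd
        rw [mem_dR] at hd
        obtain ⟨d', hd', hdd⟩ := (hC1 _).mp hd.2
        obtain ⟨j, rfl⟩ := hlD d' hd'
        rcases tv_dart hdd with h6 | h6
        · exact hx ⟨j, by rw [h6, hd.1]⟩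
        · refine hx ⟨j + 1, ?_⟩
          have h7 : rv (D j) = d := by rw [h6, rv_rv]
          rw [← (hst j).1, ← hd.1, ← h7, tl_rv]
      rw [h3]
      simp
  have hC0 : C ≠ 0 := by
    intro h
    apply hCD 0
    rw [h]
    rfl
  have hsingle : Γ.Single C := by
    refine ⟨hCZ, hC0, ?_⟩
    intro R hR hR0 hsub
    obtain ⟨e, he⟩ := supp_nonempty hR0
    obtain ⟨d', hd', hdd⟩ := (hC1 e).mp (mem_supp.mp (hsub he))
    obtain ⟨i, rfl⟩ := hlD d' hd'
    have hstep : ∀ j, R (D j).1 ≠ 0 → R (D (j + 1)).1 ≠ 0 := by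
      intro j hj
      have hx : Γ.hd (D j) ∈ Γ.vs R := by
        rw [mem_vs_iff_dart]
        exact ⟨rv (D j), by rw [mem_dt, tl_rv], hj⟩
      apply Γ.sub_closed hR hCZ hsub hx _ (hCD _)
      rw [(hst j).1]
      exact Γ.fst_mem_inc (by rw [mem_dt])
    have hall : ∀ j, R (D (i + j)).1 ≠ 0 := by
      intro j
      induction j with
      | zero =>
        rw [add_zero, hdd]
        exact mem_supp.mp he
      | succ j ih => exact hstep _ ih
    rw [← supp_eq_iff]
    apply Finset.Subset.antisymm hsub
    intro f hf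
    rw [mem_supp] at hf ⊢
    obtain ⟨d, hd, hdf⟩ := (hC1 f).mp hf
    obtain ⟨j, rfl⟩ := hlD d hd
    rw [← hdf]
    have h1 : D (i + (j + (k - 1) * i)) = D j := by
      apply hDeq
      have : i + (j + (k - 1) * i) = j + k * i := by
        obtain ⟨k', rfl⟩ := Nat.exists_eq_succ_of_ne_zero hpos.ne'
        simp only [Nat.succ_sub_one, Nat.succ_eq_add_one]
        ring
      rw [this, Nat.add_mul_mod_self_left]
    rw [← h1]
    exact hall _
  refine ⟨C, hsingle, ⟨?_, hl.2⟩, hC1⟩
  have h1 : supp C = (l.map Prod.fst).toFinset := by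
    ext e
    rw [mem_supp, hC1, List.mem_toFinset, List.mem_map]
  have h2 : (l.map Prod.fst).Nodup := by
    rw [List.nodup_iff_injective_getElem]
    rintro ⟨i, hi⟩ ⟨j, hj⟩ hij
    rw [List.length_map] at hi hj
    dsimp only at hij
    rw [List.getElem_map, List.getElem_map] at hij
    have h3 : D i = l[i] := by
      obtain ⟨h4, h5⟩ := hget i
      rw [h5]
      simp only [Nat.mod_eq_of_lt (show i < k by omega)]
    have h4 : D j = l[j] := by
      obtain ⟨h4, h5⟩ := hget j
      rw [h5]
      simp only [Nat.mod_eq_of_lt (show j < k by omega)]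
    have h5 := hedge i j (by rw [h3, h4]; exact hij)
    rw [Nat.mod_eq_of_lt (show i < k by omega), Nat.mod_eq_of_lt (show j < k by omega)] at h5
    exact Fin.ext h5
  rw [h1, List.toFinset_card_of_nodup h2, List.length_map]

theorem tv_rotate_one {A : Finset V} {k : ℕ} {l : List (E × Bool)} (hl : Γ.Cw A k l) :
    Γ.Cw A k (l.rotate 1) := by
  cases l with
  | nil => exact hl
  | cons a t =>
    rw [List.rotate_cons_succ, List.rotate_zero]
    obtain ⟨h1, h2, h3, h4⟩ := hl
    refine ⟨by rw [← h1]; simp, ?_, ?_, ?_⟩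
    · intro d hd
      apply h2
      rw [List.mem_append, List.mem_singleton] at hd
      rw [List.mem_cons]
      tauto
    · rw [List.isChain_append]
      refine ⟨h3.tail, List.isChain_singleton a, ?_⟩
      intro x hx y hy
      have hya : y = a := by simpa [eq_comm] using hy
      rw [hya]
      cases t with
      | nil => simp at hx
      | cons b t' =>
        apply h4 x _ a (by simp)
        rw [List.getLast?_cons_cons]
        exact hx
    · intro x hx y hy
      have hxa : x = a := by simpa [eq_comm] using hx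
      rw [hxa]
      cases t with
      | nil =>
        have hya : y = a := by simpa [eq_comm] using hy
        rw [hya]
        exact h4 a (by simp) a (by simp)
      | cons b t' =>
        have hyb : y = b := by simpa [eq_comm] using hy
        rw [hyb]
        rw [List.isChain_cons_cons] at h3
        exact h3.1

theorem cw_rotate {A : Finset V} {k : ℕ} {l : List (E × Bool)} (hl : Γ.Cw A k l) (i : ℕ) :
    Γ.Cw A k (l.rotate i) := by
  induction i with
  | zero => rwa [List.rotate_zero]
  | succ i ih =>
    rw [← List.rotate_rotate]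
    exact Γ.tv_rotate_one ih

theorem cw_reverse {A : Finset V} {k : ℕ} {l : List (E × Bool)} (hl : Γ.Cw A k l) :
    Γ.Cw A k (l.map rv).reverse := by
  obtain ⟨h1, h2, h3, h4⟩ := hl
  refine ⟨by rw [List.length_reverse, List.length_map]; exact h1, ?_, ?_, ?_⟩
  · intro d hd
    rw [List.mem_reverse, List.mem_map] at hd
    obtain ⟨q, hq, rfl⟩ := hd
    rw [dIn_rv]
    exact h2 q hq
  · rw [List.isChain_reverse, List.isChain_map]
    refine h3.imp fun a b hab => ?_
    exact Γ.st_rv.mpr hab
  · intro a ha b hb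
    rw [List.getLast?_reverse, List.head?_map, Option.mem_def, Option.map_eq_some_iff] at ha
    rw [List.head?_reverse, List.getLast?_map, Option.mem_def, Option.map_eq_some_iff] at hb
    obtain ⟨p, hp, rfl⟩ := ha
    obtain ⟨q, hq, rfl⟩ := hb
    exact Γ.st_rv.mpr (h4 q hq p hp)

theorem trav_rotate {C : E → ZMod 2} {l : List (E × Bool)} (hl : Γ.Trav C l) (i : ℕ) :
    Γ.Trav C (l.rotate i) := by
  refine ⟨Γ.cw_rotate hl.1 i, fun e => ?_⟩
  rw [hl.2 e]
  simp only [List.mem_rotate]

theorem trav_reverse {C : E → ZMod 2} {l : List (E × Bool)} (hl : Γ.Trav C l) :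
    Γ.Trav C (l.map rv).reverse := by
  refine ⟨Γ.cw_reverse hl.1, fun e => ?_⟩
  rw [hl.2 e]
  constructor
  · rintro ⟨d, hd, rfl⟩
    refine ⟨rv d, ?_, rfl⟩
    rw [List.mem_reverse, List.mem_map]
    exact ⟨d, hd, rfl⟩
  · rintro ⟨d, hd, rfl⟩
    rw [List.mem_reverse, List.mem_map] at hd
    obtain ⟨q, hq, rfl⟩ := hd
    exact ⟨q, hq, rfl⟩

/-- the vertices of a traversed cycle are the tails of the darts -/
theorem trav_vs {C : E → ZMod 2} {l : List (E × Bool)} (hl : Γ.Trav C l) (x : V) :
    x ∈ Γ.vs C ↔ x ∈ l.map Γ.tl := by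
  rw [mem_vs_iff_dart, List.mem_map]
  constructor
  · rintro ⟨d, hd, hCd⟩
    rw [mem_dt] at hd
    obtain ⟨d', hd', hdd⟩ := (hl.2 _).mp hCd
    rcases tv_dart hdd with h | h
    · exact ⟨d', hd', by rw [h, hd]⟩
    · obtain ⟨D, hDl, hlD, hst, -, -⟩ := Γ.tv_fun hl.1 (List.ne_nil_of_mem hd')
      obtain ⟨j, rfl⟩ := hlD d' hd'
      refine ⟨D (j + 1), hDl _, ?_⟩
      rw [← (hst j).1, h, hd_rv, hd]
  · rintro ⟨d, hd, hx⟩
    exact ⟨d, by rw [mem_dt, hx], (hl.2 _).mpr ⟨d, hd, rfl⟩⟩

end Cub

end Pool.Agent.Lib.MP_af4270_co
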