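import Pool.Agent.Lib.MP_af4270_co.AUniq
import Pool.Agent.Lib.MP_af4270_co.AMargin
import Pool.Agent.Lib.MP_af4270_co.ATrav

/-!
# PAN-A5: a closed non-backtracking walk is a good cycle or passes near one

Setting: `A` without cycles of length `≤ ℓ`, `16 d + 16 ≤ ℓ`. `l` a closed non-backtracking list of
`k ≤ 2 L` darts in `mar A (4 d)` (`Γ.Cw (mar A (4d)) k l`), `k ≥ 1`. By `no_closed`, `k > ℓ`.

Write `v i` for the tail of the dart number `i` (indices mod `k`). An APPROACH is `(i, a, η)` with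
`i < k`, `0 < a < k`, `η` a non-backtracking walk (`Wk`) of length `g ≤ 4 d` from `v i` to
`v (i+a)`, with `η ≠` the forward list `l[i, i+a)` and `η ≠` the reversed backward list
`(l[i+a, i+k)).map rv .reverse`. In rotated form: `l.rotate i = α ++ β`, `α.length = a`,
`α, β ≠ []`, `Wk x y η`, `Wk x y α`, `Wk y x β`, `η ≠ α`, `η ≠ (β.map rv).reverse`.
All approach walks stay in `mar A (2 d)` (`walk_in_mar` for the first half, and for the second half
seen from the other end), in particular in `A`.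
(0) By `walk_unique`, `a + g > ℓ` and `(k - a) + g > ℓ` for every approach.

Case 1: there is no approach with `g ≤ 2 d`. Then the `v i` are distinct (`g = 0`), so `l` is a
traversal of the cycle `C` := indicator of its edges: `C ∈ Z` (telescoping), edges distinct, `C`
minimal: an even `D ≠ 0` with `supp D ⊆ supp C` contains with one edge both neighbours (degree 2 at
each vertex), so it is everything. `C` is good: `supp C` has `k ≤ 2 L` edges, `vs C ⊆ mar A (4 d) ⊆
mar A (2 d)`; a walk `η` of length `≤ 2 d` from `v i` to `v j`: if `i = j` it is empty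
(`no_closed`), otherwise it is not an approach, so it is a part of `l` or of the reverse of `l`,
all its edges are edges of `C`.

Case 2: there is an approach with `g ≤ 2 d`, in particular one with `g ≤ 4 d`. Choose an approach
(with `g ≤ 4 d`) with `a` minimal, and then `g` minimal. Reversal (`(i+a, k-a, reverse η)`) is an
approach too, so `2 a ≤ k`. Let `α` be the forward part, `κ := α ++ (η.map rv).reverse`.
 (i) for `i ≤ h < h' ≤ i + a`, `(h, h') ≠ (i, i+a)`: no approach between `v h` and `v h'` (it would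
   have smaller `a`); in particular `v h ≠ v h'` (`g = 0`). If `v i = v (i+a)` then `g = 0` by the
   choice of `g` (the empty walk is an approach), `κ = α`.
 (ii) if `g ≥ 1`: the vertices of `η` are distinct (`no_closed`); an inner vertex `z` of `η`
   equal to some `v h`, `i < h < i + a`: the two parts of `η` are walks from `v i` to `v h` and from
   `v h` to `v (i+a)` of length `≤ 4 d`, they are not approaches by minimality, so each is equal to
   the forward part of `l` (the backward parts have length `≥ k - a ≥ k / 2 > 4 d`), hence `η = α`: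
   contradiction; `z = v i` or `z = v (i+a)` is excluded by distinctness. So `κ` has distinct
   vertices and traverses a cycle `C` (as in case 1; the junctions are non-backtracking since the
   vertices are distinct and `κ.length = a + g > ℓ ≥ 3`).
 (iii) `C` is good: `vs C ⊆ mar A (2 d)`, `|C| = a + g ≤ k / 2 + 4 d ≤ k ≤ 2 L`. Let `θ` be a walk of
   length `≤ 2 d` with ends `z, z'` on `C` (it stays in `A`).
   - `z = v h`, `z' = v h'` both on `α`, `h ≤ h'` (else reverse `θ`). `h = h'`: `θ` empty. If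
     `(h, h') ≠ (i, i+a)`: `θ` is not an approach, so `θ` = forward part of `l` (the backward part is
     too long), its edges are in `C`. If `(h, h') = (i, i+a)`: `θ` and `η` are walks with the same ends
     of total length `≤ 6 d`, so `θ = η`.
   - `z` an inner vertex of `η`, `z' = v h` on `α`: let `η₁` be the part of `η` from `v i` to `z` and
     `η₂` the part from `z` to `v (i+a)`; one of them has length `≤ 2 d`, say `η₁` (the other case is
     symmetric). If `η₁ ++ θ` is a (non-backtracking) walk, its length is `≤ 4 d`, it goes from `v i` to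
     `v h`; if `h = i`: it is empty by `no_closed`: contradiction to `z` inner, so it is not an
     approach unless `h = i + a`; for `i < h < i + a` it equals the forward part of `l`, which has
     no inner vertex `z` : contradiction; for `h = i + a` it equals `η` (`walk_unique`), so `θ = η₂`.
     If `η₁ ++ θ` backtracks at `z`, cancel: `η₁ = η₁' ++ ρ`, `θ = reverse ρ ++ θ'` with `ρ` maximal;
     the edges of `ρ` are in `C`; `η₁' ++ θ'` is a walk from `v i` to `v h`, of length `≤ 4 d`, and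
     starts the same analysis: it is empty or equal to the forward part or (for `h = i + a`) to `η`;
     in all cases the edges of `θ'` are edges of `C`.
   - both `z, z'` on `η`: `θ` and the part of `η` between them (possibly reversed) have total length
     `≤ 6 d`, so they are equal.
So the second alternative of the theorem holds with `κ` (`κ.take a = α`).
-/

set_option autoImplicit false
set_option linter.unusedSectionVars false

namespace Pool.Agent.Lib.MP_af4270_co

open Finset

variable {V E : Type} [Fintype V] [DecidableEq V] [Fintype E] [DecidableEq E]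

namespace Cub

variable (Γ : Cub V E)

/-! ### walks -/

theorem ap_nil (x : V) : Γ.Wk x x [] := by
  refine ⟨List.isChain_nil, fun _ => rfl, ?_, ?_⟩ <;> intro d hd <;> simp at hd

theorem ap_of_nil {x y : V} (h : Γ.Wk x y []) : x = y := h.2.1 rfl

theorem ap_start {x y x' y' : V} {l : List (E × Bool)} (h : Γ.Wk x y l) (h' : Γ.Wk x' y' l)
    (h0 : l ≠ []) : x = x' ∧ y = y' := by
  obtain ⟨d, l', rfl⟩ := List.exists_cons_of_ne_nil h0
  constructor
  · rw [← h.2.2.1 d (by simp), ← h'.2.2.1 d (by simp)]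
  · obtain ⟨a, ha⟩ : ∃ a, (d :: l').getLast? = some a :=
      Option.ne_none_iff_exists'.mp (by simp)
    rw [← h.2.2.2 a (by rw [ha]; rfl), ← h'.2.2.2 a (by rw [ha]; rfl)]

/-- the end is determined by the start -/
theorem ap_end {x y y' : V} {l : List (E × Bool)} (h : Γ.Wk x y l) (h' : Γ.Wk x y' l) :
    y = y' := by
  by_cases h0 : l = []
  · subst h0
    rw [← Γ.ap_of_nil h, ← Γ.ap_of_nil h']
  · exact (Γ.ap_start h h' h0).2

theorem ap_cons {x y : V} {d : E × Bool} {l : List (E × Bool)} (h : Γ.Wk x y (d :: l)) :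
    Γ.tl d = x ∧ Γ.Wk (Γ.hd d) y l := by
  refine ⟨h.2.2.1 d (by simp), ?_⟩
  have h1 := h.1
  refine ⟨h1.tail, ?_, ?_, ?_⟩
  · rintro rfl
    exact h.2.2.2 d (by simp)
  · intro e he
    cases l with
    | nil => simp at he
    | cons a l' =>
      rw [List.isChain_cons_cons] at h1
      have : a = e := by simpa using he
      rw [← this]
      exact h1.1.1.symm
  · intro e he
    apply h.2.2.2 e
    cases l with
    | nil => simp at he
    | cons a l' => simpa using he

theorem ap_mid {x y z : V} {l l' : List (E × Bool)} (h : Γ.Wk x y (l ++ l')) (hz : Γ.Wk x z l) :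
    Γ.Wk z y l' := by
  obtain ⟨w, h1, h2⟩ := Wk.split Γ h
  rwa [Γ.ap_end hz h1]

theorem ap_mid' {x y z : V} {l l' : List (E × Bool)} (h : Γ.Wk x y (l ++ l'))
    (hz : Γ.Wk z y l') : Γ.Wk x z l := by
  obtain ⟨w, h1, h2⟩ := Wk.split Γ h
  by_cases h0 : l' = []
  · subst h0
    rw [Γ.ap_of_nil hz, ← Γ.ap_of_nil h2]
    exact h1
  · rwa [(Γ.ap_start hz h2 h0).1]

theorem ap_one (d : E × Bool) : Γ.Wk (Γ.tl d) (Γ.hd d) [d] := by
  refine ⟨List.isChain_singleton d, fun h => absurd h (by simp), ?_, ?_⟩ <;>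
    intro e he <;> simp at he <;> rw [he]

theorem ap_snoc {x y : V} {d : E × Bool} {l : List (E × Bool)} (h : Γ.Wk x y (l ++ [d])) :
    Γ.Wk x (Γ.tl d) l ∧ Γ.hd d = y := by
  obtain ⟨w, h1, h2⟩ := Wk.split Γ h
  have h3 := Γ.ap_start h2 (Γ.ap_one d) (by simp)
  rw [← h3.1]
  exact ⟨h1, h3.2.symm⟩

/-- a list is duplicate free if it has no two positions with the same value -/
theorem ap_nodup {α β : Type} (f : α → β) (l : List α)
    (h : ∀ l₁ l₂ l₃ p p', l = l₁ ++ p :: (l₂ ++ p' :: l₃) → f p ≠ f p') : (l.map f).Nodup := by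
  induction l with
  | nil => simp
  | cons a t ih =>
    rw [List.map_cons, List.nodup_cons]
    constructor
    · intro hmem
      rw [List.mem_map] at hmem
      obtain ⟨b, hb, hab⟩ := hmem
      obtain ⟨l₂, l₃, hl⟩ := List.append_of_mem hb
      exact h [] l₂ l₃ a b (by rw [hl]; rfl) hab.symm
    · apply ih
      intro l₁ l₂ l₃ p p' hl
      exact h (a :: l₁) l₂ l₃ p p' (by rw [hl]; rfl)

/-- two parts of a closed list -/
theorem ap_two {A : Finset V} {k : ℕ} {α β : List (E × Bool)} (h : Γ.Cw A k (α ++ β))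
    (hα : α ≠ []) (hβ : β ≠ []) : ∃ x y, Γ.Wk x y α ∧ Γ.Wk y x β ∧ x ∈ A ∧ y ∈ A := by
  obtain ⟨a, α', rfl⟩ := List.exists_cons_of_ne_nil hα
  obtain ⟨b, β', rfl⟩ := List.exists_cons_of_ne_nil hβ
  obtain ⟨-, hin, hch, hcl⟩ := h
  refine ⟨Γ.tl a, Γ.tl b, ?_, ?_, (hin a (by simp)).1, (hin b (by simp)).1⟩
  · rw [List.isChain_append] at hch
    refine ⟨hch.1, fun h => absurd h (by simp), fun d hd => ?_, fun d hd => ?_⟩
    · have : a = d := by simpa using hd
      rw [this]
    · exact (hch.2.2 d hd b (by simp)).1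
  · rw [List.isChain_append] at hch
    refine ⟨hch.2.1, fun h => absurd h (by simp), fun d hd => ?_, fun d hd => ?_⟩
    · have : b = d := by simpa using hd
      rw [this]
    · refine (hcl d ?_ a (by simp)).1
      rw [List.getLast?_append]
      rw [Option.mem_def] at hd
      rw [hd]
      rfl

/-- an approach: `α` a part of the closed list `l`, `η` a different walk with the same ends -/
def App (l : List (E × Bool)) (a g : ℕ) : Prop :=
  ∃ (i : ℕ) (x y : V) (α β η : List (E × Bool)), l.rotate i = α ++ β ∧ α.length = a ∧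
    α ≠ [] ∧ β ≠ [] ∧ Γ.Wk x y η ∧ Γ.Wk x y α ∧ Γ.Wk y x β ∧ η.length = g ∧ η ≠ α ∧
    η ≠ (β.map rv).reverse

theorem ap_univ {A : Finset V} {k : ℕ} {l : List (E × Bool)} (h : Γ.Cw A k l) :
    Γ.Cw univ k l :=
  ⟨h.1, fun _ _ => ⟨mem_univ _, mem_univ _⟩, h.2.2⟩

/-- short walks starting deep inside `A` stay in `A` -/
theorem ap_inA {A : Finset V} {m : ℕ} {x y : V} {θ : List (E × Bool)} (hx : x ∈ Γ.mar A m)
    (hθ : Γ.Wk x y θ) (hn : θ.length ≤ m) : ∀ e ∈ θ, Γ.dIn A e := by
  have h1 : x ∈ Γ.mar A (0 + m) := by rw [zero_add]; exact hx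
  exact (walk_in_mar Γ h1 hθ hn).2

theorem ap_mar {A : Finset V} {m n : ℕ} {x y : V} {θ : List (E × Bool)}
    (hx : x ∈ Γ.mar A (m + n)) (hθ : Γ.Wk x y θ) (hn : θ.length ≤ n) : y ∈ Γ.mar A m :=
  (walk_in_mar Γ hx hθ hn).1

theorem ap_mem {B : Finset V} {x z : V} {l : List (E × Bool)} (h : Γ.Wk x z l)
    (hB : ∀ e ∈ l, Γ.dIn B e) (hx : x ∈ B) : z ∈ B := by
  rcases List.eq_nil_or_concat l with rfl | ⟨l', d, rfl⟩
  · rwa [← Γ.ap_of_nil h]
  · rw [List.concat_eq_append] at h
    rw [← (Γ.ap_snoc h).2]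
    exact (hB d (by simp)).2

omit [Fintype V] [DecidableEq V] [Fintype E] [DecidableEq E] in
theorem ap_rev_rev (l : List (E × Bool)) : (((l.map rv).reverse).map rv).reverse = l := by
  rw [List.map_reverse, List.reverse_reverse, List.map_map]
  have : (rv ∘ rv : E × Bool → E × Bool) = id := by
    funext d
    simp [rv]
  rw [this, List.map_id]

/-- no closed short walks -/
theorem ap_closed {A : Finset V} {ℓ m : ℕ} (hA : Γ.Free ℓ A) (hm : m ≤ ℓ) {x : V}
    {θ : List (E × Bool)} (hx : x ∈ Γ.mar A m) (hθ : Γ.Wk x x θ) (hn : θ.length ≤ m) :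
    θ = [] := by
  by_contra h0
  have := no_closed Γ hA hθ (Γ.ap_inA hx hθ hn) h0
  omega

theorem ap_case1 {A : Finset V} {ℓ d L k : ℕ} (hA : Γ.Free ℓ A) (hd : 16 * d + 16 ≤ ℓ)
    (hk : k ≤ 2 * L) (h0 : 0 < k) {l : List (E × Bool)} (hl : Γ.Cw (Γ.mar A (4 * d)) k l)
    (hno : ∀ a g, g ≤ 2 * d → ¬ Γ.App l a g) : ∃ C, Γ.Good A d L C ∧ Γ.Trav C l := by
  have hl0 : l ≠ [] := by
    rintro rfl
    have := hl.1
    simp at this
    omega
  have hnd : (l.map Γ.tl).Nodup := by
    apply ap_nodup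
    intro l₁ l₂ l₃ p p' hl' heq
    have hrot : l.rotate l₁.length = (p :: l₂) ++ (p' :: (l₃ ++ l₁)) := by
      rw [hl', List.rotate_append_length_eq]
      simp
    have hcw := cw_rotate Γ hl l₁.length
    rw [hrot] at hcw
    obtain ⟨x, y, h1, h2, -, -⟩ := Γ.ap_two hcw (by simp) (by simp)
    have hx : Γ.tl p = x := h1.2.2.1 p (by simp)
    have hy : Γ.tl p' = y := h2.2.2.1 p' (by simp)
    have hxy : x = y := by rw [← hx, ← hy, heq]
    subst hxy
    exact hno _ 0 (Nat.zero_le _) ⟨l₁.length, x, x, _, _, [], hrot, rfl, by simp, by simp,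
      Γ.ap_nil x, h1, h2, rfl, by simp, by simp⟩
  obtain ⟨C, hS, hT⟩ := trav_of_nodup Γ (Γ.ap_univ hl) hl0 hnd
  refine ⟨C, ⟨hS, ?_, ?_, ?_⟩, hT⟩
  · rw [← hT.1.1, hl.1]
    exact hk
  · intro z hz
    rw [trav_vs Γ hT, List.mem_map] at hz
    obtain ⟨p, hp, rfl⟩ := hz
    exact mar_anti Γ A (by omega) (hl.2.1 p hp).1
  · intro z z' θ hz hz' hθ hlen e he
    rw [trav_vs Γ hT, List.mem_map] at hz hz'
    obtain ⟨p, hp, hpz⟩ := hz
    obtain ⟨p', hp', hpz'⟩ := hz'
    have hzm : z ∈ Γ.mar A (2 * d) := by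
      rw [← hpz]
      exact mar_anti Γ A (by omega) (hl.2.1 p hp).1
    by_cases hzz : z = z'
    · subst hzz
      have := Γ.ap_closed hA (by omega) hzm hθ hlen
      rw [this] at he
      simp at he
    · by_contra hC
      have hnotl : ∀ m : List (E × Bool), (∀ q ∈ m, q ∈ l) → θ ≠ m ∧ θ ≠ (m.map rv).reverse := by
        intro m hm
        constructor
        · rintro rfl
          exact (hT.2 e.1).mpr ⟨e, hm e he, rfl⟩ hC
        · rintro rfl
          rw [List.mem_reverse, List.mem_map] at he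
          obtain ⟨q, hq, rfl⟩ := he
          exact (hT.2 q.1).mpr ⟨q, hm q hq, rfl⟩ hC
      obtain ⟨l₁, l₂, hl'⟩ := List.append_of_mem hp
      have hpp : p' ≠ p := by
        rintro rfl
        exact hzz (hpz.symm.trans hpz')
      have hp'' : p' ∈ l₂ ++ l₁ := by
        rw [hl', List.mem_append, List.mem_cons] at hp'
        rw [List.mem_append]
        tauto
      obtain ⟨m₁, m₂, hm⟩ := List.append_of_mem hp''
      have hrot : l.rotate l₁.length = (p :: m₁) ++ (p' :: m₂) := by
        rw [hl', List.rotate_append_length_eq, List.cons_append, hm, List.cons_append]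
      have hcw := cw_rotate Γ hl l₁.length
      rw [hrot] at hcw
      obtain ⟨x, y, h1, h2, -, -⟩ := Γ.ap_two hcw (by simp) (by simp)
      have hx : Γ.tl p = x := h1.2.2.1 p (by simp)
      have hy : Γ.tl p' = y := h2.2.2.1 p' (by simp)
      have hsub : ∀ q ∈ (p :: m₁) ++ (p' :: m₂), q ∈ l := by
        intro q hq
        rw [← hrot, List.mem_rotate] at hq
        exact hq
      rw [← hx, hpz] at h1 h2
      rw [← hy, hpz'] at h1 h2
      exact hno _ θ.length hlen ⟨l₁.length, z, z', _, _, θ, hrot, rfl, by simp, by simp,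
        hθ, h1, h2, rfl,
        (hnotl _ fun q hq => hsub q (List.mem_append_left _ hq)).1,
        (hnotl _ fun q hq => hsub q (List.mem_append_right _ hq)).2⟩

theorem ap_rev_ne {a b : List (E × Bool)} (h : a ≠ (b.map rv).reverse) :
    (a.map rv).reverse ≠ b := by
  intro h1
  apply h
  rw [← h1, ap_rev_rev]

theorem ap_mem_rev {a : List (E × Bool)} {e : E × Bool} (h : e ∈ a) :
    rv e ∈ (a.map rv).reverse := by
  rw [List.mem_reverse, List.mem_map]
  exact ⟨e, h, rfl⟩

/-- a minimal approach gives a good cycle -/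
theorem ap_case2 {A : Finset V} {ℓ d L k a g : ℕ} (hA : Γ.Free ℓ A) (hd : 16 * d + 16 ≤ ℓ)
    (hk : k ≤ 2 * L) {l : List (E × Bool)} (hl : Γ.Cw (Γ.mar A (4 * d)) k l)
    (hmin : ∀ a' g', g' ≤ 4 * d → Γ.App l a' g' → a ≤ a') (hg : g ≤ 4 * d)
    (happ : Γ.App l a g) :
    ∃ (i a g : ℕ) (α β κ : List (E × Bool)) (C : E → ZMod 2), l.rotate i = α ++ β ∧
      α.length = a ∧ 1 ≤ a ∧ 2 * a ≤ k ∧ g ≤ 4 * d ∧ Γ.Good A d L C ∧ Γ.Trav C κ ∧
      κ.length = a + g ∧ κ.take a = α := by
  obtain ⟨i, x, y, α, β, η, hrot, hαa, hα0, hβ0, hη, hα, hβ, hηg, hne1, hne2⟩ := happ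
  have hcw := cw_rotate Γ hl i
  have hlen : α.length + β.length = k := by
    rw [← List.length_append, ← hrot, List.length_rotate]
    exact hl.1
  obtain ⟨x', y', h1, h2, hx, hy⟩ := Γ.ap_two (by rw [← hrot]; exact hcw) hα0 hβ0
  obtain ⟨e1, e2⟩ := Γ.ap_start hα h1 hα0
  subst e1 e2
  clear h1 h2
  have hin : ∀ e ∈ l, Γ.dIn (Γ.mar A (4 * d)) e := hl.2.1
  have hinα : ∀ e ∈ α, Γ.dIn (Γ.mar A (4 * d)) e := fun e he => hin e (by
    rw [← List.mem_rotate (n := i), hrot]
    exact List.mem_append_left _ he)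
  have hinαA : ∀ e ∈ α, Γ.dIn A e := fun e he =>
    ⟨mar_subset Γ A _ (hinα e he).1, mar_subset Γ A _ (hinα e he).2⟩
  have hinη : ∀ e ∈ η, Γ.dIn A e := Γ.ap_inA hx hη (by omega)
  -- lengths
  have hag : ℓ < a + g := by
    by_contra hcon
    exact hne1 (walk_unique Γ hA hη hα hinη hinαA (by omega))
  have hβa : a ≤ β.length := by
    refine hmin _ g hg ⟨i + α.length, y, x, β, α, (η.map rv).reverse, ?_, rfl, hβ0, hα0,
      Wk.reverse Γ hη, hβ, hα, ?_, ap_rev_ne hne2, ?_⟩
    · rw [← List.rotate_rotate, hrot, List.rotate_append_length_eq]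
    · rw [List.length_reverse, List.length_map, hηg]
    · intro h
      apply hne1
      rw [← ap_rev_rev η, h, ap_rev_rev]
  -- short walks between vertices of `α`
  have P1 : ∀ (α₁ δ α₃ θ : List (E × Bool)) (z z' : V), α = α₁ ++ (δ ++ α₃) →
      (α₁ ≠ [] ∨ α₃ ≠ []) → Γ.Wk x z α₁ → Γ.Wk z z' δ → Γ.Wk z z' θ → θ.length ≤ 4 * d →
      θ = δ := by
    intro α₁ δ α₃ θ z z' hαe hor hz hδ hθ hθl
    by_contra hne
    have hzm : z ∈ Γ.mar A (4 * d) := Γ.ap_mem hz (fun e he => hinα e (by
      rw [hαe]; exact List.mem_append_left _ he)) hx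
    by_cases hδ0 : δ = []
    · subst hδ0
      have := Γ.ap_of_nil hδ
      subst this
      exact hne (Γ.ap_closed hA (by omega) hzm hθ hθl)
    · have hlα : α.length = α₁.length + (δ.length + α₃.length) := by
        rw [hαe, List.length_append, List.length_append]
      have hpos : 0 < α₁.length + α₃.length := by
        rcases hor with h | h
        · have := List.length_pos_iff.mpr h
          omega
        · have := List.length_pos_iff.mpr h
          omega
      have hrot' : l.rotate (i + α₁.length) = δ ++ (α₃ ++ β ++ α₁) := by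
        rw [← List.rotate_rotate, hrot, hαe, List.append_assoc, List.rotate_append_length_eq]
        simp only [List.append_assoc]
      have hrest0 : α₃ ++ β ++ α₁ ≠ [] := by
        simp [hβ0]
      have hcw' := cw_rotate Γ hl (i + α₁.length)
      rw [hrot'] at hcw'
      obtain ⟨u, v, hu, hv, -, -⟩ := Γ.ap_two hcw' hδ0 hrest0
      obtain ⟨e1, e2⟩ := Γ.ap_start hδ hu hδ0
      subst e1 e2
      have h3 := hmin δ.length θ.length hθl ⟨i + α₁.length, z, z', δ, α₃ ++ β ++ α₁, θ, hrot',
        rfl, hδ0, hrest0, hθ, hδ, hv, rfl, hne, ?_⟩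
      · omega
      · intro h4
        have h5 := congrArg List.length h4
        rw [List.length_reverse, List.length_map, List.length_append, List.length_append] at h5
        omega
  have P2 : ∀ (α₁ α₂ α₁' α₂' θ : List (E × Bool)) (z z' : V), α = α₁ ++ α₂ → α = α₁' ++ α₂' →
      Γ.Wk x z α₁ → Γ.Wk x z' α₁' → α₁.length ≤ α₁'.length → Γ.Wk z z' θ →
      θ.length ≤ 4 * d → ∀ e ∈ θ, e ∈ α ∨ e ∈ η := by
    intro α₁ α₂ α₁' α₂' θ z z' h1 h2 hz hz' hle hθ hθl e he
    obtain ⟨δ, hδ⟩ : α₁ <+: α₁' := by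
      apply List.prefix_of_prefix_length_le (l₃ := α)
      · rw [h1]; exact List.prefix_append _ _
      · rw [h2]; exact List.prefix_append _ _
      · exact hle
    rw [← hδ] at hz'
    have hzz : Γ.Wk z z' δ := Γ.ap_mid hz' hz
    have hαe : α = α₁ ++ (δ ++ α₂') := by rw [h2, ← hδ, List.append_assoc]
    by_cases hor : α₁ ≠ [] ∨ α₂' ≠ []
    · left
      have := P1 α₁ δ α₂' θ z z' hαe hor hz hzz hθ hθl
      rw [this] at he
      rw [hαe]
      simp [he]
    · right
      rw [not_or, not_not, not_not] at hor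
      obtain ⟨h3, h4⟩ := hor
      subst h3 h4
      rw [List.nil_append, List.append_nil] at hαe
      subst hαe
      have e1 := Γ.ap_of_nil hz
      subst e1
      have e2 := Γ.ap_end hα hzz
      subst e2
      have := walk_unique Γ hA hθ hη (Γ.ap_inA hx hθ hθl) hinη (by omega)
      rwa [this] at he
  -- the vertices of `κ` are distinct
  have hdisj : ∀ p ∈ α, ∀ q ∈ η, Γ.tl p ≠ Γ.hd q := by
    intro p hp q hq heq
    obtain ⟨α₁, α₂, hαe⟩ := List.append_of_mem hp
    obtain ⟨η₁, η₂, hηe⟩ := List.append_of_mem hq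
    have hαe' : α = [] ++ (α₁ ++ (p :: α₂)) := hαe
    have hηe' : η = (η₁ ++ [q]) ++ η₂ := by rw [hηe]; simp
    obtain ⟨w, hw1, hw2⟩ := Wk.split Γ (by rw [← hηe']; exact hη : Γ.Wk x y ((η₁ ++ [q]) ++ η₂))
    have hwq : Γ.hd q = w := (Γ.ap_snoc hw1).2
    obtain ⟨u, hu1, hu2⟩ := Wk.split Γ (by rw [← hαe]; exact hα : Γ.Wk x y (α₁ ++ (p :: α₂)))
    have hup : Γ.tl p = u := (Γ.ap_cons hu2).1
    have huw : u = w := by rw [← hup, ← hwq, heq]
    subst huw
    have hηl : η.length = η₁.length + 1 + η₂.length := by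
      rw [hηe', List.length_append, List.length_append, List.length_singleton]
    have h3 : η₁ ++ [q] = α₁ := P1 [] α₁ (p :: α₂) _ x u hαe' (Or.inr (by simp))
      (Γ.ap_nil x) hu1 hw1 (by rw [List.length_append, List.length_singleton]; omega)
    have h4 : η₂ = p :: α₂ := P1 α₁ (p :: α₂) [] _ u y (by rw [List.append_nil]; exact hαe)
      (Or.inl (by rw [← h3]; simp)) hu1 hu2 hw2 (by omega)
    apply hne1
    rw [hηe', h3, h4]
    exact hαe.symm
  have hnα : (α.map Γ.tl).Nodup := by
    apply ap_nodup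
    intro l₁ l₂ l₃ p p' hαe heq
    have hαe' : α = l₁ ++ ((p :: l₂) ++ (p' :: l₃)) := by rw [hαe]; simp
    obtain ⟨u, hu1, hu2⟩ := Wk.split Γ (by rw [← hαe']; exact hα :
      Γ.Wk x y (l₁ ++ ((p :: l₂) ++ (p' :: l₃))))
    obtain ⟨w, hw1, hw2⟩ := Wk.split Γ hu2
    have h3 : Γ.tl p = u := (Γ.ap_cons hw1).1
    have h4 : Γ.tl p' = w := (Γ.ap_cons hw2).1
    have huw : u = w := by rw [← h3, ← h4, heq]
    subst huw
    have := P1 l₁ (p :: l₂) (p' :: l₃) [] u u hαe' (Or.inr (by simp)) hu1 hw1 (Γ.ap_nil u)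
      (Nat.zero_le _)
    simp at this
  have hnη : (η.map Γ.hd).Nodup := by
    apply ap_nodup
    intro l₁ l₂ l₃ p p' hηe heq
    have hηe' : η = (l₁ ++ [p]) ++ ((l₂ ++ [p']) ++ l₃) := by rw [hηe]; simp
    obtain ⟨u, hu1, hu2⟩ := Wk.split Γ (by rw [← hηe']; exact hη :
      Γ.Wk x y ((l₁ ++ [p]) ++ ((l₂ ++ [p']) ++ l₃)))
    obtain ⟨w, hw1, hw2⟩ := Wk.split Γ hu2
    have h3 : Γ.hd p = u := (Γ.ap_snoc hu1).2
    have h4 : Γ.hd p' = w := (Γ.ap_snoc hw1).2
    have huw : u = w := by rw [← h3, ← h4, heq]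
    subst huw
    have h5 := no_closed Γ hA hw1 (fun e he => hinη e (by
      rw [hηe']
      exact List.mem_append_right _ (List.mem_append_left _ he))) (by simp)
    have h6 : η.length = l₁.length + 1 + (l₂.length + 1 + l₃.length) := by
      rw [hηe']
      simp only [List.length_append, List.length_singleton]
    rw [List.length_append, List.length_singleton] at h5
    omega
  -- the closed walk `κ`
  obtain ⟨κ, hκe⟩ : ∃ κ, κ = α ++ (η.map rv).reverse := ⟨_, rfl⟩
  have hηlast : ∀ b ∈ ((η.map rv).reverse).head?, ∃ q, b = rv q ∧ ∃ η', η = η' ++ [q] := by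
    intro b hb
    rw [List.head?_reverse] at hb
    rcases List.eq_nil_or_concat η with h | ⟨η', q, h⟩
    · rw [h] at hb
      simp at hb
    · rw [List.concat_eq_append] at h
      refine ⟨q, ?_, η', h⟩
      rw [h] at hb
      simpa [eq_comm] using hb
  have hκ : Γ.Wk x x κ := by
    rw [hκe]
    apply Wk.append Γ hα (Wk.reverse Γ hη)
    intro p hp b hb hbp
    obtain ⟨q, rfl, η', hη'⟩ := hηlast b hb
    have hqp : q = p := by
      have := congrArg rv hbp
      rwa [rv_rv, rv_rv] at this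
    subst hqp
    obtain ⟨α', hα'⟩ : ∃ α', α = α' ++ [q] := by
      rcases List.eq_nil_or_concat α with h | ⟨α', r, h⟩
      · exact absurd h hα0
      · rw [List.concat_eq_append] at h
        refine ⟨α', ?_⟩
        rw [h] at hp
        have : r = q := by simpa using hp
        rw [h, this]
    have hqα : q ∈ α := by rw [hα']; simp
    rw [hη'] at hη
    obtain ⟨h3, -⟩ := Γ.ap_snoc hη
    rcases List.eq_nil_or_concat η' with h | ⟨η'', r, h⟩
    · rw [h] at h3
      have h4 := Γ.ap_of_nil h3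
      rw [hα'] at hα
      obtain ⟨h5, -⟩ := Γ.ap_snoc hα
      rw [← h4] at h5
      have h6 := P1 [] α' [q] [] x x hα' (Or.inr (by simp)) (Γ.ap_nil x) h5 (Γ.ap_nil x)
        (Nat.zero_le _)
      rw [← h6] at hα'
      have : a = 1 := by rw [← hαa, hα']; rfl
      omega
    · rw [List.concat_eq_append] at h
      rw [h] at h3
      have h4 := (Γ.ap_snoc h3).2
      exact hdisj q hqα r (by rw [hη', h]; simp) h4.symm
  have hκl : κ.length = a + g := by
    rw [hκe, List.length_append, List.length_reverse, List.length_map, hαa, hηg]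
  have hcl : ∀ u ∈ κ.getLast?, ∀ v ∈ κ.head?, Γ.st u v := by
    intro u hu v hv
    refine ⟨by rw [hκ.2.2.2 u hu, hκ.2.2.1 v hv], ?_⟩
    intro hvu
    change v = rv u at hvu
    obtain ⟨p0, α', hα'⟩ := List.exists_cons_of_ne_nil hα0
    have hv0 : v = p0 := by
      rw [hκe, hα'] at hv
      simpa [eq_comm] using hv
    subst hv0
    have hα'0 : α' ≠ [] := by
      rintro rfl
      have : a = 1 := by rw [← hαa, hα']; rfl
      omega
    obtain ⟨p1, α'', hα''⟩ := List.exists_cons_of_ne_nil hα'0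
    have hc1 : Γ.tl p1 = Γ.hd v := by
      rw [hα', hα''] at hα
      exact (Γ.ap_cons (Γ.ap_cons hα).2).1
    by_cases hη0 : η = []
    · have hκα : κ = α := by rw [hκe, hη0]; simp
      rw [hκα] at hu
      have hα''0 : α'' ≠ [] := by
        rintro rfl
        have : a = 2 := by rw [← hαa, hα', hα'']; rfl
        omega
      have hu2 : u ∈ α'' := by
        rw [hα', hα''] at hu
        obtain ⟨c, cs, hc⟩ := List.exists_cons_of_ne_nil hα''0
        rw [hc, List.getLast?_cons_cons, List.getLast?_cons_cons, ← hc] at hu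
        exact List.mem_of_getLast? hu
      rw [hα', hα'', List.map_cons, List.map_cons, List.nodup_cons, List.nodup_cons] at hnα
      apply hnα.2.1
      rw [hc1, hvu, hd_rv]
      exact List.mem_map_of_mem hu2
    · obtain ⟨q0, η', hη'⟩ := List.exists_cons_of_ne_nil hη0
      have hu2 : u = rv q0 := by
        have h3 : κ.getLast? = some (rv q0) := by
          rw [hκe, hη', List.map_cons, List.reverse_cons, ← List.append_assoc,
            List.getLast?_append]
          rfl
        rw [h3] at hu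
        simpa [eq_comm] using hu
      rw [hu2, rv_rv] at hvu
      refine hdisj p1 (by rw [hα', hα'']; simp) q0 (by rw [hη']; simp) ?_
      rw [hc1, hvu]
  have hκ0 : κ ≠ [] := by
    rw [hκe]
    simp [hα0]
  have hcwκ : Γ.Cw univ κ.length κ := ⟨rfl, fun _ _ => ⟨mem_univ _, mem_univ _⟩, hκ.1, hcl⟩
  have hmap : κ.map Γ.tl = α.map Γ.tl ++ (η.map Γ.hd).reverse := by
    rw [hκe, List.map_append, List.map_reverse, List.map_map]
    congr 2
    apply List.map_congr_left
    intro q _
    exact Γ.tl_rv q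
  have hnκ : (κ.map Γ.tl).Nodup := by
    rw [hmap, List.nodup_append]
    refine ⟨hnα, List.nodup_reverse.mpr hnη, ?_⟩
    intro z hz w hw
    rw [List.mem_map] at hz
    rw [List.mem_reverse, List.mem_map] at hw
    obtain ⟨p, hp, rfl⟩ := hz
    obtain ⟨q, hq, rfl⟩ := hw
    exact hdisj p hp q hq
  obtain ⟨C, hS, hT⟩ := trav_of_nodup Γ hcwκ hκ0 hnκ
  have hCα : ∀ e ∈ α, C e.1 ≠ 0 := fun e he =>
    (hT.2 e.1).mpr ⟨e, by rw [hκe]; exact List.mem_append_left _ he, rfl⟩
  have hCη : ∀ e ∈ η, C e.1 ≠ 0 := fun e he =>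
    (hT.2 e.1).mpr ⟨rv e, by rw [hκe]; exact List.mem_append_right _ (ap_mem_rev he), rfl⟩
  have hcardC : (supp C).card = a + g := by rw [← hT.1.1, hκl]
  -- vertices of `C`
  have hvsC : ∀ z ∈ Γ.vs C, (∃ α₁ α₂, α = α₁ ++ α₂ ∧ Γ.Wk x z α₁) ∨
      (∃ η₁ η₂, η = η₁ ++ η₂ ∧ Γ.Wk x z η₁ ∧ Γ.Wk z y η₂) := by
    intro z hz
    rw [trav_vs Γ hT, hmap, List.mem_append, List.mem_reverse, List.mem_map, List.mem_map] at hz
    rcases hz with ⟨p, hp, hpz⟩ | ⟨q, hq, hqz⟩
    · left
      obtain ⟨α₁, α₂, hαe⟩ := List.append_of_mem hp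
      obtain ⟨u, hu1, hu2⟩ := Wk.split Γ (by rw [← hαe]; exact hα : Γ.Wk x y (α₁ ++ (p :: α₂)))
      refine ⟨α₁, p :: α₂, hαe, ?_⟩
      rw [← hpz, (Γ.ap_cons hu2).1]
      exact hu1
    · right
      obtain ⟨η₁, η₂, hηe⟩ := List.append_of_mem hq
      have hηe' : η = (η₁ ++ [q]) ++ η₂ := by rw [hηe]; simp
      obtain ⟨w, hw1, hw2⟩ := Wk.split Γ
        (by rw [← hηe']; exact hη : Γ.Wk x y ((η₁ ++ [q]) ++ η₂))
      have hwz : w = z := by rw [← hqz, (Γ.ap_snoc hw1).2]
      rw [hwz] at hw1 hw2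
      exact ⟨η₁ ++ [q], η₂, hηe', hw1, hw2⟩
  have hmarC : ∀ z ∈ Γ.vs C, z ∈ Γ.mar A (2 * d) := by
    intro z hz
    rcases hvsC z hz with ⟨α₁, α₂, hαe, hw⟩ | ⟨η₁, η₂, hηe, hw1, hw2⟩
    · refine mar_anti Γ A (by omega) (Γ.ap_mem hw (fun e he => hinα e ?_) hx)
      rw [hαe]
      exact List.mem_append_left _ he
    · have h3 : η.length = η₁.length + η₂.length := by rw [hηe, List.length_append]
      by_cases h4 : η₁.length ≤ 2 * d
      · refine Γ.ap_mar (n := 2 * d) ?_ hw1 h4
        have : 2 * d + 2 * d = 4 * d := by ring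
        rw [this]
        exact hx
      · refine Γ.ap_mar (n := 2 * d) ?_ (Wk.reverse Γ hw2) ?_
        · have : 2 * d + 2 * d = 4 * d := by ring
          rw [this]
          exact hy
        · rw [List.length_reverse, List.length_map]
          omega
  -- short walks between vertices of `α`
  have Q : ∀ (α₁ α₂ α₁' α₂' θ : List (E × Bool)) (z z' : V), α = α₁ ++ α₂ → α = α₁' ++ α₂' →
      Γ.Wk x z α₁ → Γ.Wk x z' α₁' → Γ.Wk z z' θ → θ.length ≤ 4 * d → ∀ e ∈ θ, C e.1 ≠ 0 := by
    intro α₁ α₂ α₁' α₂' θ z z' h1 h2 hz hz' hθ hθl e he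
    rcases Nat.le_total α₁.length α₁'.length with h3 | h3
    · rcases P2 α₁ α₂ α₁' α₂' θ z z' h1 h2 hz hz' h3 hθ hθl e he with h4 | h4
      · exact hCα e h4
      · exact hCη e h4
    · rcases P2 α₁' α₂' α₁ α₂ (θ.map rv).reverse z' z h2 h1 hz' hz h3 (Wk.reverse Γ hθ)
        (by rw [List.length_reverse, List.length_map]; exact hθl) (rv e) (ap_mem_rev he) with
        h4 | h4
      · exact hCα (rv e) h4
      · exact hCη (rv e) h4
  have EA : ∀ (η₁ η₂ α₁' α₂' θ : List (E × Bool)) (z z' : V), η = η₁ ++ η₂ → Γ.Wk x z η₁ →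
      Γ.Wk z y η₂ → α = α₁' ++ α₂' → Γ.Wk x z' α₁' → Γ.Wk z z' θ → θ.length ≤ 2 * d →
      ∀ t ∈ θ.head?, C t.1 ≠ 0 := by
    intro η₁ η₂ α₁' α₂' θ z z' hηe h1 h2 hαe h3 hθ hθl t ht ht0
    have hll : η.length = η₁.length + η₂.length := by rw [hηe, List.length_append]
    have htθ : t ∈ θ := List.mem_of_head? ht
    by_cases h4 : η₁.length ≤ 2 * d
    · have hW : Γ.Wk x z' (η₁ ++ θ) := by
        apply Wk.append Γ h1 hθ
        intro p hp b hb hbp
        have hbt : b = t := by
          rw [Option.mem_def] at hb ht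
          rw [hb] at ht
          exact Option.some_injective _ ht
        have hpη : p ∈ η := by
          rw [hηe]
          exact List.mem_append_left _ (List.mem_of_getLast? hp)
        apply hCη p hpη
        rw [← hbt, hbp] at ht0
        exact ht0
      exact Q [] α α₁' α₂' (η₁ ++ θ) x z' rfl hαe (Γ.ap_nil x) h3 hW
        (by rw [List.length_append]; omega) t (List.mem_append_right _ htθ) ht0
    · have hW : Γ.Wk y z' ((η₂.map rv).reverse ++ θ) := by
        apply Wk.append Γ (Wk.reverse Γ h2) hθ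
        intro p hp b hb hbp
        have hbt : b = t := by
          rw [Option.mem_def] at hb ht
          rw [hb] at ht
          exact Option.some_injective _ ht
        have hp' := List.mem_of_getLast? hp
        rw [List.mem_reverse, List.mem_map] at hp'
        obtain ⟨q, hq, hqp⟩ := hp'
        have hqη : q ∈ η := by
          rw [hηe]
          exact List.mem_append_right _ hq
        apply hCη q hqη
        rw [← hbt, hbp, ← hqp] at ht0
        exact ht0
      exact Q α [] α₁' α₂' ((η₂.map rv).reverse ++ θ) y z' (List.append_nil α).symm hαe hα h3 hW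
        (by rw [List.length_append, List.length_reverse, List.length_map]; omega) t
        (List.mem_append_right _ htθ) ht0
  have EE : ∀ (η₁ η₂ η₁' η₂' θ : List (E × Bool)) (z z' : V), η = η₁ ++ η₂ → Γ.Wk x z η₁ →
      η = η₁' ++ η₂' → Γ.Wk x z' η₁' → η₁.length ≤ η₁'.length → z ∈ Γ.mar A (2 * d) →
      Γ.Wk z z' θ → θ.length ≤ 2 * d → ∀ e ∈ θ, C e.1 ≠ 0 := by
    intro η₁ η₂ η₁' η₂' θ z z' h1 hz h2 hz' hle hzm hθ hθl e he
    obtain ⟨δ, hδ⟩ : η₁ <+: η₁' := by
      apply List.prefix_of_prefix_length_le (l₃ := η)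
      · rw [h1]; exact List.prefix_append _ _
      · rw [h2]; exact List.prefix_append _ _
      · exact hle
    rw [← hδ] at hz'
    have hzz : Γ.Wk z z' δ := Γ.ap_mid hz' hz
    have hηe : η = η₁ ++ (δ ++ η₂') := by rw [h2, ← hδ, List.append_assoc]
    have hδη : ∀ e ∈ δ, e ∈ η := by
      intro e he
      rw [hηe]
      simp [he]
    have hδl : δ.length ≤ η.length := by
      rw [hηe, List.length_append, List.length_append]
      omega
    have := walk_unique Γ hA hθ hzz (Γ.ap_inA hzm hθ hθl) (fun e he => hinη e (hδη e he))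
      (by omega)
    rw [this] at he
    exact hCη e (hδη e he)
  have hdart : ∀ t : E × Bool, C t.1 ≠ 0 → Γ.tl t ∈ Γ.vs C ∧ Γ.hd t ∈ Γ.vs C := by
    intro t ht
    constructor
    · rw [mem_vs_iff_dart]
      exact ⟨t, by rw [mem_dt], ht⟩
    · rw [mem_vs_iff_dart]
      exact ⟨rv t, by rw [mem_dt, tl_rv], ht⟩
  have main : ∀ n : ℕ, ∀ (θ : List (E × Bool)) (z z' : V), θ.length ≤ n → θ.length ≤ 2 * d →
      z ∈ Γ.vs C → z' ∈ Γ.vs C → Γ.Wk z z' θ → ∀ e ∈ θ, C e.1 ≠ 0 := by
    intro n
    induction n with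
    | zero =>
      intro θ z z' hn _ _ _ _ e he
      have : θ = [] := List.length_eq_zero_iff.mp (by omega)
      rw [this] at he
      simp at he
    | succ n ih =>
      intro θ z z' hn h2d hz hz' hθ
      by_cases hθ0 : θ = []
      · rw [hθ0]
        simp
      obtain ⟨t, θ', ht⟩ := List.exists_cons_of_ne_nil hθ0
      obtain ⟨θ'', u, hu⟩ : ∃ θ'' u, θ = θ'' ++ [u] := by
        rcases List.eq_nil_or_concat θ with h | ⟨θ'', u, h⟩
        · exact absurd h hθ0
        · exact ⟨θ'', u, by rw [h, List.concat_eq_append]⟩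
      have hl1 : θ.length = θ'.length + 1 := by rw [ht]; rfl
      have hl2 : θ.length = θ''.length + 1 := by
        rw [hu, List.length_append, List.length_singleton]
      by_cases hCt : C t.1 = 0
      · by_cases hCu : C u.1 = 0
        · rcases hvsC z hz with ⟨α₁, α₂, hαe, hw⟩ | ⟨η₁, η₂, hηe, hw1, hw2⟩
          · rcases hvsC z' hz' with ⟨α₁', α₂', hαe', hw'⟩ | ⟨η₁', η₂', hηe', hw1', hw2'⟩
            · exact Q α₁ α₂ α₁' α₂' θ z z' hαe hαe' hw hw' hθ (by omega)
            · exfalso
              refine EA η₁' η₂' α₁ α₂ (θ.map rv).reverse z' z hηe' hw1' hw2' hαe hw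
                (Wk.reverse Γ hθ) (by rw [List.length_reverse, List.length_map]; exact h2d)
                (rv u) ?_ hCu
              rw [hu, List.map_append, List.reverse_append]
              rfl
          · rcases hvsC z' hz' with ⟨α₁', α₂', hαe', hw'⟩ | ⟨η₁', η₂', hηe', hw1', hw2'⟩
            · exfalso
              exact EA η₁ η₂ α₁' α₂' θ z z' hηe hw1 hw2 hαe' hw' hθ h2d t (by rw [ht]; rfl) hCt
            · rcases Nat.le_total η₁.length η₁'.length with h3 | h3
              · exact EE η₁ η₂ η₁' η₂' θ z z' hηe hw1 hηe' hw1' h3 (hmarC z hz) hθ h2d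
              · intro e he
                exact EE η₁' η₂' η₁ η₂ (θ.map rv).reverse z' z hηe' hw1' hηe hw1 h3
                  (hmarC z' hz') (Wk.reverse Γ hθ)
                  (by rw [List.length_reverse, List.length_map]; exact h2d) (rv e)
                  (ap_mem_rev he)
        · have h3 := ih θ'' z (Γ.tl u) (by omega) (by omega) hz (hdart u hCu).1
            (by rw [hu] at hθ; exact (Γ.ap_snoc hθ).1)
          intro e he
          rw [hu, List.mem_append, List.mem_singleton] at he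
          rcases he with he | rfl
          · exact h3 e he
          · exact hCu
      · have h3 := ih θ' (Γ.hd t) z' (by omega) (by omega) (hdart t hCt).2 hz'
            (by rw [ht] at hθ; exact (Γ.ap_cons hθ).2)
        intro e he
        rw [ht, List.mem_cons] at he
        rcases he with rfl | he
        · exact hCt
        · exact h3 e he
  refine ⟨i, a, g, α, β, κ, C, hrot, hαa, by omega, by omega, hg, ⟨hS, by omega, hmarC, ?_⟩, hT,
    hκl, ?_⟩
  · intro z z' θ hz hz' hθ hθl
    exact main θ.length θ z z' le_rfl hθl hz hz' hθ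
  · rw [hκe, ← hαa, List.take_left']
    rfl

theorem approach {A : Finset V} {ℓ d L k : ℕ} (hA : Γ.Free ℓ A) (hd : 16 * d + 16 ≤ ℓ)
    (hk : k ≤ 2 * L) (h0 : 0 < k) {l : List (E × Bool)} (hl : Γ.Cw (Γ.mar A (4 * d)) k l) :
    (∃ C, Γ.Good A d L C ∧ Γ.Trav C l) ∨
    ∃ (i a g : ℕ) (α β κ : List (E × Bool)) (C : E → ZMod 2), i < k ∧ l.rotate i = α ++ β ∧
      α.length = a ∧ 1 ≤ a ∧ 2 * a ≤ k ∧ g ≤ 4 * d ∧ Γ.Good A d L C ∧ Γ.Trav C κ ∧
      κ.length = a + g ∧ κ.take a = α := by
  classical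
  by_cases hex : ∃ a g, g ≤ 2 * d ∧ Γ.App l a g
  · right
    have hex' : ∃ a, ∃ g, g ≤ 4 * d ∧ Γ.App l a g := by
      obtain ⟨a, g, h1, h2⟩ := hex
      exact ⟨a, g, by omega, h2⟩
    obtain ⟨g, hg, happ⟩ := Nat.find_spec hex'
    obtain ⟨i, a, g', α, β, κ, C, h1, h2⟩ := Γ.ap_case2 hA hd hk hl
      (fun a' g' hg' h => Nat.find_min' hex' ⟨g', hg', h⟩) hg happ
    refine ⟨i % k, a, g', α, β, κ, C, Nat.mod_lt _ h0, ?_, h2⟩
    rw [← h1, ← hl.1, List.rotate_mod]
  · left
    push Not at hex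
    exact Γ.ap_case1 hA hd hk h0 hl hex

end Cub

end Pool.Agent.Lib.MP_af4270_co
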