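import Pool.Agent.Lib.MP_af4270_co.ASum

/-!
# PAN-A9: the complement of one or two good cycles is connected

Let `X = vs C ∪ vs C'`, `C, C'` good, `C = C'` or disjoint vertex sets. `|X| ≤ 4 L`, `X ⊆ A`
(`mar A (2d) ⊆ A`), and no edge of `bd A` touches `X` (vertices of `mar A 1` have all edges inside
`A`, `2 d ≥ 1`). Let `N = |A| ≥ 2 ^ (12 d + 5)`, `M = 2 ^ (d-1) - 1 ≥ 32 L² - 1`.

(*) If `S ⊆ univ \ X` is closed in `univ \ X` (no edges between `S` and the rest of `univ \ X`)
and contains a vertex `z` adjacent to `X`, then `|S ∩ A| ≥ M`. Proof. Say `z` is adjacent to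
`c ∈ vs C` by the dart `δ` from `c` to `z` (the case of `C'` is symmetric). The dart `δ` is not in `C`.
For a successor `δ₁` of `δ` consider the walks starting with `δ, δ₁` of total length `j`,
`2 ≤ j ≤ d`; there are `2 ^ (j - 2)` of them; they stay in `A` (`walk_in_mar`), have different end
points (also for different `j`; `walk_unique`, total length `≤ 2 d ≤ ℓ`). By goodness of `C` none
of them ends on `C` (its first edge `δ` is not in `C`). Suppose that for both successors `δ₁, δ₂` of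
`δ` there is such a walk `w₁` resp. `w₂` ending on `vs C'`. Then `reverse (w₁ without δ) ++ (w₂ without
δ)` is a walk (`st (rv δ₁) δ₂` since `δ₁ ≠ δ₂` have the same tail) of length `≤ 2 d` between vertices
of `C'`, so all its edges are in `C'` and `z ∈ vs C'`: contradiction. So for one successor `δ₁` all
the walks avoid `X` (all their vertices after `c`, as prefixes are of the same kind; the prefix of
length 1 ends in `z ∉ X`), so their end points are in `S` (closedness), in number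
`1 + 1 + 2 + ... + 2^(d-2) = 2^(d-1)`.

Suppose `univ \ X` is not connected. It is nonempty (`N > 4 L`). There is `S ⊆ univ \ X` closed,
nonempty, with nonempty complement `S' = (univ \ X) \ S`, also closed. As `univ` is connected, both
contain vertices adjacent to `X` (`bd S` is nonempty, and its edges go to `X`). So
`a₁ = |S ∩ A| ≥ M`, `a₂ = |S' ∩ A| ≥ M`, `a₁ + a₂ = N - |X| ≥ N - 4 L`.
An edge of `bd (S ∩ A)` is an edge between `S` and `X` or an edge of `bd A` with both ends in `S`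
(its inner end is in `S ∩ A`, its outer end is not in `X`, so in `S` by closedness).
So `|bd (S ∩ A)| ≤ x₁ + y₁`, `|bd (S' ∩ A)| ≤ x₂ + y₂`, `x₁ + x₂ ≤ |bd X| ≤ |X| ≤ 4 L` (every vertex of
`X` has at most one edge leaving `X`, it has two darts on the cycle), `y₁ + y₂ ≤ |bd A|`, `|bd A|² ≤ N`.
`S ∩ A` is a proper nonempty subset of `A`, so `a_i < (x_i + y_i)²` by minimality. Hence
`√a₁ + √a₂ < 4 L + √N`. But `(√a₁ + √a₂)² = a₁ + a₂ + 2 √(a₁ a₂) ≥ N - 4 L + 2 √(M (N - 4 L - M))`
(product of two numbers `≥ M` with sum `≥ N - 4 L`), and `(4 L + √N)² = N + 8 L √N + 16 L²`. As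
`M ≥ 25 L²`, `N - 4 L - M ≥ (9/10)² N`: `2 √(M (N-4L-M)) ≥ 9 L √N ≥ 8 L √N + 16 L² + 4 L`. Contradiction.
-/

set_option autoImplicit false
set_option linter.unusedSectionVars false

namespace Pool.Agent.Lib.MP_af4270_co

open Finset

variable {V E : Type} [Fintype V] [DecidableEq V] [Fintype E] [DecidableEq E]

namespace Cub

variable (Γ : Cub V E)

/-- the dart reached from `d` by a list of choices -/
private def acEnd (sc : E × Bool → Bool → E × Bool) (d : E × Bool) (bs : List Bool) : E × Bool :=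
  bs.foldl sc d

/-- the path from `d` given by a list of choices -/
private def acPath (sc : E × Bool → Bool → E × Bool) : E × Bool → List Bool → List (E × Bool)
  | d, [] => [d]
  | d, (b :: bs) => d :: acPath sc (sc d b) bs

omit [Fintype E] [DecidableEq E] in
private theorem acPath_length (sc : E × Bool → Bool → E × Bool) (bs : List Bool) :
    ∀ d, (acPath sc d bs).length = bs.length + 1 := by
  induction bs with
  | nil => intro d; rfl
  | cons b bs ih => intro d; simp [acPath, ih]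

omit [Fintype E] [DecidableEq E] in
private theorem acPath_head (sc : E × Bool → Bool → E × Bool) (bs : List Bool) (d : E × Bool) :
    (acPath sc d bs).head? = some d := by
  cases bs <;> rfl

omit [Fintype E] [DecidableEq E] in
private theorem acPath_last (sc : E × Bool → Bool → E × Bool) (bs : List Bool) :
    ∀ d, (acPath sc d bs).getLast? = some (acEnd sc d bs) := by
  induction bs with
  | nil => intro d; rfl
  | cons b bs ih =>
    intro d
    have h1 := ih (sc d b)
    have h2 : acPath sc d (b :: bs) = [d] ++ acPath sc (sc d b) bs := rfl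
    rw [h2, List.getLast?_append, h1]
    rfl

omit [Fintype E] [DecidableEq E] in
private theorem acPath_inj (sc : E × Bool → Bool → E × Bool) (hsc : ∀ d, sc d false ≠ sc d true)
    (bs : List Bool) : ∀ (bs' : List Bool) d, acPath sc d bs = acPath sc d bs' → bs = bs' := by
  induction bs with
  | nil =>
    intro bs' d h
    have h1 := congrArg List.length h
    rw [acPath_length, acPath_length] at h1
    cases bs' with
    | nil => rfl
    | cons b' bs' => simp at h1
  | cons b bs ih =>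
    intro bs' d h
    cases bs' with
    | nil =>
      have h1 := congrArg List.length h
      rw [acPath_length, acPath_length] at h1
      simp at h1
    | cons b' bs' =>
      simp only [acPath, List.cons.injEq, true_and] at h
      have h1 : sc d b = sc d b' := by
        have h2 := congrArg List.head? h
        rw [acPath_head, acPath_head] at h2
        exact Option.some.inj h2
      have h3 : b = b' := by
        have h4 := hsc d
        cases b <;> cases b' <;> first | rfl | (exfalso; exact h4 h1) | (exfalso; exact h4 h1.symm)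
      subst h3
      rw [ih bs' _ h]

private theorem acPath_chain (sc : E × Bool → Bool → E × Bool) (hsc : ∀ d b, Γ.st d (sc d b))
    (bs : List Bool) : ∀ d, (acPath sc d bs).IsChain Γ.st := by
  induction bs with
  | nil => intro d; exact List.IsChain.singleton _
  | cons b bs ih =>
    intro d
    have h1 := ih (sc d b)
    cases bs with
    | nil => exact List.IsChain.cons_cons (hsc d b) h1
    | cons b' bs' => exact List.IsChain.cons_cons (hsc d b) h1

/-- choice of the two successors -/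
private theorem exists_sc : ∃ sc : E × Bool → Bool → E × Bool,
    (∀ d, sc d false ≠ sc d true) ∧ (∀ d b, Γ.st d (sc d b)) := by
  have h : ∀ d : E × Bool, ∃ a b : E × Bool, a ≠ b ∧ Γ.st d a ∧ Γ.st d b := by
    intro d
    have h1 := Γ.card_succ d
    rw [Finset.card_eq_two] at h1
    obtain ⟨a, b, hab, h2⟩ := h1
    refine ⟨a, b, hab, ?_, ?_⟩
    · have : a ∈ univ.filter (fun d' => Γ.st d d') := by rw [h2]; simp
      exact (mem_filter.1 this).2
    · have : b ∈ univ.filter (fun d' => Γ.st d d') := by rw [h2]; simp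
      exact (mem_filter.1 this).2
  choose f g hfg hf hg using h
  refine ⟨fun d b => if b then g d else f d, fun d => by simpa using hfg d, fun d b => ?_⟩
  cases b
  · simpa using hf d
  · simpa using hg d

end Cub

private theorem cl_dart {Γ : Cub V E} {U S : Finset V} (hcl : Γ.Cl U S) {D : E × Bool}
    (h1 : Γ.tl D ∈ S) (h2 : Γ.hd D ∈ U) : Γ.hd D ∈ S := by
  have h3 := (Cub.cl_iff.1 hcl) D.1
  obtain ⟨e, b⟩ := D
  cases b
  · exact h3.1 h1 h2
  · exact h3.2 h1 h2

private theorem acWk (Γ : Cub V E) (sc : E × Bool → Bool → E × Bool)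
    (hsc : ∀ d b, Γ.st d (sc d b)) (D : E × Bool) (bs : List Bool) :
    Γ.Wk (Γ.tl D) (Γ.hd (Cub.acEnd sc D bs)) (Cub.acPath sc D bs) := by
  refine ⟨Cub.acPath_chain Γ sc hsc bs D, ?_, ?_, ?_⟩
  · intro h
    have := Cub.acPath_length sc bs D
    rw [h] at this
    simp at this
  · intro a ha
    rw [Cub.acPath_head] at ha
    simp only [Option.mem_def, Option.some.injEq] at ha
    rw [ha]
  · intro a ha
    rw [Cub.acPath_last] at ha
    simp only [Option.mem_def, Option.some.injEq] at ha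
    rw [ha]

private theorem geom2 (n : ℕ) : ∑ k ∈ range n, 2 ^ k + 1 = 2 ^ n := by
  induction n with
  | zero => simp
  | succ n ih => rw [Finset.sum_range_succ, pow_succ]; omega

private theorem big_core {Γ : Cub V E} {A : Finset V} {ℓ d L : ℕ} (hfree : Γ.Free ℓ A)
    (hd : 2 * d ≤ ℓ) (hd1 : 1 ≤ d)
    {C C' : E → ZMod 2} (hC : Γ.Good A d L C) (hC' : Γ.Good A d L C') {S : Finset V}
    (hS : S ⊆ univ \ (Γ.vs C ∪ Γ.vs C')) (hcl : Γ.Cl (univ \ (Γ.vs C ∪ Γ.vs C')) S)
    (δ : E × Bool) (hδ1 : Γ.tl δ ∈ Γ.vs C) (hδ2 : Γ.hd δ ∈ S) : 2 ^ (d - 1) ≤ (S ∩ A).card := by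
  classical
  obtain ⟨sc, hne, hst⟩ := Γ.exists_sc
  have hX : ∀ y ∈ S, y ∉ Γ.vs C ∧ y ∉ Γ.vs C' := by
    intro y hy
    have := hS hy
    simp only [mem_sdiff, mem_univ, true_and, mem_union, not_or] at this
    exact this
  have hvs : ∀ {R : E → ZMod 2} {D : E × Bool}, R D.1 ≠ 0 → Γ.hd D ∈ Γ.vs R ∧ Γ.tl D ∈ Γ.vs R := by
    intro R D hR
    obtain ⟨e, b⟩ := D
    cases b
    · exact ⟨Γ.t_mem_vs hR, Γ.s_mem_vs hR⟩
    · exact ⟨Γ.s_mem_vs hR, Γ.t_mem_vs hR⟩
  -- no walk ends on `C`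
  have hnotC : ∀ bs : List Bool, bs.length + 1 ≤ 2 * d →
      Γ.hd (Cub.acEnd sc δ bs) ∉ Γ.vs C := by
    intro bs hlen hmem
    have h1 := hC.2.2.2 _ _ _ hδ1 hmem (acWk Γ sc hst δ bs)
      (by rw [Cub.acPath_length]; exact hlen) δ (by cases bs <;> simp [Cub.acPath])
    exact (hX _ hδ2).1 (hvs h1).1
  -- choice of the successor
  have hβ : ∃ β : Bool, ∀ bs : List Bool, bs.length + 2 ≤ d →
      Γ.hd (Cub.acEnd sc δ (β :: bs)) ∉ Γ.vs C ∪ Γ.vs C' := by
    by_contra hcon
    push Not at hcon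
    obtain ⟨bs1, hl1, hm1⟩ := hcon false
    obtain ⟨bs2, hl2, hm2⟩ := hcon true
    have hm1' : Γ.hd (Cub.acEnd sc (sc δ false) bs1) ∈ Γ.vs C' := by
      rcases mem_union.1 hm1 with h | h
      · exact absurd h (hnotC _ (by simp; omega))
      · exact h
    have hm2' : Γ.hd (Cub.acEnd sc (sc δ true) bs2) ∈ Γ.vs C' := by
      rcases mem_union.1 hm2 with h | h
      · exact absurd h (hnotC _ (by simp; omega))
      · exact h
    have ht1 : Γ.tl (sc δ false) = Γ.hd δ := (hst δ false).1.symm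
    have ht2 : Γ.tl (sc δ true) = Γ.hd δ := (hst δ true).1.symm
    have w1 := acWk Γ sc hst (sc δ false) bs1
    have w2 := acWk Γ sc hst (sc δ true) bs2
    rw [ht1] at w1
    rw [ht2] at w2
    have w3 := (Cub.Wk.reverse Γ w1)
    have w4 := Cub.Wk.append Γ w3 w2 (by
      intro a ha b hb
      rw [Cub.acPath_head] at hb
      rw [List.getLast?_reverse, List.head?_map, Cub.acPath_head] at ha
      simp only [Option.map_some, Option.mem_def, Option.some.injEq] at ha hb
      rw [← ha, ← hb, rv_rv]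
      exact (hne δ).symm)
    have h5 := hC'.2.2.2 _ _ _ hm1' hm2' w4 (by
      rw [List.length_append, List.length_reverse, List.length_map, Cub.acPath_length,
        Cub.acPath_length]
      omega) (sc δ true) (by
      rw [List.mem_append]
      right
      cases bs2 <;> simp [Cub.acPath])
    have h6 := (hvs h5).2
    rw [ht2] at h6
    exact (hX _ hδ2).2 h6
  obtain ⟨β, hβ⟩ := hβ
  -- all end points are in `S`
  have hinS : ∀ bs : List Bool, bs.length + 2 ≤ d → Γ.hd (Cub.acEnd sc δ (β :: bs)) ∈ S := by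
    intro bs
    induction bs using List.reverseRecOn with
    | nil =>
      intro hl
      have h1 := hβ [] hl
      refine cl_dart hcl ?_ (by simpa using h1)
      have h2 : Γ.tl (sc δ β) = Γ.hd δ := (hst δ β).1.symm
      change Γ.tl (sc δ β) ∈ S
      rw [h2]; exact hδ2
    | append_singleton bs b ih =>
      intro hl
      have h0 : bs.length + 2 ≤ d := by simp at hl; omega
      have h1 := hβ (bs ++ [b]) hl
      have h2 : Cub.acEnd sc δ (β :: (bs ++ [b])) = sc (Cub.acEnd sc δ (β :: bs)) b := by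
        unfold Cub.acEnd
        rw [← List.cons_append, List.foldl_append]
        rfl
      rw [h2] at h1 ⊢
      refine cl_dart hcl ?_ (by simpa using h1)
      rw [← (hst (Cub.acEnd sc δ (β :: bs)) b).1]
      exact ih h0
  -- the injection
  let g : Option (Σ n : Fin (d - 1), (Fin n → Bool)) → List Bool := fun o =>
    match o with
    | none => []
    | some ⟨_, b⟩ => β :: List.ofFn b
  have hginj : ∀ o o', g o = g o' → o = o' := by
    intro o o' hoo
    rcases o with _ | ⟨n, b⟩ <;> rcases o' with _ | ⟨n', b'⟩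
    · rfl
    · simp [g] at hoo
    · simp [g] at hoo
    · have h1 : List.ofFn b = List.ofFn b' := by simpa [g] using hoo
      have h2 : (n : ℕ) = n' := by
        have := congrArg List.length h1
        simpa using this
      have h3 : n = n' := Fin.ext h2
      subst h3
      have h4 := List.ofFn_injective h1
      rw [h4]
  have hglen : ∀ o, (g o).length + 1 ≤ d := by
    intro o
    rcases o with _ | ⟨n, b⟩
    · simp [g]; omega
    · have := n.2
      simp [g]; omega
  have hgS : ∀ o, Γ.hd (Cub.acEnd sc δ (g o)) ∈ S := by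
    intro o
    rcases o with _ | ⟨n, b⟩
    · exact hδ2
    · have := n.2
      exact hinS _ (by simp; omega)
  have hgA : ∀ o, Γ.hd (Cub.acEnd sc δ (g o)) ∈ A ∧
      ∀ e ∈ Cub.acPath sc δ (g o), Γ.dIn A e := by
    intro o
    have h1 := Γ.walk_in_mar (A := A) (m := 0) (n := 2 * d) (x := Γ.tl δ)
      (by rw [zero_add]; exact hC.2.2.1 hδ1) (acWk Γ sc hst δ (g o)) (by
        rw [Cub.acPath_length]; have := hglen o; omega)
    exact h1
  have hcard : Fintype.card (Option (Σ n : Fin (d - 1), (Fin n → Bool))) = 2 ^ (d - 1) := by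
    rw [Fintype.card_option, Fintype.card_sigma, ← geom2 (d - 1), ← Fin.sum_univ_eq_sum_range]
    congr 1
    refine Finset.sum_congr rfl fun n _ => ?_
    simp
  rw [← hcard, ← Finset.card_univ]
  refine Finset.card_le_card_of_injOn (fun o => Γ.hd (Cub.acEnd sc δ (g o))) ?_ ?_
  · intro o _
    exact mem_inter.2 ⟨hgS o, (hgA o).1⟩
  · intro o _ o' _ hoo
    simp only at hoo
    have w1 := acWk Γ sc hst δ (g o)
    have w2 := acWk Γ sc hst δ (g o')
    rw [← hoo] at w2
    have h1 := Γ.walk_unique hfree w1 w2 (hgA o).2 (hgA o').2 (by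
      rw [Cub.acPath_length, Cub.acPath_length]
      have := hglen o
      have := hglen o'
      omega)
    exact hginj _ _ (Cub.acPath_inj sc hne _ _ _ h1)

theorem HypA.big_comp {Γ : Cub V E} {A : Finset V} {ℓ d L K k₀ : ℕ} (h : HypA Γ A ℓ d L K k₀)
    {C C' : E → ZMod 2} (hC : Γ.Good A d L C) (hC' : Γ.Good A d L C')
    (hCC : C = C' ∨ Disjoint (Γ.vs C) (Γ.vs C')) {S : Finset V}
    (hS : S ⊆ univ \ (Γ.vs C ∪ Γ.vs C')) (hcl : Γ.Cl (univ \ (Γ.vs C ∪ Γ.vs C')) S)
    (hadj : (Γ.bt S (Γ.vs C ∪ Γ.vs C')).Nonempty) : 2 ^ (d - 1) ≤ (S ∩ A).card := by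
  have hd1 : 1 ≤ d := by have := h.big.2; omega
  have hd2 : 2 * d ≤ ℓ := by have := h.hℓ; omega
  -- the dart
  obtain ⟨δ, hδ1, hδ2⟩ : ∃ δ : E × Bool, Γ.tl δ ∈ Γ.vs C ∪ Γ.vs C' ∧ Γ.hd δ ∈ S := by
    obtain ⟨e, he⟩ := hadj
    rw [Cub.mem_bt] at he
    rcases he with ⟨h1, h2⟩ | ⟨h1, h2⟩
    · exact ⟨(e, true), h2, h1⟩
    · exact ⟨(e, false), h1, h2⟩
  rcases mem_union.1 hδ1 with h1 | h1
  · exact big_core h.free hd2 hd1 hC hC' hS hcl δ h1 hδ2
  · rw [Finset.union_comm] at hS hcl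
    exact big_core h.free hd2 hd1 hC' hC hS hcl δ h1 hδ2

/-- the final inequality -/
private theorem ac_num {N L b M x1 x2 a1 a2 : ℕ} (hM : 32 * L ^ 2 ≤ M) (hN : 16 * M ≤ N)
    (hN2 : 6400 * L ^ 2 ≤ N) (hL : 1 ≤ L) (hb : b ^ 2 ≤ N) (h1 : a1 < x1 ^ 2) (h2 : a2 < x2 ^ 2)
    (hM1 : M ≤ a1) (hM2 : M ≤ a2) (hx : x1 + x2 ≤ 4 * L + b) (ha : N ≤ a1 + a2 + 4 * L) : False := by
  have hLL : L ≤ L ^ 2 := Nat.le_self_pow two_ne_zero L
  -- an upper bound for the product
  have e1 : 2 * (x1 * x2) + (a1 + a2) ≤ (4 * L + b) ^ 2 := by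
    have h3 : (x1 + x2) ^ 2 ≤ (4 * L + b) ^ 2 := Nat.pow_le_pow_left hx 2
    nlinarith
  have e2 : x1 * x2 ≤ 4 * (L * b) + 10 * L ^ 2 := by nlinarith
  -- a lower bound for the product
  have e3 : a1 * a2 < (x1 * x2) ^ 2 := by
    rw [mul_pow]
    have h3 : a1 * a2 ≤ a1 * x2 ^ 2 := Nat.mul_le_mul_left _ h2.le
    have h4 : 0 < x2 ^ 2 := by omega
    have h5 : a1 * x2 ^ 2 < x1 ^ 2 * x2 ^ 2 := (Nat.mul_lt_mul_right h4).2 h1
    omega
  have e4 : M * (a1 + a2) ≤ a1 * a2 + M * M := by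
    obtain ⟨u, rfl⟩ := Nat.exists_eq_add_of_le hM1
    obtain ⟨v, rfl⟩ := Nat.exists_eq_add_of_le hM2
    have : 0 ≤ u * v := Nat.zero_le _
    calc M * (M + u + (M + v)) = 2 * (M * M) + M * u + M * v := by ring
      _ ≤ (M + u) * (M + v) + M * M := by
        have : (M + u) * (M + v) + M * M = 2 * (M * M) + M * u + M * v + u * v := by ring
        omega
  -- combination
  have e5 : 80 * (L * b) ≤ N := by
    have h3 : (80 * (L * b)) ^ 2 ≤ N ^ 2 := by
      calc (80 * (L * b)) ^ 2 = (6400 * L ^ 2) * b ^ 2 := by ring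
        _ ≤ N * N := Nat.mul_le_mul hN2 hb
        _ = N ^ 2 := by ring
    exact (Nat.pow_le_pow_iff_left (by norm_num)).1 h3
  have e6 : (x1 * x2) ^ 2 ≤ (4 * (L * b) + 10 * L ^ 2) ^ 2 := Nat.pow_le_pow_left e2 2
  have e7 : (4 * (L * b) + 10 * L ^ 2) ^ 2 ≤ 18 * (L ^ 2 * N) := by
    have h3 : L ^ 2 * b ^ 2 ≤ L ^ 2 * N := Nat.mul_le_mul_left _ hb
    have h4 : L ^ 2 * (80 * (L * b)) ≤ L ^ 2 * N := Nat.mul_le_mul_left _ e5
    have h5 : L ^ 2 * (6400 * L ^ 2) ≤ L ^ 2 * N := Nat.mul_le_mul_left _ hN2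
    have h6 : (4 * (L * b) + 10 * L ^ 2) ^ 2 = 16 * (L ^ 2 * b ^ 2) + L ^ 2 * (80 * (L * b)) +
      100 * (L ^ 2 * L ^ 2) := by ring
    have h7 : L ^ 2 * (6400 * L ^ 2) = 6400 * (L ^ 2 * L ^ 2) := by ring
    omega
  have e8 : M * N ≤ M * (a1 + a2) + M * (4 * L) := by
    rw [← Nat.mul_add]; exact Nat.mul_le_mul_left _ ha
  have e9 : M * (16 * M) ≤ M * N := Nat.mul_le_mul_left _ hN
  have e10 : 32 * (L ^ 2 * N) ≤ M * N := by
    calc 32 * (L ^ 2 * N) = (32 * L ^ 2) * N := by ring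
      _ ≤ M * N := Nat.mul_le_mul_right _ hM
  have e11 : M * (64 * L) ≤ M * N := by
    apply Nat.mul_le_mul_left
    omega
  have e12 : 0 < L ^ 2 * N := by
    have : 0 < L ^ 2 := by positivity
    have : 0 < N := by omega
    positivity
  have e13 : M * (16 * M) = 16 * (M * M) := by ring
  have e14 : M * (64 * L) = 16 * (M * (4 * L)) := by ring
  omega

theorem HypA.conn {Γ : Cub V E} {A : Finset V} {ℓ d L K k₀ : ℕ} (h : HypA Γ A ℓ d L K k₀)
    {C C' : E → ZMod 2} (hC : Γ.Good A d L C) (hC' : Γ.Good A d L C')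
    (hCC : C = C' ∨ Disjoint (Γ.vs C) (Γ.vs C')) :
    Γ.Conn (univ \ (Γ.vs C ∪ Γ.vs C')) := by
  classical
  obtain ⟨hL36, hd78⟩ := h.big
  have hsize := h.size
  set X : Finset V := Γ.vs C ∪ Γ.vs C' with hX
  set U : Finset V := univ \ X with hU
  set N := A.card with hN
  -- sizes
  have hcC : (Γ.vs C).card ≤ 2 * L := by rw [Γ.card_vs hC.1.1]; exact hC.2.1
  have hcC' : (Γ.vs C').card ≤ 2 * L := by rw [Γ.card_vs hC'.1.1]; exact hC'.2.1
  have hXc : X.card ≤ 4 * L := by
    have := Finset.card_union_le (Γ.vs C) (Γ.vs C')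
    rw [← hX] at this
    omega
  have h2d : 2 ^ d = 2 * 2 ^ (d - 1) := by
    rw [← pow_succ']
    congr 1
    omega
  have hM : 32 * L ^ 2 ≤ 2 ^ (d - 1) := by
    have := h.hd
    omega
  have hbig : 2 ^ (d + 12) ≤ N := by
    refine le_trans (Nat.pow_le_pow_right (by norm_num) ?_) hsize
    omega
  have hbig2 : 4096 * 2 ^ d ≤ N := by
    refine le_trans (le_of_eq ?_) hbig
    rw [pow_add]; ring
  have hLsq : L ≤ L ^ 2 := Nat.le_self_pow two_ne_zero L
  have hLN : 6400 * L ^ 2 ≤ N := by omega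
  have hMN : 16 * 2 ^ (d - 1) ≤ N := by omega
  -- boundary of `X`
  have hbdX : (Γ.bd X).card ≤ 4 * L := by
    have h1 := Γ.card_bd_add X
    have h2 : X.card ≤ (Γ.EU X).card := by
      rcases hCC with rfl | hdis
      · have h3 : X = Γ.vs C := by rw [hX]; exact Finset.union_self _
        rw [h3, Γ.card_vs hC.1.1]
        exact Finset.card_le_card (Γ.supp_subset_EU_vs C)
      · have h3 : X.card = (Γ.vs C).card + (Γ.vs C').card := Finset.card_union_of_disjoint hdis
        have h4 : Disjoint (supp C) (supp C') := by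
          rw [Finset.disjoint_left]
          intro e he he'
          rw [mem_supp] at he he'
          exact (Finset.disjoint_left.1 hdis) (Γ.s_mem_vs he) (Γ.s_mem_vs he')
        have h5 : supp C ∪ supp C' ⊆ Γ.EU X := by
          apply Finset.union_subset
          · exact (Γ.supp_subset_EU_vs C).trans (Γ.EU_mono Finset.subset_union_left)
          · exact (Γ.supp_subset_EU_vs C').trans (Γ.EU_mono Finset.subset_union_right)
        have h6 := Finset.card_le_card h5
        rw [Finset.card_union_of_disjoint h4, ← Γ.card_vs hC.1.1, ← Γ.card_vs hC'.1.1] at h6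
        omega
    omega
  have hAX : N ≤ (U ∩ A).card + 4 * L := by
    have h1 : A ⊆ (U ∩ A) ∪ X := by
      intro y hy
      by_cases hyX : y ∈ X
      · exact mem_union_right _ hyX
      · exact mem_union_left _ (mem_inter.2 ⟨mem_sdiff.2 ⟨mem_univ _, hyX⟩, hy⟩)
    have h2 := (Finset.card_le_card h1).trans (Finset.card_union_le _ _)
    omega
  refine ⟨?_, ?_⟩
  · have h1 : 0 < (U ∩ A).card := by omega
    obtain ⟨y, hy⟩ := Finset.card_pos.1 h1
    exact ⟨y, (mem_inter.1 hy).1⟩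
  intro S hSU hS0 hS1
  by_contra hcon
  have hcl : Γ.Cl U S := Finset.not_nonempty_iff_eq_empty.1 hcon
  set S' : Finset V := U \ S with hS'
  have hcl' : Γ.Cl U S' := Cub.cl_sdiff hcl
  have hS'U : S' ⊆ U := Finset.sdiff_subset
  have hS'0 : S'.Nonempty := by
    rw [Finset.nonempty_iff_ne_empty]
    intro h0
    exact hS1 (Finset.Subset.antisymm hSU (Finset.sdiff_eq_empty_iff_subset.1 h0))
  have hXne : X.Nonempty := (Γ.vs_nonempty hC.1.2.1).mono Finset.subset_union_left
  -- closed sets are adjacent to `X`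
  have hadj : ∀ T ⊆ U, Γ.Cl U T → T.Nonempty → (Γ.bt T X).Nonempty := by
    intro T hT hclT hT0
    obtain ⟨e, he⟩ := h.hΓ.2 T (Finset.subset_univ _) hT0 (by
      rintro rfl
      obtain ⟨x, hx⟩ := hXne
      exact (mem_sdiff.1 (hT (mem_univ x))).2 hx)
    refine ⟨e, ?_⟩
    have h1 := (Cub.cl_iff.1 hclT) e
    rw [Cub.mem_bt] at he ⊢
    rcases he with ⟨p1, p2⟩ | ⟨p1, p2⟩
    · left
      refine ⟨p1, ?_⟩
      by_contra h4
      exact (mem_sdiff.1 p2).2 (h1.1 p1 (mem_sdiff.2 ⟨mem_univ _, h4⟩))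
    · right
      refine ⟨?_, p2⟩
      by_contra h4
      exact (mem_sdiff.1 p1).2 (h1.2 p2 (mem_sdiff.2 ⟨mem_univ _, h4⟩))
  have hbc : 2 ^ (d - 1) ≤ (S ∩ A).card := h.big_comp hC hC' hCC hSU hcl (hadj S hSU hcl hS0)
  have hbc' : 2 ^ (d - 1) ≤ (S' ∩ A).card :=
    h.big_comp hC hC' hCC hS'U hcl' (hadj S' hS'U hcl' hS'0)
  have hpos : 0 < 2 ^ (d - 1) := by positivity
  -- boundaries
  have hbd : ∀ T ⊆ U, Γ.Cl U T → Γ.bd (T ∩ A) ⊆ Γ.bt T X ∪ (Γ.bd A ∩ Γ.EU T) := by
    intro T hT hclT e he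
    have h1 := (Cub.cl_iff.1 hclT) e
    have hUm : ∀ y, y ∉ X → y ∈ U := fun y hy => mem_sdiff.2 ⟨mem_univ _, hy⟩
    rw [Cub.mem_bd] at he
    rw [mem_union]
    rcases he with ⟨h2, h3⟩ | ⟨h3, h2⟩
    · rw [mem_inter] at h2 h3
      by_cases h4 : Γ.t e ∈ X
      · left; rw [Cub.mem_bt]; exact Or.inl ⟨h2.1, h4⟩
      · right
        have h5 := h1.1 h2.1 (hUm _ h4)
        rw [mem_inter, Cub.mem_bd, Cub.mem_EU]
        exact ⟨Or.inl ⟨h2.2, fun h6 => h3 ⟨h5, h6⟩⟩, h2.1, h5⟩
    · rw [mem_inter] at h2 h3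
      by_cases h4 : Γ.s e ∈ X
      · left; rw [Cub.mem_bt]; exact Or.inr ⟨h4, h2.1⟩
      · right
        have h5 := h1.2 h2.1 (hUm _ h4)
        rw [mem_inter, Cub.mem_bd, Cub.mem_EU]
        exact ⟨Or.inr ⟨fun h6 => h3 ⟨h5, h6⟩, h2.2⟩, h5, h2.1⟩
  have hlt : ∀ T ⊆ U, Γ.Cl U T → (T ∩ A).Nonempty → T ∩ A ≠ A →
      (T ∩ A).card < ((Γ.bt T X).card + (Γ.bd A ∩ Γ.EU T).card) ^ 2 := by
    intro T hT hclT h0 h1
    refine lt_of_lt_of_le (h.min _ Finset.inter_subset_right h0 h1) (Nat.pow_le_pow_left ?_ 2)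
    exact (Finset.card_le_card (hbd T hT hclT)).trans (Finset.card_union_le _ _)
  have hSA0 : (S ∩ A).Nonempty := Finset.card_pos.1 (by omega)
  have hS'A0 : (S' ∩ A).Nonempty := Finset.card_pos.1 (by omega)
  have hdisj : Disjoint S S' := Finset.disjoint_sdiff
  have hSA1 : S ∩ A ≠ A := by
    intro h0
    obtain ⟨y, hy⟩ := hS'A0
    have h1 : y ∈ S ∩ A := by rw [h0]; exact (mem_inter.1 hy).2
    exact (Finset.disjoint_left.1 hdisj) (mem_inter.1 h1).1 (mem_inter.1 hy).1
  have hS'A1 : S' ∩ A ≠ A := by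
    intro h0
    obtain ⟨y, hy⟩ := hSA0
    have h1 : y ∈ S' ∩ A := by rw [h0]; exact (mem_inter.1 hy).2
    exact (Finset.disjoint_left.1 hdisj) (mem_inter.1 hy).1 (mem_inter.1 h1).1
  have hX0 : ∀ y, y ∈ S → y ∉ X := fun y hy => (mem_sdiff.1 (hSU hy)).2
  have hX0' : ∀ y, y ∈ S' → y ∉ X := fun y hy => (mem_sdiff.1 (hS'U hy)).2
  have hsum1 : (Γ.bt S X).card + (Γ.bt S' X).card ≤ 4 * L := by
    have h1 : Disjoint (Γ.bt S X) (Γ.bt S' X) := by
      rw [Finset.disjoint_left]
      intro e he he'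
      rw [Cub.mem_bt] at he he'
      rcases he with ⟨p1, p2⟩ | ⟨p1, p2⟩ <;> rcases he' with ⟨q1, q2⟩ | ⟨q1, q2⟩
      · exact (Finset.disjoint_left.1 hdisj) p1 q1
      · exact hX0 _ p1 q1
      · exact hX0' _ q1 p1
      · exact (Finset.disjoint_left.1 hdisj) p2 q2
    rw [← Finset.card_union_of_disjoint h1]
    refine (Finset.card_le_card ?_).trans hbdX
    intro e he
    rw [mem_union, Cub.mem_bt, Cub.mem_bt] at he
    rw [Cub.mem_bd]
    rcases he with (⟨p1, p2⟩ | ⟨p1, p2⟩) | (⟨p1, p2⟩ | ⟨p1, p2⟩)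
    · exact Or.inr ⟨hX0 _ p1, p2⟩
    · exact Or.inl ⟨p1, hX0 _ p2⟩
    · exact Or.inr ⟨hX0' _ p1, p2⟩
    · exact Or.inl ⟨p1, hX0' _ p2⟩
  have hsum2 : (Γ.bd A ∩ Γ.EU S).card + (Γ.bd A ∩ Γ.EU S').card ≤ (Γ.bd A).card := by
    have h1 : Disjoint (Γ.bd A ∩ Γ.EU S) (Γ.bd A ∩ Γ.EU S') := by
      rw [Finset.disjoint_left]
      intro e he he'
      rw [mem_inter, Cub.mem_EU] at he he'
      exact (Finset.disjoint_left.1 hdisj) he.2.1 he'.2.1
    rw [← Finset.card_union_of_disjoint h1]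
    exact Finset.card_le_card (Finset.union_subset Finset.inter_subset_left Finset.inter_subset_left)
  have hcards : N ≤ (S ∩ A).card + (S' ∩ A).card + 4 * L := by
    have h1 : U ∩ A ⊆ (S ∩ A) ∪ (S' ∩ A) := by
      intro y hy
      rw [mem_inter] at hy
      by_cases hyS : y ∈ S
      · exact mem_union_left _ (mem_inter.2 ⟨hyS, hy.2⟩)
      · exact mem_union_right _ (mem_inter.2 ⟨mem_sdiff.2 ⟨hy.1, hyS⟩, hy.2⟩)
    have h2 := (Finset.card_le_card h1).trans (Finset.card_union_le _ _)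
    omega
  exact ac_num hM hMN hLN (by omega) h.bd (hlt S hSU hcl hSA0 hSA1) (hlt S' hS'U hcl' hS'A0 hS'A1)
    hbc hbc' (by omega) hcards

end Pool.Agent.Lib.MP_af4270_co
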