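import Pool.Agent.Lib.MP_af4270_co.AApproach

/-!
# PAN-A6: the number of closed walks

`trav_card`: for a cycle `C` the number of lists traversing `C` is at most `2 |C|`: such a list is
determined by its first dart (one of the `2 |C|` darts `d` with `C d.1 ≠ 0`): the next dart of a
traversal is a successor `d'` of the present dart `d` with `C d'.1 ≠ 0`, and there is at most one
such `d'` (two darts of `C` leave `hd d` (`deg_cases`), one of them is `rv d`).

`closed_walks`. `trace (NB B ^ k)` with `B = mar A (4 d)`, `k ≥ 1`, is the number of lists `l` with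
`Cw B k l` (`pow_apply_eq_card`: lists of `k + 1` darts from `x` to `x`; drop the last dart).
By `approach` each such `l` is a traversal of a good cycle with `k` edges (at most
`2 k * gN k` such lists) or there are `i < k`, `a`, `g` with `1 ≤ a`, `2 a ≤ k`, `g ≤ 4 d` and
`l.rotate i = α ++ β`, `α = κ.take a`, `κ` a traversal of a good cycle with `a + g` edges.
Given `(i, a, g, κ)` (at most `2 (a+g) gN (a+g)` possible `κ`) the list `l` is determined by `β`,
i.e. by the list (last dart of `α`) `:: β ++` [first dart of `α`], a non-backtracking list of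
`k - a + 2` darts in `B ⊆ A`, between two given darts: at most `(NB A ^ (k-a+1)) x y ≤ 2 ^ (k-a+1-k₀)`
with `k₀ = ℓ / 2 - 1` (`k > ℓ`, so `k - a + 1 ≥ k / 2 ≥ k₀`).
With `gN j ≤ gS * 2 ^ j` the number of `l` of the second kind is at most
`k * ∑_{a ≤ k/2} ∑_{g ≤ 4d} 2 (a+g) gS 2^(a+g) 2^(k-a+1-k₀) ≤ k * k * (4d+1) * 2 k * gS * 2^(4d) * 2^(k+1-k₀)`
(using `a + g ≤ k`) `= 2^k * gS * (4 k³ (4d+1) 2^(4d) / 2^k₀) ≤ 2^k gS * (32 L³ (4d+1) 2^(4d) / 2^k₀)`.
-/

set_option autoImplicit false
set_option linter.unusedSectionVars false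

namespace Pool.Agent.Lib.MP_af4270_co

open Finset

variable {V E : Type} [Fintype V] [DecidableEq V] [Fintype E] [DecidableEq E]

namespace Cub

variable (Γ : Cub V E)

/-! ### helper lemmas -/

private theorem acnt_hd_mem {C : E → ZMod 2} {d : E × Bool} (h : C d.1 ≠ 0) : Γ.hd d ∈ Γ.vs C := by
  obtain ⟨e, b⟩ := d
  cases b
  · exact Γ.t_mem_vs h
  · exact Γ.s_mem_vs h

private theorem acnt_two {C : E → ZMod 2} (hC : C ∈ Γ.Z) {a b c : E × Bool}
    (hab : Γ.tl a = Γ.tl b)
    (hac : Γ.tl a = Γ.tl c) (ha : C a.1 ≠ 0) (hb : C b.1 ≠ 0) (hc : C c.1 ≠ 0)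
    (h1 : a ≠ b) (h2 : a ≠ c) : b = c := by
  classical
  by_contra h3
  have hx : Γ.tl a ∈ Γ.vs C := by
    rw [Γ.mem_vs_iff_dart]
    exact ⟨a, Γ.mem_dt.2 rfl, ha⟩
  have h4 := (Γ.mem_vs_iff_deg hC _).1 hx
  have h5 : ({a, b, c} : Finset (E × Bool)) ⊆ Γ.dR C (Γ.tl a) := by
    intro z hz
    simp only [Finset.mem_insert, Finset.mem_singleton] at hz
    rw [mem_dR]
    rcases hz with rfl | rfl | rfl
    · exact ⟨rfl, ha⟩
    · exact ⟨hab.symm, hb⟩
    · exact ⟨hac.symm, hc⟩
  have h6 := Finset.card_le_card h5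
  rw [h4, Finset.card_eq_three.2 ⟨a, b, c, h1, h2, h3, rfl⟩] at h6
  omega

private theorem acnt_succ_unique {C : E → ZMod 2} (hC : C ∈ Γ.Z) {d a b : E × Bool}
    (h : C d.1 ≠ 0)
    (ha : Γ.st d a) (ha' : C a.1 ≠ 0) (hb : Γ.st d b) (hb' : C b.1 ≠ 0) : a = b := by
  rw [st_iff] at ha hb
  apply Γ.acnt_two hC (a := rv d) (b := a) (c := b)
  · rw [Γ.tl_rv]; exact ha.1
  · rw [Γ.tl_rv]; exact hb.1
  · exact h
  · exact ha'
  · exact hb'
  · exact fun h => ha.2 h.symm
  · exact fun h => hb.2 h.symm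

/-- lists of length `n` -/
private noncomputable def acntL (E : Type) [Fintype E] [DecidableEq E] (n : ℕ) :
    Finset (List (E × Bool)) :=
  (univ : Finset (Fin n → E × Bool)).image List.ofFn

private theorem mem_acntL {n : ℕ} {l : List (E × Bool)} : l ∈ acntL E n ↔ l.length = n := by
  unfold acntL
  rw [Finset.mem_image]
  constructor
  · rintro ⟨w, -, rfl⟩
    exact List.length_ofFn
  · rintro rfl
    exact ⟨l.get, mem_univ _, List.ofFn_get l⟩

private theorem acnt_chain_r {A : Finset V} {l : List (E × Bool)} (h1 : l.IsChain Γ.st)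
    (h2 : ∀ d ∈ l, Γ.dIn A d) :
    l.IsChain (fun a b => Γ.st a b ∧ Γ.dIn A a ∧ Γ.dIn A b) := by
  rw [List.isChain_iff_getElem] at h1 ⊢
  intro i hi
  exact ⟨h1 i hi, h2 _ (List.getElem_mem _), h2 _ (List.getElem_mem _)⟩

private theorem acnt_NB (A : Finset V) : Γ.NB A =
    Matrix.of fun a b => if (Γ.st a b ∧ Γ.dIn A a ∧ Γ.dIn A b) then (1 : ℕ) else 0 := by
  ext a b
  rfl

open Classical in
private theorem acnt_pow (A : Finset V) (m : ℕ) (x y : E × Bool) :
    (Γ.NB A ^ m) x y = ((acntL E (m + 1)).filter (fun l =>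
      l.IsChain (fun a b => Γ.st a b ∧ Γ.dIn A a ∧ Γ.dIn A b) ∧ l.head? = some x ∧
        l.getLast? = some y)).card := by
  rw [acnt_NB, pow_apply_eq_card]
  apply Nat.subtype_card
  intro l
  rw [Finset.mem_filter, mem_acntL]

theorem trav_card {C : E → ZMod 2} (hC : Γ.Single C) :
    Nat.card {l : List (E × Bool) // Γ.Trav C l} ≤ 2 * (supp C).card := by
  classical
  have hpos : 0 < (supp C).card := by
    rw [Finset.card_pos]
    exact supp_nonempty hC.2.1
  have hcard : Nat.card {d : E × Bool // C d.1 ≠ 0} = 2 * (supp C).card := by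
    rw [Nat.subtype_card (supp C ×ˢ (univ : Finset Bool))]
    · rw [Finset.card_product, Finset.card_univ, Fintype.card_bool, mul_comm]
    · intro d
      rw [Finset.mem_product, mem_supp]
      simp
  rw [← hcard]
  have hlen : ∀ l : {l : List (E × Bool) // Γ.Trav C l}, l.1.length = (supp C).card := fun l =>
    l.2.1.1
  have hmem : ∀ l : {l : List (E × Bool) // Γ.Trav C l}, ∀ d ∈ l.1, C d.1 ≠ 0 := fun l d hd =>
    (l.2.2 d.1).2 ⟨d, hd, rfl⟩
  let f : {l : List (E × Bool) // Γ.Trav C l} → {d : E × Bool // C d.1 ≠ 0} := fun l =>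
    ⟨l.1[0]'(by rw [hlen]; exact hpos), hmem l _ (List.getElem_mem _)⟩
  apply Nat.card_le_card_of_injective f
  intro l l' he
  apply Subtype.ext
  have h0 : l.1[0]'(by rw [hlen]; exact hpos) = l'.1[0]'(by rw [hlen]; exact hpos) :=
    congrArg Subtype.val he
  have hch := List.isChain_iff_getElem.1 l.2.1.2.2.1
  have hch' := List.isChain_iff_getElem.1 l'.2.1.2.2.1
  have key : ∀ i, ∀ (h : i < l.1.length) (h' : i < l'.1.length), l.1[i] = l'.1[i] := by
    intro i
    induction i with
    | zero => intro h h'; exact h0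
    | succ i ih =>
      intro h h'
      have h1 := ih (by omega) (by omega)
      have h2 := hch i h
      have h3 := hch' i h'
      rw [← h1] at h3
      exact Γ.acnt_succ_unique hC.1 (hmem l _ (List.getElem_mem _)) h2
        (hmem l _ (List.getElem_mem _)) h3 (hmem l' _ (List.getElem_mem _))
  exact List.ext_getElem (by rw [hlen, hlen]) key

theorem gN_le (A : Finset V) (d L k : ℕ) : (Γ.gN A d L k : ℝ) ≤ Γ.gS A d L * 2 ^ k := by
  classical
  unfold gN gS
  rw [Finset.sum_mul]
  calc ((((Γ.gd A d L).filter (fun C => (supp C).card = k)).card : ℕ) : ℝ)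
      = ∑ C ∈ (Γ.gd A d L).filter (fun C => (supp C).card = k), (1 : ℝ) := by
        rw [Finset.sum_const, nsmul_eq_mul, mul_one]
    _ ≤ ∑ C ∈ (Γ.gd A d L).filter (fun C => (supp C).card = k),
          (1 / 2 : ℝ) ^ (supp C).card * 2 ^ k := by
        apply Finset.sum_le_sum
        intro C hC
        rw [Finset.mem_filter] at hC
        rw [hC.2, ← mul_pow]
        norm_num
    _ ≤ ∑ C ∈ Γ.gd A d L, (1 / 2 : ℝ) ^ (supp C).card * 2 ^ k := by
        apply Finset.sum_le_sum_of_subset_of_nonneg (Finset.filter_subset _ _)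
        intro C _ _
        positivity

open Classical in
/-- closed lists with a prescribed beginning after rotation -/
private theorem acnt_fix {A B : Finset V} {ℓ k a : ℕ} (hBA : B ⊆ A) (hA : Γ.Free ℓ A)
    (ha1 : 1 ≤ a) (ha2 : 2 * a ≤ k) (hk : ℓ < k) (hℓ : 2 ≤ ℓ) (i : ℕ) (α : List (E × Bool))
    (hα : α.length = a) :
    ((acntL E k).filter (fun l => Γ.Cw B k l ∧ ∃ β, l.rotate i = α ++ β)).card ≤
      2 ^ (k - a + 1 - (ℓ / 2 - 1)) := by
  obtain ⟨h, hh⟩ : ∃ h, α.head? = some h := by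
    cases α with
    | nil => simp at hα; omega
    | cons x xs => exact ⟨x, rfl⟩
  obtain ⟨p, hp⟩ : ∃ p, α.getLast? = some p := by
    rw [List.getLast?_eq_getElem?, List.getElem?_eq_getElem (by omega)]
    exact ⟨_, rfl⟩
  have hle := Γ.NB_pow_le (A := A) (ℓ := ℓ) (k := k - a + 1) (k₀ := ℓ / 2 - 1) hA (by omega)
    (by omega) p h
  refine le_trans ?_ hle
  rw [acnt_pow]
  apply Finset.card_le_card_of_injOn (fun l => p :: ((l.rotate i).drop a ++ [h]))
  · intro l hl
    rw [Finset.mem_coe, Finset.mem_filter, mem_acntL] at hl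
    obtain ⟨hlen, hcw, β, hβ⟩ := hl
    have hcw' := Γ.cw_rotate hcw i
    have hdrop : (l.rotate i).drop a = β := by
      rw [hβ, ← hα]; exact List.drop_left
    have hlenβ : β.length = k - a := by
      have h1 : (l.rotate i).length = k := hcw'.1
      rw [hβ, List.length_append] at h1
      omega
    rw [Finset.mem_coe, Finset.mem_filter, mem_acntL]
    simp only
    rw [hdrop]
    obtain ⟨-, hin, hch, hcyc⟩ := hcw'
    rw [hβ] at hin hch hcyc
    rw [List.isChain_append] at hch
    obtain ⟨hchα, hchβ, hαβ⟩ := hch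
    have hβne : β ≠ [] := by
      intro h0
      rw [h0] at hlenβ
      simp at hlenβ
      omega
    obtain ⟨b, hb⟩ : ∃ b, β.head? = some b := by
      cases β with
      | nil => exact absurd rfl hβne
      | cons x xs => exact ⟨x, rfl⟩
    have hhd : (α ++ β).head? = some h := by rw [List.head?_append, hh]; rfl
    have hlast : ∀ x ∈ β.getLast?, Γ.st x h := by
      intro x hx
      apply hcyc x _ h _
      · rw [List.getLast?_append]
        rw [Option.mem_def] at hx ⊢
        rw [hx]; rfl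
      · rw [hhd]; rfl
    refine ⟨?_, ?_, ?_, ?_⟩
    · rw [List.length_cons, List.length_append, hlenβ, List.length_singleton]
    · apply Γ.acnt_chain_r
      · rw [List.isChain_cons]
        refine ⟨?_, ?_⟩
        · intro y hy
          rw [List.head?_append, hb, Option.mem_def] at hy
          simp only [Option.some_or, Option.some.injEq] at hy
          subst hy
          exact hαβ p hp b hb
        · rw [List.isChain_append]
          refine ⟨hchβ, List.isChain_singleton _, ?_⟩
          intro x hx y hy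
          simp only [List.head?_cons, Option.mem_def, Option.some.injEq] at hy
          subst hy
          exact hlast x hx
      · intro e he
        have hmemα : ∀ z ∈ α, Γ.dIn A z := fun z hz => by
          have h1 := hin z (List.mem_append_left _ hz)
          exact ⟨hBA h1.1, hBA h1.2⟩
        rw [List.mem_cons, List.mem_append, List.mem_singleton] at he
        rcases he with rfl | he | rfl
        · exact hmemα _ (List.mem_of_getLast? hp)
        · have h1 := hin e (List.mem_append_right _ he)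
          exact ⟨hBA h1.1, hBA h1.2⟩
        · exact hmemα _ (List.mem_of_head? hh)
    · rfl
    · rw [← List.cons_append, List.getLast?_append]
      rfl
  · intro l hl l' hl' he
    rw [Finset.mem_coe, Finset.mem_filter] at hl hl'
    obtain ⟨-, -, β, hβ⟩ := hl
    obtain ⟨-, -, β', hβ'⟩ := hl'
    simp only [List.cons.injEq, true_and, List.append_cancel_right_eq] at he
    have h1 : (l.rotate i).drop a = β := by
      rw [hβ, ← hα]; exact List.drop_left
    have h2 : (l'.rotate i).drop a = β' := by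
      rw [hβ', ← hα]; exact List.drop_left
    rw [h1, h2] at he
    apply List.rotate_injective i
    simp only
    rw [hβ, hβ', he]

open Classical in
private theorem acnt_trav {C : E → ZMod 2} (hC : Γ.Single C) (n : ℕ) :
    ((acntL E n).filter (fun l => Γ.Trav C l)).card ≤ 2 * (supp C).card := by
  refine le_trans ?_ (Γ.trav_card hC)
  rw [Nat.subtype_card ((acntL E (supp C).card).filter (fun l => Γ.Trav C l))]
  · apply Finset.card_le_card
    intro l hl
    rw [Finset.mem_filter] at hl ⊢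
    exact ⟨mem_acntL.2 hl.2.1.1, hl.2⟩
  · intro l
    rw [Finset.mem_filter, mem_acntL]
    exact ⟨fun h => h.2, fun h => ⟨h.1.1, h⟩⟩

open Classical in
/-- the trace is bounded by the number of closed lists -/
private theorem acnt_trace (B : Finset V) {k : ℕ} (h0 : 0 < k) :
    ((Γ.NB B) ^ k).trace ≤ ((acntL E k).filter (fun l => Γ.Cw B k l)).card := by
  unfold Matrix.trace
  simp only [Matrix.diag_apply, acnt_pow]
  rw [← Finset.card_sigma]
  apply Finset.card_le_card_of_injOn (fun u : (Σ _ : E × Bool, List (E × Bool)) => u.2.dropLast)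
  · rintro ⟨x, l⟩ hu
    rw [Finset.mem_coe, Finset.mem_sigma, Finset.mem_filter, mem_acntL] at hu
    obtain ⟨-, hlen, hch, hhd, hlt⟩ := hu
    rw [Finset.mem_coe, Finset.mem_filter, mem_acntL]
    simp only at hlen hch hhd hlt ⊢
    have hdl : l.dropLast ++ [x] = l := List.dropLast_append_getLast? x hlt
    have hlen' : l.dropLast.length = k := by rw [List.length_dropLast, hlen]; rfl
    rw [List.isChain_iff_getElem] at hch
    have hget : ∀ j (hj : j < l.dropLast.length), l.dropLast[j] = l[j]'(by omega) := by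
      intro j hj
      exact List.getElem_dropLast hj
    refine ⟨hlen', hlen', ?_, ?_, ?_⟩
    · intro d hd
      obtain ⟨j, hj, rfl⟩ := List.mem_iff_getElem.1 hd
      rw [hget j hj]
      exact (hch j (by omega)).2.1
    · rw [List.isChain_iff_getElem]
      intro j hj
      rw [hget j (by omega), hget (j + 1) hj]
      exact (hch j (by omega)).1
    · intro a ha b hb
      rw [List.getLast?_eq_getElem?, hlen', List.getElem?_eq_getElem (by omega), Option.mem_def,
        hget (k - 1) (by omega)] at ha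
      rw [List.head?_eq_getElem?, List.getElem?_eq_getElem (by omega), Option.mem_def,
        hget 0 (by omega)] at hb
      simp only [Option.some.injEq] at ha hb
      rw [List.head?_eq_getElem?, List.getElem?_eq_getElem (by omega)] at hhd
      rw [List.getLast?_eq_getElem?, hlen, List.getElem?_eq_getElem (by omega)] at hlt
      simp only [Option.some.injEq] at hhd hlt
      have h1 := (hch (k - 1) (by omega)).1
      have h2 : k - 1 + 1 = k := by omega
      simp only [h2] at h1
      rw [ha] at h1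
      rw [← hb, hhd, ← hlt]
      exact h1
  · rintro ⟨x, l⟩ hu ⟨x', l'⟩ hu' he
    rw [Finset.mem_coe, Finset.mem_sigma, Finset.mem_filter, mem_acntL] at hu hu'
    obtain ⟨-, hlen, -, hhd, hlt⟩ := hu
    obtain ⟨-, hlen', -, hhd', hlt'⟩ := hu'
    simp only at hlen hhd hlt hlen' hhd' hlt' he
    have hdl : l.dropLast ++ [x] = l := List.dropLast_append_getLast? x hlt
    have hdl' : l'.dropLast ++ [x'] = l' := List.dropLast_append_getLast? x' hlt'
    have hx : x = x' := by
      have h1 : l.dropLast.head? = some x := by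
        rw [List.head?_dropLast, if_pos (by omega), hhd]
      have h2 : l'.dropLast.head? = some x' := by
        rw [List.head?_dropLast, if_pos (by omega), hhd']
      rw [he, h2] at h1
      exact (Option.some.inj h1).symm
    subst hx
    rw [← hdl, ← hdl', he]

theorem closed_walks {A : Finset V} {ℓ d L k : ℕ} (hA : Γ.Free ℓ A) (hd : 16 * d + 16 ≤ ℓ)
    (hk : k ≤ 2 * L) (h0 : 0 < k) :
    (((Γ.NB (Γ.mar A (4 * d))) ^ k).trace : ℝ) ≤ 2 * k * Γ.gN A d L k +
      2 ^ k * Γ.gS A d L * (32 * L ^ 3 * (4 * d + 1) * 2 ^ (4 * d) / 2 ^ (ℓ / 2 - 1)) := by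
  classical
  set B := Γ.mar A (4 * d) with hB
  have hBA : B ⊆ A := Γ.mar_subset A _
  set T := (acntL E k).filter (fun l => Γ.Cw B k l) with hT
  have htr := Γ.acnt_trace B h0
  have hgS0 : 0 ≤ Γ.gS A d L := by
    unfold gS
    exact Finset.sum_nonneg fun _ _ => by positivity
  rcases T.eq_empty_or_nonempty with hemp | ⟨l₀, hl₀⟩
  · have h1 : ((Γ.NB B) ^ k).trace = 0 := by
      rw [← hT, hemp, Finset.card_empty] at htr
      omega
    rw [h1]
    simp only [Nat.cast_zero]
    positivity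
  -- `k > ℓ`
  have hkℓ : ℓ < k := by
    rw [hT, Finset.mem_filter, mem_acntL] at hl₀
    obtain ⟨hlen, hcw⟩ := hl₀
    have hne : l₀ ≠ [] := by
      intro h
      rw [h] at hlen
      simp at hlen
      omega
    obtain ⟨-, hin, hch, hcyc⟩ := hcw
    obtain ⟨a, ha⟩ : ∃ a, l₀.head? = some a := by
      cases l₀ with
      | nil => exact absurd rfl hne
      | cons x xs => exact ⟨x, rfl⟩
    obtain ⟨b, hb⟩ : ∃ b, l₀.getLast? = some b := by
      rw [List.getLast?_eq_getElem?, List.getElem?_eq_getElem (by omega)]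
      exact ⟨_, rfl⟩
    have hst := hcyc b hb a ha
    have hwk : Γ.Wk (Γ.tl a) (Γ.tl a) l₀ := by
      refine ⟨hch, fun _ => rfl, ?_, ?_⟩
      · intro x hx
        rw [ha, Option.mem_def, Option.some.injEq] at hx
        rw [hx]
      · intro x hx
        rw [hb, Option.mem_def, Option.some.injEq] at hx
        rw [← hx]
        exact ((Γ.st_iff _ _).1 hst).1
    have := Γ.no_closed hA hwk (fun x hx => ⟨hBA (hin x hx).1, hBA (hin x hx).2⟩) hne
    omega
  set κ₀ := ℓ / 2 - 1 with hκ₀
  -- the two kinds of lists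
  let T1 : Finset (List (E × Bool)) := ((Γ.gd A d L).filter (fun C => (supp C).card = k)).biUnion
    (fun C => (acntL E k).filter (fun l => Γ.Trav C l))
  let F : ℕ → ℕ → List (E × Bool) → Finset (List (E × Bool)) := fun i a κ =>
    if (κ.take a).length = a then
      (acntL E k).filter (fun l => Γ.Cw B k l ∧ ∃ β, l.rotate i = κ.take a ++ β) else ∅
  let T2 : Finset (List (E × Bool)) := (range k).biUnion fun i => (Icc 1 (k / 2)).biUnion fun a =>
    (range (4 * d + 1)).biUnion fun g =>
      ((Γ.gd A d L).filter (fun C => (supp C).card = a + g)).biUnion fun C =>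
        ((acntL E (a + g)).filter (fun κ => Γ.Trav C κ)).biUnion fun κ => F i a κ
  have hsub : T ⊆ T1 ∪ T2 := by
    intro l hl
    rw [hT, Finset.mem_filter, mem_acntL] at hl
    obtain ⟨hlen, hcw⟩ := hl
    rw [Finset.mem_union]
    rcases Γ.approach hA hd hk h0 hcw with ⟨C, hG, htrav⟩ |
      ⟨i, a, g, α, β, κ, C, hi, hrot, hα, ha1, ha2, hg, hG, htrav, hκ, htake⟩
    · left
      simp only [T1, Finset.mem_biUnion, Finset.mem_filter, mem_acntL, gd, Finset.mem_univ,
        true_and]
      exact ⟨C, ⟨hG, by rw [← htrav.1.1]; exact hlen⟩, hlen, htrav⟩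
    · right
      simp only [T2, Finset.mem_biUnion, Finset.mem_filter, mem_acntL, gd, Finset.mem_univ,
        true_and, Finset.mem_range, Finset.mem_Icc]
      refine ⟨i, hi, a, ⟨ha1, by omega⟩, g, by omega, C, ⟨hG, ?_⟩, κ, ⟨hκ, htrav⟩, ?_⟩
      · rw [← htrav.1.1]; exact hκ
      · simp only [F]
        rw [htake, if_pos hα, Finset.mem_filter, mem_acntL]
        exact ⟨hlen, hcw, β, hrot⟩
  have hT1 : T1.card ≤ Γ.gN A d L k * (2 * k) := by
    unfold gN
    apply Finset.card_biUnion_le_card_mul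
    intro C hC
    rw [Finset.mem_filter, gd, Finset.mem_filter] at hC
    have h1 := Γ.acnt_trav hC.1.2.1 k
    rw [hC.2] at h1
    exact h1
  have hF : ∀ i a κ, 1 ≤ a → 2 * a ≤ k → (F i a κ).card ≤ 2 ^ (k - a + 1 - κ₀) := by
    intro i a κ ha1 ha2
    simp only [F]
    split_ifs with hl
    · exact Γ.acnt_fix hBA hA ha1 ha2 hkℓ (by omega) i _ hl
    · simp
  have hT2 : T2.card ≤ ∑ i ∈ range k, ∑ a ∈ Icc 1 (k / 2), ∑ g ∈ range (4 * d + 1),
      Γ.gN A d L (a + g) * (2 * (a + g) * 2 ^ (k - a + 1 - κ₀)) := by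
    refine Finset.card_biUnion_le.trans (Finset.sum_le_sum fun i _ => ?_)
    refine Finset.card_biUnion_le.trans (Finset.sum_le_sum fun a ha => ?_)
    refine Finset.card_biUnion_le.trans (Finset.sum_le_sum fun g _ => ?_)
    rw [Finset.mem_Icc] at ha
    unfold gN
    apply Finset.card_biUnion_le_card_mul
    intro C hC
    rw [Finset.mem_filter, gd, Finset.mem_filter] at hC
    have h1 := Γ.acnt_trav hC.1.2.1 (a + g)
    rw [hC.2] at h1
    refine (Finset.card_biUnion_le_card_mul _ _ _ fun κ _ => hF i a κ ha.1 (by omega)).trans ?_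
    exact Nat.mul_le_mul_right _ h1
  have hmain : (((Γ.NB B) ^ k).trace : ℝ) ≤ (T1.card : ℝ) + (T2.card : ℝ) := by
    have h1 : ((Γ.NB B) ^ k).trace ≤ T1.card + T2.card :=
      htr.trans ((Finset.card_le_card hsub).trans (Finset.card_union_le _ _))
    exact_mod_cast h1
  have hT1' : (T1.card : ℝ) ≤ 2 * k * Γ.gN A d L k := by
    have : (T1.card : ℝ) ≤ ((Γ.gN A d L k * (2 * k) : ℕ) : ℝ) := by exact_mod_cast hT1
    push_cast at this
    linarith
  -- bound of one term
  have hkR : (0 : ℝ) < (k : ℝ) := by exact_mod_cast h0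
  have hterm : ∀ i ∈ range k, ∀ a ∈ Icc 1 (k / 2), ∀ g ∈ range (4 * d + 1),
      (Γ.gN A d L (a + g) : ℝ) * (2 * (a + g) * 2 ^ (k - a + 1 - κ₀)) ≤
        Γ.gS A d L * (4 * k * 2 ^ (4 * d) * 2 ^ k / 2 ^ κ₀) := by
    intro i _ a ha g hg
    rw [Finset.mem_Icc] at ha
    rw [Finset.mem_range] at hg
    have h1 := Γ.gN_le A d L (a + g)
    have h2 : ((a : ℝ) + g) ≤ k := by
      have : a + g ≤ k := by omega
      exact_mod_cast this
    have h3 : (2 : ℝ) ^ (k - a + 1 - κ₀) = 2 ^ (k + 1) / (2 ^ a * 2 ^ κ₀) := by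
      rw [eq_div_iff (by positivity), ← pow_add, ← pow_add]
      congr 1
      omega
    have h4 : (2 : ℝ) ^ g ≤ 2 ^ (4 * d) := pow_le_pow_right₀ (by norm_num) (by omega)
    calc (Γ.gN A d L (a + g) : ℝ) * (2 * (a + g) * 2 ^ (k - a + 1 - κ₀))
        ≤ (Γ.gS A d L * 2 ^ (a + g)) * (2 * k * 2 ^ (k - a + 1 - κ₀)) := by
          gcongr
      _ = Γ.gS A d L * (4 * k * 2 ^ g * 2 ^ k / 2 ^ κ₀) := by
          rw [h3, pow_add, pow_succ]
          field_simp
          ring
      _ ≤ Γ.gS A d L * (4 * k * 2 ^ (4 * d) * 2 ^ k / 2 ^ κ₀) := by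
          gcongr
  have hT2' : (T2.card : ℝ) ≤ 2 ^ k * Γ.gS A d L *
      (32 * L ^ 3 * (4 * d + 1) * 2 ^ (4 * d) / 2 ^ κ₀) := by
    have h1 : (T2.card : ℝ) ≤ ∑ i ∈ range k, ∑ a ∈ Icc 1 (k / 2), ∑ g ∈ range (4 * d + 1),
        (Γ.gN A d L (a + g) : ℝ) * (2 * (a + g) * 2 ^ (k - a + 1 - κ₀)) := by
      exact_mod_cast hT2
    refine h1.trans ?_
    calc _ ≤ ∑ i ∈ range k, ∑ a ∈ Icc 1 (k / 2), ∑ g ∈ range (4 * d + 1),
          Γ.gS A d L * (4 * k * 2 ^ (4 * d) * 2 ^ k / 2 ^ κ₀) := by
          apply Finset.sum_le_sum; intro i hi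
          apply Finset.sum_le_sum; intro a ha
          apply Finset.sum_le_sum; intro g hg
          exact hterm i hi a ha g hg
      _ = (k : ℝ) * ((k / 2 : ℕ) : ℝ) * ((4 * d + 1 : ℕ) : ℝ) *
          (Γ.gS A d L * (4 * k * 2 ^ (4 * d) * 2 ^ k / 2 ^ κ₀)) := by
          simp only [Finset.sum_const, Finset.card_range, Nat.card_Icc, nsmul_eq_mul]
          rw [Nat.add_sub_cancel]
          ring
      _ ≤ (k : ℝ) * ((k : ℝ) / 2) * (4 * d + 1) *
          (Γ.gS A d L * (4 * k * 2 ^ (4 * d) * 2 ^ k / 2 ^ κ₀)) := by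
          have h2 : ((k / 2 : ℕ) : ℝ) ≤ (k : ℝ) / 2 := Nat.cast_div_le
          push_cast
          gcongr
      _ = 2 * (k : ℝ) ^ 3 * (2 ^ k * Γ.gS A d L * ((4 * d + 1) * 2 ^ (4 * d) / 2 ^ κ₀)) := by
          ring
      _ ≤ 2 * (2 * (L : ℝ)) ^ 3 * (2 ^ k * Γ.gS A d L * ((4 * d + 1) * 2 ^ (4 * d) / 2 ^ κ₀)) := by
          have h2 : (k : ℝ) ≤ 2 * L := by exact_mod_cast hk
          gcongr
      _ ≤ _ := by
          have h3 : 0 ≤ 2 ^ k * Γ.gS A d L * ((L : ℝ) ^ 3 * (4 * d + 1) * 2 ^ (4 * d) / 2 ^ κ₀) := by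
            positivity
          have e1 : 2 * (2 * (L : ℝ)) ^ 3 *
              (2 ^ k * Γ.gS A d L * ((4 * d + 1) * 2 ^ (4 * d) / 2 ^ κ₀)) =
              16 * (2 ^ k * Γ.gS A d L * ((L : ℝ) ^ 3 * (4 * d + 1) * 2 ^ (4 * d) / 2 ^ κ₀)) := by
            ring
          have e2 : 2 ^ k * Γ.gS A d L * (32 * (L : ℝ) ^ 3 * (4 * d + 1) * 2 ^ (4 * d) / 2 ^ κ₀) =
              32 * (2 ^ k * Γ.gS A d L * ((L : ℝ) ^ 3 * (4 * d + 1) * 2 ^ (4 * d) / 2 ^ κ₀)) := by
            ring
          rw [e1, e2]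
          linarith
  linarith

end Cub

end Pool.Agent.Lib.MP_af4270_co
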