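import Pool.Agent.Lib.MP_af4270_co.ADefs

/-!
# PAN-A1: darts and the non-backtracking matrix

All statements are elementary. `card_succ`: the darts leaving `hd d` are three (`card_dt`), one of
them is `rv d`. `card_pred`: apply `card_succ` to `rv d'` via `st_rv`.
`NB_pow_row`: induction, `NB ^ (k+1) = NB ^ k * NB` or `NB * NB ^ k`.

`NB_pow_total`: let `a k = ∑ x, ∑ y, (NB A ^ k) x y`. `k = 0`: `a 0 = 2 |E| ≥ 3 |A|` (number of all
darts; the darts with tail in `A` are `3 |A|`). `k = 1`: pairs `(x, y)` with `st x y`, both in `A`: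
for each `x` in `A` (there are `3 |A| - |bd A|` such darts: darts with tail in `A` minus darts which
leave `A`) there are two `y` with `st x y`, all with tail in `A`; the pairs with `y` leaving `A`
are at most `2 |bd A|`. So `a 1 ≥ 2 (3 |A| - |bd A|) - 2 |bd A|`.
`k → k+1` (`k ≥ 1`): `a (k+1) ≥ 2 a k - |bd A| 2^(k+1)`: in `∑ x z y, (NB A ^ k) x z * [st z y]`,
which is `2 a k`, the terms with `y` not inside `A` have `z` in `A` (as `k ≥ 1`), so `tl y ∈ A`,
`hd y ∉ A`; for each of the `|bd A|` such darts `y` there are two `z` with `st z y` and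
`∑ x, (NB A ^ k) x z ≤ 2 ^ k`.
-/

set_option autoImplicit false
set_option linter.unusedSectionVars false

namespace Pool.Agent.Lib.MP_af4270_co

open Finset

variable {V E : Type} [Fintype V] [DecidableEq V] [Fintype E] [DecidableEq E]

omit [Fintype E] [DecidableEq E] in
theorem rv_rv (d : E × Bool) : rv (rv d) = d := by
  obtain ⟨e, b⟩ := d
  simp [rv]

omit [Fintype E] [DecidableEq E] in
theorem rv_ne (d : E × Bool) : rv d ≠ d := by
  obtain ⟨e, b⟩ := d
  simp [rv]

namespace Cub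

variable (Γ : Cub V E)

theorem tl_rv (d : E × Bool) : Γ.tl (rv d) = Γ.hd d := by
  obtain ⟨e, b⟩ := d
  cases b <;> rfl

theorem hd_rv (d : E × Bool) : Γ.hd (rv d) = Γ.tl d := by
  obtain ⟨e, b⟩ := d
  cases b <;> rfl

theorem st_iff (d d' : E × Bool) : Γ.st d d' ↔ Γ.hd d = Γ.tl d' ∧ d' ≠ rv d := Iff.rfl

theorem st_rv {d d' : E × Bool} : Γ.st (rv d') (rv d) ↔ Γ.st d d' := by
  rw [st_iff, st_iff, hd_rv, tl_rv, rv_rv]
  constructor
  · rintro ⟨h1, h2⟩
    refine ⟨h1.symm, ?_⟩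
    rintro rfl
    exact h2 rfl
  · rintro ⟨h1, h2⟩
    refine ⟨h1.symm, ?_⟩
    rintro rfl
    exact h2 rfl

theorem dIn_rv (A : Finset V) (d : E × Bool) : Γ.dIn A (rv d) ↔ Γ.dIn A d := by
  unfold dIn
  rw [tl_rv, hd_rv]
  exact and_comm

theorem card_succ (d : E × Bool) : (univ.filter (fun d' => Γ.st d d')).card = 2 := by
  have h1 : univ.filter (fun d' => Γ.st d d') = (Γ.dt (Γ.hd d)).erase (rv d) := by
    ext d'
    rw [mem_filter, mem_erase, mem_dt, st_iff]
    constructor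
    · rintro ⟨-, h1, h2⟩
      exact ⟨h2, h1.symm⟩
    · rintro ⟨h1, h2⟩
      exact ⟨mem_univ _, h2.symm, h1⟩
  rw [h1, Finset.card_erase_of_mem (by rw [mem_dt, tl_rv]), card_dt]

theorem card_pred (d' : E × Bool) : (univ.filter (fun d => Γ.st d d')).card = 2 := by
  rw [← Γ.card_succ (rv d')]
  apply Finset.card_bij (fun d _ => rv d)
  · intro d hd
    rw [mem_filter] at hd ⊢
    exact ⟨mem_univ _, Γ.st_rv.mpr hd.2⟩
  · intro a _ b _ hab
    have := congrArg rv hab
    rwa [rv_rv, rv_rv] at this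
  · intro d hd
    rw [mem_filter] at hd
    refine ⟨rv d, ?_, rv_rv d⟩
    rw [mem_filter]
    refine ⟨mem_univ _, ?_⟩
    have := hd.2
    rw [← st_rv, rv_rv] at this
    exact this

/-- if two different darts are successors of `d` then `d` is determined by them -/
theorem pred_unique {a b d d' : E × Bool} (hab : a ≠ b) (h1 : Γ.st d a) (h2 : Γ.st d b)
    (h3 : Γ.st d' a) (h4 : Γ.st d' b) : d = d' := by
  by_contra hne
  rw [st_iff] at h1 h2 h3 h4
  have hne' : rv d ≠ rv d' := by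
    intro h
    apply hne
    have := congrArg rv h
    rwa [rv_rv, rv_rv] at this
  have hsub : ({a, b, rv d, rv d'} : Finset (E × Bool)) ⊆ Γ.dt (Γ.hd d) := by
    intro x hx
    rw [mem_dt]
    simp only [mem_insert, mem_singleton] at hx
    rcases hx with rfl | rfl | rfl | rfl
    · exact h1.1.symm
    · exact h2.1.symm
    · exact Γ.tl_rv d
    · rw [tl_rv, h3.1, h1.1]
  have hcard : ({a, b, rv d, rv d'} : Finset (E × Bool)).card = 4 := by
    rw [Finset.card_insert_of_notMem, Finset.card_insert_of_notMem, Finset.card_insert_of_notMem,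
      Finset.card_singleton]
    · rwa [mem_singleton]
    · simp only [mem_insert, mem_singleton, not_or]
      exact ⟨h2.2, h4.2⟩
    · simp only [mem_insert, mem_singleton, not_or]
      exact ⟨hab, h1.2, h3.2⟩
  have := Finset.card_le_card hsub
  rw [hcard, card_dt] at this
  omega

/-- if two different darts are predecessors of `d` then `d` is determined by them -/
theorem succ_unique {a b d d' : E × Bool} (hab : a ≠ b) (h1 : Γ.st a d) (h2 : Γ.st b d)
    (h3 : Γ.st a d') (h4 : Γ.st b d') : d = d' := by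
  have hab' : rv a ≠ rv b := by
    intro h
    apply hab
    have := congrArg rv h
    rwa [rv_rv, rv_rv] at this
  have := Γ.pred_unique hab' (Γ.st_rv.mpr h1) (Γ.st_rv.mpr h2) (Γ.st_rv.mpr h3) (Γ.st_rv.mpr h4)
  have := congrArg rv this
  rwa [rv_rv, rv_rv] at this

theorem NB_row (A : Finset V) (x : E × Bool) : ∑ y, Γ.NB A x y ≤ 2 := by
  rw [← Γ.card_succ x, Finset.card_filter]
  refine sum_le_sum fun y _ => ?_
  unfold NB
  by_cases h : Γ.st x y
  · rw [if_pos h]
    split_ifs <;> omega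
  · rw [if_neg h, if_neg (fun h' => h h'.1)]

theorem NB_col (A : Finset V) (y : E × Bool) : ∑ x, Γ.NB A x y ≤ 2 := by
  rw [← Γ.card_pred y, Finset.card_filter]
  refine sum_le_sum fun x _ => ?_
  unfold NB
  by_cases h : Γ.st x y
  · rw [if_pos h]
    split_ifs <;> omega
  · rw [if_neg h, if_neg (fun h' => h h'.1)]

theorem NB_pow_row (A : Finset V) (k : ℕ) (x : E × Bool) : ∑ y, (Γ.NB A ^ k) x y ≤ 2 ^ k := by
  induction k with
  | zero => simp [Matrix.one_apply]
  | succ k ih =>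
    have h1 : ∑ y, (Γ.NB A ^ (k + 1)) x y = ∑ z, (Γ.NB A ^ k) x z * ∑ y, Γ.NB A z y := by
      simp only [pow_succ, Matrix.mul_apply, Finset.mul_sum]
      rw [Finset.sum_comm]
    rw [h1, pow_succ]
    calc ∑ z, (Γ.NB A ^ k) x z * ∑ y, Γ.NB A z y ≤ ∑ z, (Γ.NB A ^ k) x z * 2 :=
          sum_le_sum fun z _ => Nat.mul_le_mul_left _ (Γ.NB_row A z)
      _ = (∑ z, (Γ.NB A ^ k) x z) * 2 := by rw [Finset.sum_mul]
      _ ≤ 2 ^ k * 2 := Nat.mul_le_mul_right _ ih

theorem NB_pow_col (A : Finset V) (k : ℕ) (y : E × Bool) : ∑ x, (Γ.NB A ^ k) x y ≤ 2 ^ k := by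
  induction k with
  | zero => simp [Matrix.one_apply]
  | succ k ih =>
    have h1 : ∑ x, (Γ.NB A ^ (k + 1)) x y = ∑ z, (∑ x, Γ.NB A x z) * (Γ.NB A ^ k) z y := by
      simp only [pow_succ', Matrix.mul_apply, Finset.sum_mul]
      rw [Finset.sum_comm]
    rw [h1, pow_succ']
    calc ∑ z, (∑ x, Γ.NB A x z) * (Γ.NB A ^ k) z y ≤ ∑ z, 2 * (Γ.NB A ^ k) z y :=
          sum_le_sum fun z _ => Nat.mul_le_mul_right _ (Γ.NB_col A z)
      _ = 2 * ∑ z, (Γ.NB A ^ k) z y := by rw [Finset.mul_sum]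
      _ ≤ 2 * 2 ^ k := Nat.mul_le_mul_left _ ih

/-- darts which leave `A` -/
private def outD (A : Finset V) : Finset (E × Bool) :=
  univ.filter (fun d => Γ.tl d ∈ A ∧ Γ.hd d ∉ A)

private theorem card_outD (A : Finset V) : (Γ.outD A).card = (Γ.bd A).card := by
  apply Finset.card_bij (fun d _ => d.1)
  · intro d hd
    rw [outD, mem_filter] at hd
    rw [mem_bd]
    obtain ⟨e, b⟩ := d
    cases b
    · rw [tl_false, hd_false] at hd
      tauto
    · rw [tl_true, hd_true] at hd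
      tauto
  · intro a ha b hb hab
    rw [outD, mem_filter] at ha hb
    obtain ⟨e, u⟩ := a
    obtain ⟨f, v⟩ := b
    dsimp only at hab
    subst hab
    cases u <;> cases v
    · rfl
    · rw [tl_false, hd_false] at ha
      rw [tl_true, hd_true] at hb
      exact absurd hb.2.1 ha.2.2
    · rw [tl_true, hd_true] at ha
      rw [tl_false, hd_false] at hb
      exact absurd hb.2.1 ha.2.2
    · rfl
  · intro e he
    rw [mem_bd] at he
    by_cases h : Γ.s e ∈ A
    · refine ⟨(e, false), ?_, rfl⟩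
      rw [outD, mem_filter, tl_false, hd_false]
      refine ⟨mem_univ _, ?_⟩
      tauto
    · refine ⟨(e, true), ?_, rfl⟩
      rw [outD, mem_filter, tl_true, hd_true]
      refine ⟨mem_univ _, ?_⟩
      tauto

private theorem card_tlIn (A : Finset V) :
    (univ.filter (fun d : E × Bool => Γ.tl d ∈ A)).card = 3 * A.card := by
  have h1 : univ.filter (fun d : E × Bool => Γ.tl d ∈ A) = A.biUnion Γ.dt := by
    ext d
    rw [mem_filter, mem_biUnion]
    constructor
    · rintro ⟨-, h⟩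
      exact ⟨_, h, by rw [mem_dt]⟩
    · rintro ⟨x, hx, hd⟩
      rw [mem_dt] at hd
      rw [hd]
      exact ⟨mem_univ _, hx⟩
  rw [h1, Finset.card_biUnion]
  · rw [Finset.sum_congr rfl fun x _ => Γ.card_dt x, Finset.sum_const, smul_eq_mul, mul_comm]
  · intro x _ y _ hxy
    rw [Function.onFun, Finset.disjoint_left]
    intro d hd hd'
    rw [mem_dt] at hd hd'
    exact hxy (hd.symm.trans hd')

/-- the number of darts inside `A` -/
theorem card_dIn (A : Finset V) :
    (univ.filter (fun d => Γ.dIn A d)).card + (Γ.bd A).card = 3 * A.card := by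
  rw [← Γ.card_tlIn A, ← Γ.card_outD A, ← Finset.card_union_of_disjoint]
  · congr 1
    ext d
    rw [mem_union, outD, mem_filter, mem_filter, mem_filter]
    unfold dIn
    by_cases h : Γ.hd d ∈ A <;> simp [h]
  · rw [Finset.disjoint_left]
    intro d hd hd'
    rw [mem_filter] at hd
    rw [outD, mem_filter] at hd'
    exact hd'.2.2 hd.2.2

private theorem loss (A : Finset V) (z : E × Bool) (hz : Γ.dIn A z) :
    2 ≤ (∑ y, Γ.NB A z y) + ∑ y ∈ Γ.outD A, (if Γ.st z y then 1 else 0) := by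
  have h1 : (univ.filter (fun y => Γ.st z y)) ⊆
      (univ.filter (fun y => Γ.st z y ∧ Γ.dIn A z ∧ Γ.dIn A y)) ∪
        (Γ.outD A).filter (fun y => Γ.st z y) := by
    intro y hy
    rw [mem_filter] at hy
    rw [mem_union, mem_filter, mem_filter, outD, mem_filter]
    have h2 : Γ.tl y ∈ A := by
      rw [← hy.2.1]
      exact hz.2
    by_cases h : Γ.hd y ∈ A
    · left
      exact ⟨mem_univ _, hy.2, hz, h2, h⟩
    · right
      exact ⟨⟨mem_univ _, h2, h⟩, hy.2⟩
  have h2 := (Finset.card_le_card h1).trans (Finset.card_union_le _ _)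
  rw [card_succ, Finset.card_filter, Finset.card_filter] at h2
  exact h2

private theorem total_in (A : Finset V) (k : ℕ) :
    2 ^ k * (3 * A.card) ≤ (∑ z ∈ univ.filter (fun d => Γ.dIn A d), ∑ x, (Γ.NB A ^ k) x z) +
      2 ^ k * ((k + 1) * (Γ.bd A).card) := by
  induction k with
  | zero =>
    have h1 : ∀ z ∈ univ.filter (fun d => Γ.dIn A d), ∑ x, (Γ.NB A ^ 0) x z = 1 := by
      intro z _
      rw [pow_zero]
      simp [Matrix.one_apply]
    rw [Finset.sum_congr rfl h1, Finset.sum_const, smul_eq_mul, mul_one, ← Γ.card_dIn A]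
    simp
  | succ k ih =>
    set b := (Γ.bd A).card with hb
    set s := univ.filter (fun d => Γ.dIn A d) with hs
    set c : E × Bool → ℕ := fun z => ∑ x, (Γ.NB A ^ k) x z with hc
    -- the sum for `k + 1`
    have h1 : ∑ y ∈ s, ∑ x, (Γ.NB A ^ (k + 1)) x y = ∑ z, c z * ∑ y ∈ s, Γ.NB A z y := by
      simp only [hc, pow_succ, Matrix.mul_apply, Finset.mul_sum, Finset.sum_mul]
      rw [Finset.sum_comm]
      calc ∑ x, ∑ y ∈ s, ∑ z, (Γ.NB A ^ k) x z * Γ.NB A z y
          = ∑ x, ∑ z, ∑ y ∈ s, (Γ.NB A ^ k) x z * Γ.NB A z y :=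
            Finset.sum_congr rfl fun x _ => Finset.sum_comm
        _ = ∑ z, ∑ x, ∑ y ∈ s, (Γ.NB A ^ k) x z * Γ.NB A z y := Finset.sum_comm
        _ = ∑ z, ∑ y ∈ s, ∑ x, (Γ.NB A ^ k) x z * Γ.NB A z y :=
            Finset.sum_congr rfl fun z _ => Finset.sum_comm
    have h2 : ∀ z, ∑ y ∈ s, Γ.NB A z y = ∑ y, Γ.NB A z y := by
      intro z
      apply Finset.sum_subset (Finset.subset_univ _)
      intro y _ hy
      rw [hs, mem_filter] at hy
      unfold NB
      rw [if_neg]
      intro h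
      exact hy ⟨mem_univ _, h.2.2⟩
    have h3 : 2 * ∑ z ∈ s, c z ≤ (∑ z, c z * ∑ y ∈ s, Γ.NB A z y) +
        ∑ z, c z * ∑ y ∈ Γ.outD A, (if Γ.st z y then 1 else 0) := by
      calc 2 * ∑ z ∈ s, c z = ∑ z ∈ s, c z * 2 := by rw [Finset.mul_sum]; simp only [mul_comm]
        _ ≤ ∑ z ∈ s, (c z * ∑ y ∈ s, Γ.NB A z y +
              c z * ∑ y ∈ Γ.outD A, (if Γ.st z y then 1 else 0)) := by
            refine sum_le_sum fun z hz => ?_
            rw [hs, mem_filter] at hz
            rw [h2, ← mul_add]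
            exact Nat.mul_le_mul_left _ (Γ.loss A z hz.2)
        _ = (∑ z ∈ s, c z * ∑ y ∈ s, Γ.NB A z y) +
              ∑ z ∈ s, c z * ∑ y ∈ Γ.outD A, (if Γ.st z y then 1 else 0) := by
            rw [Finset.sum_add_distrib]
        _ ≤ _ := Nat.add_le_add
            (Finset.sum_le_sum_of_subset (Finset.subset_univ _))
            (Finset.sum_le_sum_of_subset (Finset.subset_univ _))
    have h4 : ∑ z, c z * ∑ y ∈ Γ.outD A, (if Γ.st z y then 1 else 0) ≤ 2 ^ (k + 1) * b := by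
      calc ∑ z, c z * ∑ y ∈ Γ.outD A, (if Γ.st z y then 1 else 0)
          ≤ ∑ z, 2 ^ k * ∑ y ∈ Γ.outD A, (if Γ.st z y then 1 else 0) :=
            sum_le_sum fun z _ => Nat.mul_le_mul_right _ (Γ.NB_pow_col A k z)
        _ = 2 ^ k * ∑ y ∈ Γ.outD A, ∑ z, (if Γ.st z y then 1 else 0) := by
            rw [← Finset.mul_sum, Finset.sum_comm]
        _ = 2 ^ k * ∑ y ∈ Γ.outD A, 2 := by
            congr 1
            refine Finset.sum_congr rfl fun y _ => ?_
            rw [← Finset.card_filter, card_pred]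
        _ = 2 ^ (k + 1) * b := by
            rw [Finset.sum_const, smul_eq_mul, card_outD, ← hb]
            ring
    rw [h1]
    have h5 : 2 ^ (k + 1) * (3 * A.card) = 2 * (2 ^ k * (3 * A.card)) := by ring
    have h6 : 2 ^ (k + 1) * ((k + 1 + 1) * b) =
        2 * (2 ^ k * ((k + 1) * b)) + 2 ^ (k + 1) * b := by ring
    rw [h5, h6]
    have ih' : 2 ^ k * (3 * A.card) ≤ (∑ z ∈ s, c z) + 2 ^ k * ((k + 1) * b) := ih
    omega

theorem NB_pow_total (A : Finset V) (k : ℕ) :
    2 ^ k * (3 * A.card) ≤ (∑ x, ∑ y, (Γ.NB A ^ k) x y) + 2 ^ k * ((k + 1) * (Γ.bd A).card) := by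
  refine (Γ.total_in A k).trans (Nat.add_le_add_right ?_ _)
  have h1 : ∑ x, ∑ y, (Γ.NB A ^ k) x y = ∑ y, ∑ x, (Γ.NB A ^ k) x y := Finset.sum_comm
  rw [h1]
  exact Finset.sum_le_sum_of_subset (Finset.subset_univ _)

/-- monotonicity in the region -/
theorem NB_mono {A A' : Finset V} (h : A ⊆ A') (k : ℕ) (x y : E × Bool) :
    (Γ.NB A ^ k) x y ≤ (Γ.NB A' ^ k) x y := by
  induction k generalizing y with
  | zero => simp
  | succ k ih =>
    rw [pow_succ, pow_succ, Matrix.mul_apply, Matrix.mul_apply]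
    refine sum_le_sum fun z _ => Nat.mul_le_mul (ih z) ?_
    unfold NB
    by_cases h1 : Γ.st z y ∧ Γ.dIn A z ∧ Γ.dIn A y
    · rw [if_pos h1, if_pos ⟨h1.1, ⟨h h1.2.1.1, h h1.2.1.2⟩, ⟨h h1.2.2.1, h h1.2.2.2⟩⟩]
    · rw [if_neg h1]
      exact Nat.zero_le _

end Cub

end Pool.Agent.Lib.MP_af4270_co
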