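import Pool.Agent.Lib.MP_af4270_co.TJoin

/-!
# Part A: definitions (regions of high girth)
-/

set_option autoImplicit false
set_option linter.unusedSectionVars false

namespace Pool.Agent.Lib.MP_af4270_co

open Finset

variable {V E : Type} [Fintype V] [DecidableEq V] [Fintype E] [DecidableEq E]

/-- reversed dart -/
def rv (d : E × Bool) : E × Bool := (d.1, !d.2)

namespace Cub

variable (Γ : Cub V E)

/-- `l` is a closed (cyclically) non-backtracking list of `k` darts inside `A` -/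
def Cw (A : Finset V) (k : ℕ) (l : List (E × Bool)) : Prop :=
  l.length = k ∧ (∀ d ∈ l, Γ.dIn A d) ∧ l.IsChain Γ.st ∧
    ∀ a ∈ l.getLast?, ∀ b ∈ l.head?, Γ.st a b

/-- `l` goes once around the cycle `C` -/
def Trav (C : E → ZMod 2) (l : List (E × Bool)) : Prop :=
  Γ.Cw univ (supp C).card l ∧ ∀ e, C e ≠ 0 ↔ ∃ d ∈ l, d.1 = e

open Classical in
/-- the good cycles -/
noncomputable def gd (A : Finset V) (d L : ℕ) : Finset (E → ZMod 2) :=
  univ.filter (fun C => Γ.Good A d L C)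

/-- number of good cycles of length `k` -/
noncomputable def gN (A : Finset V) (d L k : ℕ) : ℕ :=
  ((Γ.gd A d L).filter (fun C => (supp C).card = k)).card

/-- total weight of the good cycles -/
noncomputable def gS (A : Finset V) (d L : ℕ) : ℝ :=
  ∑ C ∈ Γ.gd A d L, (1 / 2 : ℝ) ^ (supp C).card

end Cub

/-- the hypotheses of Part A: `A` is a minimal set with `|∂A|² ≤ |A|`, without cycles of length
`≤ ℓ`; `L = 2^(18K) k₀` and `k₀ ≥ log₂ (8 |A|)`, `d ≥ 2 log₂ L + 6`, `ℓ ≥ 24 d + 20`. -/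
structure HypA (Γ : Cub V E) (A : Finset V) (ℓ d L K k₀ : ℕ) : Prop where
  hΓ : Γ.Conn univ
  ne : A.Nonempty
  bd : (Γ.bd A).card ^ 2 ≤ A.card
  min : ∀ S ⊆ A, S.Nonempty → S ≠ A → S.card < (Γ.bd S).card ^ 2
  free : Γ.Free ℓ A
  hK : 2 ≤ K
  hk₀ : 8 * A.card ≤ 2 ^ k₀
  hL : L = 2 ^ (18 * K) * k₀
  hd : 64 * L ^ 2 ≤ 2 ^ d
  hℓ : 24 * d + 20 ≤ ℓ

end Pool.Agent.Lib.MP_af4270_co
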