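import Pool.Agent.Lib.MP_af4270_co.AProb
import Pool.Agent.Lib.MP_af4270_co.AAdj

/-!
# PAN-A12: Part A, conclusion

For `R ∈ Z` let `X(R) = #{C good : supp C ⊆ supp R}`, `z = cn univ True`, `S = gS ≥ K ≥ 2`.
`∑_R X(R) = ∑_C cn(C ⊆ R) = z S` (`prob_one`). `∑_R X(R)² = ∑_C ∑_{C'} cn(C, C' ⊆ R)`:
`C = C'`: `z S`; `C ≠ C'` meeting: `0` (`prob_meet`); disjoint: `z 2^e 2^{-|C|-|C'|}` (`prob_two`), total
`≤ z (S² + ∑_C 2^{-|C|} * 1)` (`adj_sum` for `e ≥ 1`; for `e = 0` the factor is 1) `= z (S² + S)`.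
So `∑_R (X(R) - S)² ≤ z (S² + 2 S) - z S² = 2 z S`.
A single `R` has `X(R) ≤ 1` (a good `C` with `supp C ⊆ supp R` is equal to `R`), so `(X(R) - S)² ≥ (S - 1)²`:
`cn(Single) (S - 1)² ≤ 2 z S`. As `S ≥ K ≥ 2`: `S - 1 ≥ S / 2`, so `cn(Single) ≤ 8 z / S ≤ 8 z / K`.
-/

set_option autoImplicit false
set_option linter.unusedSectionVars false

namespace Pool.Agent.Lib.MP_af4270_co

open Finset

variable {V E : Type} [Fintype V] [DecidableEq V] [Fintype E] [DecidableEq E]

open Classical in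
private theorem afin_cn (Γ : Cub V E) (φ : (E → ZMod 2) → Prop) :
    (Γ.cn univ φ : ℝ) = ∑ R ∈ univ.filter (fun R : E → ZMod 2 => R ∈ Γ.Z),
      (if φ R then (1 : ℝ) else 0) := by
  rw [← Finset.sum_filter, Finset.sum_const, nsmul_eq_mul, mul_one, Finset.filter_filter]
  unfold Cub.cn
  congr 2
  ext R
  simp only [Finset.mem_filter, Finset.mem_univ, true_and, Cub.mem_ZB_univ]

/-- Part A: a region of high girth with small boundary makes cycles rare -/
theorem partA {Γ : Cub V E} {A : Finset V} {ℓ d L K k₀ : ℕ} (h : HypA Γ A ℓ d L K k₀) :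
    K * Γ.cn univ Γ.Single ≤ 8 * Γ.cn univ (fun _ => True) := by
  classical
  set z : ℝ := (Γ.cn univ (fun _ => True) : ℝ) with hz
  set S : ℝ := Γ.gS A d L with hS
  have hz0 : 0 ≤ z := by rw [hz]; positivity
  have hKS : (K : ℝ) ≤ S := h.gS_ge
  have hK2 : (2 : ℝ) ≤ K := by exact_mod_cast h.hK
  have hS2 : 2 ≤ S := hK2.trans hKS
  set Zs := univ.filter (fun R : E → ZMod 2 => R ∈ Γ.Z) with hZs
  have hgood : ∀ C ∈ Γ.gd A d L, Γ.Good A d L C := by
    intro C hC
    rw [Cub.gd, Finset.mem_filter] at hC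
    exact hC.2
  have hzsum : z = ∑ _R ∈ Zs, (1 : ℝ) := by
    rw [hz, afin_cn]
    apply Finset.sum_congr rfl
    intro R _
    rw [if_pos trivial]
  let X : (E → ZMod 2) → ℝ := fun R => ∑ C ∈ Γ.gd A d L, (if supp C ⊆ supp R then (1 : ℝ) else 0)
  have h1 : ∀ C ∈ Γ.gd A d L, (Γ.cn univ (fun R => supp C ⊆ supp R) : ℝ) =
      z * (1 / 2) ^ (supp C).card := by
    intro C hC
    have h2 := h.prob_one (hgood C hC)
    have h3 : (Γ.cn univ (fun R => supp C ⊆ supp R) : ℝ) * 2 ^ (supp C).card = z := by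
      rw [hz]; exact_mod_cast h2
    rw [← h3, mul_assoc, ← mul_pow]
    norm_num
  have hX1 : ∑ R ∈ Zs, X R = z * S := by
    simp only [X]
    rw [Finset.sum_comm]
    calc ∑ C ∈ Γ.gd A d L, ∑ R ∈ Zs, (if supp C ⊆ supp R then (1 : ℝ) else 0)
        = ∑ C ∈ Γ.gd A d L, z * (1 / 2) ^ (supp C).card := by
          apply Finset.sum_congr rfl
          intro C hC
          rw [← h1 C hC, afin_cn]
          refine Finset.sum_congr rfl fun R _ => ?_
          congr
      _ = z * S := by rw [hS, Cub.gS, Finset.mul_sum]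
  have hpair : ∀ C ∈ Γ.gd A d L, ∀ C' ∈ Γ.gd A d L,
      (Γ.cn univ (fun R => supp C ⊆ supp R ∧ supp C' ⊆ supp R) : ℝ) ≤
        z * (1 / 2) ^ (supp C).card * ((if C' = C then 1 else 0) + (1 / 2) ^ (supp C').card +
          (if Disjoint (Γ.vs C) (Γ.vs C') ∧ (Γ.bt (Γ.vs C) (Γ.vs C')).Nonempty then
            (2 : ℝ) ^ (Γ.bt (Γ.vs C) (Γ.vs C')).card * (1 / 2 : ℝ) ^ (supp C').card else 0)) := by
    intro C hC C' hC'
    have hnn : 0 ≤ z * (1 / 2 : ℝ) ^ (supp C).card := by positivity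
    have hb : (0 : ℝ) ≤ (if Disjoint (Γ.vs C) (Γ.vs C') ∧ (Γ.bt (Γ.vs C) (Γ.vs C')).Nonempty then
            (2 : ℝ) ^ (Γ.bt (Γ.vs C) (Γ.vs C')).card * (1 / 2 : ℝ) ^ (supp C').card else 0) := by
      split_ifs
      · positivity
      · exact le_rfl
    by_cases he : C' = C
    · subst he
      have e1 : (fun R : E → ZMod 2 => supp C' ⊆ supp R ∧ supp C' ⊆ supp R) =
          fun R => supp C' ⊆ supp R := by
        funext R; simp
      rw [e1, h1 C' hC', if_pos rfl]
      have h5 : (0 : ℝ) ≤ (1 / 2) ^ (supp C').card := by positivity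
      nlinarith
    · rw [if_neg he, zero_add]
      by_cases hd : Disjoint (Γ.vs C) (Γ.vs C')
      · have h2 := h.prob_two (hgood C hC) (hgood C' hC') hd
        have h3 : (Γ.cn univ (fun R => supp C ⊆ supp R ∧ supp C' ⊆ supp R) : ℝ) *
            2 ^ ((supp C).card + (supp C').card) =
            z * 2 ^ (Γ.bt (Γ.vs C) (Γ.vs C')).card := by
          rw [hz]; exact_mod_cast h2
        have h4 : (Γ.cn univ (fun R => supp C ⊆ supp R ∧ supp C' ⊆ supp R) : ℝ) =
            z * (1 / 2) ^ (supp C).card *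
              (2 ^ (Γ.bt (Γ.vs C) (Γ.vs C')).card * (1 / 2) ^ (supp C').card) := by
          have e1 : (Γ.cn univ (fun R => supp C ⊆ supp R ∧ supp C' ⊆ supp R) : ℝ) =
              ((Γ.cn univ (fun R => supp C ⊆ supp R ∧ supp C' ⊆ supp R) : ℝ) *
              2 ^ ((supp C).card + (supp C').card)) *
                (1 / 2) ^ ((supp C).card + (supp C').card) := by
            rw [mul_assoc, ← mul_pow]
            norm_num
          rw [e1, h3, pow_add]
          ring
        rw [h4]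
        apply mul_le_mul_of_nonneg_left _ hnn
        by_cases hbt : (Γ.bt (Γ.vs C) (Γ.vs C')).Nonempty
        · rw [if_pos ⟨hd, hbt⟩]
          have : (0 : ℝ) ≤ (1 / 2) ^ (supp C').card := by positivity
          linarith
        · rw [Finset.not_nonempty_iff_eq_empty] at hbt
          rw [hbt]
          simp
      · rw [Γ.prob_meet (hgood C hC).1 (hgood C' hC').1 (fun h => he h.symm) hd]
        rw [Nat.cast_zero]
        apply mul_nonneg hnn
        apply add_nonneg _ hb
        positivity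
  have hX2 : ∑ R ∈ Zs, X R ^ 2 ≤ z * S * (S + 2) := by
    have e1 : ∑ R ∈ Zs, X R ^ 2 = ∑ C ∈ Γ.gd A d L, ∑ C' ∈ Γ.gd A d L,
        (Γ.cn univ (fun R => supp C ⊆ supp R ∧ supp C' ⊆ supp R) : ℝ) := by
      have e2 : ∀ R ∈ Zs, X R ^ 2 = ∑ C ∈ Γ.gd A d L, ∑ C' ∈ Γ.gd A d L,
          (if supp C ⊆ supp R ∧ supp C' ⊆ supp R then (1 : ℝ) else 0) := by
        intro R _
        simp only [X]
        rw [sq, Finset.sum_mul_sum]
        apply Finset.sum_congr rfl
        intro C _
        apply Finset.sum_congr rfl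
        intro C' _
        by_cases a : supp C ⊆ supp R <;> by_cases b : supp C' ⊆ supp R <;> simp [a, b]
      rw [Finset.sum_congr rfl e2, Finset.sum_comm]
      apply Finset.sum_congr rfl
      intro C _
      rw [Finset.sum_comm]
      apply Finset.sum_congr rfl
      intro C' _
      rw [afin_cn]
      refine Finset.sum_congr rfl fun R _ => ?_
      congr
    rw [e1]
    calc _ ≤ ∑ C ∈ Γ.gd A d L, z * (1 / 2) ^ (supp C).card * (1 + S + 1) := by
          apply Finset.sum_le_sum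
          intro C hC
          refine (Finset.sum_le_sum (hpair C hC)).trans ?_
          rw [← Finset.mul_sum]
          apply mul_le_mul_of_nonneg_left _ (by positivity)
          rw [Finset.sum_add_distrib, Finset.sum_add_distrib]
          have t1 : ∑ C' ∈ Γ.gd A d L, (if C' = C then (1 : ℝ) else 0) ≤ 1 := by
            rw [Finset.sum_ite_eq']
            split_ifs <;> norm_num
          have t2 : ∑ C' ∈ Γ.gd A d L, (1 / 2 : ℝ) ^ (supp C').card = S := rfl
          have t3 : ∑ C' ∈ Γ.gd A d L, (if Disjoint (Γ.vs C) (Γ.vs C') ∧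
              (Γ.bt (Γ.vs C) (Γ.vs C')).Nonempty then
              (2 : ℝ) ^ (Γ.bt (Γ.vs C) (Γ.vs C')).card * (1 / 2 : ℝ) ^ (supp C').card else 0)
              ≤ 1 := by
            rw [← Finset.sum_filter]
            refine le_trans (le_of_eq ?_) (h.adj_sum (hgood C hC))
            congr!
          linarith
      _ = z * S * (S + 2) := by
          rw [← Finset.sum_mul, ← Finset.mul_sum]
          have t2 : ∑ C ∈ Γ.gd A d L, (1 / 2 : ℝ) ^ (supp C).card = S := rfl
          rw [t2]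
          ring
  have hvar : ∑ R ∈ Zs, (X R - S) ^ 2 ≤ 2 * z * S := by
    have e1 : ∑ R ∈ Zs, (X R - S) ^ 2 = (∑ R ∈ Zs, X R ^ 2) - 2 * S * (∑ R ∈ Zs, X R) +
        S ^ 2 * ∑ _R ∈ Zs, (1 : ℝ) := by
      rw [Finset.mul_sum, Finset.mul_sum, ← Finset.sum_sub_distrib, ← Finset.sum_add_distrib]
      apply Finset.sum_congr rfl
      intro R _
      ring
    rw [e1, hX1, ← hzsum]
    nlinarith
  have hsingle : (Γ.cn univ Γ.Single : ℝ) * (S - 1) ^ 2 ≤ ∑ R ∈ Zs, (X R - S) ^ 2 := by
    rw [afin_cn, Finset.sum_mul]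
    apply Finset.sum_le_sum
    intro R _
    by_cases hR : Γ.Single R
    · rw [if_pos hR, one_mul]
      have hX : X R ≤ 1 := by
        simp only [X]
        calc ∑ C ∈ Γ.gd A d L, (if supp C ⊆ supp R then (1 : ℝ) else 0)
            ≤ ∑ C ∈ Γ.gd A d L, (if C = R then (1 : ℝ) else 0) := by
              apply Finset.sum_le_sum
              intro C hC
              by_cases hsub : supp C ⊆ supp R
              · have := hR.2.2 C (hgood C hC).1.1 (hgood C hC).1.2.1 hsub
                rw [if_pos hsub, if_pos this]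
              · rw [if_neg hsub]
                split_ifs <;> norm_num
          _ ≤ 1 := by
              rw [Finset.sum_ite_eq']
              split_ifs <;> norm_num
      nlinarith
    · rw [if_neg hR, zero_mul]
      positivity
  have hfin : (Γ.cn univ Γ.Single : ℝ) * S ≤ 8 * z := by
    have h2 : (Γ.cn univ Γ.Single : ℝ) * (S - 1) ^ 2 ≤ 2 * z * S := hsingle.trans hvar
    have h3 : S ^ 2 / 4 ≤ (S - 1) ^ 2 := by nlinarith
    have h4 : (0 : ℝ) ≤ Γ.cn univ Γ.Single := by positivity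
    have h5 : (Γ.cn univ Γ.Single : ℝ) * (S ^ 2 / 4) ≤ 2 * z * S :=
      (mul_le_mul_of_nonneg_left h3 h4).trans h2
    have h6 : S * ((Γ.cn univ Γ.Single : ℝ) * S) ≤ S * (8 * z) := by nlinarith
    exact le_of_mul_le_mul_left h6 (by linarith)
  have hres : ((K * Γ.cn univ Γ.Single : ℕ) : ℝ) ≤ ((8 * Γ.cn univ (fun _ => True) : ℕ) : ℝ) := by
    push_cast
    have h4 : (0 : ℝ) ≤ Γ.cn univ Γ.Single := by positivity
    calc (K : ℝ) * Γ.cn univ Γ.Single ≤ S * Γ.cn univ Γ.Single := by gcongr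
      _ = Γ.cn univ Γ.Single * S := mul_comm _ _
      _ ≤ 8 * z := hfin
      _ = 8 * (Γ.cn univ (fun _ => True) : ℝ) := by rw [hz]
  exact_mod_cast hres

end Pool.Agent.Lib.MP_af4270_co
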