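import Mathlib

/-!
# PAN-A0: entries of matrix powers as sums over walks

Proof. Induction on `k` with `pow_succ'` (`M ^ (k+1) = M * M ^ k`) or `pow_succ`, `Matrix.mul_apply`,
and the bijection `(z, w) ↦ Fin.cons x w` (or `Fin.snoc`), `Fin.consEquiv` / `Fin.snocEquiv`,
`Fin.prod_univ_succ` / `Fin.prod_univ_castSucc`.
-/

set_option autoImplicit false

namespace Pool.Agent.Lib.MP_af4270_co

open Finset

theorem pow_apply_eq_sum {D R : Type} [Fintype D] [DecidableEq D] [CommSemiring R]
    (M : Matrix D D R) (k : ℕ) (x y : D) :
    (M ^ k) x y = ∑ w ∈ univ.filter (fun w : Fin (k + 1) → D => w 0 = x ∧ w (Fin.last k) = y),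
      ∏ i : Fin k, M (w i.castSucc) (w i.succ) := by
  induction k generalizing x with
  | zero =>
    rw [pow_zero, Matrix.one_apply]
    split_ifs with h
    · subst h
      have h1 : (univ.filter (fun w : Fin (0 + 1) → D => w 0 = x ∧ w (Fin.last 0) = x))
          = {fun _ => x} := by
        ext w
        simp only [mem_filter, mem_univ, true_and, mem_singleton]
        constructor
        · rintro ⟨h, -⟩
          funext i
          rw [← h]
          congr 1
          exact Fin.ext (by omega)
        · rintro rfl
          exact ⟨rfl, rfl⟩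
      rw [h1, Finset.sum_singleton]
      simp
    · rw [Finset.sum_eq_zero]
      intro w hw
      simp only [mem_filter, mem_univ, true_and] at hw
      exact absurd (hw.1.symm.trans hw.2) h
  | succ k ih =>
    rw [pow_succ', Matrix.mul_apply, Finset.sum_filter,
      ← (Fin.consEquiv (fun _ : Fin (k + 2) => D)).sum_comp, Fintype.sum_prod_type]
    have h1 : ∀ a : D, a ≠ x → (∑ v : (Fin (k + 1) → D),
        if (Fin.consEquiv (fun _ : Fin (k + 2) => D)) (a, v) 0 = x ∧
          (Fin.consEquiv (fun _ : Fin (k + 2) => D)) (a, v) (Fin.last (k + 1)) = y then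
          ∏ i : Fin (k + 1), M ((Fin.consEquiv (fun _ : Fin (k + 2) => D)) (a, v) i.castSucc)
            ((Fin.consEquiv (fun _ : Fin (k + 2) => D)) (a, v) i.succ) else 0) = 0 := by
      intro a ha
      apply Finset.sum_eq_zero
      intro v _
      rw [if_neg]
      rintro ⟨h, -⟩
      exact ha h
    rw [Finset.sum_eq_single x (fun a _ ha => h1 a ha) (by simp)]
    have h2 : ∀ v : (Fin (k + 1) → D),
        (if (Fin.consEquiv (fun _ : Fin (k + 2) => D)) (x, v) 0 = x ∧
          (Fin.consEquiv (fun _ : Fin (k + 2) => D)) (x, v) (Fin.last (k + 1)) = y then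
          ∏ i : Fin (k + 1), M ((Fin.consEquiv (fun _ : Fin (k + 2) => D)) (x, v) i.castSucc)
            ((Fin.consEquiv (fun _ : Fin (k + 2) => D)) (x, v) i.succ) else 0)
        = if v (Fin.last k) = y then M x (v 0) *
            ∏ i : Fin k, M (v i.castSucc) (v i.succ) else 0 := by
      intro v
      have e1 : (Fin.consEquiv (fun _ : Fin (k + 2) => D)) (x, v) 0 = x := rfl
      have e2 : (Fin.consEquiv (fun _ : Fin (k + 2) => D)) (x, v) (Fin.last (k + 1))
          = v (Fin.last k) := rfl
      rw [e1, e2]
      simp only [true_and]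
      congr 1
      rw [Fin.prod_univ_succ]
      rfl
    rw [Finset.sum_congr rfl (fun v _ => h2 v)]
    have h3 : ∀ z : D, M x z * (M ^ k) z y = ∑ v : (Fin (k + 1) → D),
        if v 0 = z then (if v (Fin.last k) = y then M x (v 0) *
            ∏ i : Fin k, M (v i.castSucc) (v i.succ) else 0) else 0 := by
      intro z
      rw [ih, Finset.mul_sum, Finset.sum_filter]
      apply Finset.sum_congr rfl
      intro v _
      by_cases hz : v 0 = z
      · by_cases hy : v (Fin.last k) = y
        · rw [if_pos ⟨hz, hy⟩, if_pos hz, if_pos hy, hz]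
        · rw [if_neg (fun h => hy h.2), if_pos hz, if_neg hy]
      · rw [if_neg (fun h => hz h.1), if_neg hz]
    rw [Finset.sum_congr rfl (fun z _ => h3 z), Finset.sum_comm]
    apply Finset.sum_congr rfl
    intro v _
    rw [Finset.sum_ite_eq]
    simp

/-- version with lists: the number of lists `l` of length `k + 1` with `l.head = x`,
`l.getLast = y` all of whose steps have `M = 1` (`M` a 0-1 matrix given by a decidable relation)
is `(M ^ k) x y`; in the form of an upper bound and a lower bound. -/
theorem pow_apply_eq_card {D : Type} [Fintype D] [DecidableEq D] (r : D → D → Prop)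
    [DecidableRel r] (k : ℕ) (x y : D) :
    ((Matrix.of fun a b => if r a b then (1 : ℕ) else 0) ^ k) x y
      = Nat.card {l : List D // l.length = k + 1 ∧ l.IsChain r ∧ l.head? = some x ∧
          l.getLast? = some y} := by
  classical
  have h1 : Nat.card {w : Fin (k + 1) → D // (∀ i : Fin k, r (w i.castSucc) (w i.succ)) ∧
      w 0 = x ∧ w (Fin.last k) = y} = Nat.card {l : List D // l.length = k + 1 ∧ l.IsChain r ∧
        l.head? = some x ∧ l.getLast? = some y} := by
    have key : ∀ w : Fin (k + 1) → D, ((List.ofFn w).IsChain r ∧ (List.ofFn w).head? = some x ∧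
        (List.ofFn w).getLast? = some y) ↔ ((∀ i : Fin k, r (w i.castSucc) (w i.succ)) ∧
        w 0 = x ∧ w (Fin.last k) = y) := by
      intro w
      have e1 : (List.ofFn w).head? = some (w 0) := by
        rw [List.ofFn_succ]; rfl
      have e2 : (List.ofFn w).getLast? = some (w (Fin.last k)) := by
        rw [List.ofFn_succ', List.concat_eq_append, List.getLast?_append]
        simp
      have e3 : (List.ofFn w).IsChain r ↔ ∀ i : Fin k, r (w i.castSucc) (w i.succ) := by
        rw [List.isChain_iff_getElem]
        constructor
        · intro h i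
          have := h i.1 (by simp)
          simp only [List.getElem_ofFn] at this
          exact this
        · intro h i hi
          have hi' : i < k := by simpa using hi
          have := h ⟨i, hi'⟩
          simp only [List.getElem_ofFn]
          exact this
      rw [e1, e2, e3]
      simp
    apply Nat.card_congr
    refine Equiv.ofBijective (fun w => ⟨List.ofFn w.1, by simp, (key w.1).2 w.2⟩) ⟨?_, ?_⟩
    · rintro ⟨w, hw⟩ ⟨w', hw'⟩ h
      apply Subtype.ext
      exact List.ofFn_injective (congrArg Subtype.val h)
    · rintro ⟨l, hl, hl'⟩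
      have e : List.ofFn (fun i : Fin (k + 1) => l.get (i.cast hl.symm)) = l := by
        apply List.ext_getElem
        · simp [hl]
        · intro n h1 h2
          rw [List.getElem_ofFn]
          rfl
      refine ⟨⟨fun i => l.get (i.cast hl.symm), ?_⟩, ?_⟩
      · refine (key (fun i : Fin (k + 1) => l.get (i.cast hl.symm))).1 ?_
        rw [e]
        exact hl'
      · apply Subtype.ext
        exact e
  rw [← h1, pow_apply_eq_sum]
  rw [Nat.card_eq_fintype_card, Fintype.card_subtype, Finset.card_eq_sum_ones,
    Finset.sum_filter, Finset.sum_filter]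
  apply Finset.sum_congr rfl
  intro w _
  simp only [Matrix.of_apply]
  rw [Finset.prod_ite_zero]
  simp only [Finset.mem_univ, forall_true_left, Finset.prod_const_one]
  by_cases hA : w 0 = x ∧ w (Fin.last k) = y
  · by_cases hB : ∀ i : Fin k, r (w i.castSucc) (w i.succ)
    · rw [if_pos hA, if_pos hB, if_pos ⟨hB, hA⟩]
    · rw [if_pos hA, if_neg hB, if_neg (fun h => hB h.1)]
  · rw [if_neg hA, if_neg (fun h => hA h.2)]

end Pool.Agent.Lib.MP_af4270_co
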