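import Pool.Agent.Lib.MP_af4270_co.ADarts
import Pool.Agent.Lib.MP_af4270_co.MatPow

/-!
# PAN-A7: pairs of walks with the same ends

Let `N = NB B`. `∑ x y, ((N ^ k) x y)²` is the number of pairs `(w, w')` of functions
`Fin (k+1) → darts` (or lists) which are non-backtracking walks in `B` (`k ≥ 1`) with the same first
dart and the same last dart. The pairs with `w = w'` contribute `∑ x y, (N ^ k) x y`.
If `w ≠ w'` let `i` be the first and `j` the last index with `w i ≠ w' i`; `1 ≤ i ≤ j ≤ k - 1`. Put
`m = j - i + 1 ≤ k - 1`. The list `w i, ..., w j, rv (w' j), ..., rv (w' i)` is a closed (cyclic)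
non-backtracking list of `2 m` darts in `B` : `st (w j) (rv (w' j))` holds because `w j ≠ w' j` have
the same head (`st (w j) (w (j+1))`, `st (w' j) (w (j+1))`), similarly `st (rv (w' i)) (w i)`. There
are `trace (N ^ (2 m))` such closed lists. Given `i, m` and the closed list, `w (i-1) = w' (i-1)` is
determined (`pred_unique`) and `w (i-2), ..., w 0` are at most `2 ^ (i-1)` possibilities
(`card_pred`), `w (j+1)` is determined (`succ_unique`) and there are at most `2 ^ (k-1-j)`
possibilities for the rest. For given `m` there are `k - m` values `i` (`1 ≤ i`, `i + m - 1 ≤ k - 1`),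
each giving at most `2 ^ (i - 1 + k - 1 - j) = 2 ^ (k - 1 - m)` pairs per closed list.
-/

set_option autoImplicit false
set_option linter.unusedSectionVars false

namespace Pool.Agent.Lib.MP_af4270_co

open Finset

variable {V E : Type} [Fintype V] [DecidableEq V] [Fintype E] [DecidableEq E]

namespace Cub

variable (Γ : Cub V E)

/-- one step inside `B` -/
private def aprR (B : Finset V) (a b : E × Bool) : Prop := Γ.st a b ∧ Γ.dIn B a ∧ Γ.dIn B b

/-- the value of a finite sequence at a natural number -/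
private def aprA {D : Type} {n : ℕ} (w : Fin (n + 1) → D) (t : ℕ) : D :=
  w ⟨min t n, by omega⟩

private theorem aprA_eq {D : Type} {n : ℕ} (w : Fin (n + 1) → D) {t : ℕ} (h : t < n + 1) :
    aprA w t = w ⟨t, h⟩ := by
  unfold aprA
  congr 1
  apply Fin.ext
  simp only
  omega

private theorem aprA_ofNat {D : Type} {n : ℕ} (f : ℕ → D) {t : ℕ} (h : t ≤ n) :
    aprA (fun t : Fin (n + 1) => f t) t = f t := by
  unfold aprA
  simp only
  congr 1
  omega

private theorem aprA_ext {D : Type} {n : ℕ} {w w' : Fin (n + 1) → D}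
    (h : ∀ t ≤ n, aprA w t = aprA w' t) : w = w' := by
  funext t
  have h1 := h t (by have := t.2; omega)
  rw [aprA_eq w t.2, aprA_eq w' t.2] at h1
  exact h1

open Classical in
/-- walks with `n` steps inside `B` -/
private noncomputable def aprW (B : Finset V) (n : ℕ) : Finset (Fin (n + 1) → E × Bool) :=
  univ.filter (fun w => ∀ t < n, Γ.aprR B (aprA w t) (aprA w (t + 1)))

private theorem mem_aprW {B : Finset V} {n : ℕ} {w : Fin (n + 1) → E × Bool} :
    w ∈ Γ.aprW B n ↔ ∀ t < n, Γ.aprR B (aprA w t) (aprA w (t + 1)) := by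
  simp [aprW]

open Classical in
private theorem apr_pow (B : Finset V) (n : ℕ) (x y : E × Bool) :
    (Γ.NB B ^ n) x y = ((Γ.aprW B n).filter (fun w => aprA w 0 = x ∧ aprA w n = y)).card := by
  rw [pow_apply_eq_sum]
  have h1 : ∀ w : Fin (n + 1) → E × Bool, ∏ i : Fin n, Γ.NB B (w i.castSucc) (w i.succ) =
      if w ∈ Γ.aprW B n then 1 else 0 := by
    intro w
    split_ifs with h
    · apply Finset.prod_eq_one
      intro i _
      rw [mem_aprW] at h
      have h2 := h i i.2
      rw [aprA_eq w (by have := i.2; omega), aprA_eq w (by have := i.2; omega)] at h2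
      unfold NB
      rw [if_pos]
      exact h2
    · rw [Finset.prod_eq_zero_iff]
      rw [mem_aprW] at h
      push Not at h
      obtain ⟨t, ht, h2⟩ := h
      refine ⟨⟨t, ht⟩, mem_univ _, ?_⟩
      rw [aprA_eq w (by omega), aprA_eq w (by omega)] at h2
      unfold NB
      rw [if_neg]
      exact h2
  rw [Finset.sum_congr rfl (fun w _ => h1 w), Finset.sum_ite, Finset.sum_const_zero, add_zero,
    Finset.sum_const, smul_eq_mul, mul_one]
  congr 1
  ext w
  simp only [Finset.mem_filter, Finset.mem_univ, true_and]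
  have e0 : aprA w 0 = w 0 := aprA_eq w (by omega)
  have e1 : aprA w n = w (Fin.last n) := aprA_eq w (by omega)
  rw [e0, e1]
  tauto

open Classical in
private theorem apr_col (B : Finset V) (n : ℕ) (y : E × Bool) :
    ((Γ.aprW B n).filter (fun w => aprA w n = y)).card ≤ 2 ^ n := by
  refine le_trans (le_of_eq ?_) (Γ.NB_pow_col B n y)
  simp only [apr_pow]
  rw [Finset.card_eq_sum_card_fiberwise (f := fun w : Fin (n + 1) → E × Bool => aprA w 0)
    (t := (univ : Finset (E × Bool))) (fun _ _ => mem_univ _)]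
  apply Finset.sum_congr rfl
  intro x _
  congr 1
  ext w
  simp only [Finset.mem_filter]
  tauto

open Classical in
private theorem apr_row (B : Finset V) (n : ℕ) (x : E × Bool) :
    ((Γ.aprW B n).filter (fun w => aprA w 0 = x)).card ≤ 2 ^ n := by
  refine le_trans (le_of_eq ?_) (Γ.NB_pow_row B n x)
  simp only [apr_pow]
  rw [Finset.card_eq_sum_card_fiberwise (f := fun w : Fin (n + 1) → E × Bool => aprA w n)
    (t := (univ : Finset (E × Bool))) (fun _ _ => mem_univ _)]
  apply Finset.sum_congr rfl
  intro x _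
  congr 1
  ext w
  simp only [Finset.mem_filter]
  tauto

open Classical in
private theorem apr_trace (B : Finset V) (n : ℕ) :
    (Γ.NB B ^ n).trace = ((Γ.aprW B n).filter (fun w => aprA w 0 = aprA w n)).card := by
  unfold Matrix.trace
  simp only [Matrix.diag_apply, apr_pow]
  rw [Finset.card_eq_sum_card_fiberwise (f := fun w : Fin (n + 1) → E × Bool => aprA w 0)
    (t := (univ : Finset (E × Bool))) (fun _ _ => mem_univ _)]
  apply Finset.sum_congr rfl
  intro x _
  congr 1
  ext w
  simp only [Finset.mem_filter]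
  constructor
  · rintro ⟨h1, h2, h3⟩
    exact ⟨⟨h1, by rw [h2, h3]⟩, h2⟩
  · rintro ⟨⟨h1, h2⟩, h3⟩
    exact ⟨h1, h3, by rw [← h2, h3]⟩

private theorem apr_sum (B : Finset V) (n : ℕ) :
    ∑ x, ∑ y, (Γ.NB B ^ n) x y = (Γ.aprW B n).card := by
  classical
  simp only [apr_pow]
  rw [Finset.card_eq_sum_card_fiberwise (f := fun w : Fin (n + 1) → E × Bool => aprA w 0)
    (t := (univ : Finset (E × Bool))) (fun _ _ => mem_univ _)]
  apply Finset.sum_congr rfl
  intro x _
  rw [Finset.card_eq_sum_card_fiberwise (f := fun w : Fin (n + 1) → E × Bool => aprA w n)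
    (t := (univ : Finset (E × Bool))) (fun _ _ => mem_univ _)]
  apply Finset.sum_congr rfl
  intro y _
  congr 1
  ext w
  simp only [Finset.mem_filter]
  tauto

open Classical in
/-- pairs with the same ends -/
private theorem apr_sq (B : Finset V) (n : ℕ) :
    ∑ x, ∑ y, ((Γ.NB B ^ n) x y) ^ 2 = ((Γ.aprW B n ×ˢ Γ.aprW B n).filter (fun q =>
      aprA q.1 0 = aprA q.2 0 ∧ aprA q.1 n = aprA q.2 n)).card := by
  simp only [apr_pow]
  rw [Finset.card_eq_sum_card_fiberwise (f := fun q : (Fin (n + 1) → E × Bool) ×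
    (Fin (n + 1) → E × Bool) => aprA q.1 0)
    (t := (univ : Finset (E × Bool))) (fun _ _ => mem_univ _)]
  apply Finset.sum_congr rfl
  intro x _
  rw [Finset.card_eq_sum_card_fiberwise (f := fun q : (Fin (n + 1) → E × Bool) ×
    (Fin (n + 1) → E × Bool) => aprA q.1 n)
    (t := (univ : Finset (E × Bool))) (fun _ _ => mem_univ _)]
  apply Finset.sum_congr rfl
  intro y _
  rw [sq, ← Finset.card_product]
  congr 1
  ext q
  simp only [Finset.mem_filter, Finset.mem_product]
  constructor
  · rintro ⟨⟨h1, h2, h3⟩, h4, h5, h6⟩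
    exact ⟨⟨⟨⟨h1, h4⟩, by rw [h2, h5], by rw [h3, h6]⟩, h2⟩, h3⟩
  · rintro ⟨⟨⟨⟨h1, h4⟩, h7, h8⟩, h2⟩, h3⟩
    exact ⟨⟨h1, h2, h3⟩, h4, by rw [← h7, h2], by rw [← h8, h3]⟩

open Classical in
/-- pairs which differ first at `i + 1` and last at `i + m` -/
private noncomputable def aprG (B : Finset V) (k i m : ℕ) :
    Finset ((Fin (k + 1) → E × Bool) × (Fin (k + 1) → E × Bool)) :=
  (Γ.aprW B k ×ˢ Γ.aprW B k).filter (fun q =>
    (∀ t ≤ k, (t ≤ i ∨ i + m < t) → aprA q.1 t = aprA q.2 t) ∧
      aprA q.1 (i + 1) ≠ aprA q.2 (i + 1) ∧ aprA q.1 (i + m) ≠ aprA q.2 (i + m))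

private theorem apr_card_G (B : Finset V) {k i m s : ℕ} (hk : k = i + m + s + 1) (hm : 1 ≤ m) :
    (Γ.aprG B k i m).card ≤ 2 ^ i * 2 ^ s * (Γ.NB B ^ (2 * m)).trace := by
  classical
  rw [apr_trace]
  -- the closed walk
  let cf : (Fin (k + 1) → E × Bool) × (Fin (k + 1) → E × Bool) → ℕ → E × Bool := fun q t =>
    if t < m then aprA q.1 (i + 1 + t) else if t < 2 * m then
      rv (aprA q.2 (i + 1 + (2 * m - 1 - t))) else aprA q.1 (i + 1)
  have hcf1 : ∀ q t, t < m → cf q t = aprA q.1 (i + 1 + t) := by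
    intro q t h
    simp only [cf]; rw [if_pos h]
  have hcf2 : ∀ q t, m ≤ t → t < 2 * m → cf q t = rv (aprA q.2 (i + 1 + (2 * m - 1 - t))) := by
    intro q t h h'
    simp only [cf]; rw [if_neg (by omega), if_pos h']
  have hcf3 : ∀ q, cf q (2 * m) = aprA q.1 (i + 1) := by
    intro q
    simp only [cf]; rw [if_neg (by omega), if_neg (by omega)]
  have hmaps : ∀ q ∈ Γ.aprG B k i m, (fun t : Fin (2 * m + 1) => cf q t) ∈
      (Γ.aprW B (2 * m)).filter (fun w => aprA w 0 = aprA w (2 * m)) := by
    intro q hq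
    unfold aprG at hq
    rw [Finset.mem_filter, Finset.mem_product, mem_aprW, mem_aprW] at hq
    obtain ⟨⟨hw, hw'⟩, hoff, hne1, hne2⟩ := hq
    rw [Finset.mem_filter, mem_aprW]
    constructor
    · intro t ht
      rw [aprA_ofNat _ (by omega), aprA_ofNat _ (by omega)]
      rcases Nat.lt_or_ge (t + 1) m with h1 | h1
      · rw [hcf1 q t (by omega), hcf1 q (t + 1) h1]
        exact hw (i + 1 + t) (by omega)
      · rcases Nat.lt_or_ge t m with h2 | h2
        · -- `t = m - 1`
          have h3 : t = m - 1 := by omega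
          rw [hcf1 q t h2, hcf2 q (t + 1) (by omega) (by omega)]
          have e1 : i + 1 + t = i + m := by omega
          have e2 : i + 1 + (2 * m - 1 - (t + 1)) = i + m := by omega
          rw [e1, e2]
          have h4 := hw (i + m) (by omega)
          have h5 := hw' (i + m) (by omega)
          have h6 := hoff (i + m + 1) (by omega) (Or.inr (by omega))
          refine ⟨?_, h4.2.1, (Γ.dIn_rv B _).2 h5.2.1⟩
          rw [st_iff, Γ.tl_rv]
          refine ⟨?_, ?_⟩
          · rw [((Γ.st_iff _ _).1 h4.1).1, ((Γ.st_iff _ _).1 h5.1).1, h6]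
          · intro h7
            apply hne2
            rw [← rv_rv (aprA q.1 (i + m)), ← h7, rv_rv]
        · rcases Nat.lt_or_ge (t + 1) (2 * m) with h3 | h3
          · rw [hcf2 q t h2 ht, hcf2 q (t + 1) (by omega) h3]
            obtain ⟨u, hu⟩ : ∃ u, 2 * m - 1 - t = u + 1 := ⟨2 * m - 1 - t - 1, by omega⟩
            have e2 : 2 * m - 1 - (t + 1) = u := by omega
            rw [hu, e2]
            have h4 := hw' (i + 1 + u) (by omega)
            exact ⟨Γ.st_rv.2 h4.1, (Γ.dIn_rv B _).2 h4.2.2, (Γ.dIn_rv B _).2 h4.2.1⟩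
          · have h4 : t + 1 = 2 * m := by omega
            rw [hcf2 q t h2 ht, h4, hcf3]
            have e2 : i + 1 + (2 * m - 1 - t) = i + 1 := by omega
            rw [e2]
            have h5 := hw i (by omega)
            have h6 := hw' i (by omega)
            have h7 := hoff i (by omega) (Or.inl le_rfl)
            refine ⟨?_, (Γ.dIn_rv B _).2 h6.2.2, h5.2.2⟩
            rw [st_iff, Γ.hd_rv]
            refine ⟨?_, ?_⟩
            · rw [← ((Γ.st_iff _ _).1 h5.1).1, ← ((Γ.st_iff _ _).1 h6.1).1, h7]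
            · rw [rv_rv]
              exact hne1
    · rw [aprA_ofNat _ (by omega), aprA_ofNat _ le_rfl, hcf3, hcf1 q 0 (by omega)]
  have hfib : ∀ c ∈ (Γ.aprW B (2 * m)).filter (fun w => aprA w 0 = aprA w (2 * m)),
      ((Γ.aprG B k i m).filter (fun q => (fun t : Fin (2 * m + 1) => cf q t) = c)).card ≤
        2 ^ i * 2 ^ s := by
    intro c _
    rcases ((Γ.aprG B k i m).filter
      (fun q => (fun t : Fin (2 * m + 1) => cf q t) = c)).eq_empty_or_nonempty with h0 | ⟨q₀, hq₀⟩
    · rw [h0, Finset.card_empty]; positivity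
    rw [Finset.mem_filter] at hq₀
    have hmem : ∀ q ∈ (Γ.aprG B k i m).filter (fun q => (fun t : Fin (2 * m + 1) => cf q t) = c),
        (∀ t < k, Γ.aprR B (aprA q.1 t) (aprA q.1 (t + 1))) ∧
        (∀ t < k, Γ.aprR B (aprA q.2 t) (aprA q.2 (t + 1))) ∧
        (∀ t ≤ k, (t ≤ i ∨ i + m < t) → aprA q.1 t = aprA q.2 t) ∧
        (∀ t < m, aprA q.1 (i + 1 + t) = aprA q₀.1 (i + 1 + t)) ∧
        (∀ t < m, aprA q.2 (i + 1 + t) = aprA q₀.2 (i + 1 + t)) ∧
        aprA q.1 i = aprA q₀.1 i ∧ aprA q.1 (i + m + 1) = aprA q₀.1 (i + m + 1) := by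
      intro q hq
      rw [Finset.mem_filter] at hq
      obtain ⟨hqG, hqc⟩ := hq
      obtain ⟨hqG₀, hqc₀⟩ := hq₀
      unfold aprG at hqG hqG₀
      rw [Finset.mem_filter, Finset.mem_product, mem_aprW, mem_aprW] at hqG hqG₀
      obtain ⟨⟨hw, hw'⟩, hoff, hne1, hne2⟩ := hqG
      obtain ⟨⟨hw₀, hw₀'⟩, hoff₀, hne1₀, hne2₀⟩ := hqG₀
      have hcc : ∀ t < 2 * m + 1, cf q t = cf q₀ t := by
        intro t ht
        have h1 := congrFun (hqc.trans hqc₀.symm) ⟨t, ht⟩
        exact h1
      have hmid1 : ∀ t < m, aprA q.1 (i + 1 + t) = aprA q₀.1 (i + 1 + t) := by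
        intro t ht
        have h1 := hcc t (by omega)
        rw [hcf1 q t ht, hcf1 q₀ t ht] at h1
        exact h1
      have hmid2 : ∀ t < m, aprA q.2 (i + 1 + t) = aprA q₀.2 (i + 1 + t) := by
        intro t ht
        have h1 := hcc (2 * m - 1 - t) (by omega)
        rw [hcf2 q _ (by omega) (by omega), hcf2 q₀ _ (by omega) (by omega)] at h1
        have e : 2 * m - 1 - (2 * m - 1 - t) = t := by omega
        rw [e] at h1
        have h2 := congrArg rv h1
        rw [rv_rv, rv_rv] at h2
        exact h2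
      have e1 := hmid1 0 (by omega)
      have e2 := hmid2 0 (by omega)
      have e3 := hmid1 (m - 1) (by omega)
      have e4 := hmid2 (m - 1) (by omega)
      rw [add_zero] at e1 e2
      have em : i + 1 + (m - 1) = i + m := by omega
      rw [em] at e3 e4
      refine ⟨hw, hw', hoff, hmid1, hmid2, ?_, ?_⟩
      · apply Γ.pred_unique (a := aprA q.1 (i + 1)) (b := aprA q.2 (i + 1)) hne1
        · exact (hw i (by omega)).1
        · rw [hoff i (by omega) (Or.inl le_rfl)]
          exact (hw' i (by omega)).1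
        · rw [e1]; exact (hw₀ i (by omega)).1
        · rw [e2, hoff₀ i (by omega) (Or.inl le_rfl)]
          exact (hw₀' i (by omega)).1
      · apply Γ.succ_unique (a := aprA q.1 (i + m)) (b := aprA q.2 (i + m)) hne2
        · exact (hw (i + m) (by omega)).1
        · rw [hoff (i + m + 1) (by omega) (Or.inr (by omega))]
          exact (hw' (i + m) (by omega)).1
        · rw [e3]; exact (hw₀ (i + m) (by omega)).1
        · rw [e4, hoff₀ (i + m + 1) (by omega) (Or.inr (by omega))]
          exact (hw₀' (i + m) (by omega)).1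
    have hcard := Finset.card_le_card_of_injOn
      (s := (Γ.aprG B k i m).filter (fun q => (fun t : Fin (2 * m + 1) => cf q t) = c))
      (t := ((Γ.aprW B i).filter (fun w => aprA w i = aprA q₀.1 i)) ×ˢ
        ((Γ.aprW B s).filter (fun w => aprA w 0 = aprA q₀.1 (i + m + 1))))
      (fun q => ((fun t : Fin (i + 1) => aprA q.1 t),
        (fun t : Fin (s + 1) => aprA q.1 (i + m + 1 + t))))
      (by
        intro q hq
        obtain ⟨hw, -, -, -, -, h1, h2⟩ := hmem q hq
        have key : ∀ t ≤ s, aprA (fun t : Fin (s + 1) => aprA q.1 (i + m + 1 + t)) t =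
            aprA q.1 (i + m + 1 + t) := fun t ht =>
          aprA_ofNat (fun t => aprA q.1 (i + m + 1 + t)) ht
        rw [Finset.mem_coe, Finset.mem_product, Finset.mem_filter, Finset.mem_filter, mem_aprW,
          mem_aprW]
        refine ⟨⟨?_, ?_⟩, ?_, ?_⟩
        · intro t ht
          rw [aprA_ofNat _ (by omega), aprA_ofNat _ (by omega)]
          exact hw t (by omega)
        · rw [aprA_ofNat _ le_rfl]
          exact h1
        · intro t ht
          change Γ.aprR B (aprA (fun t : Fin (s + 1) => aprA q.1 (i + m + 1 + t)) t)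
            (aprA (fun t : Fin (s + 1) => aprA q.1 (i + m + 1 + t)) (t + 1))
          rw [key t (by omega), key (t + 1) (by omega)]
          exact hw (i + m + 1 + t) (by omega)
        · change aprA (fun t : Fin (s + 1) => aprA q.1 (i + m + 1 + t)) 0 = _
          rw [key 0 (by omega)]
          exact h2)
      (by
        intro q hq q' hq' he
        obtain ⟨-, -, hoff, hm1, hm2, -, -⟩ := hmem q hq
        obtain ⟨-, -, hoff', hm1', hm2', -, -⟩ := hmem q' hq'
        simp only [Prod.mk.injEq] at he
        obtain ⟨he1, he2⟩ := he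
        have k1 : ∀ t ≤ i, aprA q.1 t = aprA q'.1 t := by
          intro t ht
          exact congrFun he1 ⟨t, by omega⟩
        have k2 : ∀ t ≤ s, aprA q.1 (i + m + 1 + t) = aprA q'.1 (i + m + 1 + t) := by
          intro t ht
          exact congrFun he2 ⟨t, by omega⟩
        have k3 : ∀ t ≤ k, (t ≤ i ∨ i + m < t) → aprA q.1 t = aprA q'.1 t := by
          intro t ht h
          rcases h with h | h
          · exact k1 t h
          · obtain ⟨u, hu⟩ : ∃ u, t = i + m + 1 + u := ⟨t - (i + m + 1), by omega⟩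
            rw [hu]
            exact k2 u (by omega)
        apply Prod.ext
        · apply aprA_ext
          intro t ht
          by_cases h : t ≤ i ∨ i + m < t
          · exact k3 t ht h
          · obtain ⟨u, hu⟩ : ∃ u, t = i + 1 + u := ⟨t - (i + 1), by omega⟩
            rw [hu, hm1 u (by omega), hm1' u (by omega)]
        · apply aprA_ext
          intro t ht
          by_cases h : t ≤ i ∨ i + m < t
          · rw [← hoff t ht h, ← hoff' t ht h]
            exact k3 t ht h
          · obtain ⟨u, hu⟩ : ∃ u, t = i + 1 + u := ⟨t - (i + 1), by omega⟩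
            rw [hu, hm2 u (by omega), hm2' u (by omega)])
    rw [Finset.card_product] at hcard
    exact hcard.trans (Nat.mul_le_mul (Γ.apr_col B i _) (Γ.apr_row B s _))
  exact Finset.card_le_mul_card_image_of_maps_to hmaps _ hfib

theorem pairs (B : Finset V) (k : ℕ) (hk : 1 ≤ k) :
    ∑ x, ∑ y, ((Γ.NB B ^ k) x y) ^ 2 ≤ (∑ x, ∑ y, (Γ.NB B ^ k) x y) +
      ∑ m ∈ Finset.Ico 1 k, (k - m) * 2 ^ (k - 1 - m) * ((Γ.NB B) ^ (2 * m)).trace := by
  classical
  have _ := hk
  rw [apr_sq, apr_sum]
  set PP := (Γ.aprW B k ×ˢ Γ.aprW B k).filter (fun q =>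
      aprA q.1 0 = aprA q.2 0 ∧ aprA q.1 k = aprA q.2 k) with hPP
  have hsub : PP ⊆ (Γ.aprW B k).image (fun w => (w, w)) ∪
      (Ico 1 k).biUnion (fun m => (range (k - m)).biUnion fun i => Γ.aprG B k i m) := by
    rintro ⟨w, w'⟩ hq
    rw [hPP, Finset.mem_filter, Finset.mem_product] at hq
    obtain ⟨⟨hw, hw'⟩, h0, h1⟩ := hq
    simp only at hw hw' h0 h1
    rw [Finset.mem_union]
    by_cases hww : w = w'
    · left
      rw [Finset.mem_image]
      exact ⟨w, hw, by rw [← hww]⟩
    right
    set I := (range (k + 1)).filter (fun t => aprA w t ≠ aprA w' t) with hI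
    have hIne : I.Nonempty := by
      by_contra h
      rw [Finset.not_nonempty_iff_eq_empty] at h
      apply hww
      apply aprA_ext
      intro t ht
      by_contra h2
      have h3 : t ∈ I := by
        rw [hI, Finset.mem_filter, Finset.mem_range]
        exact ⟨by omega, h2⟩
      rw [h] at h3
      simp at h3
    have hmin := Finset.min'_mem I hIne
    have hmax := Finset.max'_mem I hIne
    set a := I.min' hIne with ha
    set b := I.max' hIne with hb
    have hab : a ≤ b := Finset.min'_le_max' I hIne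
    rw [hI, Finset.mem_filter, Finset.mem_range] at hmin hmax
    have ha0 : a ≠ 0 := by
      intro h
      apply hmin.2
      rw [h]; exact h0
    have hbk : b ≠ k := by
      intro h
      apply hmax.2
      rw [h]; exact h1
    have hout : ∀ t ≤ k, (t < a ∨ b < t) → aprA w t = aprA w' t := by
      intro t ht h
      by_contra h2
      have h3 : t ∈ I := by
        rw [hI, Finset.mem_filter, Finset.mem_range]
        exact ⟨by omega, h2⟩
      have h4 := Finset.min'_le I t h3
      have h5 := Finset.le_max' I t h3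
      omega
    rw [Finset.mem_biUnion]
    refine ⟨b - a + 1, ?_, ?_⟩
    · rw [Finset.mem_Ico]; omega
    · rw [Finset.mem_biUnion]
      refine ⟨a - 1, ?_, ?_⟩
      · rw [Finset.mem_range]; omega
      · unfold aprG
        rw [Finset.mem_filter, Finset.mem_product]
        have e1 : a - 1 + 1 = a := by omega
        have e2 : a - 1 + (b - a + 1) = b := by omega
        rw [e1, e2]
        refine ⟨⟨hw, hw'⟩, ?_, hmin.2, hmax.2⟩
        intro t ht h
        exact hout t ht (by omega)
  refine (Finset.card_le_card hsub).trans ((Finset.card_union_le _ _).trans ?_)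
  apply Nat.add_le_add Finset.card_image_le
  refine Finset.card_biUnion_le.trans (Finset.sum_le_sum fun m hm => ?_)
  rw [Finset.mem_Ico] at hm
  have h1 : ∀ i ∈ range (k - m), (Γ.aprG B k i m).card ≤
      2 ^ (k - 1 - m) * ((Γ.NB B) ^ (2 * m)).trace := by
    intro i hi
    rw [Finset.mem_range] at hi
    have h2 := Γ.apr_card_G B (k := k) (i := i) (m := m) (s := k - 1 - m - i) (by omega) hm.1
    rw [← pow_add] at h2
    have e : i + (k - 1 - m - i) = k - 1 - m := by omega
    rw [e] at h2
    exact h2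
  refine (Finset.card_biUnion_le_card_mul _ _ _ h1).trans ?_
  rw [Finset.card_range, mul_assoc]

end Cub

end Pool.Agent.Lib.MP_af4270_co
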