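import Pool.Agent.Lib.MP_af4270_co.AConn

/-!
# PAN-A10: exact probabilities for good cycles

`cn_contains`: `R ↦ R + C` is a bijection from `{R ∈ Z : supp C ⊆ supp R}` onto the even sets inside
`univ \ vs C` (`C ∈ Z`): `supp (R + C) = supp R \ supp C` does not touch `vs C` by `sub_closed`;
conversely an even set `D` inside `univ \ vs C` is disjoint from `C`.

`cn_ratio`: if `univ` and `univ \ X` are connected then by `card_ZU` (for `univ`: `EU univ = univ`)
`cn univ * 2^(|V| - 1) = 2^|E|`, `cn (EU (univ \ X)) * 2^(|V| - |X| - 1) = 2^(|E| - |touch X|)`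
(`EU (univ \ X) = univ \ touch X`), so `cn (EU (univ\X)) * 2 ^ |touch X| = cn univ * 2 ^ |X|`.

`touch_good`: for a good `C` every vertex `x` of `C` has exactly one dart not on `C`, and its edge is
not inside `vs C` (it would be a walk of length `1 ≤ 2 d` between vertices of `C`, with edge in `C`).
So `|touch (vs C)| = 2 |C|`. For two disjoint good cycles `touch (vs C ∪ vs C')` has
`2 |C| + 2 |C'| - e` elements, `e = |bt (vs C) (vs C')|`.
-/

set_option autoImplicit false
set_option linter.unusedSectionVars false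

namespace Pool.Agent.Lib.MP_af4270_co

open Finset

variable {V E : Type} [Fintype V] [DecidableEq V] [Fintype E] [DecidableEq E]

namespace Cub

variable (Γ : Cub V E)

theorem cn_contains {C : E → ZMod 2} (hC : C ∈ Γ.Z) :
    Γ.cn univ (fun R => supp C ⊆ supp R) = Γ.cn (Γ.EU (univ \ Γ.vs C)) (fun _ => True) := by
  classical
  unfold cn
  have hback : ∀ D : E → ZMod 2, D ∈ Γ.ZB (Γ.EU (univ \ Γ.vs C)) → ∀ e, C e ≠ 0 → D e = 0 := by
    intro D hD e he
    apply hD.2
    intro h
    rw [mem_EU, Finset.mem_sdiff] at h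
    exact h.1.2 (Γ.s_mem_vs he)
  apply Finset.card_bij' (fun R _ => R + C) (fun D _ => D + C)
  · intro R hR
    simp only [Finset.mem_filter, Finset.mem_univ, true_and, and_true] at hR ⊢
    obtain ⟨hRZ, hsub⟩ := hR
    rw [mem_ZB_univ] at hRZ
    refine ⟨Γ.Z.add_mem hRZ hC, ?_⟩
    intro e he
    by_contra h
    have h1 : e ∈ supp (R + C) := mem_supp.2 h
    rw [supp_add_of_subset hsub, Finset.mem_sdiff, mem_supp, mem_supp] at h1
    apply he
    rw [mem_EU, Finset.mem_sdiff, Finset.mem_sdiff]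
    refine ⟨⟨mem_univ _, fun h2 => ?_⟩, ⟨mem_univ _, fun h2 => ?_⟩⟩
    · exact h1.2 (Γ.sub_closed hC hRZ hsub h2 (Γ.mem_inc.2 (Or.inl rfl)) h1.1)
    · exact h1.2 (Γ.sub_closed hC hRZ hsub h2 (Γ.mem_inc.2 (Or.inr rfl)) h1.1)
  · intro D hD
    simp only [Finset.mem_filter, Finset.mem_univ, true_and, and_true] at hD ⊢
    have hDZ := hD
    refine ⟨?_, ?_⟩
    · rw [mem_ZB_univ]
      exact Γ.Z.add_mem hDZ.1 hC
    · intro e he
      rw [mem_supp] at he ⊢
      rw [Pi.add_apply, hback D hDZ e he, zero_add]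
      exact he
  · intro R _
    exact fn_add_cancel R C
  · intro D _
    exact fn_add_cancel D C

theorem cn_ratio {X : Finset V} (h1 : Γ.Conn univ) (h2 : Γ.Conn (univ \ X)) :
    Γ.cn (Γ.EU (univ \ X)) (fun _ => True) * 2 ^ (Γ.touch X).card
      = Γ.cn univ (fun _ => True) * 2 ^ X.card := by
  classical
  have e1 := Γ.card_ZU h1
  have e2 := Γ.card_ZU h2
  have huniv : Γ.EU (univ : Finset V) = univ := by
    ext e; simp
  rw [huniv] at e1
  have hEU : Γ.EU (univ \ X) = univ \ Γ.touch X := by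
    ext e
    simp only [mem_EU, Finset.mem_sdiff, Finset.mem_univ, true_and, mem_touch]
    tauto
  have hcE : (Γ.EU (univ \ X)).card + (Γ.touch X).card = (univ : Finset E).card := by
    rw [hEU]
    exact Finset.card_sdiff_add_card_eq_card (Finset.subset_univ _)
  have hcV : (univ \ X : Finset V).card + X.card = (univ : Finset V).card :=
    Finset.card_sdiff_add_card_eq_card (Finset.subset_univ _)
  have hpos : 0 < (univ \ X : Finset V).card := Finset.card_pos.2 h2.1
  have hp : 0 < 2 ^ ((univ \ X : Finset V).card - 1) := by positivity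
  apply Nat.eq_of_mul_eq_mul_right hp
  calc Γ.cn (Γ.EU (univ \ X)) (fun _ => True) * 2 ^ (Γ.touch X).card *
        2 ^ ((univ \ X : Finset V).card - 1)
      = (Γ.cn (Γ.EU (univ \ X)) (fun _ => True) * 2 ^ ((univ \ X : Finset V).card - 1)) *
        2 ^ (Γ.touch X).card := by ring
    _ = 2 ^ (univ : Finset E).card := by rw [e2, ← pow_add, hcE]
    _ = Γ.cn univ (fun _ => True) * 2 ^ ((univ : Finset V).card - 1) := e1.symm
    _ = Γ.cn univ (fun _ => True) * 2 ^ X.card * 2 ^ ((univ \ X : Finset V).card - 1) := by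
        rw [mul_assoc, ← pow_add]
        congr 2
        omega

/-- `touch` and `EU` -/
private theorem aprob_touch (X : Finset V) :
    (Γ.touch X).card + (Γ.EU X).card = 3 * X.card := by
  have h1 := Γ.card_bd_add X
  have h2 : Γ.touch X = Γ.bd X ∪ Γ.EU X := by
    ext e; simp only [mem_touch, mem_union, mem_bd, mem_EU]; tauto
  have h3 : Disjoint (Γ.bd X) (Γ.EU X) := by
    rw [Finset.disjoint_left]
    intro e he he'
    rw [mem_bd] at he
    rw [mem_EU] at he'
    tauto
  rw [h2, Finset.card_union_of_disjoint h3]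
  omega

/-- the edges inside a good cycle -/
private theorem aprob_EU {A : Finset V} {d L : ℕ} (hd : 1 ≤ 2 * d) {C : E → ZMod 2}
    (hC : Γ.Good A d L C) : Γ.EU (Γ.vs C) = supp C := by
  apply Finset.Subset.antisymm
  · intro e he
    rw [mem_EU] at he
    rw [mem_supp]
    have hwk : Γ.Wk (Γ.s e) (Γ.t e) [(e, false)] := by
      refine ⟨List.isChain_singleton _, fun h => by simp at h, ?_, ?_⟩
      · intro d hd
        simp only [List.head?_cons, Option.mem_def, Option.some.injEq] at hd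
        subst hd
        rfl
      · intro d hd
        simp only [List.getLast?_singleton, Option.mem_def, Option.some.injEq] at hd
        subst hd
        rfl
    exact hC.2.2.2 _ _ _ he.1 he.2 hwk (by simpa using hd) (e, false) (by simp)
  · exact Γ.supp_subset_EU_vs C

end Cub

theorem HypA.prob_one {Γ : Cub V E} {A : Finset V} {ℓ d L K k₀ : ℕ} (h : HypA Γ A ℓ d L K k₀)
    {C : E → ZMod 2} (hC : Γ.Good A d L C) :
    Γ.cn univ (fun R => supp C ⊆ supp R) * 2 ^ (supp C).card = Γ.cn univ (fun _ => True) := by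
  have hd := h.big.2
  have hconn := h.conn hC hC (Or.inl rfl)
  rw [Finset.union_idempotent] at hconn
  have h1 := Γ.cn_ratio h.hΓ hconn
  rw [← Γ.cn_contains hC.1.1] at h1
  have h2 := Γ.aprob_touch (Γ.vs C)
  rw [Γ.aprob_EU (by omega) hC, Γ.card_vs hC.1.1] at h2
  have h3 : (Γ.touch (Γ.vs C)).card = (supp C).card + (supp C).card := by omega
  rw [h3, Γ.card_vs hC.1.1, pow_add, ← mul_assoc] at h1
  exact Nat.eq_of_mul_eq_mul_right (by positivity) h1

theorem HypA.prob_two {Γ : Cub V E} {A : Finset V} {ℓ d L K k₀ : ℕ} (h : HypA Γ A ℓ d L K k₀)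
    {C C' : E → ZMod 2} (hC : Γ.Good A d L C) (hC' : Γ.Good A d L C')
    (hCC : Disjoint (Γ.vs C) (Γ.vs C')) :
    Γ.cn univ (fun R => supp C ⊆ supp R ∧ supp C' ⊆ supp R) *
      2 ^ ((supp C).card + (supp C').card)
      = Γ.cn univ (fun _ => True) * 2 ^ (Γ.bt (Γ.vs C) (Γ.vs C')).card := by
  classical
  have hd := h.big.2
  have hconn := h.conn hC hC' (Or.inr hCC)
  set X := Γ.vs C ∪ Γ.vs C' with hX
  have hdisj : ∀ e, C e ≠ 0 → C' e = 0 := by
    intro e he
    by_contra h'
    exact (Finset.disjoint_left.1 hCC (Γ.s_mem_vs he)) (Γ.s_mem_vs h')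
  have hsupp : supp (C + C') = supp C ∪ supp C' := by
    ext e
    rw [mem_supp, Finset.mem_union, mem_supp, mem_supp, Pi.add_apply]
    by_cases h1 : C e = 0
    · rw [h1, zero_add]; simp
    · rw [hdisj e h1, add_zero]; simp
  have hvs : Γ.vs (C + C') = X := by
    ext x
    rw [hX, Finset.mem_union, Cub.mem_vs, Cub.mem_vs, Cub.mem_vs]
    have h1 : ∀ e, (C + C') e ≠ 0 ↔ C e ≠ 0 ∨ C' e ≠ 0 := by
      intro e
      rw [← mem_supp, hsupp, Finset.mem_union, mem_supp, mem_supp]
    constructor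
    · rintro ⟨e, he, he'⟩
      rcases (h1 e).1 he' with h2 | h2
      · exact Or.inl ⟨e, he, h2⟩
      · exact Or.inr ⟨e, he, h2⟩
    · rintro (⟨e, he, he'⟩ | ⟨e, he, he'⟩)
      · exact ⟨e, he, (h1 e).2 (Or.inl he')⟩
      · exact ⟨e, he, (h1 e).2 (Or.inr he')⟩
  have hDZ : C + C' ∈ Γ.Z := Γ.Z.add_mem hC.1.1 hC'.1.1
  have h1 := Γ.cn_ratio h.hΓ hconn
  have h2 := Γ.cn_contains hDZ
  rw [hvs] at h2
  rw [← h2, hsupp] at h1
  have h3 : (fun R : E → ZMod 2 => supp C ∪ supp C' ⊆ supp R) =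
      fun R => supp C ⊆ supp R ∧ supp C' ⊆ supp R := by
    funext R
    rw [Finset.union_subset_iff]
  rw [h3] at h1
  have hXc : X.card = (supp C).card + (supp C').card := by
    rw [hX, Finset.card_union_of_disjoint hCC, Γ.card_vs hC.1.1, Γ.card_vs hC'.1.1]
  have hEUX : (Γ.EU X).card = (supp C).card + (supp C').card +
      (Γ.bt (Γ.vs C) (Γ.vs C')).card := by
    have e1 : Γ.EU X = (supp C ∪ supp C') ∪ Γ.bt (Γ.vs C) (Γ.vs C') := by
      rw [← Γ.aprob_EU (by omega) hC, ← Γ.aprob_EU (by omega) hC']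
      ext e
      simp only [hX, Cub.mem_EU, Finset.mem_union, Cub.mem_bt]
      tauto
    rw [e1, Finset.card_union_of_disjoint, Finset.card_union_of_disjoint]
    · rw [Finset.disjoint_left]
      intro e he he'
      rw [mem_supp] at he he'
      exact he' (hdisj e he)
    · rw [Finset.disjoint_left]
      intro e he he'
      rw [Finset.mem_union, mem_supp, mem_supp] at he
      rw [Cub.mem_bt] at he'
      rcases he with he | he
      · have h4 := Γ.s_mem_vs he
        have h5 := Γ.t_mem_vs he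
        rcases he' with h6 | h6
        · exact (Finset.disjoint_left.1 hCC h5) h6.2
        · exact (Finset.disjoint_left.1 hCC h4) h6.1
      · have h4 := Γ.s_mem_vs he
        have h5 := Γ.t_mem_vs he
        rcases he' with h6 | h6
        · exact (Finset.disjoint_left.1 hCC h6.1) h4
        · exact (Finset.disjoint_left.1 hCC h6.2) h5
  have h4 := Γ.aprob_touch X
  rw [hEUX, hXc] at h4
  rw [hXc] at h1
  have h5 : (Γ.touch X).card + (Γ.bt (Γ.vs C) (Γ.vs C')).card =
      ((supp C).card + (supp C').card) + ((supp C).card + (supp C').card) := by omega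
  have h6 := congrArg (fun n : ℕ => n * 2 ^ (Γ.bt (Γ.vs C) (Γ.vs C')).card) h1
  beta_reduce at h6
  rw [mul_assoc, ← pow_add, h5, pow_add (2 : ℕ) ((supp C).card + (supp C').card), ← mul_assoc,
    mul_right_comm (Γ.cn univ fun _ => True)] at h6
  exact Nat.eq_of_mul_eq_mul_right (by positivity) h6

/-- two different cycles with a common vertex are not both contained in an even set
of a cubic graph -/
theorem Cub.prob_meet (Γ : Cub V E) {C C' : E → ZMod 2} (hC : Γ.Single C) (hC' : Γ.Single C')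
    (hne : C ≠ C') (hCC : ¬ Disjoint (Γ.vs C) (Γ.vs C')) :
    Γ.cn univ (fun R => supp C ⊆ supp R ∧ supp C' ⊆ supp R) = 0 := by
  classical
  unfold Cub.cn
  rw [Finset.card_eq_zero]
  ext R
  simp only [Finset.mem_filter, Finset.mem_univ, true_and, Finset.notMem_empty, iff_false]
  rintro ⟨hR, hs, hs'⟩
  rw [Cub.mem_ZB_univ] at hR
  apply hne
  have hsub : Γ.vs C ⊆ Γ.vs C' := by
    by_contra hcon
    have h1 : Γ.vs C ∩ Γ.vs C' ≠ Γ.vs C := by
      intro h2
      apply hcon
      rw [← h2]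
      exact Finset.inter_subset_right
    have h0 : (Γ.vs C ∩ Γ.vs C').Nonempty := by
      rw [Finset.nonempty_iff_ne_empty]
      intro h2
      exact hCC (Finset.disjoint_iff_inter_eq_empty.2 h2)
    obtain ⟨e, he, hCe⟩ := Γ.single_cut hC Finset.inter_subset_left h0 h1
    have hRe : R e ≠ 0 := mem_supp.1 (hs (mem_supp.2 hCe))
    rw [Cub.mem_bt] at he
    simp only [Finset.mem_inter, Finset.mem_sdiff] at he
    rcases he with ⟨⟨h2, h3⟩, h4, h5⟩ | ⟨⟨h4, h5⟩, h2, h3⟩
    · have h6 := Γ.sub_closed hC'.1 hR hs' h3 (Γ.mem_inc.2 (Or.inl rfl)) hRe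
      exact h5 ⟨h4, Γ.t_mem_vs h6⟩
    · have h6 := Γ.sub_closed hC'.1 hR hs' h3 (Γ.mem_inc.2 (Or.inr rfl)) hRe
      exact h5 ⟨h4, Γ.s_mem_vs h6⟩
  apply hC'.2.2 C hC.1 hC.2.1
  intro e he
  have h1 : R e ≠ 0 := mem_supp.1 (hs he)
  rw [mem_supp] at he ⊢
  exact Γ.sub_closed hC'.1 hR hs' (hsub (Γ.s_mem_vs he)) (Γ.mem_inc.2 (Or.inl rfl)) h1

end Pool.Agent.Lib.MP_af4270_co
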