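import Pool.Agent.Lib.MP_af4270_co.AUniq

/-!
# PAN-A4: a region with small boundary and without short cycles is large

`exists_even`: if `|EU A| ≥ |A| ≥ 1` there is a nonzero even edge set inside `A`. Proof. The map
`f ↦ (od f x)_{x ∈ A}` from `{f : supp f ⊆ EU A}` (`2 ^ |EU A|` elements) to functions on `A` has
its image in the functions with sum zero (`sum_od`), of which there are `2 ^ (|A| - 1)`; so it is
not injective; a difference of two elements with equal image is the required `D` (outside `A` the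
degree parities vanish: `od_eq_zero_of_notMem`).

`size`. Let `N = |A|`, `b = |bd A|`, `b² ≤ N`. By `card_bd_add`, `|EU A| = (3 N - b) / 2 ≥ N`. So
there is a nonzero `D ∈ Z` inside `A`; it has `|supp D| = |vs D| ≤ N` edges and more than `ℓ` by
`Free`: `N > ℓ`.
General step (*): if `2 (k+1) ≤ ℓ`, `k ≥ 1` and `(k+1)² ≤ N` then `2^(k-3) ≤ N`, precisely
`2 ^ k ≤ 8 N`. Proof: `NB_pow_total`: `∑ x y, (NB A ^ k) x y ≥ 2^k (3 N - (k+1) b) ≥ 2^k * 2 N`,
since `(k+1) b ≤ N` (`((k+1) b)² ≤ N²`). Only `x`, `y` inside `A` contribute (`k ≥ 1`), at most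
`3 N` darts each (`card_dIn`), and all entries are `≤ 1` (`NB_pow_le_one`): so
`2^k * 2 N ≤ (3 N) (3 N)`, i.e. `2 ^ k ≤ (9/2) N ≤ 8 N`.
First `k = Nat.sqrt ℓ - 1` (`(k+1)² ≤ ℓ < N`, `2 (k+1) ≤ ℓ`): `8 N ≥ 2 ^ (sqrt ℓ - 1)`, and since
`ℓ ≥ 1000`, `sqrt ℓ ≥ 31` and `2 ^ (sqrt ℓ - 1) ≥ 8 (sqrt ℓ + 1)^4 ≥ 8 ℓ²` (check:
`2 ^ (s-1) ≥ 8 (s+1)^4` for `s ≥ 31` by induction). So `N ≥ ℓ²`; then `k = ℓ / 2 - 1` is allowed in
(*): `2 ^ (ℓ/2 - 1) ≤ 8 N`, i.e. `2 ^ (ℓ / 2 - 5) ≤ N`.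
-/

set_option autoImplicit false
set_option linter.unusedSectionVars false

namespace Pool.Agent.Lib.MP_af4270_co

open Finset

variable {V E : Type} [Fintype V] [DecidableEq V] [Fintype E] [DecidableEq E]

namespace Cub

variable (Γ : Cub V E)

theorem exists_even {A : Finset V} (h1 : A.Nonempty) (h : A.card ≤ (Γ.EU A).card) :
    ∃ D ∈ Γ.Z, D ≠ 0 ∧ supp D ⊆ Γ.EU A := by
  classical
  have hsuppext : ∀ f : Γ.EU A → ZMod 2, supp (Γ.extU A f) ⊆ Γ.EU A := by
    intro f e he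
    by_contra h
    rw [mem_supp] at he
    exact he (by simp [extU, h])
  let F : (Γ.EU A → ZMod 2) → {g : A → ZMod 2 // ∑ x, g x = 0} := fun f =>
    ⟨fun x => Γ.od (Γ.extU A f) x, by
      rw [Finset.univ_eq_attach, Finset.sum_attach A (fun x => Γ.od (Γ.extU A f) x)]
      exact Γ.sum_od (hsuppext f)⟩
  obtain ⟨x₀, hx₀⟩ := h1
  have hcard : Fintype.card {g : A → ZMod 2 // ∑ x, g x = 0}
      < Fintype.card (Γ.EU A → ZMod 2) := by
    have h2 : Fintype.card {g : A → ZMod 2 // ∑ x, g x = 0} < Fintype.card (A → ZMod 2) := by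
      apply Fintype.card_subtype_lt (x := Pi.single (⟨x₀, hx₀⟩ : A) (1 : ZMod 2))
      rw [Finset.sum_pi_single']
      simp
    refine h2.trans_le ?_
    rw [Fintype.card_fun, Fintype.card_fun, Fintype.card_coe, Fintype.card_coe]
    exact Nat.pow_le_pow_right (by simp) h
  obtain ⟨f, g, hfg, hFG⟩ := Fintype.exists_ne_map_eq_of_card_lt F hcard
  refine ⟨Γ.extU A f + Γ.extU A g, ?_, ?_, ?_⟩
  · rw [mem_Z_iff_od]
    intro x
    rw [od_add]
    by_cases hx : x ∈ A
    · have h3 : Γ.od (Γ.extU A f) x = Γ.od (Γ.extU A g) x :=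
        congrFun (congrArg Subtype.val hFG) ⟨x, hx⟩
      rw [h3, zm_add_self]
    · rw [Γ.od_eq_zero_of_notMem (hsuppext f) hx, Γ.od_eq_zero_of_notMem (hsuppext g) hx,
        add_zero]
  · intro h0
    apply hfg
    have h4 : Γ.extU A f = Γ.extU A g := by
      have := fn_add_cancel (Γ.extU A f) (Γ.extU A g)
      rw [h0, zero_add] at this
      exact this.symm
    funext e
    have h5 := congrFun h4 e.1
    simpa [extU] using h5
  · intro e he
    rw [mem_supp, Pi.add_apply] at he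
    by_contra hc
    apply he
    simp only [extU, hc, dite_false, add_zero]

theorem NB_pow_dIn {A : Finset V} {k : ℕ} (hk : 1 ≤ k) {x y : E × Bool}
    (h : (Γ.NB A ^ k) x y ≠ 0) : Γ.dIn A x ∧ Γ.dIn A y := by
  obtain ⟨k, rfl⟩ := Nat.exists_eq_add_of_le' hk
  constructor
  · rw [pow_succ', Matrix.mul_apply] at h
    obtain ⟨z, -, hz⟩ := Finset.exists_ne_zero_of_sum_ne_zero h
    by_contra hc
    apply hz
    have : Γ.NB A x z = 0 := by
      unfold NB
      rw [if_neg (fun h => hc h.2.1)]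
    rw [this, zero_mul]
  · rw [pow_succ, Matrix.mul_apply] at h
    obtain ⟨z, -, hz⟩ := Finset.exists_ne_zero_of_sum_ne_zero h
    by_contra hc
    apply hz
    have : Γ.NB A z y = 0 := by
      unfold NB
      rw [if_neg (fun h => hc h.2.2)]
    rw [this, mul_zero]

theorem size_star {A : Finset V} {ℓ k : ℕ} (hA : Γ.Free ℓ A) (h1 : A.Nonempty)
    (hb : (Γ.bd A).card ^ 2 ≤ A.card) (hk : 1 ≤ k) (hkℓ : 2 * (k + 1) ≤ ℓ)
    (hkN : (k + 1) ^ 2 ≤ A.card) : 2 ^ k ≤ 8 * A.card := by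
  have hN : 0 < A.card := h1.card_pos
  have h2 : (k + 1) * (Γ.bd A).card ≤ A.card := by
    refine (Nat.pow_le_pow_iff_left (n := 2) (by norm_num)).1 ?_
    rw [mul_pow]
    calc (k + 1) ^ 2 * (Γ.bd A).card ^ 2 ≤ A.card * A.card := Nat.mul_le_mul hkN hb
      _ = A.card ^ 2 := by ring
  have h3 := Γ.NB_pow_total A k
  have h4 : (∑ x, ∑ y, (Γ.NB A ^ k) x y) ≤ (3 * A.card) * (3 * A.card) := by
    have hT : (univ.filter (fun d => Γ.dIn A d)).card ≤ 3 * A.card := by
      have := Γ.card_dIn A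
      omega
    have e1 : (∑ x, ∑ y, (Γ.NB A ^ k) x y) = ∑ x ∈ univ.filter (fun d => Γ.dIn A d),
        ∑ y ∈ univ.filter (fun d => Γ.dIn A d), (Γ.NB A ^ k) x y := by
      rw [Finset.sum_filter]
      apply Finset.sum_congr rfl
      intro x _
      split_ifs with hx
      · rw [Finset.sum_filter]
        apply Finset.sum_congr rfl
        intro y _
        split_ifs with hy
        · rfl
        · by_contra hc
          exact hy (Γ.NB_pow_dIn hk hc).2
      · apply Finset.sum_eq_zero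
        intro y _
        by_contra hc
        exact hx (Γ.NB_pow_dIn hk hc).1
    rw [e1]
    calc _ ≤ ∑ x ∈ univ.filter (fun d => Γ.dIn A d),
        ∑ y ∈ univ.filter (fun d => Γ.dIn A d), 1 := by
          apply Finset.sum_le_sum
          intro x _
          apply Finset.sum_le_sum
          intro y _
          exact Γ.NB_pow_le_one hA hkℓ x y
      _ = (univ.filter (fun d => Γ.dIn A d)).card * (univ.filter (fun d => Γ.dIn A d)).card := by
          simp
      _ ≤ _ := Nat.mul_le_mul hT hT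
  have h5 : 2 ^ k * ((k + 1) * (Γ.bd A).card) ≤ 2 ^ k * A.card := Nat.mul_le_mul_left _ h2
  have h6 : A.card * (2 * 2 ^ k) ≤ A.card * (9 * A.card) := by
    have : 2 ^ k * (3 * A.card) ≤ (3 * A.card) * (3 * A.card) + 2 ^ k * A.card := by omega
    nlinarith
  have h7 := Nat.le_of_mul_le_mul_left h6 hN
  omega

theorem size_num {s : ℕ} (hs : 31 ≤ s) : 8 * (s + 1) ^ 4 ≤ 2 ^ (s - 1) := by
  induction s, hs using Nat.le_induction with
  | base => norm_num
  | succ s hs ih =>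
    obtain ⟨t, rfl⟩ := Nat.exists_eq_add_of_le hs
    have e : 31 + t + 1 - 1 = (31 + t - 1) + 1 := by omega
    rw [e, pow_succ 2 (31 + t - 1)]
    have h : (31 + t + 1 + 1) ^ 4 ≤ 2 * (31 + t + 1) ^ 4 := by
      nlinarith [sq_nonneg t, Nat.zero_le t, Nat.zero_le (t ^ 2), Nat.zero_le (t ^ 3),
        Nat.zero_le (t ^ 4)]
    omega

theorem size {A : Finset V} {ℓ : ℕ} (hA : Γ.Free ℓ A) (h1 : A.Nonempty)
    (hb : (Γ.bd A).card ^ 2 ≤ A.card) (hℓ : 1000 ≤ ℓ) : 2 ^ (ℓ / 2 - 5) ≤ A.card := by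
  have hbN : (Γ.bd A).card ≤ A.card := by
    refine le_trans ?_ hb
    exact Nat.le_self_pow (by norm_num) _
  have h2 := Γ.card_bd_add A
  obtain ⟨D, hD, hD0, hDA⟩ := Γ.exists_even h1 (by omega)
  have h3 := hA D hD hD0 hDA
  have h4 : (supp D).card ≤ A.card := by
    rw [← Γ.card_vs hD]
    apply Finset.card_le_card
    intro x hx
    rw [mem_vs] at hx
    obtain ⟨e, he, hDe⟩ := hx
    have h5 := Γ.mem_EU.1 (hDA (mem_supp.2 hDe))
    rcases he with rfl | rfl
    · exact h5.1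
    · exact h5.2
  set s := Nat.sqrt ℓ with hs
  have hs1 : s * s ≤ ℓ := Nat.sqrt_le ℓ
  have hs2 : ℓ < (s + 1) * (s + 1) := Nat.lt_succ_sqrt ℓ
  have hs31 : 31 ≤ s := by
    by_contra hc
    have : (s + 1) * (s + 1) ≤ 31 * 31 := Nat.mul_le_mul (by omega) (by omega)
    omega
  have h6 : 2 ^ (s - 1) ≤ 8 * A.card := by
    apply Γ.size_star hA h1 hb (by omega)
    · have : s * 2 ≤ s * s := Nat.mul_le_mul_left _ (by omega)
      omega
    · have : (s - 1 + 1) ^ 2 = s * s := by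
        rw [show s - 1 + 1 = s by omega]; ring
      rw [this]; omega
  have h7 := size_num hs31
  have h8 : ℓ * ℓ ≤ A.card := by
    have : ℓ * ℓ ≤ ((s + 1) * (s + 1)) * ((s + 1) * (s + 1)) := Nat.mul_le_mul hs2.le hs2.le
    have e : ((s + 1) * (s + 1)) * ((s + 1) * (s + 1)) = (s + 1) ^ 4 := by ring
    omega
  have h9 : 2 ^ (ℓ / 2 - 1) ≤ 8 * A.card := by
    apply Γ.size_star hA h1 hb (by omega) (by omega)
    have e : ℓ / 2 - 1 + 1 = ℓ / 2 := by omega
    rw [e, pow_two]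
    have : (ℓ / 2) * (ℓ / 2) ≤ ℓ * ℓ := Nat.mul_le_mul (by omega) (by omega)
    omega
  have e : ℓ / 2 - 1 = (ℓ / 2 - 5) + 4 := by omega
  rw [e, pow_add] at h9
  omega

end Cub

end Pool.Agent.Lib.MP_af4270_co
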