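import Pool.Agent.Lib.MP_af4270_co.ACount
import Pool.Agent.Lib.MP_af4270_co.APairs
import Pool.Agent.Lib.MP_af4270_co.ASize
import Pool.Agent.Lib.MP_af4270_co.AMargin

/-!
# PAN-A8: the total weight of the good cycles is at least `K`

Let `N = |A|`, `B = mar A (4 d)`, `T m = trace (NB B ^ m)`, `S = gS A d L`.

(1) `size` (with `ℓ ≥ 1000`: `L ≥ 2^(18 K) k₀ ≥ 2^36`, `2^d ≥ 64 L²`, so `d ≥ 78`, `ℓ ≥ 24 d + 20`):
`N ≥ 2 ^ (ℓ/2 - 5) ≥ 2 ^ (12 d + 5)`. (2) `|A \ B| ≤ |bd A| 2^(4d)` and `|bd A| ≤ sqrt N`, so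
`(16 (L + 2) |A \ B|)² ≤ 256 (L+2)² 2^(8d) N ≤ 2^(12 d) N ≤ N²`: `16 (L + 2) |A \ B| ≤ N`.
(3) For `1 ≤ k < L`, by `NB_pow_total` for `B` and `bd_mar_le`:
`∑ x y, (NB B ^ k) x y ≥ 2^k (3 |B| - (k+1) 3 |A \ B|) ≥ 2^k * 3 (N - (k+2) |A \ B|) ≥ 2^k * 3 N * (15/16)`.
(4) `(NB B ^ k) x y = 0` unless `x, y` are inside `B`, at most `3 N` darts each; Cauchy-Schwarz:
`∑ x y, ((NB B ^ k) x y)² ≥ (2^k 3 N 15/16)² / (3N)² = 4^k 225/256`.
(5) `∑ x y, (NB B ^ k) x y ≤ 2^k * 3 N ≤ 4^k * 3/8` for `k ≥ k₀` (`8 N ≤ 2^k₀`).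
(6) `pairs`: for `k₀ ≤ k < L`: `4^k (225/256 - 96/256) ≤ ∑_{1≤m<k} (k-m) 2^(k-1-m) T (2m)`, so
`1 ≤ ∑_{1≤m<k} (k-m) 2^{-(k-m)} T(2m) 4^{-m}` (the left side would be `129/128`).
(7) Multiply by `1/k` and sum over `k₀ ≤ k < L = 2^(18K) k₀`: the left side is `∑ 1/k ≥ 18 K / 2 = 9 K`
(each block `2^i k₀ ≤ k < 2^(i+1) k₀` contributes at least `1/2`). The right side is
`≤ ∑_{1≤m<L} T(2m) 4^{-m} ∑_{k>m} (k-m) 2^{-(k-m)} / m ≤ ∑_{1≤m<L} T(2m) 4^{-m} * 2/m` (`∑_{q≥1} q 2^{-q} = 2`).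
(8) `closed_walks` with `k = 2 m ≤ 2 L`: `T(2m) 4^{-m} ≤ 4 m gN(2m) 4^{-m} + S η`,
`η = 32 L³ (4d+1) 2^(4d) / 2^(ℓ/2 - 1)`. So the right side is `≤ 8 ∑_m gN(2m) 4^{-m} + 2 S η L ≤ 8 S + S`,
because `∑_m gN(2m) 2^{-2m} ≤ S` (good cycles of even length) and `2 η L ≤ 1`:
`64 L⁴ (4d+1) 2^(4d) ≤ 2^(2d) 2^d 2^(4d) = 2^(7d) ≤ 2^(ℓ/2-1)` (`L² ≤ 2^d / 64`, `4d+1 ≤ 2^d`).
Hence `9 K ≤ 9 S`.
-/

set_option autoImplicit false
set_option linter.unusedSectionVars false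

namespace Pool.Agent.Lib.MP_af4270_co

open Finset

variable {V E : Type} [Fintype V] [DecidableEq V] [Fintype E] [DecidableEq E]

/-! ### numerical consequences -/

theorem HypA.k0_pos {Γ : Cub V E} {A : Finset V} {ℓ d L K k₀ : ℕ} (h : HypA Γ A ℓ d L K k₀) :
    3 ≤ k₀ := by
  have h1 : 1 ≤ A.card := Finset.card_pos.2 h.ne
  have h2 := h.hk₀
  by_contra hc
  have h3 : k₀ ≤ 2 := by omega
  have h4 : 2 ^ k₀ ≤ 2 ^ 2 := Nat.pow_le_pow_right (by norm_num) h3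
  omega

theorem HypA.big {Γ : Cub V E} {A : Finset V} {ℓ d L K k₀ : ℕ} (h : HypA Γ A ℓ d L K k₀) :
    2 ^ 36 ≤ L ∧ 78 ≤ d := by
  have h0 := h.k0_pos
  have hK := h.hK
  have h1 : 2 ^ 36 ≤ 2 ^ (18 * K) := Nat.pow_le_pow_right (by norm_num) (by omega)
  have hL : 2 ^ 36 ≤ L := by
    rw [h.hL]
    calc 2 ^ 36 ≤ 2 ^ (18 * K) * 1 := by omega
      _ ≤ 2 ^ (18 * K) * k₀ := Nat.mul_le_mul_left _ (by omega)
  refine ⟨hL, ?_⟩
  by_contra hc
  have h2 : 2 ^ d ≤ 2 ^ 77 := Nat.pow_le_pow_right (by norm_num) (by omega)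
  have h3 : (2 ^ 36) ^ 2 ≤ L ^ 2 := Nat.pow_le_pow_left hL 2
  have h4 := h.hd
  have h5 : 64 * (2 ^ 36) ^ 2 ≤ 2 ^ 77 := (Nat.mul_le_mul_left 64 h3).trans (h4.trans h2)
  norm_num at h5

/-- numerical consequences of the hypotheses -/
theorem HypA.size {Γ : Cub V E} {A : Finset V} {ℓ d L K k₀ : ℕ} (h : HypA Γ A ℓ d L K k₀) :
    2 ^ (12 * d + 5) ≤ A.card := by
  obtain ⟨-, hd⟩ := h.big
  have hℓ := h.hℓ
  have h1 := Γ.size h.free h.ne h.bd (by omega : 1000 ≤ ℓ)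
  refine le_trans ?_ h1
  exact Nat.pow_le_pow_right (by norm_num) (by omega)

theorem HypA.margin {Γ : Cub V E} {A : Finset V} {ℓ d L K k₀ : ℕ} (h : HypA Γ A ℓ d L K k₀) :
    16 * (L + 2) * (A \ Γ.mar A (4 * d)).card ≤ A.card := by
  obtain ⟨hL, hd⟩ := h.big
  have hs := h.size
  set M := (A \ Γ.mar A (4 * d)).card with hM
  set N := A.card with hN
  have h1 : M ≤ (Γ.bd A).card * 2 ^ (4 * d) := Γ.card_sdiff_mar A (4 * d)
  have h2 := h.bd
  have hL2 : 2 ≤ L := by omega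
  have h3 : (16 * (L + 2) * M) ^ 2 ≤ N ^ 2 := by
    calc (16 * (L + 2) * M) ^ 2 ≤ (16 * (L + L) * ((Γ.bd A).card * 2 ^ (4 * d))) ^ 2 := by
          apply Nat.pow_le_pow_left
          exact Nat.mul_le_mul (Nat.mul_le_mul_left _ (by omega)) h1
      _ = 16 * (64 * L ^ 2) * (Γ.bd A).card ^ 2 * 2 ^ (8 * d) := by
          have : (2 : ℕ) ^ (8 * d) = (2 ^ (4 * d)) ^ 2 := by rw [← pow_mul]; ring_nf
          rw [this]; ring
      _ ≤ 16 * 2 ^ d * N * 2 ^ (8 * d) := by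
          apply Nat.mul_le_mul_right
          exact Nat.mul_le_mul (Nat.mul_le_mul_left _ h.hd) h2
      _ = 2 ^ (9 * d + 4) * N := by
          have : (2 : ℕ) ^ (9 * d + 4) = 2 ^ d * 2 ^ (8 * d) * 16 := by
            rw [← pow_add, show (16 : ℕ) = 2 ^ 4 by norm_num, ← pow_add]
            congr 1; ring
          rw [this]; ring
      _ ≤ 2 ^ (12 * d + 5) * N := by
          apply Nat.mul_le_mul_right
          exact Nat.pow_le_pow_right (by norm_num) (by omega)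
      _ ≤ N * N := Nat.mul_le_mul_right _ hs
      _ = N ^ 2 := by ring
  exact (Nat.pow_le_pow_iff_left (by norm_num)).1 h3

/-! ### support of powers -/

theorem NB_zero_row (Γ : Cub V E) (B : Finset V) {k : ℕ} (hk : 1 ≤ k) {x y : E × Bool}
    (hx : ¬ Γ.dIn B x) : (Γ.NB B ^ k) x y = 0 := by
  obtain ⟨m, rfl⟩ := Nat.exists_eq_add_of_le' hk
  rw [pow_succ', Matrix.mul_apply]
  refine Finset.sum_eq_zero fun z _ => ?_
  have : Γ.NB B x z = 0 := by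
    unfold Cub.NB
    rw [if_neg]
    exact fun h => hx h.2.1
  rw [this, zero_mul]

theorem NB_zero_col (Γ : Cub V E) (B : Finset V) {k : ℕ} (hk : 1 ≤ k) {x y : E × Bool}
    (hy : ¬ Γ.dIn B y) : (Γ.NB B ^ k) x y = 0 := by
  obtain ⟨m, rfl⟩ := Nat.exists_eq_add_of_le' hk
  rw [pow_succ, Matrix.mul_apply]
  refine Finset.sum_eq_zero fun z _ => ?_
  have : Γ.NB B z y = 0 := by
    unfold Cub.NB
    rw [if_neg]
    exact fun h => hy h.2.2
  rw [this, mul_zero]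

theorem sum_NB_eq (Γ : Cub V E) (B : Finset V) {k : ℕ} (hk : 1 ≤ k)
    (F : ℕ → ℝ) (hF : F 0 = 0) :
    ∑ x, ∑ y, F ((Γ.NB B ^ k) x y) =
      ∑ x ∈ univ.filter (fun d => Γ.dIn B d), ∑ y ∈ univ.filter (fun d => Γ.dIn B d),
        F ((Γ.NB B ^ k) x y) := by
  rw [Finset.sum_filter]
  refine Finset.sum_congr rfl fun x _ => ?_
  split_ifs with hx
  · rw [Finset.sum_filter]
    refine Finset.sum_congr rfl fun y _ => ?_
    split_ifs with hy
    · rfl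
    · rw [NB_zero_col Γ B hk hy, hF]
  · refine Finset.sum_eq_zero fun y _ => ?_
    rw [NB_zero_row Γ B hk hx, hF]

/-- the main inequality for one `k` -/
theorem HypA.step {Γ : Cub V E} {A : Finset V} {ℓ d L K k₀ : ℕ} (h : HypA Γ A ℓ d L K k₀)
    {k : ℕ} (hk0 : k₀ ≤ k) (hkL : k < L) :
    1 ≤ ∑ m ∈ Finset.Ico 1 k, ((k : ℝ) - m) * (1 / 2) ^ (k - m) *
      ((((Γ.NB (Γ.mar A (4 * d))) ^ (2 * m)).trace : ℝ) / 4 ^ m) := by
  have h3 := h.k0_pos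
  have hk1 : 1 ≤ k := by omega
  obtain ⟨hL, hd⟩ := h.big
  set B := Γ.mar A (4 * d) with hB
  have hBA : B ⊆ A := Γ.mar_subset A _
  have hmar := h.margin
  rw [← hB] at hmar
  set N := A.card with hN
  have hNpos : 1 ≤ N := Finset.card_pos.2 h.ne
  set M := (A \ B).card with hM
  have hBM : B.card + M = N := by
    rw [hM, hN, add_comm]
    exact Finset.card_sdiff_add_card_eq_card hBA
  set I : Finset (E × Bool) := univ.filter (fun d => Γ.dIn B d) with hI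
  have hIc : I.card ≤ 3 * N := by
    have h4 := Γ.card_dIn B
    rw [← hI] at h4
    have h5 : B.card ≤ N := by omega
    omega
  -- the total
  have htot := Γ.NB_pow_total B k
  have hbd : (Γ.bd B).card ≤ 3 * M := Γ.bd_mar_le A (by omega : 1 ≤ 4 * d)
  set S1 : ℝ := ((∑ x, ∑ y, (Γ.NB B ^ k) x y : ℕ) : ℝ) with hS1
  set S2 : ℝ := ((∑ x, ∑ y, ((Γ.NB B ^ k) x y) ^ 2 : ℕ) : ℝ) with hS2
  have hNR : (1 : ℝ) ≤ N := by exact_mod_cast hNpos
  have hpow : (0 : ℝ) < 2 ^ k := by positivity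
  have hS1low : (2 : ℝ) ^ k * (3 * N * (15 / 16)) ≤ S1 := by
    have e1 : ((2 ^ k * (3 * B.card) : ℕ) : ℝ) ≤
        ((∑ x, ∑ y, (Γ.NB B ^ k) x y) + 2 ^ k * ((k + 1) * (3 * M)) : ℕ) := by
      have : 2 ^ k * (3 * B.card) ≤
          (∑ x, ∑ y, (Γ.NB B ^ k) x y) + 2 ^ k * ((k + 1) * (3 * M)) := by
        refine htot.trans ?_
        apply Nat.add_le_add_left
        exact Nat.mul_le_mul_left _ (Nat.mul_le_mul_left _ hbd)
      exact_mod_cast this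
    have e2 : ((B.card : ℕ) : ℝ) = N - M := by
      have : (B.card : ℝ) + M = N := by exact_mod_cast hBM
      linarith
    have e3 : 16 * ((L : ℝ) + 2) * M ≤ N := by exact_mod_cast hmar
    have e4 : ((k : ℝ) + 2) * M ≤ (L + 2) * M := by
      apply mul_le_mul_of_nonneg_right _ (Nat.cast_nonneg _)
      have : (k : ℝ) ≤ L := by exact_mod_cast hkL.le
      linarith
    push_cast at e1
    rw [e2] at e1
    have e5 : (2 : ℝ) ^ k * (3 * (N - M)) - 2 ^ k * (((k : ℝ) + 1) * (3 * M)) =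
        2 ^ k * (3 * (N - (k + 2) * M)) := by ring
    have e6 : (2 : ℝ) ^ k * (3 * N * (15 / 16)) ≤ 2 ^ k * (3 * (N - (k + 2) * M)) := by
      apply mul_le_mul_of_nonneg_left _ hpow.le
      linarith
    rw [hS1]
    push_cast
    linarith
  have hS1up : S1 ≤ 2 ^ k * (3 * N) := by
    have e1 : S1 = ∑ x ∈ I, ∑ y ∈ I, (((Γ.NB B ^ k) x y : ℕ) : ℝ) := by
      rw [hS1]
      push_cast
      exact sum_NB_eq Γ B hk1 (fun n => (n : ℝ)) (by simp)
    rw [e1]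
    have e2 : ∀ x ∈ I, ∑ y ∈ I, (((Γ.NB B ^ k) x y : ℕ) : ℝ) ≤ 2 ^ k := by
      intro x _
      have e3 : ∑ y ∈ I, (((Γ.NB B ^ k) x y : ℕ) : ℝ) ≤ ∑ y, (((Γ.NB B ^ k) x y : ℕ) : ℝ) :=
        Finset.sum_le_sum_of_subset_of_nonneg (Finset.subset_univ _)
          fun _ _ _ => Nat.cast_nonneg _
      refine e3.trans ?_
      exact_mod_cast Γ.NB_pow_row B k x
    refine (Finset.sum_le_sum e2).trans ?_
    rw [Finset.sum_const, nsmul_eq_mul, mul_comm]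
    apply mul_le_mul_of_nonneg_left _ hpow.le
    exact_mod_cast hIc
  have hCS : S1 ^ 2 ≤ (3 * N) ^ 2 * S2 := by
    have e1 : S1 = ∑ p ∈ I ×ˢ I, (((Γ.NB B ^ k) p.1 p.2 : ℕ) : ℝ) := by
      rw [Finset.sum_product, hS1]
      push_cast
      exact sum_NB_eq Γ B hk1 (fun n => (n : ℝ)) (by simp)
    have e2 : S2 = ∑ p ∈ I ×ˢ I, (((Γ.NB B ^ k) p.1 p.2 : ℕ) : ℝ) ^ 2 := by
      rw [Finset.sum_product, hS2]
      push_cast
      exact sum_NB_eq Γ B hk1 (fun n => (n : ℝ) ^ 2) (by simp)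
    have e3 : S1 ^ 2 ≤ ((I ×ˢ I).card : ℝ) * S2 := by
      rw [e1, e2]
      exact sq_sum_le_card_mul_sum_sq
    refine e3.trans ?_
    apply mul_le_mul_of_nonneg_right _ (by rw [hS2]; exact Nat.cast_nonneg _)
    rw [Finset.card_product]
    push_cast
    have e4 : (I.card : ℝ) ≤ 3 * N := by exact_mod_cast hIc
    have e5 : (0 : ℝ) ≤ I.card := Nat.cast_nonneg _
    nlinarith
  have hS2low : (4 : ℝ) ^ k * (225 / 256) ≤ S2 := by
    have e1 : ((2 : ℝ) ^ k * (3 * N * (15 / 16))) ^ 2 ≤ (3 * N) ^ 2 * S2 :=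
      (pow_le_pow_left₀ (by positivity) hS1low 2).trans hCS
    have e2 : ((2 : ℝ) ^ k * (3 * N * (15 / 16))) ^ 2 = (3 * N) ^ 2 * (4 ^ k * (225 / 256)) := by
      have : (4 : ℝ) ^ k = (2 ^ k) ^ 2 := by
        rw [← pow_mul, mul_comm, pow_mul]; norm_num
      rw [this]; ring
    rw [e2] at e1
    exact le_of_mul_le_mul_left e1 (by positivity)
  have hS1up' : S1 ≤ 4 ^ k * (96 / 256) := by
    have e1 : (8 : ℝ) * N ≤ 2 ^ k := by
      have : 8 * N ≤ 2 ^ k := h.hk₀.trans (Nat.pow_le_pow_right (by norm_num) hk0)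
      exact_mod_cast this
    have e2 : (4 : ℝ) ^ k = 2 ^ k * 2 ^ k := by
      rw [← mul_pow]; norm_num
    rw [e2]
    calc S1 ≤ 2 ^ k * (3 * N) := hS1up
      _ ≤ 2 ^ k * (2 ^ k * (96 / 256)) := by
        apply mul_le_mul_of_nonneg_left _ hpow.le
        linarith
      _ = _ := by ring
  -- pairs
  have hpairs := Γ.pairs B k hk1
  have hpairsR : S2 ≤ S1 + ∑ m ∈ Finset.Ico 1 k, ((k : ℝ) - m) * 2 ^ (k - 1 - m) *
      (((Γ.NB B) ^ (2 * m)).trace : ℝ) := by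
    have e1 : S2 ≤ (((∑ x, ∑ y, (Γ.NB B ^ k) x y) +
      ∑ m ∈ Finset.Ico 1 k, (k - m) * 2 ^ (k - 1 - m) * ((Γ.NB B) ^ (2 * m)).trace : ℕ) : ℝ) := by
      rw [hS2]
      exact_mod_cast hpairs
    refine e1.trans (le_of_eq ?_)
    rw [Nat.cast_add, ← hS1]
    congr 1
    rw [Nat.cast_sum]
    refine Finset.sum_congr rfl fun m hm => ?_
    have hmk : m ≤ k := (Finset.mem_Ico.1 hm).2.le
    push_cast [Nat.cast_sub hmk]
    ring
  have hkey : (4 : ℝ) ^ k * (129 / 256) ≤ ∑ m ∈ Finset.Ico 1 k, ((k : ℝ) - m) * 2 ^ (k - 1 - m) *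
      (((Γ.NB B) ^ (2 * m)).trace : ℝ) := by linarith
  have h4k : (0 : ℝ) < 4 ^ k := by positivity
  have hconv : ∑ m ∈ Finset.Ico 1 k, ((k : ℝ) - m) * (1 / 2) ^ (k - m) *
      ((((Γ.NB B) ^ (2 * m)).trace : ℝ) / 4 ^ m) =
      2 / 4 ^ k * ∑ m ∈ Finset.Ico 1 k, ((k : ℝ) - m) * 2 ^ (k - 1 - m) *
      (((Γ.NB B) ^ (2 * m)).trace : ℝ) := by
    rw [Finset.mul_sum]
    refine Finset.sum_congr rfl fun m hm => ?_
    obtain ⟨q, hq⟩ : ∃ q, k = m + q + 1 := ⟨k - m - 1, by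
      have := (Finset.mem_Ico.1 hm).2
      omega⟩
    have e1 : k - 1 - m = q := by omega
    have e2 : k - m = q + 1 := by omega
    rw [e1, e2, hq]
    have e3 : (4 : ℝ) ^ (m + q + 1) = 4 ^ m * (2 ^ q * 2 ^ q * 4) := by
      rw [pow_add, pow_add, ← mul_pow]; norm_num; ring
    rw [e3, one_div, inv_pow]
    have h2q : (0 : ℝ) < 2 ^ q := by positivity
    have h4m : (0 : ℝ) < 4 ^ m := by positivity
    rw [pow_succ]
    field_simp
    ring
  rw [hconv]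
  have hfin : (2 : ℝ) / 4 ^ k * (4 ^ k * (129 / 256)) ≤ 2 / 4 ^ k *
      ∑ m ∈ Finset.Ico 1 k, ((k : ℝ) - m) * 2 ^ (k - 1 - m) *
      (((Γ.NB B) ^ (2 * m)).trace : ℝ) := mul_le_mul_of_nonneg_left hkey (by positivity)
  refine le_trans ?_ hfin
  have : (2 : ℝ) / 4 ^ k * (4 ^ k * (129 / 256)) = 129 / 128 := by field_simp; norm_num
  rw [this]
  norm_num

/-! ### sums -/

/-- a harmonic block sum -/
theorem harm_ge (k₀ : ℕ) (hk : 1 ≤ k₀) (j : ℕ) :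
    (j : ℝ) / 2 ≤ ∑ k ∈ Finset.Ico k₀ (2 ^ j * k₀), (1 : ℝ) / k := by
  induction j with
  | zero => simp
  | succ j ih =>
    have h1 : k₀ ≤ 2 ^ j * k₀ := Nat.le_mul_of_pos_left _ (by positivity)
    have h2 : 2 ^ j * k₀ ≤ 2 ^ (j + 1) * k₀ := by
      apply Nat.mul_le_mul_right
      exact Nat.pow_le_pow_right (by norm_num) (by omega)
    rw [← Finset.sum_Ico_consecutive _ h1 h2]
    have hpos : (0 : ℝ) < 2 ^ j * k₀ := by
      have : (0 : ℝ) < k₀ := by exact_mod_cast hk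
      positivity
    have h3 : (1 : ℝ) / 2 ≤ ∑ k ∈ Finset.Ico (2 ^ j * k₀) (2 ^ (j + 1) * k₀), (1 : ℝ) / k := by
      have h4 : ∀ k ∈ Finset.Ico (2 ^ j * k₀) (2 ^ (j + 1) * k₀),
          (1 : ℝ) / (2 * (2 ^ j * k₀)) ≤ 1 / k := by
        intro k hk'
        rw [Finset.mem_Ico] at hk'
        have hk1 : (0 : ℝ) < k := by
          have : 0 < 2 ^ j * k₀ := by positivity
          have : 0 < k := by omega
          exact_mod_cast this
        have hk2 : (k : ℝ) ≤ 2 * (2 ^ j * k₀) := by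
          have : k ≤ 2 * (2 ^ j * k₀) := by
            have := hk'.2
            rw [pow_succ] at this
            linarith
          exact_mod_cast this
        exact one_div_le_one_div_of_le hk1 hk2
      have h5 := Finset.card_nsmul_le_sum _ _ _ h4
      have h6 : (Finset.Ico (2 ^ j * k₀) (2 ^ (j + 1) * k₀)).card = 2 ^ j * k₀ := by
        rw [Nat.card_Ico, pow_succ]
        have : 2 ^ j * 2 * k₀ = 2 ^ j * k₀ + 2 ^ j * k₀ := by ring
        omega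
      rw [h6, nsmul_eq_mul] at h5
      refine le_trans (le_of_eq ?_) h5
      push_cast
      field_simp
    push_cast
    linarith

/-- `∑ q 2^(-q) ≤ 2` -/
theorem sum_q_le (n : ℕ) : ∑ q ∈ Finset.range n, (q : ℝ) * (1 / 2) ^ q ≤ 2 := by
  have h : ∀ n : ℕ, ∑ q ∈ Finset.range n, (q : ℝ) * (1 / 2) ^ q = 2 - 2 * (n + 1) * (1 / 2) ^ n := by
    intro n
    induction n with
    | zero => simp
    | succ n ih =>
      rw [Finset.sum_range_succ, ih, pow_succ]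
      push_cast
      ring
  rw [h]
  have : (0 : ℝ) ≤ 2 * (n + 1) * (1 / 2) ^ n := by positivity
  linarith

theorem double_sum (L k₀ : ℕ) (hk₀ : 1 ≤ k₀) (t : ℕ → ℝ) (ht : ∀ m, 0 ≤ t m)
    (h : ∀ k, k₀ ≤ k → k < L →
      1 ≤ ∑ m ∈ Finset.Ico 1 k, ((k : ℝ) - m) * (1 / 2) ^ (k - m) * t m) :
    ∑ k ∈ Finset.Ico k₀ L, (1 : ℝ) / k ≤ ∑ m ∈ Finset.Ico 1 L, 2 / m * t m := by
  have h1 : ∑ k ∈ Finset.Ico k₀ L, (1 : ℝ) / k ≤
      ∑ k ∈ Finset.Ico k₀ L, ∑ m ∈ Finset.Ico 1 k,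
        (1 / k) * (((k : ℝ) - m) * (1 / 2) ^ (k - m) * t m) := by
    refine Finset.sum_le_sum fun k hk => ?_
    rw [Finset.mem_Ico] at hk
    rw [← Finset.mul_sum]
    have := h k hk.1 hk.2
    have hk0 : (0 : ℝ) ≤ 1 / k := by positivity
    calc (1 : ℝ) / k = 1 / k * 1 := by ring
      _ ≤ _ := mul_le_mul_of_nonneg_left this hk0
  refine h1.trans ?_
  -- enlarge the range of `k` and exchange
  have hterm : ∀ k m : ℕ, m < k → 0 ≤ (1 / (k : ℝ)) * (((k : ℝ) - m) * (1 / 2) ^ (k - m) * t m) := by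
    intro k m hmk
    have : (0 : ℝ) ≤ (k : ℝ) - m := by
      have : (m : ℝ) ≤ k := by exact_mod_cast hmk.le
      linarith
    have := ht m
    positivity
  have h2 : ∑ k ∈ Finset.Ico k₀ L, ∑ m ∈ Finset.Ico 1 k,
        (1 / (k : ℝ)) * (((k : ℝ) - m) * (1 / 2) ^ (k - m) * t m) ≤
      ∑ k ∈ Finset.Ico 1 L, ∑ m ∈ Finset.Ico 1 k,
        (1 / (k : ℝ)) * (((k : ℝ) - m) * (1 / 2) ^ (k - m) * t m) := by
    apply Finset.sum_le_sum_of_subset_of_nonneg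
    · exact Finset.Ico_subset_Ico_left hk₀
    · intro k _ _
      exact Finset.sum_nonneg fun m hm => hterm k m (Finset.mem_Ico.1 hm).2
  refine h2.trans ?_
  have h3 : ∑ k ∈ Finset.Ico 1 L, ∑ m ∈ Finset.Ico 1 k,
        (1 / (k : ℝ)) * (((k : ℝ) - m) * (1 / 2) ^ (k - m) * t m) =
      ∑ m ∈ Finset.Ico 1 L, ∑ k ∈ Finset.Ico (m + 1) L,
        (1 / (k : ℝ)) * (((k : ℝ) - m) * (1 / 2) ^ (k - m) * t m) := by
    apply Finset.sum_comm'
    intro k m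
    simp only [Finset.mem_Ico]
    omega
  rw [h3]
  refine Finset.sum_le_sum fun m hm => ?_
  rw [Finset.mem_Ico] at hm
  have hm0 : (0 : ℝ) < m := by exact_mod_cast (by omega : 0 < m)
  have h4 : ∑ k ∈ Finset.Ico (m + 1) L,
        (1 / (k : ℝ)) * (((k : ℝ) - m) * (1 / 2) ^ (k - m) * t m) ≤
      ∑ k ∈ Finset.Ico (m + 1) L, (1 / (m : ℝ)) * (((k : ℝ) - m) * (1 / 2) ^ (k - m) * t m) := by
    refine Finset.sum_le_sum fun k hk => ?_
    rw [Finset.mem_Ico] at hk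
    have hkm : (m : ℝ) ≤ k := by exact_mod_cast (by omega : m ≤ k)
    have e1 : (1 : ℝ) / k ≤ 1 / m := one_div_le_one_div_of_le hm0 hkm
    apply mul_le_mul_of_nonneg_right e1
    have e2 : (0 : ℝ) ≤ (k : ℝ) - m := by linarith
    have := ht m
    positivity
  refine h4.trans ?_
  have h5 : ∑ k ∈ Finset.Ico (m + 1) L, (1 / (m : ℝ)) * (((k : ℝ) - m) * (1 / 2) ^ (k - m) * t m) =
      1 / m * t m * ∑ k ∈ Finset.Ico (m + 1) L, ((k : ℝ) - m) * (1 / 2) ^ (k - m) := by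
    rw [Finset.mul_sum]
    refine Finset.sum_congr rfl fun k _ => by ring
  rw [h5]
  have h6 : ∑ k ∈ Finset.Ico (m + 1) L, ((k : ℝ) - m) * (1 / 2) ^ (k - m) ≤ 2 := by
    have e1 : ∑ k ∈ Finset.Ico (m + 1) L, ((k : ℝ) - m) * (1 / 2) ^ (k - m) ≤
        ∑ k ∈ Finset.Ico m L, ((k : ℝ) - m) * (1 / 2) ^ (k - m) := by
      apply Finset.sum_le_sum_of_subset_of_nonneg
      · exact Finset.Ico_subset_Ico_left (by omega)
      · intro k hk _
        have : (m : ℝ) ≤ k := by exact_mod_cast (Finset.mem_Ico.1 hk).1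
        have e2 : (0 : ℝ) ≤ (k : ℝ) - m := by linarith
        positivity
    refine e1.trans ?_
    rw [Finset.sum_Ico_eq_sum_range]
    refine le_trans (le_of_eq ?_) (sum_q_le (L - m))
    refine Finset.sum_congr rfl fun q _ => ?_
    rw [show m + q - m = q by omega]
    push_cast
    ring
  calc 1 / (m : ℝ) * t m * ∑ k ∈ Finset.Ico (m + 1) L, ((k : ℝ) - m) * (1 / 2) ^ (k - m)
      ≤ 1 / (m : ℝ) * t m * 2 := by
        apply mul_le_mul_of_nonneg_left h6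
        have := ht m
        positivity
    _ = 2 / m * t m := by ring

theorem sum_gN_le (Γ : Cub V E) (A : Finset V) (d L : ℕ) :
    ∑ m ∈ Finset.Ico 1 L, (Γ.gN A d L (2 * m) : ℝ) / 4 ^ m ≤ Γ.gS A d L := by
  classical
  unfold Cub.gN Cub.gS
  have h1 : ∀ m ∈ Finset.Ico 1 L,
      ((((Γ.gd A d L).filter (fun C => (supp C).card = 2 * m)).card : ℕ) : ℝ) / 4 ^ m =
      ∑ C ∈ (Γ.gd A d L).filter (fun C => (supp C).card = 2 * m), (1 / 2 : ℝ) ^ (supp C).card := by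
    intro m _
    have : ∀ C ∈ (Γ.gd A d L).filter (fun C => (supp C).card = 2 * m),
        (1 / 2 : ℝ) ^ (supp C).card = 1 / 4 ^ m := by
      intro C hC
      rw [(Finset.mem_filter.1 hC).2, pow_mul, show ((1 / 2 : ℝ) ^ 2) = 1 / 4 by norm_num,
        one_div_pow]
    rw [Finset.sum_congr rfl this, Finset.sum_const, nsmul_eq_mul]
    ring
  rw [Finset.sum_congr rfl h1, ← Finset.sum_biUnion]
  · apply Finset.sum_le_sum_of_subset_of_nonneg
    · intro C hC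
      rw [Finset.mem_biUnion] at hC
      obtain ⟨m, _, hm⟩ := hC
      exact (Finset.mem_filter.1 hm).1
    · intro C _ _
      positivity
  · intro m _ m' _ hmm
    rw [Function.onFun, Finset.disjoint_left]
    intro C hC hC'
    apply hmm
    have e1 := (Finset.mem_filter.1 hC).2
    have e2 := (Finset.mem_filter.1 hC').2
    omega

theorem HypA.gS_ge {Γ : Cub V E} {A : Finset V} {ℓ d L K k₀ : ℕ} (h : HypA Γ A ℓ d L K k₀) :
    (K : ℝ) ≤ Γ.gS A d L := by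
  have h3 := h.k0_pos
  obtain ⟨hL, hd⟩ := h.big
  have hℓ := h.hℓ
  set S := Γ.gS A d L with hS
  have hS0 : 0 ≤ S := by
    rw [hS]
    unfold Cub.gS
    exact Finset.sum_nonneg fun _ _ => by positivity
  set B := Γ.mar A (4 * d) with hB
  set t : ℕ → ℝ := fun m => (((Γ.NB B) ^ (2 * m)).trace : ℝ) / 4 ^ m with ht
  have ht0 : ∀ m, 0 ≤ t m := fun m => by
    simp only [ht]
    positivity
  have hds := double_sum L k₀ (by omega) t ht0 (fun k hk hkL => h.step hk hkL)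
  have hharm := harm_ge k₀ (by omega) (18 * K)
  rw [← h.hL] at hharm
  set η : ℝ := 32 * (L : ℝ) ^ 3 * (4 * d + 1) * 2 ^ (4 * d) / 2 ^ (ℓ / 2 - 1) with hη
  have hη0 : 0 ≤ η := by rw [hη]; positivity
  have hηL : 2 * η * L ≤ 1 := by
    have e1 : (64 : ℝ) * (L : ℝ) ^ 2 ≤ 2 ^ d := by exact_mod_cast h.hd
    have e2 : (4 * (d : ℝ) + 1) ≤ 2 ^ d := by
      have : ∀ n : ℕ, 78 ≤ n → 4 * n + 1 ≤ 2 ^ n := by
        intro n hn
        induction n, hn using Nat.le_induction with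
        | base => norm_num
        | succ n hn ih => rw [pow_succ]; omega
      exact_mod_cast this d hd
    have e3 : (2 : ℝ) ^ (7 * d) ≤ 2 ^ (ℓ / 2 - 1) := pow_le_pow_right₀ (by norm_num) (by omega)
    rw [hη]
    have e4 : 2 * (32 * (L : ℝ) ^ 3 * (4 * d + 1) * 2 ^ (4 * d) / 2 ^ (ℓ / 2 - 1)) * L =
        64 * (L : ℝ) ^ 4 * (4 * d + 1) * 2 ^ (4 * d) / 2 ^ (ℓ / 2 - 1) := by ring
    rw [e4, div_le_one (by positivity)]
    refine le_trans ?_ e3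
    have e5 : (L : ℝ) ^ 4 * 4096 ≤ 2 ^ (2 * d) := by
      have := pow_le_pow_left₀ (by positivity) e1 2
      have e6 : (2 : ℝ) ^ (2 * d) = (2 ^ d) ^ 2 := by rw [← pow_mul, mul_comm]
      rw [e6]
      calc (L : ℝ) ^ 4 * 4096 = (64 * (L : ℝ) ^ 2) ^ 2 := by ring
        _ ≤ _ := this
    have e7 : (64 : ℝ) * (L : ℝ) ^ 4 ≤ 2 ^ (2 * d) := by
      have : (0 : ℝ) ≤ (L : ℝ) ^ 4 := by positivity
      linarith
    calc (64 : ℝ) * (L : ℝ) ^ 4 * (4 * d + 1) * 2 ^ (4 * d)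
        ≤ 2 ^ (2 * d) * 2 ^ d * 2 ^ (4 * d) := by
          gcongr
      _ = 2 ^ (7 * d) := by rw [← pow_add, ← pow_add]; congr 1; ring
  -- bound of `t m`
  have htm : ∀ m ∈ Finset.Ico 1 L, 2 / (m : ℝ) * t m ≤
      8 * ((Γ.gN A d L (2 * m) : ℝ) / 4 ^ m) + 2 * S * η := by
    intro m hm
    rw [Finset.mem_Ico] at hm
    have hm0 : (0 : ℝ) < m := by exact_mod_cast (by omega : 0 < m)
    have hm1 : (1 : ℝ) ≤ m := by exact_mod_cast hm.1
    have hcw := Γ.closed_walks h.free (by omega : 16 * d + 16 ≤ ℓ) (by omega : 2 * m ≤ 2 * L)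
      (by omega : 0 < 2 * m)
    rw [← hB, ← hS] at hcw
    have e0 : (2 : ℝ) ^ (2 * m) = 4 ^ m := by rw [pow_mul]; norm_num
    rw [e0] at hcw
    have h4m : (0 : ℝ) < 4 ^ m := by positivity
    have e1 : t m ≤ (2 * ((2 * m : ℕ) : ℝ) * Γ.gN A d L (2 * m) + 4 ^ m * S * η) / 4 ^ m := by
      simp only [ht]
      exact div_le_div_of_nonneg_right hcw h4m.le
    have e2 : 2 / (m : ℝ) * t m ≤ 2 / m *
        ((2 * ((2 * m : ℕ) : ℝ) * Γ.gN A d L (2 * m) + 4 ^ m * S * η) / 4 ^ m) :=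
      mul_le_mul_of_nonneg_left e1 (by positivity)
    refine e2.trans ?_
    have e3 : 2 / (m : ℝ) *
        ((2 * ((2 * m : ℕ) : ℝ) * Γ.gN A d L (2 * m) + 4 ^ m * S * η) / 4 ^ m) =
        8 * ((Γ.gN A d L (2 * m) : ℝ) / 4 ^ m) + 2 * S * η * (1 / m) := by
      push_cast
      field_simp
      ring
    rw [e3]
    have e4 : 2 * S * η * (1 / m) ≤ 2 * S * η * 1 := by
      apply mul_le_mul_of_nonneg_left _ (by positivity)
      rw [div_le_one hm0]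
      exact hm1
    linarith
  have hsum : ∑ m ∈ Finset.Ico 1 L, 2 / (m : ℝ) * t m ≤ 9 * S := by
    refine (Finset.sum_le_sum htm).trans ?_
    rw [Finset.sum_add_distrib, ← Finset.mul_sum, Finset.sum_const, Nat.card_Ico, nsmul_eq_mul]
    have e1 := sum_gN_le Γ A d L
    rw [← hS] at e1
    have e2 : ((L - 1 : ℕ) : ℝ) * (2 * S * η) ≤ L * (2 * S * η) := by
      apply mul_le_mul_of_nonneg_right _ (by positivity)
      exact_mod_cast (by omega : L - 1 ≤ L)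
    have e3 : (L : ℝ) * (2 * S * η) = S * (2 * η * L) := by ring
    have e4 : S * (2 * η * L) ≤ S * 1 := mul_le_mul_of_nonneg_left hηL hS0
    linarith
  have hfin : (9 : ℝ) * K ≤ 9 * S := by
    have e1 : ((18 * K : ℕ) : ℝ) / 2 = 9 * K := by push_cast; ring
    rw [e1] at hharm
    linarith
  linarith

end Pool.Agent.Lib.MP_af4270_co
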