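import Pool.Agent.Lib.MP_af4270_co.ADarts
import Pool.Agent.Lib.MP_af4270_co.MatPow

/-!
# PAN-A2: non-backtracking walks in regions without short cycles are unique

`no_closed`: there is no closed (as a based walk: start vertex = end vertex) non-backtracking
walk of length `1 ≤ n ≤ ℓ` inside `A`. Proof. Suppose there is one; take one of minimal length
`n ≥ 1` (over all base points and lists inside `A`). For every list `l` of darts put
`J l = ∑ d ∈ l, (single edge d.1) : E → ZMod 2`. Telescoping (`od_single`, induction on the chain)
gives `od (J l) z = [z = src] + [z = dst]` for every walk from `src` to `dst`, so `J l ∈ Z` for the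
closed walk, and `supp (J l) ⊆ EU A`, `(supp (J l)).card ≤ n ≤ ℓ`. By `Free` we get `J l = 0`.
But the edges of `l` are pairwise distinct: if darts number `i < j` use the same edge, then either
they are equal, and darts `i, ..., j-1` form a shorter closed walk, or dart `j` is the reverse of
dart `i`, and darts `i+1, ..., j-1` form a shorter closed walk from `hd (l i)` to itself (nonempty,
because `j = i + 1` is excluded by `st`; for a loop edge the first alternative or this one applies
as well). Hence `J l` is the indicator of a nonempty set: contradiction.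
(A loop `e` in `A` gives `D = single e ∈ Z` with one edge; this is the case `n = 1`.)

`walk_unique`: induction on `l.length + l'.length`. If both are empty done. If one is empty, the
other is a closed nonempty walk of length `≤ ℓ`: `no_closed`. If both start with the same dart,
remove it; if both end with the same dart, remove it (both are walks between the same points again).
Otherwise `l ++ (l'.map rv).reverse` is a closed non-backtracking walk inside `A`: at the junction
the last darts `a ≠ b` of `l`, `l'` have the same head, so `st a (rv b)` (use `rv (rv b) = b ≠ a`).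
Its length is `≤ ℓ`: contradiction to `no_closed`.

`NB_pow_le_one`: by `pow_apply_eq_card` applied to `r a b := st a b ∧ dIn A a ∧ dIn A b`
(`NB A = Matrix.of ...`), `(NB A ^ k) x y` counts lists of `k+1` darts; for `k ≥ 1` all darts are
in `A` and all lists are walks from `tl x` to `hd y` of length `k+1`, so `walk_unique` applies.
`k = 0`: the identity matrix.

`NB_pow_le`: `NB A ^ k = NB A ^ (k-k₀) * NB A ^ k₀`, entries of the second factor `≤ 1`,
row sums of the first `≤ 2^(k-k₀)`.
-/

set_option autoImplicit false
set_option linter.unusedSectionVars false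

namespace Pool.Agent.Lib.MP_af4270_co

open Finset

variable {V E : Type} [Fintype V] [DecidableEq V] [Fintype E] [DecidableEq E]

namespace Cub

variable (Γ : Cub V E)

theorem wk_cons {x y : V} {d : E × Bool} {l : List (E × Bool)} :
    Γ.Wk x y (d :: l) ↔ Γ.tl d = x ∧ (∀ d' ∈ l.head?, d' ≠ rv d) ∧ Γ.Wk (Γ.hd d) y l := by
  constructor
  · rintro ⟨h1, h2, h3, h4⟩
    rw [List.isChain_cons] at h1
    refine ⟨h3 d (by simp), fun d' hd' => (h1.1 d' hd').2, h1.2, ?_, ?_, ?_⟩
    · rintro rfl
      exact h4 d (by simp)
    · intro d' hd'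
      exact ((h1.1 d' hd').1).symm
    · intro d' hd'
      apply h4
      cases l with
      | nil => simp at hd'
      | cons a l => simpa [List.getLast?_cons_cons] using hd'
  · rintro ⟨h1, h2, h3, h4, h5, h6⟩
    refine ⟨List.isChain_cons.2 ⟨fun d' hd' => ⟨(h5 d' hd').symm, h2 d' hd'⟩, h3⟩, by simp, ?_, ?_⟩
    · intro d' hd'
      simp only [List.head?_cons, Option.mem_def, Option.some.injEq] at hd'
      rw [← hd', h1]
    · intro d' hd'
      cases l with
      | nil =>
        simp only [List.getLast?_singleton, Option.mem_def, Option.some.injEq] at hd'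
        rw [← hd']; exact h4 rfl
      | cons a l => exact h6 d' (by simpa [List.getLast?_cons_cons] using hd')

theorem wk_nil {x y : V} : Γ.Wk x y [] ↔ x = y := by
  simp [Wk]

/-- concatenation of walks -/
theorem Wk.append {x y z : V} {l l' : List (E × Bool)} (h : Γ.Wk x y l) (h' : Γ.Wk y z l')
    (hj : ∀ a ∈ l.getLast?, ∀ b ∈ l'.head?, b ≠ rv a) : Γ.Wk x z (l ++ l') := by
  induction l generalizing x with
  | nil =>
    rw [wk_nil] at h
    subst h
    simpa using h'
  | cons d l ih =>
    rw [wk_cons] at h
    obtain ⟨h1, h2, h3⟩ := h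
    rw [List.cons_append, wk_cons]
    refine ⟨h1, ?_, ih h3 ?_⟩
    · cases l with
      | nil =>
        intro d' hd'
        exact hj d (by simp) d' (by simpa using hd')
      | cons a l => simpa using h2
    · intro a ha b hb
      apply hj a _ b hb
      cases l with
      | nil => simp at ha
      | cons c l => simpa [List.getLast?_cons_cons] using ha

/-- a walk split at a position -/
theorem Wk.split {x z : V} {l l' : List (E × Bool)} (h : Γ.Wk x z (l ++ l')) :
    ∃ y, Γ.Wk x y l ∧ Γ.Wk y z l' := by
  induction l generalizing x with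
  | nil => exact ⟨x, (Γ.wk_nil).2 rfl, by simpa using h⟩
  | cons d l ih =>
    rw [List.cons_append, wk_cons] at h
    obtain ⟨h1, h2, h3⟩ := h
    obtain ⟨y, hy1, hy2⟩ := ih h3
    refine ⟨y, ?_, hy2⟩
    rw [wk_cons]
    refine ⟨h1, ?_, hy1⟩
    cases l with
    | nil => simp
    | cons a l => simpa using h2

/-- reversal of walks -/
theorem Wk.reverse {x y : V} {l : List (E × Bool)} (h : Γ.Wk x y l) :
    Γ.Wk y x (l.map rv).reverse := by
  induction l generalizing x with
  | nil => rw [wk_nil] at h; simp [wk_nil, h]
  | cons d l ih =>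
    rw [wk_cons] at h
    obtain ⟨h1, h2, h3⟩ := h
    rw [List.map_cons, List.reverse_cons]
    refine Wk.append Γ (ih h3) ?_ ?_
    · rw [wk_cons, wk_nil, tl_rv, hd_rv]
      exact ⟨rfl, by simp, h1⟩
    · intro a ha b hb
      simp only [List.head?_cons, Option.mem_def, Option.some.injEq] at hb
      subst hb
      cases l with
      | nil => simp at ha
      | cons c l =>
        simp only [List.map_cons, List.reverse_cons, List.getLast?_append, List.getLast?_singleton,
          Option.some_or, Option.mem_def, Option.some.injEq] at ha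
        subst ha
        rw [rv_rv]
        intro hc
        exact h2 c (by simp) hc.symm

/-- edge parity of a list of darts -/
def Jl (l : List (E × Bool)) : E → ZMod 2 := (l.map (fun d f => if f = d.1 then (1 : ZMod 2) else 0)).sum

theorem Jl_nil : Jl ([] : List (E × Bool)) = 0 := rfl

theorem Jl_cons (d : E × Bool) (l : List (E × Bool)) :
    Jl (d :: l) = (fun f => if f = d.1 then (1 : ZMod 2) else 0) + Jl l := by
  simp [Jl]

theorem Jl_eq_zero {l : List (E × Bool)} {e : E} (h : ∀ d ∈ l, d.1 ≠ e) : Jl l e = 0 := by
  induction l with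
  | nil => rfl
  | cons d l ih =>
    rw [Jl_cons, Pi.add_apply, ih (fun d' hd' => h d' (by simp [hd'])), if_neg, add_zero]
    exact fun hc => h d (by simp) hc.symm

theorem supp_Jl (l : List (E × Bool)) : supp (Jl l) ⊆ (l.map Prod.fst).toFinset := by
  intro e he
  rw [mem_supp] at he
  by_contra hc
  apply he
  apply Jl_eq_zero
  intro d hd hde
  apply hc
  simp only [List.mem_toFinset, List.mem_map]
  exact ⟨d, hd, hde⟩

theorem card_supp_Jl (l : List (E × Bool)) : (supp (Jl l)).card ≤ l.length := by
  refine (Finset.card_le_card (supp_Jl l)).trans ?_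
  refine (List.toFinset_card_le _).trans ?_
  simp

theorem Jl_nodup {l : List (E × Bool)} (h : (l.map Prod.fst).Nodup) {d : E × Bool} (hd : d ∈ l) :
    Jl l d.1 = 1 := by
  induction l with
  | nil => simp at hd
  | cons a l ih =>
    rw [List.map_cons, List.nodup_cons] at h
    rw [Jl_cons, Pi.add_apply]
    rcases List.mem_cons.1 hd with rfl | hd
    · rw [if_pos rfl, Jl_eq_zero, add_zero]
      intro b hb hba
      exact h.1 (List.mem_map.2 ⟨b, hb, hba⟩)
    · rw [ih h.2 hd, if_neg, zero_add]
      intro hc
      exact h.1 (List.mem_map.2 ⟨d, hd, hc⟩)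

theorem od_Jl {x y : V} {l : List (E × Bool)} (h : Γ.Wk x y l) (z : V) :
    Γ.od (Jl l) z = (if z = x then 1 else 0) + (if z = y then 1 else 0) := by
  induction l generalizing x with
  | nil =>
    rw [wk_nil] at h
    rw [Jl_nil, od_zero, h, zm_add_self]
  | cons d l ih =>
    rw [wk_cons] at h
    obtain ⟨h1, -, h3⟩ := h
    rw [Jl_cons, od_add, ih h3, od_single]
    have h2 : ((if z = Γ.s d.1 then 1 else 0) + (if z = Γ.t d.1 then 1 else 0) : ZMod 2)
        = (if z = x then 1 else 0) + (if z = Γ.hd d then 1 else 0) := by
      rw [← h1]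
      rcases d with ⟨e, b⟩
      cases b
      · rfl
      · rw [add_comm]; rfl
    rw [h2]
    have h4 := zm_add_self (if z = Γ.hd d then (1 : ZMod 2) else 0)
    linear_combination h4

omit [Fintype E] [DecidableEq E] in
theorem exists_dup {l : List (E × Bool)} (h : ¬ (l.map Prod.fst).Nodup) :
    ∃ l1 a l2 b l3, l = l1 ++ a :: (l2 ++ b :: l3) ∧ a.1 = b.1 := by
  induction l with
  | nil => simp at h
  | cons c l ih =>
    rw [List.map_cons, List.nodup_cons, not_and_or, not_not] at h
    rcases h with h | h
    · obtain ⟨b, hb, hbc⟩ := List.mem_map.1 h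
      obtain ⟨s, t, rfl⟩ := List.append_of_mem hb
      exact ⟨[], c, s, b, t, rfl, hbc.symm⟩
    · obtain ⟨l1, a, l2, b, l3, rfl, hab⟩ := ih h
      exact ⟨c :: l1, a, l2, b, l3, rfl, hab⟩

theorem no_closed {A : Finset V} {ℓ : ℕ} (hA : Γ.Free ℓ A) {x : V} {l : List (E × Bool)}
    (hl : Γ.Wk x x l) (hlA : ∀ d ∈ l, Γ.dIn A d) (h0 : l ≠ []) : ℓ < l.length := by
  induction hn : l.length using Nat.strong_induction_on generalizing x l with
  | _ n ih =>
    subst hn
    by_contra hlen
    have hZ : Jl l ∈ Γ.Z := by
      rw [mem_Z_iff_od]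
      intro z
      rw [Γ.od_Jl hl, zm_add_self]
    have hsub : supp (Jl l) ⊆ Γ.EU A := by
      intro e he
      have he' := supp_Jl l he
      simp only [List.mem_toFinset, List.mem_map] at he'
      obtain ⟨d, hd, rfl⟩ := he'
      have h1 := hlA d hd
      rw [mem_EU]
      rcases d with ⟨e, b⟩
      cases b
      · exact h1
      · exact ⟨h1.2, h1.1⟩
    have hJ0 : Jl l = 0 := by
      by_contra hne
      have h1 := hA _ hZ hne hsub
      have h2 := card_supp_Jl l
      omega
    have hnd : ¬ (l.map Prod.fst).Nodup := by
      intro hnd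
      obtain ⟨d, hd⟩ := List.exists_mem_of_ne_nil l h0
      have h1 := Jl_nodup hnd hd
      rw [hJ0] at h1
      exact zero_ne_one h1
    obtain ⟨l1, a, l2, b, l3, rfl, hab⟩ := exists_dup hnd
    obtain ⟨y, -, h2⟩ := Wk.split Γ hl
    have h2' := h2
    rw [← List.cons_append] at h2
    obtain ⟨z, h3, h4⟩ := Wk.split Γ h2
    rw [wk_cons] at h3 h4
    by_cases hEq : a = b
    · subst hEq
      have hcl : Γ.Wk (Γ.tl a) (Γ.tl a) (a :: l2) := by
        rw [wk_cons]
        refine ⟨rfl, h3.2.1, ?_⟩
        rw [h4.1]; exact h3.2.2
      have := ih (a :: l2).length (by simp; omega) hcl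
        (fun d hd => hlA d (by simp at hd ⊢; tauto)) (by simp) rfl
      simp only [List.length_append, List.length_cons] at hlen this
      omega
    · have hb : b = rv a := by
        rcases a with ⟨e, s⟩
        rcases b with ⟨f, t⟩
        simp only at hab
        subst hab
        simp only [rv, Prod.mk.injEq, true_and]
        cases s <;> cases t <;> simp_all
      have hne : l2 ≠ [] := by
        rintro rfl
        rw [List.nil_append, wk_cons] at h2'
        exact h2'.2.1 b (by simp) hb
      have hcl : Γ.Wk (Γ.hd a) (Γ.hd a) l2 := by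
        have h5 := h3.2.2
        rw [← h4.1, hb, tl_rv] at h5
        exact h5
      have := ih l2.length (by simp; omega) hcl
        (fun d hd => hlA d (by simp; tauto)) hne rfl
      simp only [List.length_append, List.length_cons] at hlen
      omega

theorem walk_unique {A : Finset V} {ℓ : ℕ} (hA : Γ.Free ℓ A) {x y : V} {l l' : List (E × Bool)}
    (hl : Γ.Wk x y l) (hl' : Γ.Wk x y l') (hlA : ∀ d ∈ l, Γ.dIn A d)
    (hlA' : ∀ d ∈ l', Γ.dIn A d) (hlen : l.length + l'.length ≤ ℓ) : l = l' := by
  induction hn : l.length using Nat.strong_induction_on generalizing y l l' with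
  | _ n ih =>
    subst hn
    rcases List.eq_nil_or_concat l with rfl | ⟨l1, a, rfl⟩
    · rcases List.eq_nil_or_concat l' with rfl | ⟨l2, b, rfl⟩
      · rfl
      · rw [wk_nil] at hl
        subst hl
        have := Γ.no_closed hA hl' hlA' (by simp)
        simp only [List.length_nil] at hlen
        omega
    · rcases List.eq_nil_or_concat l' with rfl | ⟨l2, b, rfl⟩
      · rw [wk_nil] at hl'
        subst hl'
        have := Γ.no_closed hA hl hlA (by simp)
        simp only [List.length_nil] at hlen
        omega
      · rw [List.concat_eq_append] at hl hlA hlen ⊢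
        rw [List.concat_eq_append] at hl' hlA' hlen ⊢
        by_cases hab : a = b
        · subst hab
          obtain ⟨z, h1, h2⟩ := Wk.split Γ hl
          obtain ⟨z', h1', h2'⟩ := Wk.split Γ hl'
          rw [wk_cons] at h2 h2'
          have hz : z = z' := by rw [← h2.1, ← h2'.1]
          subst hz
          simp only [List.length_append, List.length_cons, List.length_nil] at hlen
          have := ih l1.length (by simp) h1 h1' (fun d hd => hlA d (by simp [hd]))
            (fun d hd => hlA' d (by simp [hd])) (by omega) rfl
          rw [this]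
        · exfalso
          have hrev := Wk.reverse Γ hl'
          have hcl := Wk.append Γ hl hrev (by
            intro c hc d hd
            simp only [List.getLast?_append, List.getLast?_singleton, Option.some_or,
              Option.mem_def, Option.some.injEq] at hc
            simp only [List.map_append, List.map_cons, List.map_nil, List.reverse_append,
              List.reverse_cons, List.reverse_nil, List.nil_append, List.cons_append,
              List.head?_cons, Option.mem_def, Option.some.injEq] at hd
            subst hc hd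
            intro h
            apply hab
            rw [← rv_rv a, ← h, rv_rv])
          have := Γ.no_closed hA hcl (by
            intro d hd
            rcases List.mem_append.1 hd with hd | hd
            · exact hlA d hd
            · rw [List.mem_reverse, List.mem_map] at hd
              obtain ⟨c, hc, rfl⟩ := hd
              exact (Γ.dIn_rv A c).2 (hlA' c hc)) (by simp)
          simp only [List.length_append, List.length_reverse, List.length_map] at this hlen
          omega

theorem chain_dIn {A : Finset V} {l : List (E × Bool)}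
    (h : l.IsChain (fun a b => Γ.st a b ∧ Γ.dIn A a ∧ Γ.dIn A b)) (h2 : 2 ≤ l.length) :
    ∀ d ∈ l, Γ.dIn A d := by
  induction l with
  | nil => simp
  | cons a l ih =>
    cases l with
    | nil => simp at h2
    | cons b l =>
      rw [List.isChain_cons_cons] at h
      intro d hd
      rcases List.mem_cons.1 hd with rfl | hd
      · exact h.1.2.1
      · cases l with
        | nil =>
          simp only [List.mem_singleton] at hd
          rw [hd]; exact h.1.2.2
        | cons c l => exact ih h.2 (by simp) d hd

theorem NB_pow_le_one {A : Finset V} {ℓ k : ℕ} (hA : Γ.Free ℓ A) (hk : 2 * (k + 1) ≤ ℓ)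
    (x y : E × Bool) : (Γ.NB A ^ k) x y ≤ 1 := by
  rcases Nat.eq_zero_or_pos k with rfl | hk0
  · rw [pow_zero, Matrix.one_apply]
    split_ifs <;> simp
  have h1 := pow_apply_eq_card (fun a b => Γ.st a b ∧ Γ.dIn A a ∧ Γ.dIn A b) k x y
  have h2 : (Matrix.of fun a b => if Γ.st a b ∧ Γ.dIn A a ∧ Γ.dIn A b then (1 : ℕ) else 0)
      = Γ.NB A := rfl
  rw [h2] at h1
  rw [h1]
  have hss : Subsingleton {l : List (E × Bool) // l.length = k + 1 ∧
      l.IsChain (fun a b => Γ.st a b ∧ Γ.dIn A a ∧ Γ.dIn A b) ∧ l.head? = some x ∧
          l.getLast? = some y} := by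
    constructor
    rintro ⟨l, hl1, hl2, hl3, hl4⟩ ⟨l', hl1', hl2', hl3', hl4'⟩
    have hw : ∀ l : List (E × Bool), l.length = k + 1 →
      l.IsChain (fun a b => Γ.st a b ∧ Γ.dIn A a ∧ Γ.dIn A b) → l.head? = some x →
          l.getLast? = some y → Γ.Wk (Γ.tl x) (Γ.hd y) l := by
      intro l h1 h2 h3 h4
      refine ⟨h2.imp (fun a b h => h.1), ?_, ?_, ?_⟩
      · rintro rfl
        simp at h1
      · intro d hd
        rw [h3] at hd
        simp only [Option.mem_def, Option.some.injEq] at hd
        rw [hd]
      · intro d hd
        rw [h4] at hd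
        simp only [Option.mem_def, Option.some.injEq] at hd
        rw [hd]
    apply Subtype.ext
    change l = l'
    exact Γ.walk_unique hA (hw l hl1 hl2 hl3 hl4) (hw l' hl1' hl2' hl3' hl4')
      (Γ.chain_dIn hl2 (by omega)) (Γ.chain_dIn hl2' (by omega)) (by omega)
  exact Finite.card_le_one_iff_subsingleton.2 hss

theorem NB_pow_le {A : Finset V} {ℓ k k₀ : ℕ} (hA : Γ.Free ℓ A) (hk₀ : 2 * (k₀ + 1) ≤ ℓ)
    (hk : k₀ ≤ k) (x y : E × Bool) : (Γ.NB A ^ k) x y ≤ 2 ^ (k - k₀) := by
  obtain ⟨m, rfl⟩ := Nat.exists_eq_add_of_le' hk
  rw [pow_add, Matrix.mul_apply, Nat.add_sub_cancel]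
  calc ∑ z, (Γ.NB A ^ m) x z * (Γ.NB A ^ k₀) z y ≤ ∑ z, (Γ.NB A ^ m) x z * 1 := by
        apply Finset.sum_le_sum
        intro z _
        exact Nat.mul_le_mul_left _ (Γ.NB_pow_le_one hA hk₀ z y)
    _ = ∑ z, (Γ.NB A ^ m) x z := by simp
    _ ≤ 2 ^ m := Γ.NB_pow_row A m x

end Cub

end Pool.Agent.Lib.MP_af4270_co
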