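import Pool.Agent.Lib.MP_af4270_co.Guard

/-!
# Part C: lossless two-terminal networks, levels

`Net Y a b`: a connected vertex set `Y` of a cubic multigraph with two terminals `a`, `b`; all
vertices have 2 or 3 darts inside `Y`, the terminals have 2, and no `{a, b}`-join inside `Y`
contains a cycle.  `Bg` are the vertices with 3 darts inside `Y` and the terminals.
`lev v` is the least number of big vertices (without `a`) on a walk from `a` to `v`.
-/

set_option autoImplicit false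
set_option linter.unusedSectionVars false

namespace Pool.Agent.Lib.MP_af4270_co

open Finset

variable {V E : Type} [Fintype V] [DecidableEq V] [Fintype E] [DecidableEq E]

namespace Cub

variable (Γ : Cub V E)

/-- the edge `e` joins `u` and `v` -/
def jn (e : E) (u v : V) : Prop := (Γ.s e = u ∧ Γ.t e = v) ∨ (Γ.s e = v ∧ Γ.t e = u)

/-- number of darts at `y` inside `Y` -/
def dg (Y : Finset V) (y : V) : ℕ := ((Γ.dt y).filter (fun d => d.1 ∈ Γ.EU Y)).card

/-- `J` is an `{a, b}`-join inside `Y` -/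
def Join (Y : Finset V) (a b : V) (J : E → ZMod 2) : Prop :=
  supp J ⊆ Γ.EU Y ∧ ∀ z, Γ.od J z = (if z = a then 1 else 0) + (if z = b then 1 else 0)

/-- lossless two-terminal network -/
structure Net (Y : Finset V) (a b : V) : Prop where
  conn : Γ.Conn Y
  ha : a ∈ Y
  hb : b ∈ Y
  ne : a ≠ b
  deg : ∀ y ∈ Y, Γ.dg Y y = 2 ∨ Γ.dg Y y = 3
  da : Γ.dg Y a = 2
  db : Γ.dg Y b = 2
  lossless : ∀ J, Γ.Join Y a b J → ∀ D ∈ Γ.Z, D ≠ 0 → ¬ supp D ⊆ supp J

/-- big vertices -/
def Bg (Y : Finset V) (a b : V) : Finset V := Y.filter (fun y => Γ.dg Y y = 3 ∨ y = a ∨ y = b)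

/-- reachable from `a` with `k` big vertices -/
inductive Reach (Y : Finset V) (a b : V) : ℕ → V → Prop
  | base : Reach Y a b 0 a
  | small {k : ℕ} {u v : V} {e : E} : Reach Y a b k u → e ∈ Γ.EU Y → Γ.jn e u v →
      v ∉ Γ.Bg Y a b → Reach Y a b k v
  | big {k : ℕ} {u v : V} {e : E} : Reach Y a b k u → e ∈ Γ.EU Y → Γ.jn e u v →
      v ∈ Γ.Bg Y a b → Reach Y a b (k + 1) v

/-- the level of a vertex -/
noncomputable def lev (Y : Finset V) (a b : V) (v : V) : ℕ := sInf {k | Γ.Reach Y a b k v}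

variable {Γ}

theorem jn.symm {e : E} {u v : V} (h : Γ.jn e u v) : Γ.jn e v u := by
  rcases h with ⟨h1, h2⟩ | ⟨h1, h2⟩
  · exact Or.inr ⟨h1, h2⟩
  · exact Or.inl ⟨h1, h2⟩

theorem jn.mem_EU {e : E} {u v : V} {U : Finset V} (h : Γ.jn e u v) :
    e ∈ Γ.EU U ↔ u ∈ U ∧ v ∈ U := by
  rw [Cub.mem_EU]
  rcases h with ⟨h1, h2⟩ | ⟨h1, h2⟩
  · rw [h1, h2]
  · rw [h1, h2]; exact and_comm

theorem jn_st (e : E) : Γ.jn e (Γ.s e) (Γ.t e) := Or.inl ⟨rfl, rfl⟩

theorem jn.mem_inc {e : E} {u v : V} (h : Γ.jn e u v) : e ∈ Γ.inc u := by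
  rw [Cub.mem_inc]
  rcases h with ⟨h1, _⟩ | ⟨_, h2⟩
  · exact Or.inl h1
  · exact Or.inr h2

theorem jn_of_inc {e : E} {u : V} (h : e ∈ Γ.inc u) : ∃ v, Γ.jn e u v := by
  rw [Cub.mem_inc] at h
  rcases h with h | h
  · exact ⟨Γ.t e, Or.inl ⟨h, rfl⟩⟩
  · exact ⟨Γ.s e, Or.inr ⟨rfl, h⟩⟩

theorem mem_Bg {Y : Finset V} {a b v : V} :
    v ∈ Γ.Bg Y a b ↔ v ∈ Y ∧ (Γ.dg Y v = 3 ∨ v = a ∨ v = b) := by simp [Bg]

theorem Bg_subset {Y : Finset V} {a b : V} : Γ.Bg Y a b ⊆ Y := Finset.filter_subset _ _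

theorem Reach.mem {Y : Finset V} {a b : V} (ha : a ∈ Y) {k : ℕ} {v : V}
    (h : Γ.Reach Y a b k v) : v ∈ Y := by
  induction h with
  | base => exact ha
  | small _ he hj _ _ => exact (hj.mem_EU.1 he).2
  | big _ he hj _ _ => exact (hj.mem_EU.1 he).2

theorem Net.reach_all {Y : Finset V} {a b : V} (N : Γ.Net Y a b) {v : V} (hv : v ∈ Y) :
    ∃ k, Γ.Reach Y a b k v := by
  classical
  set S : Finset V := Y.filter (fun v => ∃ k, Γ.Reach Y a b k v) with hS
  have hstep : ∀ {u v : V} {e : E}, Γ.jn e u v → e ∈ Γ.EU Y → u ∈ S → v ∈ S := by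
    intro u v e hj he hu
    rw [hS, mem_filter] at hu ⊢
    obtain ⟨_, k, hk⟩ := hu
    refine ⟨(hj.mem_EU.1 he).2, ?_⟩
    by_cases hb : v ∈ Γ.Bg Y a b
    · exact ⟨k + 1, Reach.big hk he hj hb⟩
    · exact ⟨k, Reach.small hk he hj hb⟩
  have hcl : Γ.Cl Y S := by
    rw [cl_iff]
    intro e
    constructor
    · intro h1 h2
      exact hstep (jn_st e) ((jn_st e).mem_EU.2 ⟨(mem_filter.1 h1).1, h2⟩) h1
    · intro h1 h2
      exact hstep (jn_st e).symm ((jn_st e).mem_EU.2 ⟨h2, (mem_filter.1 h1).1⟩) h1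
  have haS : a ∈ S := by rw [hS, mem_filter]; exact ⟨N.ha, 0, Reach.base⟩
  have hSY : S = Y := N.conn.cl_eq (Finset.filter_subset _ _) hcl ⟨a, haS⟩
  rw [← hSY, hS, mem_filter] at hv
  exact hv.2

theorem Net.reach_lev {Y : Finset V} {a b : V} (N : Γ.Net Y a b) {v : V} (hv : v ∈ Y) :
    Γ.Reach Y a b (Γ.lev Y a b v) v := by
  have h : {k | Γ.Reach Y a b k v}.Nonempty := N.reach_all hv
  exact Nat.sInf_mem h

theorem lev_le {Y : Finset V} {a b : V} {k : ℕ} {v : V} (h : Γ.Reach Y a b k v) :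
    Γ.lev Y a b v ≤ k := Nat.sInf_le h

theorem lev_a {Y : Finset V} {a b : V} : Γ.lev Y a b a = 0 := by
  have := lev_le (Reach.base (Γ := Γ) (Y := Y) (a := a) (b := b))
  omega

theorem Net.lev_step {Y : Finset V} {a b : V} (N : Γ.Net Y a b) {u v : V} {e : E}
    (hj : Γ.jn e u v) (he : e ∈ Γ.EU Y) : Γ.lev Y a b v ≤ Γ.lev Y a b u + 1 := by
  have hu := N.reach_lev (hj.mem_EU.1 he).1
  by_cases hb : v ∈ Γ.Bg Y a b
  · exact lev_le (Reach.big hu he hj hb)
  · have := lev_le (Reach.small hu he hj hb)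
    omega

theorem Net.lev_step_small {Y : Finset V} {a b : V} (N : Γ.Net Y a b) {u v : V} {e : E}
    (hj : Γ.jn e u v) (he : e ∈ Γ.EU Y) (hb : v ∉ Γ.Bg Y a b) :
    Γ.lev Y a b v ≤ Γ.lev Y a b u :=
  lev_le (Reach.small (N.reach_lev (hj.mem_EU.1 he).1) he hj hb)

/-- an edge from level `≤ m` to level `> m` ends at a big vertex of level `m + 1` -/
theorem Net.cross {Y : Finset V} {a b : V} (N : Γ.Net Y a b) {u v : V} {e : E}
    (hj : Γ.jn e u v) (he : e ∈ Γ.EU Y) {m : ℕ} (hu : Γ.lev Y a b u ≤ m)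
    (hv : m < Γ.lev Y a b v) :
    v ∈ Γ.Bg Y a b ∧ Γ.lev Y a b v = m + 1 ∧ Γ.lev Y a b u = m := by
  have h1 := N.lev_step hj he
  by_cases hb : v ∈ Γ.Bg Y a b
  · exact ⟨hb, by omega, by omega⟩
  · have := N.lev_step_small hj he hb
    omega

/-- a big vertex has a neighbour one level lower -/
theorem Net.lev_pred {Y : Finset V} {a b : V} (N : Γ.Net Y a b) {v : V}
    (hv : v ∈ Γ.Bg Y a b) (hva : v ≠ a) :
    ∃ u e, Γ.jn e u v ∧ e ∈ Γ.EU Y ∧ Γ.lev Y a b v = Γ.lev Y a b u + 1 := by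
  have h := N.reach_lev (Bg_subset hv)
  generalize hk : Γ.lev Y a b v = k at h
  cases h with
  | base => exact absurd rfl hva
  | small h1 he hj hb => exact absurd hv hb
  | @big k u _ e h1 he hj hb =>
    refine ⟨u, e, hj, he, ?_⟩
    have h2 := lev_le h1
    have h3 := N.lev_step hj he
    omega

theorem Net.lev_pos {Y : Finset V} {a b : V} (N : Γ.Net Y a b) {v : V}
    (hv : v ∈ Γ.Bg Y a b) (hva : v ≠ a) : 1 ≤ Γ.lev Y a b v := by
  obtain ⟨u, e, _, _, h⟩ := N.lev_pred hv hva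
  omega

theorem Net.a_big {Y : Finset V} {a b : V} (N : Γ.Net Y a b) : a ∈ Γ.Bg Y a b :=
  mem_Bg.2 ⟨N.ha, Or.inr (Or.inl rfl)⟩

theorem Net.b_big {Y : Finset V} {a b : V} (N : Γ.Net Y a b) : b ∈ Γ.Bg Y a b :=
  mem_Bg.2 ⟨N.hb, Or.inr (Or.inr rfl)⟩

/-- below a small vertex there is a big vertex of the same level with a small neighbour -/
theorem Net.lev_small {Y : Finset V} {a b : V} (N : Γ.Net Y a b) {v : V} (hvY : v ∈ Y)
    (hv : v ∉ Γ.Bg Y a b) :
    ∃ z u e, z ∈ Γ.Bg Y a b ∧ Γ.lev Y a b z = Γ.lev Y a b v ∧ Γ.jn e z u ∧ e ∈ Γ.EU Y ∧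
      u ∉ Γ.Bg Y a b := by
  have key : ∀ k v, Γ.Reach Y a b k v → v ∉ Γ.Bg Y a b → Γ.lev Y a b v = k →
      ∃ z u e, z ∈ Γ.Bg Y a b ∧ Γ.lev Y a b z = k ∧ Γ.jn e z u ∧ e ∈ Γ.EU Y ∧
        u ∉ Γ.Bg Y a b := by
    intro k v h
    induction h with
    | base => intro h1; exact absurd N.a_big h1
    | @small k u v e h1 he hj hb ih =>
      intro _ h3
      have h4 := lev_le h1
      have h5 := N.lev_step_small hj he hb
      have h6 : Γ.lev Y a b u = k := by omega
      by_cases hu : u ∈ Γ.Bg Y a b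
      · exact ⟨u, v, e, hu, h6, hj, he, hb⟩
      · exact ih hu h6
    | big _ _ _ hb _ => intro h1; exact absurd hb h1
  exact key _ v (N.reach_lev hvY) hv rfl

/-! ### the path -/

theorem vs_add_subset (R D : E → ZMod 2) : Γ.vs (R + D) ⊆ Γ.vs R ∪ Γ.vs D := by
  intro x hx
  obtain ⟨e, he, hne⟩ := Γ.mem_vs.1 hx
  rw [mem_union]
  by_cases h : R e = 0
  · right
    refine Γ.mem_vs.2 ⟨e, he, ?_⟩
    intro h'
    exact hne (by simp [h, h'])
  · left; exact Γ.mem_vs.2 ⟨e, he, h⟩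

theorem vs_single_subset {e : E} {u v : V} (hj : Γ.jn e u v) :
    Γ.vs (fun f => if f = e then 1 else 0) ⊆ {u, v} := by
  intro x hx
  obtain ⟨f, hf, hne⟩ := Γ.mem_vs.1 hx
  by_cases h : f = e
  · subst h
    rw [mem_insert, mem_singleton]
    rcases hj with ⟨h1, h2⟩ | ⟨h1, h2⟩ <;> rcases hf with h3 | h3 <;> simp_all
  · simp [h] at hne

theorem od_single_jn {e : E} {u v : V} (hj : Γ.jn e u v) (z : V) :
    Γ.od (fun f => if f = e then 1 else 0) z
      = (if z = u then 1 else 0) + (if z = v then 1 else 0) := by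
  rw [od_single]
  rcases hj with ⟨h1, h2⟩ | ⟨h1, h2⟩
  · rw [h1, h2]
  · rw [h1, h2, add_comm]

/-- joins with few big vertices -/
theorem exists_join_reach {Y : Finset V} {a b : V} {k : ℕ} {v : V}
    (h : Γ.Reach Y a b k v) : ∃ J : E → ZMod 2, Γ.Join Y a v J ∧
      (Γ.Bg Y a b ∩ (Γ.vs J ∪ {a, v})).card ≤ k + 1 := by
  induction h with
  | base =>
    refine ⟨0, ⟨by intro e he; simp at he, fun z => ?_⟩, ?_⟩
    · rw [od_zero]; exact (zm_add_self _).symm
    · have h0 : Γ.vs (0 : E → ZMod 2) = ∅ := by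
        ext x; simp [Γ.mem_vs]
      rw [h0, empty_union]
      refine (Finset.card_le_card Finset.inter_subset_right).trans ?_
      simp
  | @small k u v e h1 he hj hb ih =>
    obtain ⟨J, hJ, hc⟩ := ih
    have hsub : Γ.Bg Y a b ∩ (Γ.vs (J + fun f => if f = e then 1 else 0) ∪ {a, v})
        ⊆ Γ.Bg Y a b ∩ (Γ.vs J ∪ {a, u}) := by
      intro x hx
      rw [mem_inter] at hx ⊢
      refine ⟨hx.1, ?_⟩
      have hxv : x ≠ v := fun h => hb (h ▸ hx.1)
      rcases mem_union.1 hx.2 with h2 | h2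
      · rcases mem_union.1 (vs_add_subset _ _ h2) with h3 | h3
        · exact mem_union_left _ h3
        · have := vs_single_subset hj h3
          simp only [mem_insert, mem_singleton, mem_union] at this ⊢
          tauto
      · simp only [mem_insert, mem_singleton, mem_union] at h2 ⊢
        tauto
    refine ⟨J + fun f => if f = e then 1 else 0, ⟨?_, fun z => ?_⟩,
      (Finset.card_le_card hsub).trans hc⟩
    · intro f hf
      by_cases hfe : f = e
      · rw [hfe]; exact he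
      · refine hJ.1 (mem_supp.2 fun h => ?_)
        rw [mem_supp, Pi.add_apply, h] at hf
        simp [hfe] at hf
    · rw [od_add, hJ.2, od_single_jn hj]
      have h2 : (1 : ZMod 2) + 1 = 0 := by decide
      by_cases h4 : z = a <;> by_cases h5 : z = u <;> by_cases h6 : z = v <;>
        simp only [h4, h5, h6, if_true, if_false] <;> simp_all
  | @big k u v e h1 he hj hb ih =>
    obtain ⟨J, hJ, hc⟩ := ih
    have hsub : Γ.Bg Y a b ∩ (Γ.vs (J + fun f => if f = e then 1 else 0) ∪ {a, v})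
        ⊆ insert v (Γ.Bg Y a b ∩ (Γ.vs J ∪ {a, u})) := by
      intro x hx
      rw [mem_inter] at hx
      rw [mem_insert]
      by_cases hxv : x = v
      · exact Or.inl hxv
      · right
        rw [mem_inter]
        refine ⟨hx.1, ?_⟩
        rcases mem_union.1 hx.2 with h2 | h2
        · rcases mem_union.1 (vs_add_subset _ _ h2) with h3 | h3
          · exact mem_union_left _ h3
          · have := vs_single_subset hj h3
            simp only [mem_insert, mem_singleton, mem_union] at this ⊢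
            tauto
        · simp only [mem_insert, mem_singleton, mem_union] at h2 ⊢
          tauto
    refine ⟨J + fun f => if f = e then 1 else 0, ⟨?_, fun z => ?_⟩, ?_⟩
    · intro f hf
      by_cases hfe : f = e
      · rw [hfe]; exact he
      · refine hJ.1 (mem_supp.2 fun h => ?_)
        rw [mem_supp, Pi.add_apply, h] at hf
        simp [hfe] at hf
    · rw [od_add, hJ.2, od_single_jn hj]
      have h2 : (1 : ZMod 2) + 1 = 0 := by decide
      by_cases h4 : z = a <;> by_cases h5 : z = u <;> by_cases h6 : z = v <;>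
        simp only [h4, h5, h6, if_true, if_false] <;> simp_all
    · refine (Finset.card_le_card hsub).trans ((Finset.card_insert_le _ _).trans ?_)
      omega

/-- a shortest path: a join with at most `lev b + 1` big vertices -/
structure IsP (Γ : Cub V E) (Y : Finset V) (a b : V) (P : E → ZMod 2) : Prop where
  join : Γ.Join Y a b P
  few : (Γ.Bg Y a b ∩ Γ.vs P).card ≤ Γ.lev Y a b b + 1

theorem Net.exists_P {Y : Finset V} {a b : V} (N : Γ.Net Y a b) : ∃ P, IsP Γ Y a b P := by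
  obtain ⟨J, hJ, hc⟩ := exists_join_reach (N.reach_lev N.hb)
  refine ⟨J, hJ, (Finset.card_le_card ?_).trans hc⟩
  exact Finset.inter_subset_inter_left Finset.subset_union_left

end Cub

end Pool.Agent.Lib.MP_af4270_co
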