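import Pool.Agent.Lib.MP_af4270_co.BDefs
import Pool.Agent.Lib.MP_af4270_co.CNet

/-!
# Adjacency of vertices; reformulations of `bt`, `Cl`, `Conn`
-/

set_option autoImplicit false
set_option linter.unusedSectionVars false

namespace Pool.Agent.Lib.MP_af4270_co

open Finset

variable {V E : Type} [Fintype V] [DecidableEq V] [Fintype E] [DecidableEq E]

namespace Cub

variable (Γ : Cub V E)

/-- adjacency -/
def Aj (u v : V) : Prop := ∃ e, Γ.jn e u v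

variable {Γ}

theorem Aj.symm {u v : V} (h : Γ.Aj u v) : Γ.Aj v u := by
  obtain ⟨e, he⟩ := h; exact ⟨e, he.symm⟩

theorem mem_bt_iff_jn {U W : Finset V} {e : E} :
    e ∈ Γ.bt U W ↔ ∃ u v, Γ.jn e u v ∧ u ∈ U ∧ v ∈ W := by
  rw [Γ.mem_bt]
  constructor
  · rintro (⟨h1, h2⟩ | ⟨h1, h2⟩)
    · exact ⟨_, _, Γ.jn_st e, h1, h2⟩
    · exact ⟨_, _, (Γ.jn_st e).symm, h2, h1⟩
  · rintro ⟨u, v, ⟨rfl, rfl⟩ | ⟨rfl, rfl⟩, h1, h2⟩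
    · exact Or.inl ⟨h1, h2⟩
    · exact Or.inr ⟨h2, h1⟩

theorem bt_nonempty_iff {U W : Finset V} :
    (Γ.bt U W).Nonempty ↔ ∃ u ∈ U, ∃ v ∈ W, Γ.Aj u v := by
  constructor
  · rintro ⟨e, he⟩
    obtain ⟨u, v, h, hu, hv⟩ := mem_bt_iff_jn.1 he
    exact ⟨u, hu, v, hv, e, h⟩
  · rintro ⟨u, hu, v, hv, e, h⟩
    exact ⟨e, mem_bt_iff_jn.2 ⟨u, v, h, hu, hv⟩⟩

theorem bt_empty_iff {U W : Finset V} :
    Γ.bt U W = ∅ ↔ ∀ u ∈ U, ∀ v ∈ W, ¬ Γ.Aj u v := by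
  rw [← Finset.not_nonempty_iff_eq_empty, bt_nonempty_iff]
  push Not
  rfl

theorem cl_iff_aj {U S : Finset V} :
    Γ.Cl U S ↔ ∀ u ∈ S, ∀ v ∈ U, Γ.Aj u v → v ∈ S := by
  rw [cl_iff]
  constructor
  · rintro h u hu v hv ⟨e, ⟨rfl, rfl⟩ | ⟨rfl, rfl⟩⟩
    · exact (h e).1 hu hv
    · exact (h e).2 hu hv
  · intro h e
    exact ⟨fun h1 h2 => h _ h1 _ h2 ⟨e, Γ.jn_st e⟩,
      fun h1 h2 => h _ h1 _ h2 ⟨e, (Γ.jn_st e).symm⟩⟩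

/-- an edge leaving a proper nonempty subset of a connected set -/
theorem Conn.exists_aj {U S : Finset V} (hU : Γ.Conn U) (hS : S ⊆ U) (h0 : S.Nonempty)
    (h1 : S ≠ U) : ∃ u ∈ S, ∃ v ∈ U, v ∉ S ∧ Γ.Aj u v := by
  obtain ⟨u, hu, v, hv, h⟩ := bt_nonempty_iff.1 (hU.2 S hS h0 h1)
  rw [mem_sdiff] at hv
  exact ⟨u, hu, v, hv.1, hv.2, h⟩

theorem comp_aj {U : Finset V} {x u v : V} (hu : u ∈ Γ.comp U x) (hv : v ∈ U)
    (h : Γ.Aj u v) : v ∈ Γ.comp U x := cl_iff_aj.1 (comp_cl U x) u hu v hv h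

theorem Conn.subset_of_disj {S T : Finset V} (hT : Γ.Conn T)
    (hTS : (T ∩ S).Nonempty) (hout : ∀ u ∈ S, ∀ v, v ∉ S → Γ.Aj u v → v ∉ T) : T ⊆ S := by
  by_contra hcon
  have h1 : T ∩ S ≠ T := fun h => hcon (Finset.inter_eq_left.1 h)
  obtain ⟨u, hu, v, hv, hv', h⟩ := hT.exists_aj Finset.inter_subset_left hTS h1
  rw [mem_inter] at hu hv'
  exact hout u hu.2 v (fun h => hv' ⟨hv, h⟩) h hv

theorem mem_bd_iff_jn {U : Finset V} {e : E} :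
    e ∈ Γ.bd U ↔ ∃ u v, Γ.jn e u v ∧ u ∈ U ∧ v ∉ U := by
  rw [bd, mem_bt_iff_jn]
  simp only [mem_compl]

/-- a vertex of a cycle has a neighbour on it -/
theorem Att.aj {O : E → ZMod 2} {a : V} (h : Γ.Att O a) : ∃ o ∈ Γ.vs O, Γ.Aj a o := by
  obtain ⟨u, hu, v, hv, h'⟩ := bt_nonempty_iff.1 h.2
  rw [mem_singleton] at hu
  subst hu
  exact ⟨v, hv, h'⟩

end Cub

end Pool.Agent.Lib.MP_af4270_co
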