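import Pool.Agent.Lib.MP_af4270_co.BIndep

/-!
# PAN-B8: existence of the families, marked vertices

`exists_fam`: let `𝒟` be a set of pairwise vertex-disjoint singles with at most `ℓ` edges, of maximal
cardinality (all such sets are subsets of `univ : Finset (E → ZMod 2)`). `free`: if `D ∈ Z`, `D ≠ 0`,
`supp D ⊆ EU (univ \ ⋃ vs)`, `|supp D| ≤ ℓ`, take a single `D' ⊆ D` (`exists_single`), `vs D'` is disjoint
from all `vs C`, `C ∈ 𝒟`, and `insert D' 𝒟` is larger (`D' ∉ 𝒟` as `vs D'` is nonempty): contradiction.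
`I`: a subset of `𝒟` with the properties `nadj`, `ind`, of maximal cardinality; `imax`: otherwise
`insert C I` has the properties (`Ind.symm`, `bt_comm`).

`card_bd_single`: `supp C ⊆ EU (vs C)`, `|supp C| = |vs C|` (`card_vs`) and `card_bd_add`.

`card_nb`: the map which sends an outer neighbour `x` of `O` to an edge of `bt {x} (vs O) ⊆ bd (vs O)` is
injective (the end of the edge outside `vs O` is `x`).

`card_adj`: to a `D ∈ 𝒟`, `D ∉ I`, `AdjI I D` we assign a pair (J, e), `J ∈ I`, `e ∈ bd (vs J)`,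
`e ∈ bt (vs D) (vs J)`; injective: the end of `e` outside `vs J` is on `vs D`, and the members of `𝒟` are
disjoint.

`card_mrk`: marked vertices: on `J ∈ I` (at most `t ℓ`), outer neighbours of `J ∈ I` (at most `t ℓ`),
on `D ∈ 𝒟 \ I` adjacent to `I` (at most `t ℓ * ℓ`). (`D ∈ I` with `x ∈ vs D` is of the first kind.)
-/

set_option autoImplicit false
set_option linter.unusedSectionVars false

namespace Pool.Agent.Lib.MP_af4270_co

open Finset

variable {V E : Type} [Fintype V] [DecidableEq V] [Fintype E] [DecidableEq E]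

namespace Cub

variable (Γ : Cub V E)

theorem exists_fam (ℓ : ℕ) : ∃ 𝒟 I, Fam Γ ℓ 𝒟 I := by
  classical
  obtain ⟨P, hP⟩ : ∃ P : Finset (E → ZMod 2) → Prop, P = fun 𝒟 => (∀ C ∈ 𝒟, Γ.Single C) ∧
    (∀ C ∈ 𝒟, (supp C).card ≤ ℓ) ∧
    (∀ C ∈ 𝒟, ∀ C' ∈ 𝒟, C ≠ C' → Disjoint (Γ.vs C) (Γ.vs C')) := ⟨_, rfl⟩
  obtain ⟨𝒟, h𝒟, hmax⟩ := Finset.exists_max_image
    (univ.filter (fun 𝒟 : Finset (E → ZMod 2) => P 𝒟)) Finset.card
    ⟨∅, by rw [mem_filter, hP]; simp⟩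
  rw [mem_filter] at h𝒟
  have h𝒟P := h𝒟.2
  rw [hP] at h𝒟P
  obtain ⟨hsing, hlen, hdisj⟩ := h𝒟P
  have hfree : Γ.Free ℓ (univ \ 𝒟.biUnion Γ.vs) := by
    intro D hD hD0 hDs
    by_contra hcon
    push Not at hcon
    obtain ⟨e, he⟩ := supp_nonempty hD0
    obtain ⟨C, hC, hCs, _⟩ := Γ.exists_single hD (mem_supp.1 he)
    have hCvs : Γ.vs C ⊆ univ \ 𝒟.biUnion Γ.vs := Γ.supp_subset_EU_iff.1 (hCs.trans hDs)
    have hCd : ∀ C' ∈ 𝒟, Disjoint (Γ.vs C) (Γ.vs C') := by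
      intro C' hC'
      rw [Finset.disjoint_left]
      intro x hx hx'
      have := hCvs hx
      rw [mem_sdiff, mem_biUnion] at this
      exact this.2 ⟨C', hC', hx'⟩
    have hCn : C ∉ 𝒟 := by
      intro h
      obtain ⟨x, hx⟩ := Γ.vs_nonempty hC.2.1
      exact (Finset.disjoint_left.1 (hCd C h)) hx hx
    have hins : P (insert C 𝒟) := by
      rw [hP]
      refine ⟨?_, ?_, ?_⟩
      · intro C' hC'
        rw [mem_insert] at hC'
        rcases hC' with rfl | h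
        · exact hC
        · exact hsing _ h
      · intro C' hC'
        rw [mem_insert] at hC'
        rcases hC' with rfl | h
        · exact (Finset.card_le_card hCs).trans hcon
        · exact hlen _ h
      · intro C₁ h₁ C₂ h₂ hne
        rw [mem_insert] at h₁ h₂
        rcases h₁ with rfl | h₁
        · rcases h₂ with rfl | h₂
          · exact absurd rfl hne
          · exact hCd _ h₂
        · rcases h₂ with rfl | h₂
          · exact (hCd _ h₁).symm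
          · exact hdisj _ h₁ _ h₂ hne
    have := hmax (insert C 𝒟) (by rw [mem_filter]; exact ⟨mem_univ _, hins⟩)
    rw [Finset.card_insert_of_notMem hCn] at this
    omega
  obtain ⟨Q, hQ⟩ : ∃ Q : Finset (E → ZMod 2) → Prop, Q = fun I => I ⊆ 𝒟 ∧
    (∀ C ∈ I, ∀ C' ∈ I, C ≠ C' → Γ.bt (Γ.vs C) (Γ.vs C') = ∅) ∧
    (∀ C ∈ I, ∀ C' ∈ I, C ≠ C' → Γ.Ind C C') := ⟨_, rfl⟩
  obtain ⟨I, hI, hImax⟩ := Finset.exists_max_image
    (univ.filter (fun I : Finset (E → ZMod 2) => Q I)) Finset.card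
    ⟨∅, by rw [mem_filter, hQ]; simp⟩
  rw [mem_filter] at hI
  have hIQ := hI.2
  rw [hQ] at hIQ
  obtain ⟨hsub, hnadj, hind⟩ := hIQ
  refine ⟨𝒟, I, hsing, hlen, hdisj, hfree, hsub, hnadj, hind, ?_⟩
  intro C hC𝒟 hCI hadj
  by_contra hcon
  push Not at hcon
  have hbt : ∀ J ∈ I, Γ.bt (Γ.vs C) (Γ.vs J) = ∅ := by
    intro J hJ
    by_contra hne
    exact hadj ⟨J, hJ, Finset.nonempty_iff_ne_empty.2 hne⟩
  have hins : Q (insert C I) := by
    rw [hQ]
    refine ⟨?_, ?_, ?_⟩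
    · intro C' hC'
      rw [mem_insert] at hC'
      rcases hC' with rfl | h
      · exact hC𝒟
      · exact hsub h
    · intro C₁ h₁ C₂ h₂ hne
      rw [mem_insert] at h₁ h₂
      rcases h₁ with rfl | h₁
      · rcases h₂ with rfl | h₂
        · exact absurd rfl hne
        · exact hbt _ h₂
      · rcases h₂ with rfl | h₂
        · rw [Γ.bt_comm]; exact hbt _ h₁
        · exact hnadj _ h₁ _ h₂ hne
    · intro C₁ h₁ C₂ h₂ hne
      rw [mem_insert] at h₁ h₂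
      rcases h₁ with rfl | h₁
      · rcases h₂ with rfl | h₂
        · exact absurd rfl hne
        · exact hcon _ h₂
      · rcases h₂ with rfl | h₂
        · exact Ind.symm Γ (hcon _ h₁)
        · exact hind _ h₁ _ h₂ hne
  have := hImax (insert C I) (by rw [mem_filter]; exact ⟨mem_univ _, hins⟩)
  rw [Finset.card_insert_of_notMem hCI] at this
  omega

theorem card_bd_single {C : E → ZMod 2} (hC : Γ.Single C) :
    (Γ.bd (Γ.vs C)).card ≤ (supp C).card := by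
  have h1 := Γ.card_bd_add (Γ.vs C)
  have h2 := Γ.card_vs hC.1
  have h3 := Finset.card_le_card (Γ.supp_subset_EU_vs C)
  omega

open Classical in
theorem card_nb {O : E → ZMod 2} (hO : Γ.Single O) :
    (univ.filter (fun x => Γ.Att O x)).card ≤ (supp O).card := by
  refine le_trans ?_ (Γ.card_bd_single hO)
  have h1 : ∀ x, Γ.Att O x → ∃ e, e ∈ Γ.bt {x} (Γ.vs O) := fun x hx => hx.2
  rcases (univ.filter (fun x => Γ.Att O x)).eq_empty_or_nonempty with he | ⟨x₀, hx₀⟩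
  · rw [he]; simp
  · rw [mem_filter] at hx₀
    obtain ⟨e₀, _⟩ := h1 x₀ hx₀.2
    have h2 : ∀ x, ∃ e, Γ.Att O x → e ∈ Γ.bt {x} (Γ.vs O) := by
      intro x
      by_cases hx : Γ.Att O x
      · obtain ⟨e, he⟩ := h1 x hx
        exact ⟨e, fun _ => he⟩
      · exact ⟨e₀, fun h => absurd h hx⟩
    choose f hf using h2
    refine Finset.card_le_card_of_injOn f ?_ ?_
    · intro x hx
      have hx' : Γ.Att O x := (mem_filter.1 hx).2
      have h3 := hf x hx'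
      change f x ∈ Γ.bd (Γ.vs O)
      rw [Γ.mem_bt, mem_singleton, mem_singleton] at h3
      rw [Γ.mem_bd]
      rcases h3 with ⟨h4, h5⟩ | ⟨h4, h5⟩
      · right; rw [h4]; exact ⟨hx'.1, h5⟩
      · left; rw [h5]; exact ⟨h4, hx'.1⟩
    · intro x hx y hy hxy
      have hx' : Γ.Att O x := (mem_filter.1 hx).2
      have hy' : Γ.Att O y := (mem_filter.1 hy).2
      have h3 := hf x hx'
      have h4 := hf y hy'
      rw [← hxy] at h4
      rw [Γ.mem_bt, mem_singleton, mem_singleton] at h3 h4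
      rcases h3 with ⟨h5, h6⟩ | ⟨h5, h6⟩
      · rcases h4 with ⟨h7, h8⟩ | ⟨h7, h8⟩
        · rw [← h5, ← h7]
        · exact absurd (h5 ▸ h7) hx'.1
      · rcases h4 with ⟨h7, h8⟩ | ⟨h7, h8⟩
        · exact absurd (h6 ▸ h8) hx'.1
        · rw [← h6, ← h8]

open Classical in
/-- marked vertices: on a member of `I`, adjacent to a member of `I`, or on a member of `𝒟` which is
adjacent to `I` -/
noncomputable def mrk (𝒟 I : Finset (E → ZMod 2)) : Finset V :=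
  univ.filter (fun x => (∃ J ∈ I, x ∈ Γ.vs J ∨ (Γ.bt {x} (Γ.vs J)).Nonempty) ∨
    ∃ D ∈ 𝒟, Γ.AdjI I D ∧ x ∈ Γ.vs D)

end Cub

open Classical in
theorem Fam.card_adj {Γ : Cub V E} {ℓ t : ℕ} {𝒟 I : Finset (E → ZMod 2)} (F : Fam Γ ℓ 𝒟 I)
    (ht : I.card ≤ t) : (𝒟.filter (fun D => D ∉ I ∧ Γ.AdjI I D)).card ≤ t * ℓ := by
  have hb : (I.biUnion (fun J => Γ.bd (Γ.vs J))).card ≤ t * ℓ := by
    refine (Finset.card_biUnion_le_card_mul I _ ℓ fun J hJ => ?_).trans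
      (Nat.mul_le_mul_right ℓ ht)
    exact (Γ.card_bd_single (F.single J (F.sub hJ))).trans (F.len J (F.sub hJ))
  refine le_trans ?_ hb
  have h1 : ∀ D, D ∈ 𝒟.filter (fun D => D ∉ I ∧ Γ.AdjI I D) →
      ∃ e, ∃ J ∈ I, e ∈ Γ.bt (Γ.vs D) (Γ.vs J) := by
    intro D hD
    rw [mem_filter] at hD
    obtain ⟨J, hJ, e, he⟩ := hD.2.2
    exact ⟨e, J, hJ, he⟩
  rcases (𝒟.filter (fun D => D ∉ I ∧ Γ.AdjI I D)).eq_empty_or_nonempty with he | ⟨D₀, hD₀⟩
  · rw [he]; simp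
  · obtain ⟨e₀, _⟩ := h1 D₀ hD₀
    have h2 : ∀ D, ∃ e, D ∈ 𝒟.filter (fun D => D ∉ I ∧ Γ.AdjI I D) →
        ∃ J ∈ I, e ∈ Γ.bt (Γ.vs D) (Γ.vs J) := by
      intro D
      by_cases hD : D ∈ 𝒟.filter (fun D => D ∉ I ∧ Γ.AdjI I D)
      · obtain ⟨e, he⟩ := h1 D hD
        exact ⟨e, fun _ => he⟩
      · exact ⟨e₀, fun h => absurd h hD⟩
    choose f hf using h2
    have hdis : ∀ D ∈ 𝒟.filter (fun D => D ∉ I ∧ Γ.AdjI I D), ∀ J ∈ I, ∀ x, x ∈ Γ.vs D →
        x ∉ Γ.vs J := by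
      intro D hD J hJ x hx hx'
      rw [mem_filter] at hD
      have hne : D ≠ J := fun h => hD.2.1 (h ▸ hJ)
      exact (Finset.disjoint_left.1 (F.disj D hD.1 J (F.sub hJ) hne)) hx hx'
    refine Finset.card_le_card_of_injOn f ?_ ?_
    · intro D hD
      have hD' : D ∈ 𝒟.filter (fun D => D ∉ I ∧ Γ.AdjI I D) := hD
      obtain ⟨J, hJ, he⟩ := hf D hD'
      change f D ∈ I.biUnion (fun J => Γ.bd (Γ.vs J))
      rw [mem_biUnion]
      refine ⟨J, hJ, ?_⟩
      rw [Γ.mem_bt] at he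
      rw [Γ.mem_bd]
      rcases he with ⟨h4, h5⟩ | ⟨h4, h5⟩
      · right; exact ⟨hdis D hD' J hJ _ h4, h5⟩
      · left; exact ⟨h4, hdis D hD' J hJ _ h5⟩
    · intro D hD D' hD' hDD
      have hDm : D ∈ 𝒟.filter (fun D => D ∉ I ∧ Γ.AdjI I D) := hD
      have hDm' : D' ∈ 𝒟.filter (fun D => D ∉ I ∧ Γ.AdjI I D) := hD'
      obtain ⟨J, hJ, h3⟩ := hf D hDm
      obtain ⟨J', hJ', h4⟩ := hf D' hDm'
      rw [← hDD] at h4
      by_contra hne
      have hdd := Finset.disjoint_left.1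
        (F.disj D (mem_filter.1 hDm).1 D' (mem_filter.1 hDm').1 hne)
      rw [Γ.mem_bt] at h3 h4
      rcases h3 with ⟨h5, h6⟩ | ⟨h5, h6⟩
      · rcases h4 with ⟨h7, h8⟩ | ⟨h7, h8⟩
        · exact hdd h5 h7
        · exact hdis D' hDm' J hJ _ h8 h6
      · rcases h4 with ⟨h7, h8⟩ | ⟨h7, h8⟩
        · exact hdis D' hDm' J hJ _ h7 h5
        · exact hdd h6 h8

theorem Fam.card_mrk {Γ : Cub V E} {ℓ t : ℕ} {𝒟 I : Finset (E → ZMod 2)} (F : Fam Γ ℓ 𝒟 I)
    (hℓ : 1 ≤ ℓ) (ht : I.card ≤ t) : (Γ.mrk 𝒟 I).card ≤ 3 * t * ℓ ^ 2 := by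
  classical
  have hsub : Γ.mrk 𝒟 I ⊆ (I.biUnion Γ.vs ∪ I.biUnion (fun J => univ.filter (fun x => Γ.Att J x)))
      ∪ (𝒟.filter (fun D => D ∉ I ∧ Γ.AdjI I D)).biUnion Γ.vs := by
    intro x hx
    unfold Cub.mrk at hx
    rw [mem_filter] at hx
    rw [mem_union, mem_union, mem_biUnion, mem_biUnion, mem_biUnion]
    rcases hx.2 with ⟨J, hJ, h⟩ | ⟨D, hD, h1, h2⟩
    · by_cases hxJ : x ∈ Γ.vs J
      · exact Or.inl (Or.inl ⟨J, hJ, hxJ⟩)
      · rcases h with h | h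
        · exact absurd h hxJ
        · left; right
          refine ⟨J, hJ, ?_⟩
          rw [mem_filter]
          exact ⟨mem_univ _, hxJ, h⟩
    · by_cases hDI : D ∈ I
      · exact Or.inl (Or.inl ⟨D, hDI, h2⟩)
      · right
        refine ⟨D, ?_, h2⟩
        rw [mem_filter]
        exact ⟨hD, hDI, h1⟩
  have h1 : (I.biUnion Γ.vs).card ≤ t * ℓ := by
    refine (Finset.card_biUnion_le_card_mul I _ ℓ fun J hJ => ?_).trans
      (Nat.mul_le_mul_right ℓ ht)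
    rw [Γ.card_vs (F.single J (F.sub hJ)).1]
    exact F.len J (F.sub hJ)
  have h2 : (I.biUnion (fun J => univ.filter (fun x => Γ.Att J x))).card ≤ t * ℓ := by
    refine (Finset.card_biUnion_le_card_mul I _ ℓ fun J hJ => ?_).trans
      (Nat.mul_le_mul_right ℓ ht)
    exact (Γ.card_nb (F.single J (F.sub hJ))).trans (F.len J (F.sub hJ))
  have h3 : ((𝒟.filter (fun D => D ∉ I ∧ Γ.AdjI I D)).biUnion Γ.vs).card ≤ t * ℓ * ℓ := by
    refine (Finset.card_biUnion_le_card_mul _ _ ℓ fun D hD => ?_).trans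
      (Nat.mul_le_mul_right ℓ (F.card_adj ht))
    rw [mem_filter] at hD
    rw [Γ.card_vs (F.single D hD.1).1]
    exact F.len D hD.1
  have h4 := Finset.card_le_card hsub
  have h5 := Finset.card_union_le (I.biUnion Γ.vs ∪
    I.biUnion (fun J => univ.filter (fun x => Γ.Att J x)))
    ((𝒟.filter (fun D => D ∉ I ∧ Γ.AdjI I D)).biUnion Γ.vs)
  have h6 := Finset.card_union_le (I.biUnion Γ.vs)
    (I.biUnion (fun J => univ.filter (fun x => Γ.Att J x)))
  have h7 : t * ℓ ≤ t * ℓ * ℓ := Nat.le_mul_of_pos_right _ hℓ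
  have h8 : 3 * t * ℓ ^ 2 = 3 * (t * ℓ * ℓ) := by ring
  rw [h8]
  omega

end Pool.Agent.Lib.MP_af4270_co
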