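import Pool.Agent.Lib.MP_af4270_co.BClean
import Pool.Agent.Lib.MP_af4270_co.BExist

/-!
# PAN-B9: enumeration of a chain; a clean run gives a strip

`exists_enum`: distinct members `C, C'` of the chain are vertex-disjoint (`F.disj`), so one of
`W C' ⊆ W C \ vs C`, `W C ⊆ W C' \ vs C'` holds (`Sep.nested`), `vs C ⊆ W C` is nonempty, so the cardinalities
`|W C|` are distinct. Sort the chain by decreasing `|W C|` (for instance: list of the chain sorted by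
the relation, or induction on the chain removing the element with the smallest `|W|`); extend `c` by a
dummy value (`0`) for `i ≥ N`.

`Enum.disj_Xs`: for `i < j`, `j + 1 < N` (hence `i + 1 ≤ j`): `Xs j ⊆ W (c j) ⊆ W (c (i+1))` (or equal when
`j = i + 1`), disjoint from `Xs i`.

`chain_strip`: `X j = Xs (i₀ + j)`, `C j = c (i₀ + j)`.
 * `conn` `Sep.conn_diff`, `disj` `disj_Xs`, `single`, `len` from `F`, `sub` `Sep.vs_sub_diff`.
 * edges between `L (c j)` and `W (c j)` end on `vs (c j)` (`bt_LW`), and `L (c (j+1)) = L (c j) ∪ Xs j` (`L_eq`).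
 * `nbr`: by `bd_diff` an edge leaving `Xs i` is in `bt (L (c i)) (vs (c i))`, or in `bt (Xs i) (vs (c (i+1)))`,
   or in `bt (Xs i) (vs O)`. The last set is empty as `Xs i` is clean. In the second case the edge is in
   `bt (Xs i) (Xs (i+1))` (`vs (c (i+1)) ⊆ Xs (i+1)`). In the first case let `y ∈ L (c i) = L (c (i-1)) ∪ Xs (i-1)`
   be its end; if `y ∈ L (c (i-1))` then its other end, in `W (c i) ⊆ W (c (i-1))`, is on `vs (c (i-1))` and on
   `vs (c i)`: contradiction (disjoint). So `y ∈ Xs (i-1)`.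
 * `left`: `Xs i ⊆ L (c (i+1))`, `Xs (i+1) ⊆ W (c (i+1))`, `bt_LW`.
 * `nz`: `bt (Xs i₀) (Xs (i₀+1)) = bt (L (c (i₀+1))) (W (c (i₀+1)))`: `⊆` clear; `⊇`: an edge of the right side ends
   on `vs (c (i₀+1)) ⊆ Xs (i₀+1)`, its other end is in `L (c (i₀+1)) = L (c i₀) ∪ Xs i₀`, and not in `L (c i₀)`
   as above. Use `Sep.nonzero`.
 * last claim: `Fam.clean` for `C₁ = c (i₀+j)`, `C₂ = c (i₀+j+1)` (`hcons`: a member `D = c l` strictly
   between would have `i₀ + j < l < i₀ + j + 1`: for `l ≤ i₀+j`, `W (c (i₀+j)) ⊆ W (c l)` so not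
   `W D ⊆ W C₁ \ vs C₁`, as `vs C₁ ⊆ W C₁` is nonempty; for `l ≥ i₀+j+1` similarly with the second part).
   The hypotheses `hI, hadj, hOX` follow from `Disjoint (Xs ..) (mrk 𝒟 I)`.
-/

set_option autoImplicit false
set_option linter.unusedSectionVars false

namespace Pool.Agent.Lib.MP_af4270_co

open Finset

variable {V E : Type} [Fintype V] [DecidableEq V] [Fintype E] [DecidableEq E]

namespace Cub

variable (Γ : Cub V E)

/-- layers of a chain -/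
def Xs (O : E → ZMod 2) (a : V) (c : ℕ → (E → ZMod 2)) (i : ℕ) : Finset V :=
  Γ.Wc O a (c i) \ Γ.Wc O a (c (i + 1))

/-- `c 0, ..., c (N-1)` is the chain of the label `(O, a, b)`, in decreasing order of `Wc` -/
structure Enum (𝒟 I : Finset (E → ZMod 2)) (O : E → ZMod 2) (a b : V)
    (c : ℕ → (E → ZMod 2)) (N : ℕ) : Prop where
  mem : ∀ i < N, c i ∈ Γ.chain 𝒟 I O a b
  surj : ∀ C ∈ Γ.chain 𝒟 I O a b, ∃ i < N, c i = C
  nest : ∀ i j, i < j → j < N → Γ.Wc O a (c j) ⊆ Γ.Wc O a (c i) \ Γ.vs (c i)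

theorem Enum.W_mono {Γ : Cub V E} {𝒟 I : Finset (E → ZMod 2)} {O : E → ZMod 2} {a b : V}
    {c : ℕ → (E → ZMod 2)} {N : ℕ} (h : Γ.Enum 𝒟 I O a b c N) {i j : ℕ} (hij : i ≤ j)
    (hj : j < N) : Γ.Wc O a (c j) ⊆ Γ.Wc O a (c i) := by
  rcases Nat.eq_or_lt_of_le hij with h1 | h1
  · rw [h1]
  · exact (h.nest i j h1 hj).trans Finset.sdiff_subset

theorem Enum.disj_Xs_lt {Γ : Cub V E} {𝒟 I : Finset (E → ZMod 2)} {O : E → ZMod 2} {a b : V}
    {c : ℕ → (E → ZMod 2)} {N : ℕ} (h : Γ.Enum 𝒟 I O a b c N) {i j : ℕ}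
    (hj : j + 1 < N) (hij : i < j) : Disjoint (Γ.Xs O a c i) (Γ.Xs O a c j) := by
  rw [Finset.disjoint_left]
  intro x hx hx'
  unfold Xs at hx hx'
  rw [mem_sdiff] at hx hx'
  exact hx.2 (h.W_mono (i := i + 1) (j := j) (by omega) (by omega) hx'.1)

theorem Enum.disj_Xs {Γ : Cub V E} {𝒟 I : Finset (E → ZMod 2)} {O : E → ZMod 2} {a b : V}
    {c : ℕ → (E → ZMod 2)} {N : ℕ} (h : Γ.Enum 𝒟 I O a b c N) {i j : ℕ} (hi : i + 1 < N)
    (hj : j + 1 < N) (hij : i ≠ j) : Disjoint (Γ.Xs O a c i) (Γ.Xs O a c j) := by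
  rcases Nat.lt_or_gt_of_ne hij with h1 | h1
  · exact h.disj_Xs_lt hj h1
  · exact (h.disj_Xs_lt hi h1).symm

theorem bch_chain {Γ : Cub V E} {𝒟 I : Finset (E → ZMod 2)} {O : E → ZMod 2} {a b : V}
    {C : E → ZMod 2} (h : C ∈ Γ.chain 𝒟 I O a b) : C ∈ 𝒟 ∧ Γ.Sep O a b C := by
  simp only [chain, mem_filter] at h
  exact ⟨h.1, h.2.2.2⟩

theorem Enum.sep {Γ : Cub V E} {𝒟 I : Finset (E → ZMod 2)} {O : E → ZMod 2} {a b : V}
    {c : ℕ → (E → ZMod 2)} {N : ℕ} (h : Γ.Enum 𝒟 I O a b c N) {i : ℕ} (hi : i < N) :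
    Γ.Sep O a b (c i) := (bch_chain (h.mem i hi)).2

theorem Enum.disj_vs {Γ : Cub V E} {𝒟 I : Finset (E → ZMod 2)} {O : E → ZMod 2} {a b : V}
    {c : ℕ → (E → ZMod 2)} {N : ℕ} (h : Γ.Enum 𝒟 I O a b c N) {i j : ℕ} (hij : i < j)
    (hj : j < N) {x : V} (hx : x ∈ Γ.vs (c i)) (hx' : x ∈ Γ.vs (c j)) : False := by
  have h1 := h.nest i j hij hj ((h.sep hj).vs_sub_W hx')
  exact (mem_sdiff.1 h1).2 hx

/-- an edge between `L (c (i+1))` and `W (c (i+1))` goes from `Xs i` to `vs (c (i+1))` -/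
theorem Enum.key {Γ : Cub V E} {𝒟 I : Finset (E → ZMod 2)} {O : E → ZMod 2} {a b : V}
    {c : ℕ → (E → ZMod 2)} {N : ℕ} (h : Γ.Enum 𝒟 I O a b c N) {i : ℕ} (hi : i + 1 < N)
    {x y : V} (hl : Γ.bsLk x y) (hx : x ∈ Γ.Lc O a (c (i + 1)))
    (hy : y ∈ Γ.Wc O a (c (i + 1))) : x ∈ Γ.Xs O a c i ∧ y ∈ Γ.vs (c (i + 1)) := by
  have s1 := h.sep (i := i) (by omega)
  have s2 := h.sep hi
  have hn := h.nest i (i + 1) (by omega) hi
  have hyv := s2.bs_LW hl hx hy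
  refine ⟨?_, hyv⟩
  rw [s1.L_eq s2 hn, mem_union] at hx
  rcases hx with hx | hx
  · exfalso
    have h3 : y ∈ Γ.Wc O a (c i) := (mem_sdiff.1 (hn hy)).1
    have h4 := s1.bs_LW hl hx h3
    exact h.disj_vs (i := i) (j := i + 1) (by omega) hi h4 hyv
  · exact hx

theorem Enum.Xs_sub_L {Γ : Cub V E} {𝒟 I : Finset (E → ZMod 2)} {O : E → ZMod 2} {a b : V}
    {c : ℕ → (E → ZMod 2)} {N : ℕ} (h : Γ.Enum 𝒟 I O a b c N) {i : ℕ} (hi : i + 1 < N) :
    Γ.Xs O a c i ⊆ Γ.Lc O a (c (i + 1)) := by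
  have s1 := h.sep (i := i) (by omega)
  have s2 := h.sep hi
  have hn := h.nest i (i + 1) (by omega) hi
  rw [s1.L_eq s2 hn]
  exact Finset.subset_union_right

theorem Enum.Xs_sub_W {Γ : Cub V E} {O : E → ZMod 2} {a : V}
    {c : ℕ → (E → ZMod 2)} (i : ℕ) :
    Γ.Xs O a c i ⊆ Γ.Wc O a (c i) := Finset.sdiff_subset

theorem Enum.vs_sub_Xs {Γ : Cub V E} {𝒟 I : Finset (E → ZMod 2)} {O : E → ZMod 2} {a b : V}
    {c : ℕ → (E → ZMod 2)} {N : ℕ} (h : Γ.Enum 𝒟 I O a b c N) {i : ℕ} (hi : i + 1 < N) :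
    Γ.vs (c i) ⊆ Γ.Xs O a c i := by
  have s1 := h.sep (i := i) (by omega)
  have s2 := h.sep hi
  have hn := h.nest i (i + 1) (by omega) hi
  exact s1.vs_sub_diff s2 hn

end Cub

theorem Fam.exists_enum {Γ : Cub V E} {ℓ : ℕ} {𝒟 I : Finset (E → ZMod 2)} (F : Fam Γ ℓ 𝒟 I)
    (O : E → ZMod 2) (a b : V) : ∃ c N, Γ.Enum 𝒟 I O a b c N := by
  classical
  have main : ∀ T : Finset (E → ZMod 2), T ⊆ Γ.chain 𝒟 I O a b →
      ∃ (c : ℕ → (E → ZMod 2)) (N : ℕ), (∀ i < N, c i ∈ T) ∧ (∀ C ∈ T, ∃ i < N, c i = C) ∧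
        ∀ i j, i < j → j < N → Γ.Wc O a (c j) ⊆ Γ.Wc O a (c i) \ Γ.vs (c i) := by
    intro T
    refine Finset.induction_on_min_value (fun C => (Γ.Wc O a C).card) T ?_ ?_
    · intro _
      exact ⟨fun _ => 0, 0, fun i hi => absurd hi (Nat.not_lt_zero i), fun C hC => by simp at hC,
        fun i j _ hj => absurd hj (Nat.not_lt_zero j)⟩
    · intro C T hCT hmin ih hsub
      have hCch : C ∈ Γ.chain 𝒟 I O a b := hsub (mem_insert_self C T)
      have hTch : T ⊆ Γ.chain 𝒟 I O a b := fun x hx => hsub (mem_insert_of_mem hx)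
      obtain ⟨c, N, h1, h2, h3⟩ := ih hTch
      refine ⟨fun i => if i < N then c i else C, N + 1, ?_, ?_, ?_⟩
      · intro i _
        by_cases hi : i < N
        · simp only [hi, if_true]
          exact mem_insert_of_mem (h1 i hi)
        · simp only [hi, if_false]
          exact mem_insert_self C T
      · intro D hD
        rcases mem_insert.1 hD with hD | hD
        · refine ⟨N, Nat.lt_succ_self N, ?_⟩
          simp [hD]
        · obtain ⟨i, hi, hiD⟩ := h2 D hD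
          refine ⟨i, by omega, ?_⟩
          simp only [hi, if_true]
          exact hiD
      · intro i j hij hj
        have hi : i < N := by omega
        simp only [hi, if_true]
        by_cases hjN : j < N
        · simp only [hjN, if_true]
          exact h3 i j hij hjN
        · simp only [hjN, if_false]
          have hmem := h1 i hi
          have hne : C ≠ c i := fun h => hCT (h ▸ hmem)
          obtain ⟨hC𝒟, sC⟩ := Cub.bch_chain hCch
          obtain ⟨hi𝒟, si⟩ := Cub.bch_chain (hTch hmem)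
          have hd : Disjoint (Γ.vs (c i)) (Γ.vs C) := F.disj _ hi𝒟 _ hC𝒟 hne.symm
          rcases si.nested sC hd with h4 | h4
          · exact h4
          · exfalso
            have h5 : (Γ.Wc O a C).card ≤ (Γ.Wc O a (c i)).card := hmin _ hmem
            obtain ⟨x, hx⟩ := Γ.vs_nonempty sC.hC.2.1
            have h6 : Γ.Wc O a (c i) ⊂ Γ.Wc O a C := by
              refine Finset.ssubset_iff_subset_ne.2 ⟨h4.trans Finset.sdiff_subset, fun h7 => ?_⟩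
              have h8 : x ∈ Γ.Wc O a (c i) := by rw [h7]; exact sC.vs_sub_W hx
              exact (mem_sdiff.1 (h4 h8)).2 hx
            have := Finset.card_lt_card h6
            omega
  obtain ⟨c, N, h1, h2, h3⟩ := main _ (Finset.Subset.refl _)
  exact ⟨c, N, h1, h2, h3⟩

theorem Fam.chain_strip {Γ : Cub V E} {ℓ : ℕ} {𝒟 I : Finset (E → ZMod 2)} (F : Fam Γ ℓ 𝒟 I)
    {O : E → ZMod 2} {a b : V} (hO : O ∈ I) {c : ℕ → (E → ZMod 2)} {N : ℕ}
    (hc : Γ.Enum 𝒟 I O a b c N) {i₀ M : ℕ} (h : i₀ + M + 1 < N) (hM : 1 ≤ M)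
    (hcl : ∀ j ≤ M, Disjoint (Γ.Xs O a c (i₀ + j)) (Γ.mrk 𝒟 I)) :
    ∃ S : Strip Γ ℓ M, (∀ j, S.X j = Γ.Xs O a c (i₀ + j)) ∧ (∀ j, S.C j = c (i₀ + j)) ∧
      ∀ j ≤ M, ∀ D ∈ 𝒟, D ≠ c (i₀ + j) → Disjoint (Γ.vs D) (Γ.Xs O a c (i₀ + j)) := by
  classical
  have hmem : ∀ i < N, c i ∈ 𝒟 := fun i hi => (Cub.bch_chain (hc.mem i hi)).1
  -- no edges to `vs O`
  have hOX : ∀ j ≤ M, ∀ x ∈ Γ.Xs O a c (i₀ + j), ∀ y ∈ Γ.vs O, ¬ Γ.bsLk x y := by
    intro j hj x hx y hy hl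
    have h1 : x ∈ Γ.mrk 𝒟 I := by
      unfold Cub.mrk
      rw [mem_filter]
      exact ⟨mem_univ _, Or.inl ⟨O, hO, Or.inr (Cub.bs_bt.2
        ⟨x, mem_singleton_self x, y, hy, hl⟩)⟩⟩
    exact Finset.disjoint_left.1 (hcl j hj) hx h1
  have nbr : ∀ j, 0 < j → j < M → Γ.bd (Γ.Xs O a c (i₀ + j)) ⊆
      Γ.bt (Γ.Xs O a c (i₀ + (j - 1))) (Γ.Xs O a c (i₀ + j)) ∪
        Γ.bt (Γ.Xs O a c (i₀ + j)) (Γ.Xs O a c (i₀ + (j + 1))) := by
    intro j hj0 hjM e he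
    have s1 := hc.sep (i := i₀ + j) (by omega)
    have s2 := hc.sep (i := i₀ + j + 1) (by omega)
    have hn := hc.nest (i₀ + j) (i₀ + j + 1) (by omega) (by omega)
    have h1 := s1.bd_diff s2 hn he
    have e1 : i₀ + (j - 1) + 1 = i₀ + j := by omega
    have e2 : i₀ + (j + 1) = i₀ + j + 1 := by omega
    have hk := fun {x y : V} (hl : Γ.bsLk x y) (hx : x ∈ Γ.Lc O a (c (i₀ + j)))
      (hy : y ∈ Γ.Wc O a (c (i₀ + j))) => hc.key (i := i₀ + (j - 1)) (by omega) (x := x) (y := y)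
        hl (by rw [e1]; exact hx) (by rw [e1]; exact hy)
    have hvX : Γ.vs (c (i₀ + j)) ⊆ Γ.Xs O a c (i₀ + j) := hc.vs_sub_Xs (by omega)
    have hvX' : Γ.vs (c (i₀ + j + 1)) ⊆ Γ.Xs O a c (i₀ + j + 1) := hc.vs_sub_Xs (by omega)
    rw [mem_union, mem_union] at h1
    rw [mem_union]
    rcases h1 with (h1 | h1) | h1
    · left
      rw [Γ.mem_bt] at h1 ⊢
      rcases h1 with ⟨h2, h3⟩ | ⟨h2, h3⟩
      · exact Or.inl ⟨(hk ⟨e, Or.inl ⟨rfl, rfl⟩⟩ h2 (s1.vs_sub_W h3)).1, hvX h3⟩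
      · exact Or.inr ⟨hvX h2, (hk ⟨e, Or.inr ⟨rfl, rfl⟩⟩ h3 (s1.vs_sub_W h2)).1⟩
    · right
      rw [e2]
      exact Γ.bt_mono (Finset.Subset.refl _) hvX' h1
    · exfalso
      rw [Γ.mem_bt] at h1
      rcases h1 with ⟨h2, h3⟩ | ⟨h2, h3⟩
      · exact hOX j (by omega) _ h2 _ h3 ⟨e, Or.inl ⟨rfl, rfl⟩⟩
      · exact hOX j (by omega) _ h3 _ h2 ⟨e, Or.inr ⟨rfl, rfl⟩⟩
  have left : ∀ j < M, Γ.bt (Γ.Xs O a c (i₀ + j)) (Γ.Xs O a c (i₀ + (j + 1))) ⊆
      Γ.touch (Γ.vs (c (i₀ + (j + 1)))) := by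
    intro j hjM e he
    have e2 : i₀ + (j + 1) = i₀ + j + 1 := by omega
    rw [e2] at he ⊢
    have hL := hc.Xs_sub_L (i := i₀ + j) (by omega)
    have hW : Γ.Xs O a c (i₀ + j + 1) ⊆ Γ.Wc O a (c (i₀ + j + 1)) := Finset.sdiff_subset
    rw [Γ.mem_touch]
    rw [Γ.mem_bt] at he
    rcases he with ⟨h2, h3⟩ | ⟨h2, h3⟩
    · exact Or.inr (hc.key (by omega) ⟨e, Or.inl ⟨rfl, rfl⟩⟩ (hL h2) (hW h3)).2
    · exact Or.inl (hc.key (by omega) ⟨e, Or.inr ⟨rfl, rfl⟩⟩ (hL h3) (hW h2)).2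
  have nz : ∃ R ∈ Γ.Z, par (Γ.bt (Γ.Xs O a c (i₀ + 0)) (Γ.Xs O a c (i₀ + 1))) R ≠ 0 := by
    have s2 := hc.sep (i := i₀ + 1) (by omega)
    have hL := hc.Xs_sub_L (i := i₀) (by omega)
    have hW : Γ.Xs O a c (i₀ + 1) ⊆ Γ.Wc O a (c (i₀ + 1)) := Finset.sdiff_subset
    have hvX : Γ.vs (c (i₀ + 1)) ⊆ Γ.Xs O a c (i₀ + 1) := hc.vs_sub_Xs (by omega)
    have heq : Γ.bt (Γ.Xs O a c (i₀ + 0)) (Γ.Xs O a c (i₀ + 1)) =
        Γ.bt (Γ.Lc O a (c (i₀ + 1))) (Γ.Wc O a (c (i₀ + 1))) := by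
      rw [Nat.add_zero]
      refine Finset.Subset.antisymm (Γ.bt_mono hL hW) fun e he => ?_
      rw [Γ.mem_bt] at he ⊢
      rcases he with ⟨h2, h3⟩ | ⟨h2, h3⟩
      · have h4 := hc.key (by omega) ⟨e, Or.inl ⟨rfl, rfl⟩⟩ h2 h3
        exact Or.inl ⟨h4.1, hvX h4.2⟩
      · have h4 := hc.key (by omega) ⟨e, Or.inr ⟨rfl, rfl⟩⟩ h3 h2
        exact Or.inr ⟨hvX h4.2, h4.1⟩
    rw [heq]
    exact s2.nonzero
  refine ⟨{ X := fun j => Γ.Xs O a c (i₀ + j)
            C := fun j => c (i₀ + j)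
            conn := ?_
            disj := ?_
            single := ?_
            len := ?_
            sub := ?_
            nbr := nbr
            left := left
            nz := nz }, fun _ => rfl, fun _ => rfl, ?_⟩
  · intro j hj
    exact (hc.sep (by omega)).conn_diff (hc.sep (by omega))
      (hc.nest (i₀ + j) (i₀ + j + 1) (by omega) (by omega))
  · intro i hi j hj hij
    exact hc.disj_Xs (by omega) (by omega) (by omega)
  · intro j hj
    exact F.single _ (hmem _ (by omega))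
  · intro j hj
    exact F.len _ (hmem _ (by omega))
  · intro j hj
    exact hc.vs_sub_Xs (by omega)
  · intro j hj D hD hne
    have s1 := hc.sep (i := i₀ + j) (by omega)
    have s2 := hc.sep (i := i₀ + j + 1) (by omega)
    refine F.clean hO (hc.mem (i₀ + j) (by omega)) (hc.mem (i₀ + j + 1) (by omega))
      (hc.nest (i₀ + j) (i₀ + j + 1) (by omega) (by omega)) ?_ ?_ ?_ ?_ D hD hne
    · rintro D hD ⟨h1, h2⟩
      obtain ⟨l, hl, rfl⟩ := hc.surj D hD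
      rcases Nat.lt_or_ge (i₀ + j) l with h3 | h3
      · obtain ⟨x, hx⟩ := Γ.vs_nonempty (hc.sep hl).hC.2.1
        have h4 := hc.W_mono (i := i₀ + j + 1) (j := l) (by omega) hl
        have h5 := h2 (h4 ((hc.sep hl).vs_sub_W hx))
        exact (mem_sdiff.1 h5).2 hx
      · obtain ⟨x, hx⟩ := Γ.vs_nonempty s1.hC.2.1
        have h4 := hc.W_mono (i := l) (j := i₀ + j) h3 (by omega)
        have h5 := h1 (h4 (s1.vs_sub_W hx))
        exact (mem_sdiff.1 h5).2 hx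
    · intro J hJ
      rw [Finset.disjoint_left]
      intro x hx hx'
      have h1 : x ∈ Γ.mrk 𝒟 I := by
        unfold Cub.mrk
        rw [mem_filter]
        exact ⟨mem_univ _, Or.inl ⟨J, hJ, Or.inl hx⟩⟩
      exact Finset.disjoint_left.1 (hcl j hj) hx' h1
    · intro D hD hA
      rw [Finset.disjoint_left]
      intro x hx hx'
      have h1 : x ∈ Γ.mrk 𝒟 I := by
        unfold Cub.mrk
        rw [mem_filter]
        exact ⟨mem_univ _, Or.inr ⟨D, hD, hA, hx⟩⟩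
      exact Finset.disjoint_left.1 (hcl j hj) hx' h1
    · rw [← Finset.not_nonempty_iff_eq_empty]
      intro h1
      obtain ⟨x, hx, y, hy, hl⟩ := Cub.bs_bt.1 h1
      exact hOX j hj x hx y hy hl

end Pool.Agent.Lib.MP_af4270_co
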