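import Pool.Agent.Lib.MP_af4270_co.TJoin2

/-!
# Correcting degree parities; restrictions of edge sets
-/

set_option autoImplicit false
set_option linter.unusedSectionVars false

namespace Pool.Agent.Lib.MP_af4270_co

open Finset

variable {V E : Type} [Fintype V] [DecidableEq V] [Fintype E] [DecidableEq E]

/-- restriction of an edge set to `B` -/
def res (B : Finset E) (R : E → ZMod 2) : E → ZMod 2 := fun e => if e ∈ B then R e else 0

theorem res_of_mem {B : Finset E} {R : E → ZMod 2} {e : E} (h : e ∈ B) : res B R e = R e := by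
  simp [res, h]

theorem res_of_notMem {B : Finset E} {R : E → ZMod 2} {e : E} (h : e ∉ B) : res B R e = 0 := by
  simp [res, h]

theorem supp_res (B : Finset E) (R : E → ZMod 2) : supp (res B R) ⊆ B := by
  intro e he
  rw [mem_supp] at he
  by_contra h
  exact he (res_of_notMem h)

theorem par_res (S B : Finset E) (R : E → ZMod 2) : par S (res B R) = par (S ∩ B) R := by
  rw [par, par, ← Finset.filter_mem_eq_inter, Finset.sum_filter]
  rfl

theorem par_eq_zero_of {S : Finset E} {R : E → ZMod 2} (h : ∀ e ∈ S, R e = 0) : par S R = 0 :=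
  Finset.sum_eq_zero h

theorem par_union {S T : Finset E} (h : Disjoint S T) (R : E → ZMod 2) :
    par (S ∪ T) R = par S R + par T R := Finset.sum_union h

theorem par_congr {S : Finset E} {R R' : E → ZMod 2} (h : ∀ e ∈ S, R e = R' e) :
    par S R = par S R' := Finset.sum_congr rfl h

/-- the single edge `e` -/
def one (e : E) : E → ZMod 2 := fun f => if f = e then 1 else 0

theorem one_self (e : E) : one e e = 1 := by simp [one]

theorem one_ne {e f : E} (h : f ≠ e) : one e f = 0 := by simp [one, h]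

theorem supp_one (e : E) : supp (one e) = {e} := by
  ext f; simp [one]

theorem par_one {S : Finset E} {e : E} (h : e ∈ S) : par S (one e) = 1 := by
  rw [par, Finset.sum_eq_single e]
  · exact one_self e
  · intro b _ hb; exact one_ne hb
  · intro h'; exact absurd h h'

theorem supp_add (J J' : E → ZMod 2) : supp (J + J') ⊆ supp J ∪ supp J' := by
  intro e he
  rw [mem_supp, Pi.add_apply] at he
  rw [mem_union, mem_supp, mem_supp]
  by_contra h
  push Not at h
  exact he (by rw [h.1, h.2, add_zero])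

namespace Cub

variable (Γ : Cub V E)

theorem od_one (e : E) (x : V) : Γ.od (one e) x
    = (if x = Γ.s e then 1 else 0) + (if x = Γ.t e then 1 else 0) := Γ.od_single e x

/-- sum of the degree parities over a set -/
theorem sum_od_eq (K : Finset V) (Q : E → ZMod 2) :
    ∑ x ∈ K, Γ.od Q x = par (Γ.bd K) Q := by
  have h := Γ.sum_inc K Q
  unfold od
  rw [h, zm_add_self, add_zero]
  rfl

theorem sum_od_res (K : Finset V) (B : Finset E) (R : E → ZMod 2) :
    ∑ x ∈ K, Γ.od (res B R) x = par (Γ.bd K ∩ B) R := by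
  rw [sum_od_eq, par_res]

theorem od_res_of_subset {B : Finset E} {x : V} (h : Γ.inc x ⊆ B) (R : E → ZMod 2) :
    Γ.od (res B R) x = Γ.od R x := by
  refine Finset.sum_congr rfl fun d hd => ?_
  exact res_of_mem (h (Γ.fst_mem_inc hd))

theorem od_eq_zero_of_inc {Q : E → ZMod 2} {x : V} (h : ∀ e ∈ Γ.inc x, Q e = 0) :
    Γ.od Q x = 0 := by
  refine Finset.sum_eq_zero fun d hd => ?_
  exact h _ (Γ.fst_mem_inc hd)

theorem inc_subset_touch {U : Finset V} {x : V} (hx : x ∈ U) : Γ.inc x ⊆ Γ.touch U := by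
  intro e he
  rw [mem_inc] at he
  rw [mem_touch]
  rcases he with rfl | rfl
  · exact Or.inl hx
  · exact Or.inr hx

theorem bd_subset_touch (U : Finset V) : Γ.bd U ⊆ Γ.touch U := by
  intro e he
  rw [mem_bd] at he
  rw [mem_touch]
  tauto

/-- degree parities can be corrected inside `U` if they add up to zero on every component -/
theorem exists_fix {U : Finset V} {Q : E → ZMod 2}
    (h : ∀ x ∈ U, ∑ y ∈ Γ.comp U x, Γ.od Q y = 0) :
    ∃ J : E → ZMod 2, supp J ⊆ Γ.EU U ∧ (∀ x ∈ U, Γ.od (Q + J) x = 0) ∧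
      ∀ x, x ∉ U → Γ.od (Q + J) x = Γ.od Q x := by
  classical
  obtain ⟨J, hJ, hod⟩ := Γ.exists_tjoin2 (U := U) (T := U.filter (fun x => Γ.od Q x ≠ 0))
    (Finset.filter_subset _ _) (by
      intro x hx
      have h1 := h x hx
      have h2 : (((U.filter (fun x => Γ.od Q x ≠ 0)) ∩ Γ.comp U x).card : ZMod 2)
          = ∑ y ∈ Γ.comp U x, Γ.od Q y := by
        have h3 : (U.filter (fun x => Γ.od Q x ≠ 0)) ∩ Γ.comp U x
            = (Γ.comp U x).filter (fun x => Γ.od Q x ≠ 0) := by
          ext y
          simp only [mem_inter, mem_filter]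
          constructor
          · rintro ⟨⟨a, b⟩, c⟩; exact ⟨c, b⟩
          · rintro ⟨a, b⟩; exact ⟨⟨comp_subset U x a, b⟩, a⟩
        rw [h3, Finset.card_filter]
        push_cast
        refine Finset.sum_congr rfl fun y _ => ?_
        rcases zm_cases (Γ.od Q y) with a | a <;> simp [a]
      rw [h1] at h2
      exact (even_iff_two_dvd).2 ((ZMod.natCast_eq_zero_iff _ _).1 h2))
  refine ⟨J, hJ, fun x hx => ?_, fun x hx => ?_⟩
  · rw [od_add, hod]
    rcases zm_cases (Γ.od Q x) with a | a
    · simp [hx, a]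
    · simp [hx, a, zm_add_self]
  · rw [od_add, hod]
    simp [hx]

theorem exists_fix_conn {U : Finset V} (hU : Γ.Conn U) {Q : E → ZMod 2}
    (h : ∑ y ∈ U, Γ.od Q y = 0) :
    ∃ J : E → ZMod 2, supp J ⊆ Γ.EU U ∧ (∀ x ∈ U, Γ.od (Q + J) x = 0) ∧
      ∀ x, x ∉ U → Γ.od (Q + J) x = Γ.od Q x :=
  Γ.exists_fix (fun x hx => by rw [hU.comp_eq_self hx]; exact h)

end Cub

end Pool.Agent.Lib.MP_af4270_co
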