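import Pool.Agent.Lib.MP_af4270_co.BDefs
import Pool.Agent.Lib.MP_af4270_co.TJoin3

/-!
# PAN-B1: a criterion for independence

`C, O` single, disjoint vertex sets, no edge between them, and: if `a, b` are outer neighbours of
`O` in the same component of `univ \ vs O` then they are in the same component of
`(univ \ vs O) \ vs C`. Then `C ⊆ R` and `O ⊆ R` are independent.

Proof. Let `T_C = touch (vs C)`, `T_O = touch (vs O)` (disjoint edge sets).
Claim: for `R ∈ Z` there is `R' ∈ Z` with `R' = R` on `T_O` and `R' = 0` on `T_C`. Let `R₁` be `R`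
restricted to `T_O`. `od R₁ x = od R x = 0` for `x ∈ vs O`. Let `T = {x ∉ vs O : od R₁ x ≠ 0}`: outer
neighbours of `O`, not in `vs C` (no edge between). Let `U = (univ \ vs O) \ vs C`. For `x ∈ U`,
`|T ∩ comp U x|` is even: if `T ∩ comp U x` is empty this is clear; otherwise take `a` in it, so
`comp U x = comp U a =: Q'`, and let `Q = comp (univ \ vs O) a`. By hypothesis `T ∩ Q = T ∩ Q'`
(`Q' ⊆ Q` by `comp_mono`). `∑_{x ∈ Q} od R₁ x = par (bd Q) R` (`sum_inc` applied to `R₁`: the edges of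
`bd Q` all go to `vs O` (`comp_cl`), so they are in `T_O`; the edges inside `Q` are not in `T_O`), which
is 0 (`par_bd`); and `∑_{x ∈ Q} od R₁ x = |T ∩ Q|` mod 2.
So there is a `T`-join `J` inside `U` (`exists_tjoin2`); `R' = R₁ + J`.

Counting: `K_C = {R ∈ Z : R = 0 on T_C}`, `K_O` similarly (submodules of `E → ZMod 2`). By `sub_closed`
(`R ⊇ C` means `R = C` on `T_C`), `{R ∈ Z : supp C ⊆ supp R} = C + K_C`, similarly for `O`, and
`{R ⊇ C, R ⊇ O} = (C + O) + (K_C ⊓ K_O)`. By the claim `K_C ⊔ K_O = Z` (`R = R' + (R - R')`). Cardinalities: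
`|K_C ⊓ K_O| |Z| = |K_C| |K_O|` (for instance `Submodule.finrank_sup_add_finrank_inf_eq` and
`card = 2 ^ finrank`).
-/

set_option autoImplicit false
set_option linter.unusedSectionVars false

namespace Pool.Agent.Lib.MP_af4270_co

open Finset

variable {V E : Type} [Fintype V] [DecidableEq V] [Fintype E] [DecidableEq E]

namespace Cub

variable (Γ : Cub V E)

/-- an edge at `C` is not an edge at `O` -/
theorem notMem_touch_of {U W : Finset V} (hdis : Disjoint U W) (hnadj : Γ.bt U W = ∅) {e : E}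
    (he : e ∈ Γ.touch U) : e ∉ Γ.touch W := by
  intro h2
  rw [mem_touch] at he h2
  have hd := Finset.disjoint_left.1 hdis
  have hn : e ∉ Γ.bt U W := by rw [hnadj]; simp
  rw [mem_bt] at hn
  push Not at hn
  rcases he with h1 | h1
  · rcases h2 with h2 | h2
    · exact hd h1 h2
    · exact hn.1 h1 h2
  · rcases h2 with h2 | h2
    · exact hn.2 h2 h1
    · exact hd h1 h2

/-- even sets can be changed to zero at `C` without changing them at `O` -/
theorem exists_keep {C O : E → ZMod 2}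
    (hdis : Disjoint (Γ.vs C) (Γ.vs O)) (hnadj : Γ.bt (Γ.vs C) (Γ.vs O) = ∅)
    (h : ∀ a b, Γ.Att O a → Γ.Att O b → b ∈ Γ.Yc O a → b ∈ Γ.Lc O a C)
    {R : E → ZMod 2} (hR : R ∈ Γ.Z) :
    ∃ R' ∈ Γ.Z, (∀ e ∈ Γ.touch (Γ.vs O), R' e = R e) ∧ ∀ e ∈ Γ.touch (Γ.vs C), R' e = 0 := by
  classical
  set TO := Γ.touch (Γ.vs O) with hTO
  set U : Finset V := (univ \ Γ.vs O) \ Γ.vs C with hU
  have hCO : ∀ e ∈ Γ.touch (Γ.vs C), e ∉ TO := fun e he => Γ.notMem_touch_of hdis hnadj he
  have hodO : ∀ x ∈ Γ.vs O, Γ.od (res TO R) x = 0 := by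
    intro x hx
    rw [Γ.od_res_of_subset (Γ.inc_subset_touch hx)]
    exact hR x
  have hodC : ∀ x ∈ Γ.vs C, Γ.od (res TO R) x = 0 := by
    intro x hx
    refine Γ.od_eq_zero_of_inc fun e he => ?_
    exact res_of_notMem (hCO e (Γ.inc_subset_touch hx he))
  have hatt : ∀ x, Γ.od (res TO R) x ≠ 0 → Γ.Att O x := by
    intro x hx
    have hxO : x ∉ Γ.vs O := fun h => hx (hodO x h)
    refine ⟨hxO, ?_⟩
    by_contra hcon
    apply hx
    refine Γ.od_eq_zero_of_inc fun e he => ?_
    apply res_of_notMem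
    intro heT
    apply hcon
    refine ⟨e, ?_⟩
    rw [mem_bt]
    rw [mem_inc] at he
    rw [hTO, mem_touch] at heT
    rcases he with h1 | h1
    · rcases heT with h2 | h2
      · exact absurd (h1 ▸ h2) hxO
      · left; exact ⟨by rw [h1]; exact mem_singleton_self x, h2⟩
    · rcases heT with h2 | h2
      · right; exact ⟨h2, by rw [h1]; exact mem_singleton_self x⟩
      · exact absurd (h1 ▸ h2) hxO
  have hsum : ∀ x ∈ U, ∑ y ∈ Γ.comp U x, Γ.od (res TO R) y = 0 := by
    intro x hx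
    by_cases hz : ∀ y ∈ Γ.comp U x, Γ.od (res TO R) y = 0
    · exact Finset.sum_eq_zero hz
    · push Not at hz
      obtain ⟨a, ha, hane⟩ := hz
      have haU : a ∈ U := comp_subset U x ha
      have haO : a ∈ univ \ Γ.vs O := (mem_sdiff.1 haU).1
      have hc : Γ.comp U a = Γ.comp U x := comp_eq hx ha
      rw [← hc]
      have hsub : Γ.comp U a ⊆ Γ.Yc O a := by
        unfold Yc
        exact comp_mono (Finset.sdiff_subset) haU
      have h1 : ∑ y ∈ Γ.comp U a, Γ.od (res TO R) y = ∑ y ∈ Γ.Yc O a, Γ.od (res TO R) y := by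
        refine Finset.sum_subset hsub fun y hy hyn => ?_
        by_contra hyne
        apply hyn
        have hL := h a y (hatt a hane) (hatt y hyne) hy
        unfold Lc at hL
        refine comp_mono ?_ ?_ hL
        · intro z hz
          rw [mem_sdiff] at hz ⊢
          exact ⟨comp_subset _ _ hz.1, hz.2⟩
        · rw [mem_sdiff]
          exact ⟨mem_comp_self haO, (mem_sdiff.1 haU).2⟩
      rw [h1, sum_od_res]
      have h2 : Γ.bd (Γ.Yc O a) ∩ TO = Γ.bd (Γ.Yc O a) := by
        rw [Finset.inter_eq_left]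
        intro e he
        have hcl := Γ.comp_cl (univ \ Γ.vs O) a
        rw [cl_iff] at hcl
        have hcle := hcl e
        rw [hTO, mem_touch]
        rw [mem_bd] at he
        by_contra hcon
        push Not at hcon
        have hs : Γ.s e ∈ univ \ Γ.vs O := mem_sdiff.2 ⟨mem_univ _, hcon.1⟩
        have ht : Γ.t e ∈ univ \ Γ.vs O := mem_sdiff.2 ⟨mem_univ _, hcon.2⟩
        rcases he with ⟨h3, h4⟩ | ⟨h3, h4⟩
        · exact h4 (hcle.1 h3 ht)
        · exact h3 (hcle.2 h4 hs)
      rw [h2]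
      exact Γ.par_bd _ hR
  obtain ⟨J, hJ, hJ1, hJ2⟩ := Γ.exists_fix hsum
  have hJ0 : ∀ e, e ∈ Γ.touch (Γ.vs O) ∨ e ∈ Γ.touch (Γ.vs C) → J e = 0 := by
    intro e he
    by_contra hne
    have h1 := hJ (mem_supp.2 hne)
    rw [mem_EU] at h1
    have hs := h1.1
    have ht := h1.2
    rw [hU, mem_sdiff, mem_sdiff] at hs ht
    rcases he with he | he
    · rw [mem_touch] at he
      rcases he with he | he
      · exact hs.1.2 he
      · exact ht.1.2 he
    · rw [mem_touch] at he
      rcases he with he | he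
      · exact hs.2 he
      · exact ht.2 he
  refine ⟨res TO R + J, ?_, ?_, ?_⟩
  · intro x
    change Γ.od (res TO R + J) x = 0
    by_cases hx : x ∈ U
    · exact hJ1 x hx
    · rw [hJ2 x hx]
      rw [hU, mem_sdiff, mem_sdiff] at hx
      by_cases hxO : x ∈ Γ.vs O
      · exact hodO x hxO
      · have : x ∈ Γ.vs C := by
          by_contra hxC
          exact hx ⟨⟨mem_univ _, hxO⟩, hxC⟩
        exact hodC x this
  · intro e he
    rw [Pi.add_apply, hJ0 e (Or.inl he), add_zero]
    exact res_of_mem he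
  · intro e he
    rw [Pi.add_apply, hJ0 e (Or.inr he), add_zero]
    exact res_of_notMem (hCO e he)

/-- the even sets containing a cycle are a coset of the even sets that are zero at it -/
theorem cn_supp_sub {D : E → ZMod 2} (hD : D ∈ Γ.Z) (T : Finset E)
    (hT : T = Γ.touch (Γ.vs D)) :
    Γ.cn univ (fun R => supp D ⊆ supp R) = Nat.card (Γ.ZB Tᶜ) := by
  classical
  have hmem : ∀ R ∈ Γ.Z, (supp D ⊆ supp R ↔ R + D ∈ Γ.ZB Tᶜ) := by
    intro R hR
    constructor
    · intro hs
      refine ⟨Γ.Z.add_mem hR hD, fun e he => ?_⟩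
      rw [mem_compl, not_not, hT, mem_touch] at he
      rw [Pi.add_apply]
      have key : ∀ x ∈ Γ.vs D, e ∈ Γ.inc x → R e + D e = 0 := by
        intro x hx hex
        by_cases hRe : R e = 0
        · have hDe : D e = 0 := by
            by_contra hne
            exact (mem_supp.1 (hs (mem_supp.2 hne))) hRe
          rw [hRe, hDe, add_zero]
        · have hDe := Γ.sub_closed hD hR hs hx hex hRe
          rw [zm_ne_zero.1 hRe, zm_ne_zero.1 hDe]
          exact zm_add_self 1
      rcases he with he | he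
      · exact key _ he (by rw [mem_inc]; exact Or.inl rfl)
      · exact key _ he (by rw [mem_inc]; exact Or.inr rfl)
    · rintro ⟨_, h2⟩ e he
      rw [mem_supp] at he ⊢
      have h3 := h2 e (by
        rw [mem_compl, not_not, hT, mem_touch]
        exact Or.inl (Γ.s_mem_vs he))
      rw [Pi.add_apply] at h3
      intro h4
      rw [h4, zero_add] at h3
      exact he h3
  have e1 : {R : E → ZMod 2 // R ∈ univ.filter (fun R : E → ZMod 2 =>
      R ∈ Γ.ZB univ ∧ supp D ⊆ supp R)} ≃ Γ.ZB Tᶜ :=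
    { toFun := fun R => ⟨R.1 + D, by
        have h1 := (mem_filter.1 R.2).2
        exact (hmem R.1 (Γ.mem_ZB_univ.1 h1.1)).1 h1.2⟩
      invFun := fun R => ⟨R.1 + D, by
        have h1 : R.1 + D ∈ Γ.Z := Γ.Z.add_mem R.2.1 hD
        rw [mem_filter]
        refine ⟨mem_univ _, Γ.mem_ZB_univ.2 h1, ?_⟩
        rw [hmem _ h1, fn_add_cancel]
        exact R.2⟩
      left_inv := fun R => by
        apply Subtype.ext
        exact fn_add_cancel _ _
      right_inv := fun R => by
        apply Subtype.ext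
        exact fn_add_cancel _ _ }
  rw [cn, ← Nat.card_congr e1, Nat.card_eq_fintype_card, Fintype.card_coe]
  congr!

theorem cn_supp_sub2 {C O : E → ZMod 2} (hC : C ∈ Γ.Z) (hO : O ∈ Γ.Z)
    (hdis : Disjoint (Γ.vs C) (Γ.vs O)) :
    Γ.cn univ (fun R => supp C ⊆ supp R ∧ supp O ⊆ supp R)
      = Nat.card (Γ.ZB (Γ.touch (Γ.vs (C + O)))ᶜ) := by
  rw [← Γ.cn_supp_sub (Γ.Z.add_mem hC hO) _ rfl]
  have hd : ∀ e, C e ≠ 0 → O e = 0 := by
    intro e h1
    by_contra h2
    exact (Finset.disjoint_left.1 hdis) (Γ.s_mem_vs h1) (Γ.s_mem_vs h2)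
  have hs : ∀ R : E → ZMod 2, (supp C ⊆ supp R ∧ supp O ⊆ supp R) ↔ supp (C + O) ⊆ supp R := by
    intro R
    constructor
    · rintro ⟨h1, h2⟩
      exact (supp_add C O).trans (Finset.union_subset h1 h2)
    · intro h
      constructor
      · intro e he
        apply h
        rw [mem_supp] at he ⊢
        rw [Pi.add_apply, hd e he, add_zero]
        exact he
      · intro e he
        apply h
        rw [mem_supp] at he ⊢
        have hCe : C e = 0 := by
          by_contra hne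
          exact he (hd e hne)
        rw [Pi.add_apply, hCe, zero_add]
        exact he
  simp only [hs]

theorem vs_add_of_disjoint {C O : E → ZMod 2} (hdis : Disjoint (Γ.vs C) (Γ.vs O)) :
    Γ.vs (C + O) = Γ.vs C ∪ Γ.vs O := by
  have hd : ∀ e, C e ≠ 0 → O e = 0 := by
    intro e h1
    by_contra h2
    exact (Finset.disjoint_left.1 hdis) (Γ.s_mem_vs h1) (Γ.s_mem_vs h2)
  ext x
  rw [mem_union, mem_vs, mem_vs, mem_vs]
  constructor
  · rintro ⟨e, h1, h2⟩
    by_cases hCe : C e = 0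
    · right
      refine ⟨e, h1, ?_⟩
      rwa [Pi.add_apply, hCe, zero_add] at h2
    · left
      exact ⟨e, h1, hCe⟩
  · rintro (⟨e, h1, h2⟩ | ⟨e, h1, h2⟩)
    · refine ⟨e, h1, ?_⟩
      rw [Pi.add_apply, hd e h2, add_zero]
      exact h2
    · refine ⟨e, h1, ?_⟩
      have hCe : C e = 0 := by
        by_contra hne
        exact h2 (hd e hne)
      rw [Pi.add_apply, hCe, zero_add]
      exact h2

theorem indep {C O : E → ZMod 2} (hC : Γ.Single C) (hO : Γ.Single O)
    (hdis : Disjoint (Γ.vs C) (Γ.vs O)) (hnadj : Γ.bt (Γ.vs C) (Γ.vs O) = ∅)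
    (h : ∀ a b, Γ.Att O a → Γ.Att O b → b ∈ Γ.Yc O a → b ∈ Γ.Lc O a C) :
    Γ.Ind C O := by
  classical
  unfold Ind
  rw [Γ.cn_supp_sub2 hC.1 hO.1 hdis, Γ.cn_supp_sub hC.1 _ rfl, Γ.cn_supp_sub hO.1 _ rfl]
  have hall : Γ.cn univ (fun _ => True) = Nat.card Γ.Z := by
    have e1 : {R : E → ZMod 2 // R ∈ univ.filter (fun R : E → ZMod 2 =>
        R ∈ Γ.ZB univ ∧ True)} ≃ Γ.Z :=
      { toFun := fun R => ⟨R.1, Γ.mem_ZB_univ.1 (mem_filter.1 R.2).2.1⟩
        invFun := fun R => ⟨R.1, mem_filter.2 ⟨mem_univ _, Γ.mem_ZB_univ.2 R.2, trivial⟩⟩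
        left_inv := fun R => rfl
        right_inv := fun R => rfl }
    rw [cn, ← Nat.card_congr e1, Nat.card_eq_fintype_card, Fintype.card_coe]
    congr!
  rw [hall]
  set KC := Γ.ZB (Γ.touch (Γ.vs C))ᶜ with hKC
  set KO := Γ.ZB (Γ.touch (Γ.vs O))ᶜ with hKO
  have hinf : Γ.ZB (Γ.touch (Γ.vs (C + O)))ᶜ = KC ⊓ KO := by
    ext R
    rw [Submodule.mem_inf, Γ.vs_add_of_disjoint hdis]
    have ht : ∀ e, e ∈ Γ.touch (Γ.vs C ∪ Γ.vs O) ↔ e ∈ Γ.touch (Γ.vs C) ∨ e ∈ Γ.touch (Γ.vs O) := by
      intro e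
      simp only [mem_touch, mem_union]
      tauto
    constructor
    · rintro ⟨h1, h2⟩
      refine ⟨⟨h1, fun e he => h2 e ?_⟩, ⟨h1, fun e he => h2 e ?_⟩⟩
      · rw [mem_compl, not_not] at he ⊢
        exact (ht e).2 (Or.inl he)
      · rw [mem_compl, not_not] at he ⊢
        exact (ht e).2 (Or.inr he)
    · rintro ⟨⟨h1, h2⟩, ⟨_, h3⟩⟩
      refine ⟨h1, fun e he => ?_⟩
      rw [mem_compl, not_not, ht e] at he
      rcases he with he | he
      · exact h2 e (by rw [mem_compl, not_not]; exact he)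
      · exact h3 e (by rw [mem_compl, not_not]; exact he)
  have hsup : KC ⊔ KO = Γ.Z := by
    apply le_antisymm
    · apply sup_le
      · intro R hR
        exact hR.1
      · intro R hR
        exact hR.1
    · intro R hR
      obtain ⟨R', hR', h1, h2⟩ := Γ.exists_keep hdis hnadj h hR
      have h3 : R = R' + (R - R') := by abel
      rw [h3]
      refine Submodule.add_mem_sup ⟨hR', fun e he => ?_⟩ ⟨Γ.Z.sub_mem hR hR', fun e he => ?_⟩
      · rw [mem_compl, not_not] at he
        exact h2 e he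
      · rw [mem_compl, not_not] at he
        rw [Pi.sub_apply, h1 e he, sub_self]
  rw [hinf, ← hsup]
  have hcard : ∀ K : Submodule (ZMod 2) (E → ZMod 2),
      Nat.card K = 2 ^ (Module.finrank (ZMod 2) K) := by
    intro K
    have := Module.natCard_eq_pow_finrank (K := ZMod 2) (V := K)
    rw [this, Nat.card_eq_fintype_card, ZMod.card]
  rw [hcard, hcard, hcard, hcard, ← pow_add, ← pow_add]
  congr 1
  have := Submodule.finrank_sup_add_finrank_inf_eq KC KO
  omega

theorem Ind.symm {C O : E → ZMod 2} (h : Γ.Ind C O) : Γ.Ind O C := by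
  unfold Ind at h ⊢
  have h1 : Γ.cn univ (fun R => supp O ⊆ supp R ∧ supp C ⊆ supp R)
      = Γ.cn univ (fun R => supp C ⊆ supp R ∧ supp O ⊆ supp R) := by
    simp only [and_comm]
  rw [h1, h, mul_comm]

end Cub

end Pool.Agent.Lib.MP_af4270_co
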