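import Pool.Agent.Lib.MP_af4270_co.BSep
import Pool.Agent.Lib.MP_af4270_co.BIndep
import Pool.Agent.Lib.MP_af4270_co.BAdj

/-!
# PAN-B4: a clean piece of a chain contains only one cycle of the family

Setting: `F : Fam Γ ℓ 𝒟 I`, `O ∈ I`, `C₁, C₂` consecutive members of `chain 𝒟 I O a b`
(`W₂ ⊆ W₁ \ vs C₁`, no member strictly between), `X = W₁ \ W₂`, clean: no member of `I` and no member
of `𝒟` adjacent to `I` meets `X`, and there is no edge between `X` and `vs O`.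
Claim: a member `D ≠ C₁` of `𝒟` is disjoint from `X`.

Proof. Suppose `D ∈ 𝒟`, `D ≠ C₁`, `vs D` meets `X`. `D ∉ I`, `D` not adjacent to `I`, `D ≠ C₂` (as
`vs C₂ ⊆ W₂`). `vs D` is disjoint from `vs C₁, vs C₂, vs O`. By `bd_diff` and cleanness the edges leaving
`X° = X \ vs C₁` end on `vs C₁ ∪ vs C₂`; as `vs D` is connected it is contained in `X°`.
By `F.imax` there is `J ∈ I` with `¬ Ind D J`; `J ≠ D`; by `indep` there are `a', b'` with `Att J a'`, `Att J b'`,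
`b' ∈ Yc J a'`, `b' ∉ Lc J a' D`. `vs J` does not meet `X` (clean), nor `vs C₂` (`C₂ ∉ I`).
`a', b' ∉ X°`: a vertex of `X°` adjacent to `vs J` would give an edge from `X°` to `vs J`, but edges
leaving `X°` end on `vs C₁ ∪ vs C₂`, disjoint from `vs J`.
(R) Suppose `Θ ⊆ (X ∪ vs C₂) \ vs D` is connected and contains `vs C₁ ∪ vs C₂`. Put
`U' = (univ \ vs J) \ vs D`, `S = comp U' a' = Lc J a' D` (note `Yc J a' \ vs D` and `U'` have the same component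
of `a'`; or argue directly with `S = Lc J a' D ⊆ Yc J a' \ vs D`, closed in it). Let `S' = S ∪ X°` if `S`
meets `vs C₁ ∪ vs C₂`, and `S' = S` otherwise. Then `S'` is closed in `univ \ vs J`:
 - if `S` does not meet `vs C₁ ∪ vs C₂` then `S` does not meet `X°` (else the connected set `S`, containing
   `a' ∉ X°`, would have an edge from `X°` to its complement, which ends on `vs C₁ ∪ vs C₂`); so no vertex
   of `S` is adjacent to `vs D ⊆ X°` (such a vertex is in `X° ∪ vs C₁ ∪ vs C₂`), so `S` is closed.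
 - if `S` meets `vs C₁ ∪ vs C₂` then `Θ ⊆ S` (`Θ` connected, inside `univ \ vs J \ vs D`), and
   `X°`-edges end in `X° ∪ vs C₁ ∪ vs C₂ ⊆ S'`, `S`-edges end in `S ∪ vs D ⊆ S'` (inside `univ \ vs J`).
 So `Yc J a' ⊆ S'`, `b' ∈ S'`, `b' ∉ X°`, hence `b' ∈ S`: contradiction to `b' ∉ Lc J a' D`.
So there is no such `Θ`. Choose `c ∈ vs C₁`, `Θ₀ = comp ((X ∪ vs C₂) \ vs D) c ⊇ vs C₁`. If `Θ₀` meets
`vs C₂` it contains it: excluded. So `Θ₀ ⊆ X`. Let `S = L₁ ∪ Θ₀` (`L₁ = Lc O a C₁`). `S` is closed in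
`Y \ vs D` (`Y = Yc O a`): edges from `L₁` leaving `L₁` inside `Y` end on `vs C₁ ⊆ Θ₀`; edges from `Θ₀ ⊆ X`
inside `Y` end in `L₁`, in `X` or on `vs C₂` (`bd_diff`), in the last two cases in `Θ₀` (closedness).
So `Lc O a D ⊆ S`, and `b ∈ W₂` is not in `S ⊆ L₁ ∪ X`. Hence `Sep O a b D` and `D ∈ chain`.
`vs D ⊆ W₁` gives `W_D ⊆ W₁ \ vs C₁` (`nested_of_sub`), and `vs D ⊆ L₂` (`= L₁ ∪ X`) gives
`W₂ ⊆ W_D \ vs D` (`nested_of_sub_L`): `D` is strictly between. Contradiction.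
-/

set_option autoImplicit false
set_option linter.unusedSectionVars false

namespace Pool.Agent.Lib.MP_af4270_co

open Finset

variable {V E : Type} [Fintype V] [DecidableEq V] [Fintype E] [DecidableEq E]

theorem Fam.clean {Γ : Cub V E} {ℓ : ℕ} {𝒟 I : Finset (E → ZMod 2)} (F : Fam Γ ℓ 𝒟 I)
    {O C₁ C₂ : E → ZMod 2} {a b : V} (hO : O ∈ I)
    (h₁ : C₁ ∈ Γ.chain 𝒟 I O a b) (h₂ : C₂ ∈ Γ.chain 𝒟 I O a b)
    (hn : Γ.Wc O a C₂ ⊆ Γ.Wc O a C₁ \ Γ.vs C₁)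
    (hcons : ∀ D ∈ Γ.chain 𝒟 I O a b, ¬ (Γ.Wc O a D ⊆ Γ.Wc O a C₁ \ Γ.vs C₁ ∧
      Γ.Wc O a C₂ ⊆ Γ.Wc O a D \ Γ.vs D))
    (hI : ∀ J ∈ I, Disjoint (Γ.vs J) (Γ.Wc O a C₁ \ Γ.Wc O a C₂))
    (hadj : ∀ D ∈ 𝒟, Γ.AdjI I D → Disjoint (Γ.vs D) (Γ.Wc O a C₁ \ Γ.Wc O a C₂))
    (hOX : Γ.bt (Γ.Wc O a C₁ \ Γ.Wc O a C₂) (Γ.vs O) = ∅) :
    ∀ D ∈ 𝒟, D ≠ C₁ → Disjoint (Γ.vs D) (Γ.Wc O a C₁ \ Γ.Wc O a C₂) := by
  classical
  intro D hD hDC₁
  by_contra hnd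
  simp only [Cub.chain, mem_filter] at h₁ h₂
  obtain ⟨hC₁, hC₁I, hC₁a, s₁⟩ := h₁
  obtain ⟨hC₂, hC₂I, hC₂a, s₂⟩ := h₂
  set X := Γ.Wc O a C₁ \ Γ.Wc O a C₂ with hX
  have hDI : D ∉ I := fun h => hnd (hI D h)
  have hDa : ¬ Γ.AdjI I D := fun h => hnd (hadj D hD h)
  have hv₁X : Γ.vs C₁ ⊆ X := s₁.vs_sub_diff s₂ hn
  have hv₂W : Γ.vs C₂ ⊆ Γ.Wc O a C₂ := s₂.vs_sub_W
  have hv₂X : ∀ x ∈ Γ.vs C₂, x ∉ X := fun x h h' => (mem_sdiff.1 h').2 (hv₂W h)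
  have hDC₂ : D ≠ C₂ := by
    rintro rfl
    exact hnd (Finset.disjoint_left.2 hv₂X)
  have d1 : Disjoint (Γ.vs D) (Γ.vs C₁) := F.disj D hD C₁ hC₁ hDC₁
  have d2 : Disjoint (Γ.vs D) (Γ.vs C₂) := F.disj D hD C₂ hC₂ hDC₂
  have hDO : D ≠ O := fun h => hDI (h ▸ hO)
  have dO : Disjoint (Γ.vs D) (Γ.vs O) := F.disj D hD O (F.sub hO) hDO
  have hDsing := F.single D hD
  have hL₁ : ∀ x ∈ Γ.Lc O a C₁, x ∉ Γ.Wc O a C₁ := fun x h h' => (mem_sdiff.1 h').2 h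
  -- edges leaving `X`
  have outX : ∀ u ∈ X, ∀ v, v ∉ X → Γ.Aj u v →
      (v ∈ Γ.Lc O a C₁ ∧ u ∈ Γ.vs C₁) ∨ v ∈ Γ.vs C₂ := by
    intro u hu v hv ⟨e, he⟩
    have h1 : e ∈ Γ.bd X := Cub.mem_bd_iff_jn.2 ⟨u, v, he, hu, hv⟩
    have h2 := s₁.bd_diff s₂ hn h1
    rw [mem_union, mem_union] at h2
    have ends : ∀ {P Q : Finset V}, e ∈ Γ.bt P Q → (u ∈ P ∧ v ∈ Q) ∨ (v ∈ P ∧ u ∈ Q) := by
      intro P Q h
      rw [Γ.mem_bt] at h
      rcases he with ⟨rfl, rfl⟩ | ⟨rfl, rfl⟩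
      · tauto
      · tauto
    rcases h2 with (h2 | h2) | h2
    · rcases ends h2 with h3 | h3
      · exact absurd (mem_sdiff.1 hu).1 (hL₁ u h3.1)
      · exact Or.inl h3
    · rcases ends h2 with h3 | h3
      · exact Or.inr h3.2
      · exact absurd h3.1 hv
    · rw [hOX] at h2
      simp at h2
  set X₀ := X \ Γ.vs C₁ with hX₀
  have outX₀ : ∀ u ∈ X₀, ∀ v, v ∉ X₀ → Γ.Aj u v → v ∈ Γ.vs C₁ ∨ v ∈ Γ.vs C₂ := by
    intro u hu v hv h
    rw [hX₀, mem_sdiff] at hu hv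
    by_cases hvX : v ∈ X
    · left
      by_contra hc
      exact hv ⟨hvX, hc⟩
    · rcases outX u hu.1 v hvX h with h3 | h3
      · exact absurd h3.2 hu.2
      · exact Or.inr h3
  have hDX₀ : Γ.vs D ⊆ X₀ := by
    refine (Γ.conn_vs hDsing).subset_of_disj ?_ ?_
    · rw [Finset.not_disjoint_iff] at hnd
      obtain ⟨x, hx, hx'⟩ := hnd
      refine ⟨x, mem_inter.2 ⟨hx, ?_⟩⟩
      rw [hX₀, mem_sdiff]
      exact ⟨hx', fun h => (Finset.disjoint_left.1 d1) hx h⟩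
    · intro u hu v hv h hvD
      rcases outX₀ u hu v hv h with h3 | h3
      · exact (Finset.disjoint_left.1 d1) hvD h3
      · exact (Finset.disjoint_left.1 d2) hvD h3
  -- a member of `I` which is not independent of `D`
  obtain ⟨J, hJ, hJind⟩ := F.imax D hD hDI hDa
  have hDJ : D ≠ J := fun h => hDI (h ▸ hJ)
  have dJ : Disjoint (Γ.vs D) (Γ.vs J) := F.disj D hD J (F.sub hJ) hDJ
  have nJ : Γ.bt (Γ.vs D) (Γ.vs J) = ∅ := by
    by_contra h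
    exact hDa ⟨J, hJ, Finset.nonempty_iff_ne_empty.2 h⟩
  have hex : ∃ a' b', Γ.Att J a' ∧ Γ.Att J b' ∧ b' ∈ Γ.Yc J a' ∧ b' ∉ Γ.Lc J a' D := by
    by_contra hcon
    push Not at hcon
    exact hJind (Γ.indep hDsing (F.single J (F.sub hJ)) dJ nJ
      (fun a' b' h1 h2 h3 => hcon a' b' h1 h2 h3))
  obtain ⟨a', b', ha', hb', hbY', hbL'⟩ := hex
  have hJX : ∀ x ∈ Γ.vs J, x ∉ X := fun x h h' => (Finset.disjoint_left.1 (hI J hJ)) h h'
  have hJ₁ : Disjoint (Γ.vs J) (Γ.vs C₁) :=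
    F.disj J (F.sub hJ) C₁ hC₁ (fun h => hC₁I (h ▸ hJ))
  have hJ₂ : Disjoint (Γ.vs J) (Γ.vs C₂) :=
    F.disj J (F.sub hJ) C₂ hC₂ (fun h => hC₂I (h ▸ hJ))
  have hattX : ∀ x, Γ.Att J x → x ∉ X₀ := by
    intro x hx hxX
    obtain ⟨o, ho, hxo⟩ := hx.aj
    have hoX : o ∉ X₀ := fun h => hJX o ho (by rw [hX₀, mem_sdiff] at h; exact h.1)
    rcases outX₀ x hxX o hoX hxo with h3 | h3
    · exact (Finset.disjoint_left.1 hJ₁) ho h3
    · exact (Finset.disjoint_left.1 hJ₂) ho h3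
  have ha'X := hattX a' ha'
  have hb'X := hattX b' hb'
  have ha'D : a' ∉ Γ.vs D := fun h => ha'X (hDX₀ h)
  have ha'Y : a' ∈ Γ.Yc J a' := Cub.mem_comp_self (by
    rw [mem_sdiff]; exact ⟨mem_univ _, ha'.1⟩)
  have hYJ : ∀ x ∈ Γ.Yc J a', x ∉ Γ.vs J := fun x h =>
    (mem_sdiff.1 (Cub.comp_subset _ _ h)).2
  have hYcl : ∀ u ∈ Γ.Yc J a', ∀ v, v ∉ Γ.vs J → Γ.Aj u v → v ∈ Γ.Yc J a' :=
    fun u hu v hv h => Cub.comp_aj hu (by rw [mem_sdiff]; exact ⟨mem_univ _, hv⟩) h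
  set S := Γ.Lc J a' D with hS
  have haS : a' ∈ Γ.Yc J a' \ Γ.vs D := mem_sdiff.2 ⟨ha'Y, ha'D⟩
  have ha'S : a' ∈ S := Cub.mem_comp_self haS
  have hSconn : Γ.Conn S := Cub.conn_comp haS
  have hSsub : S ⊆ Γ.Yc J a' \ Γ.vs D := Cub.comp_subset _ _
  have hScl : ∀ u ∈ S, ∀ v, v ∉ Γ.vs J → v ∉ Γ.vs D → Γ.Aj u v → v ∈ S :=
    fun u hu v hv hvD h => Cub.comp_aj hu
      (mem_sdiff.2 ⟨hYcl u (mem_sdiff.1 (hSsub hu)).1 v hv h, hvD⟩) h
  -- (R) no connection between the two cycles avoiding `D`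
  have R : ∀ Θ : Finset V, Θ ⊆ (X ∪ Γ.vs C₂) \ Γ.vs D → Γ.Conn Θ → Γ.vs C₁ ⊆ Θ →
      Γ.vs C₂ ⊆ Θ → False := by
    intro Θ hΘ hΘc hΘ₁ hΘ₂
    have hΘJ : ∀ x ∈ Θ, x ∉ Γ.vs J := by
      intro x hx hxJ
      have h1 := hΘ hx
      rw [mem_sdiff, mem_union] at h1
      rcases h1.1 with h2 | h2
      · exact hJX x hxJ h2
      · exact (Finset.disjoint_left.1 hJ₂) hxJ h2
    have key : ∃ S' : Finset V, a' ∈ S' ∧ (∀ x ∈ S', x ∉ Γ.vs J) ∧
        (∀ x ∈ S', x ∈ S ∨ x ∈ X₀) ∧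
        ∀ u ∈ S', ∀ v, v ∉ Γ.vs J → Γ.Aj u v → v ∈ S' := by
      by_cases hm : (S ∩ (Γ.vs C₁ ∪ Γ.vs C₂)).Nonempty
      · -- `S` meets one of the cycles
        have hΘS : Θ ⊆ S := by
          obtain ⟨x, hx⟩ := hm
          rw [mem_inter, mem_union] at hx
          have hxΘ : x ∈ Θ := by
            rcases hx.2 with h | h
            · exact hΘ₁ h
            · exact hΘ₂ h
          refine hΘc.subset_of_disj ⟨x, mem_inter.2 ⟨hxΘ, hx.1⟩⟩ ?_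
          intro u hu v hv h hvΘ
          exact hv (hScl u hu v (hΘJ v hvΘ) (mem_sdiff.1 (hΘ hvΘ)).2 h)
        refine ⟨S ∪ X₀, mem_union_left _ ha'S, ?_, ?_, ?_⟩
        · intro x hx
          rw [mem_union] at hx
          rcases hx with h | h
          · exact hYJ x (mem_sdiff.1 (hSsub h)).1
          · intro h'
            exact hJX x h' (by rw [hX₀, mem_sdiff] at h; exact h.1)
        · intro x hx; exact mem_union.1 hx
        · intro u hu v hv h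
          rw [mem_union] at hu ⊢
          rcases hu with hu | hu
          · by_cases hvD : v ∈ Γ.vs D
            · exact Or.inr (hDX₀ hvD)
            · exact Or.inl (hScl u hu v hv hvD h)
          · by_cases hvX : v ∈ X₀
            · exact Or.inr hvX
            · rcases outX₀ u hu v hvX h with h3 | h3
              · exact Or.inl (hΘS (hΘ₁ h3))
              · exact Or.inl (hΘS (hΘ₂ h3))
      · -- `S` misses both
        have hm' : ∀ x ∈ S, x ∉ Γ.vs C₁ ∧ x ∉ Γ.vs C₂ := by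
          intro x hx
          constructor
          · intro h; exact hm ⟨x, mem_inter.2 ⟨hx, mem_union_left _ h⟩⟩
          · intro h; exact hm ⟨x, mem_inter.2 ⟨hx, mem_union_right _ h⟩⟩
        have hSX : ∀ x ∈ S, x ∉ X₀ := by
          intro x hx hxX
          have h1 : S ⊆ X₀ := hSconn.subset_of_disj ⟨x, mem_inter.2 ⟨hx, hxX⟩⟩ (by
            intro u hu v hv h hvS
            rcases outX₀ u hu v hv h with h3 | h3
            · exact (hm' v hvS).1 h3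
            · exact (hm' v hvS).2 h3)
          exact ha'X (h1 ha'S)
        refine ⟨S, ha'S, fun x hx => hYJ x (mem_sdiff.1 (hSsub hx)).1, fun x hx => Or.inl hx, ?_⟩
        intro u hu v hv h
        refine hScl u hu v hv (fun hvD => ?_) h
        rcases outX₀ v (hDX₀ hvD) u (hSX u hu) h.symm with h3 | h3
        · exact (hm' u hu).1 h3
        · exact (hm' u hu).2 h3
    obtain ⟨S', h1, h2, h3, h4⟩ := key
    have h5 : Γ.Yc J a' ⊆ S' := by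
      refine Cub.comp_min (fun x hx => ?_) h1 (Cub.cl_iff_aj.2 fun u hu v hv h => ?_)
      · rw [mem_sdiff]; exact ⟨mem_univ _, h2 x hx⟩
      · exact h4 u hu v (mem_sdiff.1 hv).2 h
    rcases h3 b' (h5 hbY') with h6 | h6
    · exact hbL' h6
    · exact hb'X h6
  -- the component of `C₁` after removing `D`
  have hv₁ne : (Γ.vs C₁).Nonempty := Γ.vs_nonempty (F.single C₁ hC₁).ne_zero
  obtain ⟨c₀, hc₀⟩ := hv₁ne
  set U := (X ∪ Γ.vs C₂) \ Γ.vs D with hU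
  have hv₁U : Γ.vs C₁ ⊆ U := by
    intro x hx
    rw [hU, mem_sdiff, mem_union]
    exact ⟨Or.inl (hv₁X hx), fun h => (Finset.disjoint_left.1 d1) h hx⟩
  have hv₂U : Γ.vs C₂ ⊆ U := by
    intro x hx
    rw [hU, mem_sdiff, mem_union]
    exact ⟨Or.inr hx, fun h => (Finset.disjoint_left.1 d2) h hx⟩
  set Θ := Γ.comp U c₀ with hΘ
  have hc₀U := hv₁U hc₀
  have hΘc : Γ.Conn Θ := Cub.conn_comp hc₀U
  have hΘU : Θ ⊆ U := Cub.comp_subset _ _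
  have hΘ₁ : Γ.vs C₁ ⊆ Θ := Cub.conn_subset_comp (Γ.conn_vs (F.single C₁ hC₁)) hv₁U hc₀
  have hΘ₂ : ∀ x ∈ Θ, x ∉ Γ.vs C₂ := by
    intro x hx hx2
    refine R Θ hΘU hΘc hΘ₁ ?_
    refine (Γ.conn_vs (F.single C₂ hC₂)).subset_of_cl hv₂U (Cub.comp_cl U c₀) ⟨x, ?_⟩
    exact mem_inter.2 ⟨hx2, hx⟩
  have hΘX : ∀ x ∈ Θ, x ∈ X ∧ x ∉ Γ.vs D := by
    intro x hx
    have h1 := hΘU hx
    rw [hU, mem_sdiff, mem_union] at h1
    rcases h1.1 with h2 | h2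
    · exact ⟨h2, h1.2⟩
    · exact absurd h2 (hΘ₂ x hx)
  have hYO : ∀ x ∈ Γ.Yc O a, x ∉ Γ.vs O := fun x h => (mem_sdiff.1 (Cub.comp_subset _ _ h)).2
  have hL₁sub : Γ.Lc O a C₁ ⊆ Γ.Yc O a \ Γ.vs C₁ := s₁.L_sub
  have hL₁D : ∀ x ∈ Γ.Lc O a C₁, x ∉ Γ.vs D := by
    intro x hx hxD
    have h1 := hDX₀ hxD
    rw [hX₀, mem_sdiff, hX, mem_sdiff] at h1
    exact hL₁ x hx h1.1.1
  have hXY : X ⊆ Γ.Yc O a := by
    intro x hx
    rw [hX, mem_sdiff, Cub.Wc, mem_sdiff] at hx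
    exact hx.1.1
  have hLD : Γ.Lc O a D ⊆ Γ.Lc O a C₁ ∪ Θ := by
    refine Cub.comp_min ?_ (mem_union_left _ s₁.a_mem_L) (Cub.cl_iff_aj.2 ?_)
    · intro x hx
      rw [mem_union] at hx
      rw [mem_sdiff]
      rcases hx with h | h
      · exact ⟨(mem_sdiff.1 (hL₁sub h)).1, hL₁D x h⟩
      · exact ⟨hXY (hΘX x h).1, (hΘX x h).2⟩
    · intro u hu v hv h
      rw [mem_sdiff] at hv
      rw [mem_union] at hu ⊢
      rcases hu with hu | hu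
      · by_cases hvc : v ∈ Γ.vs C₁
        · exact Or.inr (hΘ₁ hvc)
        · exact Or.inl (Cub.comp_aj hu (mem_sdiff.2 ⟨hv.1, hvc⟩) h)
      · by_cases hvX : v ∈ X
        · right
          refine Cub.comp_aj hu ?_ h
          rw [hU, mem_sdiff, mem_union]
          exact ⟨Or.inl hvX, hv.2⟩
        · rcases outX u (hΘX u hu).1 v hvX h with h3 | h3
          · exact Or.inl h3.1
          · exfalso
            refine hΘ₂ v (Cub.comp_aj hu ?_ h) h3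
            rw [hU, mem_sdiff, mem_union]
            exact ⟨Or.inr h3, hv.2⟩
  have hbW₂ : b ∈ Γ.Wc O a C₂ := s₂.b_mem_W
  have sD : Γ.Sep O a b D := by
    refine ⟨s₁.hO, hDsing, dO, ?_, s₁.ha, s₁.hb, s₁.hbY, fun hbL => ?_⟩
    · by_contra h
      exact hDa ⟨O, hO, Finset.nonempty_iff_ne_empty.2 h⟩
    · rcases mem_union.1 (hLD hbL) with h | h
      · have h1 := hn hbW₂
        rw [mem_sdiff] at h1
        exact hL₁ b h h1.1
      · have h1 := (hΘX b h).1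
        rw [hX, mem_sdiff] at h1
        exact h1.2 hbW₂
  refine hcons D ?_ ⟨?_, ?_⟩
  · simp only [Cub.chain, mem_filter]
    exact ⟨hD, hDI, hDa, sD⟩
  · refine s₁.nested_of_sub sD d1.symm ?_
    intro x hx
    have h1 := hDX₀ hx
    rw [hX₀, mem_sdiff, hX, mem_sdiff] at h1
    exact h1.1.1
  · refine s₂.nested_of_sub_L sD d2.symm ?_
    rw [s₁.L_eq s₂ hn]
    intro x hx
    have h1 := hDX₀ hx
    rw [hX₀, mem_sdiff] at h1
    exact mem_union_right _ h1.1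

end Pool.Agent.Lib.MP_af4270_co
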