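import Pool.Agent.Lib.MP_af4270_co.BDefs

/-!
# PAN-B6: disjoint windows

`windows`: induction on `W`. Let `A_W = {R ∈ Z : φ R, no HC R (X i) for i ∈ W}`. Adding `z ∈ ZB (EU (X i))`
does not change `HC R (X j)` for `j ≠ i` (`EU (X i)`, `EU (X j)` are disjoint edge sets: for `D` with
`supp D ⊆ EU (X j)`, `supp D ⊆ supp (R + z) ↔ supp D ⊆ supp R`). So for `i ∉ W`, `A_W` is a union of cosets
of the subspace `ZB (EU (X i))`, each coset has at most `2 ^ s` elements and contains an element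
with `HC · (X i)`. Hence `|A_(insert i W)| ≤ (1 - 2^(-s)) |A_W|`.
(Formally: partition `A_W` by the cosets of `ZB (EU (X i))`, e.g. by the restriction of `R` modulo the
subspace; if `n ≤ 2^s` is the number of elements of each coset, the elements of the coset without
HC are at most `n - 1`, and `2^s (n-1) ≤ (2^s - 1) n`.)

`windows_single`: split `W` in two disjoint parts with at least `q` elements each. A single `R` has
`HC R (X i)` for at most one `i` (`HC R (X i)` gives `D = R`, so `supp R ⊆ EU (X i)`, and `EU (X i)`,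
`EU (X j)` are disjoint, `supp R ≠ ∅`), so it has no HC in one of the two parts. Apply `windows` to
subsets with exactly `q` elements of the two parts (with the property `φ`).

`windows_pow`: `(2^s - 1)^(2^s * k) * 2^k ≤ (2^s)^(2^s * k)` because `(1 - 1/M)^M ≤ 1/2` for `M = 2^s ≥ 1`
(`(1 + 1/(M-1))^M ≥ 2` by Bernoulli; `M = 1`: `0 ≤ `). So `windows_single` with `q = 2^s * k` gives the claim.
-/

set_option autoImplicit false
set_option linter.unusedSectionVars false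

namespace Pool.Agent.Lib.MP_af4270_co

open Finset

variable {V E : Type} [Fintype V] [DecidableEq V] [Fintype E] [DecidableEq E]

theorem two_mul_pow_le (M : ℕ) (hM : 1 ≤ M) : 2 * (M - 1) ^ M ≤ M ^ M := by
  obtain ⟨a, rfl⟩ : ∃ a, M = a + 1 := ⟨M - 1, by omega⟩
  rw [Nat.add_sub_cancel]
  have key : ∀ n : ℕ, a ^ n * (a + n) ≤ a * (a + 1) ^ n := by
    intro n
    induction n with
    | zero => simp
    | succ n ih =>
      calc a ^ (n + 1) * (a + (n + 1)) ≤ (a + 1) * (a ^ n * (a + n)) := by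
            have h1 : a ^ (n + 1) * (a + (n + 1)) = a * (a ^ n * (a + n)) + a ^ n * a := by ring
            have h2 : (a + 1) * (a ^ n * (a + n)) = a * (a ^ n * (a + n)) + a ^ n * (a + n) := by
              ring
            rw [h1, h2]
            have : a ^ n * a ≤ a ^ n * (a + n) := Nat.mul_le_mul_left _ (by omega)
            omega
        _ ≤ (a + 1) * (a * (a + 1) ^ n) := Nat.mul_le_mul_left _ ih
        _ = a * (a + 1) ^ (n + 1) := by ring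
  rcases Nat.eq_zero_or_pos a with h | h
  · subst h; simp
  · have h1 := key (a + 1)
    have h2 : a * (2 * a ^ (a + 1)) ≤ a * (a + 1) ^ (a + 1) := by
      refine le_trans ?_ h1
      have : a * (2 * a ^ (a + 1)) = a ^ (a + 1) * (a + a) := by ring
      rw [this]
      exact Nat.mul_le_mul_left _ (by omega)
    exact Nat.le_of_mul_le_mul_left h2 h

namespace Cub

variable (Γ : Cub V E)

theorem HC.congr {Γ : Cub V E} {R R' : E → ZMod 2} {X : Finset V}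
    (h : ∀ e ∈ Γ.EU X, R e = R' e) (hR : Γ.HC R X) : Γ.HC R' X := by
  obtain ⟨D, hD, hD0, h1, h2⟩ := hR
  refine ⟨D, hD, hD0, fun e he => ?_, h2⟩
  rw [mem_supp, ← h e (h2 he)]
  exact mem_supp.1 (h1 he)

theorem EU_disj {X Y : Finset V} (h : Disjoint X Y) {e : E} (hX : e ∈ Γ.EU X)
    (hY : e ∈ Γ.EU Y) : False :=
  (Finset.disjoint_left.1 h) (Γ.mem_EU.1 hX).1 (Γ.mem_EU.1 hY).1

theorem cn_eq (B : Finset E) (φ : (E → ZMod 2) → Prop)
    [DecidablePred (fun R => R ∈ Γ.ZB B ∧ φ R)] :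
    Γ.cn B φ = (univ.filter (fun R => R ∈ Γ.ZB B ∧ φ R)).card := by
  unfold cn; congr!

theorem card_ZB_le (B : Finset E) :
    Γ.cn B (fun _ => True) ≤ 2 ^ B.card := by
  classical
  rw [cn_eq]
  have h1 : (univ.filter (fun R => R ∈ Γ.ZB B ∧ True)).card
      ≤ (univ : Finset (B → ZMod 2)).card := by
    refine Finset.card_le_card_of_injOn (fun R e => R e) (fun _ _ => by simp) ?_
    intro R hR R' hR' h
    simp only [Finset.coe_filter, Set.mem_ofPred_eq] at hR hR'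
    have h1 := (Γ.mem_ZB.1 hR.2.1).2
    have h2 := (Γ.mem_ZB.1 hR'.2.1).2
    funext e
    by_cases he : e ∈ B
    · exact congrFun h ⟨e, he⟩
    · have h3 : R e = 0 := by
        by_contra hc; exact he (h1 (mem_supp.2 hc))
      have h4 : R' e = 0 := by
        by_contra hc; exact he (h2 (mem_supp.2 hc))
      rw [h3, h4]
  refine h1.trans (le_of_eq ?_)
  rw [Finset.card_univ, Fintype.card_fun, ZMod.card, Fintype.card_coe]

/-- one step: among the elements of a set closed under adding `ZB (EU X)`, each coset contains an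
element with a cycle inside `X` -/
theorem window_step {X : Finset V} {s : ℕ} (hs : (Γ.EU X).card ≤ s) {ψ : (E → ZMod 2) → Prop}
    (hψ : ∀ R ∈ Γ.Z, ∀ z ∈ Γ.ZB (Γ.EU X), ψ R → ψ (R + z))
    (hcl : ∀ R ∈ Γ.Z, ψ R → ∃ z ∈ Γ.ZB (Γ.EU X), Γ.HC (R + z) X) :
    2 ^ s * Γ.cn univ (fun R => ψ R ∧ ¬ Γ.HC R X) ≤ (2 ^ s - 1) * Γ.cn univ ψ := by
  classical
  set K := Γ.ZB (Γ.EU X) with hK
  set A : Finset (E → ZMod 2) := univ.filter (fun R => R ∈ Γ.ZB univ ∧ ψ R) with hA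
  set A' : Finset (E → ZMod 2) :=
    univ.filter (fun R => R ∈ Γ.ZB univ ∧ (ψ R ∧ ¬ Γ.HC R X)) with hA'
  have hAc : Γ.cn univ ψ = A.card := Γ.cn_eq univ ψ
  have hA'c : Γ.cn univ (fun R => ψ R ∧ ¬ Γ.HC R X) = A'.card := Γ.cn_eq univ _
  rw [hAc, hA'c]
  let f : (E → ZMod 2) → ((E → ZMod 2) ⧸ K) := fun R => Submodule.Quotient.mk R
  have hsub : A' ⊆ A := by
    intro R hR
    rw [hA', mem_filter] at hR
    rw [hA, mem_filter]
    exact ⟨hR.1, hR.2.1, hR.2.2.1⟩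
  have e1 : A.card = ∑ q ∈ A.image f, (A.filter (fun R => f R = q)).card :=
    Finset.card_eq_sum_card_fiberwise (fun R hR => mem_coe.2 (mem_image_of_mem f hR))
  have e2 : A'.card = ∑ q ∈ A.image f, (A'.filter (fun R => f R = q)).card :=
    Finset.card_eq_sum_card_fiberwise (fun R hR => mem_coe.2 (mem_image_of_mem f (hsub hR)))
  rw [e1, e2, Finset.mul_sum, Finset.mul_sum]
  refine Finset.sum_le_sum fun q hq => ?_
  obtain ⟨R₀, hR₀, rfl⟩ := mem_image.1 hq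
  rw [hA, mem_filter, Γ.mem_ZB_univ] at hR₀
  obtain ⟨_, hR₀Z, hψ₀⟩ := hR₀
  have hKZ : ∀ z ∈ K, z ∈ Γ.Z := fun z hz => (Γ.mem_ZB.1 hz).1
  -- number of elements of the coset
  set n := (A.filter (fun R => f R = f R₀)).card with hn
  have hn1 : n ≤ 2 ^ s := by
    refine le_trans ?_ ((Γ.card_ZB_le (Γ.EU X)).trans (Nat.pow_le_pow_right (by norm_num) hs))
    rw [Γ.cn_eq, hn]
    refine Finset.card_le_card_of_injOn (fun R => R - R₀) ?_ ?_
    · intro R hR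
      rw [Finset.mem_coe, mem_filter] at hR
      rw [Finset.mem_coe, mem_filter]
      exact ⟨mem_univ _, (Submodule.Quotient.eq K).1 hR.2, trivial⟩
    · intro R _ R' _ h
      simpa using h
  obtain ⟨z, hz, hHC⟩ := hcl R₀ hR₀Z hψ₀
  have hmem : R₀ + z ∈ A.filter (fun R => f R = f R₀) := by
    rw [mem_filter, hA, mem_filter, Γ.mem_ZB_univ]
    refine ⟨⟨mem_univ _, Γ.Z.add_mem hR₀Z (hKZ z hz), hψ R₀ hR₀Z z hz hψ₀⟩, ?_⟩
    exact (Submodule.Quotient.eq K).2 (by simpa using hz)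
  have hn0 : 1 ≤ n := Finset.card_pos.2 ⟨_, hmem⟩
  have h1 : (A'.filter (fun R => f R = f R₀)).card ≤ n - 1 := by
    have h2 : A'.filter (fun R => f R = f R₀) ⊆ (A.filter (fun R => f R = f R₀)).erase (R₀ + z) := by
      intro R hR
      rw [mem_filter] at hR
      rw [mem_erase, mem_filter]
      refine ⟨?_, hsub hR.1, hR.2⟩
      rintro rfl
      have := hR.1
      rw [hA', mem_filter] at this
      exact this.2.2.2 hHC
    refine (Finset.card_le_card h2).trans ?_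
    rw [Finset.card_erase_of_mem hmem]
  obtain ⟨n', hn'⟩ : ∃ n', n = n' + 1 := ⟨n - 1, by omega⟩
  obtain ⟨p, hp⟩ : ∃ p, 2 ^ s = p + 1 := ⟨2 ^ s - 1, by have := Nat.one_le_two_pow (n := s); omega⟩
  rw [hn'] at h1 ⊢
  rw [hn', hp] at hn1
  rw [hp]
  simp only [Nat.add_sub_cancel] at h1 ⊢
  calc (p + 1) * (A'.filter (fun R => f R = f R₀)).card ≤ (p + 1) * n' :=
        Nat.mul_le_mul_left _ h1
    _ ≤ p * (n' + 1) := by nlinarith

theorem windows {ι : Type} [DecidableEq ι] (W : Finset ι) (X : ι → Finset V) (s : ℕ)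
    (hdis : ∀ i ∈ W, ∀ j ∈ W, i ≠ j → Disjoint (X i) (X j))
    (hs : ∀ i ∈ W, (Γ.EU (X i)).card ≤ s) (φ : (E → ZMod 2) → Prop)
    (hφ : ∀ i ∈ W, ∀ R ∈ Γ.Z, ∀ z ∈ Γ.ZB (Γ.EU (X i)), φ R → φ (R + z))
    (hcl : ∀ i ∈ W, ∀ R ∈ Γ.Z, φ R → ∃ z ∈ Γ.ZB (Γ.EU (X i)), Γ.HC (R + z) (X i)) :
    (2 ^ s) ^ W.card * Γ.cn univ (fun R => φ R ∧ ∀ i ∈ W, ¬ Γ.HC R (X i))
      ≤ (2 ^ s - 1) ^ W.card * Γ.cn univ φ := by
  classical
  induction W using Finset.induction_on with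
  | empty => simp
  | insert i W hi ih =>
    have ih' := ih (fun j hj k hk => hdis j (mem_insert_of_mem hj) k (mem_insert_of_mem hk))
      (fun j hj => hs j (mem_insert_of_mem hj)) (fun j hj => hφ j (mem_insert_of_mem hj))
      (fun j hj => hcl j (mem_insert_of_mem hj))
    have hii : i ∈ insert i W := mem_insert_self i W
    have hstep := Γ.window_step (X := X i) (s := s) (hs i hii)
      (ψ := fun R => φ R ∧ ∀ j ∈ W, ¬ Γ.HC R (X j)) (by
        rintro R hR z hz ⟨h1, h2⟩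
        refine ⟨hφ i hii R hR z hz h1, fun j hj h3 => h2 j hj (h3.congr fun e he => ?_)⟩
        have h4 : z e = 0 := by
          by_contra hc
          exact Γ.EU_disj (hdis i hii j (mem_insert_of_mem hj) (fun h => hi (h ▸ hj)))
            ((Γ.mem_ZB.1 hz).2 (mem_supp.2 hc)) he
        rw [Pi.add_apply, h4, add_zero])
      (by
        rintro R hR ⟨h1, _⟩
        exact hcl i hii R hR h1)
    have heq : Γ.cn univ (fun R => φ R ∧ ∀ j ∈ insert i W, ¬ Γ.HC R (X j))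
        = Γ.cn univ (fun R => (φ R ∧ ∀ j ∈ W, ¬ Γ.HC R (X j)) ∧ ¬ Γ.HC R (X i)) := by
      congr 1
      funext R
      apply propext
      simp only [Finset.forall_mem_insert]
      tauto
    rw [heq, Finset.card_insert_of_notMem hi, pow_succ, pow_succ]
    calc (2 ^ s) ^ W.card * 2 ^ s
          * Γ.cn univ (fun R => (φ R ∧ ∀ j ∈ W, ¬ Γ.HC R (X j)) ∧ ¬ Γ.HC R (X i))
        = (2 ^ s) ^ W.card * (2 ^ s
          * Γ.cn univ (fun R => (φ R ∧ ∀ j ∈ W, ¬ Γ.HC R (X j)) ∧ ¬ Γ.HC R (X i))) := by ring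
      _ ≤ (2 ^ s) ^ W.card * ((2 ^ s - 1) * Γ.cn univ (fun R => φ R ∧ ∀ j ∈ W, ¬ Γ.HC R (X j))) :=
          Nat.mul_le_mul_left _ hstep
      _ = (2 ^ s - 1) * ((2 ^ s) ^ W.card * Γ.cn univ (fun R => φ R ∧ ∀ j ∈ W, ¬ Γ.HC R (X j))) := by
          ring
      _ ≤ (2 ^ s - 1) * ((2 ^ s - 1) ^ W.card * Γ.cn univ φ) := Nat.mul_le_mul_left _ ih'
      _ = (2 ^ s - 1) ^ W.card * (2 ^ s - 1) * Γ.cn univ φ := by ring

theorem windows_single {ι : Type} [DecidableEq ι] (W : Finset ι) (X : ι → Finset V) (s q : ℕ)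
    (hdis : ∀ i ∈ W, ∀ j ∈ W, i ≠ j → Disjoint (X i) (X j))
    (hs : ∀ i ∈ W, (Γ.EU (X i)).card ≤ s) (φ : (E → ZMod 2) → Prop)
    (hφ : ∀ i ∈ W, ∀ R ∈ Γ.Z, ∀ z ∈ Γ.ZB (Γ.EU (X i)), φ R → φ (R + z))
    (hcl : ∀ i ∈ W, ∀ R ∈ Γ.Z, φ R → ∃ z ∈ Γ.ZB (Γ.EU (X i)), Γ.HC (R + z) (X i))
    (hq : 2 * q ≤ W.card) :
    (2 ^ s) ^ q * Γ.cn univ (fun R => φ R ∧ Γ.Single R) ≤ 2 * (2 ^ s - 1) ^ q * Γ.cn univ φ := by
  classical
  obtain ⟨W₁, hW₁, hc₁⟩ := Finset.exists_subset_card_eq (s := W) (n := q) (by omega)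
  obtain ⟨W₂, hW₂, hc₂⟩ := Finset.exists_subset_card_eq (s := W \ W₁) (n := q) (by
    rw [Finset.card_sdiff_of_subset hW₁, hc₁]; omega)
  have hW₂' : W₂ ⊆ W := hW₂.trans Finset.sdiff_subset
  have h1 := Γ.windows W₁ X s (fun i hi j hj => hdis i (hW₁ hi) j (hW₁ hj))
    (fun i hi => hs i (hW₁ hi)) φ (fun i hi => hφ i (hW₁ hi)) (fun i hi => hcl i (hW₁ hi))
  have h2 := Γ.windows W₂ X s (fun i hi j hj => hdis i (hW₂' hi) j (hW₂' hj))
    (fun i hi => hs i (hW₂' hi)) φ (fun i hi => hφ i (hW₂' hi)) (fun i hi => hcl i (hW₂' hi))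
  rw [hc₁] at h1
  rw [hc₂] at h2
  have h3 : Γ.cn univ (fun R => φ R ∧ Γ.Single R)
      ≤ Γ.cn univ (fun R => φ R ∧ ∀ i ∈ W₁, ¬ Γ.HC R (X i))
        + Γ.cn univ (fun R => φ R ∧ ∀ i ∈ W₂, ¬ Γ.HC R (X i)) := by
    rw [Γ.cn_eq univ (fun R => φ R ∧ Γ.Single R),
      Γ.cn_eq univ (fun R => φ R ∧ ∀ i ∈ W₁, ¬ Γ.HC R (X i)),
      Γ.cn_eq univ (fun R => φ R ∧ ∀ i ∈ W₂, ¬ Γ.HC R (X i))]
    refine (Finset.card_le_card ?_).trans (Finset.card_union_le _ _)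
    intro R hR
    rw [mem_filter] at hR
    rw [mem_union, mem_filter, mem_filter]
    obtain ⟨_, hRZ, hRφ, hRs⟩ := hR
    by_cases hA : ∀ i ∈ W₁, ¬ Γ.HC R (X i)
    · exact Or.inl ⟨mem_univ _, hRZ, hRφ, hA⟩
    · right
      refine ⟨mem_univ _, hRZ, hRφ, fun j hj hHC => ?_⟩
      push Not at hA
      obtain ⟨i, hi, D, hD, hD0, hD1, hD2⟩ := hA
      obtain ⟨D', hD', hD0', hD1', hD2'⟩ := hHC
      have e1 : D = R := hRs.eq_of_sub _ hD hD0 hD1
      have e2 : D' = R := hRs.eq_of_sub _ hD' hD0' hD1'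
      rw [e1] at hD2
      rw [e2] at hD2'
      obtain ⟨e, he⟩ := supp_nonempty hRs.ne_zero
      have hij : i ≠ j := by
        rintro rfl
        exact (mem_sdiff.1 (hW₂ hj)).2 hi
      exact Γ.EU_disj (hdis i (hW₁ hi) j (hW₂' hj) hij) (hD2 he) (hD2' he)
  calc (2 ^ s) ^ q * Γ.cn univ (fun R => φ R ∧ Γ.Single R)
      ≤ (2 ^ s) ^ q * (Γ.cn univ (fun R => φ R ∧ ∀ i ∈ W₁, ¬ Γ.HC R (X i))
        + Γ.cn univ (fun R => φ R ∧ ∀ i ∈ W₂, ¬ Γ.HC R (X i))) := Nat.mul_le_mul_left _ h3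
    _ ≤ 2 * (2 ^ s - 1) ^ q * Γ.cn univ φ := by rw [mul_add]; linarith

theorem windows_pow {ι : Type} [DecidableEq ι] (W : Finset ι) (X : ι → Finset V) (s k : ℕ)
    (hdis : ∀ i ∈ W, ∀ j ∈ W, i ≠ j → Disjoint (X i) (X j))
    (hs : ∀ i ∈ W, (Γ.EU (X i)).card ≤ s) (φ : (E → ZMod 2) → Prop)
    (hφ : ∀ i ∈ W, ∀ R ∈ Γ.Z, ∀ z ∈ Γ.ZB (Γ.EU (X i)), φ R → φ (R + z))
    (hcl : ∀ i ∈ W, ∀ R ∈ Γ.Z, φ R → ∃ z ∈ Γ.ZB (Γ.EU (X i)), Γ.HC (R + z) (X i))
    (hq : 2 * (2 ^ s * k) ≤ W.card) :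
    2 ^ k * Γ.cn univ (fun R => φ R ∧ Γ.Single R) ≤ 2 * Γ.cn univ φ := by
  have h1 := Γ.windows_single W X s (2 ^ s * k) hdis hs φ hφ hcl hq
  have h2 := Nat.pow_le_pow_left (two_mul_pow_le (2 ^ s) Nat.one_le_two_pow) k
  rw [mul_pow, ← pow_mul, ← pow_mul] at h2
  have h3 : 0 < (2 ^ s) ^ (2 ^ s * k) := by positivity
  refine Nat.le_of_mul_le_mul_left ?_ h3
  calc (2 ^ s) ^ (2 ^ s * k) * (2 ^ k * Γ.cn univ (fun R => φ R ∧ Γ.Single R))
      = 2 ^ k * ((2 ^ s) ^ (2 ^ s * k) * Γ.cn univ (fun R => φ R ∧ Γ.Single R)) := by ring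
    _ ≤ 2 ^ k * (2 * (2 ^ s - 1) ^ (2 ^ s * k) * Γ.cn univ φ) := Nat.mul_le_mul_left _ h1
    _ = 2 * (2 ^ k * (2 ^ s - 1) ^ (2 ^ s * k)) * Γ.cn univ φ := by ring
    _ ≤ 2 * (2 ^ s) ^ (2 ^ s * k) * Γ.cn univ φ :=
        Nat.mul_le_mul_right _ (Nat.mul_le_mul_left _ h2)
    _ = (2 ^ s) ^ (2 ^ s * k) * (2 * Γ.cn univ φ) := by ring

end Cub

end Pool.Agent.Lib.MP_af4270_co
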