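import Pool.Agent.Lib.MP_af4270_co.BStrip
import Pool.Agent.Lib.MP_af4270_co.BWin

/-!
# PAN-B7: the functional of a long strip is rare; there are few disjoint bad windows

`rare`: windows `W j = X (3j) ∪ X (3j+1) ∪ X (3j+2)`, `j < 2 * (2^s * k)`, `3 j + 2 < M`; edges inside: at most
`s` by hypothesis. `φ R := par (bt (X 0) (X 1)) R = 0`. Invariance: for `z ∈ Z` supported inside `W j`,
`par (bt (X 0) (X 1)) z = par (bt (X i) (X (i+1))) z` for every `i < M` (`parity`), and for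
`i = M - 1` (if `3j + 2 < M - 1`; `M` is large enough) no edge of `bt (X (M-1)) (X M)` is inside `W j`, so it
is `0`. `hcl`: `Strip.close` with `i = 3 j + 1` gives `supp (C i) ⊆ supp (R + z)`, and
`supp (C i) ⊆ EU (X i) ⊆ EU (W j)`. `windows_pow`: `2^k cn(par = 0 ∧ Single) ≤ 2 cn(par = 0) ≤ 2 cn univ`.
With `2 q ≤ 2^k`: `q cn(Single ∧ par = 0) ≤ cn univ`. The nonvanishing is `nz`.

`bad_card`: `windows_pow` with `φ = True`: if `2 * (2^s * k) ≤ W.card` then `2^k cn(Single) ≤ 2 cn univ ≤ 2 m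
cn(Single)`; `cn(Single) > 0` (since `cn univ ≥ 1`, `0 ∈ Z`), so `2^k ≤ 2 m`: contradiction.
-/

set_option autoImplicit false
set_option linter.unusedSectionVars false

namespace Pool.Agent.Lib.MP_af4270_co

open Finset

variable {V E : Type} [Fintype V] [DecidableEq V] [Fintype E] [DecidableEq E]

theorem Cub.cn_congr (Γ : Cub V E) {B : Finset E} {φ ψ : (E → ZMod 2) → Prop}
    (h : ∀ R ∈ Γ.Z, φ R ↔ ψ R) : Γ.cn B φ = Γ.cn B ψ := by
  classical
  unfold Cub.cn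
  congr 1
  ext R
  simp only [mem_filter, mem_univ, true_and]
  constructor
  · rintro ⟨h1, h2⟩
    exact ⟨h1, (h R h1.1).1 h2⟩
  · rintro ⟨h1, h2⟩
    exact ⟨h1, (h R h1.1).2 h2⟩

theorem Cub.cn_mono_imp (Γ : Cub V E) {B : Finset E} {φ ψ : (E → ZMod 2) → Prop}
    (h : ∀ R ∈ Γ.ZB B, φ R → ψ R) : Γ.cn B φ ≤ Γ.cn B ψ := by
  classical
  unfold Cub.cn
  refine Finset.card_le_card fun R hR => ?_
  rw [mem_filter] at hR ⊢
  exact ⟨hR.1, hR.2.1, h R hR.2.1 hR.2.2⟩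

theorem Cub.cn_le_true (Γ : Cub V E) (B : Finset E) (φ : (E → ZMod 2) → Prop) :
    Γ.cn B φ ≤ Γ.cn B (fun _ => True) :=
  Γ.cn_mono_imp fun _ _ _ => trivial

theorem Cub.cn_pos_of_mem (Γ : Cub V E) {B : Finset E} {φ : (E → ZMod 2) → Prop}
    {R : E → ZMod 2} (hR : R ∈ Γ.ZB B) (h : φ R) : 0 < Γ.cn B φ := by
  classical
  unfold Cub.cn
  refine Finset.card_pos.2 ⟨R, ?_⟩
  rw [mem_filter]
  exact ⟨mem_univ _, hR, h⟩

theorem Cub.cn_true_pos (Γ : Cub V E) (B : Finset E) : 0 < Γ.cn B (fun _ => True) :=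
  Γ.cn_pos_of_mem (Γ.ZB B).zero_mem trivial

theorem Strip.rare {Γ : Cub V E} {ℓ M : ℕ} (S : Strip Γ ℓ M) {s k q : ℕ}
    (hs : ∀ i, i + 2 ≤ M → (Γ.EU (S.X i ∪ S.X (i + 1) ∪ S.X (i + 2))).card ≤ s)
    (hk : 2 * q ≤ 2 ^ k) (hM : 6 * (2 ^ s * k) + 6 ≤ M) :
    Γ.Rare q (Γ.bt (S.X 0) (S.X 1)) := by
  classical
  refine ⟨S.nz, ?_⟩
  obtain ⟨N, hN⟩ : ∃ N, N = 2 ^ s * k := ⟨_, rfl⟩
  rw [← hN] at hM
  have hwp := Γ.windows_pow (range (2 * N))
    (fun j => S.X (3 * j) ∪ S.X (3 * j + 1) ∪ S.X (3 * j + 2)) s k ?_ ?_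
    (fun R => par (Γ.bt (S.X 0) (S.X 1)) R = 0) ?_ ?_ ?_
  · have h1 : Γ.cn univ (fun R => par (Γ.bt (S.X 0) (S.X 1)) R = 0 ∧ Γ.Single R)
        = Γ.cn univ (fun R => Γ.Single R ∧ par (Γ.bt (S.X 0) (S.X 1)) R = 0) :=
      Γ.cn_congr fun R _ => and_comm
    rw [h1] at hwp
    have h2 := Γ.cn_le_true univ (fun R => par (Γ.bt (S.X 0) (S.X 1)) R = 0)
    have h3 := Nat.mul_le_mul_right
      (Γ.cn univ (fun R => Γ.Single R ∧ par (Γ.bt (S.X 0) (S.X 1)) R = 0)) hk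
    have h4 : 2 * (q * Γ.cn univ (fun R => Γ.Single R ∧ par (Γ.bt (S.X 0) (S.X 1)) R = 0))
        ≤ 2 * Γ.cn univ (fun _ => True) := by
      rw [← mul_assoc]
      omega
    omega
  · intro i hi j hj hij
    rw [mem_range] at hi hj
    rw [Finset.disjoint_left]
    intro x hx hx'
    simp only [mem_union] at hx hx'
    rcases hx with (h | h) | h <;> rcases hx' with (h' | h') | h' <;>
      exact S.not_both (by omega) (by omega) (by omega) h h'
  · intro j hj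
    rw [mem_range] at hj
    exact hs (3 * j) (by omega)
  · intro j hj R hR z hz hφ
    rw [mem_range] at hj
    have hz' := (Γ.mem_ZB).1 hz
    rw [par_add, hφ, zero_add, ← S.parity hz'.1 (i := M - 1) (by omega)]
    refine Finset.sum_eq_zero fun e he => ?_
    by_contra hne
    have h1 := hz'.2 (mem_supp.2 hne)
    rw [Γ.mem_EU] at h1
    rw [Γ.mem_bt] at he
    have key : ∀ x, x ∈ S.X (M - 1) → x ∈ S.X (3 * j) ∪ S.X (3 * j + 1) ∪ S.X (3 * j + 2) →
        False := by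
      intro x h2 h3
      simp only [mem_union] at h3
      rcases h3 with (h3 | h3) | h3 <;>
        exact S.not_both (by omega) (by omega) (by omega) h2 h3
    rcases he with ⟨h2, h3⟩ | ⟨h2, h3⟩
    · exact key _ h2 h1.1
    · exact key _ h3 h1.2
  · intro j hj R hR hφ
    rw [mem_range] at hj
    obtain ⟨z, hz, hz2⟩ := S.close (i := 3 * j + 1) (by omega) (by omega) hR hφ
    refine ⟨z, hz, S.C (3 * j + 1), (S.single _ (by omega)).1, (S.single _ (by omega)).2.1, hz2, ?_⟩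
    intro e he
    have h1 := Γ.supp_subset_EU_vs (S.C (3 * j + 1)) he
    rw [Γ.mem_EU] at h1 ⊢
    have h2 := S.sub (3 * j + 1) (by omega)
    exact ⟨mem_union_left _ (mem_union_right _ (h2 h1.1)),
      mem_union_left _ (mem_union_right _ (h2 h1.2))⟩
  · rw [card_range, hN]

theorem Cub.bad_card (Γ : Cub V E) {ι : Type} [DecidableEq ι] (W : Finset ι) (X : ι → Finset V)
    {s k m : ℕ} (hdis : ∀ i ∈ W, ∀ j ∈ W, i ≠ j → Disjoint (X i) (X j))
    (hs : ∀ i ∈ W, (Γ.EU (X i)).card ≤ s) (hbad : ∀ i ∈ W, Γ.BadW (X i))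
    (hm : Γ.cn univ (fun _ => True) ≤ m * Γ.cn univ Γ.Single) (hk : 2 * m < 2 ^ k) :
    W.card < 2 * (2 ^ s * k) := by
  classical
  by_contra hc
  push Not at hc
  have h1 := Γ.windows_pow W X s k hdis hs (fun _ => True) (fun _ _ _ _ _ _ _ => trivial)
    (fun i hi R hR _ => hbad i hi R hR) hc
  have h2 : Γ.cn univ (fun R => True ∧ Γ.Single R) = Γ.cn univ Γ.Single :=
    Γ.cn_congr fun R _ => by simp
  rw [h2] at h1
  have h3 := Γ.cn_true_pos univ
  have h4 : 0 < Γ.cn univ Γ.Single := by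
    rcases Nat.eq_zero_or_pos (Γ.cn univ Γ.Single) with h | h
    · rw [h] at hm; omega
    · exact h
  have h5 : 2 ^ k * Γ.cn univ Γ.Single ≤ 2 * m * Γ.cn univ Γ.Single := by
    rw [mul_assoc]
    omega
  have h6 := Nat.le_of_mul_le_mul_right h5 h4
  omega

end Pool.Agent.Lib.MP_af4270_co
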