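import Pool.Agent.Lib.MP_af4270_co.CCyc

/-!
# Part C: the vertices in the middle of a lossless window of a strip are guarded
-/

set_option autoImplicit false
set_option linter.unusedSectionVars false

namespace Pool.Agent.Lib.MP_af4270_co

open Finset

variable {V E : Type} [Fintype V] [DecidableEq V] [Fintype E] [DecidableEq E]

namespace Cub

variable {Γ : Cub V E} {Y : Finset V} {a b : V}

/-- a lossless network between two cycles: inner vertices far from the two cycles are guarded by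
the boundary on the first side -/
theorem Net.guard (N : Γ.Net Y a b) {C C' : E → ZMod 2} (hC : Γ.Single C) (hC' : Γ.Single C')
    (hCY : Γ.vs C ⊆ Y) (hCY' : Γ.vs C' ⊆ Y) (haC : a ∈ Γ.vs C) (hbC' : b ∈ Γ.vs C')
    {L : Finset E} (hL : ∀ e ∈ L, ∃ u v, Γ.jn e u v ∧ u ∈ Γ.vs C ∧ v ∉ Y)
    (hout : ∀ e ∈ Γ.bd Y, e ∈ L ∨ e ∈ Γ.touch (Γ.vs C')) {p : V}
    (hp : Pure Γ Y a b p 12) (hd : Disjoint (Γ.ball p 2) (Γ.vs C))
    (hd' : Disjoint (Γ.ball p 2) (Γ.vs C')) : Γ.Guard L p := by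
  classical
  rw [Finset.disjoint_left] at hd hd'
  obtain ⟨U, hUY, haU, hbU, hcut⟩ := N.cut (hp.mono (by norm_num))
  have hCU : Γ.vs C ⊆ U := by
    by_contra hcon
    have h1 : Γ.vs C ∩ U ≠ Γ.vs C := fun h => hcon (Finset.inter_eq_left.1 h)
    obtain ⟨e, he, hCe⟩ := Γ.single_cut hC Finset.inter_subset_left
      ⟨a, mem_inter.2 ⟨haC, haU⟩⟩ h1
    have h2 := Γ.s_mem_vs hCe
    have h3 := Γ.t_mem_vs hCe
    have h4 : e ∈ Γ.bt U (Y \ U) := by
      rw [Γ.mem_bt] at he ⊢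
      simp only [mem_inter, mem_sdiff, not_and] at he ⊢
      rcases he with ⟨a1, a2⟩ | ⟨a1, a2⟩
      · exact Or.inl ⟨a1.2, hCY h3, a2.2 h3⟩
      · exact Or.inr ⟨⟨hCY h2, a1.2 h2⟩, a2.2⟩
    rcases hcut e h4 with h5 | h5
    · exact hd h5 h2
    · exact hd h5 h3
  have hCU' : ∀ x ∈ Γ.vs C', x ∉ U := by
    intro x hx hxU
    have h1 : Γ.vs C' ∩ U ≠ Γ.vs C' := by
      intro h
      exact hbU (mem_inter.1 (h.symm ▸ hbC' : b ∈ Γ.vs C' ∩ U)).2
    obtain ⟨e, he, hCe⟩ := Γ.single_cut hC' Finset.inter_subset_left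
      ⟨x, mem_inter.2 ⟨hx, hxU⟩⟩ h1
    have h2 := Γ.s_mem_vs hCe
    have h3 := Γ.t_mem_vs hCe
    have h4 : e ∈ Γ.bt U (Y \ U) := by
      rw [Γ.mem_bt] at he ⊢
      simp only [mem_inter, mem_sdiff, not_and] at he ⊢
      rcases he with ⟨a1, a2⟩ | ⟨a1, a2⟩
      · exact Or.inl ⟨a1.2, hCY' h3, a2.2 h3⟩
      · exact Or.inr ⟨⟨hCY' h2, a1.2 h2⟩, a2.2⟩
    rcases hcut e h4 with h5 | h5
    · exact hd' h5 h2
    · exact hd' h5 h3
  have hbd : Γ.bd U = Γ.bt U (Y \ U) ∪ L := by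
    ext e
    rw [mem_union]
    constructor
    · intro he
      by_cases h1 : e ∈ Γ.bt U (Y \ U)
      · exact Or.inl h1
      · right
        have aux : ∀ u v, Γ.jn e u v → u ∈ U → v ∉ U → v ∉ Y := by
          intro u v hj hu hv hvY
          apply h1
          rw [Γ.mem_bt]
          simp only [mem_sdiff]
          rcases hj with ⟨j1, j2⟩ | ⟨j1, j2⟩
          · rw [j1, j2]; exact Or.inl ⟨hu, hvY, hv⟩
          · rw [j1, j2]; exact Or.inr ⟨⟨hvY, hv⟩, hu⟩
        rw [Γ.mem_bd] at he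
        have h2 : e ∈ Γ.bd Y := by
          rw [Γ.mem_bd]
          rcases he with ⟨h3, h4⟩ | ⟨h3, h4⟩
          · exact Or.inl ⟨hUY h3, aux _ _ (jn_st e) h3 h4⟩
          · exact Or.inr ⟨aux _ _ (jn_st e).symm h4 h3, hUY h4⟩
        rcases hout e h2 with h3 | h3
        · exact h3
        · exfalso
          rw [Γ.mem_touch] at h3
          rcases he with ⟨h4, h5⟩ | ⟨h4, h5⟩
          · have h6 := aux _ _ (jn_st e) h4 h5
            rcases h3 with h3 | h3
            · exact hCU' _ h3 h4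
            · exact h6 (hCY' h3)
          · have h6 := aux _ _ (jn_st e).symm h5 h4
            rcases h3 with h3 | h3
            · exact h6 (hCY' h3)
            · exact hCU' _ h3 h5
    · rintro (he | he)
      · rw [Γ.mem_bt] at he
        rw [Γ.mem_bd]
        simp only [mem_sdiff] at he
        tauto
      · obtain ⟨u, v, hj, hu, hv⟩ := hL e he
        have h1 := hCU hu
        have h2 : v ∉ U := fun h => hv (hUY h)
        rw [Γ.mem_bd]
        rcases hj with ⟨j1, j2⟩ | ⟨j1, j2⟩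
        · rw [j1, j2]; exact Or.inl ⟨h1, h2⟩
        · rw [j1, j2]; exact Or.inr ⟨h2, h1⟩
  have hdis : Disjoint (Γ.bt U (Y \ U)) L := by
    rw [Finset.disjoint_left]
    intro e he heL
    obtain ⟨u, v, hj, hu, hv⟩ := hL e heL
    rw [Γ.mem_bt] at he
    simp only [mem_sdiff] at he
    rcases hj with ⟨j1, j2⟩ | ⟨j1, j2⟩
    · rw [j1, j2] at he
      rcases he with h | h
      · exact hv h.2.1
      · exact hv (hUY h.2)
    · rw [j1, j2] at he
      rcases he with h | h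
      · exact hv (hUY h.1)
      · exact hv h.1.1
  refine ⟨⟨Γ.bt U (Y \ U), fun R hR => ?_, fun e he => ?_⟩, ?_⟩
  · have h1 := Γ.par_bd U hR
    rw [hbd, par, Finset.sum_union hdis] at h1
    have h2 : par (Γ.bt U (Y \ U)) R + par L R = 0 := h1
    rcases zm_cases (par (Γ.bt U (Y \ U)) R) with h4 | h4 <;>
      rcases zm_cases (par L R) with h5 | h5 <;> rw [h4, h5] at h2 ⊢
    · exact absurd h2 (by decide)
    · exact absurd h2 (by decide)
  · rcases hcut e he with h1 | h1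
    · exact Or.inl (Γ.ball_mono p (by norm_num) h1)
    · exact Or.inr (Γ.ball_mono p (by norm_num) h1)
  · obtain ⟨D, hD, h0, hs⟩ := N.cycle hp
    exact ⟨D, hD, h0, hs.trans (Γ.EU_mono (Γ.ball_mono p (by norm_num)))⟩

end Cub

open Cub

variable {Γ : Cub V E}

/-- an edge at an inner vertex of a strip ends in one of three consecutive sets -/
theorem Strip.step {ℓ M : ℕ} (S : Strip Γ ℓ M) {i : ℕ} (h0 : 0 < i) (hM : i < M) {x y : V}
    {e : E} (hx : x ∈ S.X i) (hj : Γ.jn e x y) :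
    y ∈ S.X (i - 1) ∨ y ∈ S.X i ∨ y ∈ S.X (i + 1) := by
  by_cases hy : y ∈ S.X i
  · exact Or.inr (Or.inl hy)
  · have h1 : e ∈ Γ.bd (S.X i) := by
      rw [Γ.mem_bd]
      rcases hj with ⟨j1, j2⟩ | ⟨j1, j2⟩
      · rw [j1, j2]; exact Or.inl ⟨hx, hy⟩
      · rw [j1, j2]; exact Or.inr ⟨hy, hx⟩
    have h2 := S.nbr i h0 hM h1
    have d1 := S.disj (i - 1) (by omega) i (by omega) (by omega)
    have d2 := S.disj i (by omega) (i + 1) (by omega) (by omega)
    rw [Finset.disjoint_left] at d1 d2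
    rw [mem_union, Γ.mem_bt, Γ.mem_bt] at h2
    rcases hj with ⟨j1, j2⟩ | ⟨j1, j2⟩
    · rw [j1, j2] at h2
      rcases h2 with (h | h) | (h | h)
      · exact absurd h.2 hy
      · exact Or.inl h.2
      · exact Or.inr (Or.inr h.2)
      · exact absurd h.2 hy
    · rw [j1, j2] at h2
      rcases h2 with (h | h) | (h | h)
      · exact Or.inl h.1
      · exact absurd h.1 hy
      · exact absurd h.1 hy
      · exact Or.inr (Or.inr h.1)

/-- balls inside a strip -/
theorem Strip.ball {ℓ M : ℕ} (S : Strip Γ ℓ M) {i : ℕ} {x : V} (hx : x ∈ S.X i) (m : ℕ)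
    (h0 : m ≤ i) (hM : i + m ≤ M) {y : V} (hy : y ∈ Γ.ball x m) :
    ∃ j, i - m ≤ j ∧ j ≤ i + m ∧ y ∈ S.X j := by
  induction m generalizing y with
  | zero =>
    have : y = x := by simpa [Cub.ball] using hy
    rw [this]; exact ⟨i, by omega, by omega, hx⟩
  | succ m ih =>
    rcases Γ.ball_succ_iff.1 hy with h | ⟨z, hz, e, he⟩
    · obtain ⟨j, h1, h2, h3⟩ := ih (by omega) (by omega) h
      exact ⟨j, by omega, by omega, h3⟩
    · obtain ⟨j, h1, h2, h3⟩ := ih (by omega) (by omega) hz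
      have hj : Γ.jn e z y := by
        rcases he with h | h
        · exact Or.inl h
        · exact Or.inr h
      rcases S.step (by omega) (by omega) h3 hj with h4 | h4 | h4
      · exact ⟨j - 1, by omega, by omega, h4⟩
      · exact ⟨j, by omega, by omega, h4⟩
      · exact ⟨j + 1, by omega, by omega, h4⟩

/-- vertices in the middle of a lossless window are guarded. `Y` is `X 1 ∪ ... ∪ X 58` together
with a part of `X 59` containing the cycle `C 59`. -/
theorem Strip.guard {ℓ : ℕ} (S : Strip Γ ℓ 60) {Y : Finset V} {a b : V} (N : Γ.Net Y a b)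
    (ha : a ∈ Γ.vs (S.C 1)) (hb : b ∈ Γ.vs (S.C 59))
    (hY : ∀ i, 1 ≤ i → i ≤ 58 → S.X i ⊆ Y) (hC : Γ.vs (S.C 59) ⊆ Y)
    (hY0 : Disjoint Y (S.X 0))
    (hout : ∀ e ∈ Γ.bd Y, e ∈ Γ.bt (S.X 0) (S.X 1) ∨ e ∈ Γ.touch (Γ.vs (S.C 59)))
    {i : ℕ} (h1 : 20 ≤ i) (h2 : i ≤ 40) {x : V} (hx : x ∈ S.X i) :
    Γ.Guard (Γ.bt (S.X 0) (S.X 1)) x := by
  have hdg : ∀ j, 2 ≤ j → j ≤ 57 → ∀ y ∈ S.X j, Γ.dg Y y = 3 := by
    intro j hj1 hj2 y hy
    rw [dg, ← Γ.card_dt y]
    congr 1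
    refine Finset.filter_true_of_mem fun d hd => ?_
    have hj := jn_dart (Γ := Γ) d
    rw [Γ.mem_dt.1 hd] at hj
    rw [hj.mem_EU]
    refine ⟨hY j (by omega) (by omega) hy, ?_⟩
    rcases S.step (by omega) (by omega) hy hj with h | h | h
    · exact hY _ (by omega) (by omega) h
    · exact hY _ (by omega) (by omega) h
    · exact hY _ (by omega) (by omega) h
  have hnotin : ∀ j k, j ≤ 60 → k ≤ 60 → j ≠ k → ∀ y ∈ S.X j, y ∉ S.X k := by
    intro j k hj hk hne y hy hy'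
    exact (Finset.disjoint_left.1 (S.disj j hj k hk hne)) hy hy'
  have ha1 : a ∈ S.X 1 := S.sub 1 (by norm_num) ha
  have hb1 : b ∈ S.X 59 := S.sub 59 (by norm_num) hb
  refine N.guard (S.single 1 (by norm_num)) (S.single 59 (by norm_num)) ?_ hC ha hb ?_ hout
    (p := x) ?_ ?_ ?_
  · exact (S.sub 1 (by norm_num)).trans (hY 1 (by norm_num) (by norm_num))
  · intro e he
    have h3 := S.left 0 (by norm_num) he
    rw [Γ.mem_touch] at h3
    rw [Γ.mem_bt] at he
    have hdis : ∀ y, y ∈ S.X 0 → y ∉ Γ.vs (S.C 1) := fun y hy hy' =>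
      hnotin 0 1 (by norm_num) (by norm_num) (by norm_num) y hy (S.sub 1 (by norm_num) hy')
    have hY0' : ∀ y, y ∈ S.X 0 → y ∉ Y := fun y hy hy' =>
      (Finset.disjoint_left.1 hY0) hy' hy
    rcases he with ⟨h4, h5⟩ | ⟨h4, h5⟩
    · refine ⟨Γ.t e, Γ.s e, (jn_st e).symm, ?_, hY0' _ h4⟩
      rcases h3 with h3 | h3
      · exact absurd h3 (hdis _ h4)
      · exact h3
    · refine ⟨Γ.s e, Γ.t e, jn_st e, ?_, hY0' _ h5⟩
      rcases h3 with h3 | h3
      · exact h3
      · exact absurd h3 (hdis _ h5)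
  · intro y hy
    obtain ⟨j, hj1, hj2, hyj⟩ := S.ball hx 12 (by omega) (by omega) hy
    refine ⟨hY j (by omega) (by omega) hyj, hdg j (by omega) (by omega) y hyj, ?_, ?_⟩
    · rintro rfl
      exact hnotin j 1 (by omega) (by norm_num) (by omega) _ hyj ha1
    · rintro rfl
      exact hnotin j 59 (by omega) (by norm_num) (by omega) _ hyj hb1
  · rw [Finset.disjoint_left]
    intro y hy hy'
    obtain ⟨j, hj1, hj2, hyj⟩ := S.ball hx 2 (by omega) (by omega) hy
    exact hnotin j 1 (by omega) (by norm_num) (by omega) y hyj (S.sub 1 (by norm_num) hy')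
  · rw [Finset.disjoint_left]
    intro y hy hy'
    obtain ⟨j, hj1, hj2, hyj⟩ := S.ball hx 2 (by omega) (by omega) hy
    exact hnotin j 59 (by omega) (by norm_num) (by omega) y hyj (S.sub 59 (by norm_num) hy')

end Pool.Agent.Lib.MP_af4270_co
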