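import Pool.Agent.Lib.MP_af4270_co.BChain
import Pool.Agent.Lib.MP_af4270_co.BRare
import Pool.Agent.Lib.MP_af4270_co.CGuard

/-!
# PAN-B10: sizes of the layers, number of members of a chain which are not fine

`card_X`: `A = S.X j \ vs (S.C j)` is contained in `univ \ ⋃ vs` (the other members of `𝒟` do not meet
`S.X j`), so it is `ℓ`-free (`F.free`, monotone in the set). The edges leaving `A` end on `vs (S.C j)` or
on `vs (S.C (j+1))`: `S.nbr`, `S.left` (an edge between `X (j-1)` and `X j` touches `vs (C j)`, its end in `X j`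
is on it; an edge between `X j` and `X (j+1)` touches `vs (C (j+1)) ⊆ X (j+1)`). So
`bd A ⊆ bd (vs (C j)) ∪ bd (vs (C (j+1)))`, `|bd A| ≤ 2ℓ` (`card_bd_single`), and `|A| ≤ 4ℓ²` by (H1).
`|X j| ≤ |A| + |vs (C j)| ≤ 4ℓ² + ℓ` (`card_vs`).

`card_EU_le`: from `card_bd_add`.

`Rare.congr`: clear from the definitions (only `R ∈ Z` count in `cn`).

`count`. Let `c, N` be an enumeration (`exists_enum`), `s = 500 ℓ²`, `H = 3 * 2^s * k + 40`.
 `dirty = {j < N - 1 : Xs j not disjoint from mrk}`; the `Xs j` are disjoint, so `|dirty| ≤ |mrk| ≤ 3 t ℓ²`.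
 `B₁ = {i < N : ¬ (H ≤ i ∧ i + H + 1 < N ∧ ∀ j, i ≤ j + H → j ≤ i + H → j ∉ dirty)}`:
 `|B₁| ≤ H + (H + 1) + (2H+1) |dirty|`.
 Let `i < N`, `i ∉ B₁`. `chain_strip` with `i₀ = i - H`, `M = 2H` gives a strip `S₀`. `card_X` for `0 < j < 2H`:
 `|S₀.X j| ≤ 5ℓ²`. `S₁ = S₀.sub' 1 (2H-2)`: unions of three sets have at most `15ℓ²` vertices, hence at most
 `s` edges; `Strip.rare` (`6 * (2^s * k) + 6 ≤ 2H - 2`). `S = S₀.sub' (H - 30) 60`: its functional agrees on `Z`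
 with the functional of `S₁` (`parity` in `S₀`), so it is rare (`Rare.congr`). `S.C 30 = c i`.
 So `c i` is fine unless the window `U i = ⋃_{j ≤ 60} Xs (i - 30 + j)` is bad. Let `B₂` be the set of `i ∉ B₁`,
 `i < N`, with `BadW (U i)`. For each residue `r` mod 61 the windows `U i`, `i ∈ B₂`, `i ≡ r`, are disjoint and
 have at most `305ℓ²` vertices, hence at most `s` edges: at most `2 * (2^s * k)` of them (`bad_card`).
 So `|B₂| ≤ 61 * (2 * (2^s * k))`.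
-/

set_option autoImplicit false
set_option linter.unusedSectionVars false

namespace Pool.Agent.Lib.MP_af4270_co

open Finset

variable {V E : Type} [Fintype V] [DecidableEq V] [Fintype E] [DecidableEq E]

namespace Cub

variable (Γ : Cub V E)

/-- every nonempty region without cycles of length at most `ℓ` has a large boundary -/
def H1 (ℓ : ℕ) : Prop := ∀ A : Finset V, A.Nonempty → Γ.Free ℓ A → A.card < (Γ.bd A).card ^ 2

theorem card_EU_le (U : Finset V) : 2 * (Γ.EU U).card ≤ 3 * U.card := by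
  have := Γ.card_bd_add U
  omega

theorem Rare.congr {Γ : Cub V E} {q : ℕ} {v v' : Finset E} (h : Γ.Rare q v)
    (hv : ∀ R ∈ Γ.Z, par v R = par v' R) : Γ.Rare q v' := by
  obtain ⟨⟨R, hR, hne⟩, h2⟩ := h
  refine ⟨⟨R, hR, by rw [← hv R hR]; exact hne⟩, ?_⟩
  have h3 : Γ.cn univ (fun R => Γ.Single R ∧ par v R = 0)
      = Γ.cn univ (fun R => Γ.Single R ∧ par v' R = 0) := by
    unfold cn
    congr 1
    ext R
    simp only [mem_filter, mem_univ, true_and]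
    constructor
    · rintro ⟨h4, h5, h6⟩
      exact ⟨h4, h5, by rw [← hv R h5.1]; exact h6⟩
    · rintro ⟨h4, h5, h6⟩
      exact ⟨h4, h5, by rw [hv R h5.1]; exact h6⟩
  rw [← h3]
  exact h2

/-- `C` is the central cycle of a good window with a rare functional -/
def Fine (ℓ : ℕ) (𝒟 : Finset (E → ZMod 2)) (q : ℕ) (C : E → ZMod 2) : Prop :=
  ∃ S : Strip Γ ℓ 60, S.C 30 = C ∧ (∀ i ≤ 60, S.C i ∈ 𝒟) ∧
    Γ.Rare q (Γ.bt (S.X 0) (S.X 1)) ∧ ¬ Γ.BadW ((range 61).biUnion S.X)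

end Cub

theorem Strip.notMem_of_ne {Γ : Cub V E} {ℓ M : ℕ} (S : Strip Γ ℓ M) {i j : ℕ} (hi : i ≤ M)
    (hj : j ≤ M) (hne : i ≠ j) {x : V} (hx : x ∈ S.X i) : x ∉ S.X j :=
  fun h => (Finset.disjoint_left.1 (S.disj i hi j hj hne)) hx h

/-- an edge between `X (i-1)` and `X i` ends on the cycle `C i` -/
theorem Strip.end_on_C {Γ : Cub V E} {ℓ M : ℕ} (S : Strip Γ ℓ M) {i : ℕ} (h0 : 0 < i)
    (hM : i ≤ M) {x y : V} {e : E} (hx : x ∈ S.X i) (hy : y ∈ S.X (i - 1)) (hj : Γ.jn e x y) :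
    x ∈ Γ.vs (S.C i) := by
  have h1 : e ∈ Γ.bt (S.X (i - 1)) (S.X (i - 1 + 1)) := by
    have h2 : i - 1 + 1 = i := by omega
    rw [h2, Γ.mem_bt]
    rcases hj with ⟨j1, j2⟩ | ⟨j1, j2⟩
    · rw [j1, j2]; exact Or.inr ⟨hx, hy⟩
    · rw [j1, j2]; exact Or.inl ⟨hy, hx⟩
  have h3 := S.left (i - 1) (by omega) h1
  have h2 : i - 1 + 1 = i := by omega
  rw [h2, Γ.mem_touch] at h3
  have h4 : y ∉ Γ.vs (S.C i) := fun h =>
    S.notMem_of_ne (by omega) hM (by omega) hy (S.sub i hM h)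
  rcases hj with ⟨j1, j2⟩ | ⟨j1, j2⟩
  · rw [j1, j2] at h3
    rcases h3 with h3 | h3
    · exact h3
    · exact absurd h3 h4
  · rw [j1, j2] at h3
    rcases h3 with h3 | h3
    · exact absurd h3 h4
    · exact h3

theorem Fam.card_X {Γ : Cub V E} {ℓ M : ℕ} {𝒟 I : Finset (E → ZMod 2)} (F : Fam Γ ℓ 𝒟 I)
    (hℓ : 1 ≤ ℓ) (H1 : Γ.H1 ℓ) (S : Strip Γ ℓ M) {j : ℕ} (h0 : 0 < j) (hj : j < M)
    (hX : ∀ D ∈ 𝒟, D ≠ S.C j → Disjoint (Γ.vs D) (S.X j)) : (S.X j).card ≤ 5 * ℓ ^ 2 := by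
  classical
  have hvs : (Γ.vs (S.C j)).card ≤ ℓ := by
    rw [Γ.card_vs (S.single j hj.le).1]
    exact S.len j hj.le
  obtain ⟨A, hA⟩ : ∃ A, A = S.X j \ Γ.vs (S.C j) := ⟨_, rfl⟩
  have hXA : (S.X j).card ≤ A.card + (Γ.vs (S.C j)).card := by
    have h1 : S.X j ⊆ A ∪ Γ.vs (S.C j) := by
      intro x hx
      rw [mem_union, hA, mem_sdiff]
      by_cases h : x ∈ Γ.vs (S.C j)
      · exact Or.inr h
      · exact Or.inl ⟨hx, h⟩
    exact (Finset.card_le_card h1).trans (Finset.card_union_le _ _)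
  have hℓ2 : ℓ ≤ ℓ ^ 2 := by
    rw [pow_two]
    exact Nat.le_mul_self ℓ
  rcases Finset.eq_empty_or_nonempty A with hAe | hAne
  · rw [hAe, Finset.card_empty] at hXA
    omega
  · have hfree : Γ.Free ℓ A := by
      intro D hD hD0 hDA
      refine F.free D hD hD0 (hDA.trans (Γ.EU_mono ?_))
      intro x hx
      rw [hA, mem_sdiff] at hx
      rw [mem_sdiff, mem_biUnion]
      refine ⟨mem_univ _, ?_⟩
      rintro ⟨D', hD', hx'⟩
      by_cases hDe : D' = S.C j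
      · exact hx.2 (hDe ▸ hx')
      · exact (Finset.disjoint_left.1 (hX D' hD' hDe)) hx' hx.1
    have h1 := H1 A hAne hfree
    have hbd : Γ.bd A ⊆ Γ.bd (Γ.vs (S.C j)) ∪ Γ.bd (Γ.vs (S.C (j + 1))) := by
      intro e he
      have key : ∀ u v, Γ.jn e u v → u ∈ A → v ∉ A →
          e ∈ Γ.bd (Γ.vs (S.C j)) ∪ Γ.bd (Γ.vs (S.C (j + 1))) := by
        intro u v hjn hu hv
        rw [hA, mem_sdiff] at hu
        have bdm : ∀ W : Finset V, u ∉ W → v ∈ W → e ∈ Γ.bd W := by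
          intro W h2 h3
          rw [Γ.mem_bd]
          rcases hjn with ⟨j1, j2⟩ | ⟨j1, j2⟩
          · rw [j1, j2]; exact Or.inr ⟨h2, h3⟩
          · rw [j1, j2]; exact Or.inl ⟨h3, h2⟩
        rw [mem_union]
        by_cases hvC : v ∈ Γ.vs (S.C j)
        · exact Or.inl (bdm _ hu.2 hvC)
        · have hvX : v ∉ S.X j := fun h => hv (by rw [hA, mem_sdiff]; exact ⟨h, hvC⟩)
          rcases S.step h0 hj hu.1 hjn with h | h | h
          · exact absurd (S.end_on_C h0 hj.le hu.1 h hjn) hu.2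
          · exact absurd h hvX
          · right
            have h2 := S.end_on_C (i := j + 1) (Nat.succ_pos j) hj h
              (by rw [Nat.add_sub_cancel]; exact hu.1) hjn.symm
            refine bdm _ (fun h3 => ?_) h2
            exact S.notMem_of_ne hj.le hj (Nat.ne_of_lt (Nat.lt_succ_self j)) hu.1
              (S.sub (j + 1) hj h3)
      rw [Γ.mem_bd] at he
      rcases he with ⟨h2, h3⟩ | ⟨h2, h3⟩
      · exact key _ _ (Cub.jn_st e) h2 h3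
      · exact key _ _ (Cub.jn_st e).symm h3 h2
    have h2 : (Γ.bd A).card ≤ 2 * ℓ := by
      have h3 := (Finset.card_le_card hbd).trans (Finset.card_union_le _ _)
      have h4 := Γ.card_bd_single (S.single j hj.le)
      have h5 := Γ.card_bd_single (S.single (j + 1) hj)
      have h6 := S.len j hj.le
      have h7 := S.len (j + 1) hj
      omega
    have h3 : (Γ.bd A).card ^ 2 ≤ (2 * ℓ) ^ 2 := Nat.pow_le_pow_left h2 2
    have h4 : (2 * ℓ) ^ 2 = 4 * ℓ ^ 2 := by ring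
    omega

/-- bound for the number of members of one chain which are not fine -/
def cntB (ℓ t k : ℕ) : ℕ :=
  (2 * (3 * 2 ^ (500 * ℓ ^ 2) * k + 40) + 1) * (3 * t * ℓ ^ 2 + 1)
    + 61 * (2 * (2 ^ (500 * ℓ ^ 2) * k))

open Classical in
/-- bad positions -/
theorem card_badpos (N H : ℕ) (dirty : Finset ℕ) :
    ((range N).filter (fun i => ¬ (H ≤ i ∧ i + H + 1 < N ∧
      ∀ j, i ≤ j + H → j ≤ i + H → j ∉ dirty))).card ≤ (2 * H + 1) * (dirty.card + 1) := by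
  have h1 : (range N).filter (fun i => ¬ (H ≤ i ∧ i + H + 1 < N ∧
      ∀ j, i ≤ j + H → j ≤ i + H → j ∉ dirty))
      ⊆ (range H ∪ Finset.Ico (N - (H + 1)) N) ∪
        dirty.biUnion (fun j => Finset.Icc (j - H) (j + H)) := by
    intro i hi
    rw [mem_filter, mem_range] at hi
    obtain ⟨hiN, hi⟩ := hi
    rw [mem_union, mem_union, mem_range, mem_Ico, mem_biUnion]
    by_cases h2 : H ≤ i
    · by_cases h3 : i + H + 1 < N
      · right
        by_contra hcon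
        apply hi
        refine ⟨h2, h3, fun j h4 h5 h6 => hcon ⟨j, h6, ?_⟩⟩
        rw [mem_Icc]
        omega
      · left; right; omega
    · left; left; omega
  have h2 := Finset.card_le_card h1
  have h3 := Finset.card_union_le (range H ∪ Finset.Ico (N - (H + 1)) N)
    (dirty.biUnion (fun j => Finset.Icc (j - H) (j + H)))
  have h4 := Finset.card_union_le (range H) (Finset.Ico (N - (H + 1)) N)
  have h5 : (dirty.biUnion (fun j => Finset.Icc (j - H) (j + H))).card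
      ≤ dirty.card * (2 * H + 1) := by
    refine Finset.card_biUnion_le_card_mul _ _ _ fun j _ => ?_
    rw [Nat.card_Icc]
    omega
  rw [Finset.card_range, Nat.card_Ico] at h4
  have h6 : (2 * H + 1) * (dirty.card + 1) = dirty.card * (2 * H + 1) + (2 * H + 1) := by ring
  rw [h6]
  omega

theorem card_le_of_mod {B : Finset ℕ} {K : ℕ}
    (h : ∀ r, (B.filter (fun i => i % 61 = r)).card ≤ K) : B.card ≤ 61 * K := by
  classical
  have h1 := Finset.card_le_mul_card_image_of_maps_to (s := B) (t := range 61)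
    (f := fun i => i % 61) (fun i _ => mem_range.2 (Nat.mod_lt i (by norm_num))) K
    (fun r _ => h r)
  rw [Finset.card_range] at h1
  rw [mul_comm]
  exact h1

/-- a long clean run around `i` gives a strip with small sets -/
theorem Fam.run {Γ : Cub V E} {ℓ : ℕ} {𝒟 I : Finset (E → ZMod 2)} (F : Fam Γ ℓ 𝒟 I)
    (hℓ : 1 ≤ ℓ) (H1 : Γ.H1 ℓ) {O : E → ZMod 2} (hO : O ∈ I) {a b : V}
    {c : ℕ → (E → ZMod 2)} {N : ℕ} (hc : Γ.Enum 𝒟 I O a b c N) {H i : ℕ} (hH : 1 ≤ H)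
    (h1 : H ≤ i) (h2 : i + H + 1 < N)
    (hcl : ∀ j, i ≤ j + H → j ≤ i + H → Disjoint (Γ.Xs O a c j) (Γ.mrk 𝒟 I)) :
    ∃ S : Strip Γ ℓ (2 * H), (∀ j, S.X j = Γ.Xs O a c (i - H + j)) ∧
      (∀ j, S.C j = c (i - H + j)) ∧
      ∀ j, 0 < j → j < 2 * H → (S.X j).card ≤ 5 * ℓ ^ 2 := by
  obtain ⟨S, hS1, hS2, hS3⟩ := F.chain_strip hO hc (i₀ := i - H) (M := 2 * H) (by omega)
    (by omega) (fun j hj => hcl _ (by omega) (by omega))
  refine ⟨S, hS1, hS2, fun j h0 hj => ?_⟩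
  refine F.card_X hℓ H1 S h0 hj fun D hD hne => ?_
  rw [hS1]
  exact hS3 j hj.le D hD (by rw [← hS2]; exact hne)

/-- the window around `i` -/
def Cub.win (Γ : Cub V E) (O : E → ZMod 2) (a : V) (c : ℕ → (E → ZMod 2)) (i : ℕ) : Finset V :=
  (range 61).biUnion (fun j => Γ.Xs O a c (i - 30 + j))

theorem Fam.run_win {Γ : Cub V E} {ℓ : ℕ} {𝒟 I : Finset (E → ZMod 2)} (F : Fam Γ ℓ 𝒟 I)
    (hℓ : 1 ≤ ℓ) (H1 : Γ.H1 ℓ) {O : E → ZMod 2} (hO : O ∈ I) {a b : V}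
    {c : ℕ → (E → ZMod 2)} {N : ℕ} (hc : Γ.Enum 𝒟 I O a b c N) {H i : ℕ} (hH : 40 ≤ H)
    (h1 : H ≤ i) (h2 : i + H + 1 < N)
    (hcl : ∀ j, i ≤ j + H → j ≤ i + H → Disjoint (Γ.Xs O a c j) (Γ.mrk 𝒟 I)) :
    (Γ.EU (Γ.win O a c i)).card ≤ 500 * ℓ ^ 2 := by
  classical
  obtain ⟨S, hS1, hS2, hS3⟩ := F.run hℓ H1 hO hc (by omega) h1 h2 hcl
  have h3 : (Γ.win O a c i).card ≤ 61 * (5 * ℓ ^ 2) := by
    have h4 := Finset.card_biUnion_le_card_mul (range 61) (fun j => Γ.Xs O a c (i - 30 + j))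
      (5 * ℓ ^ 2) (fun j hj => by
        rw [mem_range] at hj
        have h5 := hS3 (H - 30 + j) (by omega) (by omega)
        rw [hS1] at h5
        rw [show i - H + (H - 30 + j) = i - 30 + j by omega] at h5
        exact h5)
    rw [Finset.card_range] at h4
    exact h4
  have h4 := Γ.card_EU_le (Γ.win O a c i)
  omega

theorem Fam.run_fine {Γ : Cub V E} {ℓ q k : ℕ} {𝒟 I : Finset (E → ZMod 2)} (F : Fam Γ ℓ 𝒟 I)
    (hℓ : 1 ≤ ℓ) (H1 : Γ.H1 ℓ) (hq : 2 * q ≤ 2 ^ k) {O : E → ZMod 2} (hO : O ∈ I) {a b : V}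
    {c : ℕ → (E → ZMod 2)} {N : ℕ} (hc : Γ.Enum 𝒟 I O a b c N) {H i : ℕ}
    (hH : H = 3 * 2 ^ (500 * ℓ ^ 2) * k + 40)
    (h1 : H ≤ i) (h2 : i + H + 1 < N)
    (hcl : ∀ j, i ≤ j + H → j ≤ i + H → Disjoint (Γ.Xs O a c j) (Γ.mrk 𝒟 I))
    (hbad : ¬ Γ.BadW (Γ.win O a c i)) : Γ.Fine ℓ 𝒟 q (c i) := by
  classical
  have hH40 : 40 ≤ H := by omega
  obtain ⟨S, hS1, hS2, hS3⟩ := F.run hℓ H1 hO hc (by omega) h1 h2 hcl
  have hmem : ∀ j, j < N → c j ∈ 𝒟 := by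
    intro j hj
    have := hc.mem j hj
    unfold Cub.chain at this
    exact (mem_filter.1 this).1
  have hr1 := Strip.rare (S.sub' 1 (2 * H - 2) (by omega) (by omega))
    (s := 500 * ℓ ^ 2) (k := k) (q := q) (by
      intro i' hi'
      change (Γ.EU (S.X (1 + i') ∪ S.X (1 + (i' + 1)) ∪ S.X (1 + (i' + 2)))).card ≤ _
      have e1 := hS3 (1 + i') (by omega) (by omega)
      have e2 := hS3 (1 + (i' + 1)) (by omega) (by omega)
      have e3 := hS3 (1 + (i' + 2)) (by omega) (by omega)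
      have e4 := Finset.card_union_le (S.X (1 + i') ∪ S.X (1 + (i' + 1))) (S.X (1 + (i' + 2)))
      have e5 := Finset.card_union_le (S.X (1 + i')) (S.X (1 + (i' + 1)))
      have e6 := Γ.card_EU_le (S.X (1 + i') ∪ S.X (1 + (i' + 1)) ∪ S.X (1 + (i' + 2)))
      omega) hq (by
      have e7 : 6 * (2 ^ (500 * ℓ ^ 2) * k) = 2 * (3 * 2 ^ (500 * ℓ ^ 2) * k) := by ring
      rw [e7]
      omega)
  refine ⟨S.sub' (H - 30) 60 (by omega) (by omega), ?_, ?_, ?_, ?_⟩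
  · change S.C (H - 30 + 30) = c i
    rw [hS2]
    congr 1
    omega
  · intro j hj
    change S.C (H - 30 + j) ∈ 𝒟
    rw [hS2]
    exact hmem _ (by omega)
  · refine Cub.Rare.congr hr1 fun R hR => ?_
    change par (Γ.bt (S.X (1 + 0)) (S.X (1 + 1))) R
      = par (Γ.bt (S.X (H - 30 + 0)) (S.X (H - 30 + 1))) R
    have e1 := S.parity hR (i := 1) (by omega)
    have e2 := S.parity hR (i := H - 30) (by omega)
    rw [show (1 + 0 : ℕ) = 1 by rfl, Nat.add_zero, e1]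
    exact e2.symm
  · have e1 : (range 61).biUnion (S.sub' (H - 30) 60 (by omega) (by omega)).X
        = Γ.win O a c i := by
      unfold Cub.win
      refine Finset.biUnion_congr rfl fun j _ => ?_
      change S.X (H - 30 + j) = _
      rw [hS1]
      congr 1
      omega
    rw [e1]
    exact hbad

theorem Fam.card_dirty {Γ : Cub V E} {ℓ t : ℕ} {𝒟 I : Finset (E → ZMod 2)} (F : Fam Γ ℓ 𝒟 I)
    (hℓ : 1 ≤ ℓ) (ht : I.card ≤ t) {O : E → ZMod 2} {a b : V}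
    {c : ℕ → (E → ZMod 2)} {N : ℕ} (hc : Γ.Enum 𝒟 I O a b c N) (dirty : Finset ℕ)
    (h1 : ∀ j ∈ dirty, j + 1 < N)
    (h2 : ∀ j ∈ dirty, ¬ Disjoint (Γ.Xs O a c j) (Γ.mrk 𝒟 I)) :
    dirty.card ≤ 3 * t * ℓ ^ 2 := by
  classical
  refine le_trans ?_ (F.card_mrk hℓ ht)
  have h3 : ∀ j ∈ dirty, ∃ x, x ∈ Γ.Xs O a c j ∧ x ∈ Γ.mrk 𝒟 I := by
    intro j hj
    exact Finset.not_disjoint_iff.1 (h2 j hj)
  rcases dirty.eq_empty_or_nonempty with he | ⟨j₀, hj₀⟩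
  · rw [he]; simp
  · obtain ⟨x₀, _⟩ := h3 j₀ hj₀
    have h4 : ∀ j, ∃ x, j ∈ dirty → x ∈ Γ.Xs O a c j ∧ x ∈ Γ.mrk 𝒟 I := by
      intro j
      by_cases hj : j ∈ dirty
      · obtain ⟨x, hx⟩ := h3 j hj
        exact ⟨x, fun _ => hx⟩
      · exact ⟨x₀, fun h => absurd h hj⟩
    choose f hf using h4
    refine Finset.card_le_card_of_injOn f (fun j hj => (hf j hj).2) ?_
    intro j hj j' hj' hff
    by_contra hne
    have hd := hc.disj_Xs (h1 j hj) (h1 j' hj') hne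
    exact (Finset.disjoint_left.1 hd) (hf j hj).1 (by rw [hff]; exact (hf j' hj').1)

open Classical in
theorem Fam.count {Γ : Cub V E} {ℓ t m q k : ℕ} {𝒟 I : Finset (E → ZMod 2)} (F : Fam Γ ℓ 𝒟 I)
    (hℓ : 1 ≤ ℓ) (H1 : Γ.H1 ℓ) (ht : I.card ≤ t)
    (hm : Γ.cn univ (fun _ => True) ≤ m * Γ.cn univ Γ.Single) (hk : 2 * m < 2 ^ k)
    (hq : 2 * q ≤ 2 ^ k) {O : E → ZMod 2} (hO : O ∈ I) (a b : V) :
    ((Γ.chain 𝒟 I O a b).filter (fun C => ¬ Γ.Fine ℓ 𝒟 q C)).card ≤ cntB ℓ t k := by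
  obtain ⟨c, N, hc⟩ := F.exists_enum O a b
  obtain ⟨H, hH⟩ : ∃ H, H = 3 * 2 ^ (500 * ℓ ^ 2) * k + 40 := ⟨_, rfl⟩
  obtain ⟨dirty, hdirty⟩ : ∃ dirty : Finset ℕ, dirty = (range (N - 1)).filter
    (fun j => ¬ Disjoint (Γ.Xs O a c j) (Γ.mrk 𝒟 I)) := ⟨_, rfl⟩
  have hdc : dirty.card ≤ 3 * t * ℓ ^ 2 := by
    refine F.card_dirty hℓ ht hc dirty ?_ ?_
    · intro j hj
      rw [hdirty, mem_filter, mem_range] at hj
      omega
    · intro j hj
      rw [hdirty, mem_filter] at hj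
      exact hj.2
  obtain ⟨B₁, hB₁⟩ : ∃ B₁ : Finset ℕ, B₁ = (range N).filter (fun i => ¬ (H ≤ i ∧ i + H + 1 < N ∧
    ∀ j, i ≤ j + H → j ≤ i + H → j ∉ dirty)) := ⟨_, rfl⟩
  have hB₁c : B₁.card ≤ (2 * H + 1) * (3 * t * ℓ ^ 2 + 1) := by
    rw [hB₁]
    refine (card_badpos N H dirty).trans ?_
    exact Nat.mul_le_mul_left _ (by omega)
  have hgood : ∀ i, i < N → i ∉ B₁ → H ≤ i ∧ i + H + 1 < N ∧
      ∀ j, i ≤ j + H → j ≤ i + H → Disjoint (Γ.Xs O a c j) (Γ.mrk 𝒟 I) := by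
    intro i hi hiB
    rw [hB₁, mem_filter, not_and, not_not] at hiB
    obtain ⟨g1, g2, g3⟩ := hiB (mem_range.2 hi)
    refine ⟨g1, g2, fun j g4 g5 => ?_⟩
    have g6 := g3 j g4 g5
    rw [hdirty, mem_filter, not_and, not_not] at g6
    exact g6 (mem_range.2 (by omega))
  obtain ⟨B₂, hB₂⟩ : ∃ B₂ : Finset ℕ, B₂ = (range N).filter
    (fun i => i ∉ B₁ ∧ Γ.BadW (Γ.win O a c i)) := ⟨_, rfl⟩
  have hB₂m : ∀ i ∈ B₂, i < N ∧ i ∉ B₁ ∧ Γ.BadW (Γ.win O a c i) := by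
    intro i hi
    rw [hB₂, mem_filter, mem_range] at hi
    exact hi
  have hB₂c : B₂.card ≤ 61 * (2 * (2 ^ (500 * ℓ ^ 2) * k)) := by
    refine card_le_of_mod fun r => ?_
    refine le_of_lt (Γ.bad_card (B₂.filter (fun i => i % 61 = r)) (Γ.win O a c)
      (s := 500 * ℓ ^ 2) (k := k) (m := m) ?_ ?_ ?_ hm hk)
    · intro i hi j hj hij
      rw [mem_filter] at hi hj
      obtain ⟨a1, a2, a3⟩ := hB₂m i hi.1
      obtain ⟨b1, b2, b3⟩ := hB₂m j hj.1
      obtain ⟨a4, a5, _⟩ := hgood i a1 a2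
      obtain ⟨b4, b5, _⟩ := hgood j b1 b2
      unfold Cub.win
      rw [Finset.disjoint_biUnion_left]
      intro u hu
      rw [Finset.disjoint_biUnion_right]
      intro v hv
      rw [mem_range] at hu hv
      refine hc.disj_Xs (by omega) (by omega) ?_
      have h61 := hi.2
      have h61' := hj.2
      omega
    · intro i hi
      rw [mem_filter] at hi
      obtain ⟨a1, a2, a3⟩ := hB₂m i hi.1
      obtain ⟨a4, a5, a6⟩ := hgood i a1 a2
      exact F.run_win hℓ H1 hO hc (by omega) a4 a5 a6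
    · intro i hi
      rw [mem_filter] at hi
      exact (hB₂m i hi.1).2.2
  have hsub : (Γ.chain 𝒟 I O a b).filter (fun C => ¬ Γ.Fine ℓ 𝒟 q C) ⊆ (B₁ ∪ B₂).image c := by
    intro C hC
    rw [mem_filter] at hC
    obtain ⟨i, hi, rfl⟩ := hc.surj C hC.1
    refine mem_image_of_mem _ ?_
    rw [mem_union]
    by_contra hcon
    rw [not_or] at hcon
    obtain ⟨g1, g2, g3⟩ := hgood i hi hcon.1
    apply hC.2
    refine F.run_fine hℓ H1 hq hO hc hH g1 g2 g3 fun hbad => hcon.2 ?_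
    rw [hB₂, mem_filter, mem_range]
    exact ⟨hi, hcon.1, hbad⟩
  have h5 := (Finset.card_le_card hsub).trans
    (Finset.card_image_le.trans (Finset.card_union_le B₁ B₂))
  unfold cntB
  rw [← hH]
  omega

end Pool.Agent.Lib.MP_af4270_co
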