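import Pool.Agent.Lib.MP_af4270_co.Guard

/-!
# Part B: definitions (short cycles, chains, windows)
-/

set_option autoImplicit false
set_option linter.unusedSectionVars false

namespace Pool.Agent.Lib.MP_af4270_co

open Finset

variable {V E : Type} [Fintype V] [DecidableEq V] [Fintype E] [DecidableEq E]

namespace Cub

variable (Γ : Cub V E)

/-- the events `C ⊆ R` and `C' ⊆ R` are independent for a random even `R` -/
def Ind (C C' : E → ZMod 2) : Prop :=
  Γ.cn univ (fun R => supp C ⊆ supp R ∧ supp C' ⊆ supp R) * Γ.cn univ (fun _ => True)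
    = Γ.cn univ (fun R => supp C ⊆ supp R) * Γ.cn univ (fun R => supp C' ⊆ supp R)

/-- the cycle `O` has the vertex `a` as an outer neighbour -/
def Att (O : E → ZMod 2) (a : V) : Prop := a ∉ Γ.vs O ∧ (Γ.bt {a} (Γ.vs O)).Nonempty

/-- the component of `a` in the complement of the cycle `O` -/
def Yc (O : E → ZMod 2) (a : V) : Finset V := Γ.comp (univ \ Γ.vs O) a

/-- the part of `Yc O a` on the side of `a` of the cycle `C` -/
def Lc (O : E → ZMod 2) (a : V) (C : E → ZMod 2) : Finset V :=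
  Γ.comp (Γ.Yc O a \ Γ.vs C) a

/-- the cycle `C` together with everything behind it (seen from `a`) -/
def Wc (O : E → ZMod 2) (a : V) (C : E → ZMod 2) : Finset V := Γ.Yc O a \ Γ.Lc O a C

/-- the cycle `C` separates the outer neighbours `a`, `b` of the cycle `O` in the complement
of `O`; `C` is disjoint from `O` and not adjacent to `O` -/
structure Sep (O : E → ZMod 2) (a b : V) (C : E → ZMod 2) : Prop where
  hO : Γ.Single O
  hC : Γ.Single C
  dis : Disjoint (Γ.vs C) (Γ.vs O)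
  nadj : Γ.bt (Γ.vs C) (Γ.vs O) = ∅
  ha : Γ.Att O a
  hb : Γ.Att O b
  hbY : b ∈ Γ.Yc O a
  sep : b ∉ Γ.Lc O a C

/-- `R` contains a nonzero even set inside the vertex set `X` -/
def HC (R : E → ZMod 2) (X : Finset V) : Prop :=
  ∃ D ∈ Γ.Z, D ≠ 0 ∧ supp D ⊆ supp R ∧ supp D ⊆ Γ.EU X

/-- `C` is adjacent to a member of `I` -/
def AdjI (I : Finset (E → ZMod 2)) (C : E → ZMod 2) : Prop :=
  ∃ J ∈ I, (Γ.bt (Γ.vs C) (Γ.vs J)).Nonempty

open Classical in
/-- the chain of the label `(O, a, b)`: all members of `𝒟` which are not in `I`, not adjacent to `I`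
and separate `a` from `b` in the complement of `O` -/
noncomputable def chain (𝒟 I : Finset (E → ZMod 2)) (O : E → ZMod 2) (a b : V) :
    Finset (E → ZMod 2) :=
  𝒟.filter (fun C => C ∉ I ∧ ¬ Γ.AdjI I C ∧ Γ.Sep O a b C)

/-- `X` is a bad window: every even set can be changed inside `X` so that it contains a cycle
inside `X` -/
def BadW (X : Finset V) : Prop :=
  ∀ R ∈ Γ.Z, ∃ z ∈ Γ.ZB (Γ.EU X), Γ.HC (R + z) X

end Cub

/-- a maximal disjoint family `𝒟` of cycles of length at most `ℓ` and a maximal subfamily `I` of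
pairwise non-adjacent and pairwise independent members -/
structure Fam (Γ : Cub V E) (ℓ : ℕ) (𝒟 I : Finset (E → ZMod 2)) : Prop where
  single : ∀ C ∈ 𝒟, Γ.Single C
  len : ∀ C ∈ 𝒟, (supp C).card ≤ ℓ
  disj : ∀ C ∈ 𝒟, ∀ C' ∈ 𝒟, C ≠ C' → Disjoint (Γ.vs C) (Γ.vs C')
  free : Γ.Free ℓ (univ \ 𝒟.biUnion Γ.vs)
  sub : I ⊆ 𝒟
  nadj : ∀ C ∈ I, ∀ C' ∈ I, C ≠ C' → Γ.bt (Γ.vs C) (Γ.vs C') = ∅
  ind : ∀ C ∈ I, ∀ C' ∈ I, C ≠ C' → Γ.Ind C C'
  imax : ∀ C ∈ 𝒟, C ∉ I → ¬ Γ.AdjI I C → ∃ J ∈ I, ¬ Γ.Ind C J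

end Pool.Agent.Lib.MP_af4270_co
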