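import Pool.Agent.Lib.MP_af4270_co.BDefs

/-!
# PAN-B2: a pairwise independent family of short cycles is small

`prob_ge`: for a single `C` with at most `ℓ` edges, `cn univ ≤ 2^(3ℓ) cn univ (C ⊆ R)`: the set
`{R ∈ Z : supp C ⊆ supp R}` contains `C + {R ∈ Z : R = 0 on touch (vs C)}`, and the subspace
`{R ∈ Z : R = 0 on touch (vs C)}` has index at most `2 ^ |touch (vs C)| ≤ 2 ^ (3 ℓ)` in `Z`
(`card_touch_le`, `card_vs`): it is the kernel of the restriction map from `Z` to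
`touch (vs C) → ZMod 2`.

`fam_bound`. Let `z = cn univ True`, `p_C = cn(C ⊆ R) / z`, `μ = ∑_{C ∈ I} p_C ≥ |I| 2^(-3ℓ)`, and
`X(R) = #{C ∈ I : supp C ⊆ supp R}`. `∑_R X(R) = z μ`, `∑_R X(R)² = z (∑_C p_C + ∑_{C≠C'} p_C p_C') ≤ z (μ + μ²)`.
So `∑_R (X(R) - μ)² ≤ z μ`. A single `R` has `X(R) ≤ 1` (`C ∈ I`, `supp C ⊆ supp R` implies `C = R`).
Suppose `|I| > m 2^(3ℓ+3)`; then `μ > 8 m ≥ 8` (`m ≥ 1` as `cn univ True > 0`), and
`cn(Single) (μ-1)² ≤ z μ ≤ m cn(Single) μ`; `cn(Single) > 0`, so `(μ-1)² ≤ m μ ≤ μ²/8`, i.e. `μ - 1 ≤ μ/2.8`,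
impossible for `μ ≥ 8`.
-/

set_option autoImplicit false
set_option linter.unusedSectionVars false

namespace Pool.Agent.Lib.MP_af4270_co

open Finset

variable {V E : Type} [Fintype V] [DecidableEq V] [Fintype E] [DecidableEq E]

namespace Cub

variable (Γ : Cub V E)

theorem prob_ge {C : E → ZMod 2} {ℓ : ℕ} (hC : Γ.Single C) (hl : (supp C).card ≤ ℓ) :
    Γ.cn univ (fun _ => True) ≤ 2 ^ (3 * ℓ) * Γ.cn univ (fun R => supp C ⊆ supp R) := by
  classical
  set T := Γ.touch (Γ.vs C) with hT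
  have hTc : T.card ≤ 3 * ℓ := by
    have h1 := Γ.card_touch_le (Γ.vs C)
    rw [Γ.card_vs hC.mem, ← hT] at h1
    omega
  have hCT : supp C ⊆ T := by
    intro e he
    rw [hT, Γ.mem_touch]
    exact Or.inl (Γ.s_mem_vs (mem_supp.1 he))
  set Zs : Finset (E → ZMod 2) := univ.filter (fun R => R ∈ Γ.ZB univ ∧ True) with hZs
  set Cs : Finset (E → ZMod 2) := univ.filter (fun R => R ∈ Γ.ZB univ ∧ supp C ⊆ supp R) with hCs
  let f : (E → ZMod 2) → (T → ZMod 2) := fun R e => R e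
  have h1 : Zs.card ≤ Cs.card * (Zs.image f).card := by
    refine Finset.card_le_mul_card_image Zs Cs.card fun a ha => ?_
    obtain ⟨R₀, hR₀, rfl⟩ := mem_image.1 ha
    rw [hZs, mem_filter] at hR₀
    refine Finset.card_le_card_of_injOn (fun R => R + R₀ + C) ?_ ?_
    · intro R hR
      rw [Finset.mem_coe, mem_filter, hZs, mem_filter] at hR
      obtain ⟨⟨_, hRZ, _⟩, hRf⟩ := hR
      rw [Finset.mem_coe, hCs, mem_filter]
      refine ⟨mem_univ _, ?_, ?_⟩
      · rw [Γ.mem_ZB_univ] at hRZ ⊢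
        have := hR₀.2.1
        rw [Γ.mem_ZB_univ] at this
        exact Γ.Z.add_mem (Γ.Z.add_mem hRZ this) hC.mem
      · intro e he
        have h2 : R e = R₀ e := congrFun hRf ⟨e, hCT he⟩
        rw [mem_supp] at he ⊢
        show (R + R₀ + C) e ≠ 0
        rw [Pi.add_apply, Pi.add_apply, h2, zm_add_self, zero_add]
        exact he
    · intro R _ R' _ h
      simpa using h
  have h2 : (Zs.image f).card ≤ 2 ^ (3 * ℓ) := by
    refine (Finset.card_le_univ _).trans ?_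
    rw [Fintype.card_fun, ZMod.card, Fintype.card_coe]
    exact Nat.pow_le_pow_right (by norm_num) hTc
  have h3 : Γ.cn univ (fun _ => True) = Zs.card := by
    rw [cn, hZs]; congr!
  have h4 : Γ.cn univ (fun R => supp C ⊆ supp R) = Cs.card := by
    rw [cn, hCs]; congr!
  rw [h3, h4, mul_comm]
  exact h1.trans (Nat.mul_le_mul_left _ h2)

theorem fam_bound {I : Finset (E → ZMod 2)} {ℓ m : ℕ} (hI : ∀ C ∈ I, Γ.Single C)
    (hl : ∀ C ∈ I, (supp C).card ≤ ℓ) (hind : ∀ C ∈ I, ∀ C' ∈ I, C ≠ C' → Γ.Ind C C')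
    (hm : Γ.cn univ (fun _ => True) ≤ m * Γ.cn univ Γ.Single) :
    I.card ≤ m * 2 ^ (3 * ℓ + 3) := by
  classical
  set Zs : Finset (E → ZMod 2) := univ.filter (fun R => R ∈ Γ.ZB univ ∧ True) with hZs
  have hcnZ : ∀ φ : (E → ZMod 2) → Prop, Γ.cn univ φ = (Zs.filter φ).card := by
    intro φ
    rw [cn]
    congr 1
    ext R
    simp [hZs]
  set z : ℝ := (Γ.cn univ (fun _ => True) : ℝ) with hz
  set σ : ℝ := (Γ.cn univ Γ.Single : ℝ) with hσ
  have hzc : z = (Zs.card : ℝ) := by rw [hz, hcnZ, Finset.filter_true]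
  have hz1 : 1 ≤ z := by
    rw [hzc]
    have : (0 : E → ZMod 2) ∈ Zs := by
      rw [hZs, mem_filter]; exact ⟨mem_univ _, Γ.mem_ZB_univ.2 Γ.Z.zero_mem, trivial⟩
    exact_mod_cast Finset.card_pos.2 ⟨_, this⟩
  have hmR : z ≤ m * σ := by rw [hz, hσ]; exact_mod_cast hm
  have hσ0 : 0 < σ := by
    rcases lt_or_ge 0 σ with h | h
    · exact h
    · exfalso
      have : σ = 0 := le_antisymm h (by rw [hσ]; positivity)
      rw [this, mul_zero] at hmR
      linarith
  set a : (E → ZMod 2) → ℝ := fun C => (Γ.cn univ (fun R => supp C ⊆ supp R) : ℝ) with ha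
  set X : (E → ZMod 2) → ℝ := fun R => ∑ C ∈ I, (if supp C ⊆ supp R then (1 : ℝ) else 0) with hX
  set A : ℝ := ∑ C ∈ I, a C with hA
  have ha' : ∀ C, a C = ∑ R ∈ Zs, (if supp C ⊆ supp R then (1 : ℝ) else 0) := by
    intro C
    rw [ha]
    show (Γ.cn univ (fun R => supp C ⊆ supp R) : ℝ) = _
    rw [hcnZ, Finset.card_filter]
    push_cast
    rfl
  have sX : ∑ R ∈ Zs, X R = A := by
    rw [hX, hA, Finset.sum_comm]
    exact Finset.sum_congr rfl fun C _ => (ha' C).symm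
  have sX2 : ∑ R ∈ Zs, X R ^ 2 ≤ A + A ^ 2 / z := by
    have e1 : ∀ R, X R ^ 2 = ∑ C ∈ I, ∑ C' ∈ I,
        (if supp C ⊆ supp R ∧ supp C' ⊆ supp R then (1 : ℝ) else 0) := by
      intro R
      rw [hX, pow_two, Finset.sum_mul_sum]
      refine Finset.sum_congr rfl fun C _ => Finset.sum_congr rfl fun C' _ => ?_
      by_cases h1 : supp C ⊆ supp R <;> by_cases h2 : supp C' ⊆ supp R <;> simp [h1, h2]
    rw [Finset.sum_congr rfl (fun R _ => e1 R), Finset.sum_comm]
    have e2 : ∀ C ∈ I, ∑ R ∈ Zs, ∑ C' ∈ I,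
        (if supp C ⊆ supp R ∧ supp C' ⊆ supp R then (1 : ℝ) else 0) ≤ a C + a C * A / z := by
      intro C hC
      rw [Finset.sum_comm]
      have e3 : ∀ C' ∈ I, ∑ R ∈ Zs, (if supp C ⊆ supp R ∧ supp C' ⊆ supp R then (1 : ℝ) else 0)
          ≤ (if C' = C then a C else 0) + a C * a C' / z := by
        intro C' hC'
        by_cases h : C' = C
        · subst h
          simp only [and_self, if_true]
          rw [← ha']
          have : 0 ≤ a C' * a C' / z := by
            have : 0 ≤ a C' := by rw [ha]; positivity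
            positivity
          linarith
        · rw [if_neg h, zero_add]
          have h1 := hind C hC C' hC' (fun h' => h h'.symm)
          unfold Ind at h1
          have h2 : (Γ.cn univ (fun R => supp C ⊆ supp R ∧ supp C' ⊆ supp R) : ℝ)
              = ∑ R ∈ Zs, (if supp C ⊆ supp R ∧ supp C' ⊆ supp R then (1 : ℝ) else 0) := by
            rw [hcnZ, Finset.card_filter]
            push_cast
            rfl
          rw [← h2, le_div_iff₀ (by linarith)]
          have h3 : ((Γ.cn univ (fun R => supp C ⊆ supp R ∧ supp C' ⊆ supp R)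
            * Γ.cn univ (fun _ => True) : ℕ) : ℝ)
            = ((Γ.cn univ (fun R => supp C ⊆ supp R) * Γ.cn univ (fun R => supp C' ⊆ supp R) : ℕ)
              : ℝ) := by exact_mod_cast h1
          push_cast at h3
          rw [hz, ha]
          exact h3.le
      refine (Finset.sum_le_sum e3).trans ?_
      rw [Finset.sum_add_distrib, Finset.sum_ite_eq', if_pos hC, ← Finset.sum_div,
        ← Finset.mul_sum]
    refine (Finset.sum_le_sum e2).trans ?_
    rw [Finset.sum_add_distrib, ← Finset.sum_div, ← Finset.sum_mul, pow_two]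
  set μ : ℝ := A / z with hμ
  have hAμ : A = z * μ := by rw [hμ]; field_simp
  have hvar : ∑ R ∈ Zs, (X R - μ) ^ 2 ≤ z * μ := by
    have e1 : ∑ R ∈ Zs, (X R - μ) ^ 2
        = ∑ R ∈ Zs, X R ^ 2 - 2 * μ * ∑ R ∈ Zs, X R + z * μ ^ 2 := by
      rw [hzc, Finset.mul_sum, ← Finset.sum_sub_distrib]
      rw [show (Zs.card : ℝ) * μ ^ 2 = ∑ R ∈ Zs, μ ^ 2 by rw [Finset.sum_const, nsmul_eq_mul],
        ← Finset.sum_add_distrib]
      exact Finset.sum_congr rfl fun R _ => by ring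
    rw [e1, sX]
    have e2 : A ^ 2 / z = z * μ ^ 2 := by rw [hμ]; field_simp
    rw [e2] at sX2
    have e3 : 2 * μ * A = 2 * (z * μ ^ 2) := by rw [hμ]; field_simp
    rw [e3]
    linarith
  by_contra hcon
  push Not at hcon
  have hm1 : 1 ≤ m := by
    rcases Nat.eq_zero_or_pos m with h | h
    · exfalso
      rw [h] at hmR
      simp at hmR
      linarith
    · exact h
  have hm1R : (1 : ℝ) ≤ m := by exact_mod_cast hm1
  have hA1 : (I.card : ℝ) * z ≤ 2 ^ (3 * ℓ) * A := by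
    rw [hA, Finset.mul_sum, ← nsmul_eq_mul]
    rw [← Finset.sum_const]
    refine Finset.sum_le_sum fun C hC => ?_
    have h1 := Γ.prob_ge (hI C hC) (hl C hC)
    have h2 : (Γ.cn univ (fun _ => True) : ℝ)
        ≤ 2 ^ (3 * ℓ) * (Γ.cn univ (fun R => supp C ⊆ supp R) : ℝ) := by exact_mod_cast h1
    exact h2
  have hcR : (m : ℝ) * 2 ^ (3 * ℓ + 3) < I.card := by exact_mod_cast hcon
  have hp : (0 : ℝ) < 2 ^ (3 * ℓ) := by positivity
  have hμ8 : 8 * (m : ℝ) < μ := by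
    rw [hAμ] at hA1
    have h1 : (m : ℝ) * 2 ^ (3 * ℓ + 3) * z < 2 ^ (3 * ℓ) * (z * μ) :=
      lt_of_lt_of_le (mul_lt_mul_of_pos_right hcR (by linarith)) hA1
    rw [pow_add] at h1
    have h2 : 2 ^ (3 * ℓ) * z * (8 * (m : ℝ)) < 2 ^ (3 * ℓ) * z * μ := by nlinarith
    exact lt_of_mul_lt_mul_left h2 (by positivity)
  have hlow : σ * (μ - 1) ^ 2 ≤ ∑ R ∈ Zs, (X R - μ) ^ 2 := by
    have e1 : ∑ R ∈ Zs.filter Γ.Single, (X R - μ) ^ 2 ≤ ∑ R ∈ Zs, (X R - μ) ^ 2 :=
      Finset.sum_le_sum_of_subset_of_nonneg (Finset.filter_subset _ _)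
        (fun _ _ _ => sq_nonneg _)
    refine le_trans ?_ e1
    have e2 : σ = ((Zs.filter Γ.Single).card : ℝ) := by rw [hσ, hcnZ]
    rw [e2, ← nsmul_eq_mul, ← Finset.sum_const]
    refine Finset.sum_le_sum fun R hR => ?_
    have hRs : Γ.Single R := (mem_filter.1 hR).2
    have hX1 : X R ≤ 1 := by
      have e3 : X R ≤ ∑ C ∈ I, (if C = R then (1 : ℝ) else 0) := by
        rw [hX]
        refine Finset.sum_le_sum fun C hC => ?_
        by_cases h : supp C ⊆ supp R
        · rw [if_pos h, if_pos (hRs.eq_of_sub _ (hI C hC).mem (hI C hC).ne_zero h)]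
        · rw [if_neg h]
          split_ifs <;> norm_num
      refine e3.trans ?_
      rw [Finset.sum_ite_eq']
      split_ifs <;> norm_num
    have h8 : (8 : ℝ) < μ := by nlinarith
    nlinarith
  have h1 : σ * (μ - 1) ^ 2 ≤ m * σ * μ := by
    have h2 : z * μ ≤ m * σ * μ := mul_le_mul_of_nonneg_right hmR (by nlinarith)
    linarith
  have h2 : (μ - 1) ^ 2 ≤ m * μ := by
    have h3 : σ * (μ - 1) ^ 2 ≤ σ * (m * μ) := by nlinarith
    exact le_of_mul_le_mul_left h3 hσ0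
  have h8 : (8 : ℝ) < μ := by nlinarith
  nlinarith

end Cub

end Pool.Agent.Lib.MP_af4270_co
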