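import Pool.Agent.Lib.MP_af4270_co.BCount
import Pool.Agent.Lib.MP_af4270_co.BFam

/-!
# PAN-B11: Part B, final statement

Take `F : Fam Γ ℓ 𝒟 I` (`exists_fam`), `t = m * 2 ^ (3ℓ+3)`, `|I| ≤ t` (`fam_bound`).
`Ex = {C ∈ 𝒟 : C ∈ I ∨ AdjI I C ∨ ¬ Fine ℓ 𝒟 q C}`. Elements of `Ex`: `I` (at most `t`), those not in `I` and adjacent
to `I` (at most `t ℓ`, `card_adj`), and the others: `C ∉ I`, `¬ AdjI I C`, `¬ Fine`: by `F.imax` there is
`J ∈ I` with `¬ Ind C J`; by `indep` (contrapositive; `C ≠ J` so the vertex sets are disjoint, not adjacent)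
there are `a, b` with `Att J a`, `Att J b`, `b ∈ Yc J a`, `b ∉ Lc J a C`; so `Sep J a b C` and
`C ∈ chain 𝒟 I J a b`. The number of triples `(J, a, b)` is at most `t * ℓ * ℓ` (`card_nb`), and each chain
contains at most `cntB ℓ t k` members which are not fine (`count`).
-/

set_option autoImplicit false
set_option linter.unusedSectionVars false

namespace Pool.Agent.Lib.MP_af4270_co

open Finset

variable {V E : Type} [Fintype V] [DecidableEq V] [Fintype E] [DecidableEq E]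

/-- bound for the number of exceptional cycles -/
def exB (ℓ m k : ℕ) : ℕ :=
  m * 2 ^ (3 * ℓ + 3) + m * 2 ^ (3 * ℓ + 3) * ℓ
    + m * 2 ^ (3 * ℓ + 3) * ℓ * ℓ * cntB ℓ (m * 2 ^ (3 * ℓ + 3)) k

/-- **Part B.** A maximal family `𝒟` of disjoint cycles of length at most `ℓ`, and a bounded number
of exceptional members; all others are central cycles of good windows with rare functionals. -/
theorem Cub.partB (Γ : Cub V E) {ℓ m q k : ℕ} (hℓ : 1 ≤ ℓ) (H1 : Γ.H1 ℓ)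
    (hm : Γ.cn univ (fun _ => True) ≤ m * Γ.cn univ Γ.Single) (hk : 2 * m < 2 ^ k)
    (hq : 2 * q ≤ 2 ^ k) :
    ∃ 𝒟 Ex : Finset (E → ZMod 2), (∀ C ∈ 𝒟, Γ.Single C) ∧ (∀ C ∈ 𝒟, (supp C).card ≤ ℓ) ∧
      (∀ C ∈ 𝒟, ∀ C' ∈ 𝒟, C ≠ C' → Disjoint (Γ.vs C) (Γ.vs C')) ∧
      Γ.Free ℓ (univ \ 𝒟.biUnion Γ.vs) ∧ Ex ⊆ 𝒟 ∧ Ex.card ≤ exB ℓ m k ∧
      ∀ C ∈ 𝒟, C ∉ Ex → Γ.Fine ℓ 𝒟 q C := by
  classical
  obtain ⟨𝒟, I, F⟩ := Γ.exists_fam ℓ
  obtain ⟨t, htt⟩ : ∃ t, t = m * 2 ^ (3 * ℓ + 3) := ⟨_, rfl⟩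
  have ht : I.card ≤ t := by
    rw [htt]
    exact Γ.fam_bound (fun C hC => F.single C (F.sub hC)) (fun C hC => F.len C (F.sub hC)) F.ind hm
  let nb : (E → ZMod 2) → Finset V := fun J => univ.filter (fun x => Γ.Att J x)
  let T : Finset (E → ZMod 2) := I.biUnion (fun J => (nb J ×ˢ nb J).biUnion (fun ab =>
    (Γ.chain 𝒟 I J ab.1 ab.2).filter (fun C => ¬ Γ.Fine ℓ 𝒟 q C)))
  refine ⟨𝒟, 𝒟.filter (fun C => C ∈ I ∨ Γ.AdjI I C ∨ ¬ Γ.Fine ℓ 𝒟 q C), F.single, F.len, F.disj,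
    F.free, filter_subset _ _, ?_, ?_⟩
  · have hsub : 𝒟.filter (fun C => C ∈ I ∨ Γ.AdjI I C ∨ ¬ Γ.Fine ℓ 𝒟 q C) ⊆
        (I ∪ 𝒟.filter (fun D => D ∉ I ∧ Γ.AdjI I D)) ∪ T := by
      intro C hC
      rw [mem_filter] at hC
      obtain ⟨hCD, hC⟩ := hC
      by_cases h1 : C ∈ I
      · exact mem_union_left _ (mem_union_left _ h1)
      by_cases h2 : Γ.AdjI I C
      · exact mem_union_left _ (mem_union_right _ (mem_filter.2 ⟨hCD, h1, h2⟩))
      have h3 : ¬ Γ.Fine ℓ 𝒟 q C := by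
        rcases hC with h | h | h
        · exact absurd h h1
        · exact absurd h h2
        · exact h
      obtain ⟨J, hJ, hind⟩ := F.imax C hCD h1 h2
      have hne : C ≠ J := fun h => h1 (h ▸ hJ)
      have hdis := F.disj C hCD J (F.sub hJ) hne
      have hnadj : Γ.bt (Γ.vs C) (Γ.vs J) = ∅ := by
        by_contra hc
        exact h2 ⟨J, hJ, Finset.nonempty_iff_ne_empty.2 hc⟩
      have hab : ∃ a b, Γ.Att J a ∧ Γ.Att J b ∧ b ∈ Γ.Yc J a ∧ b ∉ Γ.Lc J a C := by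
        by_contra hc
        push Not at hc
        exact hind (Γ.indep (F.single C hCD) (F.single J (F.sub hJ)) hdis hnadj hc)
      obtain ⟨a, b, ha, hb, hbY, hsep⟩ := hab
      refine mem_union_right _ ?_
      refine mem_biUnion.2 ⟨J, hJ, mem_biUnion.2 ⟨(a, b), ?_, ?_⟩⟩
      · exact mem_product.2 ⟨mem_filter.2 ⟨mem_univ _, ha⟩, mem_filter.2 ⟨mem_univ _, hb⟩⟩
      · refine mem_filter.2 ⟨mem_filter.2 ⟨hCD, h1, h2, ?_⟩, h3⟩
        exact ⟨F.single J (F.sub hJ), F.single C hCD, hdis, hnadj, ha, hb, hbY, hsep⟩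
    have hT : T.card ≤ t * ℓ * ℓ * cntB ℓ t k := by
      have h1 : T.card ≤ I.card * (ℓ * ℓ * cntB ℓ t k) := by
        refine Finset.card_biUnion_le_card_mul _ _ _ (fun J hJ => ?_)
        refine (Finset.card_biUnion_le_card_mul _ _ (cntB ℓ t k) (fun ab _ => ?_)).trans ?_
        · exact F.count hℓ H1 ht hm hk hq hJ ab.1 ab.2
        · refine Nat.mul_le_mul_right _ ?_
          rw [card_product]
          have h2 : (nb J).card ≤ ℓ :=
            (Γ.card_nb (F.single J (F.sub hJ))).trans (F.len J (F.sub hJ))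
          exact Nat.mul_le_mul h2 h2
      calc T.card ≤ I.card * (ℓ * ℓ * cntB ℓ t k) := h1
        _ ≤ t * (ℓ * ℓ * cntB ℓ t k) := Nat.mul_le_mul_right _ ht
        _ = t * ℓ * ℓ * cntB ℓ t k := by ring
    have h5 := card_le_card hsub
    have h6 := card_union_le (I ∪ 𝒟.filter (fun D => D ∉ I ∧ Γ.AdjI I D)) T
    have h7 := card_union_le I (𝒟.filter (fun D => D ∉ I ∧ Γ.AdjI I D))
    have h8 := F.card_adj ht
    unfold exB
    rw [← htt]
    omega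
  · intro C hC hC'
    by_contra hc
    exact hC' (mem_filter.2 ⟨hC, Or.inr (Or.inr hc)⟩)

end Pool.Agent.Lib.MP_af4270_co
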