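import Pool.Agent.Lib.MP_af4270_co.BStrip2

/-!
# PAN-B12: a good window contains a lossless region

Setting: `S : Strip Γ ℓ M`, `3 ≤ M`, `U = X 0 ∪ ... ∪ X M` is not bad: there is `R ∈ Z` such that for all
`z ∈ ZB (EU U)`, `R + z` contains no nonzero `D ∈ Z` inside `U`. `c₁ = vs (C 1)`, `c' = vs (C (M-1))`,
`Rt = comp ((X (M-1) \ c') ∪ X M) x₀` for some `x₀ ∈ X M`; `X M ⊆ Rt` (`conn M`, `conn_subset_comp`).
`Y = (⋃_{1 ≤ i ≤ M-1} X i) \ Rt`.

 * `par (bt (X 0) (X 1)) R ≠ 0`: otherwise `Strip.close` (`i = 1`) gives `z` with `supp (C 1) ⊆ supp (R + z)`,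
   and `supp (C 1) ⊆ EU (X 1) ⊆ EU U`, `C 1 ≠ 0`: contradiction.
 * `X i ⊆ Y` for `1 ≤ i ≤ M-2` (disjoint from `X (M-1) ∪ X M ⊇ Rt`); `c' ⊆ Y`.
 * `Y` is connected: `Z' = X (M-1) \ Rt` is connected (hub `c'`: a nonempty `S ⊆ Z'` closed in `Z'` and
   disjoint from `c'` is closed in `X (M-1)`, since `Rt` is closed in `(X (M-1) \ c') ∪ X M`, so
   `S = X (M-1) ⊇ c'`, contradiction). Consecutive sets among `X 1, ..., X (M-2), Z'` are joined by an edge:
   `bt (X i) (X (i+1))` is nonempty because of `nz` and `parity`, and for `i = M-2` its edges end on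
   `c' ⊆ Z'` (`left`). Use `Conn.union` repeatedly.
 * `bd Y = bt (X 0) (X 1) ∪ bt c' Rt`: let `e` be an edge from `y ∈ Y` to `x ∉ Y`, `y ∈ X i`, `1 ≤ i ≤ M-1`,
   `x ∈ X (i-1) ∪ X i ∪ X (i+1)` (`nbr`). If `x ∈ Rt`: `x ∈ X (M-1) ∪ X M`; if `y ∉ c'` then either `y ∈ X (M-1)`
   and `y ∈ Rt` by closedness, contradiction, or `y ∈ X (M-2)`, and then `x ∈ X (M-1)`, `x ∈ c'` by `left`,
   contradiction (`c' ∩ Rt = ∅`). So `e ∈ bt c' Rt`. If `x ∉ Rt` then `x ∈ X 0` (all other candidates are in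
   `Y`), so `i = 1` and `e ∈ bt (X 0) (X 1)`. Conversely `bt (X 0) (X 1)`: `X 1 ⊆ Y`, `X 0` is disjoint from `Y`.
 * `c' ≠ ∅`, and `bt c' Rt ≠ ∅`: `bt (X (M-1)) (X M)` is nonempty (`nz`, `parity`), `X M ⊆ Rt`; let `e` be
   such an edge with end `y ∈ X (M-1)`: if `y ∈ c'` done. Otherwise `y ∈ Rt`; by `par (bd Y) R = 0` and
   `par (bt (X 0) (X 1)) R ≠ 0` (and disjointness of the two parts) `par (bt c' Rt) R ≠ 0` in any case, so the set
   is nonempty.
 * DARTS: for `y ∈ Y`, the darts `d ∈ dt y` with `d.1 ∉ EU Y` are in `bd Y`. A vertex of `c₁` has two darts in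
   `C 1` (`deg_cases`), inside `EU (X 1) ⊆ EU Y`; similarly for `c'` (`supp (C (M-1)) ⊆ EU c' ⊆ EU Y`).
   The end in `Y` of an edge of `bd Y` is in `c₁` (`left 0`) or in `c'`.
 * LOSSLESS: let `s ∈ c₁` be the end in `Y` of an edge `e ∈ bt (X 0) (X 1)` and `t ∈ c'` the end in `Y` of an
   edge `e' ∈ bt c' Rt`. Let `supp J ⊆ EU Y`, `od J = 1_s + 1_t`. Let `R₁` be `R` restricted to `touch Y`,
   `J' = J + 1_e + 1_{e'}`. For `x ∈ Y`: `od R₁ x = od R x = 0`, `od J' x = 0`. `T = {x ∉ Y : od (R₁ + J') x ≠ 0}`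
   is contained in `X 0 ∪ Rt`; `|T ∩ X 0| ≡ par (bt (X 0) (X 1)) R + 1 = 0`, `|T ∩ Rt| ≡ par (bt c' Rt) R + 1 = 0`.
   Take T-joins `K₀` in `X 0` and `K₁` in `Rt`; `z = R₁ + J' + K₀ + K₁ ∈ Z`, supported in `EU U`
   (`touch Y ⊆ EU U`), and `R + z = J` on `EU Y`. So a nonzero `D ∈ Z` with `supp D ⊆ supp J` would satisfy
   `supp D ⊆ supp (R + z)`, `supp D ⊆ EU U`: contradiction to the choice of `R`.
-/

set_option autoImplicit false
set_option linter.unusedSectionVars false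

namespace Pool.Agent.Lib.MP_af4270_co

open Finset

variable {V E : Type} [Fintype V] [DecidableEq V] [Fintype E] [DecidableEq E]

/-- a lossless region `Y` with terminals `s`, `t` in the strip `S` -/
structure Region {Γ : Cub V E} {ℓ M : ℕ} (S : Strip Γ ℓ M) (Y Rt : Finset V) (s t : V) :
    Prop where
  conn : Γ.Conn Y
  subU : Y ⊆ (Icc 1 (M - 1)).biUnion S.X
  inner : ∀ i, 1 ≤ i → i + 2 ≤ M → S.X i ⊆ Y
  last : Γ.vs (S.C (M - 1)) ⊆ Y
  disjY : Disjoint Y Rt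
  RtM : S.X M ⊆ Rt
  Rtsub : Rt ⊆ S.X (M - 1) ∪ S.X M
  bdY : Γ.bd Y = Γ.bt (S.X 0) (S.X 1) ∪ Γ.bt (Γ.vs (S.C (M - 1))) Rt
  sY : s ∈ Γ.vs (S.C 1)
  tY : t ∈ Γ.vs (S.C (M - 1))
  degs : ((Γ.dt s).filter (fun d => d.1 ∈ Γ.EU Y)).card = 2
  degt : ((Γ.dt t).filter (fun d => d.1 ∈ Γ.EU Y)).card = 2
  deg2 : ∀ y ∈ Y, 2 ≤ ((Γ.dt y).filter (fun d => d.1 ∈ Γ.EU Y)).card
  deg3 : ∀ y ∈ Y, y ∉ Γ.vs (S.C 1) → y ∉ Γ.vs (S.C (M - 1)) → ∀ d ∈ Γ.dt y, d.1 ∈ Γ.EU Y
  lossless : ∀ J : E → ZMod 2, supp J ⊆ Γ.EU Y →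
    (∀ x, Γ.od J x = (if x = s then 1 else 0) + (if x = t then 1 else 0)) →
    ∀ D ∈ Γ.Z, D ≠ 0 → ¬ supp D ⊆ supp J


open Cub

namespace Strip

variable {Γ : Cub V E} {ℓ M : ℕ}

/-- union of the sets of a strip -/
def UU (S : Strip Γ ℓ M) : Finset V := (range (M + 1)).biUnion S.X

theorem X_subset_UU (S : Strip Γ ℓ M) {i : ℕ} (hi : i ≤ M) : S.X i ⊆ S.UU := by
  intro x hx
  exact mem_biUnion.2 ⟨i, mem_range.2 (by omega), hx⟩

/-- consecutive sets are adjacent -/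
theorem bt_nonempty (S : Strip Γ ℓ M) {i : ℕ} (hi : i < M) :
    (Γ.bt (S.X i) (S.X (i + 1))).Nonempty := by
  obtain ⟨R, hR, hne⟩ := S.nz
  rw [← S.parity hR hi] at hne
  by_contra h
  rw [Finset.not_nonempty_iff_eq_empty] at h
  rw [h] at hne
  exact hne (by simp [par])

theorem add_zm {a b : ZMod 2} (h : a + b = 0) : a = b := by
  revert a b; decide

/-- the part to the right of the last cycle -/
structure IsRt (S : Strip Γ ℓ M) (Rt : Finset V) : Prop where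
  hM : 3 ≤ M
  conn : Γ.Conn Rt
  sub : Rt ⊆ (S.X (M - 1) \ Γ.vs (S.C (M - 1))) ∪ S.X M
  sup : S.X M ⊆ Rt
  cl : Γ.Cl ((S.X (M - 1) \ Γ.vs (S.C (M - 1))) ∪ S.X M) Rt

theorem exists_Rt (S : Strip Γ ℓ M) (hM : 3 ≤ M) : ∃ Rt, S.IsRt Rt := by
  obtain ⟨x, hx⟩ := (S.conn M le_rfl).1
  refine ⟨Γ.comp ((S.X (M - 1) \ Γ.vs (S.C (M - 1))) ∪ S.X M) x, hM,
    conn_comp (mem_union_right _ hx),
    comp_subset _ _, conn_subset_comp (S.conn M le_rfl) Finset.subset_union_right hx,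
    comp_cl _ _⟩

/-- the region between `C 1` and `C (M-1)` -/
def YY (S : Strip Γ ℓ M) (Rt : Finset V) : Finset V := ((Finset.Icc 1 (M - 1)).biUnion S.X) \ Rt

theorem mem_YY {S : Strip Γ ℓ M} {Rt : Finset V} {y : V} :
    y ∈ S.YY Rt ↔ (∃ i, 1 ≤ i ∧ i ≤ M - 1 ∧ y ∈ S.X i) ∧ y ∉ Rt := by
  rw [YY, mem_sdiff, mem_biUnion]
  simp only [Finset.mem_Icc]
  constructor
  · rintro ⟨⟨i, h1, h2⟩, h3⟩; exact ⟨⟨i, h1.1, h1.2, h2⟩, h3⟩
  · rintro ⟨⟨i, h1, h2, h4⟩, h3⟩; exact ⟨⟨i, ⟨h1, h2⟩, h4⟩, h3⟩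

variable {S : Strip Γ ℓ M} {Rt : Finset V}

theorem IsRt.not_mem (hR : S.IsRt Rt) {i : ℕ} (hi : i + 2 ≤ M) {y : V} (hy : y ∈ S.X i) :
    y ∉ Rt := by
  intro h
  have h1 := hR.sub h
  rw [mem_union, mem_sdiff] at h1
  rcases h1 with h1 | h1
  · exact S.mem_ne (by omega) (by omega) (by omega) hy h1.1
  · exact S.mem_ne (by omega) (by omega) (by omega) hy h1

theorem IsRt.vs_not_mem (hR : S.IsRt Rt) {y : V} (hy : y ∈ Γ.vs (S.C (M - 1))) : y ∉ Rt := by
  have hM := hR.hM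
  intro h
  have h1 := hR.sub h
  rw [mem_union, mem_sdiff] at h1
  rcases h1 with h1 | h1
  · exact h1.2 hy
  · exact S.mem_ne (by omega) (by omega) (by omega) (S.sub (M - 1) (by omega) hy) h1

theorem IsRt.X_subset (hR : S.IsRt Rt) {i : ℕ} (h1 : 1 ≤ i) (hi : i + 2 ≤ M) :
    S.X i ⊆ S.YY Rt := fun _ hy => mem_YY.2 ⟨⟨i, h1, by omega, hy⟩, hR.not_mem hi hy⟩

theorem IsRt.vs_subset (hR : S.IsRt Rt) : Γ.vs (S.C (M - 1)) ⊆ S.YY Rt := fun _ hy => by
  have hM := hR.hM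
  exact mem_YY.2 ⟨⟨M - 1, by omega, le_rfl, S.sub (M - 1) (by omega) hy⟩, hR.vs_not_mem hy⟩

theorem IsRt.vs_subset1 (hR : S.IsRt Rt) : Γ.vs (S.C 1) ⊆ S.YY Rt := by
  have hM := hR.hM
  exact (S.sub 1 (by omega)).trans (hR.X_subset le_rfl (by omega))

theorem YY_disjoint0 : Disjoint (S.YY Rt) (S.X 0) := by
  rw [Finset.disjoint_left]
  intro y hy hy'
  obtain ⟨⟨i, h1, h2, h3⟩, _⟩ := mem_YY.1 hy
  exact S.mem_ne (by omega) (by omega) (by omega) h3 hy'

theorem YY_sub_UU : S.YY Rt ⊆ S.UU := by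
  intro y hy
  obtain ⟨⟨i, h1, h2, h3⟩, _⟩ := mem_YY.1 hy
  exact S.X_subset_UU (by omega) h3

theorem IsRt.sub_UU (hR : S.IsRt Rt) : Rt ⊆ S.UU := by
  intro y hy
  have h1 := hR.sub hy
  rw [mem_union, mem_sdiff] at h1
  rcases h1 with h1 | h1
  · exact S.X_subset_UU (by omega) h1.1
  · exact S.X_subset_UU (by omega) h1

/-- edges leaving the region -/
theorem IsRt.out (hR : S.IsRt Rt) {e : E} {u v : V} (hj : Γ.jn e u v) (hu : u ∈ S.YY Rt)
    (hv : v ∉ S.YY Rt) :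
    (u ∈ Γ.vs (S.C 1) ∧ v ∈ S.X 0) ∨ (u ∈ Γ.vs (S.C (M - 1)) ∧ v ∈ Rt) := by
  have hM := hR.hM
  obtain ⟨⟨i, h1, h2, h3⟩, h4⟩ := mem_YY.1 hu
  by_cases hi1 : i = 1
  · subst hi1
    rcases S.step (by omega) (by omega) h3 hj with h | h | h
    · exact Or.inl ⟨S.left' (by omega) (by omega) h3 h hj, h⟩
    · exact absurd (hR.X_subset (by omega) (by omega) h) hv
    · by_cases hM3 : 4 ≤ M
      · exact absurd (hR.X_subset (by omega) (by omega) h) hv
      · have h5 := S.left' (i := 2) (by omega) (by omega) h h3 hj.symm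
        have h6 : M - 1 = 2 := by omega
        exact absurd (hR.vs_subset (by rw [h6]; exact h5)) hv
  · by_cases hi58 : i + 3 ≤ M
    · exfalso
      rcases S.step (by omega) (by omega) h3 hj with h | h | h
      · exact hv (hR.X_subset (by omega) (by omega) h)
      · exact hv (hR.X_subset (by omega) (by omega) h)
      · exact hv (hR.X_subset (by omega) (by omega) h)
    · by_cases hi : i + 2 = M
      · exfalso
        rcases S.step (by omega) (by omega) h3 hj with h | h | h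
        · exact hv (hR.X_subset (by omega) (by omega) h)
        · exact hv (hR.X_subset (by omega) (by omega) h)
        · have h6 : M - 1 = i + 1 := by omega
          have h5 := S.left' (i := i + 1) (by omega) (by omega) h h3 hj.symm
          exact hv (hR.vs_subset (by rw [h6]; exact h5))
      · have hi59 : i = M - 1 := by omega
        subst hi59
        right
        have hvR : v ∈ Rt := by
          rcases S.step (by omega) (by omega) h3 hj with h | h | h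
          · exact absurd (hR.X_subset (by omega) (by omega) h) hv
          · by_contra hc
            exact hv (mem_YY.2 ⟨⟨M - 1, by omega, le_rfl, h⟩, hc⟩)
          · have h6 : M - 1 + 1 = M := by omega
            rw [h6] at h
            exact hR.sup h
        refine ⟨?_, hvR⟩
        by_contra hc
        apply h4
        have huF : u ∈ (S.X (M - 1) \ Γ.vs (S.C (M - 1))) ∪ S.X M :=
          mem_union_left _ (mem_sdiff.2 ⟨h3, hc⟩)
        have hcl := (cl_iff.1 hR.cl) e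
        rcases hj with ⟨j1, j2⟩ | ⟨j1, j2⟩
        · rw [← j1]; exact hcl.2 (by rw [j2]; exact hvR) (by rw [j1]; exact huF)
        · rw [← j2]; exact hcl.1 (by rw [j1]; exact hvR) (by rw [j2]; exact huF)

theorem IsRt.bd_eq (hR : S.IsRt Rt) :
    Γ.bd (S.YY Rt) = Γ.bt (S.X 0) (S.X 1) ∪ Γ.bt (Γ.vs (S.C (M - 1))) Rt := by
  have hM := hR.hM
  have h0 : ∀ y, y ∈ S.X 0 → y ∉ S.YY Rt := fun y hy hy' =>
    (Finset.disjoint_left.1 YY_disjoint0) hy' hy
  have h1 : S.X 1 ⊆ S.YY Rt := hR.X_subset le_rfl (by omega)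
  have h2 : ∀ y, y ∈ Rt → y ∉ S.YY Rt := fun y hy hy' => (mem_YY.1 hy').2 hy
  ext e
  rw [mem_union]
  constructor
  · intro he
    rw [Γ.mem_bd] at he
    rw [Γ.mem_bt, Γ.mem_bt]
    rcases he with ⟨h3, h4⟩ | ⟨h3, h4⟩
    · rcases hR.out (jn_st e) h3 h4 with h5 | h5
      · exact Or.inl (Or.inr ⟨S.sub 1 (by omega) h5.1, h5.2⟩)
      · exact Or.inr (Or.inl h5)
    · rcases hR.out (jn_st e).symm h4 h3 with h5 | h5
      · exact Or.inl (Or.inl ⟨h5.2, S.sub 1 (by omega) h5.1⟩)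
      · exact Or.inr (Or.inr ⟨h5.2, h5.1⟩)
  · intro he
    rw [Γ.mem_bt, Γ.mem_bt] at he
    rw [Γ.mem_bd]
    rcases he with (h | h) | (h | h)
    · exact Or.inr ⟨h0 _ h.1, h1 h.2⟩
    · exact Or.inl ⟨h1 h.1, h0 _ h.2⟩
    · exact Or.inl ⟨hR.vs_subset h.1, h2 _ h.2⟩
    · exact Or.inr ⟨h2 _ h.1, hR.vs_subset h.2⟩

/-- the chain `X 1 ∪ ... ∪ X k` is connected -/
theorem conn_chain (S : Strip Γ ℓ M) {k : ℕ} (h1 : 1 ≤ k) (hk : k ≤ M) :
    Γ.Conn ((Finset.Icc 1 k).biUnion S.X) := by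
  induction k, h1 using Nat.le_induction with
  | base => simpa using S.conn 1 (by omega)
  | succ k h1 ih =>
    have h2 : (Finset.Icc 1 (k + 1)).biUnion S.X
        = (Finset.Icc 1 k).biUnion S.X ∪ S.X (k + 1) := by
      ext y
      rw [mem_union, mem_biUnion, mem_biUnion]
      simp only [Finset.mem_Icc]
      constructor
      · rintro ⟨i, ⟨h3, h4⟩, h5⟩
        by_cases h6 : i = k + 1
        · rw [← h6]; exact Or.inr h5
        · exact Or.inl ⟨i, ⟨h3, by omega⟩, h5⟩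
      · rintro (⟨i, ⟨h3, h4⟩, h5⟩ | h5)
        · exact ⟨i, ⟨h3, by omega⟩, h5⟩
        · exact ⟨k + 1, ⟨by omega, le_rfl⟩, h5⟩
    rw [h2]
    refine (ih (by omega)).union (S.conn (k + 1) hk) (Or.inr ?_)
    obtain ⟨e, he⟩ := S.bt_nonempty (i := k) (by omega)
    refine ⟨e, Γ.bt_mono ?_ (Finset.Subset.refl _) he⟩
    intro y hy
    exact mem_biUnion.2 ⟨k, Finset.mem_Icc.2 ⟨h1, le_rfl⟩, hy⟩

theorem IsRt.conn_last (hR : S.IsRt Rt) : Γ.Conn (S.X (M - 1) \ Rt) := by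
  classical
  have hM := hR.hM
  obtain ⟨w, hw⟩ := Γ.vs_nonempty (S.single (M - 1) (by omega)).2.1
  have hWs : Γ.vs (S.C (M - 1)) ⊆ S.X (M - 1) \ Rt := fun y hy =>
    mem_sdiff.2 ⟨S.sub (M - 1) (by omega) hy, hR.vs_not_mem hy⟩
  have hWc : Γ.vs (S.C (M - 1)) ⊆ Γ.comp (S.X (M - 1) \ Rt) w :=
    conn_subset_comp (Γ.conn_vs (S.single (M - 1) (by omega))) hWs hw
  have hcl := (cl_iff.1 (comp_cl (Γ := Γ) (S.X (M - 1) \ Rt) w))
  have hclR := (cl_iff.1 hR.cl)
  obtain ⟨T, hT⟩ : ∃ T, T = (S.X (M - 1) \ Rt) \ Γ.comp (S.X (M - 1) \ Rt) w := ⟨_, rfl⟩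
  have key : ∀ e u v, Γ.jn e u v → u ∈ T → v ∈ S.X (M - 1) → v ∈ T := by
    intro e u v hj hu hv
    rw [hT, mem_sdiff, mem_sdiff] at hu
    have huW : u ∉ Γ.vs (S.C (M - 1)) := fun h => hu.2 (hWc h)
    have huF : u ∈ (S.X (M - 1) \ Γ.vs (S.C (M - 1))) ∪ S.X M :=
      mem_union_left _ (mem_sdiff.2 ⟨hu.1.1, huW⟩)
    have hvR : v ∉ Rt := by
      intro hvR
      apply hu.1.2
      rcases hj with ⟨j1, j2⟩ | ⟨j1, j2⟩
      · rw [← j1]; exact (hclR e).2 (by rw [j2]; exact hvR) (by rw [j1]; exact huF)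
      · rw [← j2]; exact (hclR e).1 (by rw [j1]; exact hvR) (by rw [j2]; exact huF)
    rw [hT, mem_sdiff, mem_sdiff]
    refine ⟨⟨hv, hvR⟩, fun hvc => ?_⟩
    apply hu.2
    rcases hj with ⟨j1, j2⟩ | ⟨j1, j2⟩
    · rw [← j1]; exact (hcl e).2 (by rw [j2]; exact hvc) (by rw [j1]; exact mem_sdiff.2 hu.1)
    · rw [← j2]; exact (hcl e).1 (by rw [j1]; exact hvc) (by rw [j2]; exact mem_sdiff.2 hu.1)
  have hclT : Γ.Cl (S.X (M - 1)) T := by
    rw [cl_iff]
    intro e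
    exact ⟨fun h1 h2 => key e _ _ (jn_st e) h1 h2, fun h1 h2 => key e _ _ (jn_st e).symm h1 h2⟩
  have hTX : T ⊆ S.X (M - 1) := by
    rw [hT]; exact Finset.sdiff_subset.trans Finset.sdiff_subset
  have hT0 : ¬ T.Nonempty := by
    intro h
    have h1 := (S.conn (M - 1) (by omega)).cl_eq hTX hclT h
    have h2 : w ∈ T := by rw [h1]; exact S.sub (M - 1) (by omega) hw
    rw [hT, mem_sdiff] at h2
    exact h2.2 (mem_comp_self (hWs hw))
  have h1 : Γ.comp (S.X (M - 1) \ Rt) w = S.X (M - 1) \ Rt := by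
    refine Finset.Subset.antisymm (comp_subset _ _) fun y hy => ?_
    by_contra hc
    exact hT0 ⟨y, by rw [hT]; exact mem_sdiff.2 ⟨hy, hc⟩⟩
  rw [← h1]
  exact conn_comp (hWs hw)

theorem IsRt.conn_Y (hR : S.IsRt Rt) : Γ.Conn (S.YY Rt) := by
  have hM := hR.hM
  have h1 : S.YY Rt = (Finset.Icc 1 (M - 2)).biUnion S.X ∪ (S.X (M - 1) \ Rt) := by
    ext y
    rw [mem_YY, mem_union, mem_biUnion, mem_sdiff]
    simp only [Finset.mem_Icc]
    constructor
    · rintro ⟨⟨i, h1, h2, h3⟩, h4⟩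
      by_cases h5 : i = M - 1
      · right; rw [← h5]; exact ⟨h3, h4⟩
      · left; exact ⟨i, ⟨h1, by omega⟩, h3⟩
    · rintro (⟨i, ⟨h1, h2⟩, h3⟩ | ⟨h3, h4⟩)
      · exact ⟨⟨i, h1, by omega, h3⟩, hR.not_mem (by omega) h3⟩
      · exact ⟨⟨M - 1, by omega, le_rfl, h3⟩, h4⟩
  rw [h1]
  refine (S.conn_chain (by omega) (by omega)).union hR.conn_last (Or.inr ?_)
  obtain ⟨e, he⟩ := S.bt_nonempty (i := M - 2) (by omega)
  refine ⟨e, ?_⟩
  have h6 : M - 2 + 1 = M - 1 := by omega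
  have h7 : M - 1 - 1 = M - 2 := by omega
  rw [h6] at he
  have h58 : S.X (M - 2) ⊆ (Finset.Icc 1 (M - 2)).biUnion S.X := by
    intro y hy
    exact mem_biUnion.2 ⟨M - 2, Finset.mem_Icc.2 ⟨by omega, le_rfl⟩, hy⟩
  rw [Γ.mem_bt] at he ⊢
  rcases he with ⟨h2, h3⟩ | ⟨h2, h3⟩
  · have h4 := S.left' (i := M - 1) (by omega) (by omega) h3 (by rw [h7]; exact h2) (jn_st e).symm
    exact Or.inl ⟨h58 h2, mem_sdiff.2 ⟨h3, hR.vs_not_mem h4⟩⟩
  · have h4 := S.left' (i := M - 1) (by omega) (by omega) h2 (by rw [h7]; exact h3) (jn_st e)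
    exact Or.inr ⟨mem_sdiff.2 ⟨h2, hR.vs_not_mem h4⟩, h58 h3⟩

/-- parity on the right boundary -/
theorem IsRt.par_right (hR : S.IsRt Rt) {R : E → ZMod 2} (hRZ : R ∈ Γ.Z) :
    par (Γ.bt (Γ.vs (S.C (M - 1))) Rt) R = par (Γ.bt (S.X 0) (S.X 1)) R := by
  have hM := hR.hM
  have h := Γ.par_bd (S.YY Rt) hRZ
  rw [hR.bd_eq, par, Finset.sum_union] at h
  · exact (add_zm h).symm
  · rw [Finset.disjoint_left]
    intro e he he'
    rw [Γ.mem_bt] at he he'
    have h1 : ∀ y, y ∈ Rt → y ∉ S.X 1 := fun y hy hy' => hR.not_mem (by omega) hy' hy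
    have h0 : ∀ y, y ∈ Rt → y ∉ S.X 0 := fun y hy hy' => hR.not_mem (by omega) hy' hy
    rcases he with h | h <;> rcases he' with h' | h'
    · exact h1 _ h'.2 h.2
    · exact h0 _ h'.1 h.1
    · exact h0 _ h'.2 h.2
    · exact h1 _ h'.1 h.1

/-- a vertex of a cycle inside `Y` has two darts inside `Y` -/
theorem two_le_dg {C : E → ZMod 2} (hC : C ∈ Γ.Z) {Y : Finset V} (hY : Γ.vs C ⊆ Y) {y : V}
    (hy : y ∈ Γ.vs C) : 2 ≤ ((Γ.dt y).filter (fun d => d.1 ∈ Γ.EU Y)).card := by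
  have h1 := (Γ.mem_vs_iff_deg hC y).1 hy
  rw [← h1]
  refine Finset.card_le_card fun d hd => ?_
  rw [Γ.mem_dR] at hd
  rw [mem_filter, Γ.mem_dt]
  exact ⟨hd.1, Γ.EU_mono hY (Γ.supp_subset_EU_vs C (mem_supp.2 hd.2))⟩

/-- a vertex with an edge leaving `Y` has at most two darts inside `Y` -/
theorem dg_le_two {Y : Finset V} {e : E} {u v : V} (hj : Γ.jn e u v) (hv : v ∉ Y) :
    ((Γ.dt u).filter (fun d => d.1 ∈ Γ.EU Y)).card ≤ 2 := by
  obtain ⟨b, hb⟩ := Γ.mem_inc_iff_dart.1 hj.mem_inc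
  have h1 : (Γ.dt u).filter (fun d => d.1 ∈ Γ.EU Y) ⊆ (Γ.dt u).erase (e, b) := by
    intro d hd
    rw [mem_filter] at hd
    rw [mem_erase]
    refine ⟨?_, hd.1⟩
    rintro rfl
    exact hv (hj.mem_EU.1 hd.2).2
  have h2 := Finset.card_le_card h1
  rw [Finset.card_erase_of_mem hb, Γ.card_dt] at h2
  exact h2

end Strip

theorem Strip.exists_region {Γ : Cub V E} {ℓ M : ℕ} (S : Strip Γ ℓ M) (hM : 3 ≤ M)
    (h : ¬ Γ.BadW ((range (M + 1)).biUnion S.X)) : ∃ Y Rt s t, Region S Y Rt s t := by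
  classical
  obtain ⟨Rt, hRt⟩ := S.exists_Rt hM
  unfold Cub.BadW at h
  push Not at h
  obtain ⟨R, hR, hgood⟩ := h
  have hgood' : ∀ z ∈ Γ.ZB (Γ.EU S.UU), ∀ D ∈ Γ.Z, D ≠ 0 → supp D ⊆ Γ.EU S.UU →
      ¬ supp D ⊆ supp (R + z) := fun z hz D hD h0 h1 h2 => hgood z hz ⟨D, hD, h0, h2, h1⟩
  -- parity
  have hpar : par (Γ.bt (S.X 0) (S.X 1)) R ≠ 0 := by
    intro h0
    obtain ⟨z, hz, hs⟩ := S.close (i := 1) (by norm_num) (by omega) hR h0
    have hU : S.X (1 - 1) ∪ S.X 1 ∪ S.X (1 + 1) ⊆ S.UU :=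
      Finset.union_subset (Finset.union_subset (S.X_subset_UU (by omega))
        (S.X_subset_UU (by omega))) (S.X_subset_UU (by omega))
    have h1 := S.single 1 (by omega)
    refine hgood' z ?_ (S.C 1) h1.1 h1.2.1 ?_ hs
    · rw [Γ.mem_ZB] at hz ⊢
      exact ⟨hz.1, hz.2.trans (Γ.EU_mono hU)⟩
    · exact (Γ.supp_subset_EU_vs _).trans
        (Γ.EU_mono ((S.sub 1 (by omega)).trans (S.X_subset_UU (by omega))))
  have hpar' : par (Γ.bt (Γ.vs (S.C (M - 1))) Rt) R ≠ 0 := by rw [hRt.par_right hR]; exact hpar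
  have h01 : ∀ y, y ∈ S.X 0 → y ∉ S.YY Rt := fun y hy hy' =>
    (Finset.disjoint_left.1 Strip.YY_disjoint0) hy' hy
  have hRY : ∀ y, y ∈ Rt → y ∉ S.YY Rt := fun y hy hy' => (Strip.mem_YY.1 hy').2 hy
  have hR0 : ∀ y, y ∈ Rt → y ∉ S.X 0 := fun y hy hy' => hRt.not_mem (by omega) hy' hy
  -- the two terminal edges
  obtain ⟨e0, he0, _⟩ := Finset.exists_ne_zero_of_sum_ne_zero hpar
  obtain ⟨s, s', hj0, hs, hs'⟩ : ∃ s s', Γ.jn e0 s s' ∧ s ∈ Γ.vs (S.C 1) ∧ s' ∈ S.X 0 := by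
    rw [Γ.mem_bt] at he0
    rcases he0 with h | h
    · exact ⟨_, _, (jn_st e0).symm, S.left' (by norm_num) (by omega) h.2 h.1 (jn_st e0).symm, h.1⟩
    · exact ⟨_, _, jn_st e0, S.left' (by norm_num) (by omega) h.1 h.2 (jn_st e0), h.2⟩
  obtain ⟨e1, he1, _⟩ := Finset.exists_ne_zero_of_sum_ne_zero hpar'
  obtain ⟨t, t', hj1, ht, ht'⟩ : ∃ t t', Γ.jn e1 t t' ∧ t ∈ Γ.vs (S.C (M - 1)) ∧ t' ∈ Rt := by
    rw [Γ.mem_bt] at he1
    rcases he1 with h | h
    · exact ⟨_, _, jn_st e1, h.1, h.2⟩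
    · exact ⟨_, _, (jn_st e1).symm, h.2, h.1⟩
  have hsY : s ∈ S.YY Rt := hRt.vs_subset1 hs
  have htY : t ∈ S.YY Rt := hRt.vs_subset ht
  have hCZ : ∀ i ≤ M, S.C i ∈ Γ.Z := fun i hi => (S.single i hi).1
  refine ⟨S.YY Rt, Rt, s, t, ?_⟩
  refine
    { conn := hRt.conn_Y
      subU := Finset.sdiff_subset
      inner := fun i h1 h2 => hRt.X_subset h1 h2
      last := hRt.vs_subset
      disjY := Finset.disjoint_left.2 fun y hy hy' => (Strip.mem_YY.1 hy).2 hy'
      RtM := hRt.sup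
      Rtsub := ?_
      bdY := hRt.bd_eq
      sY := hs
      tY := ht
      degs := ?_
      degt := ?_
      deg2 := ?_
      deg3 := ?_
      lossless := ?_ }
  · intro y hy
    have h1 := hRt.sub hy
    rw [mem_union, mem_sdiff] at h1
    rw [mem_union]
    tauto
  · exact le_antisymm (Strip.dg_le_two hj0 (h01 _ hs'))
      (Strip.two_le_dg (hCZ 1 (by omega)) hRt.vs_subset1 hs)
  · exact le_antisymm (Strip.dg_le_two hj1 (hRY _ ht'))
      (Strip.two_le_dg (hCZ (M - 1) (by omega)) hRt.vs_subset ht)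
  · intro y hy
    by_cases h1 : y ∈ Γ.vs (S.C 1)
    · exact Strip.two_le_dg (hCZ 1 (by omega)) hRt.vs_subset1 h1
    · by_cases h2 : y ∈ Γ.vs (S.C (M - 1))
      · exact Strip.two_le_dg (hCZ (M - 1) (by omega)) hRt.vs_subset h2
      · have h3 : (Γ.dt y).filter (fun d => d.1 ∈ Γ.EU (S.YY Rt)) = Γ.dt y := by
          refine Finset.filter_true_of_mem fun d hd => ?_
          have hj := jn_dart (Γ := Γ) d
          rw [Γ.mem_dt.1 hd] at hj
          rw [hj.mem_EU]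
          refine ⟨hy, ?_⟩
          by_contra h4
          rcases hRt.out hj hy h4 with h5 | h5
          · exact h1 h5.1
          · exact h2 h5.1
        rw [h3, Γ.card_dt]; norm_num
  · intro y hy h1 h2 d hd
    have hj := jn_dart (Γ := Γ) d
    rw [Γ.mem_dt.1 hd] at hj
    rw [hj.mem_EU]
    refine ⟨hy, ?_⟩
    by_contra h4
    rcases hRt.out hj hy h4 with h5 | h5
    · exact h1 h5.1
    · exact h2 h5.1
  · intro J hJ hod D hD hD0 hDJ
    -- the modification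
    obtain ⟨g, hg⟩ : ∃ g, g = res (Γ.touch (S.YY Rt)) R + J +
      (fun f => if f = e0 then (1 : ZMod 2) else 0) +
      (fun f => if f = e1 then (1 : ZMod 2) else 0) := ⟨_, rfl⟩
    have hgod : ∀ x, Γ.od g x = Γ.od (res (Γ.touch (S.YY Rt)) R) x +
        ((if x = s then 1 else 0) + (if x = t then 1 else 0)) +
        ((if x = s then 1 else 0) + (if x = s' then 1 else 0)) +
        ((if x = t then 1 else 0) + (if x = t' then 1 else 0)) := by
      intro x
      rw [hg, od_add, od_add, od_add, hod, od_single_jn hj0, od_single_jn hj1]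
    have hs'Y := h01 _ hs'
    have ht'Y := hRY _ ht'
    -- inside `Y`
    have hgY : ∀ x ∈ S.YY Rt, Γ.od g x = 0 := by
      intro x hx
      have h1 : Γ.od (res (Γ.touch (S.YY Rt)) R) x = 0 := by
        have h2 : Γ.od (res (Γ.touch (S.YY Rt)) R) x = Γ.od R x := by
          unfold od
          refine Finset.sum_congr rfl fun d hd => ?_
          rw [res, if_pos]
          rw [Γ.mem_touch]
          have := Γ.fst_mem_inc hd
          rw [Γ.mem_inc] at this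
          rcases this with h | h
          · left; rw [h]; exact hx
          · right; rw [h]; exact hx
        rw [h2]; exact (Γ.mem_Z_iff_od.1 hR) x
      have h2 : x ≠ s' := fun h => hs'Y (h ▸ hx)
      have h3 : x ≠ t' := fun h => ht'Y (h ▸ hx)
      rw [hgod, h1, if_neg h2, if_neg h3]
      generalize (if x = s then (1 : ZMod 2) else 0) = p
      generalize (if x = t then (1 : ZMod 2) else 0) = q
      revert p q
      decide
    -- outside
    have hg0 : ∀ x, x ∉ S.YY Rt → x ∉ S.X 0 → x ∉ Rt → Γ.od g x = 0 := by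
      intro x h1 h2 h3
      have h4 : Γ.od (res (Γ.touch (S.YY Rt)) R) x = 0 := by
        refine Finset.sum_eq_zero fun d hd => ?_
        rw [res]
        by_cases h4 : d.1 ∈ Γ.touch (S.YY Rt)
        · exfalso
          have hj := jn_dart (Γ := Γ) d
          rw [Γ.mem_dt.1 hd] at hj
          rw [Γ.mem_touch] at h4
          have h5 : Γ.hd d ∈ S.YY Rt := by
            rcases hj with ⟨j1, j2⟩ | ⟨j1, j2⟩
            · rw [j1, j2] at h4; exact h4.resolve_left h1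
            · rw [j1, j2] at h4; exact h4.resolve_right h1
          rcases hRt.out hj.symm h5 h1 with h | h
          · exact h2 h.2
          · exact h3 h.2
        · rw [if_neg h4]
      rw [hgod, h4, if_neg (fun h : x = s => h1 (by rw [h]; exact hsY)),
        if_neg (fun h : x = t => h1 (by rw [h]; exact htY)),
        if_neg (fun h : x = s' => h2 (by rw [h]; exact hs')),
        if_neg (fun h : x = t' => h3 (by rw [h]; exact ht'))]
      simp
    -- parity on `X 0` and on `Rt`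
    have hsumQ : ∀ Q : Finset V, (∀ y ∈ Q, y ∉ S.YY Rt) →
        ∑ x ∈ Q, Γ.od (res (Γ.touch (S.YY Rt)) R) x = par (Γ.bt Q (S.YY Rt)) R := by
      intro Q hQ
      rw [sum_od_eq]
      have h1 : Γ.bt Q (S.YY Rt) ⊆ Γ.bd Q := by
        intro e he
        rw [Γ.mem_bt] at he
        rw [Γ.mem_bd]
        rcases he with h | h
        · exact Or.inl ⟨h.1, fun h' => hQ _ h' h.2⟩
        · exact Or.inr ⟨fun h' => hQ _ h' h.1, h.2⟩
      have h2 : par (Γ.bd Q) (res (Γ.touch (S.YY Rt)) R)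
          = par (Γ.bt Q (S.YY Rt)) (res (Γ.touch (S.YY Rt)) R) := by
        refine (Finset.sum_subset h1 ?_).symm
        intro e he he'
        rw [res]
        by_cases h4 : e ∈ Γ.touch (S.YY Rt)
        · exfalso
          rw [Γ.mem_touch] at h4
          rw [Γ.mem_bd] at he
          apply he'
          rw [Γ.mem_bt]
          rcases he with h | h
          · exact Or.inl ⟨h.1, h4.resolve_left (hQ _ h.1)⟩
          · exact Or.inr ⟨h4.resolve_right (hQ _ h.2), h.2⟩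
        · rw [if_neg h4]
      rw [h2]
      refine par_res_sub R ?_
      intro e he
      rw [Γ.mem_bt] at he
      rw [Γ.mem_touch]
      rcases he with h | h
      · exact Or.inr h.2
      · exact Or.inl h.1
    have hb0 : Γ.bt (S.X 0) (S.YY Rt) = Γ.bt (S.X 0) (S.X 1) := by
      ext e
      rw [Γ.mem_bt, Γ.mem_bt]
      have h1 : S.X 1 ⊆ S.YY Rt := hRt.X_subset le_rfl (by omega)
      have aux : ∀ u v, Γ.jn e u v → u ∈ S.YY Rt → v ∈ S.X 0 → u ∈ S.X 1 := by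
        intro u v hj hu hv
        rcases hRt.out hj hu (h01 _ hv) with h | h
        · exact S.sub 1 (by omega) h.1
        · exact absurd hv (hR0 _ h.2)
      constructor
      · rintro (h | h)
        · exact Or.inl ⟨h.1, aux _ _ (jn_st e).symm h.2 h.1⟩
        · exact Or.inr ⟨aux _ _ (jn_st e) h.1 h.2, h.2⟩
      · rintro (h | h)
        · exact Or.inl ⟨h.1, h1 h.2⟩
        · exact Or.inr ⟨h1 h.1, h.2⟩
    have hb1 : Γ.bt Rt (S.YY Rt) = Γ.bt (Γ.vs (S.C (M - 1))) Rt := by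
      ext e
      rw [Γ.mem_bt, Γ.mem_bt]
      have aux : ∀ u v, Γ.jn e u v → u ∈ S.YY Rt → v ∈ Rt → u ∈ Γ.vs (S.C (M - 1)) := by
        intro u v hj hu hv
        rcases hRt.out hj hu (hRY _ hv) with h | h
        · exact absurd h.2 (hR0 _ hv)
        · exact h.1
      constructor
      · rintro (h | h)
        · exact Or.inr ⟨h.1, aux _ _ (jn_st e).symm h.2 h.1⟩
        · exact Or.inl ⟨aux _ _ (jn_st e) h.1 h.2, h.2⟩
      · rintro (h | h)
        · exact Or.inr ⟨hRt.vs_subset h.1, h.2⟩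
        · exact Or.inl ⟨h.1, hRt.vs_subset h.2⟩
    have h11 : (1 : ZMod 2) + 1 = 0 := by decide
    have hsum0 : ∑ x ∈ S.X 0, Γ.od g x = 0 := by
      rw [Finset.sum_congr rfl (fun x _ => hgod x)]
      simp only [Finset.sum_add_distrib, Finset.sum_ite_eq']
      rw [hsumQ _ h01, hb0, zm_ne_zero.1 hpar, if_neg (fun h => h01 _ h hsY),
        if_neg (fun h => h01 _ h htY), if_pos hs', if_neg (hR0 _ ht')]
      decide
    have hsum1 : ∑ x ∈ Rt, Γ.od g x = 0 := by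
      rw [Finset.sum_congr rfl (fun x _ => hgod x)]
      simp only [Finset.sum_add_distrib, Finset.sum_ite_eq']
      rw [hsumQ _ hRY, hb1, zm_ne_zero.1 hpar', if_neg (fun h => hRY _ h hsY),
        if_neg (fun h => hRY _ h htY), if_neg (fun h => hR0 _ h hs'), if_pos ht']
      decide
    obtain ⟨K0, hK0, hod0⟩ := exists_join_fn (Γ := Γ) (S.conn 0 (by omega))
      (f := fun x => if x ∈ S.X 0 then Γ.od g x else 0) (fun x hx => if_neg hx)
      (by rw [← hsum0]; exact Finset.sum_congr rfl fun x hx => if_pos hx)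
    obtain ⟨K1, hK1, hod1⟩ := exists_join_fn (Γ := Γ) hRt.conn
      (f := fun x => if x ∈ Rt then Γ.od g x else 0) (fun x hx => if_neg hx)
      (by rw [← hsum1]; exact Finset.sum_congr rfl fun x hx => if_pos hx)
    have hYU : S.YY Rt ⊆ S.UU := Strip.YY_sub_UU
    have htouch : Γ.touch (S.YY Rt) ⊆ Γ.EU S.UU := by
      intro e he
      have key : ∀ u v, Γ.jn e u v → u ∈ S.YY Rt → e ∈ Γ.EU S.UU := by
        intro u v hj hu
        rw [hj.mem_EU]
        refine ⟨hYU hu, ?_⟩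
        by_cases hv : v ∈ S.YY Rt
        · exact hYU hv
        · rcases hRt.out hj hu hv with h | h
          · exact S.X_subset_UU (by omega) h.2
          · exact hRt.sub_UU h.2
      rw [Γ.mem_touch] at he
      rcases he with h | h
      · exact key _ _ (jn_st e) h
      · exact key _ _ (jn_st e).symm h
    have hzZ : g + K0 + K1 ∈ Γ.Z := by
      rw [Γ.mem_Z_iff_od]
      intro x
      rw [od_add, od_add, hod0, hod1]
      by_cases h0 : x ∈ S.X 0
      · rw [if_pos h0, if_neg (fun h => hR0 _ h h0), add_zero, zm_add_self]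
      · by_cases h1 : x ∈ Rt
        · rw [if_neg h0, if_pos h1, add_zero, zm_add_self]
        · rw [if_neg h0, if_neg h1, add_zero, add_zero]
          by_cases hx : x ∈ S.YY Rt
          · exact hgY x hx
          · exact hg0 x hx h0 h1
    have hEUY : Γ.EU (S.YY Rt) ⊆ Γ.touch (S.YY Rt) := by
      intro e he
      rw [Γ.mem_EU] at he
      rw [Γ.mem_touch]
      exact Or.inl he.1
    have he0t : e0 ∈ Γ.touch (S.YY Rt) := by
      rw [Γ.mem_touch]
      rcases hj0 with ⟨j1, _⟩ | ⟨_, j2⟩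
      · rw [j1]; exact Or.inl hsY
      · rw [j2]; exact Or.inr hsY
    have he1t : e1 ∈ Γ.touch (S.YY Rt) := by
      rw [Γ.mem_touch]
      rcases hj1 with ⟨j1, _⟩ | ⟨_, j2⟩
      · rw [j1]; exact Or.inl htY
      · rw [j2]; exact Or.inr htY
    have hzB : g + K0 + K1 ∈ Γ.ZB (Γ.EU S.UU) := by
      rw [Γ.mem_ZB]
      refine ⟨hzZ, fun e he => ?_⟩
      by_cases h1 : K0 e = 0
      · by_cases h2 : K1 e = 0
        · by_cases h3 : e ∈ Γ.touch (S.YY Rt)
          · exact htouch h3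
          · exfalso
            rw [mem_supp] at he
            apply he
            have h4 : J e = 0 := by
              by_contra h4
              exact h3 (hEUY (hJ (mem_supp.2 h4)))
            have h5 : e ≠ e0 := fun h => h3 (h ▸ he0t)
            have h6 : e ≠ e1 := fun h => h3 (h ▸ he1t)
            simp only [Pi.add_apply, hg, res, h1, h2, h4, if_neg h3, if_neg h5, if_neg h6]
            simp
        · exact Γ.EU_mono hRt.sub_UU (hK1 (mem_supp.2 h2))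
      · exact Γ.EU_mono (S.X_subset_UU (by omega)) (hK0 (mem_supp.2 h1))
    refine hgood' _ hzB D hD hD0 ?_ ?_
    · exact hDJ.trans (hJ.trans (Γ.EU_mono hYU))
    · intro e he
      have h1 := hDJ he
      have h2 := hJ h1
      have h3 := Γ.mem_EU.1 h2
      have h4 : K0 e = 0 := by
        by_contra hc
        have := Γ.mem_EU.1 (hK0 (mem_supp.2 hc))
        exact h01 _ this.1 h3.1
      have h5 : K1 e = 0 := by
        by_contra hc
        have := Γ.mem_EU.1 (hK1 (mem_supp.2 hc))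
        exact hRY _ this.1 h3.1
      have h6 : e ≠ e0 := by
        rintro rfl
        exact hs'Y (hj0.mem_EU.1 h2).2
      have h7 : e ≠ e1 := by
        rintro rfl
        exact ht'Y (hj1.mem_EU.1 h2).2
      rw [mem_supp] at h1 ⊢
      have h8 : (R + (g + K0 + K1)) e = J e := by
        simp only [Pi.add_apply, hg, res, h4, h5, if_pos (hEUY h2), if_neg h6, if_neg h7,
          add_zero]
        rw [← add_assoc, zm_add_self, zero_add]
      rw [h8]; exact h1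

end Pool.Agent.Lib.MP_af4270_co
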