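import Pool.Agent.Lib.MP_af4270_co.BDefs

/-!
# PAN-B3: separating cycles are linearly ordered

Notation for `h : Sep O a b C`: `Y = Yc O a`, `L = Lc O a C`, `W = Wc O a C = Y \ L`.
Facts: `a, b ∉ vs C` (they are adjacent to `vs O`, `C` is not), `a ∈ Y`, `Y` is closed in
`univ \ vs O` and connected.
* `vs C ⊆ Y`: `vs C` is connected, contained in `univ \ vs O`; if it does not meet `Y` then
  `Y \ vs C = Y`, `L = comp Y a = Y ∋ b`, contradiction.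
* `L`: connected (`conn_comp`), `a ∈ L`, `L ⊆ Y \ vs C`, closed in `Y \ vs C`. `vs C ⊆ W`, `b ∈ W`.
* an edge between `L` and `W` has its `W`-end on `vs C` (closedness of `L` in `Y \ vs C`).
* HUB PRINCIPLE: if `X` is nonempty, `K ⊆ X` connected and every nonempty `S ⊆ X` closed in `X` meets
  `K`, then `X` is connected: for `S` closed nonempty and `≠ X`, both `S` and `X \ S` meet `K`, so both
  contain `K` (`Conn.subset_of_cl`): contradiction.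
* `W` is connected: hub `vs C`. A nonempty `S ⊆ W \ vs C` closed in `W` is closed in `Y` (no edges to `L`),
  so `S = Y` (`Conn.cl_eq`), contradiction to `vs C ⊆ Y`.
* an edge leaving `W` goes from `vs C` to `L` or from `W` to `vs O`.
* nested: let `h₁ : Sep O a b C₁`, `h₂ : Sep O a b C₂` with disjoint vertex sets. `vs C₂` is connected,
  `⊆ Y \ vs C₁`. Case A: `vs C₂ ∩ L₁ = ∅`, so `vs C₂ ⊆ W₁ \ vs C₁`. `L₁ ∪ vs C₁` is connected (`L₁ ≠ Y` is not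
  closed in `Y`, its edges to `W₁` end on `vs C₁`; `Conn.union`), contained in `Y \ vs C₂`, contains `a`: so
  `L₁ ∪ vs C₁ ⊆ L₂`, i.e. `W₂ ⊆ W₁ \ vs C₁`. Case B: `vs C₂ ⊆ L₁`. `W₁` is connected, `⊆ Y \ vs C₂`, contains
  `b ∉ L₂`; so `W₁ ∩ L₂ = ∅`, `W₁ ⊆ W₂`, and `W₁ ∩ vs C₂ = ∅`: `W₁ ⊆ W₂ \ vs C₂`.
* difference `X = W₁ \ W₂` for `W₂ ⊆ W₁ \ vs C₁`: `L₂ = L₁ ∪ X` (disjoint), `vs C₁ ⊆ X`, `X` is connected: hub
  `vs C₁`; a nonempty `S ⊆ X \ vs C₁` closed in `X` is closed in `L₂` (edges from `S` to `L₁` would end on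
  `vs C₁`), so `S = L₂ ∋ a`: contradiction to `a ∉ X`.
* an edge leaving `X` : to `L₁` (then it starts on `vs C₁`), to `W₂` (then it ends on `vs C₂`), or to `vs O`.
* `Sep.nonzero`: there is `R ∈ Z` which meets the edges between `L` and `W` in an odd number:
  `J₁` an `{a, b}`-join in `Y` (`exists_pathJoin`), `J₂` an `{a, b}`-join in the connected set
  `vs O ∪ {a, b}`; `R = J₁ + J₂ ∈ Z` (if `a = b` impossible, as `a ∈ L`). `par (bt L W) J₂ = 0` (an edge of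
  `bt L W` ends on `vs C`, which is disjoint from `vs O ∪ {a, b}`). `par (bt L W) J₁ = ∑_{x ∈ W} od J₁ x = 1`
  (`sum_inc` for `W`, edges of `J₁` are inside `Y`, so those leaving `W` are in `bt L W`; `b ∈ W`, `a ∉ W`).
-/

set_option autoImplicit false
set_option linter.unusedSectionVars false

namespace Pool.Agent.Lib.MP_af4270_co

open Finset

variable {V E : Type} [Fintype V] [DecidableEq V] [Fintype E] [DecidableEq E]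

namespace Cub

variable {Γ : Cub V E}

/-- adjacency (used only in this file) -/
def bsLk (Γ : Cub V E) (x y : V) : Prop :=
  ∃ e, (Γ.s e = x ∧ Γ.t e = y) ∨ (Γ.s e = y ∧ Γ.t e = x)

theorem bs_symm {x y : V} (h : Γ.bsLk x y) : Γ.bsLk y x := by
  obtain ⟨e, he⟩ := h
  exact ⟨e, he.symm⟩

theorem bs_cl {U S : Finset V} :
    Γ.Cl U S ↔ ∀ x y, Γ.bsLk x y → x ∈ S → y ∈ U → y ∈ S := by
  rw [cl_iff]
  constructor
  · rintro h x y ⟨e, ⟨rfl, rfl⟩ | ⟨rfl, rfl⟩⟩ hx hy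
    · exact (h e).1 hx hy
    · exact (h e).2 hx hy
  · intro h e
    exact ⟨fun h1 h2 => h _ _ ⟨e, Or.inl ⟨rfl, rfl⟩⟩ h1 h2,
      fun h1 h2 => h _ _ ⟨e, Or.inr ⟨rfl, rfl⟩⟩ h1 h2⟩

theorem bs_bt {U W : Finset V} :
    (Γ.bt U W).Nonempty ↔ ∃ x ∈ U, ∃ y ∈ W, Γ.bsLk x y := by
  constructor
  · rintro ⟨e, he⟩
    rw [mem_bt] at he
    rcases he with ⟨h1, h2⟩ | ⟨h1, h2⟩
    · exact ⟨_, h1, _, h2, e, Or.inl ⟨rfl, rfl⟩⟩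
    · exact ⟨_, h2, _, h1, e, Or.inr ⟨rfl, rfl⟩⟩
  · rintro ⟨x, hx, y, hy, e, ⟨rfl, rfl⟩ | ⟨rfl, rfl⟩⟩
    · exact ⟨e, by rw [mem_bt]; exact Or.inl ⟨hx, hy⟩⟩
    · exact ⟨e, by rw [mem_bt]; exact Or.inr ⟨hy, hx⟩⟩

theorem conn_of_hub {X K : Finset V} (hX : X.Nonempty) (hK : Γ.Conn K) (hKX : K ⊆ X)
    (h : ∀ S ⊆ X, S.Nonempty → Γ.Cl X S → (S ∩ K).Nonempty) : Γ.Conn X := by
  refine ⟨hX, fun S hS h0 h1 => ?_⟩
  by_contra hcon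
  rw [Finset.not_nonempty_iff_eq_empty] at hcon
  have hcl : Γ.Cl X S := hcon
  have h2 := h S hS h0 hcl
  have h3 : (X \ S).Nonempty := by
    rw [Finset.nonempty_iff_ne_empty]
    intro h4
    exact h1 (Finset.Subset.antisymm hS (Finset.sdiff_eq_empty_iff_subset.1 h4))
  have h4 := h (X \ S) Finset.sdiff_subset h3 (cl_sdiff hcl)
  have h5 : K ⊆ S := hK.subset_of_cl hKX hcl (by rwa [Finset.inter_comm])
  have h6 : K ⊆ X \ S := hK.subset_of_cl hKX (cl_sdiff hcl) (by rwa [Finset.inter_comm])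
  obtain ⟨x, hx⟩ := hK.1
  exact (mem_sdiff.1 (h6 hx)).2 (h5 hx)

namespace Sep

variable {O C C₁ C₂ : E → ZMod 2} {a b : V}

theorem bs_att_notMem (h : Γ.Sep O a b C) {x : V} (hx : Γ.Att O x) : x ∉ Γ.vs C := by
  intro hxC
  obtain ⟨y, hy, z, hz, hl⟩ := bs_bt.1 hx.2
  rw [mem_singleton] at hy
  subst hy
  have h1 : (Γ.bt (Γ.vs C) (Γ.vs O)).Nonempty := bs_bt.2 ⟨_, hxC, _, hz, hl⟩
  rw [h.nadj] at h1
  simp at h1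

theorem bs_aU (h : Γ.Sep O a b C) : a ∈ (univ : Finset V) \ Γ.vs O := by
  rw [mem_sdiff]; exact ⟨mem_univ _, h.ha.1⟩

theorem bs_aY (h : Γ.Sep O a b C) : a ∈ Γ.Yc O a := mem_comp_self h.bs_aU

theorem bs_connY (h : Γ.Sep O a b C) : Γ.Conn (Γ.Yc O a) := conn_comp h.bs_aU

theorem bs_Y_cl (h : Γ.Sep O a b C) {x y : V} (hl : Γ.bsLk x y) (hx : x ∈ Γ.Yc O a)
    (hy : y ∉ Γ.vs O) : y ∈ Γ.Yc O a :=
  bs_cl.1 (comp_cl (univ \ Γ.vs O) a) x y hl hx (mem_sdiff.2 ⟨mem_univ _, hy⟩)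

theorem vs_sub_Y (h : Γ.Sep O a b C) : Γ.vs C ⊆ Γ.Yc O a := by
  have h1 : Γ.vs C ⊆ univ \ Γ.vs O := by
    intro x hx
    rw [mem_sdiff]
    exact ⟨mem_univ _, Finset.disjoint_left.1 h.dis hx⟩
  refine (Γ.conn_vs h.hC).subset_of_cl h1 (comp_cl _ a) ?_
  by_contra hcon
  rw [Finset.not_nonempty_iff_eq_empty, ← Finset.disjoint_iff_inter_eq_empty] at hcon
  have h2 : Γ.Yc O a \ Γ.vs C = Γ.Yc O a :=
    Finset.sdiff_eq_self_of_disjoint hcon.symm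
  have h3 : Γ.Lc O a C = Γ.Yc O a := by
    unfold Lc
    rw [h2]
    exact h.bs_connY.comp_eq_self h.bs_aY
  exact h.sep (by rw [h3]; exact h.hbY)

theorem bs_aYC (h : Γ.Sep O a b C) : a ∈ Γ.Yc O a \ Γ.vs C :=
  mem_sdiff.2 ⟨h.bs_aY, h.bs_att_notMem h.ha⟩

theorem a_mem_L (h : Γ.Sep O a b C) : a ∈ Γ.Lc O a C := mem_comp_self h.bs_aYC

theorem L_sub (h : Γ.Sep O a b C) : Γ.Lc O a C ⊆ Γ.Yc O a \ Γ.vs C := comp_subset _ _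

theorem conn_L (h : Γ.Sep O a b C) : Γ.Conn (Γ.Lc O a C) := conn_comp h.bs_aYC

theorem vs_sub_W (h : Γ.Sep O a b C) : Γ.vs C ⊆ Γ.Wc O a C := by
  intro x hx
  unfold Wc
  rw [mem_sdiff]
  exact ⟨h.vs_sub_Y hx, fun h1 => (mem_sdiff.1 (h.L_sub h1)).2 hx⟩

theorem b_mem_W (h : Γ.Sep O a b C) : b ∈ Γ.Wc O a C := mem_sdiff.2 ⟨h.hbY, h.sep⟩

theorem bs_LW (h : Γ.Sep O a b C) {x y : V} (hl : Γ.bsLk x y) (hx : x ∈ Γ.Lc O a C)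
    (hy : y ∈ Γ.Wc O a C) : y ∈ Γ.vs C := by
  by_contra hc
  unfold Wc at hy
  rw [mem_sdiff] at hy
  exact hy.2 (bs_cl.1 (comp_cl (Γ.Yc O a \ Γ.vs C) a) x y hl hx (mem_sdiff.2 ⟨hy.1, hc⟩))

theorem conn_W (h : Γ.Sep O a b C) : Γ.Conn (Γ.Wc O a C) := by
  refine conn_of_hub ⟨b, h.b_mem_W⟩ (Γ.conn_vs h.hC) h.vs_sub_W fun S hS h0 hcl => ?_
  by_contra hcon
  rw [Finset.not_nonempty_iff_eq_empty] at hcon
  have hWY : Γ.Wc O a C ⊆ Γ.Yc O a := Finset.sdiff_subset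
  have h1 : Γ.Cl (Γ.Yc O a) S := by
    rw [bs_cl]
    intro x y hl hx hy
    by_cases hyW : y ∈ Γ.Wc O a C
    · exact bs_cl.1 hcl x y hl hx hyW
    · exfalso
      have hyL : y ∈ Γ.Lc O a C := by
        by_contra h2
        exact hyW (mem_sdiff.2 ⟨hy, h2⟩)
      have h2 := h.bs_LW (bs_symm hl) hyL (hS hx)
      have h3 : x ∈ S ∩ Γ.vs C := mem_inter.2 ⟨hx, h2⟩
      rw [hcon] at h3
      simp at h3
  have h2 := h.bs_connY.cl_eq (hS.trans hWY) h1 h0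
  obtain ⟨x, hx⟩ := Γ.vs_nonempty h.hC.2.1
  have h3 : x ∈ S ∩ Γ.vs C := mem_inter.2 ⟨by rw [h2]; exact h.vs_sub_Y hx, hx⟩
  rw [hcon] at h3
  simp at h3

/-- edges between `L` and `W` end on `C` -/
theorem bt_LW (h : Γ.Sep O a b C) :
    Γ.bt (Γ.Lc O a C) (Γ.Wc O a C) = Γ.bt (Γ.Lc O a C) (Γ.vs C) := by
  refine Finset.Subset.antisymm ?_ (Γ.bt_mono (Finset.Subset.refl _) h.vs_sub_W)
  intro e he
  rw [mem_bt] at he ⊢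
  rcases he with ⟨h1, h2⟩ | ⟨h1, h2⟩
  · exact Or.inl ⟨h1, h.bs_LW ⟨e, Or.inl ⟨rfl, rfl⟩⟩ h1 h2⟩
  · exact Or.inr ⟨h.bs_LW ⟨e, Or.inr ⟨rfl, rfl⟩⟩ h2 h1, h2⟩

theorem bs_out (h : Γ.Sep O a b C) {x y : V} (hl : Γ.bsLk x y) (hx : x ∈ Γ.Wc O a C)
    (hy : y ∉ Γ.Wc O a C) : (x ∈ Γ.vs C ∧ y ∈ Γ.Lc O a C) ∨ y ∈ Γ.vs O := by
  by_cases h1 : y ∈ Γ.vs O
  · exact Or.inr h1
  · left
    have hxY : x ∈ Γ.Yc O a := (mem_sdiff.1 hx).1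
    have hyY := h.bs_Y_cl hl hxY h1
    have hyL : y ∈ Γ.Lc O a C := by
      by_contra h2
      exact hy (mem_sdiff.2 ⟨hyY, h2⟩)
    exact ⟨h.bs_LW (bs_symm hl) hyL hx, hyL⟩

/-- edges leaving `W` -/
theorem bd_W (h : Γ.Sep O a b C) :
    Γ.bd (Γ.Wc O a C) ⊆ Γ.bt (Γ.Lc O a C) (Γ.vs C) ∪ Γ.bt (Γ.Wc O a C) (Γ.vs O) := by
  intro e he
  rw [mem_bd] at he
  rw [mem_union, mem_bt, mem_bt]
  rcases he with ⟨h1, h2⟩ | ⟨h1, h2⟩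
  · rcases h.bs_out ⟨e, Or.inl ⟨rfl, rfl⟩⟩ h1 h2 with ⟨h3, h4⟩ | h3
    · exact Or.inl (Or.inr ⟨h3, h4⟩)
    · exact Or.inr (Or.inl ⟨h1, h3⟩)
  · rcases h.bs_out ⟨e, Or.inr ⟨rfl, rfl⟩⟩ h2 h1 with ⟨h3, h4⟩ | h3
    · exact Or.inl (Or.inl ⟨h4, h3⟩)
    · exact Or.inr (Or.inr ⟨h3, h2⟩)

/-- position of a connected set which avoids `C` -/
theorem nested_of_sub (h₁ : Γ.Sep O a b C₁) (h₂ : Γ.Sep O a b C₂)
    (hd : Disjoint (Γ.vs C₁) (Γ.vs C₂)) (hs : Γ.vs C₂ ⊆ Γ.Wc O a C₁) :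
    Γ.Wc O a C₂ ⊆ Γ.Wc O a C₁ \ Γ.vs C₁ := by
  have hne : (Γ.bt (Γ.Lc O a C₁) (Γ.vs C₁)).Nonempty := by
    rw [← h₁.bt_LW]
    refine h₁.bs_connY.2 (Γ.Lc O a C₁) (h₁.L_sub.trans Finset.sdiff_subset)
      ⟨a, h₁.a_mem_L⟩ ?_
    intro h
    exact h₁.sep (by rw [h]; exact h₁.hbY)
  have hconn : Γ.Conn (Γ.Lc O a C₁ ∪ Γ.vs C₁) :=
    h₁.conn_L.union (Γ.conn_vs h₁.hC) (Or.inr hne)
  have hsub : Γ.Lc O a C₁ ∪ Γ.vs C₁ ⊆ Γ.Yc O a \ Γ.vs C₂ := by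
    intro x hx
    rw [mem_sdiff]
    rcases mem_union.1 hx with hx | hx
    · refine ⟨(mem_sdiff.1 (h₁.L_sub hx)).1, fun h => ?_⟩
      exact (mem_sdiff.1 (hs h)).2 hx
    · exact ⟨h₁.vs_sub_Y hx, Finset.disjoint_left.1 hd hx⟩
  have h3 : Γ.Lc O a C₁ ∪ Γ.vs C₁ ⊆ Γ.Lc O a C₂ :=
    conn_subset_comp hconn hsub (mem_union_left _ h₁.a_mem_L)
  intro x hx
  have hx' := mem_sdiff.1 hx
  refine mem_sdiff.2 ⟨mem_sdiff.2 ⟨hx'.1, fun h => hx'.2 (h3 (mem_union_left _ h))⟩, fun h => ?_⟩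
  exact hx'.2 (h3 (mem_union_right _ h))

theorem nested_of_sub_L (h₁ : Γ.Sep O a b C₁) (h₂ : Γ.Sep O a b C₂)
    (hd : Disjoint (Γ.vs C₁) (Γ.vs C₂)) (hs : Γ.vs C₂ ⊆ Γ.Lc O a C₁) :
    Γ.Wc O a C₁ ⊆ Γ.Wc O a C₂ \ Γ.vs C₂ := by
  have h1 : Γ.Wc O a C₁ ⊆ Γ.Yc O a \ Γ.vs C₂ := by
    intro x hx
    have hx' := mem_sdiff.1 hx
    exact mem_sdiff.2 ⟨hx'.1, fun h => hx'.2 (hs h)⟩
  have h2 : ∀ x ∈ Γ.Wc O a C₁, x ∉ Γ.Lc O a C₂ := by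
    intro x hx hxL
    have h3 : Γ.Wc O a C₁ ⊆ Γ.Lc O a C₂ :=
      h₁.conn_W.subset_of_cl h1 (comp_cl _ a) ⟨x, mem_inter.2 ⟨hx, hxL⟩⟩
    exact h₂.sep (h3 h₁.b_mem_W)
  intro x hx
  have hx1 := mem_sdiff.1 (h1 hx)
  exact mem_sdiff.2 ⟨mem_sdiff.2 ⟨hx1.1, h2 x hx⟩, hx1.2⟩

theorem nested (h₁ : Γ.Sep O a b C₁) (h₂ : Γ.Sep O a b C₂)
    (hd : Disjoint (Γ.vs C₁) (Γ.vs C₂)) :
    Γ.Wc O a C₂ ⊆ Γ.Wc O a C₁ \ Γ.vs C₁ ∨ Γ.Wc O a C₁ ⊆ Γ.Wc O a C₂ \ Γ.vs C₂ := by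
  by_cases h : (Γ.vs C₂ ∩ Γ.Lc O a C₁).Nonempty
  · right
    refine nested_of_sub_L h₁ h₂ hd ?_
    refine (Γ.conn_vs h₂.hC).subset_of_cl (U := Γ.Yc O a \ Γ.vs C₁) ?_ (comp_cl _ a) h
    intro x hx
    exact mem_sdiff.2 ⟨h₂.vs_sub_Y hx, Finset.disjoint_right.1 hd hx⟩
  · left
    refine nested_of_sub h₁ h₂ hd ?_
    intro x hx
    refine mem_sdiff.2 ⟨h₂.vs_sub_Y hx, fun hL => h ⟨x, mem_inter.2 ⟨hx, hL⟩⟩⟩

theorem vs_sub_diff (h₁ : Γ.Sep O a b C₁) (h₂ : Γ.Sep O a b C₂)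
    (hn : Γ.Wc O a C₂ ⊆ Γ.Wc O a C₁ \ Γ.vs C₁) :
    Γ.vs C₁ ⊆ Γ.Wc O a C₁ \ Γ.Wc O a C₂ := by
  intro x hx
  exact mem_sdiff.2 ⟨h₁.vs_sub_W hx, fun h => (mem_sdiff.1 (hn h)).2 hx⟩

theorem L_eq (h₁ : Γ.Sep O a b C₁) (h₂ : Γ.Sep O a b C₂)
    (hn : Γ.Wc O a C₂ ⊆ Γ.Wc O a C₁ \ Γ.vs C₁) :
    Γ.Lc O a C₂ = Γ.Lc O a C₁ ∪ (Γ.Wc O a C₁ \ Γ.Wc O a C₂) := by
  ext x
  rw [mem_union, mem_sdiff]
  constructor
  · intro hx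
    have hxY := (mem_sdiff.1 (h₂.L_sub hx)).1
    by_cases h1 : x ∈ Γ.Lc O a C₁
    · exact Or.inl h1
    · exact Or.inr ⟨mem_sdiff.2 ⟨hxY, h1⟩, fun h2 => (mem_sdiff.1 h2).2 hx⟩
  · rintro (hx | ⟨hx1, hx2⟩)
    · have hxY := (mem_sdiff.1 (h₁.L_sub hx)).1
      by_contra h1
      have h2 : x ∈ Γ.Wc O a C₂ := mem_sdiff.2 ⟨hxY, h1⟩
      exact (mem_sdiff.1 (mem_sdiff.1 (hn h2)).1).2 hx
    · by_contra h1
      exact hx2 (mem_sdiff.2 ⟨(mem_sdiff.1 hx1).1, h1⟩)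

theorem conn_diff (h₁ : Γ.Sep O a b C₁) (h₂ : Γ.Sep O a b C₂)
    (hn : Γ.Wc O a C₂ ⊆ Γ.Wc O a C₁ \ Γ.vs C₁) :
    Γ.Conn (Γ.Wc O a C₁ \ Γ.Wc O a C₂) := by
  have hv := vs_sub_diff h₁ h₂ hn
  obtain ⟨x₀, hx₀⟩ := Γ.vs_nonempty h₁.hC.2.1
  refine conn_of_hub ⟨x₀, hv hx₀⟩ (Γ.conn_vs h₁.hC) hv fun S hS h0 hcl => ?_
  by_contra hcon
  rw [Finset.not_nonempty_iff_eq_empty] at hcon
  have hL := L_eq h₁ h₂ hn
  have h1 : Γ.Cl (Γ.Lc O a C₂) S := by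
    rw [bs_cl]
    intro x y hl hx hy
    rw [hL, mem_union] at hy
    rcases hy with hy | hy
    · exfalso
      have h2 := h₁.bs_LW (bs_symm hl) hy (mem_sdiff.1 (hS hx)).1
      have h3 : x ∈ S ∩ Γ.vs C₁ := mem_inter.2 ⟨hx, h2⟩
      rw [hcon] at h3
      simp at h3
    · exact bs_cl.1 hcl x y hl hx hy
  have h2 : S ⊆ Γ.Lc O a C₂ := by
    rw [hL]
    exact hS.trans Finset.subset_union_right
  have h3 := h₂.conn_L.cl_eq h2 h1 h0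
  have h4 : a ∈ S := by rw [h3]; exact h₂.a_mem_L
  have h5 := (mem_sdiff.1 (hS h4)).1
  exact (mem_sdiff.1 h5).2 h₁.a_mem_L

theorem bs_outd (h₁ : Γ.Sep O a b C₁) (h₂ : Γ.Sep O a b C₂)
    (hn : Γ.Wc O a C₂ ⊆ Γ.Wc O a C₁ \ Γ.vs C₁) {x y : V} (hl : Γ.bsLk x y)
    (hx : x ∈ Γ.Wc O a C₁ \ Γ.Wc O a C₂) (hy : y ∉ Γ.Wc O a C₁ \ Γ.Wc O a C₂) :
    (x ∈ Γ.vs C₁ ∧ y ∈ Γ.Lc O a C₁) ∨ y ∈ Γ.vs C₂ ∨ y ∈ Γ.vs O := by
  by_cases h1 : y ∈ Γ.vs O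
  · exact Or.inr (Or.inr h1)
  · have hx1 := mem_sdiff.1 hx
    have hxY : x ∈ Γ.Yc O a := (mem_sdiff.1 hx1.1).1
    have hyY := h₁.bs_Y_cl hl hxY h1
    by_cases hyL : y ∈ Γ.Lc O a C₁
    · exact Or.inl ⟨h₁.bs_LW (bs_symm hl) hyL hx1.1, hyL⟩
    · have hyW1 : y ∈ Γ.Wc O a C₁ := mem_sdiff.2 ⟨hyY, hyL⟩
      have hyW2 : y ∈ Γ.Wc O a C₂ := by
        by_contra h2
        exact hy (mem_sdiff.2 ⟨hyW1, h2⟩)
      have hxL2 : x ∈ Γ.Lc O a C₂ := by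
        rw [L_eq h₁ h₂ hn]
        exact mem_union_right _ hx
      exact Or.inr (Or.inl (h₂.bs_LW hl hxL2 hyW2))

theorem bd_diff (h₁ : Γ.Sep O a b C₁) (h₂ : Γ.Sep O a b C₂)
    (hn : Γ.Wc O a C₂ ⊆ Γ.Wc O a C₁ \ Γ.vs C₁) :
    Γ.bd (Γ.Wc O a C₁ \ Γ.Wc O a C₂) ⊆ Γ.bt (Γ.Lc O a C₁) (Γ.vs C₁) ∪
      Γ.bt (Γ.Wc O a C₁ \ Γ.Wc O a C₂) (Γ.vs C₂) ∪
      Γ.bt (Γ.Wc O a C₁ \ Γ.Wc O a C₂) (Γ.vs O) := by
  intro e he
  rw [mem_bd] at he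
  rw [mem_union, mem_union, mem_bt, mem_bt, mem_bt]
  rcases he with ⟨h1, h2⟩ | ⟨h1, h2⟩
  · rcases bs_outd h₁ h₂ hn ⟨e, Or.inl ⟨rfl, rfl⟩⟩ h1 h2 with ⟨h3, h4⟩ | h3 | h3
    · exact Or.inl (Or.inl (Or.inr ⟨h3, h4⟩))
    · exact Or.inl (Or.inr (Or.inl ⟨h1, h3⟩))
    · exact Or.inr (Or.inl ⟨h1, h3⟩)
  · rcases bs_outd h₁ h₂ hn ⟨e, Or.inr ⟨rfl, rfl⟩⟩ h2 h1 with ⟨h3, h4⟩ | h3 | h3
    · exact Or.inl (Or.inl (Or.inl ⟨h4, h3⟩))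
    · exact Or.inl (Or.inr (Or.inr ⟨h3, h2⟩))
    · exact Or.inr (Or.inr ⟨h3, h2⟩)

theorem nonzero (h : Γ.Sep O a b C) :
    ∃ R ∈ Γ.Z, par (Γ.bt (Γ.Lc O a C) (Γ.Wc O a C)) R ≠ 0 := by
  obtain ⟨J₁, hJ₁, od₁⟩ := Γ.exists_pathJoin h.bs_connY h.bs_aY h.hbY
  have c1 : Γ.Conn (Γ.vs O ∪ {a}) := by
    refine (Γ.conn_vs h.hO).union (conn_singleton a) (Or.inr ?_)
    rw [bt_comm]
    exact h.ha.2
  have c2 : Γ.Conn (Γ.vs O ∪ {a} ∪ {b}) := by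
    refine c1.union (conn_singleton b) (Or.inr ?_)
    rw [bt_comm]
    exact h.hb.2.mono (Γ.bt_mono (Finset.Subset.refl _) Finset.subset_union_left)
  obtain ⟨J₂, hJ₂, od₂⟩ := Γ.exists_pathJoin c2
    (x := a) (y := b) (by simp) (by simp)
  refine ⟨J₁ + J₂, ?_, ?_⟩
  · rw [mem_Z_iff_od]
    intro z
    rw [od_add, od₁, od₂]
    exact zm_add_self _
  · rw [par_add]
    have h2 : par (Γ.bt (Γ.Lc O a C) (Γ.Wc O a C)) J₂ = 0 := by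
      refine Finset.sum_eq_zero fun e he => ?_
      by_contra hne
      have h3 := Γ.mem_EU.1 (hJ₂ (mem_supp.2 hne))
      rw [h.bt_LW, mem_bt] at he
      have key : ∀ x ∈ Γ.vs C, x ∉ Γ.vs O ∪ {a} ∪ {b} := by
        intro x hx hx'
        rw [mem_union, mem_union, mem_singleton, mem_singleton] at hx'
        rcases hx' with (hx' | hx') | hx'
        · exact Finset.disjoint_left.1 h.dis hx hx'
        · subst hx'; exact h.bs_att_notMem h.ha hx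
        · subst hx'; exact h.bs_att_notMem h.hb hx
      rcases he with he | he
      · exact key _ he.2 h3.2
      · exact key _ he.1 h3.1
    have h3 : par (Γ.bt (Γ.Lc O a C) (Γ.Wc O a C)) J₁ = 1 := by
      have h4 := Γ.sum_inc (Γ.Wc O a C) J₁
      rw [zm_add_self, add_zero] at h4
      have h5 : ∑ x ∈ Γ.Wc O a C, ∑ d ∈ Γ.dt x, J₁ d.1 = 1 := by
        have h6 : ∀ x ∈ Γ.Wc O a C, ∑ d ∈ Γ.dt x, J₁ d.1 =
            (if x = a then (1 : ZMod 2) else 0) + (if x = b then 1 else 0) :=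
          fun x _ => od₁ x
        rw [Finset.sum_congr rfl h6, Finset.sum_add_distrib, Finset.sum_ite_eq',
          Finset.sum_ite_eq', if_neg, if_pos h.b_mem_W, zero_add]
        intro h7
        exact (mem_sdiff.1 h7).2 h.a_mem_L
      rw [h5] at h4
      rw [h4]
      unfold par
      refine Finset.sum_subset ?_ ?_
      · intro e he
        rw [mem_bt] at he
        rw [mem_bd]
        have hd : ∀ x, x ∈ Γ.Lc O a C → x ∉ Γ.Wc O a C := fun x hx hx' =>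
          (mem_sdiff.1 hx').2 hx
        rcases he with he | he
        · exact Or.inr ⟨hd _ he.1, he.2⟩
        · exact Or.inl ⟨he.1, hd _ he.2⟩
      · intro e he hne
        by_contra hJ
        have h6 := Γ.mem_EU.1 (hJ₁ (mem_supp.2 hJ))
        have hd : ∀ x, x ∈ Γ.Yc O a → x ∉ Γ.Wc O a C → x ∈ Γ.Lc O a C := by
          intro x hx hx'
          by_contra h7
          exact hx' (mem_sdiff.2 ⟨hx, h7⟩)
        rw [mem_bd] at he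
        apply hne
        rw [mem_bt]
        rcases he with he | he
        · exact Or.inr ⟨he.1, hd _ h6.2 he.2⟩
        · exact Or.inl ⟨hd _ h6.1 he.1, he.2⟩
    rw [h2, h3]
    decide

end Sep

end Cub

end Pool.Agent.Lib.MP_af4270_co
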