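import Pool.Agent.Lib.MP_af4270_co.BDefs
import Pool.Agent.Lib.MP_af4270_co.TJoin3

/-!
# PAN-B5: strips: parity, sub-strips, closing a cycle

`parity`: for `0 < i < M`, `bd (X i) = bt (X (i-1)) (X i) ∪ bt (X i) (X (i+1))`, a disjoint union (`X (i-1)`
and `X (i+1)` are disjoint), and `par (bd (X i)) R = 0` (`par_bd`). So `par (bt (X i) (X (i+1))) R` does not
depend on `i < M`.

`sub`: the strip `X (i₀), ..., X (i₀ + M')` for `i₀ + M' ≤ M`, `1 ≤ M'`; `nz` by `parity`.

`close`: `0 < i < M`, `R ∈ Z`, `par (bt (X 0) (X 1)) R = 0`. Let `c = vs (C i)`, `T_c = touch c`. Every edge of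
`T_c` is inside `X (i-1) ∪ X i ∪ X (i+1)` (`nbr`). Let `Q = R + C i`, `Q₁ = Q` restricted to `T_c`. For `x ∈ c`:
`od Q₁ x = od Q x = 0`. Let `T = {x ∉ c : od Q₁ x ≠ 0}`, outer neighbours of `c`.
 (1) `T ∩ X (i-1)`: by `left`, the edges between `X (i-1)` and `X i` all touch `c`; so `|T ∩ X (i-1)|` has the
 parity of `par (bt (X (i-1)) (X i)) R = 0` (`C i` has no edges there). `X (i-1)` is connected: T-join.
 (2) `U₂ = (X i \ c) ∪ X (i+1)`. Let `x ∈ U₂`, `K = comp U₂ x`. Edges leaving `K` go to `c` or, if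
 `X (i+1) ⊆ K`, possibly from `X (i+1)` to `X (i+2)` or outside. If `K` does not meet `X (i+1)` then
 `bd K = bt K c` (`nbr`, `left`: an edge between `X (i-1)` and `X i` ends on `c`), so `|T ∩ K|` is even.
 If `K` meets `X (i+1)` it contains it (connected). Let `N = c ∪ (U₂ \ K)`: the edges leaving `N` are
 those between `c` and `X (i-1)` and those between `c` and `K`; so `par (bt c K) R = par (bt (X (i-1)) (X i)) R
 = 0` and `|T ∩ K|` is even.
 So there is a `T`-join `J` inside `X (i-1)` and inside `U₂` (`exists_tjoin2` for the set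
 `X (i-1) ∪ U₂`? its components: use it for `X (i-1)` and `U₂` separately and add).
 `z = Q₁ + J`: `z ∈ Z`, supported in `EU (X (i-1) ∪ X i ∪ X (i+1))`, and on `T_c`: `R + z = R + R + C i = C i`
 (`J` has no edge in `T_c`). So `supp (C i) ⊆ supp (R + z)`.
-/

set_option autoImplicit false
set_option linter.unusedSectionVars false

namespace Pool.Agent.Lib.MP_af4270_co

open Finset

variable {V E : Type} [Fintype V] [DecidableEq V] [Fintype E] [DecidableEq E]

namespace Strip

variable {Γ : Cub V E} {ℓ M : ℕ}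

theorem not_both (S : Strip Γ ℓ M) {i j : ℕ} (hi : i ≤ M) (hj : j ≤ M) (hij : i ≠ j) {x : V}
    (h1 : x ∈ S.X i) (h2 : x ∈ S.X j) : False :=
  (Finset.disjoint_left.1 (S.disj i hi j hj hij)) h1 h2

theorem parity (S : Strip Γ ℓ M) {R : E → ZMod 2} (hR : R ∈ Γ.Z) {i : ℕ} (hi : i < M) :
    par (Γ.bt (S.X i) (S.X (i + 1))) R = par (Γ.bt (S.X 0) (S.X 1)) R := by
  induction i with
  | zero => rfl
  | succ i ih =>
    have h1 := ih (by omega)
    have h2 := Γ.par_bd (S.X (i + 1)) hR
    have h3 : Γ.bd (S.X (i + 1)) = Γ.bt (S.X i) (S.X (i + 1)) ∪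
        Γ.bt (S.X (i + 1)) (S.X (i + 1 + 1)) := by
      apply Finset.Subset.antisymm
      · have := S.nbr (i + 1) (by omega) (by omega)
        rwa [Nat.add_sub_cancel] at this
      · intro e he
        rw [mem_union, Γ.mem_bt, Γ.mem_bt] at he
        rw [Γ.mem_bd]
        have a1 : ∀ x, x ∈ S.X i → x ∉ S.X (i + 1) := fun x h h' =>
          S.not_both (by omega) (by omega) (by omega) h h'
        have a2 : ∀ x, x ∈ S.X (i + 1 + 1) → x ∉ S.X (i + 1) := fun x h h' =>
          S.not_both (by omega) (by omega) (by omega) h h'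
        rcases he with (⟨h, h'⟩ | ⟨h, h'⟩) | (⟨h, h'⟩ | ⟨h, h'⟩)
        · exact Or.inr ⟨a1 _ h, h'⟩
        · exact Or.inl ⟨h, a1 _ h'⟩
        · exact Or.inl ⟨h, a2 _ h'⟩
        · exact Or.inr ⟨a2 _ h, h'⟩
    have h4 : Disjoint (Γ.bt (S.X i) (S.X (i + 1))) (Γ.bt (S.X (i + 1)) (S.X (i + 1 + 1))) := by
      rw [Finset.disjoint_left]
      intro e he he'
      rw [Γ.mem_bt] at he he'
      have a1 : ∀ x, x ∈ S.X i → x ∉ S.X (i + 1) := fun x h h' =>
        S.not_both (by omega) (by omega) (by omega) h h'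
      have a3 : ∀ x, x ∈ S.X i → x ∉ S.X (i + 1 + 1) := fun x h h' =>
        S.not_both (by omega) (by omega) (by omega) h h'
      rcases he with ⟨h, h'⟩ | ⟨h, h'⟩ <;> rcases he' with ⟨g, g'⟩ | ⟨g, g'⟩
      · exact a1 _ h g
      · exact a3 _ h g
      · exact a3 _ h' g'
      · exact a1 _ h' g'
    rw [h3, par_union h4, h1] at h2
    rcases zm_cases (par (Γ.bt (S.X (i + 1)) (S.X (i + 1 + 1))) R) with a | a <;>
      rcases zm_cases (par (Γ.bt (S.X 0) (S.X 1)) R) with b | b <;> rw [a, b] at h2 ⊢ <;>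
      first | rfl | (exfalso; revert h2; decide)

/-- a sub-strip -/
def sub' (S : Strip Γ ℓ M) (i₀ M' : ℕ) (h : i₀ + M' ≤ M) (h1 : 1 ≤ M') : Strip Γ ℓ M' where
  X := fun i => S.X (i₀ + i)
  C := fun i => S.C (i₀ + i)
  conn := fun i hi => S.conn _ (by omega)
  disj := fun i hi j hj hij => S.disj _ (by omega) _ (by omega) (by omega)
  single := fun i hi => S.single _ (by omega)
  len := fun i hi => S.len _ (by omega)
  sub := fun i hi => S.sub _ (by omega)
  nbr := fun i hi hi' => by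
    have := S.nbr (i₀ + i) (by omega) (by omega)
    rwa [show i₀ + i - 1 = i₀ + (i - 1) by omega, show i₀ + i + 1 = i₀ + (i + 1) by omega] at this
  left := fun i hi => S.left (i₀ + i) (by omega)
  nz := by
    obtain ⟨R, hR, h⟩ := S.nz
    refine ⟨R, hR, ?_⟩
    have h2 := S.parity hR (show i₀ + 0 < M by omega)
    rw [show i₀ + 0 + 1 = i₀ + 1 by omega] at h2
    rw [h2]; exact h

/-- all edges touching the cycle `C i` are inside three consecutive sets -/
theorem touch_sub (S : Strip Γ ℓ M) {i : ℕ} (h0 : 0 < i) (hi : i < M) :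
    Γ.touch (Γ.vs (S.C i)) ⊆ Γ.EU (S.X (i - 1) ∪ S.X i ∪ S.X (i + 1)) := by
  intro e he
  have hs := S.sub i hi.le
  have key : Γ.s e ∈ S.X i ∨ Γ.t e ∈ S.X i := by
    rw [Γ.mem_touch] at he
    rcases he with h | h
    · exact Or.inl (hs h)
    · exact Or.inr (hs h)
  rw [Γ.mem_EU]
  simp only [mem_union]
  by_cases h1 : Γ.s e ∈ S.X i
  · by_cases h2 : Γ.t e ∈ S.X i
    · tauto
    · have h3 := S.nbr i h0 hi (Γ.mem_bd.2 (Or.inl ⟨h1, h2⟩))
      rw [mem_union, Γ.mem_bt, Γ.mem_bt] at h3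
      tauto
  · have h2 : Γ.t e ∈ S.X i := by tauto
    have h3 := S.nbr i h0 hi (Γ.mem_bd.2 (Or.inr ⟨h1, h2⟩))
    rw [mem_union, Γ.mem_bt, Γ.mem_bt] at h3
    tauto

theorem bt_touch_end (S : Strip Γ ℓ M) {i : ℕ} (hi : i < M) {e : E}
    (he : e ∈ Γ.bt (S.X i) (S.X (i + 1))) :
    (Γ.s e ∈ S.X i ∧ Γ.t e ∈ Γ.vs (S.C (i + 1))) ∨
      (Γ.s e ∈ Γ.vs (S.C (i + 1)) ∧ Γ.t e ∈ S.X i) := by
  have h1 := S.left i hi he
  rw [Γ.mem_touch] at h1
  rw [Γ.mem_bt] at he
  have h2 := S.sub (i + 1) (by omega)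
  have a1 : ∀ x, x ∈ S.X i → x ∉ Γ.vs (S.C (i + 1)) := fun x h h' =>
    S.not_both (by omega) (by omega) (by omega) h (h2 h')
  rcases he with ⟨h, h'⟩ | ⟨h, h'⟩
  · left
    refine ⟨h, ?_⟩
    rcases h1 with h1 | h1
    · exact absurd h1 (a1 _ h)
    · exact h1
  · right
    refine ⟨?_, h'⟩
    rcases h1 with h1 | h1
    · exact h1
    · exact absurd h1 (a1 _ h')

theorem close (S : Strip Γ ℓ M) {i : ℕ} (h0 : 0 < i) (hi : i < M) {R : E → ZMod 2}
    (hR : R ∈ Γ.Z) (hpar : par (Γ.bt (S.X 0) (S.X 1)) R = 0) :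
    ∃ z ∈ Γ.ZB (Γ.EU (S.X (i - 1) ∪ S.X i ∪ S.X (i + 1))), supp (S.C i) ⊆ supp (R + z) := by
  classical
  obtain ⟨i, rfl⟩ : ∃ j, i = j + 1 := ⟨i - 1, by omega⟩
  rw [Nat.add_sub_cancel]
  set A := S.X i with hA
  set B := S.X (i + 1) with hB
  set D := S.X (i + 1 + 1) with hD
  set c := Γ.vs (S.C (i + 1)) with hc
  have hAB : ∀ x, x ∈ A → x ∉ B := fun x h h' =>
    S.not_both (by omega) (by omega) (by omega) h h'
  have hAD : ∀ x, x ∈ A → x ∉ D := fun x h h' =>
    S.not_both (by omega) (by omega) (by omega) h h'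
  have hBD : ∀ x, x ∈ B → x ∉ D := fun x h h' =>
    S.not_both (by omega) (by omega) (by omega) h h'
  have hcB : c ⊆ B := S.sub (i + 1) (by omega)
  set T := Γ.touch c with hT
  have hTsub : T ⊆ Γ.EU (A ∪ B ∪ D) := by
    have := S.touch_sub (i := i + 1) (by omega) hi
    rwa [Nat.add_sub_cancel] at this
  have hCi : S.C (i + 1) ∈ Γ.Z := (S.single (i + 1) (by omega)).mem
  set Q := R + S.C (i + 1) with hQ
  have hQZ : Q ∈ Γ.Z := Γ.Z.add_mem hR hCi
  set Q₁ := res T Q with hQ₁
  have nbr' : ∀ e, e ∈ Γ.bd B → e ∈ Γ.bt A B ∨ e ∈ Γ.bt B D := by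
    intro e he
    have := S.nbr (i + 1) (by omega) hi he
    rw [Nat.add_sub_cancel, mem_union] at this
    exact this
  have left1 : ∀ e, e ∈ Γ.bt A B → (Γ.s e ∈ A ∧ Γ.t e ∈ c) ∨ (Γ.s e ∈ c ∧ Γ.t e ∈ A) :=
    fun e he => S.bt_touch_end (by omega) he
  have hparAB : par (Γ.bt A B) Q = 0 := by
    rw [hQ, par_add, S.parity hR (by omega), hpar, zero_add]
    refine par_eq_zero_of fun e he => ?_
    by_contra hne
    have h1 := Γ.s_mem_vs hne
    have h2 := Γ.t_mem_vs hne
    rcases left1 e he with h | h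
    · exact hAB _ h.1 (hcB h1)
    · exact hAB _ h.2 (hcB h2)
  -- first correction
  have hbdA : Γ.bd A ∩ T = Γ.bt A B := by
    ext e
    rw [mem_inter, Γ.mem_bd, hT, Γ.mem_touch]
    constructor
    · rintro ⟨h1, h2⟩
      rw [Γ.mem_bt]
      rcases h1 with ⟨h3, h4⟩ | ⟨h3, h4⟩
      · rcases h2 with h2 | h2
        · exact absurd (hcB h2) (hAB _ h3)
        · exact Or.inl ⟨h3, hcB h2⟩
      · rcases h2 with h2 | h2
        · exact Or.inr ⟨hcB h2, h4⟩
        · exact absurd (hcB h2) (hAB _ h4)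
    · intro he
      rcases left1 e he with ⟨h1, h2⟩ | ⟨h1, h2⟩
      · exact ⟨Or.inl ⟨h1, fun h => hAB _ h (hcB h2)⟩, Or.inr h2⟩
      · exact ⟨Or.inr ⟨fun h => hAB _ h (hcB h1), h2⟩, Or.inl h1⟩
  obtain ⟨J₁, hJ₁, hJ₁in, hJ₁out⟩ := Γ.exists_fix_conn (S.conn i (by omega)) (Q := Q₁) (by
    rw [hQ₁, Γ.sum_od_res, ← hA, hbdA]; exact hparAB)
  rw [← hA] at hJ₁ hJ₁in hJ₁out
  -- second correction
  set U := (B \ c) ∪ D with hU
  have hUA : ∀ x, x ∈ U → x ∉ A := by
    intro x hx hxA
    rw [hU, mem_union, mem_sdiff] at hx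
    rcases hx with hx | hx
    · exact hAB _ hxA hx.1
    · exact hAD _ hxA hx
  have hUc : ∀ x, x ∈ U → x ∉ c := by
    intro x hx hxc
    rw [hU, mem_union, mem_sdiff] at hx
    rcases hx with hx | hx
    · exact hx.2 hxc
    · exact hBD _ (hcB hxc) hx
  obtain ⟨J₂, hJ₂, hJ₂in, hJ₂out⟩ := Γ.exists_fix (U := U) (Q := Q₁ + J₁) (by
    intro x hx
    set K := Γ.comp U x with hK
    have hKU : K ⊆ U := Cub.comp_subset U x
    have hKcl := (Cub.cl_iff.1 (Cub.comp_cl (Γ := Γ) U x))
    have e1 : ∑ y ∈ K, Γ.od (Q₁ + J₁) y = ∑ y ∈ K, Γ.od Q₁ y :=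
      Finset.sum_congr rfl fun y hy => hJ₁out y (hUA _ (hKU hy))
    rw [e1, hQ₁, Γ.sum_od_res]
    by_cases hKD : (K ∩ D).Nonempty
    · -- `K` contains `D`
      have hDK : D ⊆ K := by
        refine (S.conn (i + 1 + 1) (by omega)).subset_of_cl ?_ (Cub.comp_cl U x) ?_
        · rw [hU]; exact Finset.subset_union_right
        · rw [Finset.inter_comm]; exact hKD
      set N := B \ K with hN
      have hbdN : Γ.bd N = (Γ.bd K ∩ T) ∪ Γ.bt A B := by
        have main : ∀ (e : E) (y z : V), ((Γ.s e = y ∧ Γ.t e = z) ∨ (Γ.s e = z ∧ Γ.t e = y)) →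
            y ∈ N → z ∉ N → (y ∈ c ∧ z ∈ K) ∨ (y ∈ c ∧ z ∈ A) := by
          intro e y z hyz hy hz
          have hcl : ∀ u v, ((Γ.s e = u ∧ Γ.t e = v) ∨ (Γ.s e = v ∧ Γ.t e = u)) →
              u ∈ K → v ∈ U → v ∈ K := by
            rintro u v (⟨rfl, rfl⟩ | ⟨rfl, rfl⟩) hu hv
            · exact (hKcl e).1 hu hv
            · exact (hKcl e).2 hu hv
          rw [hN, mem_sdiff] at hy
          have hyz' : (Γ.s e = z ∧ Γ.t e = y) ∨ (Γ.s e = y ∧ Γ.t e = z) := hyz.symm
          by_cases hzB : z ∈ B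
          · have hzK : z ∈ K := by
              by_contra h
              exact hz (by rw [hN, mem_sdiff]; exact ⟨hzB, h⟩)
            by_cases hyc : y ∈ c
            · exact Or.inl ⟨hyc, hzK⟩
            · exfalso
              exact hy.2 (hcl z y hyz' hzK (by
                rw [hU, mem_union, mem_sdiff]; exact Or.inl ⟨hy.1, hyc⟩))
          · have h1 : e ∈ Γ.bd B := by
              rw [Γ.mem_bd]
              rcases hyz with ⟨a, b⟩ | ⟨a, b⟩
              · left; rw [a, b]; exact ⟨hy.1, hzB⟩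
              · right; rw [a, b]; exact ⟨hzB, hy.1⟩
            rcases nbr' e h1 with h2 | h2
            · rcases left1 e h2 with ⟨h3, h4⟩ | ⟨h3, h4⟩
              · rcases hyz with ⟨a, b⟩ | ⟨a, b⟩
                · rw [a] at h3; exact absurd hy.1 (hAB _ h3)
                · rw [a] at h3; rw [b] at h4; exact Or.inr ⟨h4, h3⟩
              · rcases hyz with ⟨a, b⟩ | ⟨a, b⟩
                · rw [a] at h3; rw [b] at h4; exact Or.inr ⟨h3, h4⟩
                · rw [b] at h4; exact absurd hy.1 (hAB _ h4)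
            · have hzD : z ∈ D := by
                rw [Γ.mem_bt] at h2
                rcases hyz with ⟨a, b⟩ | ⟨a, b⟩
                · rw [a, b] at h2
                  rcases h2 with h2 | h2
                  · exact h2.2
                  · exact absurd h2.1 (hBD _ hy.1)
                · rw [a, b] at h2
                  rcases h2 with h2 | h2
                  · exact absurd h2.2 (hBD _ hy.1)
                  · exact h2.1
              have hzK := hDK hzD
              by_cases hyc : y ∈ c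
              · exact Or.inl ⟨hyc, hzK⟩
              · exfalso
                exact hy.2 (hcl z y hyz' hzK (by
                  rw [hU, mem_union, mem_sdiff]; exact Or.inl ⟨hy.1, hyc⟩))
        have hcN : c ⊆ N := by
          intro y hy
          rw [hN, mem_sdiff]
          exact ⟨hcB hy, fun h => hUc _ (hKU h) hy⟩
        ext e
        rw [mem_union, mem_inter, Γ.mem_bd, Γ.mem_bd, hT, Γ.mem_touch]
        constructor
        · rintro (⟨h1, h2⟩ | ⟨h1, h2⟩)
          · rcases main e _ _ (Or.inl ⟨rfl, rfl⟩) h1 h2 with ⟨h3, h4⟩ | ⟨h3, h4⟩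
            · left
              exact ⟨Or.inr ⟨fun h => hUc _ (hKU h) h3, h4⟩, Or.inl h3⟩
            · right
              rw [Γ.mem_bt]
              exact Or.inr ⟨hcB h3, h4⟩
          · rcases main e _ _ (Or.inr ⟨rfl, rfl⟩) h2 h1 with ⟨h3, h4⟩ | ⟨h3, h4⟩
            · left
              exact ⟨Or.inl ⟨h4, fun h => hUc _ (hKU h) h3⟩, Or.inr h3⟩
            · right
              rw [Γ.mem_bt]
              exact Or.inl ⟨h4, hcB h3⟩
        · rintro (⟨h1, h2⟩ | h1)
          · rcases h1 with ⟨h3, h4⟩ | ⟨h3, h4⟩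
            · rcases h2 with h2 | h2
              · exact absurd h2 (hUc _ (hKU h3))
              · exact Or.inr ⟨fun h => (mem_sdiff.1 h).2 h3, hcN h2⟩
            · rcases h2 with h2 | h2
              · exact Or.inl ⟨hcN h2, fun h => (mem_sdiff.1 h).2 h4⟩
              · exact absurd h2 (hUc _ (hKU h4))
          · rcases left1 e h1 with ⟨h3, h4⟩ | ⟨h3, h4⟩
            · exact Or.inr ⟨fun h => hAB _ h3 (mem_sdiff.1 h).1, hcN h4⟩
            · exact Or.inl ⟨hcN h3, fun h => hAB _ h4 (mem_sdiff.1 h).1⟩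
      have hdisj : Disjoint (Γ.bd K ∩ T) (Γ.bt A B) := by
        rw [Finset.disjoint_left]
        intro e he he'
        rw [mem_inter, Γ.mem_bd] at he
        rcases left1 e he' with ⟨h3, h4⟩ | ⟨h3, h4⟩
        · rcases he.1 with h | h
          · exact hUA _ (hKU h.1) h3
          · exact hUc _ (hKU h.2) h4
        · rcases he.1 with h | h
          · exact hUc _ (hKU h.1) h3
          · exact hUA _ (hKU h.2) h4
      have h5 := Γ.par_bd N hQZ
      rw [hbdN, par_union hdisj, hparAB, add_zero] at h5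
      exact h5
    · -- `K` does not meet `D`
      have hKB : ∀ y ∈ K, y ∈ B ∧ y ∉ c := by
        intro y hy
        have h1 := hKU hy
        rw [hU, mem_union, mem_sdiff] at h1
        rcases h1 with h1 | h1
        · exact h1
        · exact absurd ⟨y, mem_inter.2 ⟨hy, h1⟩⟩ hKD
      have hsub : Γ.bd K ∩ T = Γ.bd K := by
        rw [Finset.inter_eq_left]
        have main : ∀ (e : E) (y z : V), ((Γ.s e = y ∧ Γ.t e = z) ∨ (Γ.s e = z ∧ Γ.t e = y)) →
            y ∈ K → z ∉ K → z ∈ c := by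
          intro e y z hyz hy hz
          have hcl : ∀ u v, ((Γ.s e = u ∧ Γ.t e = v) ∨ (Γ.s e = v ∧ Γ.t e = u)) →
              u ∈ K → v ∈ U → v ∈ K := by
            rintro u v (⟨rfl, rfl⟩ | ⟨rfl, rfl⟩) hu hv
            · exact (hKcl e).1 hu hv
            · exact (hKcl e).2 hu hv
          obtain ⟨hyB, hyc⟩ := hKB y hy
          by_contra hzc
          have hzU : z ∉ U := fun h => hz (hcl y z hyz hy h)
          have hzB : z ∉ B := fun h => hzU (by
            rw [hU, mem_union, mem_sdiff]; exact Or.inl ⟨h, hzc⟩)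
          have h1 : e ∈ Γ.bd B := by
            rw [Γ.mem_bd]
            rcases hyz with ⟨a, b⟩ | ⟨a, b⟩
            · left; rw [a, b]; exact ⟨hyB, hzB⟩
            · right; rw [a, b]; exact ⟨hzB, hyB⟩
          rcases nbr' e h1 with h2 | h2
          · rcases left1 e h2 with ⟨h3, h4⟩ | ⟨h3, h4⟩
            · rcases hyz with ⟨a, b⟩ | ⟨a, b⟩
              · rw [a] at h3; exact hAB _ h3 hyB
              · rw [b] at h4; exact hyc h4
            · rcases hyz with ⟨a, b⟩ | ⟨a, b⟩
              · rw [a] at h3; exact hyc h3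
              · rw [b] at h4; exact hAB _ h4 hyB
          · rw [Γ.mem_bt] at h2
            have hzD : z ∈ D := by
              rcases hyz with ⟨a, b⟩ | ⟨a, b⟩
              · rw [a, b] at h2
                rcases h2 with h2 | h2
                · exact h2.2
                · exact absurd h2.1 (hBD _ hyB)
              · rw [a, b] at h2
                rcases h2 with h2 | h2
                · exact absurd h2.2 (hBD _ hyB)
                · exact h2.1
            exact hzU (by rw [hU, mem_union]; exact Or.inr hzD)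
        intro e he
        rw [Γ.mem_bd] at he
        rw [hT, Γ.mem_touch]
        rcases he with ⟨h1, h2⟩ | ⟨h1, h2⟩
        · exact Or.inr (main e _ _ (Or.inl ⟨rfl, rfl⟩) h1 h2)
        · exact Or.inl (main e _ _ (Or.inr ⟨rfl, rfl⟩) h2 h1)
      rw [hsub]
      exact Γ.par_bd K hQZ)
  -- the correction
  refine ⟨Q₁ + J₁ + J₂, ?_, ?_⟩
  · rw [Γ.mem_ZB]
    constructor
    · rw [Γ.mem_Z_iff_od]
      intro x
      by_cases hxU : x ∈ U
      · exact hJ₂in x hxU
      · rw [hJ₂out x hxU]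
        by_cases hxA : x ∈ A
        · exact hJ₁in x hxA
        · rw [hJ₁out x hxA]
          by_cases hxc : x ∈ c
          · rw [hQ₁, Γ.od_res_of_subset (Γ.inc_subset_touch hxc)]
            exact (Γ.mem_Z_iff_od.1 hQZ) x
          · refine Γ.od_eq_zero_of_inc fun e he => ?_
            refine res_of_notMem fun heT => ?_
            have h1 := Γ.mem_EU.1 (hTsub heT)
            have h2 : x ∈ A ∪ B ∪ D := by
              rcases Γ.mem_inc.1 he with rfl | rfl
              · exact h1.1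
              · exact h1.2
            rw [mem_union, mem_union] at h2
            rw [hU, mem_union, mem_sdiff] at hxU
            tauto
    · refine (supp_add _ _).trans (Finset.union_subset ((supp_add _ _).trans
        (Finset.union_subset ((supp_res T Q).trans hTsub) (hJ₁.trans (Γ.EU_mono ?_))))
        (hJ₂.trans (Γ.EU_mono ?_)))
      · intro y hy; rw [mem_union, mem_union]; exact Or.inl (Or.inl hy)
      · intro y hy
        rw [hU, mem_union, mem_sdiff] at hy
        rw [mem_union, mem_union]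
        rcases hy with hy | hy
        · exact Or.inl (Or.inr hy.1)
        · exact Or.inr hy
  · intro e he
    rw [mem_supp] at he ⊢
    have h1 := Γ.s_mem_vs he
    have h2 := Γ.t_mem_vs he
    have h3 : J₁ e = 0 := by
      by_contra h
      have h3 := Γ.mem_EU.1 (hJ₁ (mem_supp.2 h))
      exact hAB _ h3.1 (hcB h1)
    have h4 : J₂ e = 0 := by
      by_contra h
      have h3 := Γ.mem_EU.1 (hJ₂ (mem_supp.2 h))
      exact hUc _ h3.1 h1
    have h5 : Q₁ e = R e + S.C (i + 1) e := by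
      rw [hQ₁, res_of_mem (by rw [hT, Γ.mem_touch]; exact Or.inl h1), hQ, Pi.add_apply]
    rw [Pi.add_apply, Pi.add_apply, Pi.add_apply, h3, h4, h5, add_zero, add_zero, ← add_assoc,
      zm_add_self, zero_add]
    exact he

end Strip

end Pool.Agent.Lib.MP_af4270_co
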