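import Pool.Agent.Lib.MP_af4270_co.BStrip
import Pool.Agent.Lib.MP_af4270_co.CGuard

/-!
# Strips: further lemmas (used for lossless regions)
-/

set_option autoImplicit false
set_option linter.unusedSectionVars false

namespace Pool.Agent.Lib.MP_af4270_co

open Finset

variable {V E : Type} [Fintype V] [DecidableEq V] [Fintype E] [DecidableEq E]

namespace Cub

variable {Γ : Cub V E}

theorem even_card_of_sum {U : Finset V} {f : V → ZMod 2} (h : ∑ x ∈ U, f x = 0) :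
    Even (U.filter (fun x => f x ≠ 0)).card := by
  have h1 : ∑ x ∈ U, f x = ((U.filter (fun x => f x ≠ 0)).card : ZMod 2) := by
    have h2 : ∀ x ∈ U, f x = if f x ≠ 0 then 1 else 0 := by
      intro x _
      rcases zm_cases (f x) with a | a <;> simp [a]
    rw [Finset.sum_congr rfl h2, ← Finset.sum_filter]
    simp
  rw [h1, ZMod.natCast_eq_zero_iff] at h
  exact even_iff_two_dvd.2 h

/-- prescribed parities in a connected set -/
theorem exists_join_fn {U : Finset V} (hU : Γ.Conn U) {f : V → ZMod 2}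
    (hf : ∀ x, x ∉ U → f x = 0) (hs : ∑ x ∈ U, f x = 0) :
    ∃ J : E → ZMod 2, supp J ⊆ Γ.EU U ∧ ∀ z, Γ.od J z = f z := by
  obtain ⟨J, hJ, hod⟩ := Γ.exists_tjoin hU (Finset.filter_subset (fun x => f x ≠ 0) U)
    (even_card_of_sum hs)
  refine ⟨J, hJ, fun z => ?_⟩
  rw [hod]
  by_cases hz : z ∈ U
  · rcases zm_cases (f z) with h | h
    · rw [if_neg, h]
      rw [mem_filter]; exact fun h' => h'.2 h
    · rw [if_pos, h]
      rw [mem_filter]; exact ⟨hz, by rw [h]; decide⟩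
  · rw [if_neg, hf z hz]
    rw [mem_filter]; exact fun h' => hz h'.1

/-- prescribed parities in a set, component by component -/
theorem exists_join_comps {U : Finset V} {f : V → ZMod 2} (hf : ∀ x, x ∉ U → f x = 0)
    (hs : ∀ x ∈ U, ∑ y ∈ Γ.comp U x, f y = 0) :
    ∃ J : E → ZMod 2, supp J ⊆ Γ.EU U ∧ ∀ z, Γ.od J z = f z := by
  classical
  have h1 : ∀ Q ∈ U.image (Γ.comp U), ∃ J : E → ZMod 2, supp J ⊆ Γ.EU U ∧
      ∀ z, Γ.od J z = if z ∈ Q then f z else 0 := by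
    intro Q hQ
    obtain ⟨x, hx, rfl⟩ := mem_image.1 hQ
    obtain ⟨J, hJ, hod⟩ := exists_join_fn (Γ := Γ) (conn_comp hx)
      (f := fun z => if z ∈ Γ.comp U x then f z else 0)
      (fun z hz => by rw [if_neg hz])
      (by rw [← hs x hx]; exact Finset.sum_congr rfl fun z hz => if_pos hz)
    exact ⟨J, hJ.trans (Γ.EU_mono (comp_subset U x)), hod⟩
  choose! J hJ hod using h1
  refine ⟨∑ Q ∈ U.image (Γ.comp U), J Q, ?_, fun z => ?_⟩
  · intro e he
    rw [mem_supp, Finset.sum_apply] at he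
    obtain ⟨Q, hQ, hne⟩ := Finset.exists_ne_zero_of_sum_ne_zero he
    exact hJ Q hQ (mem_supp.2 hne)
  · rw [od_sum, Finset.sum_congr rfl (fun Q hQ => hod Q hQ z)]
    by_cases hz : z ∈ U
    · rw [Finset.sum_eq_single (Γ.comp U z)]
      · rw [if_pos (mem_comp_self hz)]
      · intro Q hQ hne
        obtain ⟨x, hx, rfl⟩ := mem_image.1 hQ
        rw [if_neg]
        intro h
        exact hne (comp_eq hx h).symm
      · intro h
        exact absurd (mem_image_of_mem _ hz) h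
    · rw [hf z hz]
      refine Finset.sum_eq_zero fun Q hQ => ?_
      obtain ⟨x, hx, rfl⟩ := mem_image.1 hQ
      rw [if_neg]
      intro h
      exact hz (comp_subset U x h)

theorem par_res_sub {S T : Finset E} (R : E → ZMod 2) (h : T ⊆ S) : par T (res S R) = par T R := by
  unfold par res
  exact Finset.sum_congr rfl fun e he => if_pos (h he)

theorem par_eq_zero {T : Finset E} {R : E → ZMod 2} (h : ∀ e ∈ T, R e = 0) : par T R = 0 :=
  Finset.sum_eq_zero h

end Cub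

open Cub

variable {Γ : Cub V E}

theorem Strip.mem_ne {ℓ M : ℕ} (S : Strip Γ ℓ M) {i j : ℕ} (hi : i ≤ M) (hj : j ≤ M)
    (hne : i ≠ j) {x : V} (hx : x ∈ S.X i) : x ∉ S.X j :=
  fun h => (Finset.disjoint_left.1 (S.disj i hi j hj hne)) hx h

/-- an edge between `X (i-1)` and `X i` ends on the cycle `C i` -/
theorem Strip.left' {ℓ M : ℕ} (S : Strip Γ ℓ M) {i : ℕ} (h0 : 0 < i) (hM : i ≤ M) {x y : V}
    {e : E} (hx : x ∈ S.X i) (hy : y ∈ S.X (i - 1)) (hj : Γ.jn e x y) : x ∈ Γ.vs (S.C i) := by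
  have h1 : e ∈ Γ.bt (S.X (i - 1)) (S.X (i - 1 + 1)) := by
    have h2 : i - 1 + 1 = i := by omega
    rw [h2, Γ.mem_bt]
    rcases hj with ⟨j1, j2⟩ | ⟨j1, j2⟩
    · rw [j1, j2]; exact Or.inr ⟨hx, hy⟩
    · rw [j1, j2]; exact Or.inl ⟨hy, hx⟩
  have h3 := S.left (i - 1) (by omega) h1
  have h2 : i - 1 + 1 = i := by omega
  rw [h2, Γ.mem_touch] at h3
  have h4 : y ∉ Γ.vs (S.C i) := fun h =>
    S.mem_ne (by omega) hM (by omega) hy (S.sub i hM h)
  rcases hj with ⟨j1, j2⟩ | ⟨j1, j2⟩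
  · rw [j1, j2] at h3
    rcases h3 with h3 | h3
    · exact h3
    · exact absurd h3 h4
  · rw [j1, j2] at h3
    rcases h3 with h3 | h3
    · exact absurd h3 h4
    · exact h3

theorem Strip.bd_eq {ℓ M : ℕ} (S : Strip Γ ℓ M) {i : ℕ} (h0 : 0 < i) (hM : i < M) :
    Γ.bd (S.X i) = Γ.bt (S.X (i - 1)) (S.X i) ∪ Γ.bt (S.X i) (S.X (i + 1)) := by
  refine Finset.Subset.antisymm (S.nbr i h0 hM) fun e he => ?_
  have h1 : ∀ y, y ∈ S.X (i - 1) → y ∉ S.X i := fun y => S.mem_ne (by omega) (by omega) (by omega)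
  have h2 : ∀ y, y ∈ S.X (i + 1) → y ∉ S.X i := fun y => S.mem_ne (by omega) (by omega) (by omega)
  rw [mem_union, Γ.mem_bt, Γ.mem_bt] at he
  rw [Γ.mem_bd]
  rcases he with (h | h) | (h | h)
  · exact Or.inr ⟨h1 _ h.1, h.2⟩
  · exact Or.inl ⟨h.1, h1 _ h.2⟩
  · exact Or.inl ⟨h.1, h2 _ h.2⟩
  · exact Or.inr ⟨h2 _ h.1, h.2⟩

/-- the parity is the same between all consecutive sets of a strip -/
theorem Strip.par_succ {ℓ M : ℕ} (S : Strip Γ ℓ M) {R : E → ZMod 2} (hR : R ∈ Γ.Z) {i : ℕ}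
    (h0 : 0 < i) (hM : i < M) :
    par (Γ.bt (S.X (i - 1)) (S.X i)) R = par (Γ.bt (S.X i) (S.X (i + 1))) R := by
  have h := Γ.par_bd (S.X i) hR
  rw [S.bd_eq h0 hM, par, Finset.sum_union] at h
  · have h2 : par (Γ.bt (S.X (i - 1)) (S.X i)) R + par (Γ.bt (S.X i) (S.X (i + 1))) R = 0 := h
    rcases zm_cases (par (Γ.bt (S.X (i - 1)) (S.X i)) R) with h4 | h4 <;>
      rcases zm_cases (par (Γ.bt (S.X i) (S.X (i + 1))) R) with h5 | h5 <;> rw [h4, h5] at h2 ⊢
    · exact absurd h2 (by decide)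
    · exact absurd h2 (by decide)
  · rw [Finset.disjoint_left]
    intro e he he'
    have h1 : ∀ y, y ∈ S.X (i - 1) → y ∉ S.X i := fun y =>
      S.mem_ne (by omega) (by omega) (by omega)
    have h2 : ∀ y, y ∈ S.X (i - 1) → y ∉ S.X (i + 1) := fun y =>
      S.mem_ne (by omega) (by omega) (by omega)
    rw [Γ.mem_bt] at he he'
    rcases he with h | h <;> rcases he' with h' | h'
    · exact h1 _ h.1 h'.1
    · exact h2 _ h.1 h'.1
    · exact h2 _ h.2 h'.2
    · exact h1 _ h.2 h'.2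

theorem Strip.par_eq {ℓ M : ℕ} (S : Strip Γ ℓ M) {R : E → ZMod 2} (hR : R ∈ Γ.Z) {i : ℕ}
    (hM : i < M) : par (Γ.bt (S.X i) (S.X (i + 1))) R = par (Γ.bt (S.X 0) (S.X 1)) R := by
  induction i with
  | zero => rfl
  | succ i ih =>
    rw [← ih (by omega), ← S.par_succ hR (Nat.succ_pos i) hM]
    rfl


end Pool.Agent.Lib.MP_af4270_co
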