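import Pool.Agent.Lib.MP_af4270_co.Defs

/-!
# Basic facts: even edge sets, cycles, boundaries
-/

set_option autoImplicit false
set_option linter.unusedSectionVars false

namespace Pool.Agent.Lib.MP_af4270_co

open Finset

variable {V E : Type} [Fintype V] [DecidableEq V] [Fintype E] [DecidableEq E]

theorem zm_cases (a : ZMod 2) : a = 0 ∨ a = 1 := by
  revert a; decide

theorem zm_add_self (a : ZMod 2) : a + a = 0 := by
  revert a; decide

theorem zm_ne_zero {a : ZMod 2} : a ≠ 0 ↔ a = 1 := by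
  revert a; decide

theorem fn_add_self (R : E → ZMod 2) : R + R = 0 := by
  funext e; exact zm_add_self _

theorem fn_add_cancel (R D : E → ZMod 2) : R + D + D = R := by
  rw [add_assoc, fn_add_self, add_zero]

@[simp] theorem mem_supp {R : E → ZMod 2} {e : E} : e ∈ supp R ↔ R e ≠ 0 := by
  simp [supp]

theorem supp_eq_iff {R D : E → ZMod 2} : supp R = supp D ↔ R = D := by
  constructor
  · intro h
    funext e
    have h1 : R e ≠ 0 ↔ D e ≠ 0 := by rw [← mem_supp, ← mem_supp, h]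
    rcases zm_cases (R e) with a | a <;> rcases zm_cases (D e) with b | b <;> simp_all
  · rintro rfl; rfl

theorem supp_eq_empty {R : E → ZMod 2} : supp R = ∅ ↔ R = 0 := by
  rw [← supp_eq_iff]
  have : supp (0 : E → ZMod 2) = ∅ := by ext e; simp
  rw [this]

theorem supp_nonempty {R : E → ZMod 2} (h : R ≠ 0) : (supp R).Nonempty := by
  rw [Finset.nonempty_iff_ne_empty]
  intro h'
  exact h (supp_eq_empty.1 h')

theorem supp_add_of_subset {R C : E → ZMod 2} (h : supp C ⊆ supp R) :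
    supp (R + C) = supp R \ supp C := by
  ext e
  have h1 : C e ≠ 0 → R e ≠ 0 := fun h' => mem_supp.1 (h (mem_supp.2 h'))
  have h2 : (1 : ZMod 2) + 1 = 0 := by decide
  simp only [mem_supp, mem_sdiff, Pi.add_apply]
  rcases zm_cases (R e) with a | a <;> rcases zm_cases (C e) with b | b <;> simp_all

theorem par_add (S : Finset E) (R D : E → ZMod 2) : par S (R + D) = par S R + par S D := by
  simp [par, Finset.sum_add_distrib]

@[simp] theorem par_zero (S : Finset E) : par S 0 = 0 := by simp [par]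

/-- parity and cardinality -/
theorem par_eq_card (S : Finset E) (R : E → ZMod 2) : par S R = ((S ∩ supp R).card : ZMod 2) := by
  have h : ∀ e ∈ S, R e = if e ∈ supp R then 1 else 0 := by
    intro e _
    rcases zm_cases (R e) with a | a <;> simp [a]
  rw [par, Finset.sum_congr rfl h, Finset.sum_ite_mem]
  simp

namespace Cub

variable (Γ : Cub V E)

theorem mem_Z {R : E → ZMod 2} : R ∈ Γ.Z ↔ ∀ x, ∑ d ∈ Γ.dt x, R d.1 = 0 := Iff.rfl

theorem mem_ZB {B : Finset E} {R : E → ZMod 2} :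
    R ∈ Γ.ZB B ↔ R ∈ Γ.Z ∧ supp R ⊆ B := by
  constructor
  · rintro ⟨h, h'⟩
    refine ⟨h, fun e he => ?_⟩
    by_contra hc
    exact (mem_supp.1 he) (h' e hc)
  · rintro ⟨h, h'⟩
    refine ⟨h, fun e he => ?_⟩
    by_contra hc
    exact he (h' (mem_supp.2 hc))

@[simp] theorem mem_ZB_univ {R : E → ZMod 2} : R ∈ Γ.ZB univ ↔ R ∈ Γ.Z := by
  rw [mem_ZB]; simp

@[simp] theorem mem_inc {x : V} {e : E} : e ∈ Γ.inc x ↔ Γ.s e = x ∨ Γ.t e = x := by simp [inc]

@[simp] theorem mem_bt {U W : Finset V} {e : E} :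
    e ∈ Γ.bt U W ↔ (Γ.s e ∈ U ∧ Γ.t e ∈ W) ∨ (Γ.s e ∈ W ∧ Γ.t e ∈ U) := by simp [bt]

theorem mem_bd {U : Finset V} {e : E} :
    e ∈ Γ.bd U ↔ (Γ.s e ∈ U ∧ Γ.t e ∉ U) ∨ (Γ.s e ∉ U ∧ Γ.t e ∈ U) := by simp [bd]

@[simp] theorem mem_EU {U : Finset V} {e : E} : e ∈ Γ.EU U ↔ Γ.s e ∈ U ∧ Γ.t e ∈ U := by
  simp [EU]

@[simp] theorem mem_touch {U : Finset V} {e : E} : e ∈ Γ.touch U ↔ Γ.s e ∈ U ∨ Γ.t e ∈ U := by
  simp [touch]

theorem mem_vs {R : E → ZMod 2} {x : V} : x ∈ Γ.vs R ↔ ∃ e, (Γ.s e = x ∨ Γ.t e = x) ∧ R e ≠ 0 := by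
  simp [vs]

@[simp] theorem mem_dt {x : V} {d : E × Bool} : d ∈ Γ.dt x ↔ Γ.tl d = x := by simp [dt]

@[simp] theorem tl_false (e : E) : Γ.tl (e, false) = Γ.s e := rfl

@[simp] theorem tl_true (e : E) : Γ.tl (e, true) = Γ.t e := rfl

@[simp] theorem hd_false (e : E) : Γ.hd (e, false) = Γ.t e := rfl

@[simp] theorem hd_true (e : E) : Γ.hd (e, true) = Γ.s e := rfl

theorem card_dt (x : V) : (Γ.dt x).card = 3 := Γ.three x

theorem mem_inc_iff_dart {x : V} {e : E} : e ∈ Γ.inc x ↔ ∃ b, (e, b) ∈ Γ.dt x := by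
  simp only [mem_inc, mem_dt, Bool.exists_bool, tl_false, tl_true]

theorem fst_mem_inc {x : V} {d : E × Bool} (h : d ∈ Γ.dt x) : d.1 ∈ Γ.inc x :=
  Γ.mem_inc_iff_dart.2 ⟨d.2, h⟩

theorem bt_comm (U W : Finset V) : Γ.bt U W = Γ.bt W U := by
  ext e; simp only [mem_bt]; tauto

theorem s_mem_vs {R : E → ZMod 2} {e : E} (h : R e ≠ 0) : Γ.s e ∈ Γ.vs R :=
  Γ.mem_vs.2 ⟨e, Or.inl rfl, h⟩

theorem t_mem_vs {R : E → ZMod 2} {e : E} (h : R e ≠ 0) : Γ.t e ∈ Γ.vs R :=
  Γ.mem_vs.2 ⟨e, Or.inr rfl, h⟩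

theorem mem_vs_iff_dart {R : E → ZMod 2} {x : V} : x ∈ Γ.vs R ↔ ∃ d ∈ Γ.dt x, R d.1 ≠ 0 := by
  rw [Γ.mem_vs]
  constructor
  · rintro ⟨e, h | h, hR⟩
    · exact ⟨(e, false), by simp [h], hR⟩
    · exact ⟨(e, true), by simp [h], hR⟩
  · rintro ⟨⟨e, b⟩, h, hR⟩
    cases b
    · exact ⟨e, Or.inl (by simpa using h), hR⟩
    · exact ⟨e, Or.inr (by simpa using h), hR⟩

theorem supp_subset_EU_vs (R : E → ZMod 2) : supp R ⊆ Γ.EU (Γ.vs R) := by
  intro e he
  rw [mem_supp] at he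
  simp [Γ.s_mem_vs he, Γ.t_mem_vs he]

theorem supp_subset_EU_iff {R : E → ZMod 2} {U : Finset V} :
    supp R ⊆ Γ.EU U ↔ Γ.vs R ⊆ U := by
  constructor
  · intro h x hx
    obtain ⟨e, he, hR⟩ := Γ.mem_vs.1 hx
    have := Γ.mem_EU.1 (h (mem_supp.2 hR))
    rcases he with rfl | rfl
    · exact this.1
    · exact this.2
  · intro h e he
    have := Γ.mem_EU.1 (Γ.supp_subset_EU_vs R he)
    exact Γ.mem_EU.2 ⟨h this.1, h this.2⟩

theorem EU_mono {U W : Finset V} (h : U ⊆ W) : Γ.EU U ⊆ Γ.EU W := by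
  intro e he
  simp only [mem_EU] at he ⊢
  exact ⟨h he.1, h he.2⟩

/-- sum over the darts leaving `x` -/
theorem sum_dt (x : V) {M : Type} [AddCommMonoid M] (f : E → M) :
    ∑ d ∈ Γ.dt x, f d.1
      = ∑ e : E, ((if Γ.s e = x then f e else 0) + (if Γ.t e = x then f e else 0)) := by
  rw [dt, Finset.sum_filter, Fintype.sum_prod_type]
  refine Finset.sum_congr rfl fun e _ => ?_
  rw [Fintype.sum_bool, tl_true, tl_false, add_comm]

/-- double counting: sum over the vertices of `U` -/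
theorem sum_inc (U : Finset V) {M : Type} [AddCommMonoid M] (f : E → M) :
    ∑ x ∈ U, ∑ d ∈ Γ.dt x, f d.1
      = ∑ e ∈ Γ.bd U, f e + (∑ e ∈ Γ.EU U, f e + ∑ e ∈ Γ.EU U, f e) := by
  classical
  have h1 : ∑ x ∈ U, ∑ d ∈ Γ.dt x, f d.1
      = ∑ e : E, ((if Γ.s e ∈ U then f e else 0) + (if Γ.t e ∈ U then f e else 0)) := by
    rw [Finset.sum_congr rfl (fun x _ => Γ.sum_dt x f), Finset.sum_comm]
    refine Finset.sum_congr rfl fun e _ => ?_
    rw [Finset.sum_add_distrib, Finset.sum_ite_eq, Finset.sum_ite_eq]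
  rw [h1, bd, bt, EU, Finset.sum_filter, Finset.sum_filter, ← Finset.sum_add_distrib,
    ← Finset.sum_add_distrib]
  refine Finset.sum_congr rfl fun e _ => ?_
  by_cases h3 : Γ.s e ∈ U <;> by_cases h4 : Γ.t e ∈ U <;> simp [h3, h4]

/-- an even edge set meets every boundary evenly -/
theorem par_bd (U : Finset V) {R : E → ZMod 2} (hR : R ∈ Γ.Z) : par (Γ.bd U) R = 0 := by
  have h := Γ.sum_inc U R
  rw [Finset.sum_congr rfl (fun x _ => (Γ.mem_Z.1 hR) x)] at h
  simp only [Finset.sum_const_zero, zm_add_self, add_zero] at h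
  exact h.symm

theorem card_bd_add (U : Finset V) : (Γ.bd U).card + 2 * (Γ.EU U).card = 3 * U.card := by
  have h := Γ.sum_inc U (fun _ => 1)
  simp only [Finset.sum_const, smul_eq_mul, mul_one, card_dt] at h
  omega

theorem card_touch_le (U : Finset V) : (Γ.touch U).card ≤ 3 * U.card := by
  have h1 := Γ.card_bd_add U
  have h2 : Γ.touch U = Γ.bd U ∪ Γ.EU U := by
    ext e; simp only [mem_touch, mem_union, mem_bd, mem_EU]; tauto
  have h3 := Finset.card_union_le (Γ.bd U) (Γ.EU U)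
  rw [h2]; omega

/-- darts of `R` at `x` -/
def dR (R : E → ZMod 2) (x : V) : Finset (E × Bool) := (Γ.dt x).filter (fun d => R d.1 ≠ 0)

theorem mem_dR {R : E → ZMod 2} {x : V} {d : E × Bool} :
    d ∈ Γ.dR R x ↔ Γ.tl d = x ∧ R d.1 ≠ 0 := by simp [dR]

/-- the degree of an even edge set at a vertex of a cubic graph is 0 or 2 -/
theorem deg_cases {R : E → ZMod 2} (hR : R ∈ Γ.Z) (x : V) :
    (Γ.dR R x).card = 0 ∨ (Γ.dR R x).card = 2 := by
  have h1 := Γ.mem_Z.1 hR x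
  have h2 : ∑ d ∈ Γ.dt x, R d.1 = ((Γ.dR R x).card : ZMod 2) := by
    have h : ∀ d ∈ Γ.dt x, R d.1 = if R d.1 ≠ 0 then 1 else 0 := by
      intro d _
      rcases zm_cases (R d.1) with a | a <;> simp [a]
    rw [Finset.sum_congr rfl h, dR, ← Finset.sum_filter]
    simp
  rw [h1] at h2
  have h3 : (Γ.dR R x).card ≤ 3 := by
    rw [← Γ.card_dt x]; exact Finset.card_le_card (Finset.filter_subset _ _)
  have h4 : 2 ∣ (Γ.dR R x).card := (ZMod.natCast_eq_zero_iff _ _).1 h2.symm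
  omega

theorem mem_vs_iff_deg {R : E → ZMod 2} (hR : R ∈ Γ.Z) (x : V) :
    x ∈ Γ.vs R ↔ (Γ.dR R x).card = 2 := by
  rw [Γ.mem_vs_iff_dart]
  constructor
  · rintro ⟨d, hd, hRd⟩
    rcases Γ.deg_cases hR x with h | h
    · exfalso
      rw [Finset.card_eq_zero] at h
      have : d ∈ Γ.dR R x := Γ.mem_dR.2 ⟨Γ.mem_dt.1 hd, hRd⟩
      rw [h] at this; simp at this
    · exact h
  · intro h
    have : (Γ.dR R x).Nonempty := by
      rw [← Finset.card_pos]; omega
    obtain ⟨d, hd⟩ := this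
    rw [mem_dR] at hd
    exact ⟨d, Γ.mem_dt.2 hd.1, hd.2⟩

/-- in a cubic graph an even subset of an even edge set is a union of components -/
theorem sub_closed {C R : E → ZMod 2} (hC : C ∈ Γ.Z) (hR : R ∈ Γ.Z) (h : supp C ⊆ supp R)
    {x : V} (hx : x ∈ Γ.vs C) {e : E} (he : e ∈ Γ.inc x) (hRe : R e ≠ 0) : C e ≠ 0 := by
  have h1 := (Γ.mem_vs_iff_deg hC x).1 hx
  have h2 : Γ.dR C x ⊆ Γ.dR R x := by
    intro d hd
    rw [mem_dR] at hd ⊢
    exact ⟨hd.1, mem_supp.1 (h (mem_supp.2 hd.2))⟩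
  have h3 : (Γ.dR R x).card ≤ 2 := by
    rcases Γ.deg_cases hR x with h | h <;> omega
  have h4 := Finset.eq_of_subset_of_card_le h2 (by omega)
  obtain ⟨b, hb⟩ := Γ.mem_inc_iff_dart.1 he
  have h5 : (e, b) ∈ Γ.dR C x := by
    rw [h4, mem_dR]; exact ⟨Γ.mem_dt.1 hb, hRe⟩
  rw [mem_dR] at h5
  exact h5.2

/-- an even edge set has as many edges as vertices -/
theorem card_vs {R : E → ZMod 2} (hR : R ∈ Γ.Z) : (Γ.vs R).card = (supp R).card := by
  classical
  have h1 := Γ.sum_inc (Γ.vs R) (fun e => if e ∈ supp R then 1 else 0)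
  have h2 : ∀ x ∈ Γ.vs R, ∑ d ∈ Γ.dt x, (if d.1 ∈ supp R then 1 else 0) = 2 := by
    intro x hx
    have h3 := (Γ.mem_vs_iff_deg hR x).1 hx
    rw [dR, Finset.card_filter] at h3
    simpa using h3
  rw [Finset.sum_congr rfl h2] at h1
  have h3 : ∑ e ∈ Γ.bd (Γ.vs R), (if e ∈ supp R then 1 else 0) = 0 := by
    refine Finset.sum_eq_zero fun e he => ?_
    rw [if_neg]
    intro h
    rw [mem_supp] at h
    have h5 := Γ.s_mem_vs h
    have h6 := Γ.t_mem_vs h
    rw [mem_bd] at he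
    tauto
  have h4 : ∑ e ∈ Γ.EU (Γ.vs R), (if e ∈ supp R then 1 else 0) = (supp R).card := by
    rw [Finset.sum_ite_mem, Finset.inter_eq_right.2 (Γ.supp_subset_EU_vs R)]
    simp
  rw [h3, h4] at h1
  simp only [Finset.sum_const, smul_eq_mul] at h1
  omega

theorem Single.mem {R : E → ZMod 2} (h : Γ.Single R) : R ∈ Γ.Z := h.1

theorem Single.ne_zero {R : E → ZMod 2} (h : Γ.Single R) : R ≠ 0 := h.2.1

theorem Single.eq_of_sub {R C : E → ZMod 2} (h : Γ.Single R) (hC : C ∈ Γ.Z) (h0 : C ≠ 0)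
    (hs : supp C ⊆ supp R) : C = R := h.2.2 C hC h0 hs

theorem vs_nonempty {R : E → ZMod 2} (h : R ≠ 0) : (Γ.vs R).Nonempty := by
  obtain ⟨e, he⟩ := supp_nonempty h
  exact ⟨_, Γ.s_mem_vs (mem_supp.1 he)⟩

/-- restriction of an even edge set to a vertex set that it does not leave -/
theorem restrict_mem {R : E → ZMod 2} (hR : R ∈ Γ.Z) (S : Finset V)
    (h : ∀ e ∈ Γ.bd S, R e = 0) :
    (fun e => if e ∈ Γ.EU S then R e else 0) ∈ Γ.Z := by
  intro x
  by_cases hx : x ∈ S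
  · have h1 : ∀ d ∈ Γ.dt x, (if d.1 ∈ Γ.EU S then R d.1 else 0) = R d.1 := by
      intro d hd
      have he := Γ.fst_mem_inc hd
      split_ifs with h2
      · rfl
      · symm; apply h
        rw [mem_inc] at he
        rw [mem_bd]
        rw [mem_EU] at h2
        rcases he with rfl | rfl <;> tauto
    exact (Finset.sum_congr rfl h1).trans (hR x)
  · refine Finset.sum_eq_zero fun d hd => ?_
    have he := Γ.fst_mem_inc hd
    refine if_neg ?_
    rw [mem_inc] at he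
    rw [mem_EU]
    rcases he with rfl | rfl <;> tauto

/-- a cycle is connected through its own edges -/
theorem single_cut {C : E → ZMod 2} (hC : Γ.Single C) {S : Finset V} (hS : S ⊆ Γ.vs C)
    (h0 : S.Nonempty) (h1 : S ≠ Γ.vs C) : ∃ e ∈ Γ.bt S (Γ.vs C \ S), C e ≠ 0 := by
  by_contra hcon
  push Not at hcon
  have h2 : ∀ e ∈ Γ.bd S, C e = 0 := by
    intro e he
    by_contra h3
    have h4 := Γ.s_mem_vs h3
    have h5 := Γ.t_mem_vs h3
    have := hcon e (by rw [mem_bt]; rw [mem_bd] at he; simp only [mem_sdiff]; tauto)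
    exact h3 this
  set D : E → ZMod 2 := fun e => if e ∈ Γ.EU S then C e else 0 with hD
  have h3 : D ∈ Γ.Z := Γ.restrict_mem hC.1 S h2
  obtain ⟨x, hx⟩ := h0
  have h4 : D ≠ 0 := by
    obtain ⟨e, he, hCe⟩ := Γ.mem_vs.1 (hS hx)
    intro h
    have h5 := congrFun h e
    have h6 : e ∈ Γ.EU S := by
      by_contra h7
      exact hCe (h2 e (by rw [mem_bd]; rw [mem_EU] at h7; rcases he with rfl | rfl <;> tauto))
    simp only [hD, h6, if_true, Pi.zero_apply] at h5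
    exact hCe h5
  have h5 : supp D ⊆ supp C := by
    intro e he
    rw [mem_supp] at he ⊢
    intro h; apply he
    simp [hD, h]
  have h6 := hC.2.2 D h3 h4 h5
  apply h1
  refine Finset.Subset.antisymm hS fun y hy => ?_
  obtain ⟨e, he, hCe⟩ := Γ.mem_vs.1 hy
  rw [← h6] at hCe
  have h7 : e ∈ Γ.EU S := by
    by_contra h8
    exact hCe (by simp only [hD, h8, if_false])
  rw [mem_EU] at h7
  rcases he with rfl | rfl
  · exact h7.1
  · exact h7.2

theorem conn_vs {C : E → ZMod 2} (hC : Γ.Single C) : Γ.Conn (Γ.vs C) := by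
  refine ⟨Γ.vs_nonempty hC.2.1, fun S hS h0 h1 => ?_⟩
  obtain ⟨e, he, _⟩ := Γ.single_cut hC hS h0 h1
  exact ⟨e, he⟩

/-- every nonzero even edge set contains a cycle through each of its edges -/
theorem exists_single {R : E → ZMod 2} (hR : R ∈ Γ.Z) {e : E} (he : R e ≠ 0) :
    ∃ C, Γ.Single C ∧ supp C ⊆ supp R ∧ C e ≠ 0 := by
  classical
  obtain ⟨n, hn⟩ : ∃ n, (supp R).card = n := ⟨_, rfl⟩
  induction n using Nat.strong_induction_on generalizing R with
  | _ n ih =>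
    by_cases h : ∀ D ∈ Γ.Z, D ≠ 0 → supp D ⊆ supp R → D = R
    · exact ⟨R, ⟨hR, fun h0 => he (by rw [h0]; rfl), h⟩, Finset.Subset.refl _, he⟩
    · push Not at h
      obtain ⟨D, hD, h0, hs, hne⟩ := h
      have h1 : supp (R + D) = supp R \ supp D := supp_add_of_subset hs
      by_cases hDe : D e ≠ 0
      · have h2 : (supp D).card < n := by
          rw [← hn]
          refine Finset.card_lt_card (Finset.ssubset_iff_subset_ne.2 ⟨hs, fun h => hne ?_⟩)
          exact supp_eq_iff.1 h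
        obtain ⟨C, hC, hCs, hCe⟩ := ih _ h2 hD hDe rfl
        exact ⟨C, hC, hCs.trans hs, hCe⟩
      · have hDe' : D e = 0 := not_not.1 hDe
        have h2 : (supp (R + D)).card < n := by
          rw [← hn, h1]
          refine Finset.card_lt_card (Finset.ssubset_iff_subset_ne.2 ⟨Finset.sdiff_subset, ?_⟩)
          intro h
          obtain ⟨f, hf⟩ := supp_nonempty h0
          have : f ∈ supp R \ supp D := by rw [h]; exact hs hf
          rw [mem_sdiff] at this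
          exact this.2 hf
        obtain ⟨C, hC, hCs, hCe⟩ := ih _ h2 (Γ.Z.add_mem hR hD)
          (by simpa [hDe'] using he) rfl
        refine ⟨C, hC, hCs.trans ?_, hCe⟩
        rw [h1]; exact Finset.sdiff_subset

end Cub

end Pool.Agent.Lib.MP_af4270_co
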