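import Pool.Agent.Lib.MP_af4270_co.CNear

/-!
# Part C: a cycle close to every vertex of a pure region; the cut below a vertex
-/

set_option autoImplicit false
set_option linter.unusedSectionVars false

namespace Pool.Agent.Lib.MP_af4270_co

open Finset

variable {V E : Type} [Fintype V] [DecidableEq V] [Fintype E] [DecidableEq E]

namespace Cub

variable {Γ : Cub V E}

theorem supp_extU (U : Finset V) (f : Γ.EU U → ZMod 2) : supp (Γ.extU U f) ⊆ Γ.EU U := by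
  intro e he
  by_contra h
  rw [mem_supp] at he
  exact he (by simp [extU, h])

/-- a vertex set with at least as many inner edges as vertices contains a cycle -/
theorem exists_even_of_card {W : Finset V} (hW : W.Nonempty) (h : W.card ≤ (Γ.EU W).card) :
    ∃ D ∈ Γ.Z, D ≠ 0 ∧ supp D ⊆ Γ.EU W := by
  classical
  obtain ⟨x₀, hx₀⟩ := hW
  have hcard : Fintype.card (↥(W.erase x₀) → ZMod 2)
      < Fintype.card (Γ.EU W → ZMod 2) := by
    rw [Fintype.card_fun, Fintype.card_fun, ZMod.card, Fintype.card_coe, Fintype.card_coe,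
      Finset.card_erase_of_mem hx₀]
    have h1 : 0 < W.card := Finset.card_pos.2 ⟨x₀, hx₀⟩
    exact Nat.pow_lt_pow_right (by norm_num) (by omega)
  obtain ⟨f, g, hne, hfg⟩ := Fintype.exists_ne_map_eq_of_card_lt
    (fun (f : ↥(Γ.EU W) → ZMod 2) (x : ↥(W.erase x₀)) => Γ.od (Γ.extU W f) (x : V)) hcard
  have hs : supp (Γ.extU W f + Γ.extU W g) ⊆ Γ.EU W := by
    intro e he
    rw [mem_supp, Pi.add_apply] at he
    by_contra h
    have h1 : Γ.extU W f e = 0 := by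
      by_contra h2; exact h (supp_extU W f (mem_supp.2 h2))
    have h2 : Γ.extU W g e = 0 := by
      by_contra h2; exact h (supp_extU W g (mem_supp.2 h2))
    rw [h1, h2] at he
    simp at he
  have hod : ∀ x ∈ W.erase x₀, Γ.od (Γ.extU W f + Γ.extU W g) x = 0 := by
    intro x hx
    have := congrFun hfg ⟨x, hx⟩
    simp only at this
    rw [od_add, this, zm_add_self]
  refine ⟨Γ.extU W f + Γ.extU W g, ?_, ?_, hs⟩
  · rw [Γ.mem_Z_iff_od]
    intro x
    by_cases hx : x ∈ W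
    · by_cases hx0 : x = x₀
      · have h1 := Γ.sum_od hs
        rw [← Finset.add_sum_erase W _ hx₀, Finset.sum_eq_zero hod, add_zero] at h1
        rw [hx0]; exact h1
      · exact hod x (mem_erase.2 ⟨hx0, hx⟩)
    · exact Γ.od_eq_zero_of_notMem hs hx
  · intro h0
    apply hne
    funext e
    have h1 := congrFun h0 e
    rw [Pi.add_apply, Pi.zero_apply] at h1
    have h2 : Γ.extU W f e = f e := by simp [extU]
    have h3 : Γ.extU W g e = g e := by simp [extU]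
    rw [h2, h3] at h1
    rcases zm_cases (f e) with h4 | h4 <;> rcases zm_cases (g e) with h5 | h5 <;>
      rw [h4, h5] at h1 ⊢
    · exact absurd h1 (by decide)
    · exact absurd h1 (by decide)

variable {Y : Finset V} {a b : V} {P : E → ZMod 2}

/-- going up the path -/
theorem IsP.up (hP : IsP Γ Y a b P) (N : Γ.Net Y a b) {p x : V} {K m : ℕ}
    (hp : Pure Γ Y a b p K) (hx : x ∈ Γ.vs P) (hxm : x ∈ Γ.ball p m) (j : ℕ)
    (hj : m + j ≤ K) : ∃ y ∈ Γ.vs P, y ∈ Γ.ball p (m + j) ∧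
      Γ.lev Y a b y = Γ.lev Y a b x + j := by
  induction j with
  | zero => exact ⟨x, hx, hxm, rfl⟩
  | succ j ih =>
    obtain ⟨y, hy, hyb, hyl⟩ := ih (by omega)
    obtain ⟨_, z, e, hj', _, hz, hzl⟩ := hP.nbrs N hy (hp.sub hyb (by omega))
    exact ⟨z, hz, hj'.ball hyb, by omega⟩

/-- going down the path -/
theorem IsP.down (hP : IsP Γ Y a b P) (N : Γ.Net Y a b) {p x : V} {K m : ℕ}
    (hp : Pure Γ Y a b p K) (hx : x ∈ Γ.vs P) (hxm : x ∈ Γ.ball p m) (j : ℕ)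
    (hj : m + j ≤ K) : ∃ y ∈ Γ.vs P, y ∈ Γ.ball p (m + j) ∧
      Γ.lev Y a b y + j = Γ.lev Y a b x := by
  induction j with
  | zero => exact ⟨x, hx, hxm, rfl⟩
  | succ j ih =>
    obtain ⟨y, hy, hyb, hyl⟩ := ih (by omega)
    obtain ⟨⟨z, e, hj', _, hz, hzl⟩, _⟩ := hP.nbrs N hy (hp.sub hyb (by omega))
    exact ⟨z, hz, hj'.ball hyb, by omega⟩

/-- the path vertex of the same level -/
theorem IsP.mate (hP : IsP Γ Y a b P) (N : Γ.Net Y a b) {p : V} (hp : Pure Γ Y a b p 2) :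
    ∃ x ∈ Γ.vs P, x ∈ Γ.ball p 2 ∧ Γ.lev Y a b x = Γ.lev Y a b p := by
  have hpb := hp.big (Γ.mem_ball_self p 2)
  obtain ⟨x, hx, hl⟩ := hP.exists_lev N (N.lev_le_b hpb)
  rw [mem_inter] at hx
  exact ⟨x, hx.2, N.near hp hx.1 hl, hl⟩

/-- all vertices of nearby levels are close -/
theorem Net.level_near (N : Γ.Net Y a b) {p x : V} {K m : ℕ}
    (hp : Pure Γ Y a b p K) (hxb : x ∈ Γ.ball p m) (hm : m + 3 ≤ K) {v : V}
    (hv : v ∈ Y) (hl : Γ.lev Y a b v = Γ.lev Y a b x) : v ∈ Γ.ball p (m + 2) := by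
  have h1 : ∀ z ∈ Γ.Bg Y a b, Γ.lev Y a b z = Γ.lev Y a b x → z ∈ Γ.ball p (m + 2) := by
    intro z hz hzl
    have h2 := N.near (hp.sub hxb (by omega : m + 2 ≤ K)) hz hzl
    exact ball_trans hxb 2 h2
  by_cases hvb : v ∈ Γ.Bg Y a b
  · exact h1 v hvb hl
  · exfalso
    obtain ⟨z, u, e, h2, h3, h4, h5, h6⟩ := N.lev_small hv hvb
    have h7 := h1 z h2 (h3.trans hl)
    exact h6 (hp.big (Γ.ball_mono p (by omega : m + 2 + 1 ≤ K) (h4.ball h7)))

/-- a cycle close to a vertex of a pure region -/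
theorem Net.cycle (N : Γ.Net Y a b) {p : V} (hp : Pure Γ Y a b p 12) :
    ∃ D ∈ Γ.Z, D ≠ 0 ∧ supp D ⊆ Γ.EU (Γ.ball p 10) := by
  classical
  obtain ⟨P, hP⟩ := N.exists_P
  obtain ⟨x, hx, hxb, hxl⟩ := hP.mate N (hp.mono (by norm_num))
  obtain ⟨i, hi⟩ : ∃ i, i = Γ.lev Y a b x := ⟨_, rfl⟩
  have hup := fun j (hj : 2 + j ≤ 12) => hP.up N hp hx hxb j hj
  have hdn := fun j (hj : 2 + j ≤ 12) => hP.down N hp hx hxb j hj
  have hi7 : 7 ≤ i := by
    obtain ⟨y, _, _, hyl⟩ := hdn 7 (by norm_num)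
    omega
  -- levels `i-6 .. i+6`
  have hlv : ∀ m, i - 6 ≤ m → m ≤ i + 6 → ∃ y ∈ Γ.vs P, y ∈ Γ.ball p 8 ∧
      Γ.lev Y a b y = m := by
    intro m h1 h2
    rcases le_total i m with h3 | h3
    · obtain ⟨y, h4, h5, h6⟩ := hup (m - i) (by omega)
      exact ⟨y, h4, Γ.ball_mono p (by omega) h5, by omega⟩
    · obtain ⟨y, h4, h5, h6⟩ := hdn (i - m) (by omega)
      exact ⟨y, h4, Γ.ball_mono p (by omega) h5, by omega⟩
  obtain ⟨W, hW⟩ : ∃ W, W = Y.filter (fun v => i - 6 ≤ Γ.lev Y a b v ∧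
    Γ.lev Y a b v ≤ i + 6) := ⟨_, rfl⟩
  have hWb : W ⊆ Γ.ball p 10 := by
    intro v hv
    rw [hW, mem_filter] at hv
    obtain ⟨y, _, h2, h3⟩ := hlv _ hv.2.1 hv.2.2
    exact N.level_near hp h2 (by norm_num) hv.1 h3.symm
  have hWbig : ∀ v ∈ W, v ∈ Γ.Bg Y a b := fun v hv =>
    (hp.mono (by norm_num : 10 ≤ 12)).big (hWb hv)
  have hWcard : 13 ≤ W.card := by
    have h1 : Finset.Icc (i - 6) (i + 6) ⊆ W.image (Γ.lev Y a b) := by
      intro m hm
      rw [Finset.mem_Icc] at hm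
      obtain ⟨y, h1, h2, h3⟩ := hlv m hm.1 hm.2
      rw [mem_image]
      refine ⟨y, ?_, h3⟩
      rw [hW, mem_filter, h3]
      exact ⟨hP.vs_subset h1, hm⟩
    have h2 := Finset.card_le_card h1
    rw [Nat.card_Icc] at h2
    have h3 := Finset.card_image_le (s := W) (f := Γ.lev Y a b)
    omega
  -- the boundary of `W`
  have htwo : ∀ m, (W.filter (fun v => Γ.lev Y a b v = m)).card ≤ 2 := by
    intro m
    by_contra hcon
    push Not at hcon
    obtain ⟨x1, x2, x3, h1, h2, h3, h4, h5, h6⟩ := Finset.two_lt_card_iff.1 hcon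
    rw [mem_filter] at h1 h2 h3
    rcases N.two (hWbig _ h1.1) (hWbig _ h2.1) (hWbig _ h3.1) (by rw [h1.2, h2.2])
      (by rw [h1.2, h3.2]) with h | h | h
    · exact h4 h
    · exact h5 h
    · exact h6 h
  have hbd : Γ.bd W ⊆ Γ.touch (W.filter (fun v => Γ.lev Y a b v = i - 6) ∪
      W.filter (fun v => Γ.lev Y a b v = i + 6)) := by
    intro e he
    have aux : ∀ u v, Γ.jn e u v → u ∈ W → v ∉ W →
        u ∈ W.filter (fun v => Γ.lev Y a b v = i - 6) ∪
          W.filter (fun v => Γ.lev Y a b v = i + 6) := by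
      intro u v hj hu hv
      have heY : e ∈ Γ.EU Y := hp.edge (Γ.ball_mono p (by norm_num) (hWb hu)) hj
      have hvY := (hj.mem_EU.1 heY).2
      rw [hW, mem_filter] at hu hv
      have h1 : Γ.lev Y a b v < i - 6 ∨ i + 6 < Γ.lev Y a b v := by
        by_contra h
        push Not at h
        exact hv ⟨hvY, h⟩
      rw [mem_union, mem_filter, mem_filter, hW, mem_filter]
      rcases h1 with h1 | h1
      · left
        obtain ⟨_, h3, _⟩ := N.cross hj.symm heY (m := i - 7) (by omega) (by omega)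
        exact ⟨hu, by omega⟩
      · right
        obtain ⟨_, _, h4⟩ := N.cross hj heY hu.2.2 h1
        exact ⟨hu, h4⟩
    rw [Γ.mem_bd] at he
    rw [Γ.mem_touch]
    rcases he with ⟨h1, h2⟩ | ⟨h1, h2⟩
    · exact Or.inl (aux _ _ (jn_st e) h1 h2)
    · exact Or.inr (aux _ _ (jn_st e).symm h2 h1)
  have h1 := Finset.card_le_card hbd
  have h2 := Γ.card_touch_le (W.filter (fun v => Γ.lev Y a b v = i - 6) ∪
      W.filter (fun v => Γ.lev Y a b v = i + 6))
  have h3 := Finset.card_union_le (W.filter (fun v => Γ.lev Y a b v = i - 6))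
    (W.filter (fun v => Γ.lev Y a b v = i + 6))
  have h4 := htwo (i - 6)
  have h5 := htwo (i + 6)
  have h6 := Γ.card_bd_add W
  have h7 : W.Nonempty := by rw [← Finset.card_pos]; omega
  obtain ⟨D, hD, h0, hs⟩ := exists_even_of_card (Γ := Γ) h7 (by omega)
  exact ⟨D, hD, h0, hs.trans (Γ.EU_mono hWb)⟩

/-- the cut below a vertex of a pure region -/
theorem Net.cut (N : Γ.Net Y a b) {p : V} (hp : Pure Γ Y a b p 2) :
    ∃ U ⊆ Y, a ∈ U ∧ b ∉ U ∧
      ∀ e ∈ Γ.bt U (Y \ U), Γ.s e ∈ Γ.ball p 2 ∨ Γ.t e ∈ Γ.ball p 2 := by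
  have hpb := hp.big (Γ.mem_ball_self p 2)
  obtain ⟨_, _, hpa, _⟩ := hp p (Γ.mem_ball_self p 2)
  have h1 := N.lev_pos hpb hpa
  have h2 := N.lev_le_b hpb
  refine ⟨Y.filter (fun v => Γ.lev Y a b v < Γ.lev Y a b p), Finset.filter_subset _ _, ?_, ?_, ?_⟩
  · rw [mem_filter, lev_a]; exact ⟨N.ha, h1⟩
  · rw [mem_filter]; rintro ⟨_, h⟩; omega
  · intro e he
    have aux : ∀ u v, Γ.jn e u v → u ∈ Y → v ∈ Y → Γ.lev Y a b u < Γ.lev Y a b p →
        Γ.lev Y a b p ≤ Γ.lev Y a b v → v ∈ Γ.ball p 2 := by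
      intro u v hj hu hv hul hvl
      obtain ⟨h3, h4, _⟩ := N.cross hj (hj.mem_EU.2 ⟨hu, hv⟩) (m := Γ.lev Y a b p - 1)
        (by omega) (by omega)
      exact N.near hp h3 (by omega)
    rw [Γ.mem_bt] at he
    simp only [mem_sdiff, mem_filter, not_and, not_lt] at he
    rcases he with ⟨⟨h3, h4⟩, h5, h6⟩ | ⟨⟨h3, h4⟩, h5, h6⟩
    · exact Or.inr (aux _ _ (jn_st e) h3 h5 h4 (h6 h5))
    · exact Or.inl (aux _ _ (jn_st e).symm h5 h3 h6 (h4 h3))

end Cub

end Pool.Agent.Lib.MP_af4270_co
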