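import Pool.Agent.Lib.MP_af4270_co.CTree

/-!
# Part C: big vertices of the same level are close
-/

set_option autoImplicit false
set_option linter.unusedSectionVars false

namespace Pool.Agent.Lib.MP_af4270_co

open Finset

variable {V E : Type} [Fintype V] [DecidableEq V] [Fintype E] [DecidableEq E]

namespace Cub

variable {Γ : Cub V E}

theorem ball_trans {x y : V} {m : ℕ} (hy : y ∈ Γ.ball x m) (n : ℕ) :
    Γ.ball y n ⊆ Γ.ball x (m + n) := by
  induction n with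
  | zero =>
    intro z hz
    have : z = y := by simpa [ball] using hz
    rw [this]; exact hy
  | succ n ih =>
    intro z hz
    rcases Γ.ball_succ_iff.1 hz with h | ⟨w, hw, e, he⟩
    · exact Γ.ball_mono x (by omega) (ih h)
    · exact Γ.mem_ball_succ (n := m + n) (ih hw) he

theorem jn.ball {e : E} {x y z : V} {m : ℕ} (hj : Γ.jn e y z) (hy : y ∈ Γ.ball x m) :
    z ∈ Γ.ball x (m + 1) := by
  refine Γ.mem_ball_succ hy (e := e) ?_
  rcases hj with h | h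
  · exact Or.inl h
  · exact Or.inr h

theorem mem_ball_one {e : E} {x y : V} (hj : Γ.jn e x y) : y ∈ Γ.ball x 1 :=
  hj.ball (Γ.mem_ball_self x 0)

/-- all vertices within distance `K` of `p` are inner vertices of the network -/
def Pure (Γ : Cub V E) (Y : Finset V) (a b p : V) (K : ℕ) : Prop :=
  ∀ y ∈ Γ.ball p K, y ∈ Y ∧ Γ.dg Y y = 3 ∧ y ≠ a ∧ y ≠ b

variable {Y : Finset V} {a b : V} {P : E → ZMod 2}

theorem Pure.big {p : V} {K : ℕ} (h : Pure Γ Y a b p K) {y : V} (hy : y ∈ Γ.ball p K) :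
    y ∈ Γ.Bg Y a b := mem_Bg.2 ⟨(h y hy).1, Or.inl (h y hy).2.1⟩

theorem Pure.mono {p : V} {K k : ℕ} (h : Pure Γ Y a b p K) (hk : k ≤ K) : Pure Γ Y a b p k :=
  fun y hy => h y (Γ.ball_mono p hk hy)

theorem Pure.sub {p x : V} {K k m : ℕ} (h : Pure Γ Y a b p K) (hx : x ∈ Γ.ball p m)
    (hk : m + k ≤ K) : Pure Γ Y a b x k :=
  fun y hy => h y (Γ.ball_mono p hk (ball_trans hx k hy))

theorem edge_mem_of_dg {y z : V} {e : E} (h3 : Γ.dg Y y = 3) (hj : Γ.jn e y z) :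
    e ∈ Γ.EU Y := by
  have h1 : (Γ.dt y).filter (fun d => d.1 ∈ Γ.EU Y) = Γ.dt y := by
    refine Finset.eq_of_subset_of_card_le (Finset.filter_subset _ _) ?_
    rw [Γ.card_dt]; exact h3.ge
  obtain ⟨b, hb⟩ := Γ.mem_inc_iff_dart.1 hj.mem_inc
  rw [← h1, mem_filter] at hb
  exact hb.2

theorem Pure.edge {p : V} {K : ℕ} (h : Pure Γ Y a b p K) {y z : V} {e : E}
    (hy : y ∈ Γ.ball p K) (hj : Γ.jn e y z) : e ∈ Γ.EU Y :=
  edge_mem_of_dg (h y hy).2.1 hj

/-- a loop is an even edge set -/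
theorem loop_mem_Z {e : E} {x : V} (hj : Γ.jn e x x) :
    (fun f => if f = e then (1 : ZMod 2) else 0) ∈ Γ.Z := by
  rw [Γ.mem_Z_iff_od]
  intro z
  rw [od_single_jn hj, zm_add_self]

theorem single_ne_zero (e : E) : (fun f => if f = e then (1 : ZMod 2) else 0) ≠ 0 := by
  intro h
  have := congrFun h e
  simp at this

theorem Net.no_loop (N : Γ.Net Y a b) {e : E} {x : V} (hj : Γ.jn e x x) (he : e ∈ Γ.EU Y) :
    False := by
  obtain ⟨P, hP⟩ := N.exists_P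
  set D : E → ZMod 2 := fun f => if f = e then 1 else 0 with hD
  have hDZ : D ∈ Γ.Z := loop_mem_Z hj
  by_cases h : P e = 0
  · have hJ : Γ.Join Y a b (P + D) := by
      refine ⟨?_, fun z => ?_⟩
      · intro f hf
        by_cases hfe : f = e
        · rw [hfe]; exact he
        · refine hP.join.1 (mem_supp.2 fun h' => ?_)
          rw [mem_supp, Pi.add_apply, h'] at hf
          simp [hD, hfe] at hf
      · rw [od_add, hP.join.2, (Γ.mem_Z_iff_od.1 hDZ) z, add_zero]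
    refine N.lossless _ hJ D hDZ (single_ne_zero e) ?_
    intro f hf
    rw [mem_supp] at hf ⊢
    by_cases hfe : f = e
    · rw [hfe, Pi.add_apply, h, zero_add, hD]; simp
    · simp [hD, hfe] at hf
  · refine N.lossless _ hP.join D hDZ (single_ne_zero e) ?_
    intro f hf
    rw [mem_supp] at hf
    by_cases hfe : f = e
    · rw [hfe]; exact mem_supp.2 h
    · simp [hD, hfe] at hf

/-- a pair of parallel edges is an even edge set -/
theorem double_mem_Z {e f : E} {x y : V} (he : Γ.jn e x y) (hf : Γ.jn f x y) :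
    ((fun g => if g = e then (1 : ZMod 2) else 0) + fun g => if g = f then 1 else 0) ∈ Γ.Z := by
  rw [Γ.mem_Z_iff_od]
  intro z
  rw [od_add, od_single_jn he, od_single_jn hf, zm_add_self]

theorem double_ne_zero {e f : E} (hne : e ≠ f) :
    ((fun g => if g = e then (1 : ZMod 2) else 0) + fun g => if g = f then 1 else 0) ≠ 0 := by
  intro h
  have := congrFun h e
  simp [hne] at this

theorem supp_double_subset {e f : E} {S : Finset E} (he : e ∈ S) (hf : f ∈ S) :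
    supp ((fun g => if g = e then (1 : ZMod 2) else 0) + fun g => if g = f then 1 else 0) ⊆ S := by
  intro g hg
  rw [mem_supp, Pi.add_apply] at hg
  by_cases h1 : g = e
  · rw [h1]; exact he
  · by_cases h2 : g = f
    · rw [h2]; exact hf
    · simp [h1, h2] at hg

theorem IsP.no_double (hP : IsP Γ Y a b P) (N : Γ.Net Y a b) {e f : E} {x y : V}
    (he : Γ.jn e x y) (hf : Γ.jn f x y) (hne : e ≠ f) (h1 : P e ≠ 0) (h2 : P f ≠ 0) : False :=
  N.lossless _ hP.join _ (double_mem_Z he hf) (double_ne_zero hne)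
    (supp_double_subset (mem_supp.2 h1) (mem_supp.2 h2))

theorem IsP.no_double_off (hP : IsP Γ Y a b P) (N : Γ.Net Y a b) {e f : E} {x y : V}
    (he : Γ.jn e x y) (hf : Γ.jn f x y) (hne : e ≠ f) (hx : x ∈ Y \ Γ.vs P)
    (hy : y ∈ Y \ Γ.vs P) : False :=
  double_ne_zero hne (hP.acyclic N (double_mem_Z he hf)
    (supp_double_subset (he.mem_EU.2 ⟨hx, hy⟩) (hf.mem_EU.2 ⟨hx, hy⟩)))

/-- two distinct darts at `x` without loops have distinct edges -/
theorem Net.dart_ne (N : Γ.Net Y a b) {x : V} {d d' : E × Bool} (hd : Γ.tl d = x)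
    (hd' : Γ.tl d' = x) (hdY : d.1 ∈ Γ.EU Y) (hne : d ≠ d') : d.1 ≠ d'.1 := by
  intro h
  obtain ⟨e, b1⟩ := d
  obtain ⟨f, b2⟩ := d'
  simp only at h
  subst h
  have h1 : b1 ≠ b2 := fun h => hne (by rw [h])
  apply N.no_loop (e := e) (x := x) _ hdY
  cases b1 <;> cases b2
  · exact absurd rfl h1
  · exact Or.inl ⟨by simpa using hd, by simpa using hd'⟩
  · exact Or.inl ⟨by simpa using hd', by simpa using hd⟩
  · exact absurd rfl h1

theorem jn_dart (d : E × Bool) : Γ.jn d.1 (Γ.tl d) (Γ.hd d) := by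
  obtain ⟨e, b⟩ := d
  cases b
  · exact Or.inl ⟨rfl, rfl⟩
  · exact Or.inr ⟨rfl, rfl⟩

/-- the neighbours of a path vertex on the path, in a pure region -/
theorem IsP.nbrs (hP : IsP Γ Y a b P) (N : Γ.Net Y a b) {x : V} (hx : x ∈ Γ.vs P)
    (hp : Pure Γ Y a b x 1) :
    (∃ y e, Γ.jn e x y ∧ P e ≠ 0 ∧ y ∈ Γ.vs P ∧ Γ.lev Y a b y + 1 = Γ.lev Y a b x) ∧
    (∃ y e, Γ.jn e x y ∧ P e ≠ 0 ∧ y ∈ Γ.vs P ∧ Γ.lev Y a b y = Γ.lev Y a b x + 1) := by
  classical
  obtain ⟨_, _, hxa, hxb⟩ := hp x (Γ.mem_ball_self x 1)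
  have hbx := hp.big (Γ.mem_ball_self x 1)
  have h2 := hP.dR_other hx hxa hxb
  obtain ⟨d1, d2, hne, heq⟩ := Finset.card_eq_two.1 h2
  have hd1 : d1 ∈ Γ.dR P x := by rw [heq]; simp
  have hd2 : d2 ∈ Γ.dR P x := by rw [heq]; simp
  rw [Γ.mem_dR] at hd1 hd2
  have hj1 := jn_dart (Γ := Γ) d1
  have hj2 := jn_dart (Γ := Γ) d2
  rw [hd1.1] at hj1
  rw [hd2.1] at hj2
  have hdY1 : d1.1 ∈ Γ.EU Y := hP.join.1 (mem_supp.2 hd1.2)
  have hdY2 : d2.1 ∈ Γ.EU Y := hP.join.1 (mem_supp.2 hd2.2)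
  have hee := N.dart_ne hd1.1 hd2.1 hdY1 hne
  have aux : ∀ (e : E) (y : V), Γ.jn e x y → P e ≠ 0 → e ∈ Γ.EU Y → y ∈ Γ.vs P ∧
      y ∈ Γ.Bg Y a b ∧
      (Γ.lev Y a b y + 1 = Γ.lev Y a b x ∨ Γ.lev Y a b y = Γ.lev Y a b x + 1) := by
    intro e y hj hPe heY
    have hy : y ∈ Γ.vs P := by
      rcases hj with ⟨_, h⟩ | ⟨h, _⟩
      · rw [← h]; exact Γ.t_mem_vs hPe
      · rw [← h]; exact Γ.s_mem_vs hPe
    have hyb := hp.big (mem_ball_one hj)
    refine ⟨hy, hyb, ?_⟩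
    have h3 := N.lev_step hj heY
    have h4 := N.lev_step hj.symm heY
    have h5 : Γ.lev Y a b y ≠ Γ.lev Y a b x := by
      intro h
      have := hP.lev_inj N hyb hy hbx hx h
      rw [this] at hj
      exact N.no_loop hj heY
    omega
  obtain ⟨a1, a2, a3⟩ := aux _ _ hj1 hd1.2 hdY1
  obtain ⟨b1, b2, b3⟩ := aux _ _ hj2 hd2.2 hdY2
  have hdiff : Γ.lev Y a b (Γ.hd d1) ≠ Γ.lev Y a b (Γ.hd d2) := by
    intro h
    have h6 := hP.lev_inj N a2 a1 b2 b1 h
    rw [← h6] at hj2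
    exact hP.no_double N hj1 hj2 hee hd1.2 hd2.2
  rcases a3 with a3 | a3 <;> rcases b3 with b3 | b3
  · omega
  · exact ⟨⟨_, _, hj1, hd1.2, a1, a3⟩, ⟨_, _, hj2, hd2.2, b1, b3⟩⟩
  · exact ⟨⟨_, _, hj2, hd2.2, b1, b3⟩, ⟨_, _, hj1, hd1.2, a1, a3⟩⟩
  · omega

/-- a vertex off the path in a pure region has a neighbour on the path -/
theorem IsP.off_nbr (hP : IsP Γ Y a b P) (N : Γ.Net Y a b) {p : V} (hpP : p ∉ Γ.vs P)
    (hp : Pure Γ Y a b p 1) : ∃ x e, Γ.jn e p x ∧ x ∈ Γ.vs P := by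
  classical
  by_contra hcon
  push Not at hcon
  have hpb := hp.big (Γ.mem_ball_self p 1)
  have hpY := Bg_subset hpb
  -- the map dart -> level of the head is injective on the three darts and takes two values
  have aux : ∀ d ∈ Γ.dt p, Γ.hd d ∈ Γ.Bg Y a b ∧ Γ.hd d ∉ Γ.vs P ∧ d.1 ∈ Γ.EU Y ∧
      (Γ.lev Y a b (Γ.hd d) + 1 = Γ.lev Y a b p ∨
        Γ.lev Y a b (Γ.hd d) = Γ.lev Y a b p + 1) := by
    intro d hd
    have hj := jn_dart (Γ := Γ) d
    rw [Γ.mem_dt.1 hd] at hj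
    have h1 := hp.big (mem_ball_one hj)
    have h2 := hcon _ _ hj
    have h3 := hp.edge (Γ.mem_ball_self p 1) hj
    refine ⟨h1, h2, h3, ?_⟩
    have h4 := N.lev_step hj h3
    have h5 := N.lev_step hj.symm h3
    have h6 : Γ.lev Y a b (Γ.hd d) ≠ Γ.lev Y a b p := by
      intro h
      have := hP.off_inj N h1 h2 hpb hpP h
      rw [this] at hj
      exact N.no_loop hj h3
    omega
  have hinj : Set.InjOn (fun d => Γ.lev Y a b (Γ.hd d)) (Γ.dt p : Finset (E × Bool)) := by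
    intro d hd d' hd' h
    by_contra hne
    have hd1 : d ∈ Γ.dt p := hd
    have hd2 : d' ∈ Γ.dt p := hd'
    obtain ⟨a1, a2, a3, _⟩ := aux d hd1
    obtain ⟨b1, b2, b3, _⟩ := aux d' hd2
    have h1 := hP.off_inj N a1 a2 b1 b2 h
    have hj := jn_dart (Γ := Γ) d
    have hj' := jn_dart (Γ := Γ) d'
    rw [Γ.mem_dt.1 hd1] at hj
    rw [Γ.mem_dt.1 hd2, ← h1] at hj'
    have h2 := N.dart_ne (Γ.mem_dt.1 hd1) (Γ.mem_dt.1 hd2) a3 hne
    exact hP.no_double_off N hj hj' h2 (mem_sdiff.2 ⟨hpY, hpP⟩)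
      (mem_sdiff.2 ⟨Bg_subset a1, a2⟩)
  have h1 : (Γ.dt p).image (fun d => Γ.lev Y a b (Γ.hd d))
      ⊆ {Γ.lev Y a b p - 1, Γ.lev Y a b p + 1} := by
    intro m hm
    obtain ⟨d, hd, rfl⟩ := mem_image.1 hm
    obtain ⟨_, _, _, h⟩ := aux d hd
    rw [mem_insert, mem_singleton]
    rcases h with h | h
    · left; omega
    · right; exact h
  have h2 := Finset.card_le_card h1
  rw [Finset.card_image_of_injOn hinj, Γ.card_dt] at h2
  have h3 := Finset.card_insert_le (Γ.lev Y a b p - 1) {Γ.lev Y a b p + 1}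
  rw [card_singleton] at h3
  omega

/-- big vertices of the same level are within distance 2 in a pure region -/
theorem Net.near (N : Γ.Net Y a b) {p q : V} (hp : Pure Γ Y a b p 2) (hq : q ∈ Γ.Bg Y a b)
    (h : Γ.lev Y a b q = Γ.lev Y a b p) : q ∈ Γ.ball p 2 := by
  obtain ⟨P, hP⟩ := N.exists_P
  by_cases hqp : q = p
  · rw [hqp]; exact Γ.mem_ball_self p 2
  have hpb := hp.big (Γ.mem_ball_self p 2)
  by_cases hpP : p ∈ Γ.vs P
  · -- `p` on the path, `q` off the path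
    have hqP : q ∉ Γ.vs P := fun hqP => hqp (hP.lev_inj N hq hqP hpb hpP h)
    have hqF : q ∈ Y \ Γ.vs P := mem_sdiff.2 ⟨Bg_subset hq, hqP⟩
    obtain ⟨e, he, hel⟩ := ((hP.tree N rfl hqF).2 q
      (mem_inter.2 ⟨hq, mem_comp_self hqF⟩)).1
    obtain ⟨e1, e2, e3, e4, e5⟩ := hP.edge N rfl he
    have hpe : Γ.pe (Γ.comp (Y \ Γ.vs P) q) e = p :=
      hP.lev_inj N e5 e4 hpb hpP (by rw [hel, h])
    have hj := jn_pe (Γ := Γ) (Γ.comp (Y \ Γ.vs P) q) e
    rw [hpe] at hj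
    obtain ⟨w, hw⟩ : ∃ w, w = Γ.pi (Γ.comp (Y \ Γ.vs P) q) e := ⟨_, rfl⟩
    rw [← hw] at hj e3
    have hTs : Γ.comp (Y \ Γ.vs P) q ⊆ Y \ Γ.vs P := comp_subset _ _
    have hwP : w ∉ Γ.vs P := (mem_sdiff.1 (hTs e3)).2
    have hw1 : w ∈ Γ.ball p 1 := mem_ball_one hj.symm
    have hwb := (hp.mono (by norm_num : 1 ≤ 2)).big hw1
    have hl1 := N.lev_step hj e1
    have hl2 := N.lev_step hj.symm e1
    rcases Nat.lt_trichotomy (Γ.lev Y a b w) (Γ.lev Y a b p) with hlt | heq | hgt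
    · -- `w` one level below `p`
      obtain ⟨⟨y, f, hyj, hyP, hyv, hyl⟩, _⟩ := hP.nbrs N hpP (hp.mono (by norm_num))
      have hy1 : y ∈ Γ.ball p 1 := mem_ball_one hyj
      have hyb := (hp.mono (by norm_num : 1 ≤ 2)).big hy1
      have hqa : q ≠ a := fun h' => hqP (h' ▸ hP.a_mem N)
      obtain ⟨z, g, hgj, hgY, hgl⟩ := N.lev_pred hq hqa
      have hlev : ∀ z' ∈ Γ.Bg Y a b, Γ.lev Y a b z' = Γ.lev Y a b z → z' ∈ Γ.ball p 1 := by
        intro z' hz' hzl
        rcases N.two hz' hwb hyb (by omega) (by omega) with h1 | h1 | h1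
        · rw [h1]; exact hw1
        · rw [h1]; exact hy1
        · exact absurd (h1 ▸ hyv) hwP
      by_cases hz : z ∈ Γ.Bg Y a b
      · have h1 := hlev z hz rfl
        exact hgj.ball h1
      · exfalso
        obtain ⟨z', u, g', h1, h2, h3, h4, h5⟩ := N.lev_small (hgj.mem_EU.1 hgY).1 hz
        have h6 := hlev z' h1 h2
        exact h5 (hp.big (h3.ball h6))
    · have : w = q := hP.off_inj N hwb hwP hq hqP (by rw [heq, h])
      rw [← this]; exact Γ.ball_mono p (by norm_num) hw1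
    · -- `w` one level above `p`
      have hc : Γ.Conn (Γ.comp (Y \ Γ.vs P) q) := conn_comp hqF
      have hS1 : q ∈ (Γ.comp (Y \ Γ.vs P) q).filter
          (fun v => Γ.lev Y a b v ≤ Γ.lev Y a b p) := by
        rw [mem_filter]; exact ⟨mem_comp_self hqF, h.le⟩
      have hS2 : (Γ.comp (Y \ Γ.vs P) q).filter
          (fun v => Γ.lev Y a b v ≤ Γ.lev Y a b p) ≠ Γ.comp (Y \ Γ.vs P) q := by
        intro h'
        have h3 : w ∈ (Γ.comp (Y \ Γ.vs P) q).filter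
          (fun v => Γ.lev Y a b v ≤ Γ.lev Y a b p) := by rw [h']; exact e3
        rw [mem_filter] at h3
        omega
      obtain ⟨g, hg⟩ := hc.2 _ (Finset.filter_subset _ _) ⟨_, hS1⟩ hS2
      have fin : ∀ u v, Γ.jn g u v → u ∈ Γ.comp (Y \ Γ.vs P) q →
          v ∈ Γ.comp (Y \ Γ.vs P) q → Γ.lev Y a b u ≤ Γ.lev Y a b p →
          Γ.lev Y a b p < Γ.lev Y a b v → q ∈ Γ.ball p 2 := by
        intro u v hj' hu hv hul hvl
        have huY := mem_sdiff.1 (hTs hu)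
        have hvY := mem_sdiff.1 (hTs hv)
        obtain ⟨h3, h4, h5⟩ := N.cross hj' (hj'.mem_EU.2 ⟨huY.1, hvY.1⟩) hul hvl
        have h6 : v = w := hP.off_inj N h3 hvY.2 hwb hwP (by omega)
        rw [h6] at hj'
        have h7 : u ∈ Γ.ball p 2 := hj'.symm.ball hw1
        have h8 : u = q := hP.off_inj N (hp.big h7) huY.2 hq hqP (by omega)
        rw [← h8]; exact h7
      rw [Γ.mem_bt] at hg
      simp only [mem_sdiff, mem_filter, not_and, not_le] at hg
      rcases hg with ⟨⟨g1, g2⟩, g3, g4⟩ | ⟨⟨g1, g2⟩, g3, g4⟩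
      · exact fin _ _ (jn_st g) g1 g3 g2 (g4 g3)
      · exact fin _ _ (jn_st g).symm g3 g1 g4 (g2 g1)
  · -- `p` off the path, `q` on the path
    have hqP : q ∈ Γ.vs P := by
      by_contra hqP
      exact hqp (hP.off_inj N hq hqP hpb hpP h)
    obtain ⟨x, e, hj, hxP⟩ := hP.off_nbr N hpP (hp.mono (by norm_num))
    have hx1 : x ∈ Γ.ball p 1 := mem_ball_one hj
    have hxb := (hp.mono (by norm_num : 1 ≤ 2)).big hx1
    have heY := hp.edge (Γ.mem_ball_self p 2) hj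
    have hl1 := N.lev_step hj heY
    have hl2 := N.lev_step hj.symm heY
    obtain ⟨⟨y, f, hyj, hyP, hyv, hyl⟩, ⟨y', f', hyj', hyP', hyv', hyl'⟩⟩ :=
      hP.nbrs N hxP (hp.sub hx1 (by norm_num : 1 + 1 ≤ 2))
    have hy2 : y ∈ Γ.ball p 2 := hyj.ball hx1
    have hy2' : y' ∈ Γ.ball p 2 := hyj'.ball hx1
    rcases Nat.lt_trichotomy (Γ.lev Y a b x) (Γ.lev Y a b p) with hlt | heq | hgt
    · have : y' = q := hP.lev_inj N (hp.big hy2') hyv' hq hqP (by omega)
      rw [← this]; exact hy2'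
    · have : x = q := hP.lev_inj N hxb hxP hq hqP (by omega)
      rw [← this]; exact Γ.ball_mono p (by norm_num) hx1
    · have : y = q := hP.lev_inj N (hp.big hy2) hyv hq hqP (by omega)
      rw [← this]; exact hy2

end Cub

end Pool.Agent.Lib.MP_af4270_co
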