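import Pool.Agent.Lib.MP_af4270_co.CNet

/-!
# Part C: the path `P` meets every level in exactly one big vertex; darts off the path
-/

set_option autoImplicit false
set_option linter.unusedSectionVars false

namespace Pool.Agent.Lib.MP_af4270_co

open Finset

variable {V E : Type} [Fintype V] [DecidableEq V] [Fintype E] [DecidableEq E]

namespace Cub

variable {Γ : Cub V E}

theorem od_eq_card (R : E → ZMod 2) (x : V) : Γ.od R x = ((Γ.dR R x).card : ZMod 2) := by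
  have h : ∀ d ∈ Γ.dt x, R d.1 = if R d.1 ≠ 0 then 1 else 0 := by
    intro d _
    rcases zm_cases (R d.1) with a | a <;> simp [a]
  rw [od, Finset.sum_congr rfl h, dR, ← Finset.sum_filter]
  simp

theorem mem_vs_iff_dR {R : E → ZMod 2} {x : V} : x ∈ Γ.vs R ↔ 0 < (Γ.dR R x).card := by
  rw [Γ.mem_vs_iff_dart, Finset.card_pos]
  constructor
  · rintro ⟨d, hd, hR⟩
    exact ⟨d, Γ.mem_dR.2 ⟨Γ.mem_dt.1 hd, hR⟩⟩
  · rintro ⟨d, hd⟩
    rw [Γ.mem_dR] at hd
    exact ⟨d, Γ.mem_dt.2 hd.1, hd.2⟩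

theorem dg_le (Y : Finset V) (x : V) : Γ.dg Y x ≤ 3 := by
  rw [← Γ.card_dt x]; exact Finset.card_le_card (Finset.filter_subset _ _)

/-- darts at `x` inside `Y` which are not on `J` -/
def offd (Γ : Cub V E) (Y : Finset V) (J : E → ZMod 2) (x : V) : Finset (E × Bool) :=
  (Γ.dt x).filter (fun d => d.1 ∈ Γ.EU Y ∧ J d.1 = 0)

theorem mem_offd {Y : Finset V} {J : E → ZMod 2} {x : V} {d : E × Bool} :
    d ∈ Γ.offd Y J x ↔ Γ.tl d = x ∧ d.1 ∈ Γ.EU Y ∧ J d.1 = 0 := by simp [offd]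

theorem card_offd {Y : Finset V} {J : E → ZMod 2} (hJ : supp J ⊆ Γ.EU Y) (x : V) :
    (Γ.offd Y J x).card + (Γ.dR J x).card = Γ.dg Y x := by
  classical
  rw [← Finset.card_union_of_disjoint]
  · rw [dg]
    congr 1
    ext d
    rw [mem_union, mem_offd, Γ.mem_dR, mem_filter, Γ.mem_dt]
    constructor
    · rintro (⟨h1, h2, _⟩ | ⟨h1, h2⟩)
      · exact ⟨h1, h2⟩
      · exact ⟨h1, hJ (mem_supp.2 h2)⟩
    · rintro ⟨h1, h2⟩
      by_cases h3 : J d.1 = 0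
      · exact Or.inl ⟨h1, h2, h3⟩
      · exact Or.inr ⟨h1, h3⟩
  · rw [Finset.disjoint_left]
    intro d h1 h2
    rw [mem_offd] at h1
    rw [Γ.mem_dR] at h2
    exact h2.2 h1.2.2

/-- a join crosses every cut between the terminals -/
theorem Join.cross {Y : Finset V} {a b : V} {J : E → ZMod 2} (hJ : Γ.Join Y a b J)
    {U : Finset V} (ha : a ∈ U) (hb : b ∉ U) : ∃ e ∈ Γ.bd U, J e ≠ 0 := by
  by_contra hcon
  push Not at hcon
  have h := Γ.sum_inc U J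
  rw [Finset.sum_eq_zero hcon, zm_add_self, add_zero] at h
  have h1 : ∑ x ∈ U, ∑ d ∈ Γ.dt x, J d.1 = 1 := by
    have h2 : ∀ x ∈ U, ∑ d ∈ Γ.dt x, J d.1
        = (if x = a then (1 : ZMod 2) else 0) + (if x = b then 1 else 0) := fun x _ => hJ.2 x
    rw [Finset.sum_congr rfl h2, Finset.sum_add_distrib, Finset.sum_ite_eq', Finset.sum_ite_eq',
      if_pos ha, if_neg hb, add_zero]
  rw [h1] at h
  exact absurd h (by decide)

variable {Y : Finset V} {a b : V} {P : E → ZMod 2}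

theorem IsP.dR_a (hP : IsP Γ Y a b P) (N : Γ.Net Y a b) : (Γ.dR P a).card = 1 := by
  have h1 := card_offd hP.join.1 a
  have h2 := N.da
  have h3 := od_eq_card (Γ := Γ) P a
  rw [hP.join.2 a, if_pos rfl, if_neg N.ne, add_zero] at h3
  have h4 : (Γ.dR P a).card ≤ 2 := by omega
  interval_cases hh : (Γ.dR P a).card
  · exact absurd h3 (by decide)
  · rfl
  · exact absurd h3 (by decide)

theorem IsP.dR_b (hP : IsP Γ Y a b P) (N : Γ.Net Y a b) : (Γ.dR P b).card = 1 := by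
  have h1 := card_offd hP.join.1 b
  have h2 := N.db
  have h3 := od_eq_card (Γ := Γ) P b
  rw [hP.join.2 b, if_pos rfl, if_neg N.ne.symm, zero_add] at h3
  have h4 : (Γ.dR P b).card ≤ 2 := by omega
  interval_cases hh : (Γ.dR P b).card
  · exact absurd h3 (by decide)
  · rfl
  · exact absurd h3 (by decide)

theorem IsP.dR_other (hP : IsP Γ Y a b P) {x : V} (hx : x ∈ Γ.vs P) (ha : x ≠ a)
    (hb : x ≠ b) : (Γ.dR P x).card = 2 := by
  have h1 := card_offd hP.join.1 x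
  have h2 := dg_le (Γ := Γ) Y x
  have h3 := od_eq_card (Γ := Γ) P x
  rw [hP.join.2 x, if_neg ha, if_neg hb, add_zero] at h3
  have h4 : (Γ.dR P x).card ≤ 3 := by omega
  have h5 := mem_vs_iff_dR.1 hx
  interval_cases hh : (Γ.dR P x).card
  · exact absurd h3 (by decide)
  · rfl
  · exact absurd h3 (by decide)

theorem IsP.a_mem (hP : IsP Γ Y a b P) (N : Γ.Net Y a b) : a ∈ Γ.vs P := by
  rw [mem_vs_iff_dR, hP.dR_a N]; exact Nat.one_pos

theorem IsP.b_mem (hP : IsP Γ Y a b P) (N : Γ.Net Y a b) : b ∈ Γ.vs P := by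
  rw [mem_vs_iff_dR, hP.dR_b N]; exact Nat.one_pos

theorem IsP.vs_subset (hP : IsP Γ Y a b P) : Γ.vs P ⊆ Y :=
  Γ.supp_subset_EU_iff.1 hP.join.1

/-- at most one dart off the path at a vertex of the path -/
theorem IsP.offd_le (hP : IsP Γ Y a b P) (N : Γ.Net Y a b) {x : V} (hx : x ∈ Γ.vs P) :
    (Γ.offd Y P x).card ≤ 1 := by
  have h1 := card_offd hP.join.1 x
  have h2 := dg_le (Γ := Γ) Y x
  by_cases hxa : x = a
  · subst hxa
    have := hP.dR_a N
    have := N.da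
    omega
  · by_cases hxb : x = b
    · subst hxb
      have := hP.dR_b N
      have := N.db
      omega
    · have := hP.dR_other hx hxa hxb
      omega

/-- no dart off the path at a small vertex of the path -/
theorem IsP.offd_small (hP : IsP Γ Y a b P) (N : Γ.Net Y a b) {x : V} (hx : x ∈ Γ.vs P)
    (hs : x ∉ Γ.Bg Y a b) : Γ.offd Y P x = ∅ := by
  have h1 := card_offd hP.join.1 x
  rw [mem_Bg] at hs
  have hxY := hP.vs_subset hx
  have hs' : Γ.dg Y x ≠ 3 ∧ x ≠ a ∧ x ≠ b := by tauto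
  have h2 := hP.dR_other hx hs'.2.1 hs'.2.2
  have h3 := N.deg x hxY
  rw [← Finset.card_eq_zero]
  omega

/-- every level up to `lev b` contains a big vertex of the path -/
theorem IsP.exists_lev (hP : IsP Γ Y a b P) (N : Γ.Net Y a b) {i : ℕ}
    (hi : i ≤ Γ.lev Y a b b) : ∃ x ∈ Γ.Bg Y a b ∩ Γ.vs P, Γ.lev Y a b x = i := by
  rcases Nat.eq_zero_or_pos i with h0 | h0
  · exact ⟨a, mem_inter.2 ⟨N.a_big, hP.a_mem N⟩, by rw [lev_a, h0]⟩
  · obtain ⟨m, rfl⟩ : ∃ m, i = m + 1 := ⟨i - 1, by omega⟩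
    have haU : a ∈ Y.filter (fun v => Γ.lev Y a b v ≤ m) := by
      rw [mem_filter, lev_a]; exact ⟨N.ha, Nat.zero_le _⟩
    have hbU : b ∉ Y.filter (fun v => Γ.lev Y a b v ≤ m) := by
      rw [mem_filter]; rintro ⟨_, h⟩; omega
    obtain ⟨e, he, hne⟩ := hP.join.cross haU hbU
    have heY := hP.join.1 (mem_supp.2 hne)
    have heY' := Γ.mem_EU.1 heY
    rw [Γ.mem_bd, mem_filter, mem_filter] at he
    rcases he with ⟨h1, h2⟩ | ⟨h1, h2⟩
    · have h3 : m < Γ.lev Y a b (Γ.t e) := by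
        by_contra h; exact h2 ⟨heY'.2, by omega⟩
      obtain ⟨h4, h5, _⟩ := N.cross (jn_st e) heY h1.2 h3
      exact ⟨_, mem_inter.2 ⟨h4, Γ.t_mem_vs hne⟩, h5⟩
    · have h3 : m < Γ.lev Y a b (Γ.s e) := by
        by_contra h; exact h1 ⟨heY'.1, by omega⟩
      obtain ⟨h4, h5, _⟩ := N.cross (jn_st e).symm heY h2.2 h3
      exact ⟨_, mem_inter.2 ⟨h4, Γ.s_mem_vs hne⟩, h5⟩

theorem IsP.image_lev (hP : IsP Γ Y a b P) (N : Γ.Net Y a b) :
    (Γ.Bg Y a b ∩ Γ.vs P).image (Γ.lev Y a b) = range (Γ.lev Y a b b + 1) ∧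
      Set.InjOn (Γ.lev Y a b) (Γ.Bg Y a b ∩ Γ.vs P : Finset V) := by
  have h1 : range (Γ.lev Y a b b + 1) ⊆ (Γ.Bg Y a b ∩ Γ.vs P).image (Γ.lev Y a b) := by
    intro i hi
    rw [mem_range] at hi
    obtain ⟨x, hx, hl⟩ := hP.exists_lev N (Nat.lt_succ_iff.1 hi)
    exact mem_image.2 ⟨x, hx, hl⟩
  have h2 := Finset.card_image_le (s := Γ.Bg Y a b ∩ Γ.vs P) (f := Γ.lev Y a b)
  have h3 := Finset.card_le_card h1
  rw [card_range] at h3
  have h4 := hP.few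
  have h5 : ((Γ.Bg Y a b ∩ Γ.vs P).image (Γ.lev Y a b)).card
      = (Γ.Bg Y a b ∩ Γ.vs P).card := by omega
  refine ⟨?_, Finset.card_image_iff.1 h5⟩
  exact (Finset.eq_of_subset_of_card_le h1 (by rw [card_range]; omega)).symm

theorem IsP.lev_le_b (hP : IsP Γ Y a b P) (N : Γ.Net Y a b) {x : V}
    (hx : x ∈ Γ.Bg Y a b) (hx' : x ∈ Γ.vs P) : Γ.lev Y a b x ≤ Γ.lev Y a b b := by
  have h := (hP.image_lev N).1
  have h2 : Γ.lev Y a b x ∈ (Γ.Bg Y a b ∩ Γ.vs P).image (Γ.lev Y a b) :=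
    mem_image.2 ⟨x, mem_inter.2 ⟨hx, hx'⟩, rfl⟩
  rw [h, mem_range] at h2
  omega

theorem IsP.lev_inj (hP : IsP Γ Y a b P) (N : Γ.Net Y a b) {x y : V}
    (hx : x ∈ Γ.Bg Y a b) (hx' : x ∈ Γ.vs P) (hy : y ∈ Γ.Bg Y a b) (hy' : y ∈ Γ.vs P)
    (h : Γ.lev Y a b x = Γ.lev Y a b y) : x = y :=
  (hP.image_lev N).2 (by exact_mod_cast mem_inter.2 ⟨hx, hx'⟩)
    (by exact_mod_cast mem_inter.2 ⟨hy, hy'⟩) h

/-- there is no cycle off the path -/
theorem IsP.acyclic (hP : IsP Γ Y a b P) (N : Γ.Net Y a b) {D : E → ZMod 2} (hD : D ∈ Γ.Z)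
    (hs : supp D ⊆ Γ.EU (Y \ Γ.vs P)) : D = 0 := by
  by_contra h0
  have hdis : ∀ e, D e ≠ 0 → P e = 0 := by
    intro e he
    by_contra hc
    have h1 := Γ.mem_EU.1 (hs (mem_supp.2 he))
    exact (mem_sdiff.1 h1.1).2 (Γ.s_mem_vs hc)
  have hJ : Γ.Join Y a b (P + D) := by
    refine ⟨?_, fun z => ?_⟩
    · intro e he
      by_cases h : P e = 0
      · have h2 : D e ≠ 0 := by
          intro h3
          rw [mem_supp, Pi.add_apply, h, h3] at he
          simp at he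
        exact Γ.EU_mono Finset.sdiff_subset (hs (mem_supp.2 h2))
      · exact hP.join.1 (mem_supp.2 h)
    · rw [od_add, hP.join.2, (Γ.mem_Z_iff_od.1 hD) z, add_zero]
  refine N.lossless _ hJ D hD h0 ?_
  intro e he
  have h1 := mem_supp.1 he
  rw [mem_supp, Pi.add_apply, hdis e h1, zero_add]
  exact h1

end Cub

end Pool.Agent.Lib.MP_af4270_co
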