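import Pool.Agent.Lib.MP_af4270_co.CPath

/-!
# Part C: components off the path; every level contains at most two big vertices
-/

set_option autoImplicit false
set_option linter.unusedSectionVars false

namespace Pool.Agent.Lib.MP_af4270_co

open Finset

variable {V E : Type} [Fintype V] [DecidableEq V] [Fintype E] [DecidableEq E]

theorem interval_lemma (A B : Finset ℕ) (k : ℕ) (hA : A.card = k + 2) (hB : B.card ≤ k)
    (h : ∀ i ∈ A, ∀ j ∈ A, ∀ m, i < m → m < j → m ∈ B) :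
    B.card = k ∧ ∀ m ∈ B, m ∈ A ∧ m + 1 ∈ A ∧ ∃ m' ∈ A, m' + 1 = m := by
  have hne : A.Nonempty := by rw [← Finset.card_pos]; omega
  obtain ⟨lo, hlo⟩ : ∃ lo, lo = A.min' hne := ⟨_, rfl⟩
  obtain ⟨hi, hhi⟩ : ∃ hi, hi = A.max' hne := ⟨_, rfl⟩
  have h1 : lo ∈ A := hlo ▸ A.min'_mem hne
  have h2 : hi ∈ A := hhi ▸ A.max'_mem hne
  have h3 : A ⊆ Finset.Icc lo hi := by
    intro x hx
    rw [Finset.mem_Icc, hlo, hhi]
    exact ⟨A.min'_le x hx, A.le_max' x hx⟩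
  have h4 : Finset.Ioo lo hi ⊆ B := by
    intro m hm
    rw [Finset.mem_Ioo] at hm
    exact h lo h1 hi h2 m hm.1 hm.2
  have h5 := Finset.card_le_card h3
  have h6 := Finset.card_le_card h4
  rw [Nat.card_Icc] at h5
  rw [Nat.card_Ioo] at h6
  have h7 : A = Finset.Icc lo hi := Finset.eq_of_subset_of_card_le h3 (by rw [Nat.card_Icc]; omega)
  have h8 : Finset.Ioo lo hi = B := Finset.eq_of_subset_of_card_le h4 (by rw [Nat.card_Ioo]; omega)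
  refine ⟨by omega, fun m hm => ?_⟩
  rw [← h8, Finset.mem_Ioo] at hm
  rw [h7]
  refine ⟨?_, ?_, m - 1, ?_, by omega⟩ <;> rw [Finset.mem_Icc] <;> omega

namespace Cub

variable {Γ : Cub V E}

/-- the end outside `T` of an edge leaving `T` -/
def pe (Γ : Cub V E) (T : Finset V) (e : E) : V := if Γ.s e ∈ T then Γ.t e else Γ.s e

/-- the end inside `T` of an edge leaving `T` -/
def pi (Γ : Cub V E) (T : Finset V) (e : E) : V := if Γ.s e ∈ T then Γ.s e else Γ.t e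

theorem jn_pe (T : Finset V) (e : E) : Γ.jn e (Γ.pi T e) (Γ.pe T e) := by
  unfold pe pi
  by_cases h : Γ.s e ∈ T
  · rw [if_pos h, if_pos h]; exact jn_st e
  · rw [if_neg h, if_neg h]; exact (jn_st e).symm

theorem pi_mem {T W : Finset V} {e : E} (he : e ∈ Γ.bt T W) : Γ.pi T e ∈ T := by
  unfold pi
  rw [Γ.mem_bt] at he
  by_cases h : Γ.s e ∈ T
  · rw [if_pos h]; exact h
  · rw [if_neg h]; tauto

theorem pe_mem {T W : Finset V} {e : E} (he : e ∈ Γ.bt T W) (hd : Disjoint T W) :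
    Γ.pe T e ∈ W := by
  unfold pe
  rw [Γ.mem_bt] at he
  rw [Finset.disjoint_left] at hd
  by_cases h : Γ.s e ∈ T
  · rw [if_pos h]
    rcases he with he | he
    · exact he.2
    · exact absurd he.1 (hd h)
  · rw [if_neg h]
    rcases he with he | he
    · exact absurd he.1 h
    · exact he.1

/-- an acyclic connected set is a tree -/
theorem tree_card {T : Finset V} (hT : Γ.Conn T)
    (hac : ∀ D ∈ Γ.Z, supp D ⊆ Γ.EU T → D = 0) : (Γ.EU T).card + 1 = T.card := by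
  classical
  have h := Γ.card_ZU hT
  have h1 : Γ.cn (Γ.EU T) (fun _ => True) = 1 := by
    rw [cn, Finset.card_eq_one]
    refine ⟨0, ?_⟩
    ext R
    rw [mem_singleton]
    constructor
    · intro hR
      have h2 := ((@Finset.mem_filter _ _ (_) _ _).1 hR).2.1
      rw [Γ.mem_ZB] at h2
      exact hac R h2.1 h2.2
    · rintro rfl
      exact (@Finset.mem_filter _ _ (_) _ _).2 ⟨mem_univ _, (Γ.ZB _).zero_mem, trivial⟩
  rw [h1, one_mul] at h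
  have h2 := Nat.pow_right_injective (le_refl 2) h
  have h3 : 0 < T.card := Finset.card_pos.2 hT.1
  omega

variable {Y : Finset V} {a b : V} {P : E → ZMod 2}

/-- number of edges leaving a component off the path -/
theorem IsP.card_bt (hP : IsP Γ Y a b P) (N : Γ.Net Y a b) {T : Finset V} (hT : Γ.Conn T)
    (hTs : T ⊆ Y \ Γ.vs P) :
    (Γ.bt T (Y \ T)).card = (Γ.Bg Y a b ∩ T).card + 2 := by
  classical
  have hTY : T ⊆ Y := hTs.trans Finset.sdiff_subset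
  have h1 := tree_card hT (fun D hD hs => hP.acyclic N hD (hs.trans (Γ.EU_mono hTs)))
  have h2 := Γ.sum_inc T (fun e => if e ∈ Γ.EU Y then 1 else 0)
  have h3 : ∑ x ∈ T, ∑ d ∈ Γ.dt x, (if d.1 ∈ Γ.EU Y then 1 else 0) = ∑ x ∈ T, Γ.dg Y x := by
    refine Finset.sum_congr rfl fun x _ => ?_
    rw [dg, Finset.card_filter]
  have h4 : ∀ x ∈ T, Γ.dg Y x = 2 + (if x ∈ Γ.Bg Y a b then 1 else 0) := by
    intro x hx
    have hxs := mem_sdiff.1 (hTs hx)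
    have hxa : x ≠ a := fun h => hxs.2 (h ▸ hP.a_mem N)
    have hxb : x ≠ b := fun h => hxs.2 (h ▸ hP.b_mem N)
    have hd := N.deg x hxs.1
    by_cases hb : x ∈ Γ.Bg Y a b
    · rw [if_pos hb]
      rw [mem_Bg] at hb
      have := hb.2
      have : Γ.dg Y x = 3 := by tauto
      omega
    · rw [if_neg hb]
      rw [mem_Bg] at hb
      have : Γ.dg Y x ≠ 3 := by tauto
      omega
  have h5 : ∑ e ∈ Γ.bd T, (if e ∈ Γ.EU Y then 1 else 0) = (Γ.bt T (Y \ T)).card := by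
    rw [Finset.sum_boole]
    simp only [Nat.cast_id]
    congr 1
    ext e
    rw [mem_filter, Γ.mem_bd, Γ.mem_bt, Γ.mem_EU]
    simp only [mem_sdiff]
    constructor
    · rintro ⟨h | h, h'⟩
      · exact Or.inl ⟨h.1, h'.2, h.2⟩
      · exact Or.inr ⟨⟨h'.1, h.1⟩, h.2⟩
    · rintro (h | h)
      · exact ⟨Or.inl ⟨h.1, h.2.2⟩, hTY h.1, h.2.1⟩
      · exact ⟨Or.inr ⟨h.1.2, h.2⟩, h.1.1, hTY h.2⟩
  have h6 : ∑ e ∈ Γ.EU T, (if e ∈ Γ.EU Y then 1 else 0) = (Γ.EU T).card := by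
    rw [Finset.sum_boole]
    simp only [Nat.cast_id]
    congr 1
    exact Finset.filter_true_of_mem fun e he => Γ.EU_mono hTY he
  rw [h3, Finset.sum_congr rfl h4, h5, h6, Finset.sum_add_distrib, Finset.sum_const,
    Finset.sum_boole] at h2
  simp only [Nat.cast_id, smul_eq_mul] at h2
  have h7 : T.filter (fun x => x ∈ Γ.Bg Y a b) = Γ.Bg Y a b ∩ T := by
    ext x; rw [mem_filter, mem_inter]; tauto
  rw [h7] at h2
  omega

/-- the edges leaving a component off the path -/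
theorem IsP.edge (hP : IsP Γ Y a b P) (N : Γ.Net Y a b) {q : V} {T : Finset V}
    (hT : T = Γ.comp (Y \ Γ.vs P) q) {e : E} (he : e ∈ Γ.bt T (Y \ T)) :
    e ∈ Γ.EU Y ∧ P e = 0 ∧ Γ.pi T e ∈ T ∧ Γ.pe T e ∈ Γ.vs P ∧ Γ.pe T e ∈ Γ.Bg Y a b := by
  have hTs : T ⊆ Y \ Γ.vs P := by rw [hT]; exact comp_subset _ _
  have hdis : Disjoint T (Y \ T) := disjoint_sdiff
  have h1 := pi_mem he
  have h2 := pe_mem he hdis
  have hj := jn_pe (Γ := Γ) T e
  have heY : e ∈ Γ.EU Y := hj.mem_EU.2 ⟨(mem_sdiff.1 (hTs h1)).1, (mem_sdiff.1 h2).1⟩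
  have h3 : Γ.pe T e ∈ Γ.vs P := by
    by_contra h
    have h4 : Γ.pe T e ∈ Y \ Γ.vs P := mem_sdiff.2 ⟨(mem_sdiff.1 h2).1, h⟩
    have hcl : Γ.Cl (Y \ Γ.vs P) T := by rw [hT]; exact comp_cl _ _
    rw [cl_iff] at hcl
    have h5 := hcl e
    apply (mem_sdiff.1 h2).2
    rcases hj with ⟨j1, j2⟩ | ⟨j1, j2⟩
    · rw [← j2]; exact h5.1 (by rw [j1]; exact h1) (by rw [j2]; exact h4)
    · rw [← j1]; exact h5.2 (by rw [j2]; exact h1) (by rw [j1]; exact h4)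
  have h4 : P e = 0 := by
    by_contra h
    have h5 : Γ.pi T e ∈ Γ.vs P := by
      rcases hj with ⟨j1, _⟩ | ⟨_, j2⟩
      · rw [← j1]; exact Γ.s_mem_vs h
      · rw [← j2]; exact Γ.t_mem_vs h
    exact (mem_sdiff.1 (hTs h1)).2 h5
  refine ⟨heY, h4, h1, h3, ?_⟩
  by_contra hs
  have h5 := hP.offd_small N h3 hs
  obtain ⟨bb, hbb⟩ := Γ.mem_inc_iff_dart.1 hj.symm.mem_inc
  have h6 : (e, bb) ∈ Γ.offd Y P (Γ.pe T e) := mem_offd.2 ⟨Γ.mem_dt.1 hbb, heY, h4⟩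
  rw [h5] at h6
  simp at h6

/-- two edges off the path at the same vertex of the path are equal -/
theorem IsP.off_unique (hP : IsP Γ Y a b P) (N : Γ.Net Y a b) {x u v : V} {e f : E}
    (hx : x ∈ Γ.vs P) (he : Γ.jn e x u) (hf : Γ.jn f x v) (heY : e ∈ Γ.EU Y)
    (hfY : f ∈ Γ.EU Y) (hPe : P e = 0) (hPf : P f = 0) : e = f := by
  obtain ⟨b1, h1⟩ := Γ.mem_inc_iff_dart.1 he.mem_inc
  obtain ⟨b2, h2⟩ := Γ.mem_inc_iff_dart.1 hf.mem_inc
  have h3 : (e, b1) ∈ Γ.offd Y P x := mem_offd.2 ⟨Γ.mem_dt.1 h1, heY, hPe⟩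
  have h4 : (f, b2) ∈ Γ.offd Y P x := mem_offd.2 ⟨Γ.mem_dt.1 h2, hfY, hPf⟩
  have h5 := Finset.card_le_one.1 (hP.offd_le N hx) _ h3 _ h4
  exact congrArg Prod.fst h5

/-- levels between two attachments occur in the component -/
theorem IsP.between (hP : IsP Γ Y a b P) (N : Γ.Net Y a b) {q : V} {T : Finset V}
    (hT : T = Γ.comp (Y \ Γ.vs P) q) (hc : Γ.Conn T) {e f : E} (he : e ∈ Γ.bt T (Y \ T))
    (hf : f ∈ Γ.bt T (Y \ T)) {m : ℕ} (h1 : Γ.lev Y a b (Γ.pe T e) < m)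
    (h2 : m < Γ.lev Y a b (Γ.pe T f)) : ∃ v ∈ Γ.Bg Y a b ∩ T, Γ.lev Y a b v = m := by
  obtain ⟨heY, _, he1, _, _⟩ := hP.edge N hT he
  obtain ⟨hfY, _, hf1, _, _⟩ := hP.edge N hT hf
  have hTY : T ⊆ Y := by
    rw [hT]; exact (comp_subset _ _).trans Finset.sdiff_subset
  obtain ⟨m', rfl⟩ : ∃ m', m = m' + 1 := ⟨m - 1, by omega⟩
  by_cases hw : m' < Γ.lev Y a b (Γ.pi T e)
  · obtain ⟨h3, h4, _⟩ := N.cross (jn_pe T e).symm heY (by omega) hw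
    exact ⟨_, mem_inter.2 ⟨h3, he1⟩, h4⟩
  · have hw2 : m' + 1 ≤ Γ.lev Y a b (Γ.pi T f) := by
      have := N.lev_step (jn_pe T f) hfY
      omega
    have hS1 : Γ.pi T e ∈ T.filter (fun v => Γ.lev Y a b v ≤ m') := by
      rw [mem_filter]; exact ⟨he1, by omega⟩
    have hS2 : T.filter (fun v => Γ.lev Y a b v ≤ m') ≠ T := by
      intro h
      have h3 : Γ.pi T f ∈ T.filter (fun v => Γ.lev Y a b v ≤ m') := by rw [h]; exact hf1
      rw [mem_filter] at h3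
      omega
    obtain ⟨g, hg⟩ := hc.2 _ (Finset.filter_subset _ _) ⟨_, hS1⟩ hS2
    rw [Γ.mem_bt] at hg
    simp only [mem_sdiff, mem_filter, not_and, not_le] at hg
    rcases hg with ⟨⟨g1, g2⟩, g3, g4⟩ | ⟨⟨g1, g2⟩, g3, g4⟩
    · obtain ⟨h3, h4, _⟩ := N.cross (jn_st g) ((jn_st g).mem_EU.2 ⟨hTY g1, hTY g3⟩) g2 (g4 g3)
      exact ⟨_, mem_inter.2 ⟨h3, g3⟩, h4⟩
    · obtain ⟨h3, h4, _⟩ := N.cross (jn_st g).symm ((jn_st g).mem_EU.2 ⟨hTY g1, hTY g3⟩) g4 (g2 g1)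
      exact ⟨_, mem_inter.2 ⟨h3, g1⟩, h4⟩

/-- structure of a component off the path: its big vertices have distinct levels; and for a big
vertex of level `i` there are attachments at the levels `i - 1`, `i`, `i + 1` -/
theorem IsP.tree (hP : IsP Γ Y a b P) (N : Γ.Net Y a b) {q : V} {T : Finset V}
    (hT : T = Γ.comp (Y \ Γ.vs P) q) (hq : q ∈ Y \ Γ.vs P) :
    Set.InjOn (Γ.lev Y a b) (Γ.Bg Y a b ∩ T : Finset V) ∧
    ∀ x ∈ Γ.Bg Y a b ∩ T,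
      (∃ e ∈ Γ.bt T (Y \ T), Γ.lev Y a b (Γ.pe T e) = Γ.lev Y a b x) ∧
      (∃ e ∈ Γ.bt T (Y \ T), Γ.lev Y a b (Γ.pe T e) = Γ.lev Y a b x + 1) ∧
      (∃ e ∈ Γ.bt T (Y \ T), Γ.lev Y a b (Γ.pe T e) + 1 = Γ.lev Y a b x) := by
  classical
  have hc : Γ.Conn T := by rw [hT]; exact conn_comp hq
  have hTs : T ⊆ Y \ Γ.vs P := by rw [hT]; exact comp_subset _ _
  have hcard := hP.card_bt N hc hTs
  -- the attachments have distinct levels
  have hinj : Set.InjOn (fun e => Γ.lev Y a b (Γ.pe T e)) (Γ.bt T (Y \ T) : Finset E) := by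
    intro e he f hf hef
    have he' : e ∈ Γ.bt T (Y \ T) := he
    have hf' : f ∈ Γ.bt T (Y \ T) := hf
    obtain ⟨e1, e2, e3, e4, e5⟩ := hP.edge N hT he'
    obtain ⟨f1, f2, f3, f4, f5⟩ := hP.edge N hT hf'
    have h1 : Γ.pe T e = Γ.pe T f := hP.lev_inj N e5 e4 f5 f4 hef
    have h2 := (jn_pe (Γ := Γ) T e).symm
    have h3 := (jn_pe (Γ := Γ) T f).symm
    rw [← h1] at h3
    exact hP.off_unique N e4 h2 h3 e1 f1 e2 f2
  have hA : ((Γ.bt T (Y \ T)).image (fun e => Γ.lev Y a b (Γ.pe T e))).card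
      = (Γ.Bg Y a b ∩ T).card + 2 := by
    rw [Finset.card_image_of_injOn hinj, hcard]
  have hB : ((Γ.Bg Y a b ∩ T).image (Γ.lev Y a b)).card ≤ (Γ.Bg Y a b ∩ T).card :=
    Finset.card_image_le
  obtain ⟨h1, h2⟩ := interval_lemma _ _ _ hA hB (by
    intro i hi j hj m him hmj
    obtain ⟨e, he, rfl⟩ := mem_image.1 hi
    obtain ⟨f, hf, rfl⟩ := mem_image.1 hj
    obtain ⟨v, hv, hl⟩ := hP.between N hT hc he hf him hmj
    exact mem_image.2 ⟨v, hv, hl⟩)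
  refine ⟨Finset.card_image_iff.1 h1, fun x hx => ?_⟩
  obtain ⟨h3, h4, m', h5, h6⟩ := h2 _ (mem_image.2 ⟨x, hx, rfl⟩)
  refine ⟨mem_image.1 h3, mem_image.1 h4, ?_⟩
  obtain ⟨e, he, he'⟩ := mem_image.1 h5
  exact ⟨e, he, by rw [← h6]; simpa using he'⟩

/-- two big vertices off the path have different levels -/
theorem IsP.off_inj (hP : IsP Γ Y a b P) (N : Γ.Net Y a b) {x y : V}
    (hx : x ∈ Γ.Bg Y a b) (hx' : x ∉ Γ.vs P) (hy : y ∈ Γ.Bg Y a b) (hy' : y ∉ Γ.vs P)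
    (h : Γ.lev Y a b x = Γ.lev Y a b y) : x = y := by
  have hxF : x ∈ Y \ Γ.vs P := mem_sdiff.2 ⟨Bg_subset hx, hx'⟩
  have hyF : y ∈ Y \ Γ.vs P := mem_sdiff.2 ⟨Bg_subset hy, hy'⟩
  by_cases hc : y ∈ Γ.comp (Y \ Γ.vs P) x
  · have h1 := (hP.tree N rfl hxF).1
    refine h1 ?_ ?_ h
    · exact_mod_cast mem_inter.2 ⟨hx, mem_comp_self hxF⟩
    · exact_mod_cast mem_inter.2 ⟨hy, hc⟩
  · exfalso
    have hdis := comp_disjoint hxF hyF hc
    obtain ⟨e, he, hel⟩ := ((hP.tree N rfl hxF).2 x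
      (mem_inter.2 ⟨hx, mem_comp_self hxF⟩)).1
    obtain ⟨f, hf, hfl⟩ := ((hP.tree N rfl hyF).2 y
      (mem_inter.2 ⟨hy, mem_comp_self hyF⟩)).1
    obtain ⟨e1, e2, e3, e4, e5⟩ := hP.edge N rfl he
    obtain ⟨f1, f2, f3, f4, f5⟩ := hP.edge N rfl hf
    have h1 := hP.lev_inj N e5 e4 f5 f4 (by rw [hel, hfl, h])
    have h2 := (jn_pe (Γ := Γ) (Γ.comp (Y \ Γ.vs P) x) e).symm
    have h3 := (jn_pe (Γ := Γ) (Γ.comp (Y \ Γ.vs P) y) f).symm
    have h4 : e = f := by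
      rw [← h1] at h3
      exact hP.off_unique N e4 h2 h3 e1 f1 e2 f2
    -- the inner ends coincide
    rw [h4] at e3 e4
    have h5 := jn_pe (Γ := Γ) (Γ.comp (Y \ Γ.vs P) x) f
    have h6 := jn_pe (Γ := Γ) (Γ.comp (Y \ Γ.vs P) y) f
    rw [Finset.disjoint_left] at hdis
    have hTy : Γ.comp (Y \ Γ.vs P) y ⊆ Y \ Γ.vs P := comp_subset _ _
    have hTx : Γ.comp (Y \ Γ.vs P) x ⊆ Y \ Γ.vs P := comp_subset _ _
    have h7 : Γ.pi (Γ.comp (Y \ Γ.vs P) x) f ≠ Γ.pi (Γ.comp (Y \ Γ.vs P) y) f := by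
      intro h8
      rw [h8] at e3
      exact hdis e3 f3
    have h8 : Γ.pi (Γ.comp (Y \ Γ.vs P) x) f = Γ.pe (Γ.comp (Y \ Γ.vs P) y) f := by
      rcases h5 with ⟨a1, a2⟩ | ⟨a1, a2⟩ <;> rcases h6 with ⟨b1, b2⟩ | ⟨b1, b2⟩
      · exact absurd (a1.symm.trans b1) h7
      · exact a1.symm.trans b1
      · exact a2.symm.trans b2
      · exact absurd (a2.symm.trans b2) h7
    rw [h8] at e3
    exact (mem_sdiff.1 (hTx e3)).2 f4

/-- every level contains at most two big vertices -/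
theorem Net.two (N : Γ.Net Y a b) {x y z : V} (hx : x ∈ Γ.Bg Y a b) (hy : y ∈ Γ.Bg Y a b)
    (hz : z ∈ Γ.Bg Y a b) (hxy : Γ.lev Y a b x = Γ.lev Y a b y)
    (hxz : Γ.lev Y a b x = Γ.lev Y a b z) : x = y ∨ x = z ∨ y = z := by
  obtain ⟨P, hP⟩ := N.exists_P
  have hyz : Γ.lev Y a b y = Γ.lev Y a b z := hxy.symm.trans hxz
  by_cases h1 : x ∈ Γ.vs P <;> by_cases h2 : y ∈ Γ.vs P <;> by_cases h3 : z ∈ Γ.vs P
  · exact Or.inl (hP.lev_inj N hx h1 hy h2 hxy)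
  · exact Or.inl (hP.lev_inj N hx h1 hy h2 hxy)
  · exact Or.inr (Or.inl (hP.lev_inj N hx h1 hz h3 hxz))
  · exact Or.inr (Or.inr (hP.off_inj N hy h2 hz h3 hyz))
  · exact Or.inr (Or.inr (hP.lev_inj N hy h2 hz h3 hyz))
  · exact Or.inr (Or.inl (hP.off_inj N hx h1 hz h3 hxz))
  · exact Or.inl (hP.off_inj N hx h1 hy h2 hxy)
  · exact Or.inl (hP.off_inj N hx h1 hy h2 hxy)

/-- big vertices have level at most `lev b` -/
theorem Net.lev_le_b (N : Γ.Net Y a b) {x : V} (hx : x ∈ Γ.Bg Y a b) :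
    Γ.lev Y a b x ≤ Γ.lev Y a b b := by
  obtain ⟨P, hP⟩ := N.exists_P
  by_cases h : x ∈ Γ.vs P
  · exact hP.lev_le_b N hx h
  · have hxF : x ∈ Y \ Γ.vs P := mem_sdiff.2 ⟨Bg_subset hx, h⟩
    obtain ⟨e, he, hel⟩ := ((hP.tree N rfl hxF).2 x
      (mem_inter.2 ⟨hx, mem_comp_self hxF⟩)).1
    obtain ⟨e1, e2, e3, e4, e5⟩ := hP.edge N rfl he
    rw [← hel]
    exact hP.lev_le_b N e5 e4

end Cub

end Pool.Agent.Lib.MP_af4270_co
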