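import Pool.Agent.Lib.MP_af4270_co.Basic

/-!
# Connected sets and components
-/

set_option autoImplicit false
set_option linter.unusedSectionVars false

namespace Pool.Agent.Lib.MP_af4270_co

open Finset

variable {V E : Type} [Fintype V] [DecidableEq V] [Fintype E] [DecidableEq E]

namespace Cub

variable (Γ : Cub V E)

theorem bt_mono {U U' W W' : Finset V} (h : U ⊆ U') (h' : W ⊆ W') : Γ.bt U W ⊆ Γ.bt U' W' := by
  intro e he
  rw [mem_bt] at he ⊢
  rcases he with ⟨a, b⟩ | ⟨a, b⟩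
  · exact Or.inl ⟨h a, h' b⟩
  · exact Or.inr ⟨h' a, h b⟩

/-- `S` is closed in `U` -/
def Cl (U S : Finset V) : Prop := Γ.bt S (U \ S) = ∅

variable {Γ}

theorem cl_iff {U S : Finset V} : Γ.Cl U S ↔
    ∀ e, (Γ.s e ∈ S → Γ.t e ∈ U → Γ.t e ∈ S) ∧ (Γ.t e ∈ S → Γ.s e ∈ U → Γ.s e ∈ S) := by
  unfold Cl
  rw [Finset.eq_empty_iff_forall_notMem]
  refine forall_congr' fun e => ?_
  rw [mem_bt]
  simp only [mem_sdiff]
  tauto

theorem cl_empty (U : Finset V) : Γ.Cl U ∅ := by rw [cl_iff]; simp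

theorem cl_self (U : Finset V) : Γ.Cl U U := by rw [cl_iff]; tauto

theorem cl_inter {U S T : Finset V} (hS : Γ.Cl U S) (hT : Γ.Cl U T) : Γ.Cl U (S ∩ T) := by
  rw [cl_iff] at *
  intro e
  have h1 := hS e
  have h2 := hT e
  simp only [mem_inter]
  tauto

theorem cl_union {U S T : Finset V} (hS : Γ.Cl U S) (hT : Γ.Cl U T) : Γ.Cl U (S ∪ T) := by
  rw [cl_iff] at *
  intro e
  have h1 := hS e
  have h2 := hT e
  simp only [mem_union]
  tauto

theorem cl_sdiff {U S : Finset V} (hS : Γ.Cl U S) : Γ.Cl U (U \ S) := by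
  rw [cl_iff] at *
  intro e
  have h1 := hS e
  simp only [mem_sdiff]
  tauto

/-- a connected set inside `U` meeting a closed set lies in it -/
theorem Conn.subset_of_cl {U S T : Finset V} (hT : Γ.Conn T) (hTU : T ⊆ U) (hS : Γ.Cl U S)
    (h : (T ∩ S).Nonempty) : T ⊆ S := by
  by_contra hc
  have h1 : T ∩ S ≠ T := fun h => hc (Finset.inter_eq_left.1 h)
  obtain ⟨e, he⟩ := hT.2 (T ∩ S) Finset.inter_subset_left h h1
  rw [mem_bt] at he
  rw [cl_iff] at hS
  have h2 := hS e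
  simp only [mem_inter, mem_sdiff, not_and] at he
  rcases he with ⟨⟨a, b⟩, c, d⟩ | ⟨⟨a, b⟩, c, d⟩
  · exact d c (h2.1 b (hTU c))
  · exact b a (h2.2 d (hTU a))

theorem mem_comp {U : Finset V} {x y : V} :
    y ∈ Γ.comp U x ↔ y ∈ U ∧ ∀ S ⊆ U, x ∈ S → Γ.Cl U S → y ∈ S := by
  simp [comp, Cl]

theorem comp_subset (U : Finset V) (x : V) : Γ.comp U x ⊆ U := by
  intro y hy; exact (mem_comp.1 hy).1

theorem mem_comp_self {U : Finset V} {x : V} (hx : x ∈ U) : x ∈ Γ.comp U x :=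
  mem_comp.2 ⟨hx, fun _ _ h _ => h⟩

theorem comp_min {U S : Finset V} {x : V} (hS : S ⊆ U) (hx : x ∈ S) (hc : Γ.Cl U S) :
    Γ.comp U x ⊆ S := by
  intro y hy; exact (mem_comp.1 hy).2 S hS hx hc

theorem comp_cl (U : Finset V) (x : V) : Γ.Cl U (Γ.comp U x) := by
  rw [cl_iff]
  intro e
  constructor
  · intro h1 h2
    rw [mem_comp] at h1 ⊢
    refine ⟨h2, fun S hS hx hc => ?_⟩
    exact ((cl_iff.1 hc) e).1 (h1.2 S hS hx hc) h2
  · intro h1 h2
    rw [mem_comp] at h1 ⊢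
    refine ⟨h2, fun S hS hx hc => ?_⟩
    exact ((cl_iff.1 hc) e).2 (h1.2 S hS hx hc) h2

theorem conn_comp {U : Finset V} {x : V} (hx : x ∈ U) : Γ.Conn (Γ.comp U x) := by
  refine ⟨⟨x, mem_comp_self hx⟩, fun S hS h0 h1 => ?_⟩
  by_contra hcon
  rw [Finset.not_nonempty_iff_eq_empty] at hcon
  -- `S` and its complement are closed in `U`
  have hSU : S ⊆ U := hS.trans (comp_subset U x)
  have hcl : Γ.Cl U S := by
    rw [cl_iff]
    intro e
    have h2 := (cl_iff.1 (comp_cl (Γ := Γ) U x)) e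
    have h3 : e ∉ Γ.bt S (Γ.comp U x \ S) := by rw [hcon]; simp
    rw [mem_bt] at h3
    simp only [mem_sdiff] at h3
    constructor
    · intro a b
      by_contra c
      exact h3 (Or.inl ⟨a, h2.1 (hS a) b, c⟩)
    · intro a b
      by_contra c
      exact h3 (Or.inr ⟨⟨h2.2 (hS a) b, c⟩, a⟩)
  by_cases hxS : x ∈ S
  · exact h1 (Finset.Subset.antisymm hS (comp_min hSU hxS hcl))
  · have h4 : Γ.comp U x ⊆ U \ S :=
      comp_min Finset.sdiff_subset (mem_sdiff.2 ⟨hx, hxS⟩) (cl_sdiff hcl)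
    obtain ⟨y, hy⟩ := h0
    exact (mem_sdiff.1 (h4 (hS hy))).2 hy

theorem conn_subset_comp {U S : Finset V} {x : V} (hS : Γ.Conn S) (hSU : S ⊆ U) (hx : x ∈ S) :
    S ⊆ Γ.comp U x :=
  hS.subset_of_cl hSU (comp_cl U x) ⟨x, mem_inter.2 ⟨hx, mem_comp_self (hSU hx)⟩⟩

theorem comp_eq {U : Finset V} {x y : V} (hx : x ∈ U) (hy : y ∈ Γ.comp U x) :
    Γ.comp U y = Γ.comp U x := by
  refine Finset.Subset.antisymm (comp_min (comp_subset U x) hy (comp_cl U x)) ?_
  exact conn_subset_comp (conn_comp hx) (comp_subset U x) hy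

theorem mem_comp_comm {U : Finset V} {x y : V} (hx : x ∈ U) (hy : y ∈ Γ.comp U x) :
    x ∈ Γ.comp U y := by
  rw [comp_eq hx hy]; exact mem_comp_self hx

theorem Conn.comp_eq_self {U : Finset V} {x : V} (hU : Γ.Conn U) (hx : x ∈ U) :
    Γ.comp U x = U :=
  Finset.Subset.antisymm (comp_subset U x) (conn_subset_comp hU (Finset.Subset.refl U) hx)

theorem comp_mono {U U' : Finset V} {x : V} (h : U ⊆ U') (hx : x ∈ U) :
    Γ.comp U x ⊆ Γ.comp U' x :=
  conn_subset_comp (conn_comp hx) ((comp_subset U x).trans h) (mem_comp_self hx)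

theorem conn_singleton (x : V) : Γ.Conn {x} := by
  refine ⟨⟨x, mem_singleton_self x⟩, fun S hS h0 h1 => ?_⟩
  exfalso
  rcases Finset.subset_singleton_iff.1 hS with h | h
  · rw [h] at h0; simp at h0
  · exact h1 h

/-- the union of two connected sets which meet or are adjacent is connected -/
theorem Conn.union {S T : Finset V} (hS : Γ.Conn S) (hT : Γ.Conn T)
    (h : (S ∩ T).Nonempty ∨ (Γ.bt S T).Nonempty) : Γ.Conn (S ∪ T) := by
  refine ⟨hS.1.mono Finset.subset_union_left, fun A hA h0 h1 => ?_⟩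
  by_contra hcon
  rw [Finset.not_nonempty_iff_eq_empty] at hcon
  have hcl : Γ.Cl (S ∪ T) A := hcon
  have key : ∀ {B : Finset V}, B ⊆ S ∪ T → Γ.Cl (S ∪ T) B → B.Nonempty → B = S ∪ T := by
    intro B hB hBc hBn
    have hST : (B ∩ S).Nonempty ↔ (B ∩ T).Nonempty := by
      constructor
      · intro h2
        have h3 : S ⊆ B := hS.subset_of_cl Finset.subset_union_left hBc
          (by rwa [Finset.inter_comm])
        rcases h with ⟨x, hx⟩ | ⟨e, he⟩
        · rw [mem_inter] at hx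
          exact ⟨x, mem_inter.2 ⟨h3 hx.1, hx.2⟩⟩
        · rw [mem_bt] at he
          have h4 := (cl_iff.1 hBc) e
          rcases he with ⟨a, b⟩ | ⟨a, b⟩
          · exact ⟨_, mem_inter.2 ⟨h4.1 (h3 a) (mem_union_right _ b), b⟩⟩
          · exact ⟨_, mem_inter.2 ⟨h4.2 (h3 b) (mem_union_right _ a), a⟩⟩
      · intro h2
        have h3 : T ⊆ B := hT.subset_of_cl Finset.subset_union_right hBc
          (by rwa [Finset.inter_comm])
        rcases h with ⟨x, hx⟩ | ⟨e, he⟩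
        · rw [mem_inter] at hx
          exact ⟨x, mem_inter.2 ⟨h3 hx.2, hx.1⟩⟩
        · rw [mem_bt] at he
          have h4 := (cl_iff.1 hBc) e
          rcases he with ⟨a, b⟩ | ⟨a, b⟩
          · exact ⟨_, mem_inter.2 ⟨h4.2 (h3 b) (mem_union_left _ a), a⟩⟩
          · exact ⟨_, mem_inter.2 ⟨h4.1 (h3 a) (mem_union_left _ b), b⟩⟩
    have hBS : (B ∩ S).Nonempty := by
      obtain ⟨x, hx⟩ := hBn
      rcases mem_union.1 (hB hx) with h5 | h5
      · exact ⟨x, mem_inter.2 ⟨hx, h5⟩⟩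
      · exact hST.2 ⟨x, mem_inter.2 ⟨hx, h5⟩⟩
    have h6 : S ⊆ B := hS.subset_of_cl Finset.subset_union_left hBc (by rwa [Finset.inter_comm])
    have h7 : T ⊆ B := hT.subset_of_cl Finset.subset_union_right hBc
      (by rw [Finset.inter_comm]; exact hST.1 hBS)
    exact Finset.Subset.antisymm hB (Finset.union_subset h6 h7)
  exact h1 (key hA hcl h0)

/-- closed sets in a connected set are trivial -/
theorem Conn.cl_eq {U S : Finset V} (hU : Γ.Conn U) (hS : S ⊆ U) (hc : Γ.Cl U S)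
    (h0 : S.Nonempty) : S = U := by
  by_contra h1
  obtain ⟨e, he⟩ := hU.2 S hS h0 h1
  rw [Cl] at hc
  rw [hc] at he
  simp at he

theorem mem_comp_iff_conn {U : Finset V} {x y : V} (hx : x ∈ U) :
    y ∈ Γ.comp U x ↔ ∃ S ⊆ U, Γ.Conn S ∧ x ∈ S ∧ y ∈ S := by
  constructor
  · intro h
    exact ⟨_, comp_subset U x, conn_comp hx, mem_comp_self hx, h⟩
  · rintro ⟨S, hS, hc, h1, h2⟩
    exact conn_subset_comp hc hS h1 h2

/-- two closed sets, components: distinct components are disjoint -/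
theorem comp_disjoint {U : Finset V} {x y : V} (hx : x ∈ U) (hy : y ∈ U)
    (h : y ∉ Γ.comp U x) : Disjoint (Γ.comp U x) (Γ.comp U y) := by
  rw [Finset.disjoint_left]
  intro z hz hz'
  apply h
  rw [← comp_eq hx hz, comp_eq hy hz']
  exact mem_comp_self hy

end Cub

end Pool.Agent.Lib.MP_af4270_co
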