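import Pool.Agent.Lib.MP_af4270_co.CNear

/-!
# PAN-D2: vertices of a set without short cycles which have a cycle nearby are close to the boundary
-/

set_option autoImplicit false
set_option linter.unusedSectionVars false

namespace Pool.Agent.Lib.MP_af4270_co

open Finset

variable {V E : Type} [Fintype V] [DecidableEq V] [Fintype E] [DecidableEq E]

namespace Cub

variable {Γ : Cub V E}

theorem ball_symm {x y : V} {m : ℕ} (h : y ∈ Γ.ball x m) : x ∈ Γ.ball y m := by
  induction m generalizing y with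
  | zero =>
    have : y = x := by simpa [ball] using h
    rw [this]; exact Γ.mem_ball_self x 0
  | succ m ih =>
    rcases Γ.ball_succ_iff.1 h with h | ⟨z, hz, e, he⟩
    · exact Γ.ball_mono y (Nat.le_succ m) (ih h)
    · have h1 := ih hz
      have hj : Γ.jn e y z := by
        rcases he with h | h
        · exact Or.inr h
        · exact Or.inl h
      have h2 := Γ.ball_trans (mem_ball_one hj) m h1
      rw [Nat.add_comm] at h2
      exact h2

/-- a ball around a vertex of `A` which leaves `A` contains the inner end of a boundary edge -/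
theorem exists_bd_of_ball {A : Finset V} {x y : V} {m : ℕ} (hx : x ∈ A) (hy : y ∈ Γ.ball x m)
    (hyA : y ∉ A) : ∃ u v e, Γ.jn e u v ∧ u ∈ A ∧ v ∉ A ∧ u ∈ Γ.ball x m := by
  induction m generalizing y with
  | zero =>
    have : y = x := by simpa [ball] using hy
    exact absurd (this ▸ hx) hyA
  | succ m ih =>
    rcases Γ.ball_succ_iff.1 hy with h | ⟨z, hz, e, he⟩
    · obtain ⟨u, v, e, h1, h2, h3, h4⟩ := ih h hyA
      exact ⟨u, v, e, h1, h2, h3, Γ.ball_mono x (Nat.le_succ m) h4⟩
    · by_cases hzA : z ∈ A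
      · have hj : Γ.jn e z y := by
          rcases he with h | h
          · exact Or.inl h
          · exact Or.inr h
        exact ⟨z, y, e, hj, hzA, hyA, Γ.ball_mono x (Nat.le_succ m) hz⟩
      · obtain ⟨u, v, e, h1, h2, h3, h4⟩ := ih hz hzA
        exact ⟨u, v, e, h1, h2, h3, Γ.ball_mono x (Nat.le_succ m) h4⟩

theorem card_near (A : Finset V) (m : ℕ) :
    (A.filter (fun x => ¬ Γ.ball x m ⊆ A)).card ≤ (Γ.bd A).card * 4 ^ m := by
  have h1 : A.filter (fun x => ¬ Γ.ball x m ⊆ A) ⊆
      (Γ.bd A).biUnion (fun e => Γ.ball (if Γ.s e ∈ A then Γ.s e else Γ.t e) m) := by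
    intro x hx
    rw [mem_filter] at hx
    obtain ⟨hxA, hx⟩ := hx
    rw [Finset.not_subset] at hx
    obtain ⟨y, hy, hyA⟩ := hx
    obtain ⟨u, v, e, hj, hu, hv, hb⟩ := exists_bd_of_ball hxA hy hyA
    rw [mem_biUnion]
    refine ⟨e, ?_, ?_⟩
    · rw [Γ.mem_bd]
      rcases hj with ⟨j1, j2⟩ | ⟨j1, j2⟩
      · rw [j1, j2]; exact Or.inl ⟨hu, hv⟩
      · rw [j1, j2]; exact Or.inr ⟨hv, hu⟩
    · have h2 : (if Γ.s e ∈ A then Γ.s e else Γ.t e) = u := by
        rcases hj with ⟨j1, j2⟩ | ⟨j1, j2⟩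
        · rw [j1, if_pos hu]
        · rw [j1, if_neg hv, j2]
      rw [h2]
      exact ball_symm hb
  refine (Finset.card_le_card h1).trans (Finset.card_biUnion_le_card_mul _ _ _ ?_)
  intro e _
  exact Γ.card_ball_le _ m

/-- a set without short cycles consists of vertices without a cycle nearby and of vertices close
to the boundary -/
theorem card_le_of_free {A : Finset V} {ℓ : ℕ} (hf : Γ.Free ℓ A) (hℓ : 2 * 4 ^ 20 ≤ ℓ)
    (U : Finset V) (hU : ∀ x, x ∉ U → ∃ D ∈ Γ.Z, D ≠ 0 ∧ supp D ⊆ Γ.EU (Γ.ball x 20)) :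
    A.card ≤ U.card + (Γ.bd A).card * 4 ^ 20 := by
  have h1 : A ⊆ U ∪ A.filter (fun x => ¬ Γ.ball x 20 ⊆ A) := by
    intro x hx
    rw [mem_union, mem_filter]
    by_cases hxU : x ∈ U
    · exact Or.inl hxU
    · right
      refine ⟨hx, fun hb => ?_⟩
      obtain ⟨D, hD, h0, hs⟩ := hU x hxU
      have h2 := hf D hD h0 (hs.trans (Γ.EU_mono hb))
      have h3 := Finset.card_le_card hs
      have h4 := Γ.card_bd_add (Γ.ball x 20)
      have h5 := Γ.card_ball_le x 20
      omega
  calc A.card ≤ (U ∪ A.filter (fun x => ¬ Γ.ball x 20 ⊆ A)).card := Finset.card_le_card h1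
    _ ≤ U.card + (A.filter (fun x => ¬ Γ.ball x 20 ⊆ A)).card := Finset.card_union_le _ _
    _ ≤ _ := Nat.add_le_add_left (card_near A 20) _

end Cub

end Pool.Agent.Lib.MP_af4270_co
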