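import Pool.Agent.Lib.MP_af4270_co.DBall
import Pool.Agent.Lib.MP_af4270_co.AFinal
import Pool.Agent.Lib.MP_af4270_co.BCount

/-!
# PAN-D3: (H1) follows from Part A

If `U` contains all vertices without a cycle nearby and `|U| ≤ 2 ^ 2 ^ b`, then a set without
cycles of length at most `ℓ`, where `ℓ` is about `48 b`, has a large boundary.
-/

set_option autoImplicit false
set_option linter.unusedSectionVars false

namespace Pool.Agent.Lib.MP_af4270_co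

open Finset

variable {V E : Type} [Fintype V] [DecidableEq V] [Fintype E] [DecidableEq E]

namespace Cub

variable {Γ : Cub V E}

theorem Free.mono {ℓ : ℕ} {A B : Finset V} (h : Γ.Free ℓ A) (hBA : B ⊆ A) : Γ.Free ℓ B :=
  fun D hD h0 hs => h D hD h0 (hs.trans (Γ.EU_mono hBA))

theorem exists_min_bd {A : Finset V} (hne : A.Nonempty) (hb : (Γ.bd A).card ^ 2 ≤ A.card) :
    ∃ B ⊆ A, B.Nonempty ∧ (Γ.bd B).card ^ 2 ≤ B.card ∧
      ∀ S ⊆ B, S.Nonempty → S ≠ B → S.card < (Γ.bd S).card ^ 2 := by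
  obtain ⟨B, hB, hmin⟩ := Finset.exists_min_image
    (A.powerset.filter (fun B => B.Nonempty ∧ (Γ.bd B).card ^ 2 ≤ B.card)) Finset.card
    ⟨A, mem_filter.2 ⟨mem_powerset.2 (Finset.Subset.refl A), hne, hb⟩⟩
  rw [mem_filter, mem_powerset] at hB
  refine ⟨B, hB.1, hB.2.1, hB.2.2, fun S hS hSn hSne => ?_⟩
  by_contra hcon
  push Not at hcon
  have h1 := hmin S (mem_filter.2 ⟨mem_powerset.2 (hS.trans hB.1), hSn, hcon⟩)
  exact hSne (Finset.eq_of_subset_of_card_le hS h1)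

theorem cn_true_posD : 0 < Γ.cn univ (fun _ => True) := by
  classical
  rw [cn, Finset.card_pos]
  exact ⟨0, (@Finset.mem_filter _ _ (_) _ _).2 ⟨mem_univ _, Submodule.zero_mem _, trivial⟩⟩

theorem H1_of {w ℓ b : ℕ} (hΓ : Γ.Conn univ)
    (hw : Γ.cn univ (fun _ => True) ≤ 2 ^ w * Γ.cn univ Γ.Single) (U : Finset V)
    (hU : ∀ x, x ∉ U → ∃ D ∈ Γ.Z, D ≠ 0 ∧ supp D ⊆ Γ.EU (Γ.ball x 20))
    (hUb : U.card ≤ 2 ^ 2 ^ b) (hb : 7 ≤ b) (hℓ : 2 * 4 ^ 20 ≤ ℓ)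
    (hℓ' : 24 * (36 * 2 ^ (w + 4) + 2 * b + 8) + 20 ≤ ℓ) : Γ.H1 ℓ := by
  intro A₀ hne hfree
  by_contra hcon
  push Not at hcon
  obtain ⟨A, hAA, hAne, hAb, hAmin⟩ := exists_min_bd hne hcon
  have hAf : Γ.Free ℓ A := hfree.mono hAA
  have hcard := card_le_of_free hAf hℓ U hU
  -- size of `A`
  have hb2 : (2 : ℕ) ^ 7 ≤ 2 ^ b := Nat.pow_le_pow_right (by norm_num) hb
  have hbig : (4 : ℕ) ^ 42 ≤ 2 ^ 2 ^ b := by
    have h1 : (4 : ℕ) ^ 42 ≤ 2 ^ 128 := by norm_num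
    exact h1.trans (Nat.pow_le_pow_right (by norm_num) hb2)
  have hA : A.card ≤ 2 * 2 ^ 2 ^ b := by
    by_contra hA
    push Not at hA
    generalize (2 : ℕ) ^ 2 ^ b = N at *
    generalize (Γ.bd A).card = p at *
    have h1 : A.card < 2 * (p * 4 ^ 20) := by omega
    have h2 : A.card * A.card < 4 * 4 ^ 40 * A.card := by
      calc A.card * A.card < (2 * (p * 4 ^ 20)) * (2 * (p * 4 ^ 20)) :=
            Nat.mul_lt_mul'' h1 h1
        _ = 4 * 4 ^ 40 * p ^ 2 := by ring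
        _ ≤ 4 * 4 ^ 40 * A.card := Nat.mul_le_mul_left _ hAb
    have h3 : A.card < 4 * 4 ^ 40 := Nat.lt_of_mul_lt_mul_right h2
    omega
  -- Part A
  have hyp : HypA Γ A ℓ (36 * 2 ^ (w + 4) + 2 * b + 8) (2 ^ (18 * 2 ^ (w + 4)) * (2 ^ b + 4))
      (2 ^ (w + 4)) (2 ^ b + 4) := by
    refine ⟨hΓ, hAne, hAb, hAmin, hAf, ?_, ?_, rfl, ?_, hℓ'⟩
    · have : (2 : ℕ) ^ 1 ≤ 2 ^ (w + 4) := Nat.pow_le_pow_right (by norm_num) (by omega)
      simpa using this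
    · rw [pow_add]; omega
    · have h1 : 2 ^ b + 4 ≤ 2 ^ (b + 1) := by rw [pow_succ]; omega
      calc 64 * (2 ^ (18 * 2 ^ (w + 4)) * (2 ^ b + 4)) ^ 2
          ≤ 64 * (2 ^ (18 * 2 ^ (w + 4)) * 2 ^ (b + 1)) ^ 2 := by gcongr
        _ = 2 ^ (36 * 2 ^ (w + 4) + 2 * b + 8) := by
          rw [mul_pow, ← pow_mul, ← pow_mul, show (64 : ℕ) = 2 ^ 6 by norm_num, ← pow_add,
            ← pow_add]
          congr 1; ring
  have h1 := partA hyp
  have h2 := cn_true_posD (Γ := Γ)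
  have h3 : 2 ^ (w + 4) = 16 * 2 ^ w := by rw [pow_add]; ring
  rw [h3] at h1
  generalize (2 : ℕ) ^ w = m at *
  generalize Γ.cn univ Γ.Single = c at *
  generalize Γ.cn univ (fun _ => True) = z at *
  have h4 : 16 * (m * c) ≤ 8 * z := by rw [← mul_assoc]; exact h1
  omega

end Cub

end Pool.Agent.Lib.MP_af4270_co
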