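import Pool.Agent.Lib.MP_af4270_co.DGuard
import Pool.Agent.Lib.MP_af4270_co.DMin

/-!
# PAN-D4: the number of unguarded vertices

Every vertex which is not guarded by a rare functional is on an exceptional cycle or in the set `A`
of all vertices which are on no cycle of the family and in no middle part of a good window. The
boundary edges of `A` end on exceptional cycles, and `A` has no short cycles.
-/

set_option autoImplicit false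
set_option linter.unusedSectionVars false

namespace Pool.Agent.Lib.MP_af4270_co

open Finset

variable {V E : Type} [Fintype V] [DecidableEq V] [Fintype E] [DecidableEq E]

namespace Cub

variable {Γ : Cub V E}

theorem exists_jn_of_bd {A : Finset V} {e : E} (he : e ∈ Γ.bd A) :
    ∃ x y, Γ.jn e x y ∧ x ∈ A ∧ y ∉ A := by
  rw [Γ.mem_bd] at he
  rcases he with ⟨h1, h2⟩ | ⟨h1, h2⟩
  · exact ⟨_, _, jn_st e, h1, h2⟩
  · exact ⟨_, _, (jn_st e).symm, h2, h1⟩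

theorem mem_bd_of_jn {A : Finset V} {e : E} {x y : V} (hj : Γ.jn e x y) (hx : x ∈ A)
    (hy : y ∉ A) : e ∈ Γ.bd A := by
  rw [Γ.mem_bd]
  rcases hj with ⟨j1, j2⟩ | ⟨j1, j2⟩
  · rw [j1, j2]; exact Or.inl ⟨hx, hy⟩
  · rw [j1, j2]; exact Or.inr ⟨hy, hx⟩

theorem mem_bt_of_jn {A B : Finset V} {e : E} {x y : V} (hj : Γ.jn e x y) (hx : x ∈ A)
    (hy : y ∈ B) : e ∈ Γ.bt A B := by
  rw [Γ.mem_bt]
  rcases hj with ⟨j1, j2⟩ | ⟨j1, j2⟩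
  · rw [j1, j2]; exact Or.inl ⟨hx, hy⟩
  · rw [j1, j2]; exact Or.inr ⟨hy, hx⟩

theorem mem_touch_of_jn {A : Finset V} {e : E} {x y : V} (hj : Γ.jn e x y)
    (h : e ∈ Γ.touch A) : x ∈ A ∨ y ∈ A := by
  rw [Γ.mem_touch] at h
  rcases hj with ⟨j1, j2⟩ | ⟨j1, j2⟩
  · rwa [j1, j2] at h
  · rw [j1, j2] at h; exact h.symm

/-- `x` is in the middle part of a good window -/
def Mid (Γ : Cub V E) (ℓ : ℕ) (𝒟 : Finset (E → ZMod 2)) (q : ℕ) (x : V) : Prop :=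
  ∃ S : Strip Γ ℓ 60, (∀ i ≤ 60, S.C i ∈ 𝒟) ∧ Γ.Rare q (Γ.bt (S.X 0) (S.X 1)) ∧
    ¬ Γ.BadW ((range 61).biUnion S.X) ∧ ∃ i, 29 ≤ i ∧ i ≤ 31 ∧ x ∈ S.X i

theorem Mid.guard {ℓ q : ℕ} {𝒟 : Finset (E → ZMod 2)} {x : V} (h : Mid Γ ℓ 𝒟 q x) :
    ∃ v, Γ.Rare q v ∧ Γ.Guard v x := by
  obtain ⟨S, _, hr, hb, i, h1, h2, hx⟩ := h
  exact ⟨_, hr, S.guard_mid hb (by omega) (by omega) hx⟩

theorem Fine.mid {ℓ q : ℕ} {𝒟 : Finset (E → ZMod 2)} {C : E → ZMod 2} (h : Γ.Fine ℓ 𝒟 q C)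
    {e : E} {x y : V} (hj : Γ.jn e x y) (hy : y ∈ Γ.vs C) : Mid Γ ℓ 𝒟 q x := by
  obtain ⟨S, hC, hmem, hr, hb⟩ := h
  have hy' : y ∈ S.X 30 := S.sub 30 (by norm_num) (by rw [hC]; exact hy)
  refine ⟨S, hmem, hr, hb, ?_⟩
  rcases S.step (by norm_num) (by norm_num) hy' hj.symm with h | h | h
  · exact ⟨29, by norm_num, by norm_num, h⟩
  · exact ⟨30, by norm_num, by norm_num, h⟩
  · exact ⟨31, by norm_num, by norm_num, h⟩

theorem Fine.mid_self {ℓ q : ℕ} {𝒟 : Finset (E → ZMod 2)} {C : E → ZMod 2}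
    (h : Γ.Fine ℓ 𝒟 q C) {x : V} (hx : x ∈ Γ.vs C) : Mid Γ ℓ 𝒟 q x := by
  obtain ⟨S, hC, hmem, hr, hb⟩ := h
  exact ⟨S, hmem, hr, hb, 30, by norm_num, by norm_num,
    S.sub 30 (by norm_num) (by rw [hC]; exact hx)⟩

/-- a vertex off the family next to a middle vertex off the family is a middle vertex -/
theorem Mid.step {ℓ q : ℕ} {𝒟 : Finset (E → ZMod 2)} {x y : V} {e : E}
    (h : Mid Γ ℓ 𝒟 q y) (hj : Γ.jn e x y) (hx : x ∉ 𝒟.biUnion Γ.vs)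
    (hy : y ∉ 𝒟.biUnion Γ.vs) : Mid Γ ℓ 𝒟 q x := by
  obtain ⟨S, hmem, hr, hb, i, h1, h2, hyi⟩ := h
  have hoff : ∀ j ≤ 60, x ∉ Γ.vs (S.C j) ∧ y ∉ Γ.vs (S.C j) := fun j hj' =>
    ⟨fun h => hx (mem_biUnion.2 ⟨_, hmem j hj', h⟩),
      fun h => hy (mem_biUnion.2 ⟨_, hmem j hj', h⟩)⟩
  rcases S.step (by omega) (by omega) hyi hj.symm with h | h | h
  · exfalso
    have h3 := S.left (i - 1) (by omega)
    rw [show i - 1 + 1 = i by omega] at h3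
    rcases mem_touch_of_jn hj (h3 (mem_bt_of_jn hj h hyi)) with h4 | h4
    · exact (hoff i (by omega)).1 h4
    · exact (hoff i (by omega)).2 h4
  · exact ⟨S, hmem, hr, hb, i, h1, h2, h⟩
  · exfalso
    have h3 := S.left i (by omega)
    rcases mem_touch_of_jn hj.symm (h3 (mem_bt_of_jn hj.symm hyi h)) with h4 | h4
    · exact (hoff (i + 1) (by omega)).2 h4
    · exact (hoff (i + 1) (by omega)).1 h4

theorem card_le_of_fine {ℓ q : ℕ} (H1 : Γ.H1 ℓ) {𝒟 Ex : Finset (E → ZMod 2)}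
    (hs : ∀ C ∈ 𝒟, Γ.Single C) (hl : ∀ C ∈ 𝒟, (supp C).card ≤ ℓ)
    (hfree : Γ.Free ℓ (univ \ 𝒟.biUnion Γ.vs)) (hEx : Ex ⊆ 𝒟)
    (hfine : ∀ C ∈ 𝒟, C ∉ Ex → Γ.Fine ℓ 𝒟 q C) (U : Finset V)
    (hU : ∀ x ∈ U, ¬ ∃ v, Γ.Rare q v ∧ Γ.Guard v x) :
    U.card ≤ ℓ * Ex.card + (ℓ * Ex.card) ^ 2 := by
  classical
  obtain ⟨A, hA⟩ : ∃ A : Finset V, ∀ x, x ∈ A ↔
      x ∉ 𝒟.biUnion Γ.vs ∧ ¬ Mid Γ ℓ 𝒟 q x :=
    ⟨univ.filter (fun x => x ∉ 𝒟.biUnion Γ.vs ∧ ¬ Mid Γ ℓ 𝒟 q x), fun x => by simp⟩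
  have hUA : U ⊆ Ex.biUnion Γ.vs ∪ A := by
    intro x hx
    rw [mem_union]
    have hm : ¬ Mid Γ ℓ 𝒟 q x := fun h => hU x hx h.guard
    by_cases hP : x ∈ 𝒟.biUnion Γ.vs
    · left
      obtain ⟨C, hC, hxC⟩ := mem_biUnion.1 hP
      refine mem_biUnion.2 ⟨C, ?_, hxC⟩
      by_contra hCE
      exact hm ((hfine C hC hCE).mid_self hxC)
    · exact Or.inr ((hA x).2 ⟨hP, hm⟩)
  have h1 : (Ex.biUnion Γ.vs).card ≤ Ex.card * ℓ := by
    refine Finset.card_biUnion_le_card_mul _ _ _ fun C hC => ?_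
    rw [Γ.card_vs (hs C (hEx hC)).mem]
    exact hl C (hEx hC)
  have hbd : Γ.bd A ⊆ Ex.biUnion (fun C => Γ.bd (Γ.vs C)) := by
    intro e he
    obtain ⟨x, y, hj, hx, hy⟩ := exists_jn_of_bd he
    rw [hA] at hx hy
    by_cases hP : y ∈ 𝒟.biUnion Γ.vs
    · obtain ⟨C, hC, hyC⟩ := mem_biUnion.1 hP
      refine mem_biUnion.2 ⟨C, ?_, mem_bd_of_jn hj.symm hyC fun h =>
        hx.1 (mem_biUnion.2 ⟨C, hC, h⟩)⟩
      by_contra hCE
      exact hx.2 ((hfine C hC hCE).mid hj hyC)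
    · exfalso
      have hm : Mid Γ ℓ 𝒟 q y := by
        by_contra hm
        exact hy ⟨hP, hm⟩
      exact hx.2 (hm.step hj hx.1 hP)
  have h2 : (Γ.bd A).card ≤ Ex.card * ℓ :=
    (Finset.card_le_card hbd).trans (Finset.card_biUnion_le_card_mul _ _ _ fun C hC =>
      (Γ.card_bd_single (hs C (hEx hC))).trans (hl C (hEx hC)))
  have h3 : A.card ≤ (ℓ * Ex.card) ^ 2 := by
    rcases A.eq_empty_or_nonempty with h | h
    · rw [h]; simp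
    · have h4 := H1 A h (hfree.mono fun x hx => by
        rw [mem_sdiff]; exact ⟨mem_univ _, ((hA x).1 hx).1⟩)
      refine h4.le.trans ?_
      rw [Nat.mul_comm ℓ]
      exact Nat.pow_le_pow_left h2 2
  calc U.card ≤ (Ex.biUnion Γ.vs ∪ A).card := Finset.card_le_card hUA
    _ ≤ (Ex.biUnion Γ.vs).card + A.card := Finset.card_union_le _ _
    _ ≤ ℓ * Ex.card + (ℓ * Ex.card) ^ 2 := by
      rw [Nat.mul_comm ℓ] at h3 ⊢
      exact Nat.add_le_add h1 h3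

end Cub

end Pool.Agent.Lib.MP_af4270_co
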