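import Pool.Agent.Lib.MP_af4270_co.Guard

/-!
# Part E: general finite multigraphs, scales, iterated logarithm (definitions)
-/

set_option autoImplicit false
set_option linter.unusedSectionVars false
set_option linter.unusedVariables false

namespace Pool.Agent.Lib.MP_af4270_co

open Finset

/-- finite multigraph: loops, parallel edges and all degrees allowed -/
structure GM (V E : Type) where
  /-- first end -/
  s : E → V
  /-- second end -/
  t : E → V

variable {V E : Type} [Fintype V] [DecidableEq V] [Fintype E] [DecidableEq E]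

/-- weight of an edge set -/
def wt (ω : E → ℕ) (R : E → ZMod 2) : ℕ := ∑ e ∈ supp R, ω e

/-- forget the edges in `B` -/
def off (B : Finset E) (R : E → ZMod 2) : E → ZMod 2 := fun e => if e ∈ B then 0 else R e

/-- span of `D 0, ..., D (i-1)` -/
def spn (D : ℕ → (E → ZMod 2)) (i : ℕ) : Submodule (ZMod 2) (E → ZMod 2) :=
  Submodule.span (ZMod 2) (D '' {j | j < i})

/-- union of the supports of `D 0, ..., D (i-1)` -/
def BB (D : ℕ → (E → ZMod 2)) (i : ℕ) : Finset E := (range i).biUnion (fun j => supp (D j))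

namespace GM

variable (H : GM V E)

/-- tail of a dart -/
def tl (d : E × Bool) : V := if d.2 then H.t d.1 else H.s d.1

/-- the darts leaving a vertex -/
def dt (x : V) : Finset (E × Bool) := univ.filter (fun d => H.tl d = x)

/-- degree (a loop counts twice) -/
def deg (x : V) : ℕ := (H.dt x).card

/-- the space of even edge sets -/
def Z : Submodule (ZMod 2) (E → ZMod 2) where
  carrier := {R | ∀ x, ∑ d ∈ H.dt x, R d.1 = 0}
  zero_mem' := by intro x; simp
  add_mem' := by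
    intro a b ha hb x
    have h1 : ∑ d ∈ H.dt x, a d.1 = 0 := ha x
    have h2 : ∑ d ∈ H.dt x, b d.1 = 0 := hb x
    simp [Finset.sum_add_distrib, h1, h2]
  smul_mem' := by
    intro c a ha x
    have h1 : ∑ d ∈ H.dt x, a d.1 = 0 := ha x
    simp [← Finset.mul_sum, h1]

/-- even edge sets contained in `B` -/
def ZB (B : Finset E) : Submodule (ZMod 2) (E → ZMod 2) where
  carrier := {R | R ∈ H.Z ∧ ∀ e, e ∉ B → R e = 0}
  zero_mem' := ⟨H.Z.zero_mem, fun _ _ => rfl⟩
  add_mem' := by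
    intro a b ha hb
    exact ⟨H.Z.add_mem ha.1 hb.1, fun e he => by simp [ha.2 e he, hb.2 e he]⟩
  smul_mem' := by
    intro c a ha
    exact ⟨H.Z.smul_mem c ha.1, fun e he => by simp [ha.2 e he]⟩

/-- dimension of `ZB B` -/
noncomputable def rk (B : Finset E) : ℕ := Module.finrank (ZMod 2) (H.ZB B)

/-- minimal nonzero even edge set -/
def Single (R : E → ZMod 2) : Prop :=
  R ∈ H.Z ∧ R ≠ 0 ∧ ∀ D ∈ H.Z, D ≠ 0 → supp D ⊆ supp R → D = R

/-- vertices met by an edge set -/
def vs (R : E → ZMod 2) : Finset V := univ.filter (fun x => ∃ d ∈ H.dt x, R d.1 ≠ 0)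

/-- vertices on edges of `B` -/
def vB (B : Finset E) : Finset V := univ.filter (fun x => ∃ d ∈ H.dt x, d.1 ∈ B)

/-- degree in `B` -/
def dB (B : Finset E) (x : V) : ℕ := ((H.dt x).filter (fun d => d.1 ∈ B)).card

open Classical in
/-- number of even edge sets inside `B` with property `φ` -/
noncomputable def cn (B : Finset E) (φ : (E → ZMod 2) → Prop) : ℕ :=
  (univ.filter (fun R => R ∈ H.ZB B ∧ φ R)).card

/-- connected: every cut has an edge -/
def Conn : Prop :=
  Nonempty V ∧ ∀ S : Finset V, S.Nonempty → S ≠ univ →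
    ∃ e, (H.s e ∈ S ∧ H.t e ∉ S) ∨ (H.s e ∉ S ∧ H.t e ∈ S)

/-- the system of cycles of a pancyclic graph: `Cy` = cycles -/
structure Sys (Cy : (E → ZMod 2) → Prop) (n : ℕ) : Prop where
  loopless : ∀ e, H.s e ≠ H.t e
  sgl : ∀ R, Cy R → H.Single R
  two : ∀ R, Cy R → ∀ x, ((H.dt x).filter (fun d => R d.1 ≠ 0)).card ≤ 2
  pan : ∀ ℓ, 3 ≤ ℓ → ℓ ≤ n → ∃ R, Cy R ∧ (supp R).card = ℓ

/-- a scale: edge set `B` covered by its cycles, containing cycles of all lengths `< T` -/
structure Scale (Cy : (E → ZMod 2) → Prop) (B : Finset E) (T : ℕ) : Prop where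
  len : ∀ ℓ, 3 ≤ ℓ → ℓ < T → ∃ R, Cy R ∧ R ∈ H.ZB B ∧ (supp R).card = ℓ
  cov : ∀ e ∈ B, ∃ R, Cy R ∧ R ∈ H.ZB B ∧ R e ≠ 0

end GM

/-- greedy sequence of cycles: `D i` is a shortest cycle outside the span of `D 0, ..., D (i-1)` -/
structure Gr (Cy : (E → ZMod 2) → Prop) (D : ℕ → (E → ZMod 2)) (n : ℕ) : Prop where
  cy : ∀ i, 2 ^ i + 2 ≤ n → Cy (D i)
  ind : ∀ i, 2 ^ i + 2 ≤ n → D i ∉ spn D i
  low : ∀ i, 2 ^ i + 2 ≤ n → ∀ R, Cy R → (supp R).card < (supp (D i)).card → R ∈ spn D i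

open Classical in
/-- Theorem D (structure theorem) as a statement -/
def StructD : Prop :=
  ∀ (V E : Type) [Fintype V] [DecidableEq V] [Fintype E] [DecidableEq E] (Γ : Cub V E),
    Γ.Conn univ → ∀ w : ℕ, Γ.cn univ (fun _ => True) ≤ 2 ^ w * Γ.cn univ Γ.Single →
    (univ.filter (fun x => ¬ ∃ v, Γ.Rare (2 ^ (2 * w + 4)) v ∧ Γ.Guard v x)).card
      ≤ 2 ^ 2 ^ 2 ^ (w + 30)

/-- iterated logarithm: the least `k` such that the `k`-fold iteration of `log₂` gives at most 1 -/
noncomputable def lstar (x : ℝ) : ℕ := sInf {k : ℕ | (Real.logb 2)^[k] x ≤ 1}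

/-- the potential of the recursion -/
noncomputable def phi (X : ℝ) : ℝ := - Real.logb 2 X - 2 * X

/-- a multigraph model `H'` of `H` with the same cycle space: `Φ` maps `Z(H)` bijectively onto
`Z(H')`, cycles to cycles, `ι` maps the vertices of `H'` to vertices of `H` compatibly -/
structure Cv {V E V' E' : Type} [Fintype V] [DecidableEq V] [Fintype E] [DecidableEq E]
    [Fintype V'] [DecidableEq V'] [Fintype E'] [DecidableEq E'] (H : GM V E) (H' : GM V' E') where
  /-- the map on edge vectors -/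
  Φ : (E → ZMod 2) →ₗ[ZMod 2] (E' → ZMod 2)
  /-- the map on vertices -/
  ι : V' → V
  maps : ∀ R ∈ H.Z, Φ R ∈ H'.Z
  inj : ∀ R ∈ H.Z, Φ R = 0 → R = 0
  surj : ∀ R' ∈ H'.Z, ∃ R ∈ H.Z, Φ R = R'
  single : ∀ R, H.Single R → H'.Single (Φ R)
  vert : ∀ R ∈ H.Z, ∀ x' ∈ H'.vs (Φ R), ι x' ∈ H.vs R

/-- degree control for a model -/
def Cv.DegLe {V E V' E' : Type} [Fintype V] [DecidableEq V] [Fintype E] [DecidableEq E]
    [Fintype V'] [DecidableEq V'] [Fintype E'] [DecidableEq E'] {H : GM V E} {H' : GM V' E'}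
    (c : Cv H H') (c₀ : ℕ) : Prop :=
  ∀ y, ∑ x' ∈ univ.filter (fun x' => c.ι x' = y), (H'.deg x' - 2) ≤ H.deg y - 2 + c₀

end Pool.Agent.Lib.MP_af4270_co
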