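import Pool.Agent.Lib.MP_af4270_co.DNum
import Pool.Agent.Lib.MP_af4270_co.DCount
import Pool.Agent.Lib.MP_af4270_co.GMDefs

/-!
# PAN-D6: the structure theorem
-/

set_option autoImplicit false
set_option linter.unusedSectionVars false

namespace Pool.Agent.Lib.MP_af4270_co

open Finset

open Classical in
/-- **Theorem D.** In a connected cubic multigraph in which at least a proportion `2 ^ (-w)` of all
even edge sets are cycles, all but a bounded number of vertices are guarded by a rare functional. -/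
theorem structure_D : StructD := by
  intro V E _ _ _ _ Γ hΓ w hw
  obtain ⟨U, hU⟩ : ∃ U, U = univ.filter
      (fun x => ¬ ∃ v, Γ.Rare (2 ^ (2 * w + 4)) v ∧ Γ.Guard v x) := ⟨_, rfl⟩
  rw [← hU]
  by_contra hcon
  push Not at hcon
  have hex : ∃ b, U.card ≤ 2 ^ 2 ^ b := by
    refine ⟨U.card, ?_⟩
    have h1 := Nat.lt_two_pow_self (n := U.card)
    have h2 := Nat.lt_two_pow_self (n := 2 ^ U.card)
    omega
  obtain ⟨b, hb, hbmin⟩ : ∃ b, U.card ≤ 2 ^ 2 ^ b ∧ ∀ c < b, ¬ U.card ≤ 2 ^ 2 ^ c :=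
    ⟨Nat.find hex, Nat.find_spec hex, fun c hc => Nat.find_min hex hc⟩
  have hwb : 2 ^ (w + 30) < b := by
    by_contra h
    push Not at h
    have h1 : (2 : ℕ) ^ 2 ^ b ≤ 2 ^ 2 ^ 2 ^ (w + 30) :=
      Nat.pow_le_pow_right (by norm_num) (Nat.pow_le_pow_right (by norm_num) h)
    omega
  have h30 : 2 ^ 30 ≤ b :=
    le_trans (Nat.pow_le_pow_right (by norm_num) (by omega)) hwb.le
  have hlt : ¬ U.card ≤ 2 ^ 2 ^ (b - 1) := hbmin _ (by omega)
  -- the length `ℓ`
  have hℓ1 : 24 * (36 * 2 ^ (w + 4) + 2 * b + 8) + 20 ≤ ellD w b := by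
    unfold ellD; omega
  have hℓ2 : 2 * 4 ^ 20 ≤ ellD w b := by unfold ellD; omega
  have hUx : ∀ x, x ∉ U → ∃ D ∈ Γ.Z, D ≠ 0 ∧ supp D ⊆ Γ.EU (Γ.ball x 20) := by
    intro x hx
    rw [hU, mem_filter, not_and, not_not] at hx
    obtain ⟨v, _, hg⟩ := hx (mem_univ _)
    exact hg.2
  have H1 := Cub.H1_of hΓ hw U hUx hb (by omega) hℓ2 hℓ1
  have hℓ3 : 1 ≤ ellD w b := by omega
  have hwl : w ≤ ellD w b := by
    have h1 := Nat.lt_two_pow_self (n := w)
    have h2 : (2 : ℕ) ^ w ≤ 2 ^ (w + 4) := Nat.pow_le_pow_right (by norm_num) (by omega)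
    unfold ellD; omega
  obtain ⟨𝒟, Ex, hs, hl, -, hfree, hEx, hcard, hfine⟩ :=
    Γ.partB (ℓ := ellD w b) (m := 2 ^ w) (q := 2 ^ (2 * w + 4)) (k := 2 * w + 5) hℓ3 H1 hw
      (by rw [← pow_succ']; exact Nat.pow_lt_pow_right (by norm_num) (by omega))
      (by rw [← pow_succ'])
  have h1 := Cub.card_le_of_fine H1 hs hl hfree hEx hfine U (by
    intro x hx
    rw [hU, mem_filter] at hx
    exact hx.2)
  have h2 : ellD w b * Ex.card ≤ 2 ^ (501 * (ellD w b) ^ 2) :=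
    (Nat.mul_le_mul_left _ hcard).trans (exB_le (by omega) hwl)
  exact hlt (h1.trans (num_final hwb.le h2))

end Pool.Agent.Lib.MP_af4270_co
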