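import Pool.Agent.Lib.MP_af4270_co.BRegion
import Pool.Agent.Lib.MP_af4270_co.CGuard

/-!
# PAN-D1: the middle of a window which is not bad is guarded

`Region.net`: a region of a strip is a lossless network. `Strip.guard_mid`: `Strip.exists_region`
and `Strip.guard`.
-/

set_option autoImplicit false
set_option linter.unusedSectionVars false

namespace Pool.Agent.Lib.MP_af4270_co

open Finset

variable {V E : Type} [Fintype V] [DecidableEq V] [Fintype E] [DecidableEq E]

open Cub

theorem Region.net {Γ : Cub V E} {ℓ M : ℕ} {S : Strip Γ ℓ M} {Y Rt : Finset V} {s t : V}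
    (h : Region S Y Rt s t) (hM : 3 ≤ M) : Γ.Net Y s t where
  conn := h.conn
  ha := (S.sub 1 (by omega)).trans (h.inner 1 le_rfl (by omega)) h.sY
  hb := h.last h.tY
  ne := by
    rintro rfl
    exact (Finset.disjoint_left.1 (S.disj 1 (by omega) (M - 1) (by omega) (by omega)))
      (S.sub 1 (by omega) h.sY) (S.sub (M - 1) (by omega) h.tY)
  deg := by
    intro y hy
    have h1 := h.deg2 y hy
    have h2 := Γ.dg_le Y y
    unfold dg at h2 ⊢
    omega
  da := h.degs
  db := h.degt
  lossless := fun J hJ => h.lossless J hJ.1 hJ.2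

/-- the vertices of `X 20, ..., X 40` in a window which is not bad are guarded by the
functional of the window -/
theorem Strip.guard_mid {Γ : Cub V E} {ℓ : ℕ} (S : Strip Γ ℓ 60)
    (h : ¬ Γ.BadW ((range 61).biUnion S.X)) {i : ℕ} (h1 : 20 ≤ i) (h2 : i ≤ 40) {x : V}
    (hx : x ∈ S.X i) : Γ.Guard (Γ.bt (S.X 0) (S.X 1)) x := by
  obtain ⟨Y, Rt, s, t, hR⟩ := S.exists_region (by norm_num) h
  refine S.guard (hR.net (by norm_num)) hR.sY hR.tY ?_ hR.last ?_ ?_ h1 h2 hx
  · intro j hj1 hj2
    exact hR.inner j hj1 (by omega)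
  · rw [Finset.disjoint_left]
    intro y hy hy0
    obtain ⟨j, hj, hyj⟩ := mem_biUnion.1 (hR.subU hy)
    rw [Finset.mem_Icc] at hj
    exact (Finset.disjoint_left.1 (S.disj 0 (by norm_num) j (by omega) (by omega))) hy0 hyj
  · intro e he
    rw [hR.bdY, mem_union] at he
    rcases he with he | he
    · exact Or.inl he
    · right
      rw [Γ.mem_bt] at he
      rw [Γ.mem_touch]
      rcases he with he | he
      · exact Or.inl he.1
      · exact Or.inr he.2

end Pool.Agent.Lib.MP_af4270_co
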