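import Pool.Agent.Lib.MP_af4270_co.BPart

/-!
# PAN-D5: numerical estimates
-/

set_option autoImplicit false
set_option linter.unusedSectionVars false

namespace Pool.Agent.Lib.MP_af4270_co

theorem sq_le_two_pow {n : ℕ} (h : 8 ≤ n) : 4 * n ^ 2 ≤ 2 ^ n := by
  induction n, h using Nat.le_induction with
  | base => norm_num
  | succ n hn ih =>
    have h : (2 : ℕ) ^ (n + 1) = 2 * 2 ^ n := by ring
    rw [h]; nlinarith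

theorem cntB_le {ℓ t k : ℕ} (hℓ : 20 ≤ ℓ) (ht1 : 1 ≤ t) (ht : t ≤ 2 ^ (4 * ℓ + 3))
    (hk : k ≤ 3 * ℓ) : cntB ℓ t k ≤ 2 ^ (500 * ℓ ^ 2) * 2 ^ (6 * ℓ + 4) := by
  unfold cntB
  have h4 := sq_le_two_pow (n := ℓ) (by omega)
  have hP : 1 ≤ 2 ^ (500 * ℓ ^ 2) := Nat.one_le_two_pow
  have e1 : (2 : ℕ) ^ (6 * ℓ + 4) = 2 ^ ℓ * (2 ^ ℓ * (2 ^ (4 * ℓ + 3) * 2)) := by
    rw [← pow_succ, ← pow_add, ← pow_add]; congr 1; ring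
  rw [e1]
  generalize (2 : ℕ) ^ (500 * ℓ ^ 2) = P at *
  generalize (2 : ℕ) ^ (4 * ℓ + 3) = T at *
  have hLl : 18 * ℓ + 81 ≤ 2 ^ ℓ := by nlinarith
  have h366 : 366 * ℓ ≤ 2 ^ ℓ * 2 ^ ℓ := by nlinarith
  generalize (2 : ℕ) ^ ℓ = L at *
  have a1 : 2 * (3 * P * k + 40) + 1 ≤ P * L := by nlinarith
  have a2 : 3 * t * ℓ ^ 2 + 1 ≤ L * T := by nlinarith
  have a3 : 61 * (2 * (P * k)) ≤ P * (L * L) := by nlinarith
  have a4 : (2 * (3 * P * k + 40) + 1) * (3 * t * ℓ ^ 2 + 1) ≤ (P * L) * (L * T) :=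
    Nat.mul_le_mul a1 a2
  have hT : 1 ≤ T := ht1.trans ht
  have a5 : P * (L * L) ≤ P * (L * L) * T := Nat.le_mul_of_pos_right _ hT
  calc (2 * (3 * P * k + 40) + 1) * (3 * t * ℓ ^ 2 + 1) + 61 * (2 * (P * k))
      ≤ (P * L) * (L * T) + P * (L * L) * T := Nat.add_le_add a4 (a3.trans a5)
    _ = P * (L * (L * (T * 2))) := by ring

theorem exB_le {ℓ w : ℕ} (hℓ : 20 ≤ ℓ) (hw : w ≤ ℓ) :
    ℓ * exB ℓ (2 ^ w) (2 * w + 5) ≤ 2 ^ (501 * ℓ ^ 2) := by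
  unfold exB
  have ht : 2 ^ w * 2 ^ (3 * ℓ + 3) ≤ 2 ^ (4 * ℓ + 3) := by
    rw [← pow_add]; exact Nat.pow_le_pow_right (by norm_num) (by omega)
  have ht1 : 1 ≤ 2 ^ w * 2 ^ (3 * ℓ + 3) := by
    rw [← pow_add]; exact Nat.one_le_two_pow
  have hc := cntB_le (k := 2 * w + 5) hℓ ht1 ht (by omega)
  have h4 := sq_le_two_pow (n := ℓ) (by omega)
  have hP : 1 ≤ 2 ^ (500 * ℓ ^ 2) := Nat.one_le_two_pow
  have e2 : (2 : ℕ) ^ (12 * ℓ + 8) =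
      2 ^ ℓ * (2 ^ ℓ * (2 ^ (4 * ℓ + 3) * (2 ^ (6 * ℓ + 4) * 2))) := by
    rw [← pow_succ, ← pow_add, ← pow_add, ← pow_add]; congr 1; ring
  have hfin : 2 ^ (500 * ℓ ^ 2) * 2 ^ (12 * ℓ + 8) ≤ 2 ^ (501 * ℓ ^ 2) := by
    rw [← pow_add]
    refine Nat.pow_le_pow_right (by norm_num) ?_
    nlinarith
  refine le_trans ?_ hfin
  rw [e2]
  have hQ : 1 ≤ 2 ^ (6 * ℓ + 4) := Nat.one_le_two_pow
  generalize 2 ^ w * 2 ^ (3 * ℓ + 3) = t at *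
  generalize cntB ℓ t (2 * w + 5) = c at *
  generalize (2 : ℕ) ^ (500 * ℓ ^ 2) = P at *
  generalize (2 : ℕ) ^ (4 * ℓ + 3) = T at *
  generalize (2 : ℕ) ^ (6 * ℓ + 4) = Q at *
  have hl1 : 2 * ℓ ≤ 2 ^ ℓ := by nlinarith
  generalize (2 : ℕ) ^ ℓ = L at *
  have b1 : t * ℓ * ℓ * c ≤ T * L * (P * Q) := by
    have : t * ℓ * ℓ ≤ T * L := by
      calc t * ℓ * ℓ = t * (ℓ ^ 2) := by ring
        _ ≤ T * L := Nat.mul_le_mul ht (by omega)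
    exact Nat.mul_le_mul this hc
  have b2 : t + t * ℓ ≤ T * L := by
    calc t + t * ℓ = t * (1 + ℓ) := by ring
      _ ≤ T * L := Nat.mul_le_mul ht (by omega)
  have b3 : T * L ≤ T * L * (P * Q) := Nat.le_mul_of_pos_right _ (Nat.mul_pos hP hQ)
  calc ℓ * (t + t * ℓ + t * ℓ * ℓ * c) ≤ L * (T * L * (P * Q) + T * L * (P * Q)) :=
        Nat.mul_le_mul (by omega) (Nat.add_le_add (b2.trans b3) b1)
    _ = P * (L * (L * (T * (Q * 2)))) := by ring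

theorem b_pow {b : ℕ} (hb : 2 ^ 30 ≤ b) : 2 ^ 34 * b ^ 2 ≤ 2 ^ (b - 1) := by
  obtain ⟨c, hc⟩ : ∃ c, c = b / 4 := ⟨_, rfl⟩
  have h1 : b ≤ 4 * 2 ^ c := by
    have := Nat.lt_two_pow_self (n := c)
    omega
  calc 2 ^ 34 * b ^ 2 ≤ 2 ^ 34 * (4 * 2 ^ c) ^ 2 := by gcongr
    _ = 2 ^ (38 + 2 * c) := by
      rw [mul_pow, ← pow_mul, show (4 : ℕ) = 2 ^ 2 by norm_num, ← pow_mul, ← pow_add, ← pow_add]
      congr 1; ring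
    _ ≤ 2 ^ (b - 1) := Nat.pow_le_pow_right (by norm_num) (by omega)

/-- the value of `ℓ` used in the structure theorem -/
def ellD (w b : ℕ) : ℕ := 24 * (36 * 2 ^ (w + 4) + 2 * b + 8) + 20 + 2 * 4 ^ 20

theorem ellD_le {w b : ℕ} (hb : 2 ^ (w + 30) ≤ b) : ellD w b ≤ 2 ^ 12 * b := by
  unfold ellD
  rw [pow_add] at hb ⊢
  have h1 : 1 ≤ 2 ^ w := Nat.one_le_two_pow
  generalize (2 : ℕ) ^ w = m at *
  have : (2 : ℕ) ^ 30 * m ≤ b := by rw [Nat.mul_comm]; exact hb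
  norm_num at this ⊢
  omega

theorem num_final {w b : ℕ} (hb : 2 ^ (w + 30) ≤ b) {X : ℕ}
    (hX : X ≤ 2 ^ (501 * (ellD w b) ^ 2)) : X + X ^ 2 ≤ 2 ^ 2 ^ (b - 1) := by
  have h30 : 2 ^ 30 ≤ b := le_trans (Nat.pow_le_pow_right (by norm_num) (by omega)) hb
  have h1 := ellD_le hb
  have h2 : 1 ≤ ellD w b := by unfold ellD; omega
  generalize ellD w b = ℓ at *
  have h3 : 1003 * ℓ ^ 2 ≤ 2 ^ (b - 1) := by
    refine le_trans ?_ (b_pow h30)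
    calc 1003 * ℓ ^ 2 ≤ 2 ^ 10 * (2 ^ 12 * b) ^ 2 := by gcongr; norm_num
      _ = 2 ^ 34 * b ^ 2 := by ring
  have h4 : X + X ^ 2 ≤ 2 * (2 ^ (501 * ℓ ^ 2)) ^ 2 := by
    have h5 : 1 ≤ 2 ^ (501 * ℓ ^ 2) := Nat.one_le_two_pow
    generalize (2 : ℕ) ^ (501 * ℓ ^ 2) = N at *
    nlinarith
  refine h4.trans ?_
  rw [← pow_mul, ← pow_succ']
  refine Nat.pow_le_pow_right (by norm_num) (le_trans ?_ h3)
  nlinarith

end Pool.Agent.Lib.MP_af4270_co
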