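import Mathlib

/-!
# Pancyclic graphs (MP_af4270_co): cubic multigraphs, even edge sets, cycles

* `Cub V E` : finite cubic multigraph on the vertex type `V` and edge type `E`; parallel edges and
  loops are allowed (every vertex is the tail of exactly three darts).
* an edge set is a function `R : E → ZMod 2`; `Γ.Z` is the space of even edge sets.
* `Γ.Single R` : `R` is a cycle (a minimal nonzero even edge set).
* `Γ.Conn U` : the vertex set `U` is connected (every cut of `U` has an edge).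
-/

set_option autoImplicit false

namespace Pool.Agent.Lib.MP_af4270_co

open Finset

/-- finite cubic multigraph (loops and parallel edges allowed) -/
structure Cub (V E : Type) [Fintype V] [DecidableEq V] [Fintype E] [DecidableEq E] where
  /-- first end -/
  s : E → V
  /-- second end -/
  t : E → V
  three : ∀ x, (univ.filter (fun d : E × Bool => (if d.2 then t d.1 else s d.1) = x)).card = 3

variable {V E : Type} [Fintype V] [DecidableEq V] [Fintype E] [DecidableEq E]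

/-- the edges of an edge set -/
def supp (R : E → ZMod 2) : Finset E := univ.filter (fun e => R e ≠ 0)

/-- parity of `R` on `S` (the functional given by `S`) -/
def par (S : Finset E) (R : E → ZMod 2) : ZMod 2 := ∑ e ∈ S, R e

namespace Cub

variable (Γ : Cub V E)

/-- edges at a vertex -/
def inc (x : V) : Finset E := univ.filter (fun e => Γ.s e = x ∨ Γ.t e = x)

/-- darts are pairs (edge, orientation); tail of a dart -/
def tl (d : E × Bool) : V := if d.2 then Γ.t d.1 else Γ.s d.1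

/-- head of a dart -/
def hd (d : E × Bool) : V := if d.2 then Γ.s d.1 else Γ.t d.1

/-- the three darts leaving a vertex -/
def dt (x : V) : Finset (E × Bool) := univ.filter (fun d => Γ.tl d = x)

/-- the space of even edge sets -/
def Z : Submodule (ZMod 2) (E → ZMod 2) where
  carrier := {R | ∀ x, ∑ d ∈ Γ.dt x, R d.1 = 0}
  zero_mem' := by intro x; simp
  add_mem' := by
    intro a b ha hb x
    have h1 : ∑ d ∈ Γ.dt x, a d.1 = 0 := ha x
    have h2 : ∑ d ∈ Γ.dt x, b d.1 = 0 := hb x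
    simp [Finset.sum_add_distrib, h1, h2]
  smul_mem' := by
    intro c a ha x
    have h1 : ∑ d ∈ Γ.dt x, a d.1 = 0 := ha x
    simp [← Finset.mul_sum, h1]

/-- even edge sets contained in `B` -/
def ZB (B : Finset E) : Submodule (ZMod 2) (E → ZMod 2) where
  carrier := {R | R ∈ Γ.Z ∧ ∀ e, e ∉ B → R e = 0}
  zero_mem' := ⟨Γ.Z.zero_mem, fun _ _ => rfl⟩
  add_mem' := by
    intro a b ha hb
    exact ⟨Γ.Z.add_mem ha.1 hb.1, fun e he => by simp [ha.2 e he, hb.2 e he]⟩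
  smul_mem' := by
    intro c a ha
    exact ⟨Γ.Z.smul_mem c ha.1, fun e he => by simp [ha.2 e he]⟩

/-- vertices met by an edge set -/
def vs (R : E → ZMod 2) : Finset V := univ.filter (fun x => ∃ e ∈ Γ.inc x, R e ≠ 0)

/-- `R` is a cycle: a minimal nonzero even edge set -/
def Single (R : E → ZMod 2) : Prop :=
  R ∈ Γ.Z ∧ R ≠ 0 ∧ ∀ D ∈ Γ.Z, D ≠ 0 → supp D ⊆ supp R → D = R

/-- edges between `U` and `W` -/
def bt (U W : Finset V) : Finset E :=
  univ.filter (fun e => (Γ.s e ∈ U ∧ Γ.t e ∈ W) ∨ (Γ.s e ∈ W ∧ Γ.t e ∈ U))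

/-- boundary of `U` -/
def bd (U : Finset V) : Finset E := Γ.bt U Uᶜ

/-- edges inside `U` -/
def EU (U : Finset V) : Finset E := univ.filter (fun e => Γ.s e ∈ U ∧ Γ.t e ∈ U)

/-- edges with an end in `U` -/
def touch (U : Finset V) : Finset E := univ.filter (fun e => Γ.s e ∈ U ∨ Γ.t e ∈ U)

/-- `U` is connected: every cut of `U` has an edge -/
def Conn (U : Finset V) : Prop :=
  U.Nonempty ∧ ∀ S ⊆ U, S.Nonempty → S ≠ U → (Γ.bt S (U \ S)).Nonempty

/-- the component of `x` in `U` (for `x ∈ U`) -/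
def comp (U : Finset V) (x : V) : Finset V :=
  U.filter (fun y => ∀ S ∈ U.powerset, x ∈ S → Γ.bt S (U \ S) = ∅ → y ∈ S)

open Classical in
/-- number of even edge sets inside `B` with property `φ` -/
noncomputable def cn (B : Finset E) (φ : (E → ZMod 2) → Prop) : ℕ :=
  (univ.filter (fun R => R ∈ Γ.ZB B ∧ φ R)).card

/-- no cycle of length at most `ℓ` inside `A` -/
def Free (ℓ : ℕ) (A : Finset V) : Prop :=
  ∀ D ∈ Γ.Z, D ≠ 0 → supp D ⊆ Γ.EU A → ℓ < (supp D).card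

/-- `x` is an end of an edge on which every even edge set has parity `v` -/
def T1 (v : Finset E) (x : V) : Prop := ∃ e ∈ Γ.inc x, ∀ R ∈ Γ.Z, R e = par v R

/-- `x` is an end of a rung `f` of `v` -/
def T2 (v : Finset E) (x : V) : Prop :=
  ∃ (y : V) (f a a' b b' : E), x ≠ y ∧ [f, a, a', b, b'].Nodup ∧
    Γ.inc x = {f, a, a'} ∧ Γ.inc y = {f, b, b'} ∧
    (∀ R ∈ Γ.Z, R a + R b = par v R) ∧ (∀ R ∈ Γ.Z, R a' + R b' = par v R)

/-- `x` is on a cross (4-cycle `y z y' z'`) of `v` -/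
def T3 (v : Finset E) (x : V) : Prop :=
  ∃ (y z y' z' : V) (e₁ e₂ e₃ e₄ a b c d : E), [y, z, y', z'].Nodup ∧
    [e₁, e₂, e₃, e₄, a, b, c, d].Nodup ∧
    Γ.inc y = {a, e₁, e₄} ∧ Γ.inc z = {c, e₁, e₂} ∧
    Γ.inc y' = {b, e₂, e₃} ∧ Γ.inc z' = {d, e₃, e₄} ∧
    (∀ R ∈ Γ.Z, R a + R b = par v R) ∧ (∀ R ∈ Γ.Z, R c + R d = par v R) ∧
    (x = y ∨ x = z ∨ x = y' ∨ x = z')

/-- `x` is on a cycle of length at most 5 -/
def Short (x : V) : Prop := ∃ D, Γ.Single D ∧ (supp D).card ≤ 5 ∧ x ∈ Γ.vs D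

/-- `x` is typed with respect to `v` -/
def Ty (v : Finset E) (x : V) : Prop := (Γ.T1 v x ∨ Γ.T2 v x ∨ Γ.T3 v x) ∧ Γ.Short x

/-- `v` is a nonzero functional such that single `R` with `v(R) = 0` are rare:
at most a proportion `1/q` -/
def Rare (q : ℕ) (v : Finset E) : Prop :=
  (∃ R ∈ Γ.Z, par v R ≠ 0) ∧
    q * Γ.cn univ (fun R => Γ.Single R ∧ par v R = 0) ≤ Γ.cn univ (fun _ => True)

/-- non-backtracking step between darts -/
def st (d d' : E × Bool) : Prop := Γ.hd d = Γ.tl d' ∧ d' ≠ (d.1, !d.2)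

instance (d d' : E × Bool) : Decidable (Γ.st d d') := by unfold st; infer_instance

/-- the dart lies in `A` -/
def dIn (A : Finset V) (d : E × Bool) : Prop := Γ.tl d ∈ A ∧ Γ.hd d ∈ A

instance (A : Finset V) (d : E × Bool) : Decidable (Γ.dIn A d) := by unfold dIn; infer_instance

/-- `l` is a non-backtracking walk from `x` to `y` -/
def Wk (x y : V) (l : List (E × Bool)) : Prop :=
  l.IsChain Γ.st ∧ (l = [] → x = y) ∧
    (∀ d ∈ l.head?, Γ.tl d = x) ∧ (∀ d ∈ l.getLast?, Γ.hd d = y)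

/-- vertices of `A` at distance more than `m` from the complement of `A` -/
def mar (A : Finset V) : ℕ → Finset V
  | 0 => A
  | (m + 1) => (mar A m).filter (fun x => Γ.inc x ⊆ Γ.EU (mar A m))

/-- good cycles: short, deep inside `A`, without non-local self-approach of length `≤ 2 d` -/
def Good (A : Finset V) (d L : ℕ) (C : E → ZMod 2) : Prop :=
  Γ.Single C ∧ (supp C).card ≤ 2 * L ∧ Γ.vs C ⊆ Γ.mar A (2 * d) ∧
    ∀ (x y : V) (l : List (E × Bool)), x ∈ Γ.vs C → y ∈ Γ.vs C → Γ.Wk x y l →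
      l.length ≤ 2 * d → ∀ e ∈ l, C e.1 ≠ 0

/-- the non-backtracking matrix on darts inside `A` -/
def NB (A : Finset V) : Matrix (E × Bool) (E × Bool) ℕ :=
  fun d d' => if Γ.st d d' ∧ Γ.dIn A d ∧ Γ.dIn A d' then 1 else 0

end Cub

/-- a strip of length `M`: connected disjoint sets `X 0, ..., X M`, each containing a short cycle
`C i`, such that `X i` has only neighbours in `X (i-1)` and `X (i+1)` and the edges between
`X i` and `X (i+1)` end on the cycle `C (i+1)`. -/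
structure Strip (Γ : Cub V E) (ℓ M : ℕ) where
  /-- the sets -/
  X : ℕ → Finset V
  /-- the cycles -/
  C : ℕ → (E → ZMod 2)
  conn : ∀ i ≤ M, Γ.Conn (X i)
  disj : ∀ i ≤ M, ∀ j ≤ M, i ≠ j → Disjoint (X i) (X j)
  single : ∀ i ≤ M, Γ.Single (C i)
  len : ∀ i ≤ M, (supp (C i)).card ≤ ℓ
  sub : ∀ i ≤ M, Γ.vs (C i) ⊆ X i
  nbr : ∀ i, 0 < i → i < M → Γ.bd (X i) ⊆ Γ.bt (X (i - 1)) (X i) ∪ Γ.bt (X i) (X (i + 1))
  left : ∀ i < M, Γ.bt (X i) (X (i + 1)) ⊆ Γ.touch (Γ.vs (C (i + 1)))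
  nz : ∃ R ∈ Γ.Z, par (Γ.bt (X 0) (X 1)) R ≠ 0

/-- finite multigraphs with explicit vertex and edge sets (used for lossless networks) -/
structure MG (α β : Type) [DecidableEq α] [DecidableEq β] where
  /-- vertices -/
  V : Finset α
  /-- edges -/
  E : Finset β
  /-- first end -/
  s : β → α
  /-- second end -/
  t : β → α
  hs : ∀ e ∈ E, s e ∈ V
  ht : ∀ e ∈ E, t e ∈ V
  ne : ∀ e ∈ E, s e ≠ t e

namespace MG

variable {α β : Type} [DecidableEq α] [DecidableEq β] (H : MG α β)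

/-- edges at a vertex -/
def inc (x : α) : Finset β := H.E.filter (fun e => H.s e = x ∨ H.t e = x)

/-- even edge sets -/
def Ev (R : Finset β) : Prop := R ⊆ H.E ∧ ∀ x ∈ H.V, Even (R ∩ H.inc x).card

/-- boundary of a vertex set -/
def bd (U : Finset α) : Finset β := H.E.filter (fun e => ¬ (H.s e ∈ U ↔ H.t e ∈ U))

/-- every even edge set containing `o` is a cycle, and there is one -/
def Lossless (o : β) : Prop :=
  (∃ R, H.Ev R ∧ o ∈ R) ∧
    ∀ R, H.Ev R → o ∈ R → ∀ D, H.Ev D → D.Nonempty → D ⊆ R → D = R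

/-- ball around a vertex -/
def ball (x : α) : ℕ → Finset α
  | 0 => {x}
  | (n + 1) => ball x n ∪ H.V.filter (fun y => ∃ e ∈ H.E, (H.s e = y ∧ H.t e ∈ ball x n) ∨
      (H.t e = y ∧ H.s e ∈ ball x n))

/-- typed vertex, first kind: a bridge of `H - o` -/
def T1 (o : β) (x : α) : Prop := ∃ e ∈ H.inc x, ∃ U ⊆ H.V, H.s o ∈ U ∧ H.bd U = {e, o} ∧ e ≠ o

/-- typed vertex, second kind: a rung -/
def T2 (o : β) (x : α) : Prop :=
  ∃ (y : α) (f a a' b b' : β) (U U' : Finset α), x ≠ y ∧ [f, a, a', b, b', o].Nodup ∧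
    H.inc x = {f, a, a'} ∧ H.inc y = {f, b, b'} ∧ U ⊆ H.V ∧ U' ⊆ H.V ∧
    H.s o ∈ U ∧ H.s o ∈ U' ∧ H.bd U = {a, b, o} ∧ H.bd U' = {a', b', o}

/-- typed vertex, third kind: a cross -/
def T3 (o : β) (x : α) : Prop :=
  ∃ (y z y' z' : α) (e₁ e₂ e₃ e₄ a b c d : β) (U U' : Finset α), [y, z, y', z'].Nodup ∧
    [e₁, e₂, e₃, e₄, a, b, c, d, o].Nodup ∧
    H.inc y = {a, e₁, e₄} ∧ H.inc z = {c, e₁, e₂} ∧
    H.inc y' = {b, e₂, e₃} ∧ H.inc z' = {d, e₃, e₄} ∧ U ⊆ H.V ∧ U' ⊆ H.V ∧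
    H.s o ∈ U ∧ H.s o ∈ U' ∧ H.bd U = {a, b, o} ∧ H.bd U' = {c, d, o} ∧
    (x = y ∨ x = z ∨ x = y' ∨ x = z')

/-- `x` is on an even edge set with at most 5 edges, not containing `o` -/
def Short (o : β) (x : α) : Prop :=
  ∃ D, H.Ev D ∧ D.card ≤ 5 ∧ o ∉ D ∧ (D ∩ H.inc x).Nonempty

end MG

end Pool.Agent.Lib.MP_af4270_co
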