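import Pool.Agent.Lib.MP_af4270_co.GMCv

/-!
# PAN-E: balls are symmetric; number of vertices of a cubic graph
-/

set_option autoImplicit false
set_option linter.unusedSectionVars false
set_option linter.unusedVariables false

namespace Pool.Agent.Lib.MP_af4270_co

open Finset

variable {V E : Type} [Fintype V] [DecidableEq V] [Fintype E] [DecidableEq E]

/-- reverse recursion for balls: a neighbour of the centre -/
theorem Cub.ball_step (Γ : Cub V E) {x z : V} {e : E}
    (he : (Γ.s e = x ∧ Γ.t e = z) ∨ (Γ.s e = z ∧ Γ.t e = x)) (n : ℕ) :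
    Γ.ball z n ⊆ Γ.ball x (n + 1) := by
  induction n with
  | zero =>
    intro y hy
    have hyz : y = z := by simpa [Cub.ball] using hy
    subst hyz
    exact Γ.mem_ball_succ (Γ.mem_ball_self x 0) he
  | succ n ih =>
    intro y hy
    rw [Γ.ball_succ_iff] at hy
    rcases hy with hy | ⟨y', hy', e', he'⟩
    · exact Γ.ball_mono x (Nat.le_succ (n + 1)) (ih hy)
    · exact Γ.mem_ball_succ (ih hy') he'

/-- balls are symmetric. Proof. `y ∈ ball x n` iff there is a walk of length at most `n`; induction on `n` via `ball_succ_iff` and the reverse recursion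
(`ball x (n+1) = ⋃_{z ∈ ball x 1} ball z n`). -/
theorem Cub.ball_symm (Γ : Cub V E) {x y : V} {n : ℕ} (h : y ∈ Γ.ball x n) : x ∈ Γ.ball y n := by
  induction n generalizing y with
  | zero =>
    have hyx : y = x := by simpa [Cub.ball] using h
    subst hyx
    exact Γ.mem_ball_self y 0
  | succ n ih =>
    rw [Γ.ball_succ_iff] at h
    rcases h with h | ⟨z, hz, e, he⟩
    · exact Γ.ball_mono y (Nat.le_succ n) (ih h)
    · have h1 : x ∈ Γ.ball z n := ih hz
      apply Γ.ball_step (x := y) (z := z) (e := e) _ n h1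
      rcases he with ⟨h1, h2⟩ | ⟨h1, h2⟩
      · exact Or.inr ⟨h1, h2⟩
      · exact Or.inl ⟨h1, h2⟩

/-- Proof. `Cub.card_ZU` (TJoin.lean) for `U = univ`: `|Z| 2^(|V|-1) = 2^|E|`, and `2|E| = 3|V|` (`card_bd_add`). -/
theorem Cub.card_V (Γ : Cub V E) (hc : Γ.Conn univ) :
    Fintype.card V + 2 = 2 * Γ.toGM.rk univ := by
  classical
  have hEU : Γ.EU univ = univ := by
    ext e; simp
  have h1 := Γ.card_ZU hc
  rw [hEU, Finset.card_univ, Finset.card_univ] at h1
  have h2 : Γ.cn univ (fun _ => True) = 2 ^ Γ.toGM.rk univ := by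
    rw [← Γ.toGM.cn_true univ]
    unfold Cub.cn GM.cn
    congr 1
  rw [h2, ← pow_add] at h1
  have h3 := Nat.pow_right_injective (le_refl 2) h1
  have h4 := Γ.card_bd_add univ
  have h5 : Γ.bd univ = ∅ := by
    ext e; simp [Cub.mem_bd]
  rw [h5, hEU, Finset.card_empty, Finset.card_univ, Finset.card_univ] at h4
  have h6 : 0 < Fintype.card V := Fintype.card_pos_iff.2 ⟨hc.1.choose⟩
  omega

end Pool.Agent.Lib.MP_af4270_co
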