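import Pool.Agent.Lib.MP_af4270_co.GMDefs

/-!
# PAN-E: basic facts on general multigraphs
-/

set_option autoImplicit false
set_option linter.unusedSectionVars false
set_option linter.unusedVariables false

namespace Pool.Agent.Lib.MP_af4270_co

open Finset

variable {V E : Type} [Fintype V] [DecidableEq V] [Fintype E] [DecidableEq E]

namespace GM

variable (H : GM V E)

theorem mem_ZB {B : Finset E} {R : E → ZMod 2} : R ∈ H.ZB B ↔ R ∈ H.Z ∧ supp R ⊆ B := by
  constructor
  · rintro ⟨h, h'⟩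
    refine ⟨h, fun e he => ?_⟩
    by_contra hc
    exact (mem_supp.1 he) (h' e hc)
  · rintro ⟨h, h'⟩
    refine ⟨h, fun e he => ?_⟩
    by_contra hc
    exact he (h' (mem_supp.2 hc))

theorem ZB_mono {B B' : Finset E} (h : B ⊆ B') : H.ZB B ≤ H.ZB B' := by
  intro R hR
  rw [mem_ZB] at hR ⊢
  exact ⟨hR.1, hR.2.trans h⟩

/-- Proof. `Module.card_eq_pow_finrank`, `|ZMod 2| = 2`. -/
theorem cn_true (B : Finset E) : H.cn B (fun _ => True) = 2 ^ H.rk B := by
  classical
  have h1 : H.cn B (fun _ => True) = Fintype.card (H.ZB B) := by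
    unfold cn
    rw [Fintype.card_subtype]
    congr 1
    ext R
    simp
  rw [h1, Module.card_eq_pow_finrank (K := ZMod 2), ZMod.card]
  rfl

theorem rk_mono {B B' : Finset E} (h : B ⊆ B') : H.rk B ≤ H.rk B' :=
  Submodule.finrank_mono (H.ZB_mono h)

theorem cn_mono {B : Finset E} {φ ψ : (E → ZMod 2) → Prop} (h : ∀ R ∈ H.ZB B, φ R → ψ R) :
    H.cn B φ ≤ H.cn B ψ := by
  classical
  unfold cn
  refine Finset.card_le_card fun R hR => ?_
  rw [mem_filter] at hR ⊢
  exact ⟨hR.1, hR.2.1, h R hR.2.1 hR.2.2⟩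

/-- Proof. parity of the number of darts of `R` at `x` is `∑ R d.1 = 0`. -/
theorem even_darts {R : E → ZMod 2} (hR : R ∈ H.Z) (x : V) :
    Even ((H.dt x).filter (fun d => R d.1 ≠ 0)).card := by
  have h1 : ∑ d ∈ H.dt x, R d.1 = 0 := hR x
  have h2 : ∀ d ∈ H.dt x, R d.1 = if R d.1 ≠ 0 then 1 else 0 := by
    intro d _
    rcases zm_cases (R d.1) with a | a <;> simp [a]
  rw [Finset.sum_congr rfl h2, ← Finset.sum_filter, Finset.sum_const, nsmul_eq_mul, mul_one,
    ZMod.natCast_eq_zero_iff] at h1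
  exact even_iff_two_dvd.2 h1

end GM

end Pool.Agent.Lib.MP_af4270_co
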