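import Pool.Agent.Lib.MP_af4270_co.GMBasic

/-!
# PAN-E: parity across cuts, length of a cycle and rank
-/

set_option autoImplicit false
set_option linter.unusedSectionVars false
set_option linter.unusedVariables false

namespace Pool.Agent.Lib.MP_af4270_co

open Finset

variable {V E : Type} [Fintype V] [DecidableEq V] [Fintype E] [DecidableEq E]

namespace GM

variable (H : GM V E)

/-- sum over the darts leaving `x` -/
theorem sum_dt (x : V) {M : Type} [AddCommMonoid M] (f : E → M) :
    ∑ d ∈ H.dt x, f d.1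
      = ∑ e : E, ((if H.s e = x then f e else 0) + (if H.t e = x then f e else 0)) := by
  rw [dt, Finset.sum_filter, Fintype.sum_prod_type]
  refine Finset.sum_congr rfl fun e _ => ?_
  rw [Fintype.sum_bool]
  simp only [tl, if_true, Bool.false_eq_true, if_false]
  rw [add_comm]

/-- double counting: sum over the vertices of `U` -/
theorem sum_dt_U (U : Finset V) {M : Type} [AddCommMonoid M] (f : E → M) :
    ∑ x ∈ U, ∑ d ∈ H.dt x, f d.1
      = ∑ e : E, ((if H.s e ∈ U then f e else 0) + (if H.t e ∈ U then f e else 0)) := by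
  rw [Finset.sum_congr rfl (fun x _ => H.sum_dt x f), Finset.sum_comm]
  refine Finset.sum_congr rfl fun e _ => ?_
  rw [Finset.sum_add_distrib, Finset.sum_ite_eq, Finset.sum_ite_eq]

/-- even edge sets cross every cut evenly. Proof. Sum `∑_{d ∈ dt x} R d.1 = 0` over `x ∈ U` (see `Cub.sum_inc`, `Cub.par_bd`). -/
theorem par_cut (U : Finset V) {R : E → ZMod 2} (hR : R ∈ H.Z) :
    ∑ e ∈ univ.filter (fun e => (H.s e ∈ U ∧ H.t e ∉ U) ∨ (H.s e ∉ U ∧ H.t e ∈ U)), R e = 0 := by
  have h := H.sum_dt_U U R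
  have h0 : ∀ x ∈ U, ∑ d ∈ H.dt x, R d.1 = 0 := fun x _ => hR x
  rw [Finset.sum_congr rfl h0, Finset.sum_const_zero] at h
  rw [h, Finset.sum_filter]
  refine Finset.sum_congr rfl fun e _ => ?_
  have h2 := zm_add_self (R e)
  by_cases h3 : H.s e ∈ U <;> by_cases h4 : H.t e ∈ U <;> simp [h3, h4, h2]

/-- Proof. Each vertex of `R` has at least 2 darts of `R`, there are `2 |supp R|` darts. -/
theorem card_vs_le {R : E → ZMod 2} (hR : R ∈ H.Z) : (H.vs R).card ≤ (supp R).card := by
  classical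
  have h1 := H.sum_dt_U (H.vs R) (fun e => if e ∈ supp R then 1 else 0)
  have h2 : ∀ x ∈ H.vs R, 2 ≤ ∑ d ∈ H.dt x, (if d.1 ∈ supp R then 1 else 0) := by
    intro x hx
    have h3 := H.even_darts hR x
    rw [vs, mem_filter] at hx
    obtain ⟨-, d, hd, hd2⟩ := hx
    have h4 : 0 < ((H.dt x).filter (fun d => R d.1 ≠ 0)).card :=
      Finset.card_pos.2 ⟨d, mem_filter.2 ⟨hd, hd2⟩⟩
    have h5 : ((H.dt x).filter (fun d => R d.1 ≠ 0)).card
        = ∑ d ∈ H.dt x, (if d.1 ∈ supp R then 1 else 0) := by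
      rw [Finset.card_filter]
      simp
    rw [← h5]
    obtain ⟨k, hk⟩ := h3
    omega
  have h3 := Finset.sum_le_sum h2
  rw [h1, Finset.sum_const, smul_eq_mul] at h3
  have h4 : ∑ e : E, ((if H.s e ∈ H.vs R then (if e ∈ supp R then 1 else 0) else 0)
      + (if H.t e ∈ H.vs R then (if e ∈ supp R then 1 else 0) else 0))
      ≤ ∑ e : E, 2 * (if e ∈ supp R then 1 else 0) := by
    refine Finset.sum_le_sum fun e _ => ?_
    split_ifs <;> omega
  rw [← Finset.mul_sum] at h4
  have h5 : ∑ e : E, (if e ∈ supp R then 1 else 0) = (supp R).card := by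
    rw [Finset.sum_ite_mem]; simp
  rw [h5] at h4
  omega

/-- a long cycle bounds the cycle space. Proof. Fix `e₀ ∈ supp R₀`, `P = supp R₀ \ {e₀}`. The restriction of `Z` to `univ \ P` is injective:
`R ∈ Z` with `supp R ⊆ P` is `0` or `R₀` by minimality, and `e₀ ∉ P`. So `2^(rk B) ≤ |Z| ≤ 2^(|E| - |P|)`. -/
theorem rk_le_of_single {R₀ : E → ZMod 2} (h₀ : H.Single R₀) (B : Finset E) :
    H.rk B + (supp R₀).card ≤ Fintype.card E + 1 := by
  classical
  obtain ⟨e₀, he₀⟩ := supp_nonempty h₀.2.1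
  set P := (supp R₀).erase e₀ with hP
  -- restriction to the complement of `P`
  let res : H.ZB B →ₗ[ZMod 2] ({e // e ∉ P} → ZMod 2) :=
    { toFun := fun R => fun e => R.1 e.1
      map_add' := by intro a b; rfl
      map_smul' := by intro a b; rfl }
  have hinj : Function.Injective res := by
    rw [← LinearMap.ker_eq_bot, LinearMap.ker_eq_bot']
    intro R hR
    by_contra hne
    have hne' : R.1 ≠ 0 := fun h => hne (Subtype.ext h)
    have hsub : supp R.1 ⊆ supp R₀ := by
      intro e he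
      by_contra hc
      have h1 : e ∉ P := fun h => hc (mem_of_mem_erase h)
      have := congrFun hR ⟨e, h1⟩
      exact (mem_supp.1 he) this
    have hRZ : R.1 ∈ H.Z := (H.mem_ZB.1 R.2).1
    have h2 := h₀.2.2 R.1 hRZ hne' hsub
    have h3 : e₀ ∉ P := by simp [hP]
    have h4 : R.1 e₀ = 0 := congrFun hR ⟨e₀, h3⟩
    rw [h2] at h4
    exact (mem_supp.1 he₀) h4
  have h1 := LinearMap.finrank_le_finrank_of_injective hinj
  rw [Module.finrank_fintype_fun_eq_card] at h1
  have h2 : Fintype.card {e // e ∉ P} = Fintype.card E - P.card := by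
    rw [Fintype.card_subtype_compl, Fintype.card_coe]
  rw [h2] at h1
  have h3 : P.card = (supp R₀).card - 1 := Finset.card_erase_of_mem he₀
  have h4 : P.card ≤ Fintype.card E := Finset.card_le_univ _
  have h5 : 0 < (supp R₀).card := Finset.card_pos.2 ⟨e₀, he₀⟩
  have h6 : H.rk B = Module.finrank (ZMod 2) (H.ZB B) := rfl
  omega

end GM

end Pool.Agent.Lib.MP_af4270_co
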