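import Pool.Agent.Lib.MP_af4270_co.GMCv
import Pool.Agent.Lib.MP_af4270_co.GMPar

/-!
# PAN-E: joining the components
-/

set_option autoImplicit false
set_option linter.unusedSectionVars false
set_option linter.unusedVariables false

namespace Pool.Agent.Lib.MP_af4270_co

open Finset

variable {V E : Type} [Fintype V] [DecidableEq V] [Fintype E] [DecidableEq E]

/-- the relation: in the same closed sets -/
def joR (H : GM V E) : Setoid V where
  r x y := ∀ U : Finset V, (∀ e, H.s e ∈ U ↔ H.t e ∈ U) → (x ∈ U ↔ y ∈ U)
  iseqv := ⟨fun _ _ _ => Iff.rfl, fun h U hU => (h U hU).symm,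
    fun h h' U hU => (h U hU).trans (h' U hU)⟩

/-- the graph with new edges `a j, a (j+1)` -/
def joG (H : GM V E) (k : ℕ) (a : Fin (k + 1) → V) : GM V (E ⊕ Fin k) where
  s := Sum.elim H.s (fun j => a j.castSucc)
  t := Sum.elim H.t (fun j => a j.succ)

/-- extension by `0` -/
def joΦ (k : ℕ) : (E → ZMod 2) →ₗ[ZMod 2] (E ⊕ Fin k → ZMod 2) where
  toFun R := Sum.elim R (fun _ => 0)
  map_add' R D := by
    funext e
    cases e with
    | inl e => rfl
    | inr j => simp
  map_smul' c R := by
    funext e
    cases e with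
    | inl e => rfl
    | inr j => simp

theorem jo_sum (H : GM V E) (k : ℕ) (a : Fin (k + 1) → V) (x : V) {M : Type} [AddCommMonoid M]
    (f : E ⊕ Fin k → M) : ∑ d ∈ (joG H k a).dt x, f d.1 = (∑ d ∈ H.dt x, f (Sum.inl d.1)) +
      ∑ j : Fin k, ((if a j.castSucc = x then f (Sum.inr j) else 0) +
        (if a j.succ = x then f (Sum.inr j) else 0)) := by
  rw [GM.sum_dt, GM.sum_dt H x (fun e => f (Sum.inl e)), Fintype.sum_sum_type]
  rfl

/-- Proof. Closed sets: `U` without edges between `U` and its complement; the components `K_0,...,K_{k}` are the minimal nonempty closed sets, they partition `V`. Choose `a_i ∈ K_i` and add the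
`k` edges `a_i a_{i+1}`. Even edge sets of the new graph do not use them (`par_cut` for `U = K_0 ∪ ... ∪ K_i`). `Φ` = extension by 0, `ι = id`. Each degree increases by at most 2.
(Alternative: induction on the number of vertices outside the component of a distinguished vertex `a` which has received at most one new edge: join `a` to a vertex `b` outside, `b` becomes the
distinguished vertex; then the statement must carry the bound 1 for `a` and 2 for the others.) Connected: a closed set of the new graph contains or misses each `K_i`, and contains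
`K_i` iff it contains `K_{i+1}`. -/
theorem join_cv (H : GM V E) (hV : Nonempty V) (h2 : ∀ y, 2 ≤ H.deg y) :
    ∃ (k : ℕ) (H' : GM V (E ⊕ Fin k)) (c : Cv H H'), c.DegLe 2 ∧ H'.Conn ∧ ∀ y, 2 ≤ H'.deg y := by
  classical
  have hQ : Nonempty (Quotient (joR H)) := hV.map (Quotient.mk (joR H))
  haveI : Fintype (Quotient (joR H)) := Fintype.ofFinite _
  obtain ⟨k, hk⟩ : ∃ k, Fintype.card (Quotient (joR H)) = k + 1 := by
    have := Fintype.card_pos_iff.mpr hQ
    exact ⟨_, (Nat.succ_pred_eq_of_pos this).symm⟩
  let q : Quotient (joR H) ≃ Fin (k + 1) := Fintype.equivFinOfCardEq hk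
  obtain ⟨cl, hcl⟩ : ∃ cl : V → Fin (k + 1), cl = fun x => q (Quotient.mk (joR H) x) := ⟨_, rfl⟩
  obtain ⟨a, ha⟩ : ∃ a : Fin (k + 1) → V, a = fun i => (q.symm i).out := ⟨_, rfl⟩
  have hcla : ∀ i, cl (a i) = i := by
    intro i
    rw [hcl, ha]
    dsimp only
    rw [Quotient.out_eq, Equiv.apply_symm_apply]
  have ainj : Function.Injective a := fun i j h => by rw [← hcla i, ← hcla j, h]
  have hcleq : ∀ x y, cl x = cl y → ∀ U : Finset V, (∀ e, H.s e ∈ U ↔ H.t e ∈ U) →
      (x ∈ U ↔ y ∈ U) := by
    intro x y hxy
    rw [hcl] at hxy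
    exact Quotient.exact (q.injective hxy)
  have hcle : ∀ e, cl (H.s e) = cl (H.t e) := by
    intro e
    rw [hcl]
    dsimp only
    congr 1
    exact Quotient.sound fun U hU => hU e
  -- new edges are not used
  have hzero : ∀ R ∈ (joG H k a).Z, ∀ j, R (Sum.inr j) = 0 := by
    intro R hR j
    have h3 := (joG H k a).par_cut (univ.filter fun x => cl x ≤ j.castSucc) hR
    have h4 : univ.filter (fun e : E ⊕ Fin k =>
        ((joG H k a).s e ∈ (univ.filter fun x => cl x ≤ j.castSucc) ∧
          (joG H k a).t e ∉ (univ.filter fun x => cl x ≤ j.castSucc)) ∨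
        ((joG H k a).s e ∉ (univ.filter fun x => cl x ≤ j.castSucc) ∧
          (joG H k a).t e ∈ (univ.filter fun x => cl x ≤ j.castSucc))) = {Sum.inr j} := by
      ext e
      simp only [mem_filter, mem_univ, true_and, mem_singleton]
      cases e with
      | inl e =>
        have h5 : (joG H k a).s (Sum.inl e) = H.s e := rfl
        have h6 : (joG H k a).t (Sum.inl e) = H.t e := rfl
        rw [h5, h6, hcle]
        simp
      | inr i =>
        have h5 : (joG H k a).s (Sum.inr i) = a i.castSucc := rfl
        have h6 : (joG H k a).t (Sum.inr i) = a i.succ := rfl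
        rw [h5, h6, hcla, hcla]
        rw [Fin.le_def, Fin.le_def, Fin.val_castSucc, Fin.val_castSucc, Fin.val_succ,
          Sum.inr.injEq, Fin.ext_iff]
        omega
    rw [h4, Finset.sum_singleton] at h3
    exact h3
  have hmem : ∀ R : E ⊕ Fin k → ZMod 2, (∀ j, R (Sum.inr j) = 0) →
      (R ∈ (joG H k a).Z ↔ (fun e => R (Sum.inl e)) ∈ H.Z) := by
    intro R hR
    have h3 : ∀ x, ∑ d ∈ (joG H k a).dt x, R d.1 = ∑ d ∈ H.dt x, R (Sum.inl d.1) := by
      intro x
      rw [jo_sum]
      simp only [hR, ite_self, add_zero, Finset.sum_const_zero]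
    constructor
    · intro h x
      change ∑ d ∈ H.dt x, R (Sum.inl d.1) = 0
      rw [← h3]
      exact h x
    · intro h x
      change ∑ d ∈ (joG H k a).dt x, R d.1 = 0
      rw [h3]
      exact h x
  have hΦ : ∀ R : E ⊕ Fin k → ZMod 2, (∀ j, R (Sum.inr j) = 0) →
      joΦ k (fun e => R (Sum.inl e)) = R := by
    intro R hR
    funext e
    cases e with
    | inl e => rfl
    | inr j => exact (hR j).symm
  have hdeg : ∀ x, H.deg x ≤ (joG H k a).deg x ∧ (joG H k a).deg x ≤ H.deg x + 2 := by
    intro x
    have h3 := jo_sum H k a x (fun _ => (1 : ℕ))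
    rw [Finset.sum_const, Finset.sum_const, smul_eq_mul, smul_eq_mul, mul_one, mul_one] at h3
    have h4 : ∀ f : Fin k → Fin (k + 1), Function.Injective f →
        ∑ j : Fin k, (if a (f j) = x then 1 else 0) ≤ 1 := by
      intro f hf
      rw [← Finset.card_filter, Finset.card_le_one]
      intro i hi j hj
      rw [mem_filter] at hi hj
      exact hf (ainj (hi.2.trans hj.2.symm))
    have h5 := h4 Fin.castSucc (Fin.castSucc_injective k)
    have h6 := h4 Fin.succ (Fin.succ_injective k)
    rw [Finset.sum_add_distrib] at h3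
    change (joG H k a).deg x = H.deg x + _ at h3
    omega
  refine ⟨k, joG H k a, {
    Φ := joΦ k
    ι := id
    maps := fun R hR => (hmem _ fun _ => rfl).mpr hR
    inj := fun R _ h => by
      funext e
      exact congrFun h (Sum.inl e)
    surj := fun R hR => ⟨_, (hmem R (hzero R hR)).mp hR, hΦ R (hzero R hR)⟩
    single := ?_
    vert := ?_ }, ?_, ?_, ?_⟩
  · rintro R ⟨hR, hR0, hmin⟩
    refine ⟨(hmem _ fun _ => rfl).mpr hR, ?_, ?_⟩
    · intro h
      apply hR0
      funext e
      exact congrFun h (Sum.inl e)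
    · intro D hD hD0 hsub
      have hz := hzero D hD
      have h3 : (fun e => D (Sum.inl e)) = R := by
        apply hmin _ ((hmem D hz).mp hD)
        · intro h
          apply hD0
          rw [← hΦ D hz, h]
          exact map_zero _
        · intro e he
          simp only [supp, mem_filter, mem_univ, true_and] at he ⊢
          have h4 : Sum.inl e ∈ supp (joΦ k R) := hsub (by
            simp only [supp, mem_filter, mem_univ, true_and]
            exact he)
          simp only [supp, mem_filter, mem_univ, true_and] at h4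
          exact h4
      rw [← hΦ D hz, h3]
  · intro R hR x hx
    simp only [GM.vs, mem_filter, mem_univ, true_and, GM.dt] at hx ⊢
    obtain ⟨⟨e, b⟩, hd, hd0⟩ := hx
    cases e with
    | inl e =>
      refine ⟨(e, b), ?_, hd0⟩
      cases b <;> exact hd
    | inr j => exact absurd rfl hd0
  · intro y
    have h3 : univ.filter (fun x' : V => (id x' : V) = y) = {y} := by
      ext z
      simp
    change ∑ x' ∈ univ.filter (fun x' : V => (id x' : V) = y), ((joG H k a).deg x' - 2) ≤
      H.deg y - 2 + 2
    rw [h3, Finset.sum_singleton]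
    have := hdeg y
    have := h2 y
    omega
  · refine ⟨hV, fun S hS hS' => ?_⟩
    by_contra hcon
    push Not at hcon
    have hclosed : ∀ e : E, H.s e ∈ S ↔ H.t e ∈ S := by
      intro e
      have h3 := hcon (Sum.inl e)
      change (H.s e ∈ S → H.t e ∈ S) ∧ (H.s e ∉ S → H.t e ∉ S) at h3
      tauto
    have hstep : ∀ j : Fin k, a j.castSucc ∈ S ↔ a j.succ ∈ S := by
      intro j
      have h3 := hcon (Sum.inr j)
      change (a j.castSucc ∈ S → a j.succ ∈ S) ∧ (a j.castSucc ∉ S → a j.succ ∉ S) at h3
      tauto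
    have hall : ∀ i : Fin (k + 1), a i ∈ S ↔ a 0 ∈ S := by
      intro i
      induction i using Fin.induction with
      | zero => rfl
      | succ i ih => rw [← hstep, ih]
    have hx : ∀ x, x ∈ S ↔ a 0 ∈ S := by
      intro x
      rw [← hall (cl x)]
      exact hcleq x (a (cl x)) (hcla (cl x)).symm S hclosed
    obtain ⟨x, hxS⟩ := hS
    apply hS'
    rw [Finset.eq_univ_iff_forall]
    intro y
    rw [hx, ← hx x]
    exact hxS
  · intro y
    exact (h2 y).trans (hdeg y).1

end Pool.Agent.Lib.MP_af4270_co
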