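import Pool.Agent.Lib.MP_af4270_co.GMCv

/-!
# PAN-E: splitting a vertex of degree at least 4
-/

set_option autoImplicit false
set_option linter.unusedSectionVars false
set_option linter.unusedVariables false

namespace Pool.Agent.Lib.MP_af4270_co

open Finset

variable {V E : Type} [Fintype V] [DecidableEq V] [Fintype E] [DecidableEq E]

/-- move two darts with the same tail to a new vertex `none`, joined to the old one by the new edge `none` -/
def GM.split (H : GM V E) (δ₁ δ₂ : E × Bool) : GM (Option V) (Option E) where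
  s := fun e => match e with
    | none => some (H.tl δ₁)
    | some e => if (e, false) = δ₁ ∨ (e, false) = δ₂ then none else some (H.s e)
  t := fun e => match e with
    | none => none
    | some e => if (e, true) = δ₁ ∨ (e, true) = δ₂ then none else some (H.t e)

/-- sums over the darts of the new graph -/
theorem sp_sum (H : GM V E) (δ₁ δ₂ : E × Bool) {M : Type} [AddCommMonoid M]
    (F : Option E × Bool → M) (x : Option V) :
    ∑ d ∈ (H.split δ₁ δ₂).dt x, F d =
      (if x = some (H.tl δ₁) then F (none, false) else 0) + (if x = none then F (none, true) else 0) +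
        ∑ d : E × Bool, if (if d = δ₁ ∨ d = δ₂ then none else some (H.tl d)) = x then
          F (some d.1, d.2) else 0 := by
  have h1 : ∑ d ∈ (H.split δ₁ δ₂).dt x, F d =
      ∑ d : Option E × Bool, if (H.split δ₁ δ₂).tl d = x then F d else 0 := by
    rw [GM.dt, Finset.sum_filter]
  rw [h1, Fintype.sum_prod_type, Fintype.sum_option, Fintype.sum_prod_type]
  congr 1
  · rw [Fintype.sum_bool, add_comm]
    congr 1
    · by_cases h : x = some (H.tl δ₁)
      · rw [if_pos h, if_pos]
        rw [h]; rfl
      · rw [if_neg h, if_neg]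
        intro h'
        exact h h'.symm
    · by_cases h : x = none
      · rw [if_pos h, if_pos]
        rw [h]; rfl
      · rw [if_neg h, if_neg]
        intro h'
        exact h h'.symm

/-- sums over the darts at the new vertex -/
theorem sp_none (H : GM V E) (δ₁ δ₂ : E × Bool) (hne : δ₁ ≠ δ₂) {M : Type} [AddCommMonoid M]
    (F : Option E × Bool → M) :
    ∑ d ∈ (H.split δ₁ δ₂).dt none, F d =
      F (none, true) + (F (some δ₁.1, δ₁.2) + F (some δ₂.1, δ₂.2)) := by
  rw [sp_sum, if_neg (by simp), if_pos rfl, zero_add]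
  congr 1
  have h1 : ∀ d : E × Bool, (if (if d = δ₁ ∨ d = δ₂ then none else some (H.tl d)) = none then
      F (some d.1, d.2) else 0) = if d ∈ ({δ₁, δ₂} : Finset (E × Bool)) then
        F (some d.1, d.2) else 0 := by
    intro d
    by_cases h : d = δ₁ ∨ d = δ₂
    · rw [if_pos h, if_pos rfl, if_pos]
      simpa using h
    · rw [if_neg h, if_neg (by simp), if_neg]
      simpa using h
  rw [Finset.sum_congr rfl fun d _ => h1 d, Finset.sum_ite_mem, Finset.univ_inter,
    Finset.sum_pair hne]

/-- sums over the darts at an old vertex -/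
theorem sp_some (H : GM V E) (δ₁ δ₂ : E × Bool) (h : H.tl δ₁ = H.tl δ₂) (hne : δ₁ ≠ δ₂)
    {M : Type} [AddCommMonoid M] (F : Option E × Bool → M) (x : V) :
    (∑ d ∈ (H.split δ₁ δ₂).dt (some x), F d) +
        (if x = H.tl δ₁ then F (some δ₁.1, δ₁.2) + F (some δ₂.1, δ₂.2) else 0) =
      (if x = H.tl δ₁ then F (none, false) else 0) + ∑ d ∈ H.dt x, F (some d.1, d.2) := by
  rw [sp_sum, if_neg (show ¬ (some x = (none : Option V)) by simp), add_zero, add_assoc]
  have e0 : (if some x = some (H.tl δ₁) then F (none, false) else 0) =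
      if x = H.tl δ₁ then F (none, false) else 0 := by
    by_cases hx : x = H.tl δ₁
    · rw [if_pos hx, if_pos (by rw [hx])]
    · rw [if_neg hx, if_neg]
      intro h'
      exact hx (Option.some_injective _ h')
  rw [e0]
  congr 1
  have h2 : (if x = H.tl δ₁ then F (some δ₁.1, δ₁.2) + F (some δ₂.1, δ₂.2) else 0) =
      ∑ d : E × Bool, if (d ∈ ({δ₁, δ₂} : Finset (E × Bool)) ∧ x = H.tl δ₁) then
        F (some d.1, d.2) else 0 := by
    by_cases hx : x = H.tl δ₁
    · rw [if_pos hx]
      simp only [hx, and_true]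
      rw [Finset.sum_ite_mem, Finset.univ_inter, Finset.sum_pair hne]
    · rw [if_neg hx]
      simp only [hx, and_false, if_false]
      rw [Finset.sum_const_zero]
  rw [h2, ← Finset.sum_add_distrib, GM.dt, Finset.sum_filter]
  refine Finset.sum_congr rfl fun d _ => ?_
  by_cases hd : d = δ₁ ∨ d = δ₂
  · have hd' : d ∈ ({δ₁, δ₂} : Finset (E × Bool)) := by simpa using hd
    have htl : H.tl d = H.tl δ₁ := by
      rcases hd with rfl | rfl
      · rfl
      · exact h.symm
    rw [if_pos hd, if_neg (by simp), zero_add, htl]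
    by_cases hx : x = H.tl δ₁
    · rw [if_pos ⟨hd', hx⟩, if_pos hx.symm]
    · rw [if_neg (fun h' => hx h'.2), if_neg (fun h' => hx h'.symm)]
  · have hd' : d ∉ ({δ₁, δ₂} : Finset (E × Bool)) := by simpa using hd
    rw [if_neg hd, if_neg (show ¬ (d ∈ ({δ₁, δ₂} : Finset (E × Bool)) ∧ x = H.tl δ₁) from
      fun h' => hd' h'.1), add_zero]
    by_cases hx : H.tl d = x
    · rw [if_pos (by rw [hx]), if_pos hx]
    · rw [if_neg, if_neg hx]
      intro h'
      exact hx (Option.some_injective _ h')

theorem sp_deg_none (H : GM V E) (δ₁ δ₂ : E × Bool) (hne : δ₁ ≠ δ₂) :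
    (H.split δ₁ δ₂).deg none = 3 := by
  have := sp_none H δ₁ δ₂ hne (fun _ => 1)
  rw [Finset.sum_const, smul_eq_mul, mul_one] at this
  exact this

theorem sp_deg_some (H : GM V E) (δ₁ δ₂ : E × Bool) (h : H.tl δ₁ = H.tl δ₂) (hne : δ₁ ≠ δ₂)
    (x : V) : (H.split δ₁ δ₂).deg (some x) + (if x = H.tl δ₁ then 1 else 0) = H.deg x := by
  have := sp_some H δ₁ δ₂ h hne (fun _ => 1) x
  rw [Finset.sum_const, smul_eq_mul, mul_one, Finset.sum_const, smul_eq_mul, mul_one] at this
  change (H.split δ₁ δ₂).deg (some x) + _ = _ + H.deg x at this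
  split_ifs at this ⊢ <;> omega

/-- even sets of the new graph -/
theorem sp_mem (H : GM V E) (δ₁ δ₂ : E × Bool) (h : H.tl δ₁ = H.tl δ₂) (hne : δ₁ ≠ δ₂)
    (R : Option E → ZMod 2) : R ∈ (H.split δ₁ δ₂).Z ↔
      R none = R (some δ₁.1) + R (some δ₂.1) ∧ (fun e => R (some e)) ∈ H.Z := by
  have hadd : ∀ a b : ZMod 2, a + b = 0 ↔ a = b := by decide
  have hcancel : ∀ a b : ZMod 2, a + b = a ↔ b = 0 := by decide
  have hsome := fun x => sp_some H δ₁ δ₂ h hne (fun d : Option E × Bool => R d.1) x
  have hnone := sp_none H δ₁ δ₂ hne (fun d : Option E × Bool => R d.1)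
  constructor
  · intro hR
    have h1 : R none = R (some δ₁.1) + R (some δ₂.1) := by
      have h2 : ∑ d ∈ (H.split δ₁ δ₂).dt none, R d.1 = 0 := hR none
      rw [hnone] at h2
      exact (hadd _ _).mp h2
    refine ⟨h1, fun x => ?_⟩
    have h2 : ∑ d ∈ (H.split δ₁ δ₂).dt (some x), R d.1 = 0 := hR (some x)
    have h3 := hsome x
    rw [h2, zero_add] at h3
    by_cases hx : x = H.tl δ₁
    · rw [if_pos hx, if_pos hx, h1] at h3
      exact (hcancel _ _).mp h3.symm
    · rw [if_neg hx, if_neg hx, zero_add] at h3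
      exact h3.symm
  · rintro ⟨h1, h2⟩ x
    change ∑ d ∈ (H.split δ₁ δ₂).dt x, R d.1 = 0
    cases x with
    | none =>
      rw [hnone]
      exact (hadd _ _).mpr h1
    | some x =>
      have h3 := hsome x
      have h4 : ∑ d ∈ H.dt x, R (some d.1) = 0 := h2 x
      rw [h4, add_zero] at h3
      by_cases hx : x = H.tl δ₁
      · rw [if_pos hx, if_pos hx, h1, add_comm] at h3
        exact (hcancel _ _).mp h3
      · rwa [if_neg hx, if_neg hx, add_zero] at h3

/-- the map on edge vectors -/
def spΦ (δ₁ δ₂ : E × Bool) : (E → ZMod 2) →ₗ[ZMod 2] (Option E → ZMod 2) where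
  toFun R := fun e => match e with
    | none => R δ₁.1 + R δ₂.1
    | some e => R e
  map_add' R D := by
    funext e
    cases e with
    | none => simp only [Pi.add_apply]; ring
    | some e => rfl
  map_smul' c R := by
    funext e
    cases e with
    | none => simp only [Pi.smul_apply, smul_eq_mul, RingHom.id_apply]; ring
    | some e => rfl

/-- the model -/
def spCv (H : GM V E) (δ₁ δ₂ : E × Bool) (h : H.tl δ₁ = H.tl δ₂) (hne : δ₁ ≠ δ₂) :
    Cv H (H.split δ₁ δ₂) where
  Φ := spΦ δ₁ δ₂
  ι := fun x => x.getD (H.tl δ₁)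
  maps := by
    intro R hR
    rw [sp_mem H δ₁ δ₂ h hne]
    exact ⟨rfl, hR⟩
  inj := by
    intro R _ h0
    funext e
    exact congrFun h0 (some e)
  surj := by
    intro R hR
    rw [sp_mem H δ₁ δ₂ h hne] at hR
    refine ⟨_, hR.2, ?_⟩
    funext e
    cases e with
    | none => exact hR.1.symm
    | some e => rfl
  single := by
    rintro R ⟨hR, hR0, hmin⟩
    refine ⟨(sp_mem H δ₁ δ₂ h hne _).mpr ⟨rfl, hR⟩, ?_, ?_⟩
    · intro h0
      apply hR0
      funext e
      exact congrFun h0 (some e)
    · intro D hD hD0 hsub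
      have hD' := (sp_mem H δ₁ δ₂ h hne D).mp hD
      have h1 : (fun e => D (some e)) = R := by
        apply hmin _ hD'.2
        · intro h0
          apply hD0
          funext e
          have h2 : ∀ e, D (some e) = 0 := fun e => congrFun h0 e
          cases e with
          | none => rw [hD'.1, h2, h2]; rfl
          | some e => exact h2 e
        · intro e he
          simp only [supp, mem_filter, mem_univ, true_and] at he ⊢
          have h2 : some e ∈ supp (spΦ δ₁ δ₂ R) := hsub (by
            simp only [supp, mem_filter, mem_univ, true_and]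
            exact he)
          simp only [supp, mem_filter, mem_univ, true_and] at h2
          exact h2
      funext e
      cases e with
      | none =>
        rw [hD'.1, ← h1]
        rfl
      | some e => exact congrFun h1 e
  vert := by
    intro R hR x' hx'
    have hy : R δ₁.1 + R δ₂.1 ≠ 0 → H.tl δ₁ ∈ H.vs R := by
      intro h0
      by_cases h1 : R δ₁.1 ≠ 0
      · simp only [GM.vs, mem_filter, mem_univ, true_and]
        exact ⟨δ₁, by simp [GM.dt], h1⟩
      · rw [not_not] at h1
        rw [h1, zero_add] at h0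
        simp only [GM.vs, mem_filter, mem_univ, true_and]
        exact ⟨δ₂, by simp [GM.dt, h], h0⟩
    simp only [GM.vs, mem_filter, mem_univ, true_and] at hx'
    obtain ⟨⟨e, b⟩, hd, hd0⟩ := hx'
    simp only [GM.dt, mem_filter, mem_univ, true_and] at hd
    cases e with
    | none =>
      cases b with
      | false =>
        have : x' = some (H.tl δ₁) := hd.symm
        rw [this]
        exact hy hd0
      | true =>
        have : x' = none := hd.symm
        rw [this]
        exact hy hd0
    | some e =>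
      have hd2 : (if (e, b) = δ₁ ∨ (e, b) = δ₂ then none else some (H.tl (e, b))) = x' := by
        rw [← hd]
        cases b <;> rfl
      by_cases hc : (e, b) = δ₁ ∨ (e, b) = δ₂
      · rw [if_pos hc] at hd2
        rw [← hd2]
        change H.tl δ₁ ∈ H.vs R
        simp only [GM.vs, mem_filter, mem_univ, true_and]
        refine ⟨(e, b), ?_, hd0⟩
        simp only [GM.dt, mem_filter, mem_univ, true_and]
        rcases hc with hc | hc
        · rw [hc]
        · rw [hc, h]
      · rw [if_neg hc] at hd2
        rw [← hd2]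
        change H.tl (e, b) ∈ H.vs R
        simp only [GM.vs, mem_filter, mem_univ, true_and]
        exact ⟨(e, b), by simp [GM.dt], hd0⟩

/-- Proof. `y = tl δ₁`. Darts at `none`: `δ₁, δ₂` and one of the new edge: degree 3; degree of `some y`: `deg y - 2 + 1`; other degrees unchanged.
`Φ R = R` on `some e`, `Φ R none = R δ₁.1 + R δ₂.1`; restriction is the inverse. Minimality: if `D' ≤ Φ R` is even and nonzero then its restriction is nonzero (the set `{none}` alone is not
even at the vertex `none`), even, contained in `R`. `ι none = y`, `ι (some x) = x`: if `none ∈ vs (Φ R)` then some dart of `R` is at `y` (`Φ R none ≠ 0` implies `R δ₁.1 ≠ 0` or `R δ₂.1 ≠ 0`).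
Connected: a closed set `S'` of the new graph contains `none` iff it contains `some y`; `{x : some x ∈ S'}` is closed in `H`. -/
theorem split_cv (H : GM V E) (δ₁ δ₂ : E × Bool) (h : H.tl δ₁ = H.tl δ₂) (hne : δ₁ ≠ δ₂)
    (h4 : 4 ≤ H.deg (H.tl δ₁)) (hc : H.Conn) (h2 : ∀ x, 2 ≤ H.deg x) :
    ∃ c : Cv H (H.split δ₁ δ₂), c.DegLe 0 ∧ (H.split δ₁ δ₂).Conn ∧
      (∀ x, 2 ≤ (H.split δ₁ δ₂).deg x) ∧
      ∑ x, ((H.split δ₁ δ₂).deg x - 3) < ∑ x, (H.deg x - 3) := by
  have hdn := sp_deg_none H δ₁ δ₂ hne
  have hds := sp_deg_some H δ₁ δ₂ h hne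
  refine ⟨spCv H δ₁ δ₂ h hne, ?_, ?_, ?_, ?_⟩
  · intro y
    rw [Finset.sum_filter, Fintype.sum_option]
    have h5 : ∀ x : V, (if (spCv H δ₁ δ₂ h hne).ι (some x) = y then
        ((H.split δ₁ δ₂).deg (some x) - 2) else 0) =
          if x = y then ((H.split δ₁ δ₂).deg (some x) - 2) else 0 := fun x => rfl
    rw [Finset.sum_congr rfl fun x _ => h5 x, Finset.sum_ite_eq' univ y]
    rw [if_pos (mem_univ _)]
    have h6 : (if (spCv H δ₁ δ₂ h hne).ι none = y then ((H.split δ₁ δ₂).deg none - 2) else 0) =
        if H.tl δ₁ = y then 1 else 0 := by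
      rw [hdn]
      rfl
    rw [h6]
    have h7 := hds y
    by_cases hy : y = H.tl δ₁
    · rw [if_pos hy] at h7
      rw [if_pos hy.symm]
      rw [← hy] at h4
      omega
    · rw [if_neg hy] at h7
      rw [if_neg (fun h' => hy h'.symm)]
      omega
  · refine ⟨⟨none⟩, fun S hS hS' => ?_⟩
    by_cases hcase : none ∈ S ↔ some (H.tl δ₁) ∈ S
    · obtain ⟨e, he⟩ := hc.2 (univ.filter fun x => some x ∈ S) (by
        obtain ⟨x, hx⟩ := hS
        cases x with
        | none => exact ⟨H.tl δ₁, by simpa using hcase.mp hx⟩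
        | some x => exact ⟨x, by simpa using hx⟩) (by
        intro huniv
        apply hS'
        have hall : ∀ x, some x ∈ S := by
          intro x
          have : x ∈ univ.filter fun x => some x ∈ S := by
            rw [huniv]
            exact mem_univ x
          simpa using this
        rw [Finset.eq_univ_iff_forall]
        intro x
        cases x with
        | none => exact hcase.mpr (hall _)
        | some x => exact hall x)
      simp only [mem_filter, mem_univ, true_and] at he
      have hs : (H.split δ₁ δ₂).s (some e) ∈ S ↔ some (H.s e) ∈ S := by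
        change (if (e, false) = δ₁ ∨ (e, false) = δ₂ then none else some (H.s e)) ∈ S ↔ _
        by_cases hcc : (e, false) = δ₁ ∨ (e, false) = δ₂
        · rw [if_pos hcc, hcase]
          have : H.s e = H.tl δ₁ := by
            rcases hcc with hcc | hcc
            · rw [← hcc]; rfl
            · rw [h, ← hcc]; rfl
          rw [this]
        · rw [if_neg hcc]
      have ht : (H.split δ₁ δ₂).t (some e) ∈ S ↔ some (H.t e) ∈ S := by
        change (if (e, true) = δ₁ ∨ (e, true) = δ₂ then none else some (H.t e)) ∈ S ↔ _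
        by_cases hcc : (e, true) = δ₁ ∨ (e, true) = δ₂
        · rw [if_pos hcc, hcase]
          have : H.t e = H.tl δ₁ := by
            rcases hcc with hcc | hcc
            · rw [← hcc]; rfl
            · rw [h, ← hcc]; rfl
          rw [this]
        · rw [if_neg hcc]
      exact ⟨some e, by rw [hs, ht]; exact he⟩
    · refine ⟨none, ?_⟩
      change (some (H.tl δ₁) ∈ S ∧ none ∉ S) ∨ (some (H.tl δ₁) ∉ S ∧ none ∈ S)
      tauto
  · intro x
    cases x with
    | none => rw [hdn]; norm_num
    | some x =>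
      have h7 := hds x
      by_cases hx : x = H.tl δ₁
      · rw [if_pos hx] at h7
        rw [← hx] at h4
        omega
      · rw [if_neg hx] at h7
        have := h2 x
        omega
  · rw [Fintype.sum_option, hdn]
    simp only [Nat.sub_self, zero_add]
    apply Finset.sum_lt_sum
    · intro x _
      have h7 := hds x
      split_ifs at h7 <;> omega
    · refine ⟨H.tl δ₁, mem_univ _, ?_⟩
      have h7 := hds (H.tl δ₁)
      rw [if_pos rfl] at h7
      omega

theorem sp_aux (N : ℕ) : ∀ (V E : Type) [Fintype V] [DecidableEq V] [Fintype E] [DecidableEq E]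
    (H : GM V E), H.Conn → (∀ x, 2 ≤ H.deg x) → ∑ x, (H.deg x - 3) ≤ N →
    ∃ (V' E' : Type) (_ : Fintype V') (_ : DecidableEq V') (_ : Fintype E') (_ : DecidableEq E')
      (H' : GM V' E') (c : Cv H H'), c.DegLe 0 ∧ H'.Conn ∧ ∀ x, 2 ≤ H'.deg x ∧ H'.deg x ≤ 3 := by
  induction N with
  | zero =>
    intro V E _ _ _ _ H hc h2 hN
    obtain ⟨c, hcd⟩ := Cv.refl' H
    refine ⟨V, E, _, _, _, _, H, c, hcd, hc, fun x => ⟨h2 x, ?_⟩⟩
    have h3 := Finset.single_le_sum (f := fun x => H.deg x - 3) (fun _ _ => Nat.zero_le _)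
      (mem_univ x)
    have h4 : H.deg x - 3 ≤ 0 := h3.trans hN
    omega
  | succ N ih =>
    intro V E _ _ _ _ H hc h2 hN
    by_cases hall : ∀ x, H.deg x ≤ 3
    · obtain ⟨c, hcd⟩ := Cv.refl' H
      exact ⟨V, E, _, _, _, _, H, c, hcd, hc, fun x => ⟨h2 x, hall x⟩⟩
    · push Not at hall
      obtain ⟨x, hx⟩ := hall
      have hone : 1 < (H.dt x).card := by
        change 1 < H.deg x
        omega
      obtain ⟨δ₁, h1, δ₂, h1', hne⟩ := Finset.one_lt_card.mp hone
      simp only [GM.dt, mem_filter, mem_univ, true_and] at h1 h1'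
      obtain ⟨c, hcd, hconn, hdeg, hlt⟩ := split_cv H δ₁ δ₂ (by rw [h1, h1']) hne
        (by rw [h1]; omega) hc h2
      obtain ⟨V', E', i1, i2, i3, i4, H', c', hcd', hconn', hdeg'⟩ :=
        ih (Option V) (Option E) (H.split δ₁ δ₂) hconn hdeg (by omega)
      obtain ⟨c'', hc''⟩ := Cv.comp' c c' hcd hcd'
      exact ⟨V', E', i1, i2, i3, i4, H', c'', hc'', hconn', hdeg'⟩

/-- Proof. Induction on `∑ (deg x - 3)` with `split_cv`. -/
theorem split_all (H : GM V E) (hc : H.Conn) (h2 : ∀ x, 2 ≤ H.deg x) :
    ∃ (V' E' : Type) (_ : Fintype V') (_ : DecidableEq V') (_ : Fintype E') (_ : DecidableEq E')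
      (H' : GM V' E') (c : Cv H H'), c.DegLe 0 ∧ H'.Conn ∧ ∀ x, 2 ≤ H'.deg x ∧ H'.deg x ≤ 3 :=
  sp_aux _ V E H hc h2 le_rfl

end Pool.Agent.Lib.MP_af4270_co
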