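import Pool.Agent.Lib.MP_af4270_co.GMCv

/-!
# PAN-E: suppressing vertices of degree 2
-/

set_option autoImplicit false
set_option linter.unusedSectionVars false
set_option linter.unusedVariables false

namespace Pool.Agent.Lib.MP_af4270_co

open Finset

variable {V E : Type} [Fintype V] [DecidableEq V] [Fintype E] [DecidableEq E]

namespace GM

variable (H : GM V E)

/-- the other end of a dart -/
theorem su_tl (e : E) (b : Bool) : H.tl (e, b) = if b then H.t e else H.s e := rfl

theorem su_mem_dt {x : V} {d : E × Bool} : d ∈ H.dt x ↔ H.tl d = x := by simp [GM.dt]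

/-- the new tail of a dart when `x` is suppressed: `x` is replaced by `z` -/
def suT (x : V) (z : {y : V // y ≠ x}) (d : E × Bool) : {y : V // y ≠ x} :=
  if h : H.tl d ≠ x then ⟨H.tl d, h⟩ else z

/-- the graph with `x` suppressed -/
def suG (x : V) (z : {y : V // y ≠ x}) (e₂ : E) : GM {y : V // y ≠ x} {e : E // e ≠ e₂} where
  s := fun e => H.suT x z (e.1, false)
  t := fun e => H.suT x z (e.1, true)

theorem su_tl' (x : V) (z : {y : V // y ≠ x}) (e₂ : E) (d : {e : E // e ≠ e₂} × Bool) :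
    (H.suG x z e₂).tl d = H.suT x z (d.1.1, d.2) := by
  obtain ⟨e, b⟩ := d
  cases b <;> rfl

end GM

/-- sums over darts of the new graph -/
theorem su_sum (H : GM V E) (x : V) (z : {y : V // y ≠ x}) (e₁ e₂ : E) (b₁ b₂ : Bool)
    (he : e₁ ≠ e₂) (hdt : H.dt x = {(e₁, b₁), (e₂, b₂)}) (hz : H.tl (e₂, !b₂) = z.1)
    {M : Type} [AddCommMonoid M] (F : E × Bool → M) (hF : F (e₁, b₁) = F (e₂, !b₂))
    (y : {y : V // y ≠ x}) :
    ∑ d ∈ (H.suG x z e₂).dt y, F (d.1.1, d.2) = ∑ d ∈ H.dt y.1, F d := by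
  have htl : ∀ d : E × Bool, H.tl d = x ↔ d = (e₁, b₁) ∨ d = (e₂, b₂) := by
    intro d
    rw [← H.su_mem_dt, hdt, mem_insert, mem_singleton]
  -- a bijection
  symm
  apply Finset.sum_bij' (i := fun d _ => if h : d.1 ≠ e₂ then ((⟨d.1, h⟩, d.2) :
      {e : E // e ≠ e₂} × Bool) else (⟨e₁, he⟩, b₁))
    (j := fun d _ => if ((d.1.1, d.2) : E × Bool) = (e₁, b₁) then (e₂, !b₂) else (d.1.1, d.2))
  · intro d hd
    rw [H.su_mem_dt] at hd
    rw [GM.su_mem_dt, GM.su_tl']
    by_cases h : d.1 ≠ e₂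
    · rw [dif_pos h]
      unfold GM.suT
      have h1 : H.tl (d.1, d.2) ≠ x := by
        change H.tl d ≠ x
        rw [hd]
        exact y.2
      rw [dif_pos h1]
      exact Subtype.ext hd
    · rw [dif_neg h]
      rw [not_not] at h
      unfold GM.suT
      have h1 : ¬ (H.tl (e₁, b₁) ≠ x) := by
        rw [not_not, htl]
        left; rfl
      dsimp only
      rw [dif_neg h1]
      apply Subtype.ext
      rw [← hz, ← hd]
      have h2 : d ≠ (e₂, b₂) := by
        intro h'
        have := (htl d).mpr (Or.inr h')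
        rw [hd] at this
        exact y.2 this
      obtain ⟨e, b⟩ := d
      dsimp only at h
      subst h
      have h3 : b = !b₂ := by
        cases b <;> cases b₂ <;> simp_all
      rw [h3]
  · intro d hd
    rw [GM.su_mem_dt, GM.su_tl'] at hd
    rw [H.su_mem_dt]
    by_cases h : ((d.1.1, d.2) : E × Bool) = (e₁, b₁)
    · rw [if_pos h, hz, ← hd]
      unfold GM.suT
      rw [h, dif_neg]
      rw [not_not, htl]
      left; rfl
    · rw [if_neg h]
      unfold GM.suT at hd
      have h1 : H.tl (d.1.1, d.2) ≠ x := by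
        intro h'
        rcases (htl _).mp h' with h2 | h2
        · exact h h2
        · exact d.1.2 (congrArg Prod.fst h2)
      rw [dif_pos h1] at hd
      rw [← hd]
  · intro d hd
    rw [H.su_mem_dt] at hd
    by_cases h : d.1 ≠ e₂
    · rw [dif_pos h]
      dsimp only
      rw [if_neg]
      intro h'
      have := (htl d).mpr (Or.inl h')
      rw [hd] at this
      exact y.2 this
    · rw [dif_neg h]
      dsimp only
      rw [if_pos rfl]
      rw [not_not] at h
      have h2 : d ≠ (e₂, b₂) := by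
        intro h'
        have := (htl d).mpr (Or.inr h')
        rw [hd] at this
        exact y.2 this
      obtain ⟨e, b⟩ := d
      dsimp only at h
      subst h
      have h3 : b = !b₂ := by
        cases b <;> cases b₂ <;> simp_all
      rw [h3]
  · intro d hd
    by_cases h : ((d.1.1, d.2) : E × Bool) = (e₁, b₁)
    · rw [if_pos h, dif_neg (by simp)]
      obtain ⟨⟨e, he'⟩, b⟩ := d
      rw [Prod.mk.injEq] at h
      obtain ⟨h1, h2⟩ := h
      dsimp only at h1 h2
      subst h1 h2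
      rfl
    · rw [if_neg h, dif_pos d.1.2]
  · intro d hd
    by_cases h : d.1 ≠ e₂
    · rw [dif_pos h]
    · rw [dif_neg h]
      dsimp only
      rw [hF]
      rw [not_not] at h
      rw [H.su_mem_dt] at hd
      have h2 : d ≠ (e₂, b₂) := by
        intro h'
        have := (htl d).mpr (Or.inr h')
        rw [hd] at this
        exact y.2 this
      obtain ⟨e, b⟩ := d
      dsimp only at h
      subst h
      have h3 : b = !b₂ := by
        cases b <;> cases b₂ <;> simp_all
      rw [h3]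

/-- the restriction map -/
def suΦ (e₂ : E) : (E → ZMod 2) →ₗ[ZMod 2] ({e : E // e ≠ e₂} → ZMod 2) where
  toFun R := fun e => R e.1
  map_add' R D := rfl
  map_smul' c R := rfl

theorem su_eq (H : GM V E) (x : V) (e₁ e₂ : E) (b₁ b₂ : Bool) (he : e₁ ≠ e₂)
    (hdt : H.dt x = {(e₁, b₁), (e₂, b₂)}) {R : E → ZMod 2} (hR : R ∈ H.Z) : R e₁ = R e₂ := by
  have h1 : ∑ d ∈ H.dt x, R d.1 = 0 := hR x
  rw [hdt, Finset.sum_pair (by simp [he])] at h1
  revert h1
  generalize R e₁ = a
  generalize R e₂ = b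
  revert a b
  decide

theorem su_mem (H : GM V E) (x : V) (z : {y : V // y ≠ x}) (e₁ e₂ : E) (b₁ b₂ : Bool)
    (he : e₁ ≠ e₂) (hdt : H.dt x = {(e₁, b₁), (e₂, b₂)}) (hz : H.tl (e₂, !b₂) = z.1)
    {R : E → ZMod 2} (h12 : R e₁ = R e₂) : R ∈ H.Z ↔ suΦ e₂ R ∈ (H.suG x z e₂).Z := by
  have hs := su_sum H x z e₁ e₂ b₁ b₂ he hdt hz (fun d : E × Bool => R d.1) h12
  constructor
  · intro hR y
    change ∑ d ∈ (H.suG x z e₂).dt y, R d.1.1 = 0
    rw [hs y]
    exact hR y.1
  · intro hR y
    by_cases hy : y = x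
    · change ∑ d ∈ H.dt y, R d.1 = 0
      rw [hy, hdt, Finset.sum_pair (by simp [he])]
      dsimp only
      rw [h12]
      generalize R e₂ = a
      revert a
      decide
    · change ∑ d ∈ H.dt y, R d.1 = 0
      rw [← hs ⟨y, hy⟩]
      exact hR ⟨y, hy⟩

/-- extension of an edge vector -/
def suX (e₁ e₂ : E) (he : e₁ ≠ e₂) (R : {e : E // e ≠ e₂} → ZMod 2) : E → ZMod 2 :=
  fun e => if h : e ≠ e₂ then R ⟨e, h⟩ else R ⟨e₁, he⟩

theorem su_res (e₁ e₂ : E) (he : e₁ ≠ e₂) (R : {e : E // e ≠ e₂} → ZMod 2) :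
    suΦ e₂ (suX e₁ e₂ he R) = R := by
  funext e
  change suX e₁ e₂ he R e.1 = R e
  unfold suX
  rw [dif_pos e.2]

theorem su_X12 (e₁ e₂ : E) (he : e₁ ≠ e₂) (R : {e : E // e ≠ e₂} → ZMod 2) :
    suX e₁ e₂ he R e₁ = suX e₁ e₂ he R e₂ := by
  unfold suX
  rw [dif_pos he, dif_neg (by simp)]

/-- the model -/
def suCv (H : GM V E) (x : V) (z : {y : V // y ≠ x}) (e₁ e₂ : E) (b₁ b₂ : Bool)
    (he : e₁ ≠ e₂) (hdt : H.dt x = {(e₁, b₁), (e₂, b₂)}) (hz : H.tl (e₂, !b₂) = z.1) :
    Cv H (H.suG x z e₂) where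
  Φ := suΦ e₂
  ι := fun y => y.1
  maps := by
    intro R hR
    exact (su_mem H x z e₁ e₂ b₁ b₂ he hdt hz (su_eq H x e₁ e₂ b₁ b₂ he hdt hR)).mp hR
  inj := by
    intro R hR h0
    have h1 : ∀ e, e ≠ e₂ → R e = 0 := fun e h => congrFun h0 ⟨e, h⟩
    funext e
    by_cases h : e = e₂
    · rw [h, ← su_eq H x e₁ e₂ b₁ b₂ he hdt hR]
      exact h1 e₁ he
    · exact h1 e h
  surj := by
    intro R hR
    refine ⟨suX e₁ e₂ he R, ?_, su_res e₁ e₂ he R⟩
    rw [su_mem H x z e₁ e₂ b₁ b₂ he hdt hz (su_X12 e₁ e₂ he R), su_res]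
    exact hR
  single := by
    rintro R ⟨hR, hR0, hmin⟩
    have h12 := su_eq H x e₁ e₂ b₁ b₂ he hdt hR
    refine ⟨(su_mem H x z e₁ e₂ b₁ b₂ he hdt hz h12).mp hR, ?_, ?_⟩
    · intro h0
      apply hR0
      have h1 : ∀ e, e ≠ e₂ → R e = 0 := fun e h => congrFun h0 ⟨e, h⟩
      funext e
      by_cases h : e = e₂
      · rw [h, ← h12]
        exact h1 e₁ he
      · exact h1 e h
    · intro D hD hD0 hsub
      have h1 : suX e₁ e₂ he D = R := by
        apply hmin
        · rw [su_mem H x z e₁ e₂ b₁ b₂ he hdt hz (su_X12 e₁ e₂ he D), su_res]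
          exact hD
        · intro h0
          apply hD0
          rw [← su_res e₁ e₂ he D, h0]
          rfl
        · intro e hee
          simp only [supp, mem_filter, mem_univ, true_and] at hee ⊢
          by_cases h : e = e₂
          · rw [h] at hee ⊢
            rw [← su_X12] at hee
            unfold suX at hee
            rw [dif_pos he] at hee
            have h2 : (⟨e₁, he⟩ : {e : E // e ≠ e₂}) ∈ supp (suΦ e₂ R) := hsub (by
              simp only [supp, mem_filter, mem_univ, true_and]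
              exact hee)
            simp only [supp, mem_filter, mem_univ, true_and] at h2
            rw [← h12]
            exact h2
          · unfold suX at hee
            rw [dif_pos h] at hee
            have h2 : (⟨e, h⟩ : {e : E // e ≠ e₂}) ∈ supp (suΦ e₂ R) := hsub (by
              simp only [supp, mem_filter, mem_univ, true_and]
              exact hee)
            simp only [supp, mem_filter, mem_univ, true_and] at h2
            exact h2
      rw [← su_res e₁ e₂ he D, h1]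
  vert := by
    intro R hR y hy
    have h12 := su_eq H x e₁ e₂ b₁ b₂ he hdt hR
    simp only [GM.vs, mem_filter, mem_univ, true_and] at hy ⊢
    obtain ⟨d, hd, hd0⟩ := hy
    rw [GM.su_mem_dt, GM.su_tl'] at hd
    unfold GM.suT at hd
    by_cases h : H.tl (d.1.1, d.2) ≠ x
    · rw [dif_pos h] at hd
      refine ⟨(d.1.1, d.2), ?_, hd0⟩
      rw [H.su_mem_dt, ← hd]
    · rw [dif_neg h] at hd
      rw [not_not] at h
      have h2 : ((d.1.1, d.2) : E × Bool) ∈ H.dt x := H.su_mem_dt.mpr h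
      rw [hdt, mem_insert, mem_singleton] at h2
      have h3 : d.1.1 = e₁ := by
        rcases h2 with h2 | h2
        · exact congrArg Prod.fst h2
        · exact absurd (congrArg Prod.fst h2) d.1.2
      refine ⟨(e₂, !b₂), ?_, ?_⟩
      · rw [H.su_mem_dt, hz, hd]
      · dsimp only
        rw [← h12, ← h3]
        exact hd0

/-- Proof. Let `x` have degree 2, darts `δ₁ = (e₁,b₁)`, `δ₂ = (e₂,b₂)`. `e₁ ≠ e₂`: otherwise `{x}` is closed, so `V = {x}` by connectedness, there is only the edge `e₁`, and `rk ≤ 1`.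
The other ends of `e₁` and `e₂` are not `x` (there are only two darts at `x`). `V' = {y // y ≠ x}`, `E' = {e // e ≠ e₂}`, the end `x` of `e₁` is replaced by the other end of `e₂` (this may create a loop,
which is allowed); the other edges of `E'` have no end `x`. `Φ` = restriction to `E'`; for `R ∈ Z(H)`: `R e₁ = R e₂`; inverse: `R e₂ := R e₁`. Degrees of the other vertices do not change. `ι y = y`. Minimality: an even
`D' ≤ Φ R` extends to an even `D ≤ R`. Connected: a closed set of the new graph, with `x` added iff it contains the other end of `e₂`, is closed in `H`. -/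
theorem supp_cv (H : GM V E) (x : V) (hx : H.deg x = 2) (hc : H.Conn) (hz : 2 ≤ H.rk univ)
    (h2 : ∀ y, 2 ≤ H.deg y ∧ H.deg y ≤ 3) :
    ∃ (V' E' : Type) (_ : Fintype V') (_ : DecidableEq V') (_ : Fintype E') (_ : DecidableEq E')
      (H' : GM V' E') (c : Cv H H'), c.DegLe 0 ∧ H'.Conn ∧ (∀ y, 2 ≤ H'.deg y ∧ H'.deg y ≤ 3) ∧
      Fintype.card V' < Fintype.card V := by
  obtain ⟨δ₁, δ₂, hne, hdt⟩ := Finset.card_eq_two.mp hx
  obtain ⟨e₁, b₁⟩ := δ₁
  obtain ⟨e₂, b₂⟩ := δ₂
  have htl : ∀ d : E × Bool, H.tl d = x ↔ d = (e₁, b₁) ∨ d = (e₂, b₂) := by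
    intro d
    rw [← H.su_mem_dt, hdt, mem_insert, mem_singleton]
  have he : e₁ ≠ e₂ := by
    intro heq
    subst heq
    have hb : b₂ = !b₁ := by
      cases b₁ <;> cases b₂ <;> simp_all
    have hends : ∀ e, (H.s e = x ∨ H.t e = x) → e = e₁ := by
      intro e h
      rcases h with h | h
      · rcases (htl (e, false)).mp h with h' | h' <;> exact congrArg Prod.fst h'
      · rcases (htl (e, true)).mp h with h' | h' <;> exact congrArg Prod.fst h'
    have hboth : H.s e₁ = x ∧ H.t e₁ = x := by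
      have h3 : H.tl (e₁, b₁) = x := (htl _).mpr (Or.inl rfl)
      have h4 : H.tl (e₁, b₂) = x := (htl _).mpr (Or.inr rfl)
      rw [hb] at h4
      cases b₁
      · exact ⟨h3, h4⟩
      · exact ⟨h4, h3⟩
    have huniv : ({x} : Finset V) = univ := by
      by_contra hcon
      obtain ⟨e, hee⟩ := hc.2 {x} (Finset.singleton_nonempty x) hcon
      simp only [mem_singleton] at hee
      rcases hee with ⟨h3, h4⟩ | ⟨h3, h4⟩
      · have := hends e (Or.inl h3)
        rw [this] at h4
        exact h4 hboth.2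
      · have := hends e (Or.inr h4)
        rw [this] at h3
        exact h3 hboth.1
    have hV : ∀ y, y = x := by
      intro y
      have : y ∈ ({x} : Finset V) := by rw [huniv]; exact mem_univ y
      simpa using this
    have hE : Fintype.card E ≤ 1 := by
      rw [Fintype.card_le_one_iff]
      intro a b
      rw [hends a (Or.inl (hV _)), hends b (Or.inl (hV _))]
    have h3 : H.rk univ ≤ Fintype.card E := by
      have h4 : H.rk univ ≤ Module.finrank (ZMod 2) (E → ZMod 2) := Submodule.finrank_le _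
      rwa [Module.finrank_fintype_fun_eq_card] at h4
    omega
  have hzx : H.tl (e₂, !b₂) ≠ x := by
    intro h
    rcases (htl _).mp h with h' | h'
    · exact he (congrArg Prod.fst h').symm
    · have := congrArg Prod.snd h'
      cases b₂ <;> simp at this
  obtain ⟨z, hz'⟩ : ∃ z : {y : V // y ≠ x}, H.tl (e₂, !b₂) = z.1 := ⟨⟨_, hzx⟩, rfl⟩
  have hdeg : ∀ y : {y : V // y ≠ x}, (H.suG x z e₂).deg y = H.deg y.1 := by
    intro y
    have := su_sum H x z e₁ e₂ b₁ b₂ he hdt hz' (fun _ => 1) rfl y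
    rwa [Finset.sum_const, Finset.sum_const, smul_eq_mul, smul_eq_mul, mul_one, mul_one] at this
  refine ⟨{y : V // y ≠ x}, {e : E // e ≠ e₂}, inferInstance, inferInstance, inferInstance,
    inferInstance, H.suG x z e₂, suCv H x z e₁ e₂ b₁ b₂ he hdt hz', ?_, ?_, ?_, ?_⟩
  · intro y
    by_cases hy : y = x
    · have h3 : univ.filter (fun x' => (suCv H x z e₁ e₂ b₁ b₂ he hdt hz').ι x' = y) = ∅ := by
        rw [Finset.eq_empty_iff_forall_notMem]
        intro y' hy'
        rw [mem_filter] at hy'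
        exact y'.2 (hy'.2.trans hy)
      rw [h3, Finset.sum_empty]
      exact Nat.zero_le _
    · have h3 : univ.filter (fun x' => (suCv H x z e₁ e₂ b₁ b₂ he hdt hz').ι x' = y) =
          {⟨y, hy⟩} := by
        ext y'
        rw [mem_filter, mem_singleton]
        constructor
        · rintro ⟨-, h⟩
          exact Subtype.ext h
        · rintro rfl
          exact ⟨mem_univ _, rfl⟩
      rw [h3, Finset.sum_singleton, hdeg]
      exact le_rfl
  · refine ⟨⟨z⟩, fun S hS hS' => ?_⟩
    -- the corresponding set of old vertices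
    set S₀ : Finset V := univ.filter fun y => if h : y ≠ x then (⟨y, h⟩ : {y : V // y ≠ x}) ∈ S
      else z ∈ S with hS₀
    have hmem : ∀ y : {y : V // y ≠ x}, y.1 ∈ S₀ ↔ y ∈ S := by
      intro y
      rw [hS₀, mem_filter]
      rw [dif_pos y.2]
      simp
    have hmemx : x ∈ S₀ ↔ z ∈ S := by
      rw [hS₀, mem_filter, dif_neg (by simp)]
      simp
    obtain ⟨e, hee⟩ := hc.2 S₀ (by
      obtain ⟨y, hy⟩ := hS
      exact ⟨y.1, (hmem y).mpr hy⟩) (by
      intro huniv
      apply hS'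
      rw [Finset.eq_univ_iff_forall]
      intro y
      rw [← hmem, huniv]
      exact mem_univ _)
    have hT : ∀ d : E × Bool, (H.suT x z d ∈ S ↔ H.tl d ∈ S₀) := by
      intro d
      unfold GM.suT
      by_cases h : H.tl d ≠ x
      · rw [dif_pos h, ← hmem]
      · rw [dif_neg h]
        rw [not_not] at h
        rw [h, hmemx]
    have hee₂ : e ≠ e₂ := by
      rintro rfl
      have h3 : H.tl (e, b₂) = x := (htl _).mpr (Or.inr rfl)
      have h4 : H.tl (e, b₂) ∈ S₀ ↔ H.tl (e, !b₂) ∈ S₀ := by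
        rw [h3, hz', hmemx, hmem]
      cases b₂
      · change H.s e ∈ S₀ ↔ H.t e ∈ S₀ at h4
        tauto
      · change H.t e ∈ S₀ ↔ H.s e ∈ S₀ at h4
        tauto
    refine ⟨⟨e, hee₂⟩, ?_⟩
    change (H.suT x z (e, false) ∈ S ∧ H.suT x z (e, true) ∉ S) ∨
      (H.suT x z (e, false) ∉ S ∧ H.suT x z (e, true) ∈ S)
    rw [hT, hT]
    exact hee
  · intro y
    rw [hdeg]
    exact h2 y.1
  · exact Fintype.card_subtype_lt (p := fun y => y ≠ x) (x := x) (by simp)

theorem su_aux (N : ℕ) : ∀ (V E : Type) [Fintype V] [DecidableEq V] [Fintype E] [DecidableEq E]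
    (H : GM V E), H.Conn → 2 ≤ H.rk univ → (∀ x, 2 ≤ H.deg x ∧ H.deg x ≤ 3) →
    Fintype.card V ≤ N →
    ∃ (V' E' : Type) (_ : Fintype V') (_ : DecidableEq V') (_ : Fintype E') (_ : DecidableEq E')
      (H' : GM V' E') (c : Cv H H'), c.DegLe 0 ∧ H'.Conn ∧ ∀ y, H'.deg y = 3 := by
  induction N with
  | zero =>
    intro V E _ _ _ _ H hc hz h2 hN
    exfalso
    obtain ⟨x⟩ := hc.1
    have := Fintype.card_pos_iff.mpr ⟨x⟩
    omega
  | succ N ih =>
    intro V E _ _ _ _ H hc hz h2 hN
    by_cases hall : ∀ x, H.deg x = 3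
    · obtain ⟨c, hcd⟩ := Cv.refl' H
      exact ⟨V, E, _, _, _, _, H, c, hcd, hc, hall⟩
    · push Not at hall
      obtain ⟨x, hx⟩ := hall
      have hx2 : H.deg x = 2 := by
        have := h2 x
        omega
      obtain ⟨V₁, E₁, i1, i2, i3, i4, H₁, c, hcd, hconn, hdeg, hlt⟩ :=
        supp_cv H x hx2 hc hz h2
      obtain ⟨V', E', j1, j2, j3, j4, H', c', hcd', hconn', hdeg'⟩ :=
        ih V₁ E₁ H₁ hconn (by rw [Cv.rk_eq c]; exact hz) hdeg (by omega)
      obtain ⟨c'', hc''⟩ := Cv.comp' c c' hcd hcd'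
      exact ⟨V', E', j1, j2, j3, j4, H', c'', hc'', hconn', hdeg'⟩

/-- Proof. Induction on `|V|` with `supp_cv` (rank: `Cv.rk_eq`). -/
theorem supp_all (H : GM V E) (hc : H.Conn) (hz : 2 ≤ H.rk univ)
    (h2 : ∀ y, 2 ≤ H.deg y ∧ H.deg y ≤ 3) :
    ∃ (V' E' : Type) (_ : Fintype V') (_ : DecidableEq V') (_ : Fintype E') (_ : DecidableEq E')
      (H' : GM V' E') (c : Cv H H'), c.DegLe 0 ∧ H'.Conn ∧ ∀ y, H'.deg y = 3 :=
  su_aux _ V E H hc hz h2 le_rfl

end Pool.Agent.Lib.MP_af4270_co
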