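import Pool.Agent.Lib.MP_af4270_co.GMCv
import Pool.Agent.Lib.MP_af4270_co.GMJoin
import Pool.Agent.Lib.MP_af4270_co.GMSplit
import Pool.Agent.Lib.MP_af4270_co.GMSupp

/-!
# PAN-E: the cubic model
-/

set_option autoImplicit false
set_option linter.unusedSectionVars false
set_option linter.unusedVariables false

namespace Pool.Agent.Lib.MP_af4270_co

open Finset

variable {V E : Type} [Fintype V] [DecidableEq V] [Fintype E] [DecidableEq E]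

/-- Proof. `join_cv`, then `split_all`, then `supp_all` (rank by `Cv.rk_eq`), composed with `Cv.comp'` (`DegLe 2`), `exists_cub`. In the cubic graph every `deg - 2` is 1, so
the number of vertices over `y` is at most `deg y - 2 + 2`. -/
theorem conv (H : GM V E) (hV : Nonempty V) (h2 : ∀ y, 2 ≤ H.deg y) (hz : 2 ≤ H.rk univ) :
    ∃ (V' E' : Type) (_ : Fintype V') (_ : DecidableEq V') (_ : Fintype E') (_ : DecidableEq E')
      (Γ : Cub V' E') (c : Cv H Γ.toGM), Γ.Conn univ ∧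
      ∀ y, (univ.filter (fun x' => c.ι x' = y)).card ≤ H.deg y := by
  obtain ⟨k, H₁, c₁, hd₁, hconn₁, hdeg₁⟩ := join_cv H hV h2
  obtain ⟨V₂, E₂, j1, j2, j3, j4, H₂, c₂, hd₂, hconn₂, hdeg₂⟩ := split_all H₁ hconn₁ hdeg₁
  obtain ⟨c₁₂, hd₁₂⟩ := Cv.comp' c₁ c₂ hd₁ hd₂
  obtain ⟨V₃, E₃, k1, k2, k3, k4, H₃, c₃, hd₃, hconn₃, hdeg₃⟩ := supp_all H₂ hconn₂
    (by rw [Cv.rk_eq c₁₂]; exact hz) hdeg₂
  obtain ⟨c₁₃, hd₁₃⟩ := Cv.comp' c₁₂ c₃ hd₁₂ hd₃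
  obtain ⟨Γ, rfl⟩ := exists_cub H₃ hdeg₃
  refine ⟨V₃, E₃, k1, k2, k3, k4, Γ, c₁₃, (toGM_facts Γ).2.2.2.2 hconn₃, fun y => ?_⟩
  have h1 := hd₁₃ y
  have h3 : ∑ x' ∈ univ.filter (fun x' => c₁₃.ι x' = y), (Γ.toGM.deg x' - 2) =
      (univ.filter (fun x' => c₁₃.ι x' = y)).card := by
    rw [Finset.card_eq_sum_ones]
    refine Finset.sum_congr rfl fun x' _ => ?_
    rw [hdeg₃ x']
  have h4 := h2 y
  omega

end Pool.Agent.Lib.MP_af4270_co
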