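import Pool.Agent.Lib.MP_af4270_co.GMBasic

/-!
# PAN-E: composition of models
-/

set_option autoImplicit false
set_option linter.unusedSectionVars false
set_option linter.unusedVariables false

namespace Pool.Agent.Lib.MP_af4270_co

open Finset

variable {V E : Type} [Fintype V] [DecidableEq V] [Fintype E] [DecidableEq E]

namespace Cv

variable {V₁ E₁ V₂ E₂ : Type} [Fintype V₁] [DecidableEq V₁] [Fintype E₁] [DecidableEq E₁]
  [Fintype V₂] [DecidableEq V₂] [Fintype E₂] [DecidableEq E₂]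
  {H : GM V E} {H₁ : GM V₁ E₁} {H₂ : GM V₂ E₂}

/-- identity model -/
theorem refl' (H : GM V E) : ∃ c : Cv H H, c.DegLe 0 := by
  refine ⟨{
    Φ := LinearMap.id
    ι := id
    maps := fun R hR => hR
    inj := fun R _ h => h
    surj := fun R hR => ⟨R, hR, rfl⟩
    single := fun R hR => hR
    vert := fun R _ x hx => hx }, fun y => ?_⟩
  have h1 : univ.filter (fun x' : V => (id x' : V) = y) = {y} := by
    ext z
    simp
  change ∑ x' ∈ univ.filter (fun x' : V => (id x' : V) = y), (H.deg x' - 2) ≤ H.deg y - 2 + 0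
  rw [h1, Finset.sum_singleton]
  exact le_rfl

/-- composition; Proof of the degree part: `∑_{x₂ → y} (deg - 2) = ∑_{x₁ → y} ∑_{x₂ → x₁} (deg - 2) ≤ ∑_{x₁ → y} (deg x₁ - 2)`. -/
theorem comp' (c : Cv H H₁) (c' : Cv H₁ H₂) {a : ℕ} (hc : c.DegLe a) (hc' : c'.DegLe 0) :
    ∃ c'' : Cv H H₂, c''.DegLe a := by
  refine ⟨{
    Φ := c'.Φ.comp c.Φ
    ι := fun x => c.ι (c'.ι x)
    maps := fun R hR => c'.maps _ (c.maps R hR)
    inj := fun R hR h => c.inj R hR (c'.inj _ (c.maps R hR) h)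
    surj := fun R hR => by
      obtain ⟨R₁, h1, h2⟩ := c'.surj R hR
      obtain ⟨R₀, h3, h4⟩ := c.surj R₁ h1
      exact ⟨R₀, h3, by rw [LinearMap.comp_apply, h4, h2]⟩
    single := fun R hR => c'.single _ (c.single R hR)
    vert := fun R hR x hx => c.vert R hR _ (c'.vert _ (c.maps R hR) x hx) }, fun y => ?_⟩
  change ∑ x' ∈ univ.filter (fun x' : V₂ => c.ι (c'.ι x') = y), (H₂.deg x' - 2) ≤
    H.deg y - 2 + a
  have h1 : ∑ x' ∈ univ.filter (fun x' : V₂ => c.ι (c'.ι x') = y), (H₂.deg x' - 2) =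
      ∑ x₁ ∈ univ.filter (fun x₁ : V₁ => c.ι x₁ = y),
        ∑ x' ∈ univ.filter (fun x' : V₂ => c'.ι x' = x₁), (H₂.deg x' - 2) := by
    rw [← Finset.sum_fiberwise_of_maps_to (s := univ.filter (fun x' : V₂ => c.ι (c'.ι x') = y))
      (t := univ.filter (fun x₁ : V₁ => c.ι x₁ = y)) (g := fun x' => c'.ι x')]
    · refine Finset.sum_congr rfl fun x₁ hx₁ => Finset.sum_congr ?_ fun _ _ => rfl
      rw [mem_filter] at hx₁
      ext z
      simp only [mem_filter, mem_univ, true_and]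
      constructor
      · exact fun h => h.2
      · intro h
        exact ⟨by rw [h]; exact hx₁.2, h⟩
    · intro z hz
      rw [mem_filter] at hz ⊢
      exact ⟨mem_univ _, hz.2⟩
  rw [h1]
  refine le_trans (Finset.sum_le_sum fun x₁ _ => hc' x₁) ?_
  simpa using hc y

theorem rk_eq (c : Cv H H₁) : H₁.rk univ = H.rk univ := by
  have hu : ∀ {V' E' : Type} [Fintype V'] [DecidableEq V'] [Fintype E'] [DecidableEq E']
      (H' : GM V' E') (R : E' → ZMod 2), R ∈ H'.ZB univ ↔ R ∈ H'.Z := by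
    intro V' E' _ _ _ _ H' R
    rw [GM.mem_ZB]
    exact ⟨fun h => h.1, fun h => ⟨h, Finset.subset_univ _⟩⟩
  let f : H.ZB univ →ₗ[ZMod 2] H₁.ZB univ :=
    { toFun := fun R => ⟨c.Φ R.1, (hu H₁ _).mpr (c.maps _ ((hu H _).mp R.2))⟩
      map_add' := by
        intro a b
        apply Subtype.ext
        exact map_add c.Φ a.1 b.1
      map_smul' := by
        intro r a
        apply Subtype.ext
        exact map_smul c.Φ r a.1 }
  have hinj : Function.Injective f := by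
    rw [← LinearMap.ker_eq_bot, LinearMap.ker_eq_bot']
    intro R hR
    apply Subtype.ext
    exact c.inj R.1 ((hu H _).mp R.2) (congrArg Subtype.val hR)
  have hsurj : Function.Surjective f := by
    intro R
    obtain ⟨R₀, h1, h2⟩ := c.surj R.1 ((hu H₁ _).mp R.2)
    exact ⟨⟨R₀, (hu H _).mpr h1⟩, Subtype.ext h2⟩
  exact (LinearEquiv.finrank_eq (LinearEquiv.ofBijective f ⟨hinj, hsurj⟩)).symm

end Cv

/-- a cubic multigraph as a general multigraph -/
def Cub.toGM (Γ : Cub V E) : GM V E := ⟨Γ.s, Γ.t⟩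

theorem toGM_facts (Γ : Cub V E) : Γ.toGM.Z = Γ.Z ∧ (∀ R, Γ.toGM.Single R ↔ Γ.Single R) ∧
    (∀ R, Γ.toGM.vs R = Γ.vs R) ∧ (∀ x, Γ.toGM.deg x = 3) ∧ (Γ.toGM.Conn → Γ.Conn univ) := by
  refine ⟨rfl, fun R => Iff.rfl, fun R => ?_, fun x => Γ.three x, fun hc => ⟨?_, ?_⟩⟩
  · ext x
    rw [Γ.mem_vs_iff_dart]
    simp only [GM.vs, mem_filter, mem_univ, true_and]
    exact Iff.rfl
  · obtain ⟨x⟩ := hc.1
    exact ⟨x, mem_univ x⟩
  · intro S _ hS hS'
    obtain ⟨e, he⟩ := hc.2 S hS hS'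
    refine ⟨e, ?_⟩
    rw [Cub.mem_bt, mem_sdiff, mem_sdiff]
    change (Γ.s e ∈ S ∧ Γ.t e ∉ S) ∨ (Γ.s e ∉ S ∧ Γ.t e ∈ S) at he
    have h1 := mem_univ (Γ.s e)
    have h2 := mem_univ (Γ.t e)
    tauto

/-- Proof. `three` is `deg = 3`. -/
theorem exists_cub (H : GM V E) (h : ∀ x, H.deg x = 3) : ∃ Γ : Cub V E, Γ.toGM = H :=
  ⟨⟨H.s, H.t, h⟩, rfl⟩

end Pool.Agent.Lib.MP_af4270_co
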