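import Pool.Agent.Lib.MP_af4270_co.GMBasic

/-!
# PAN-E: bounded degrees
-/

set_option autoImplicit false
set_option linter.unusedSectionVars false
set_option linter.unusedVariables false

namespace Pool.Agent.Lib.MP_af4270_co

open Finset

variable {V E : Type} [Fintype V] [DecidableEq V] [Fintype E] [DecidableEq E]

namespace GM

variable {H : GM V E} {Cy : (E → ZMod 2) → Prop} {n w T : ℕ} {B : Finset E}

/-- number of vectors with at most two ones -/
theorem dg_two (α : Type) [Fintype α] [DecidableEq α] :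
    (univ.filter (fun y : α → ZMod 2 => (univ.filter (fun a => y a ≠ 0)).card ≤ 2)).card ≤
      1 + Fintype.card α + (Fintype.card α).choose 2 := by
  classical
  have h1 : (univ.filter (fun y : α → ZMod 2 => (univ.filter (fun a => y a ≠ 0)).card ≤ 2)).card ≤
      ((Finset.range 3).biUnion (fun i => Finset.powersetCard i (univ : Finset α))).card := by
    refine Finset.card_le_card_of_injOn (fun y => univ.filter (fun a => y a ≠ 0)) ?_ ?_
    · intro y hy
      rw [Finset.mem_coe, mem_filter] at hy
      rw [Finset.mem_coe, mem_biUnion]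
      refine ⟨(univ.filter (fun a => y a ≠ 0)).card, ?_, ?_⟩
      · rw [mem_range]
        have := hy.2
        omega
      · rw [mem_powersetCard]
        exact ⟨subset_univ _, rfl⟩
    · intro y _ z _ hyz
      exact supp_eq_iff.1 hyz
  refine h1.trans (Finset.card_biUnion_le.trans ?_)
  rw [Finset.sum_range_succ, Finset.sum_range_succ, Finset.sum_range_succ, Finset.sum_range_zero,
    card_powersetCard, card_powersetCard, card_powersetCard, card_univ, Nat.choose_zero_right,
    Nat.choose_one_right, zero_add]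

theorem dg_pow (k : ℕ) (hk : 10 ≤ k) : 8 * k ^ 2 + 14 * k + 7 ≤ 2 ^ k := by
  induction k, hk using Nat.le_induction with
  | base => norm_num
  | succ k hk ih =>
    rw [pow_succ 2 k]
    nlinarith

theorem dg_arith (d w m : ℕ) (h1 : d ≤ 2 * m) (h2 : 2 ^ m ≤ 2 ^ w * (1 + d + d.choose 2)) :
    d ≤ 4 * w + 40 := by
  by_cases hd : d < 40
  · omega
  obtain ⟨k, r, hr, hdk⟩ : ∃ k r, r < 4 ∧ d = 4 * k + r :=
    ⟨d / 4, d % 4, Nat.mod_lt _ (by norm_num), (Nat.div_add_mod d 4).symm⟩
  have hk : 10 ≤ k := by omega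
  have h3 : 1 + d + d.choose 2 ≤ 2 ^ k := by
    refine le_trans ?_ (dg_pow k hk)
    have h4 : d.choose 2 * 2 = d * (d - 1) := by
      rw [Nat.choose_two_right]
      exact Nat.div_mul_cancel (Nat.even_mul_pred_self d).two_dvd
    have h5 : d * (d - 1) ≤ (4 * k + 3) * (4 * k + 2) := Nat.mul_le_mul (by omega) (by omega)
    nlinarith
  have h6 : 2 ^ m ≤ 2 ^ (w + k) := by
    rw [pow_add]
    exact h2.trans (Nat.mul_le_mul_left _ h3)
  have h7 : m ≤ w + k := (Nat.pow_le_pow_iff_right (by norm_num)).1 h6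
  omega

/-- Proof. Let `star` = darts at `x` with edge in `B` (`d = dB B x` of them; loopless: different darts have different edges), `ρ : ZB B → (star → ZMod 2)`
the restriction, `Y` its range. (i) `d ≤ 2 dim Y`: the vectors `ρ(R)`, `R ∈ ZB B` with `Cy R`, have at most two nonzero coordinates (`two`); a maximal independent subset of them has at most
`dim Y` elements and covers at most `2 dim Y` coordinates; a coordinate not covered by it is 0 on its span, so on all `ρ(R)` with `Cy R`, contradicting `cov`.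
(ii) all fibres of `ρ` onto `Y` have the same size `2^(rk B)/|Y|`, and at most `1 + d + d(d-1)/2` vectors of `star → ZMod 2` have at most two ones, so
`cn B Cy ≤ (1 + d + d(d-1)/2) 2^(rk B) / 2^(dim Y)`. Hence `2^(dim Y) ≤ 2^w (1+d+d(d-1)/2)`, `2^d ≤ 4^w (1+d+d(d-1)/2)^2`; for `d ≥ 40`
`1+d+d(d-1)/2 ≤ 2^(d/4)`, so `d ≤ 4w`. -/
theorem Scale.deg_le (S : H.Sys Cy n) (hB : H.Scale Cy B T)
    (hw : 2 ^ H.rk B ≤ 2 ^ w * H.cn B Cy) (x : V) : H.dB B x ≤ 4 * w + 40 := by
  classical
  obtain ⟨St, hSt⟩ : ∃ St, St = (H.dt x).filter (fun d => d.1 ∈ B) := ⟨_, rfl⟩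
  have hd : H.dB B x = St.card := by rw [hSt]; rfl
  have hmem : ∀ e, e ∈ St ↔ e ∈ H.dt x ∧ e.1 ∈ B := by
    intro e
    rw [hSt, mem_filter]
  let ρ : (E → ZMod 2) →ₗ[ZMod 2] (St → ZMod 2) :=
    LinearMap.funLeft (ZMod 2) (ZMod 2) (fun δ : St => δ.1.1)
  have hρ : ∀ R δ, ρ R δ = R δ.1.1 := fun R δ => rfl
  let ρ' : H.ZB B →ₗ[ZMod 2] (St → ZMod 2) := ρ.domRestrict (H.ZB B)
  have hρ' : ∀ R : H.ZB B, ρ' R = ρ R.1 := fun R => rfl
  -- at most two ones
  have htwo : ∀ R, Cy R → (univ.filter (fun δ => ρ R δ ≠ 0)).card ≤ 2 := by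
    intro R hR
    refine le_trans ?_ (S.two R hR x)
    refine Finset.card_le_card_of_injOn (fun δ => δ.1) ?_ ?_
    · intro δ hδ
      rw [Finset.mem_coe, mem_filter] at hδ
      rw [Finset.mem_coe, mem_filter]
      exact ⟨((hmem _).1 δ.2).1, hδ.2⟩
    · intro δ _ δ' _ h
      exact Subtype.ext h
  -- (i)
  have h1 : St.card ≤ 2 * Module.finrank (ZMod 2) (LinearMap.range ρ') := by
    obtain ⟨b, hb, hspan, hli⟩ := exists_linearIndependent (ZMod 2)
      (ρ '' {R | Cy R ∧ R ∈ H.ZB B})
    haveI : Fintype b := Fintype.ofFinite _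
    have h2 : Module.finrank (ZMod 2) (Submodule.span (ZMod 2) b) = b.toFinset.card :=
      finrank_span_set_eq_card hli
    have h3 : Submodule.span (ZMod 2) b ≤ LinearMap.range ρ' := by
      rw [Submodule.span_le]
      intro v hv
      obtain ⟨R, hR, rfl⟩ := hb hv
      exact ⟨⟨R, hR.2⟩, rfl⟩
    have h4 : b.toFinset.card ≤ Module.finrank (ZMod 2) (LinearMap.range ρ') := by
      rw [← h2]
      exact Submodule.finrank_mono h3
    have h5 : (univ : Finset St) ⊆
        b.toFinset.biUnion (fun v => univ.filter (fun δ => v δ ≠ 0)) := by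
      intro δ _
      rw [mem_biUnion]
      by_contra hcon
      push Not at hcon
      have h6 : ∀ v ∈ b, v δ = 0 := by
        intro v hv
        have := hcon v (Set.mem_toFinset.2 hv)
        rw [mem_filter] at this
        by_contra hne
        exact this ⟨mem_univ _, hne⟩
      have h7 : ∀ v ∈ Submodule.span (ZMod 2) b, v δ = 0 := by
        intro v hv
        induction hv using Submodule.span_induction with
        | mem v hv => exact h6 v hv
        | zero => rfl
        | add u v _ _ hu hv => rw [Pi.add_apply, hu, hv, add_zero]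
        | smul c v _ hv => rw [Pi.smul_apply, hv, smul_zero]
      have h8 : δ.1.1 ∈ B := ((hmem _).1 δ.2).2
      obtain ⟨R, hR, hRB, hRe⟩ := hB.cov _ h8
      apply hRe
      rw [← hρ R δ]
      apply h7
      rw [hspan]
      exact Submodule.subset_span ⟨R, ⟨hR, hRB⟩, rfl⟩
    have h6 : St.card = (univ : Finset St).card := by
      rw [card_univ, Fintype.card_coe]
    rw [h6]
    refine (Finset.card_le_card h5).trans ?_
    refine (Finset.card_biUnion_le_card_mul _ _ 2 ?_).trans ?_
    · intro v hv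
      obtain ⟨R, hR, rfl⟩ := hb (Set.mem_toFinset.1 hv)
      exact htwo R hR.1
    · omega
  -- (ii)
  have h2 : Module.finrank (ZMod 2) (LinearMap.range ρ') +
      Module.finrank (ZMod 2) (LinearMap.ker ρ') = H.rk B :=
    LinearMap.finrank_range_add_finrank_ker ρ'
  have h3 : Fintype.card (LinearMap.ker ρ') =
      2 ^ Module.finrank (ZMod 2) (LinearMap.ker ρ') := by
    rw [Module.card_eq_pow_finrank (K := ZMod 2), ZMod.card]
  obtain ⟨Tw, hTw⟩ : ∃ Tw : Finset (St → ZMod 2),
    Tw = univ.filter (fun y => (univ.filter (fun a => y a ≠ 0)).card ≤ 2) := ⟨_, rfl⟩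
  have h4 : Tw.card ≤ 1 + St.card + St.card.choose 2 := by
    have := dg_two St
    rw [Fintype.card_coe] at this
    rw [hTw]
    exact this
  have h5 : H.cn B Cy ≤ Tw.card * Fintype.card (LinearMap.ker ρ') := by
    have h6 : H.cn B Cy ≤ (univ.filter (fun R : H.ZB B => ρ' R ∈ Tw)).card := by
      unfold cn
      rw [← Finset.card_map (Function.Embedding.subtype _)]
      refine Finset.card_le_card ?_
      intro R hR
      rw [mem_filter] at hR
      rw [mem_map]
      refine ⟨⟨R, hR.2.1⟩, ?_, rfl⟩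
      rw [mem_filter, hTw, mem_filter]
      exact ⟨mem_univ _, mem_univ _, htwo R hR.2.2⟩
    refine h6.trans ?_
    rw [mul_comm]
    refine Finset.card_le_mul_card_image_of_maps_to (f := ρ') (fun R hR => ?_) _ (fun y hy => ?_)
    · exact (mem_filter.1 hR).2
    · by_cases hex : ∃ R₀ : H.ZB B, ρ' R₀ = y
      · obtain ⟨R₀, hR₀⟩ := hex
        rw [← Finset.card_univ]
        refine Finset.card_le_card_of_injOn
          (fun R => if h : ρ' R = y then (⟨R - R₀, by
            rw [LinearMap.mem_ker, map_sub, h, hR₀, sub_self]⟩ : LinearMap.ker ρ') else 0)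
          (fun _ _ => mem_coe.2 (mem_univ _)) ?_
        intro R hR R' hR' hRR
        rw [Finset.mem_coe, mem_filter] at hR hR'
        simp only [dif_pos hR.2, dif_pos hR'.2] at hRR
        have h7 := congrArg Subtype.val hRR
        exact sub_left_injective h7
      · rw [Finset.filter_eq_empty_iff.2, Finset.card_empty]
        · exact Nat.zero_le _
        · intro R _ hR
          exact hex ⟨R, hR⟩
  rw [hd]
  refine dg_arith _ w _ h1 ?_
  have h6 : 2 ^ Module.finrank (ZMod 2) (LinearMap.range ρ') *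
      2 ^ Module.finrank (ZMod 2) (LinearMap.ker ρ') ≤
      (2 ^ w * (1 + St.card + St.card.choose 2)) *
        2 ^ Module.finrank (ZMod 2) (LinearMap.ker ρ') := by
    rw [← pow_add, h2]
    refine hw.trans ?_
    rw [mul_assoc]
    refine Nat.mul_le_mul_left _ (h5.trans ?_)
    rw [h3]
    exact Nat.mul_le_mul_right _ h4
  exact Nat.le_of_mul_le_mul_right h6 (by positivity)

end GM

end Pool.Agent.Lib.MP_af4270_co
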