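import Pool.Agent.Lib.MP_af4270_co.GMBallS

/-!
# PAN-E: guarded vertices whose functional is nonzero on a small subgraph
-/

set_option autoImplicit false
set_option linter.unusedSectionVars false
set_option linter.unusedVariables false

namespace Pool.Agent.Lib.MP_af4270_co

open Finset

variable {V E : Type} [Fintype V] [DecidableEq V] [Fintype E] [DecidableEq E]

variable {V' E' : Type} [Fintype V'] [DecidableEq V'] [Fintype E'] [DecidableEq E']

/-- Proof. `x' ∈ ball q' 3` (`ball_symm`) for some `q'` over `Y`; there are at most `b |Y|` such `q'`, each ball has at most `4^3` vertices (`card_ball_le`). -/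
theorem near_few {H : GM V E} {Γ : Cub V' E'} (c : Cv H Γ.toGM) (Y : Finset V) (b : ℕ)
    (hb : ∀ y ∈ Y, (univ.filter (fun x' => c.ι x' = y)).card ≤ b) :
    (univ.filter (fun x' : V' => ∃ q' ∈ Γ.ball x' 3, c.ι q' ∈ Y)).card ≤ 64 * (b * Y.card) := by
  classical
  have h1 : univ.filter (fun x' : V' => ∃ q' ∈ Γ.ball x' 3, c.ι q' ∈ Y) ⊆
      (univ.filter (fun q' : V' => c.ι q' ∈ Y)).biUnion (fun q' => Γ.ball q' 3) := by
    intro x' hx'
    rw [Finset.mem_filter] at hx'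
    obtain ⟨-, q', hq', hY⟩ := hx'
    rw [Finset.mem_biUnion]
    exact ⟨q', Finset.mem_filter.2 ⟨Finset.mem_univ _, hY⟩, Γ.ball_symm hq'⟩
  have h2 : (univ.filter (fun q' : V' => c.ι q' ∈ Y)).card ≤ Y.card * b := by
    have h3 : univ.filter (fun q' : V' => c.ι q' ∈ Y) =
        Y.biUnion (fun y => univ.filter (fun x' => c.ι x' = y)) := by
      ext q'
      simp only [Finset.mem_filter, Finset.mem_univ, true_and, Finset.mem_biUnion]
      constructor
      · intro h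
        exact ⟨_, h, rfl⟩
      · rintro ⟨y, hy, rfl⟩
        exact hy
    rw [h3]
    exact Finset.card_biUnion_le_card_mul _ _ _ hb
  calc (univ.filter (fun x' : V' => ∃ q' ∈ Γ.ball x' 3, c.ι q' ∈ Y)).card
      ≤ ((univ.filter (fun q' : V' => c.ι q' ∈ Y)).biUnion (fun q' => Γ.ball q' 3)).card :=
        Finset.card_le_card h1
    _ ≤ (univ.filter (fun q' : V' => c.ι q' ∈ Y)).card * 4 ^ 3 :=
        Finset.card_biUnion_le_card_mul _ _ _ fun q' _ => Γ.card_ball_le q' 3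
    _ ≤ (Y.card * b) * 4 ^ 3 := Nat.mul_le_mul_right _ h2
    _ = 64 * (b * Y.card) := by ring

/-- Proof. `par S (Φ R) = par v (Φ R) ≠ 0` so some `e' ∈ S` has `Φ R e' ≠ 0`; it has an end `q' ∈ ball x' 3`, and `q' ∈ vs (Φ R)`; `c.vert`, `toGM_facts`. -/
theorem guard_near {H : GM V E} {Γ : Cub V' E'} (c : Cv H Γ.toGM) {v : Finset E'} {x' : V'}
    (hx : Γ.Guard v x') {R : E → ZMod 2} (hR : R ∈ H.Z) (hv : par v (c.Φ R) ≠ 0) :
    ∃ q' ∈ Γ.ball x' 3, c.ι q' ∈ H.vs R := by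
  obtain ⟨⟨S, hS, hSb⟩, -⟩ := hx
  have hΦ : c.Φ R ∈ Γ.Z := by
    rw [← (toGM_facts Γ).1]
    exact c.maps R hR
  have h1 : par S (c.Φ R) ≠ 0 := by rw [hS _ hΦ]; exact hv
  obtain ⟨e', he', hne⟩ : ∃ e' ∈ S, c.Φ R e' ≠ 0 := by
    by_contra hc
    push Not at hc
    exact h1 (Finset.sum_eq_zero hc)
  have hvs : ∀ q', q' ∈ Γ.vs (c.Φ R) → c.ι q' ∈ H.vs R := by
    intro q' hq'
    apply c.vert R hR q'
    rw [(toGM_facts Γ).2.2.1]
    exact hq'
  rcases hSb e' he' with h | h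
  · exact ⟨_, h, hvs _ (Γ.s_mem_vs hne)⟩
  · exact ⟨_, h, hvs _ (Γ.t_mem_vs hne)⟩

end Pool.Agent.Lib.MP_af4270_co
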