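import Pool.Agent.Lib.MP_af4270_co.GMBasic

/-!
# PAN-E: the subgraph given by an edge set
-/

set_option autoImplicit false
set_option linter.unusedSectionVars false
set_option linter.unusedVariables false

namespace Pool.Agent.Lib.MP_af4270_co

open Finset

variable {V E : Type} [Fintype V] [DecidableEq V] [Fintype E] [DecidableEq E]

namespace GM

variable (H : GM V E)

/-- the multigraph with edges `B` and the vertices on them -/
def sub (B : Finset E) : GM {x // x ∈ H.vB B} {e // e ∈ B} where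
  s e := ⟨H.s e.1, by
    rw [vB, mem_filter]
    exact ⟨mem_univ _, (e.1, false), by simp [dt, tl], e.2⟩⟩
  t e := ⟨H.t e.1, by
    rw [vB, mem_filter]
    exact ⟨mem_univ _, (e.1, true), by simp [dt, tl], e.2⟩⟩

/-- restriction to `B` as a linear map -/
def res (B : Finset E) : (E → ZMod 2) →ₗ[ZMod 2] ({e // e ∈ B} → ZMod 2) where
  toFun R := fun e => R e.1
  map_add' _ _ := rfl
  map_smul' _ _ := rfl

theorem sub_tl {B : Finset E} (d : {e // e ∈ B} × Bool) :
    ((H.sub B).tl d).1 = H.tl (d.1.1, d.2) := by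
  unfold tl
  rcases d with ⟨e, b⟩
  cases b <;> rfl

/-- the darts at a vertex of the subgraph -/
theorem sub_dt_map (B : Finset E) (x : {x // x ∈ H.vB B}) :
    ((H.sub B).dt x).map ⟨fun d : {e // e ∈ B} × Bool => ((d.1.1, d.2) : E × Bool), by
      rintro ⟨e, b⟩ ⟨e', b'⟩ h
      simp only [Prod.mk.injEq] at h
      rw [Subtype.ext h.1, h.2]⟩ = (H.dt x.1).filter (fun d => d.1 ∈ B) := by
  ext ⟨e, b⟩
  rw [Finset.mem_map, Finset.mem_filter]
  constructor
  · rintro ⟨d, hd, h⟩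
    rw [dt, Finset.mem_filter] at hd
    have h1 : d.1.1 = e ∧ d.2 = b := by
      have := h
      simp only [Function.Embedding.coeFn_mk, Prod.mk.injEq] at this
      exact this
    refine ⟨?_, ?_⟩
    · rw [dt, Finset.mem_filter]
      refine ⟨Finset.mem_univ _, ?_⟩
      have h2 := H.sub_tl d
      rw [hd.2, h1.1, h1.2] at h2
      exact h2.symm
    · show e ∈ B
      rw [← h1.1]
      exact d.1.2
  · rintro ⟨hd, he⟩
    rw [dt, Finset.mem_filter] at hd
    refine ⟨(⟨e, he⟩, b), ?_, rfl⟩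
    rw [dt, Finset.mem_filter]
    refine ⟨Finset.mem_univ _, ?_⟩
    apply Subtype.ext
    rw [H.sub_tl]
    exact hd.2

theorem sub_sum (B : Finset E) (x : {x // x ∈ H.vB B}) (R : E → ZMod 2) :
    ∑ d ∈ (H.sub B).dt x, R d.1.1 = ∑ d ∈ (H.dt x.1).filter (fun d => d.1 ∈ B), R d.1 := by
  rw [← H.sub_dt_map B x, Finset.sum_map]
  rfl

theorem res_mem {B : Finset E} {R : E → ZMod 2} (hR : R ∈ H.ZB B) : res B R ∈ (H.sub B).Z := by
  intro x
  have h1 : ∑ d ∈ (H.sub B).dt x, res B R d.1 = ∑ d ∈ (H.sub B).dt x, R d.1.1 := rfl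
  rw [h1, H.sub_sum B x R]
  have h2 : ∑ d ∈ H.dt x.1, R d.1 = 0 := hR.1 x.1
  rw [← h2]
  apply Finset.sum_filter_of_ne
  intro d _ hd
  by_contra hc
  exact hd (hR.2 d.1 hc)

/-- Proof. Extend by zero. -/
theorem res_surj {B : Finset E} {R' : {e // e ∈ B} → ZMod 2} (hR : R' ∈ (H.sub B).Z) :
    ∃ R ∈ H.ZB B, res B R = R' := by
  classical
  set R : E → ZMod 2 := fun e => if h : e ∈ B then R' ⟨e, h⟩ else 0 with hRdef
  have hres : res B R = R' := by
    funext e
    show R e.1 = R' e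
    rw [hRdef]
    simp only [e.2, dif_pos]
  refine ⟨R, ⟨?_, ?_⟩, hres⟩
  · intro x
    by_cases hx : x ∈ H.vB B
    · have h1 := hR ⟨x, hx⟩
      have h2 : ∑ d ∈ (H.sub B).dt ⟨x, hx⟩, R' d.1 = ∑ d ∈ (H.sub B).dt ⟨x, hx⟩, R d.1.1 := by
        refine Finset.sum_congr rfl fun d _ => ?_
        rw [← hres]
        rfl
      rw [h2, H.sub_sum B ⟨x, hx⟩ R] at h1
      rw [← h1]
      symm
      apply Finset.sum_filter_of_ne
      intro d _ hd
      by_contra hc
      apply hd
      rw [hRdef]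
      exact dif_neg hc
    · refine Finset.sum_eq_zero fun d hd => ?_
      rw [hRdef]
      apply dif_neg
      intro hc
      apply hx
      rw [vB, Finset.mem_filter]
      exact ⟨Finset.mem_univ _, d, hd, hc⟩
  · intro e he
    rw [hRdef]
    exact dif_neg he

theorem res_inj {B : Finset E} {R : E → ZMod 2} (hR : R ∈ H.ZB B) (h : res B R = 0) : R = 0 := by
  funext e
  by_cases he : e ∈ B
  · have := congrFun h ⟨e, he⟩
    exact this
  · exact hR.2 e he

theorem res_single {B : Finset E} {R : E → ZMod 2} (hR : R ∈ H.ZB B) (h : H.Single R) :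
    (H.sub B).Single (res B R) := by
  refine ⟨H.res_mem hR, fun h0 => h.2.1 (H.res_inj hR h0), ?_⟩
  intro D' hD' hD0 hsub
  obtain ⟨D, hD, rfl⟩ := H.res_surj hD'
  have hDne : D ≠ 0 := by
    rintro rfl
    exact hD0 (map_zero _)
  have hs : supp D ⊆ supp R := by
    intro e he
    have he' : D e ≠ 0 := mem_supp.1 he
    have heB : e ∈ B := by
      by_contra hc
      exact he' (hD.2 e hc)
    have h1 : (⟨e, heB⟩ : {e // e ∈ B}) ∈ supp (res B D) := by
      rw [mem_supp]
      exact he'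
    have h2 := mem_supp.1 (hsub h1)
    rw [mem_supp]
    exact h2
  rw [h.2.2 D hD.1 hDne hs]

/-- the restriction as a linear equivalence -/
noncomputable def resEquiv (B : Finset E) : H.ZB B ≃ₗ[ZMod 2] (H.sub B).ZB univ := by
  refine LinearEquiv.ofBijective (((res B).comp (H.ZB B).subtype).codRestrict ((H.sub B).ZB univ)
    (fun R => ⟨H.res_mem R.2, fun e he => absurd (Finset.mem_univ e) he⟩)) ⟨?_, ?_⟩
  · intro R R' h
    have h1 : res B R.1 = res B R'.1 := congrArg Subtype.val h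
    have h2 : res B (R.1 - R'.1) = 0 := by rw [map_sub, h1, sub_self]
    have h3 := H.res_inj ((H.ZB B).sub_mem R.2 R'.2) h2
    exact Subtype.ext (sub_eq_zero.1 h3)
  · rintro ⟨R', hR'⟩
    obtain ⟨R, hR, h⟩ := H.res_surj hR'.1
    exact ⟨⟨R, hR⟩, Subtype.ext h⟩

theorem sub_rk (B : Finset E) : (H.sub B).rk univ = H.rk B :=
  ((H.resEquiv B).finrank_eq).symm

theorem sub_deg (B : Finset E) (x : {x // x ∈ H.vB B}) : (H.sub B).deg x = H.dB B x.1 := by
  unfold deg dB
  rw [← H.sub_dt_map B x, Finset.card_map]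

theorem sub_vs {B Bm : Finset E} (hB : Bm ⊆ B) {R : E → ZMod 2} (hR : R ∈ H.ZB Bm)
    {x : {x // x ∈ H.vB B}} (hx : x ∈ (H.sub B).vs (res B R)) : x.1 ∈ H.vB Bm := by
  rw [vs, Finset.mem_filter] at hx
  obtain ⟨-, d, hd, hne⟩ := hx
  rw [dt, Finset.mem_filter] at hd
  have hne' : R d.1.1 ≠ 0 := hne
  rw [vB, Finset.mem_filter]
  refine ⟨Finset.mem_univ _, (d.1.1, d.2), ?_, ?_⟩
  · rw [dt, Finset.mem_filter]
    refine ⟨Finset.mem_univ _, ?_⟩
    rw [← H.sub_tl d, hd.2]
  · by_contra hc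
    exact hne' (hR.2 _ hc)

end GM

end Pool.Agent.Lib.MP_af4270_co
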