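import Pool.Agent.Lib.MP_af4270_co.GMDeg
import Pool.Agent.Lib.MP_af4270_co.GMSub
import Pool.Agent.Lib.MP_af4270_co.GMConv
import Pool.Agent.Lib.MP_af4270_co.GMNear

/-!
# PAN-E: a rare functional born late
-/

set_option autoImplicit false
set_option linter.unusedSectionVars false
set_option linter.unusedVariables false

namespace Pool.Agent.Lib.MP_af4270_co

open Finset

variable {V E : Type} [Fintype V] [DecidableEq V] [Fintype E] [DecidableEq E]

/-- parity as a linear map -/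
def parLin (v : Finset E) : (E → ZMod 2) →ₗ[ZMod 2] ZMod 2 where
  toFun R := par v R
  map_add' a b := par_add v a b
  map_smul' c a := by
    simp only [par, Pi.smul_apply, smul_eq_mul, RingHom.id_apply, Finset.mul_sum]

theorem Cub.cn_toGM (Γ : Cub V E) (B : Finset E) (φ : (E → ZMod 2) → Prop) :
    Γ.cn B φ = Γ.toGM.cn B φ := rfl

namespace GM

variable {H : GM V E} {Cy : (E → ZMod 2) → Prop} {n w T : ℕ} {B Bm : Finset E}

open Classical in
/-- comparison of counts along a model of `H.sub B` -/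
theorem cn_le_of_cv {V' E' : Type} [Fintype V'] [DecidableEq V'] [Fintype E'] [DecidableEq E']
    (H : GM V E) (B : Finset E) (Γ : Cub V' E') (c : Cv (H.sub B) Γ.toGM)
    {φ : (E → ZMod 2) → Prop} {ψ : (E' → ZMod 2) → Prop}
    (h : ∀ R ∈ H.ZB B, φ R → ψ (c.Φ (res B R))) : H.cn B φ ≤ Γ.cn univ ψ := by
  unfold cn Cub.cn
  refine Finset.card_le_card_of_injOn (fun R => c.Φ (res B R)) ?_ ?_
  · intro R hR
    simp only [coe_filter, mem_univ, true_and, Set.mem_ofPred_eq] at hR ⊢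
    exact ⟨Γ.mem_ZB_univ.2 (c.maps _ (H.res_mem hR.1)), h R hR.1 hR.2⟩
  · intro R hR R' hR' heq
    simp only [coe_filter, mem_univ, true_and, Set.mem_ofPred_eq] at hR hR' heq
    have h1 : R - R' ∈ H.ZB B := (H.ZB B).sub_mem hR.1 hR'.1
    have h2 : c.Φ (res B (R - R')) = 0 := by
      rw [map_sub, map_sub, heq, sub_self]
    have h3 := H.res_inj h1 (c.inj _ (H.res_mem h1) h2)
    exact sub_eq_zero.1 h3

/-- Proof. `H_B = H.sub B`: degrees ≥ 2 (`cov`: every edge of `B` is on some `R ∈ ZB B`, `even_darts`; `sub_deg`), rank `rk B ≥ 2` (`sub_rk`; from `hn`). `conv` gives `Γ`, `c`. `|V'| + 2 = 2 rk B` (`Cub.card_V`,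
`Cv.rk_eq`, `sub_rk`). `cn univ True = 2^(rk B) ≤ 2^w cn B Cy ≤ 2^w cn univ Single`: the map `R ↦ c.Φ (res B R)` is injective on `ZB B` and maps `Cy` to `Single` (`sgl`, `res_single`, `c.single`). By `hSD` all but
`2^2^2^(w+30)` vertices `x'` of `Γ` are guarded by a rare `v`. Suppose that for every guarded `x'` and rare guarding `v` the functional `v` is nonzero on `c.Φ (res B (ZB Bm))`: `guard_near` gives `q' ∈ ball x' 3` over `vs (res B R)`,
i.e. over `Y = {y : y.1 ∈ vB Bm}` (`sub_vs`), `|Y| ≤ |vB Bm|`; by `near_few` (`b = 4w+40` by `conv`, `sub_deg`, `deg_le`) there are at most `64 (4w+40) |vB Bm|` such `x'`. Then `2 rk B - 2 = |V'| ≤ 2^2^2^(w+30) + 64 (4w+40) |vB Bm|`,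
contradiction. So there are a guarded `x'` and a rare `v` vanishing on the image of `ZB Bm`; `f R = par v (c.Φ (res B R))`. `f ≠ 0` on `ZB B`: `Rare`, `c.surj`, `res_surj`. Last claim: injection `R ↦ c.Φ (res B R)` into `{Single, par v = 0}`, `Rare`. -/
theorem Scale.exists_f (hSD : StructD) (S : H.Sys Cy n) (hB : H.Scale Cy B T) (hsub : Bm ⊆ B)
    (hw : 2 ^ H.rk B ≤ 2 ^ w * H.cn B Cy)
    (hn : 2 ^ 2 ^ 2 ^ (w + 30) + 64 * ((4 * w + 40) * (H.vB Bm).card) + 2 < 2 * H.rk B) :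
    ∃ f : (E → ZMod 2) →ₗ[ZMod 2] ZMod 2, (∃ R ∈ H.ZB B, f R ≠ 0) ∧ (∀ R ∈ H.ZB Bm, f R = 0) ∧
      2 ^ (2 * w + 4) * H.cn B (fun R => Cy R ∧ f R = 0) ≤ 2 ^ H.rk B := by
  classical
  have hbig : 1 ≤ 2 ^ 2 ^ 2 ^ (w + 30) := Nat.one_le_two_pow
  -- nonempty
  have hV : Nonempty {x // x ∈ H.vB B} := by
    have h1 : 0 < H.cn B Cy := by
      rcases Nat.eq_zero_or_pos (H.cn B Cy) with h | h
      · rw [h, mul_zero] at hw
        have : 0 < 2 ^ H.rk B := by positivity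
        omega
      · exact h
    unfold cn at h1
    rw [Finset.card_pos] at h1
    obtain ⟨R, hR⟩ := h1
    rw [mem_filter] at hR
    obtain ⟨e, he⟩ := supp_nonempty (S.sgl R hR.2.2).2.1
    exact ⟨(H.sub B).s ⟨e, (H.mem_ZB.1 hR.2.1).2 he⟩⟩
  -- degrees
  have h2 : ∀ y, 2 ≤ (H.sub B).deg y := by
    intro y
    rw [H.sub_deg]
    obtain ⟨d, hd, hdB⟩ : ∃ d ∈ H.dt y.1, d.1 ∈ B := (mem_filter.1 y.2).2
    obtain ⟨R, hR, hRB, hRe⟩ := hB.cov d.1 hdB
    have h3 := H.even_darts hRB.1 y.1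
    have h4 : 0 < ((H.dt y.1).filter (fun d => R d.1 ≠ 0)).card :=
      Finset.card_pos.2 ⟨d, mem_filter.2 ⟨hd, hRe⟩⟩
    have h5 : ((H.dt y.1).filter (fun d => R d.1 ≠ 0)).card ≤ H.dB B y.1 := by
      unfold dB
      refine Finset.card_le_card fun d' hd' => ?_
      rw [mem_filter] at hd' ⊢
      refine ⟨hd'.1, ?_⟩
      by_contra hc
      exact hd'.2 (hRB.2 _ hc)
    obtain ⟨k, hk⟩ := h3
    omega
  have hrk : 2 ≤ (H.sub B).rk univ := by rw [H.sub_rk]; omega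
  obtain ⟨V', E', i1, i2, i3, i4, Γ, c, hconn, hfib⟩ := conv (H.sub B) hV h2 hrk
  have hV' : Fintype.card V' + 2 = 2 * H.rk B := by
    rw [Γ.card_V hconn, c.rk_eq, H.sub_rk]
  have hcnT : Γ.cn univ (fun _ => True) = 2 ^ H.rk B := by
    rw [Γ.cn_toGM, cn_true, c.rk_eq, H.sub_rk]
  have hcnS : H.cn B Cy ≤ Γ.cn univ Γ.Single :=
    cn_le_of_cv H B Γ c fun R hR hCy =>
      ((toGM_facts Γ).2.1 _).1 (c.single _ (H.res_single hR (S.sgl R hCy)))
  have hD := hSD V' E' Γ hconn w (by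
    rw [hcnT]
    exact hw.trans (Nat.mul_le_mul_left _ hcnS))
  set Y : Finset {x // x ∈ H.vB B} := univ.filter (fun y => y.1 ∈ H.vB Bm) with hY
  have hYc : Y.card ≤ (H.vB Bm).card := by
    refine Finset.card_le_card_of_injOn Subtype.val ?_ (Subtype.val_injective.injOn)
    intro y hy
    rw [hY, coe_filter] at hy
    exact hy.2
  have hb : ∀ y ∈ Y, (univ.filter (fun x' => c.ι x' = y)).card ≤ 4 * w + 40 := by
    intro y _
    refine (hfib y).trans ?_
    rw [H.sub_deg]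
    exact hB.deg_le S hw y.1
  have hnear := near_few c Y (4 * w + 40) hb
  obtain ⟨x', v, hv1, hv2, hv3⟩ : ∃ (x' : V') (v : Finset E'), Γ.Rare (2 ^ (2 * w + 4)) v ∧
      Γ.Guard v x' ∧ ∀ R ∈ H.ZB Bm, par v (c.Φ (res B R)) = 0 := by
    by_contra hcon
    push Not at hcon
    have hcov : (univ : Finset V') ⊆
        (univ.filter (fun x => ¬ ∃ v, Γ.Rare (2 ^ (2 * w + 4)) v ∧ Γ.Guard v x)) ∪
        (univ.filter (fun x' : V' => ∃ q' ∈ Γ.ball x' 3, c.ι q' ∈ Y)) := by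
      intro x _
      rw [mem_union, mem_filter, mem_filter]
      by_cases hx : ∃ v, Γ.Rare (2 ^ (2 * w + 4)) v ∧ Γ.Guard v x
      · right
        obtain ⟨v, hv, hg⟩ := hx
        obtain ⟨R, hR, hne⟩ := hcon x v hv hg
        obtain ⟨q', hq', hq2⟩ := guard_near c hg (H.res_mem (H.ZB_mono hsub hR)) hne
        refine ⟨mem_univ _, q', hq', ?_⟩
        rw [hY, mem_filter]
        exact ⟨mem_univ _, H.sub_vs hsub hR hq2⟩
      · left
        exact ⟨mem_univ _, hx⟩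
    have h3 := Finset.card_le_card hcov
    have h4 := Finset.card_union_le
      (univ.filter (fun x => ¬ ∃ v, Γ.Rare (2 ^ (2 * w + 4)) v ∧ Γ.Guard v x))
      (univ.filter (fun x' : V' => ∃ q' ∈ Γ.ball x' 3, c.ι q' ∈ Y))
    rw [Finset.card_univ] at h3
    have h5 : 64 * ((4 * w + 40) * Y.card) ≤ 64 * ((4 * w + 40) * (H.vB Bm).card) :=
      Nat.mul_le_mul_left _ (Nat.mul_le_mul_left _ hYc)
    have hD' : (univ.filter (fun x => ¬ ∃ v, Γ.Rare (2 ^ (2 * w + 4)) v ∧ Γ.Guard v x)).card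
      ≤ 2 ^ 2 ^ 2 ^ (w + 30) := by
      refine le_trans (le_of_eq ?_) hD
      congr 1
    omega
  refine ⟨((parLin v).comp c.Φ).comp (res B), ?_, ?_, ?_⟩
  · obtain ⟨R', hR', hne⟩ := hv1.1
    obtain ⟨R'', hR'', rfl⟩ := c.surj R' hR'
    obtain ⟨R, hR, rfl⟩ := H.res_surj hR''
    exact ⟨R, hR, hne⟩
  · intro R hR
    exact hv3 R hR
  · refine le_trans (Nat.mul_le_mul_left _ ?_) (hv1.2.trans (le_of_eq hcnT))
    exact cn_le_of_cv H B Γ c fun R hR hCy =>
      ⟨((toGM_facts Γ).2.1 _).1 (c.single _ (H.res_single hR (S.sgl R hCy.1))), hCy.2⟩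

end GM

end Pool.Agent.Lib.MP_af4270_co
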