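import Pool.Agent.Lib.MP_af4270_co.GMBasic

/-!
# PAN-E: fibre inequalities
-/

set_option autoImplicit false
set_option linter.unusedSectionVars false
set_option linter.unusedVariables false

namespace Pool.Agent.Lib.MP_af4270_co

open Finset

variable {V E : Type} [Fintype V] [DecidableEq V] [Fintype E] [DecidableEq E]

theorem wt_off (ω : E → ℕ) (B : Finset E) (R : E → ZMod 2) :
    wt ω R = wt ω (off B R) + ∑ e ∈ supp R ∩ B, ω e := by
  have h1 : supp (off B R) = supp R \ B := by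
    ext e
    simp only [mem_supp, off, mem_sdiff]
    by_cases h : e ∈ B <;> simp [h]
  rw [wt, wt, h1]
  rw [add_comm]; exact (Finset.sum_inter_add_sum_sdiff _ _ _).symm

/-- fibre inequality. Proof. Inside a fibre of `off B` the weights lie in `[a, a + ω(B)]`, `a = wt ω (off B R)`,
and they are distinct. (`Finset.card_le_mul_card_image`.) -/
theorem fibre (ω : E → ℕ) (B : Finset E) (T : Finset (E → ZMod 2)) (hT : Set.InjOn (wt ω) T) :
    T.card ≤ (∑ e ∈ B, ω e + 1) * (T.image (off B)).card := by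
  refine Finset.card_le_mul_card_image T _ fun b _ => ?_
  have h1 : ({x ∈ T | off B x = b} : Finset _).image (wt ω) ⊆
      Finset.Icc (wt ω b) (wt ω b + ∑ e ∈ B, ω e) := by
    intro k hk
    rw [mem_image] at hk
    obtain ⟨R, hR, rfl⟩ := hk
    rw [mem_filter] at hR
    rw [mem_Icc, wt_off ω B R, hR.2]
    have : ∑ e ∈ supp R ∩ B, ω e ≤ ∑ e ∈ B, ω e :=
      Finset.sum_le_sum_of_subset inter_subset_right
    omega
  have h2 : (({x ∈ T | off B x = b} : Finset _).image (wt ω)).card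
      = ({x ∈ T | off B x = b} : Finset _).card := by
    refine Finset.card_image_of_injOn ?_
    intro x hx y hy hxy
    simp only [coe_filter, Set.mem_ofPred_eq] at hx hy
    exact hT hx.1 hy.1 hxy
  rw [← h2]
  refine (Finset.card_le_card h1).trans ?_
  rw [Nat.card_Icc]
  omega

/-- an edge set has as many edges as its weight for `ω = 1` -/
theorem wt_one (R : E → ZMod 2) : wt (fun _ => 1) R = (supp R).card := by simp [wt]

/-- restriction of edge sets of different lengths -/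
theorem exists_lengths {m : ℕ} {P : (E → ZMod 2) → Prop}
    (h : ∀ ℓ, 3 ≤ ℓ → ℓ < m → ∃ R, P R ∧ (supp R).card = ℓ) :
    ∃ T : Finset (E → ZMod 2), T.card = m - 3 ∧ Set.InjOn (wt (fun _ : E => 1)) T ∧
      ∀ R ∈ T, P R := by
  classical
  choose! F hF1 hF2 using h
  refine ⟨(Finset.Ico 3 m).image F, ?_, ?_, ?_⟩
  · rw [Finset.card_image_of_injOn, Nat.card_Ico]
    intro a ha b hb hab
    simp only [coe_Ico, Set.mem_Ico] at ha hb
    rw [← hF2 a ha.1 ha.2, ← hF2 b hb.1 hb.2, hab]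
  · intro a ha b hb hab
    rw [coe_image] at ha hb
    obtain ⟨i, hi, rfl⟩ := ha
    obtain ⟨j, hj, rfl⟩ := hb
    simp only [coe_Ico, Set.mem_Ico] at hi hj
    rw [wt_one, wt_one, hF2 i hi.1 hi.2, hF2 j hj.1 hj.2] at hab
    rw [hab]
  · intro R hR
    rw [mem_image] at hR
    obtain ⟨i, hi, rfl⟩ := hR
    rw [mem_Ico] at hi
    exact hF1 i hi.1 hi.2

namespace GM

variable (H : GM V E)

theorem off_eq_iff {B : Finset E} {R R' : E → ZMod 2} (hR : R ∈ H.Z) (hR' : R' ∈ H.Z) :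
    off B R = off B R' ↔ R + R' ∈ H.ZB B := by
  constructor
  · intro h
    refine ⟨H.Z.add_mem hR hR', fun e he => ?_⟩
    have := congrFun h e
    simp only [off, he, if_false] at this
    rw [Pi.add_apply, this]; exact zm_add_self _
  · rintro ⟨_, h⟩
    funext e
    simp only [off]
    split_ifs with he
    · rfl
    · have := h e he
      rw [Pi.add_apply] at this
      have h2 : R e + R' e + R' e = R' e := by rw [this, zero_add]
      rwa [add_assoc, zm_add_self, add_zero] at h2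

open Classical in
/-- number of classes mod `ZB B`. Proof. For `R, R' ∈ ZB B'`: `off B R = off B R'` iff `R + R' ∈ ZB B`. -/
theorem classes {B B' : Finset E} (hB : B ⊆ B') (P : (E → ZMod 2) → Prop)
    (hP : ∀ R ∈ H.ZB B', ∀ D ∈ H.ZB B, P R → P (R + D)) :
    ((univ.filter (fun R => R ∈ H.ZB B' ∧ P R)).image (off B)).card * 2 ^ H.rk B = H.cn B' P := by
  set S := univ.filter (fun R => R ∈ H.ZB B' ∧ P R) with hS
  have h1 : H.cn B' P = S.card := rfl
  rw [h1, ← H.cn_true B]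
  symm
  rw [Finset.card_eq_sum_card_image (off B) S]
  rw [Finset.sum_const_nat (m := H.cn B (fun _ => True))]
  intro b hb
  rw [mem_image] at hb
  obtain ⟨R₀, hR₀, rfl⟩ := hb
  rw [hS, mem_filter] at hR₀
  have hR₀Z : R₀ ∈ H.Z := (H.mem_ZB.1 hR₀.2.1).1
  unfold cn
  refine Finset.card_bij' (fun R _ => R + R₀) (fun R _ => R + R₀) ?_ ?_ ?_ ?_
  · intro R hR
    rw [hS] at hR
    simp only [mem_filter, mem_univ, true_and, and_true] at hR ⊢
    exact (H.off_eq_iff (H.mem_ZB.1 hR.1.1).1 hR₀Z).1 hR.2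
  · intro R hR
    rw [hS]
    simp only [mem_filter, mem_univ, true_and, and_true] at hR ⊢
    have h3 : R + R₀ ∈ H.ZB B' := (H.ZB B').add_mem (H.ZB_mono hB hR) hR₀.2.1
    refine ⟨⟨h3, ?_⟩, ?_⟩
    · rw [add_comm]; exact hP R₀ hR₀.2.1 R hR hR₀.2.2
    · rw [H.off_eq_iff (H.mem_ZB.1 h3).1 hR₀Z, fn_add_cancel]
      exact hR
  · intro R _; exact fn_add_cancel _ _
  · intro R _; exact fn_add_cancel _ _

/-- half of the elements have `f = 1`. -/
theorem half {B : Finset E} (f : (E → ZMod 2) →ₗ[ZMod 2] ZMod 2) (hf : ∃ R ∈ H.ZB B, f R ≠ 0) :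
    2 * H.cn B (fun R => f R = 1) = 2 ^ H.rk B := by
  classical
  obtain ⟨D, hD, hDf⟩ := hf
  have hD1 : f D = 1 := zm_ne_zero.1 hDf
  have h1 : H.cn B (fun R => f R = 0) = H.cn B (fun R => f R = 1) := by
    unfold cn
    refine Finset.card_bij' (fun R _ => R + D) (fun R _ => R + D) ?_ ?_ ?_ ?_
    · intro R hR
      simp only [mem_filter, mem_univ, true_and] at hR ⊢
      exact ⟨(H.ZB B).add_mem hR.1 hD, by rw [map_add, hR.2, hD1]; decide⟩
    · intro R hR
      simp only [mem_filter, mem_univ, true_and] at hR ⊢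
      exact ⟨(H.ZB B).add_mem hR.1 hD, by rw [map_add, hR.2, hD1]; decide⟩
    · intro R _; exact fn_add_cancel _ _
    · intro R _; exact fn_add_cancel _ _
  have h2 : H.cn B (fun _ => True) = H.cn B (fun R => f R = 0) + H.cn B (fun R => f R = 1) := by
    unfold cn
    rw [← Finset.card_union_of_disjoint]
    · congr 1
      ext R
      simp only [mem_filter, mem_univ, true_and, and_true, mem_union]
      rcases zm_cases (f R) with h | h <;> simp [h]
    · rw [Finset.disjoint_left]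
      intro R h3 h4
      simp only [mem_filter, mem_univ, true_and] at h3 h4
      have := h3.2
      rw [h4.2] at this
      exact one_ne_zero this
  rw [← H.cn_true B, h2, h1]; ring

variable {H} {Cy : (E → ZMod 2) → Prop} {B Bm : Finset E} {T : ℕ}

/-- (S'). Proof. `T - 3` cycles of different lengths, `fibre` with `ω = 1`, `classes` with `P = True`. -/
theorem Scale.Sp (hB : H.Scale Cy B T) (hsub : Bm ⊆ B) :
    (T - 3) * 2 ^ H.rk Bm ≤ (Bm.card + 1) * 2 ^ H.rk B := by
  classical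
  obtain ⟨S, hS1, hS2, hS3⟩ := exists_lengths (m := T) (P := fun R => Cy R ∧ R ∈ H.ZB B)
    (fun ℓ h3 hl => by
      obtain ⟨R, h1, h2, h4⟩ := hB.len ℓ h3 hl
      exact ⟨R, ⟨h1, h2⟩, h4⟩)
  have h1 := fibre (fun _ => 1) Bm S hS2
  obtain ⟨c, hc1, hc2⟩ : ∃ c, (S.image (off Bm)).card ≤ c ∧ c * 2 ^ H.rk Bm = 2 ^ H.rk B := by
    have h2 := H.classes hsub (fun _ => True) (fun _ _ _ _ h => h)
    rw [H.cn_true] at h2
    refine ⟨_, ?_, h2⟩
    refine Finset.card_le_card (Finset.image_subset_image fun R hR => ?_)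
    simp only [mem_filter, mem_univ, true_and, and_true]
    exact (hS3 R hR).2
  rw [hS1] at h1
  simp only [sum_const, smul_eq_mul, mul_one] at h1
  calc (T - 3) * 2 ^ H.rk Bm
      ≤ ((Bm.card + 1) * (S.image (off Bm)).card) * 2 ^ H.rk Bm := Nat.mul_le_mul_right _ h1
    _ ≤ ((Bm.card + 1) * c) * 2 ^ H.rk Bm := Nat.mul_le_mul_right _ (Nat.mul_le_mul_left _ hc1)
    _ = (Bm.card + 1) * 2 ^ H.rk B := by rw [mul_assoc, hc2]

/-- (S''). Proof. Among the `T - 3` cycles of different lengths those with `f = 0` are counted by `cn B (Cy ∧ f = 0)`; those with `f = 1` by `fibre`,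
`classes` with `P = (f = 1)` (`f = 0` on `ZB Bm`) and `half`. -/
theorem Scale.Spp (hB : H.Scale Cy B T) (hsub : Bm ⊆ B) (f : (E → ZMod 2) →ₗ[ZMod 2] ZMod 2)
    (hf : ∃ R ∈ H.ZB B, f R ≠ 0) (h0 : ∀ R ∈ H.ZB Bm, f R = 0) :
    2 * (T - 3) * 2 ^ H.rk Bm ≤
      (Bm.card + 1) * 2 ^ H.rk B + 2 * H.cn B (fun R => Cy R ∧ f R = 0) * 2 ^ H.rk Bm := by
  classical
  obtain ⟨S, hS1, hS2, hS3⟩ := exists_lengths (m := T) (P := fun R => Cy R ∧ R ∈ H.ZB B)
    (fun ℓ h3 hl => by
      obtain ⟨R, h1, h2, h4⟩ := hB.len ℓ h3 hl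
      exact ⟨R, ⟨h1, h2⟩, h4⟩)
  set S0 := S.filter (fun R => f R = 0) with hS0
  set S1 := S.filter (fun R => ¬ f R = 0) with hS1'
  have hcard : S0.card + S1.card = T - 3 := by
    rw [← hS1, hS0, hS1']; exact Finset.card_filter_add_card_filter_not _
  have h00 : S0.card ≤ H.cn B (fun R => Cy R ∧ f R = 0) := by
    unfold cn
    refine Finset.card_le_card fun R hR => ?_
    rw [hS0, mem_filter] at hR
    simp only [mem_filter, mem_univ, true_and]
    exact ⟨(hS3 R hR.1).2, (hS3 R hR.1).1, hR.2⟩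
  have h1 := fibre (fun _ => 1) Bm S1 (hS2.mono (by
    intro R hR; rw [hS1'] at hR; exact (mem_filter.1 hR).1))
  simp only [sum_const, smul_eq_mul, mul_one] at h1
  obtain ⟨c, hc1, hc2⟩ : ∃ c, (S1.image (off Bm)).card ≤ c ∧
      c * 2 ^ H.rk Bm = H.cn B (fun R => f R = 1) := by
    refine ⟨_, ?_, H.classes hsub (fun R => f R = 1) (fun R _ D hD h => by
      rw [map_add, h, h0 D hD, add_zero])⟩
    refine Finset.card_le_card (Finset.image_subset_image fun R hR => ?_)
    rw [hS1', mem_filter] at hR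
    simp only [mem_filter, mem_univ, true_and]
    exact ⟨(hS3 R hR.1).2, zm_ne_zero.1 hR.2⟩
  have h4 := H.half f hf
  have h5 : 2 * S1.card * 2 ^ H.rk Bm ≤ (Bm.card + 1) * 2 ^ H.rk B := by
    calc 2 * S1.card * 2 ^ H.rk Bm
        ≤ 2 * ((Bm.card + 1) * c) * 2 ^ H.rk Bm :=
          Nat.mul_le_mul_right _ (Nat.mul_le_mul_left _ (h1.trans (Nat.mul_le_mul_left _ hc1)))
      _ = (Bm.card + 1) * (2 * (c * 2 ^ H.rk Bm)) := by ring
      _ = (Bm.card + 1) * 2 ^ H.rk B := by rw [hc2, h4]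
  calc 2 * (T - 3) * 2 ^ H.rk Bm = 2 * S1.card * 2 ^ H.rk Bm + 2 * S0.card * 2 ^ H.rk Bm := by
        rw [← hcard]; ring
    _ ≤ _ := Nat.add_le_add h5 (Nat.mul_le_mul_right _ (Nat.mul_le_mul_left _ h00))

end GM

end Pool.Agent.Lib.MP_af4270_co
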