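import Pool.Agent.Lib.MP_af4270_co.GMGrDefs

/-!
# PAN-E: cardinalities
-/

set_option autoImplicit false
set_option linter.unusedSectionVars false
set_option linter.unusedVariables false

namespace Pool.Agent.Lib.MP_af4270_co

open Finset

/-- an ordered pair is determined by the unordered pair -/
theorem EG_ext {n : ℕ} (G : SimpleGraph (Fin n)) {f g : EG G}
    (h : s(f.1.1, f.1.2) = s(g.1.1, g.1.2)) : f = g := by
  apply Subtype.ext
  have hlt := f.2.1
  have hlt' := g.2.1
  rw [Sym2.eq_iff] at h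
  rcases h with h6 | h6
  · exact Prod.ext h6.1 h6.2
  · exfalso
    rw [h6.1, h6.2] at hlt
    exact absurd hlt (not_lt.2 hlt'.le)

/-- every edge comes from an ordered pair -/
theorem exists_EG {n : ℕ} (G : SimpleGraph (Fin n)) {e : Sym2 (Fin n)} (h : e ∈ G.edgeSet) :
    ∃ f : EG G, s(f.1.1, f.1.2) = e := by
  induction e using Sym2.ind with
  | _ x y =>
    have h' : G.Adj x y := h
    rcases lt_or_gt_of_ne h'.ne with h1 | h1
    · exact ⟨⟨(x, y), h1, h'⟩, rfl⟩
    · exact ⟨⟨(y, x), h1, h'.symm⟩, Sym2.eq_swap⟩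

/-- Proof. `e ↦ s(e.1.1, e.1.2)` is a bijection onto the edge set. -/
theorem card_EG {n : ℕ} (G : SimpleGraph (Fin n)) : Fintype.card (EG G) = Nat.card G.edgeSet := by
  rw [← Nat.card_eq_fintype_card]
  refine Nat.card_congr (Equiv.ofBijective (fun f : EG G => (⟨s(f.1.1, f.1.2), f.2.2⟩ : G.edgeSet))
    ⟨?_, ?_⟩)
  · intro f g h
    exact EG_ext G (congrArg Subtype.val h)
  · rintro ⟨e, he⟩
    obtain ⟨f, hf⟩ := exists_EG G he
    exact ⟨f, Subtype.ext hf⟩

/-- Proof. `p.edges` is nodup, each edge of `p` is `s(a,b)` for a unique `(a,b) ∈ EG G`. -/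
theorem CyG_card {n : ℕ} (G : SimpleGraph (Fin n)) {v : Fin n} (p : G.Walk v v) (hp : p.IsCycle)
    (R : EG G → ZMod 2) (hR : ∀ e : EG G, R e ≠ 0 ↔ s(e.1.1, e.1.2) ∈ p.edges) :
    (supp R).card = p.length := by
  classical
  rw [← p.length_edges, ← List.toFinset_card_of_nodup hp.isTrail.edges_nodup,
    ← card_image_of_injOn (f := fun f : EG G => s(f.1.1, f.1.2)) (s := supp R)]
  · congr 1
    ext e
    simp only [mem_image, List.mem_toFinset]
    constructor
    · rintro ⟨f, hf, rfl⟩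
      exact (hR f).1 (mem_supp.1 hf)
    · intro he
      obtain ⟨f, hf⟩ := exists_EG G (p.edges_subset_edgeSet he)
      exact ⟨f, mem_supp.2 ((hR f).2 (by rw [hf]; exact he)), hf⟩
  · intro f _ g _ h
    exact EG_ext G h

end Pool.Agent.Lib.MP_af4270_co
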