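import Pool.Agent.Lib.MP_af4270_co.GMGrMin
import Pool.Agent.Lib.MP_af4270_co.GMGrCard

/-!
# PAN-E: the cycle system of a pancyclic simple graph
-/

set_option autoImplicit false
set_option linter.unusedSectionVars false
set_option linter.unusedVariables false

namespace Pool.Agent.Lib.MP_af4270_co

open Finset

theorem sysG {n : ℕ} (G : SimpleGraph (Fin n)) (hG : Pancyclic G) : (HG G).Sys (CyG G) n := by
  classical
  refine ⟨?_, ?_, ?_, ?_⟩
  · intro e
    exact e.2.2.ne
  · intro R hR
    exact CyG_single G hR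
  · intro R hR
    exact (CyG_deg G hR).2
  · intro ℓ h3 hn
    obtain ⟨v, p, hp, hl⟩ := hG ℓ h3 hn
    let R : EG G → ZMod 2 := fun f => if s(f.1.1, f.1.2) ∈ p.edges then 1 else 0
    have hR : ∀ f : EG G, R f ≠ 0 ↔ s(f.1.1, f.1.2) ∈ p.edges := by
      intro f
      simp only [R]
      split_ifs with h <;> simp [h]
    exact ⟨R, ⟨v, p, hp, hR⟩, by rw [CyG_card G p hp R hR, hl]⟩

end Pool.Agent.Lib.MP_af4270_co
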