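import Pool.Agent.Lib.MP_af4270_co.GMRec
import Pool.Agent.Lib.MP_af4270_co.GMPar
import Pool.Agent.Lib.MP_af4270_co.GMGraph

/-!
# PAN-E: the final bound
-/

set_option autoImplicit false
set_option linter.unusedSectionVars false
set_option linter.unusedVariables false

namespace Pool.Agent.Lib.MP_af4270_co

open Finset

/-- Proof. `top_bound` for `HG G`; `r = rk B ≤ |E| + 1 - n` (`rk_le_of_single` with a cycle of length `n`). `phi ((n+1)/2^r) = r - log2 (n+1) - 2 (n+1)/2^r ≥ lstar (4r) - 100`, so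
`|E| - n + 1 ≥ r ≥ log2 n + lstar (4r) - 100`; `n ≤ 2^(r+1)`: `lstar n ≤ 1 + lstar (r+1) ≤ 1 + lstar (4r)`. -/
theorem pancyclic_bound (hSD : StructD) {n : ℕ} (hn : 3 ≤ n) (G : SimpleGraph (Fin n))
    (hG : Pancyclic G) :
    Real.logb 2 n + (lstar n : ℝ) - 102 ≤ (Nat.card G.edgeSet : ℝ) - n := by
  have S := sysG G hG
  obtain ⟨r, hr1, hnr, ⟨B, hB⟩, hphi⟩ := S.top_bound hSD hn
  obtain ⟨R₀, hR₀, hc⟩ := S.pan n hn le_rfl
  have h1 := (HG G).rk_le_of_single (S.sgl R₀ hR₀) B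
  rw [← hB, hc, card_EG] at h1
  have hn0 : (0 : ℝ) < n := by
    have : 0 < n := by omega
    exact_mod_cast this
  have h2 : phi (((n : ℝ) + 1) / 2 ^ r) ≤ r - Real.logb 2 n := by
    unfold phi
    have h3 : Real.logb 2 (((n : ℝ) + 1) / 2 ^ r) = Real.logb 2 ((n : ℝ) + 1) - r := by
      rw [Real.logb_div (by positivity) (by positivity), Real.logb_pow,
        Real.logb_self_eq_one (by norm_num), mul_one]
    have h4 : Real.logb 2 n ≤ Real.logb 2 ((n : ℝ) + 1) :=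
      Real.logb_le_logb_of_le (by norm_num) hn0 (by linarith)
    have h5 : 0 ≤ ((n : ℝ) + 1) / 2 ^ r := by positivity
    linarith
  have h6 : lstar (n : ℝ) ≤ 1 + lstar (4 * r : ℝ) := by
    have a1 : (n : ℝ) ≤ (2 : ℝ) ^ ((r : ℝ) + 1) := by
      have : (n : ℝ) ≤ (2 : ℝ) ^ (r + 1) := by exact_mod_cast hnr
      rwa [← Real.rpow_natCast, Nat.cast_add, Nat.cast_one] at this
    have a2 : (r : ℝ) + 1 ≤ 4 * r := by
      have : (1 : ℝ) ≤ r := by exact_mod_cast hr1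
      linarith
    exact (lstar_mono a1).trans ((lstar_pow _).trans (Nat.add_le_add_left (lstar_mono a2) 1))
  have h7 : (lstar (n : ℝ) : ℝ) ≤ 1 + (lstar (4 * r : ℝ) : ℝ) := by exact_mod_cast h6
  have h8 : (r : ℝ) + n ≤ (Nat.card G.edgeSet : ℝ) + 1 := by exact_mod_cast h1
  linarith

end Pool.Agent.Lib.MP_af4270_co
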