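import Pool.Agent.Lib.MP_af4270_co.GMBasic

/-!
# PAN-E: choice of a good scale (arithmetic)
-/

set_option autoImplicit false
set_option linter.unusedSectionVars false
set_option linter.unusedVariables false

namespace Pool.Agent.Lib.MP_af4270_co

open Finset

private theorem two_mul_add_one_le_two_pow {n : ℕ} (hn : 3 ≤ n) : 2 * n + 1 ≤ 2 ^ n := by
  induction n, hn using Nat.le_induction with
  | base => norm_num
  | succ n hn ih => rw [pow_succ]; omega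

/-- Proof. `M = 4(w+3)2^w`. If no `m ∈ [m₁-M, m₁)` works then `t m < (g m + 1) 2^w/(2^w+1)`, so `g (m+1) + 1 ≤ (g m + 1)(1 + 1/(1+δ))`, `δ = 2^(-w)`, `1 + 1/(1+δ) ≤ 2 (1 - δ/4)`. Hence
`g m₁ + 1 ≤ (2^(m₁-M) + 2 m₁ + 1) 2^M (1-δ/4)^M ≤ 2^(m₁+1) exp(-(w+3)) < 2^(m₁-w)` (`2 m₁ + 1 ≤ 2^(m₁-M)` since `m₁ ≥ 2M`), contradicting `hlow`. -/
theorem good_m (w m₁ : ℕ) (g t : ℕ → ℕ) (hw : 8 ≤ w) (hg : ∀ m < m₁, g (m + 1) ≤ g m + t m)
    (hg2 : ∀ m ≤ m₁, g m ≤ 2 ^ m + 2 * m) (hlow : 2 ^ m₁ ≤ 2 ^ w * (g m₁ + 1))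
    (hm : 8 * ((w + 3) * 2 ^ w) ≤ m₁) :
    ∃ m < m₁, m₁ ≤ m + 4 * ((w + 3) * 2 ^ w) ∧ (g m + 1) * 2 ^ w ≤ (2 ^ w + 1) * t m := by
  by_contra hcon
  push Not at hcon
  obtain ⟨M, hM⟩ : ∃ M, M = 4 * ((w + 3) * 2 ^ w) := ⟨_, rfl⟩
  have hK1 : 1 ≤ 2 ^ w := Nat.one_le_two_pow
  have hM12 : 12 ≤ M := by
    rw [hM]
    have : 3 ≤ (w + 3) * 2 ^ w := by nlinarith
    omega
  have hm2 : 2 * M ≤ m₁ := by rw [hM]; omega
  rw [← hM] at hcon
  obtain ⟨n, hn⟩ : ∃ n, m₁ = n + M := ⟨m₁ - M, by omega⟩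
  have hnM : M ≤ n := by omega
  obtain ⟨K, hK⟩ : ∃ K : ℝ, K = 2 ^ w := ⟨_, rfl⟩
  have hK0 : 1 ≤ K := by rw [hK]; exact one_le_pow₀ (by norm_num)
  obtain ⟨x, hx⟩ : ∃ x : ℝ, x = 1 / (2 * (K + 1)) := ⟨_, rfl⟩
  have hxK : x * (2 * (K + 1)) = 1 := by rw [hx]; field_simp
  have hx0 : 0 < x := by rw [hx]; positivity
  have hx1 : x ≤ 1 / 4 := by nlinarith
  have hstep : ∀ j < M, ((g (n + (j + 1)) : ℝ) + 1) ≤ ((g (n + j) : ℝ) + 1) * (2 * (1 - x)) := by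
    intro j hj
    have h1 := hg (n + j) (by omega)
    have h2 := hcon (n + j) (by omega) (by omega)
    have h1' : (g (n + (j + 1)) : ℝ) ≤ g (n + j) + t (n + j) := by
      rw [← add_assoc]; exact_mod_cast h1
    have h2' : (K + 1) * (t (n + j) : ℝ) < ((g (n + j) : ℝ) + 1) * K := by
      rw [hK]; exact_mod_cast h2
    have h3 : (t (n + j) : ℝ) ≤ ((g (n + j) : ℝ) + 1) * (1 - 2 * x) := by
      have h4 : (K + 1) * (1 - 2 * x) = K := by nlinarith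
      have h5 : (K + 1) * (t (n + j) : ℝ) ≤ (K + 1) * (((g (n + j) : ℝ) + 1) * (1 - 2 * x)) := by
        calc (K + 1) * (t (n + j) : ℝ) ≤ ((g (n + j) : ℝ) + 1) * K := h2'.le
          _ = ((g (n + j) : ℝ) + 1) * ((K + 1) * (1 - 2 * x)) := by rw [h4]
          _ = _ := by ring
      exact le_of_mul_le_mul_left h5 (by linarith)
    nlinarith
  have hind : ∀ j ≤ M, ((g (n + j) : ℝ) + 1) ≤ ((g n : ℝ) + 1) * (2 * (1 - x)) ^ j := by
    intro j
    induction j with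
    | zero => intro _; simp
    | succ j ih =>
      intro hj
      have h1 := ih (by omega)
      have h2 := hstep j (by omega)
      calc ((g (n + (j + 1)) : ℝ) + 1) ≤ ((g (n + j) : ℝ) + 1) * (2 * (1 - x)) := h2
        _ ≤ (((g n : ℝ) + 1) * (2 * (1 - x)) ^ j) * (2 * (1 - x)) :=
            mul_le_mul_of_nonneg_right h1 (by linarith)
        _ = _ := by ring
  have hfin := hind M le_rfl
  have hgn : ((g n : ℝ) + 1) ≤ 2 ^ (n + 1) := by
    have h1 := hg2 n (by omega)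
    have h2 := two_mul_add_one_le_two_pow (n := n) (by omega)
    have h3 : g n + 1 ≤ 2 ^ (n + 1) := by rw [pow_succ]; omega
    exact_mod_cast h3
  have hpow : (1 - x) ^ M ≤ (1 / 2 : ℝ) ^ (w + 3) := by
    have h1 : 1 - x ≤ Real.exp (-x) := by
      have := Real.add_one_le_exp (-x)
      linarith
    have h2 : (1 - x) ^ M ≤ Real.exp (-x) ^ M :=
      pow_le_pow_left₀ (by linarith) h1 M
    rw [← Real.exp_nat_mul] at h2
    have h3 : (w : ℝ) + 3 ≤ (M : ℝ) * x := by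
      have hMr : (M : ℝ) = 4 * (((w : ℝ) + 3) * K) := by rw [hM, hK]; push_cast; ring
      rw [hMr]
      have h4 : x * K * 4 ≥ 1 := by nlinarith
      have h5 : (0 : ℝ) ≤ (w : ℝ) + 3 := by positivity
      nlinarith
    have h6 : Real.exp ((M : ℝ) * -x) ≤ Real.exp (-((w + 3 : ℕ) : ℝ)) := by
      apply Real.exp_le_exp.2
      push_cast
      linarith
    have h7 : Real.exp (-((w + 3 : ℕ) : ℝ)) ≤ (1 / 2 : ℝ) ^ (w + 3) := by
      have h8 : Real.exp (-((w + 3 : ℕ) : ℝ)) = (Real.exp (-1)) ^ (w + 3) := by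
        rw [← Real.exp_nat_mul]; ring_nf
      rw [h8]
      refine pow_le_pow_left₀ (Real.exp_pos _).le ?_ _
      rw [Real.exp_neg, one_div]
      exact inv_anti₀ (by norm_num) (by
        have := Real.exp_one_gt_d9
        linarith)
    exact h2.trans (h6.trans h7)
  have hlow' : (2 : ℝ) ^ m₁ ≤ 2 ^ w * ((g m₁ : ℝ) + 1) := by exact_mod_cast hlow
  have hend : (2 : ℝ) ^ w * ((g m₁ : ℝ) + 1) < 2 ^ m₁ := by
    rw [hn]
    calc (2 : ℝ) ^ w * ((g (n + M) : ℝ) + 1)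
        ≤ 2 ^ w * (((g n : ℝ) + 1) * (2 * (1 - x)) ^ M) :=
          mul_le_mul_of_nonneg_left hfin (by positivity)
      _ = 2 ^ w * (((g n : ℝ) + 1) * (2 ^ M * (1 - x) ^ M)) := by rw [mul_pow]
      _ ≤ 2 ^ w * (2 ^ (n + 1) * (2 ^ M * (1 / 2 : ℝ) ^ (w + 3))) := by
          have h1x : (0 : ℝ) ≤ (1 - x) ^ M := pow_nonneg (by linarith) _
          gcongr
      _ = 2 ^ (n + M) * (1 / 4) := by
          rw [pow_add (1 / 2 : ℝ) w 3, one_div, inv_pow, pow_succ, pow_add]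
          have h2w : (2 : ℝ) ^ w ≠ 0 := by positivity
          field_simp
          norm_num
      _ < 2 ^ (n + M) := by
          have : (0 : ℝ) < 2 ^ (n + M) := by positivity
          linarith
  linarith

end Pool.Agent.Lib.MP_af4270_co
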