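import Pool.Agent.Lib.MP_af4270_co.GMDefs

/-!
# PAN-E: the multigraph of a simple graph (definitions)
-/

set_option autoImplicit false
set_option linter.unusedSectionVars false
set_option linter.unusedVariables false

namespace Pool.Agent.Lib.MP_af4270_co

open Finset

/-- pancyclic graph on `Fin n` -/
def Pancyclic {n : ℕ} (G : SimpleGraph (Fin n)) : Prop :=
  ∀ k : ℕ, 3 ≤ k → k ≤ n → ∃ v : Fin n, ∃ p : G.Walk v v, p.IsCycle ∧ p.length = k

/-- edges of a simple graph on `Fin n` as ordered pairs -/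
abbrev EG {n : ℕ} (G : SimpleGraph (Fin n)) : Type :=
  {p : Fin n × Fin n // p.1 < p.2 ∧ G.Adj p.1 p.2}

noncomputable instance {n : ℕ} (G : SimpleGraph (Fin n)) : Fintype (EG G) := Fintype.ofFinite _

/-- the multigraph of a simple graph -/
def HG {n : ℕ} (G : SimpleGraph (Fin n)) : GM (Fin n) (EG G) where
  s e := e.1.1
  t e := e.1.2

/-- cycles of `G` as edge vectors -/
def CyG {n : ℕ} (G : SimpleGraph (Fin n)) (R : EG G → ZMod 2) : Prop :=
  ∃ (v : Fin n) (p : G.Walk v v), p.IsCycle ∧ ∀ e : EG G, R e ≠ 0 ↔ s(e.1.1, e.1.2) ∈ p.edges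

end Pool.Agent.Lib.MP_af4270_co
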