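import Pool.Agent.Lib.MP_af4270_co.GMGrDefs
import Pool.Agent.Lib.MP_af4270_co.GMBasic
import Mathlib.Combinatorics.SimpleGraph.Connectivity.Subgraph

/-!
# PAN-E: cycles are even of degree at most 2
-/

set_option autoImplicit false
set_option linter.unusedSectionVars false
set_option linter.unusedVariables false

namespace Pool.Agent.Lib.MP_af4270_co

open Finset

/-- other end of a dart -/
def hdG {n : ℕ} (G : SimpleGraph (Fin n)) (d : EG G × Bool) : Fin n :=
  if d.2 then d.1.1.1 else d.1.1.2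

theorem mem_dtG {n : ℕ} (G : SimpleGraph (Fin n)) (x : Fin n) (d : EG G × Bool) :
    d ∈ (HG G).dt x ↔ (HG G).tl d = x := by
  simp [GM.dt]

theorem sym_tl_hd {n : ℕ} (G : SimpleGraph (Fin n)) (d : EG G × Bool) :
    s((HG G).tl d, hdG G d) = s(d.1.1.1, d.1.1.2) := by
  obtain ⟨e, b⟩ := d
  cases b
  · rfl
  · exact Sym2.eq_swap

/-- the darts of a cycle at a vertex correspond to the neighbours on the cycle -/
theorem card_darts_cyc {n : ℕ} (G : SimpleGraph (Fin n)) {R : EG G → ZMod 2} {v : Fin n}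
    (p : G.Walk v v) (hR : ∀ e : EG G, R e ≠ 0 ↔ s(e.1.1, e.1.2) ∈ p.edges) (x : Fin n) :
    (((HG G).dt x).filter (fun d => R d.1 ≠ 0)).card = (p.toSubgraph.neighborSet x).ncard := by
  classical
  have himg : (p.toSubgraph.neighborSet x) =
      ((((HG G).dt x).filter (fun d => R d.1 ≠ 0)).image (hdG G) : Finset (Fin n)) := by
    ext y
    simp only [coe_image, Set.mem_image, mem_coe, mem_filter, mem_dtG]
    rw [SimpleGraph.Subgraph.mem_neighborSet, SimpleGraph.Walk.adj_toSubgraph_iff_mem_edges]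
    constructor
    · intro h
      have hadj : G.Adj x y := p.adj_of_mem_edges h
      rcases lt_or_gt_of_ne hadj.ne with h1 | h1
      · exact ⟨(⟨(x, y), h1, hadj⟩, false), ⟨rfl, (hR _).2 h⟩, rfl⟩
      · refine ⟨(⟨(y, x), h1, hadj.symm⟩, true), ⟨rfl, (hR _).2 ?_⟩, rfl⟩
        rw [Sym2.eq_swap]; exact h
    · rintro ⟨d, ⟨h1, h2⟩, h3⟩
      rw [← h1, ← h3, sym_tl_hd]
      exact (hR _).1 h2
  rw [himg, Set.ncard_coe_finset, card_image_of_injOn]
  intro d hd d' hd' h
  rw [mem_coe, mem_filter, mem_dtG] at hd hd'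
  have h1 : s(d.1.1.1, d.1.1.2) = s(d'.1.1.1, d'.1.1.2) := by
    rw [← sym_tl_hd, ← sym_tl_hd, hd.1, hd'.1, h]
  have hlt := d.1.2.1
  have hlt' := d'.1.2.1
  have h2 : d.1 = d'.1 := by
    apply Subtype.ext
    rw [Sym2.eq_iff] at h1
    rcases h1 with h1 | h1
    · exact Prod.ext h1.1 h1.2
    · exfalso
      rw [h1.1, h1.2] at hlt
      exact absurd hlt (not_lt.2 hlt'.le)
  have h3 : d.2 = d'.2 := by
    have ha := hd.1
    have hb := hd'.1
    obtain ⟨e, b⟩ := d
    obtain ⟨e', b'⟩ := d'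
    simp only at h2
    subst h2
    simp only [GM.tl, HG] at ha hb
    cases b <;> cases b' <;> simp_all
  exact Prod.ext h2 h3

/-- Proof. The darts of `R` at `x` correspond to the edges of `p` at `x` (loopless); their number is even (`IsTrail.even_countP_edges_iff`) and at most 2 for a cycle. -/
theorem CyG_deg {n : ℕ} (G : SimpleGraph (Fin n)) {R : EG G → ZMod 2} (hR : CyG G R) :
    R ∈ (HG G).Z ∧ ∀ x, (((HG G).dt x).filter (fun d => R d.1 ≠ 0)).card ≤ 2 := by
  classical
  obtain ⟨v, p, hp, hR⟩ := hR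
  have key : ∀ x, (((HG G).dt x).filter (fun d => R d.1 ≠ 0)).card = 0 ∨
      (((HG G).dt x).filter (fun d => R d.1 ≠ 0)).card = 2 := by
    intro x
    rw [card_darts_cyc G p hR x]
    by_cases hx : x ∈ p.support
    · right; exact hp.ncard_neighborSet_toSubgraph_eq_two hx
    · left
      rw [Set.ncard_eq_zero]
      ext y
      rw [SimpleGraph.Subgraph.mem_neighborSet, SimpleGraph.Walk.adj_toSubgraph_iff_mem_edges]
      simp only [Set.mem_empty_iff_false, iff_false]
      intro h
      exact hx (p.fst_mem_support_of_mem_edges h)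
  refine ⟨?_, ?_⟩
  · intro x
    have h2 : ∀ d ∈ (HG G).dt x, R d.1 = if R d.1 ≠ 0 then 1 else 0 := by
      intro d _
      rcases zm_cases (R d.1) with a | a <;> simp [a]
    rw [Finset.sum_congr rfl h2, ← Finset.sum_filter, Finset.sum_const, nsmul_eq_mul, mul_one]
    rcases key x with h | h
    · rw [h]; rfl
    · rw [h]; rfl
  · intro x
    rcases key x with h | h <;> omega

end Pool.Agent.Lib.MP_af4270_co
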