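import Pool.Agent.Lib.MP_af4270_co.GMGrDeg

/-!
# PAN-E: cycles are minimal
-/

set_option autoImplicit false
set_option linter.unusedSectionVars false
set_option linter.unusedVariables false

namespace Pool.Agent.Lib.MP_af4270_co

open Finset

/-- a dart of `G` from an edge -/
theorem exists_dartG {n : ℕ} (G : SimpleGraph (Fin n)) {x y : Fin n} (h : G.Adj x y) :
    ∃ d : EG G × Bool, (HG G).tl d = x ∧ hdG G d = y := by
  rcases lt_or_gt_of_ne h.ne with h1 | h1
  · exact ⟨(⟨(x, y), h1, h⟩, false), rfl, rfl⟩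
  · exact ⟨(⟨(y, x), h1, h.symm⟩, true), rfl, rfl⟩

/-- minimality. Proof. Let `D ∈ Z`, `D ≠ 0`, `supp D ⊆ supp R`. Consecutive edges `e, e'` of the closed walk `p` share a vertex `x`, and these are the only two edges of `R` at `x`; by evenness of `D` at `x`,
`e ∈ D ↔ e' ∈ D`. So `D` contains all edges of `p`. -/
theorem CyG_single {n : ℕ} (G : SimpleGraph (Fin n)) {R : EG G → ZMod 2} (hR : CyG G R) :
    (HG G).Single R := by
  classical
  obtain ⟨hZ, h2⟩ := CyG_deg G hR
  obtain ⟨v, p, hp, hR⟩ := hR
  refine ⟨hZ, ?_, ?_⟩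
  · intro h0
    obtain ⟨e, he⟩ : ∃ e, e ∈ p.edges := by
      have h3 := hp.three_le_length
      rw [← p.length_edges] at h3
      exact List.exists_mem_of_length_pos (by omega)
    induction e using Sym2.ind with
    | _ x y =>
      obtain ⟨d, hd1, hd2⟩ := exists_dartG G (p.adj_of_mem_edges he)
      have h4 : R d.1 ≠ 0 := by
        rw [hR, ← sym_tl_hd, hd1, hd2]; exact he
      exact h4 (by rw [h0]; rfl)
  · intro D hD hD0 hsub
    -- full vertices
    have hfull : ∀ x, (∃ d ∈ (HG G).dt x, D d.1 ≠ 0) → ∀ d ∈ (HG G).dt x, R d.1 ≠ 0 → D d.1 ≠ 0 := by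
      intro x hx d hd hdR
      have hev := (HG G).even_darts hD x
      have hs : ((HG G).dt x).filter (fun d => D d.1 ≠ 0) ⊆
          ((HG G).dt x).filter (fun d => R d.1 ≠ 0) := by
        intro d' hd'
        rw [mem_filter] at hd' ⊢
        exact ⟨hd'.1, mem_supp.1 (hsub (mem_supp.2 hd'.2))⟩
      have hpos : 0 < (((HG G).dt x).filter (fun d => D d.1 ≠ 0)).card := by
        obtain ⟨d', hd', hdD'⟩ := hx
        exact card_pos.2 ⟨d', mem_filter.2 ⟨hd', hdD'⟩⟩
      have h2x := h2 x
      have hcard : (((HG G).dt x).filter (fun d => R d.1 ≠ 0)).card ≤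
          (((HG G).dt x).filter (fun d => D d.1 ≠ 0)).card := by
        obtain ⟨k, hk⟩ := hev
        omega
      have heq := eq_of_subset_of_card_le hs hcard
      have : d ∈ ((HG G).dt x).filter (fun d => D d.1 ≠ 0) := by
        rw [heq]; exact mem_filter.2 ⟨hd, hdR⟩
      exact (mem_filter.1 this).2
    -- propagate along walks
    have hwalk : ∀ (a b : Fin n) (q : G.Walk a b), (∀ e ∈ q.edges, e ∈ p.edges) →
        (∃ d ∈ (HG G).dt a, D d.1 ≠ 0) →
        ∀ e ∈ q.edges, ∀ f : EG G, s(f.1.1, f.1.2) = e → D f ≠ 0 := by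
      intro a b q
      induction q with
      | nil => intro _ _ e he; simp at he
      | @cons a c b hac q ih =>
        intro hq hx
        obtain ⟨d, hd1, hd2⟩ := exists_dartG G hac
        have hdR : R d.1 ≠ 0 := by
          rw [hR, ← sym_tl_hd, hd1, hd2]
          exact hq _ (by simp)
        have hdD : D d.1 ≠ 0 := hfull a hx d ((mem_dtG G a d).2 hd1) hdR
        have hx' : ∃ d ∈ (HG G).dt c, D d.1 ≠ 0 := by
          refine ⟨(d.1, !d.2), ?_, hdD⟩
          rw [mem_dtG, ← hd2]
          obtain ⟨e, b⟩ := d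
          cases b <;> rfl
        intro e he f hf
        rw [SimpleGraph.Walk.edges_cons, List.mem_cons] at he
        rcases he with he | he
        · have h5 : f = d.1 := by
            apply Subtype.ext
            have h6 : s(f.1.1, f.1.2) = s(d.1.1.1, d.1.1.2) := by
              rw [hf, he, ← hd1, ← hd2, sym_tl_hd]
            rw [Sym2.eq_iff] at h6
            have hlt := f.2.1
            have hlt' := d.1.2.1
            rcases h6 with h6 | h6
            · exact Prod.ext h6.1 h6.2
            · exfalso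
              rw [h6.1, h6.2] at hlt
              exact absurd hlt (not_lt.2 hlt'.le)
          rw [h5]; exact hdD
        · exact ih (fun e he' => hq e (by simp [he'])) hx' e he f hf
    obtain ⟨f, hf⟩ : ∃ f, D f ≠ 0 := by
      by_contra hc
      push Not at hc
      exact hD0 (funext hc)
    have hfR : s(f.1.1, f.1.2) ∈ p.edges := (hR f).1 (mem_supp.1 (hsub (mem_supp.2 hf)))
    have hmem : f.1.1 ∈ p.support := p.fst_mem_support_of_mem_edges hfR
    have hall : ∀ g : EG G, R g ≠ 0 → D g ≠ 0 := by
      intro g hg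
      have hg' := (hR g).1 hg
      refine hwalk _ _ (p.rotate f.1.1 hmem) ?_ ⟨(f, false), (mem_dtG G _ _).2 rfl, hf⟩ _ ?_ g rfl
      · intro e he
        exact ((p.rotate_edges f.1.1 hmem).mem_iff).1 he
      · exact ((p.rotate_edges f.1.1 hmem).mem_iff).2 hg'
    funext g
    rcases zm_cases (R g) with h | h
    · rw [h]
      by_contra hc
      exact (mem_supp.1 (hsub (mem_supp.2 hc))) h
    · have h7 := hall g (by rw [h]; decide)
      rw [zm_ne_zero] at h7
      rw [h7, h]

end Pool.Agent.Lib.MP_af4270_co
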