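import Pool.Agent.Lib.MP_af4270_co.GMPar

/-!
# PAN-E: the greedy sequence of cycles
-/

set_option autoImplicit false
set_option linter.unusedSectionVars false
set_option linter.unusedVariables false

namespace Pool.Agent.Lib.MP_af4270_co

open Finset

variable {V E : Type} [Fintype V] [DecidableEq V] [Fintype E] [DecidableEq E]

theorem spn_eq (D : ℕ → (E → ZMod 2)) (i : ℕ) :
    spn D i = Submodule.span (ZMod 2) (((range i).image D : Finset (E → ZMod 2)) :
      Set (E → ZMod 2)) := by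
  unfold spn
  congr 1
  ext R
  simp

theorem mem_spn (D : ℕ → (E → ZMod 2)) {i j : ℕ} (h : j < i) : D j ∈ spn D i :=
  Submodule.subset_span ⟨j, h, rfl⟩

theorem spn_mono (D : ℕ → (E → ZMod 2)) {i j : ℕ} (h : i ≤ j) : spn D i ≤ spn D j :=
  Submodule.span_mono (Set.image_mono fun _ hk => lt_of_lt_of_le hk h)

theorem spn_congr {D D' : ℕ → (E → ZMod 2)} {i : ℕ} (h : ∀ j < i, D j = D' j) :
    spn D i = spn D' i := by
  unfold spn
  congr 1
  exact Set.image_congr fun j hj => h j hj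

/-- a finite subset of `spn D i` has at most `2 ^ i` elements -/
theorem card_le_of_subset_spn (D : ℕ → (E → ZMod 2)) (i : ℕ) (T : Finset (E → ZMod 2))
    (hT : ∀ R ∈ T, R ∈ spn D i) : T.card ≤ 2 ^ i := by
  classical
  have h1 : Module.finrank (ZMod 2) (spn D i) ≤ i := by
    rw [spn_eq]
    refine (finrank_span_finset_le_card _).trans ?_
    refine Finset.card_image_le.trans ?_
    rw [Finset.card_range]
  have h2 : T.card ≤ Fintype.card (spn D i) := by
    rw [Fintype.card_subtype]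
    refine Finset.card_le_card fun R hR => ?_
    rw [mem_filter]
    exact ⟨mem_univ _, hT R hR⟩
  rw [Module.card_eq_pow_finrank (K := ZMod 2), ZMod.card] at h2
  exact h2.trans (Nat.pow_le_pow_right (by norm_num) h1)

namespace GM

variable {H : GM V E} {Cy : (E → ZMod 2) → Prop} {n : ℕ} {D : ℕ → (E → ZMod 2)}

/-- some cycle of length at most `2^i + 2` is outside `spn D i` -/
theorem Sys.exists_out (S : H.Sys Cy n) (D : ℕ → (E → ZMod 2)) {i : ℕ} (hi : 2 ^ i + 2 ≤ n) :
    ∃ R, Cy R ∧ R ∉ spn D i ∧ (supp R).card ≤ 2 ^ i + 2 := by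
  classical
  by_contra hcon
  push Not at hcon
  have hpan := S.pan
  choose! F hF1 hF2 using hpan
  set T : Finset (E → ZMod 2) := (Finset.Icc 3 (2 ^ i + 2)).image F with hT
  have hTin : ∀ R ∈ T, Cy R ∧ (supp R).card ≤ 2 ^ i + 2 := by
    intro R hR
    rw [hT, mem_image] at hR
    obtain ⟨ℓ, hℓ, rfl⟩ := hR
    rw [mem_Icc] at hℓ
    refine ⟨hF1 ℓ hℓ.1 (hℓ.2.trans hi), ?_⟩
    rw [hF2 ℓ hℓ.1 (hℓ.2.trans hi)]
    exact hℓ.2
  have hcard : T.card = 2 ^ i := by
    rw [hT, Finset.card_image_of_injOn, Nat.card_Icc]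
    · exact Nat.add_sub_cancel (n := 2 ^ i) (m := 3)
    · intro a ha b hb hab
      rw [coe_Icc, Set.mem_Icc] at ha hb
      rw [← hF2 a ha.1 (ha.2.trans hi), ← hF2 b hb.1 (hb.2.trans hi), hab]
  have h0 : (0 : E → ZMod 2) ∉ T := by
    intro h
    exact (S.sgl 0 (hTin 0 h).1).2.1 rfl
  have h1 := card_le_of_subset_spn D i (insert 0 T) (by
    intro R hR
    rw [mem_insert] at hR
    rcases hR with rfl | hR
    · exact Submodule.zero_mem _
    · by_contra hc
      have h2 := hTin R hR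
      have := hcon R h2.1 hc
      omega)
  rw [Finset.card_insert_of_notMem h0, hcard] at h1
  omega

/-- Proof. Recursively: `D i` = an element of `{R : Cy R, R ∉ spn D i}` with `|supp R|` minimal (0 if there is none). For `2^i + 2 ≤ n` there is one: `spn D i` has at most
`2^i` elements, one of them is 0, while there are `2^i` distinct nonzero `Cy` of the lengths `3,...,2^i+2`. `low` is minimality. -/
theorem Sys.exists_gr (S : H.Sys Cy n) : ∃ D, Gr Cy D n := by
  classical
  have key : ∀ k : ℕ, ∃ D : ℕ → (E → ZMod 2), ∀ i < k, 2 ^ i + 2 ≤ n →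
      Cy (D i) ∧ D i ∉ spn D i ∧
        ∀ R, Cy R → (supp R).card < (supp (D i)).card → R ∈ spn D i := by
    intro k
    induction k with
    | zero => exact ⟨fun _ => 0, fun i hi => absurd hi (Nat.not_lt_zero _)⟩
    | succ k ih =>
      obtain ⟨D, hD⟩ := ih
      by_cases hk : 2 ^ k + 2 ≤ n
      · obtain ⟨R₀, hR₀, hR₀', -⟩ := S.exists_out D hk
        have hne : (univ.filter (fun R => Cy R ∧ R ∉ spn D k)).Nonempty :=
          ⟨R₀, mem_filter.2 ⟨mem_univ _, hR₀, hR₀'⟩⟩
        obtain ⟨C, hC, hmin⟩ := Finset.exists_min_image _ (fun R => (supp R).card) hne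
        rw [mem_filter] at hC
        have hsp : ∀ i ≤ k, spn (Function.update D k C) i = spn D i := by
          intro i hi
          refine spn_congr fun j hj => ?_
          rw [Function.update_of_ne]
          omega
        refine ⟨Function.update D k C, fun i hi h2 => ?_⟩
        rw [hsp i (by omega)]
        by_cases hik : i = k
        · subst hik
          rw [Function.update_self]
          refine ⟨hC.2.1, hC.2.2, fun R hR hlt => ?_⟩
          by_contra hc
          have := hmin R (mem_filter.2 ⟨mem_univ _, hR, hc⟩)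
          omega
        · rw [Function.update_of_ne hik]
          exact hD i (by omega) h2
      · refine ⟨D, fun i hi h2 => ?_⟩
        by_cases hik : i = k
        · subst hik; exact absurd h2 hk
        · exact hD i (by omega) h2
  obtain ⟨D, hD⟩ := key n
  have hlt : ∀ i, 2 ^ i + 2 ≤ n → i < n := fun i hi => by
    have := Nat.lt_two_pow_self (n := i)
    omega
  exact ⟨D, ⟨fun i hi => (hD i (hlt i hi) hi).1, fun i hi => (hD i (hlt i hi) hi).2.1,
    fun i hi => (hD i (hlt i hi) hi).2.2⟩⟩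

/-- Proof. Otherwise (`low`) the `2^i` cycles of lengths `3,...,2^i+2` are in `spn D i`, together with 0: too many. -/
theorem Sys.len_le (S : H.Sys Cy n) (hD : Gr Cy D n) {i : ℕ} (hi : 2 ^ i + 2 ≤ n) :
    (supp (D i)).card ≤ 2 ^ i + 2 := by
  obtain ⟨R, h1, h2, h3⟩ := S.exists_out D hi
  by_contra hc
  exact h2 (hD.low i hi R h1 (by omega))

theorem sum_two_pow_add (i : ℕ) : ∑ j ∈ range i, (2 ^ j + 2) + 1 = 2 ^ i + 2 * i := by
  induction i with
  | zero => simp
  | succ k ih => rw [Finset.sum_range_succ, pow_succ]; omega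

theorem pow_add_two_le {i j : ℕ} (h : i ≤ j) {n : ℕ} (hj : 2 ^ j + 2 ≤ n) : 2 ^ i + 2 ≤ n := by
  have := Nat.pow_le_pow_right (n := 2) (by norm_num) h
  omega

theorem Sys.sum_len_le (S : H.Sys Cy n) (hD : Gr Cy D n) {i : ℕ} (hi : 2 ^ i + 2 ≤ n) :
    ∑ j ∈ range i, (supp (D j)).card ≤ 2 ^ i + 2 * i := by
  have h1 : ∑ j ∈ range i, (supp (D j)).card ≤ ∑ j ∈ range i, (2 ^ j + 2) := by
    refine Finset.sum_le_sum fun j hj => ?_
    rw [mem_range] at hj
    exact S.len_le hD (pow_add_two_le hj.le hi)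
  have := sum_two_pow_add i
  omega

/-- Proof. `∑_{j<i} (2^j + 2)`. -/
theorem Sys.BB_le (S : H.Sys Cy n) (hD : Gr Cy D n) {i : ℕ} (hi : 2 ^ i + 2 ≤ n) :
    (BB D i).card ≤ 2 ^ i + 2 * i :=
  Finset.card_biUnion_le.trans (S.sum_len_le hD hi)

/-- Proof. `vB (BB D i) = ⋃_{j<i} vs (D j)`, `card_vs_le`. -/
theorem Sys.vB_le (S : H.Sys Cy n) (hD : Gr Cy D n) {i : ℕ} (hi : 2 ^ i + 2 ≤ n) :
    (H.vB (BB D i)).card ≤ 2 ^ i + 2 * i := by
  have h1 : H.vB (BB D i) ⊆ (range i).biUnion (fun j => H.vs (D j)) := by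
    intro x hx
    rw [vB, mem_filter] at hx
    obtain ⟨-, d, hd, hd2⟩ := hx
    rw [BB, mem_biUnion] at hd2
    obtain ⟨j, hj, hj2⟩ := hd2
    rw [mem_biUnion]
    refine ⟨j, hj, ?_⟩
    rw [vs, mem_filter]
    exact ⟨mem_univ _, d, hd, mem_supp.1 hj2⟩
  refine (Finset.card_le_card h1).trans (Finset.card_biUnion_le.trans ?_)
  refine le_trans (Finset.sum_le_sum fun j hj => ?_) (S.sum_len_le hD hi)
  rw [mem_range] at hj
  exact H.card_vs_le (S.sgl _ (hD.cy j (pow_add_two_le hj.le hi))).1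

theorem BB_mono (D : ℕ → (E → ZMod 2)) {i j : ℕ} (h : i ≤ j) : BB D i ⊆ BB D j :=
  Finset.biUnion_subset_biUnion_of_subset_left _ (Finset.range_subset_range.2 h)

theorem Sys.mem_ZB (S : H.Sys Cy n) (hD : Gr Cy D n) {i j : ℕ} (hi : 2 ^ i + 2 ≤ n) (h : j < i) :
    D j ∈ H.ZB (BB D i) := by
  rw [H.mem_ZB]
  refine ⟨(S.sgl _ (hD.cy j (pow_add_two_le h.le hi))).1, ?_⟩
  intro e he
  rw [BB, mem_biUnion]
  exact ⟨j, mem_range.2 h, he⟩

theorem Sys.spn_le (S : H.Sys Cy n) (hD : Gr Cy D n) {i : ℕ} (hi : 2 ^ i + 2 ≤ n) :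
    spn D i ≤ H.ZB (BB D i) := by
  unfold spn
  rw [Submodule.span_le]
  rintro _ ⟨j, hj, rfl⟩
  exact S.mem_ZB hD hi hj

/-- Proof. `D 0, ..., D (i-1)` are linearly independent elements of `ZB (BB D i)`. -/
theorem Sys.le_rk (S : H.Sys Cy n) (hD : Gr Cy D n) {i : ℕ} (hi : 2 ^ i + 2 ≤ n) :
    i ≤ H.rk (BB D i) := by
  have h1 : ∀ k ≤ i, k ≤ Module.finrank (ZMod 2) (spn D k) := by
    intro k
    induction k with
    | zero => intro _; exact Nat.zero_le _
    | succ k ih =>
      intro hk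
      have h2 := ih (by omega)
      have h3 : spn D k < spn D (k + 1) := by
        refine lt_of_le_of_ne (spn_mono D (Nat.le_succ k)) fun h => ?_
        apply hD.ind k (pow_add_two_le (show k ≤ i by omega) hi)
        rw [h]
        exact mem_spn D (Nat.lt_succ_self k)
      have h4 := Submodule.finrank_lt_finrank_of_lt h3
      omega
  exact (h1 i le_rfl).trans (Submodule.finrank_mono (S.spn_le hD hi))

/-- Proof. A cycle of length `ℓ < |supp (D i)|` is in `spn D i ≤ ZB (BB D i)` (`low`, `pan`; `ℓ ≤ 2^i+2 ≤ n`); `cov` by the `D j`. -/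
theorem Sys.scale (S : H.Sys Cy n) (hD : Gr Cy D n) {i : ℕ} (hi : 2 ^ i + 2 ≤ n) :
    H.Scale Cy (BB D i) (supp (D i)).card := by
  constructor
  · intro ℓ h3 hlt
    have h4 := S.len_le hD hi
    obtain ⟨R, hR, hR2⟩ := S.pan ℓ h3 (by omega)
    exact ⟨R, hR, S.spn_le hD hi (hD.low i hi R hR (by omega)), hR2⟩
  · intro e he
    rw [BB, mem_biUnion] at he
    obtain ⟨j, hj, hj2⟩ := he
    rw [mem_range] at hj
    exact ⟨D j, hD.cy j (pow_add_two_le hj.le hi), S.mem_ZB hD hi hj, mem_supp.1 hj2⟩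

theorem BB_succ_card (D : ℕ → (E → ZMod 2)) (i : ℕ) :
    (BB D (i + 1)).card ≤ (BB D i).card + (supp (D i)).card := by
  have h : BB D (i + 1) = BB D i ∪ supp (D i) := by
    ext e
    simp only [BB, mem_biUnion, mem_range, mem_union]
    constructor
    · rintro ⟨j, hj, he⟩
      rcases Nat.lt_succ_iff_lt_or_eq.1 hj with h | h
      · exact Or.inl ⟨j, h, he⟩
      · subst h; exact Or.inr he
    · rintro (⟨j, hj, he⟩ | he)
      · exact ⟨j, by omega, he⟩
      · exact ⟨i, by omega, he⟩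
  rw [h]
  exact Finset.card_union_le _ _

end GM

end Pool.Agent.Lib.MP_af4270_co
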