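import Pool.Agent.Lib.MP_af4270_co.GMDefs

/-!
# PAN-E: iterated logarithm
-/

set_option autoImplicit false
set_option linter.unusedSectionVars false
set_option linter.unusedVariables false

namespace Pool.Agent.Lib.MP_af4270_co

open Finset

/-- Proof. `k = 0` is in the set. -/
theorem lstar_of_le_one {x : ℝ} (h : x ≤ 1) : lstar x = 0 := by
  unfold lstar
  have h0 : (0 : ℕ) ∈ {k : ℕ | (Real.logb 2)^[k] x ≤ 1} := by simpa using h
  exact Nat.le_zero.1 (Nat.sInf_le h0)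

private theorem nat_add_one_le_two_pow (N : ℕ) : N + 1 ≤ 2 ^ N := Nat.lt_two_pow_self

private theorem logb_le_of_le {x : ℝ} {N : ℕ} (hx : 0 < x) (h : x ≤ (2 : ℝ) ^ N) :
    Real.logb 2 x ≤ N := by
  have h1 : Real.logb 2 x ≤ Real.logb 2 ((2 : ℝ) ^ N) :=
    Real.logb_le_logb_of_le (by norm_num) hx h
  rwa [Real.logb_pow, Real.logb_self_eq_one (by norm_num), mul_one] at h1

private theorem lstar_nonempty_aux (N : ℕ) :
    ∀ x : ℝ, x ≤ N → ∃ k : ℕ, (Real.logb 2)^[k] x ≤ 1 := by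
  induction N with
  | zero =>
    intro x hx
    refine ⟨0, ?_⟩
    simp at hx ⊢
    linarith
  | succ N ih =>
    intro x hx
    by_cases h1 : x ≤ 1
    · exact ⟨0, by simpa using h1⟩
    · have h1' : 1 < x := not_le.1 h1
      have h2 : Real.logb 2 x ≤ N := by
        apply logb_le_of_le (by linarith)
        refine hx.trans ?_
        exact_mod_cast nat_add_one_le_two_pow N
      obtain ⟨k, hk⟩ := ih _ h2
      exact ⟨k + 1, by rwa [Function.iterate_succ_apply]⟩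

/-- the set in the definition is nonempty. Proof. `x ≤ N` natural; `logb 2 N ≤ N - 1`: the `k`-th iterate is `≤ max 1 (N - k)` as long as the previous ones are `> 1`. -/
theorem lstar_nonempty (x : ℝ) : {k : ℕ | (Real.logb 2)^[k] x ≤ 1}.Nonempty := by
  obtain ⟨N, hN⟩ := exists_nat_ge x
  exact lstar_nonempty_aux N x hN

theorem lstar_of_gt {x : ℝ} (h : 1 < x) : lstar x = lstar (Real.logb 2 x) + 1 := by
  unfold lstar
  apply le_antisymm
  · apply Nat.sInf_le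
    have h1 := Nat.sInf_mem (lstar_nonempty (Real.logb 2 x))
    simp only [Set.mem_ofPred_eq] at h1 ⊢
    rw [Function.iterate_succ_apply]
    exact h1
  · have h1 := Nat.sInf_mem (lstar_nonempty x)
    obtain ⟨k, hk⟩ : ∃ k, k = sInf {k : ℕ | (Real.logb 2)^[k] x ≤ 1} := ⟨_, rfl⟩
    rw [← hk] at h1 ⊢
    cases k with
    | zero =>
      simp only [Set.mem_ofPred_eq, Function.iterate_zero, id_eq] at h1
      linarith
    | succ k =>
      simp only [Set.mem_ofPred_eq, Function.iterate_succ_apply] at h1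
      have h2 : sInf {k : ℕ | (Real.logb 2)^[k] (Real.logb 2 x) ≤ 1} ≤ k := Nat.sInf_le h1
      omega

/-- Proof. strong induction on `lstar y`, `logb` monotone on `(1,∞)`. -/
theorem lstar_mono {x y : ℝ} (h : x ≤ y) : lstar x ≤ lstar y := by
  obtain ⟨n, hn⟩ : ∃ n, n = lstar y := ⟨_, rfl⟩
  induction n using Nat.strong_induction_on generalizing x y with
  | _ n ih =>
    by_cases h1 : x ≤ 1
    · rw [lstar_of_le_one h1]; exact Nat.zero_le _
    · have h1' : 1 < x := not_le.1 h1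
      have h2 : 1 < y := lt_of_lt_of_le h1' h
      rw [lstar_of_gt h1', lstar_of_gt h2]
      have h3 : Real.logb 2 x ≤ Real.logb 2 y :=
        Real.logb_le_logb_of_le (by norm_num) (by linarith) h
      have h4 : lstar (Real.logb 2 y) < n := by
        rw [hn, lstar_of_gt h2]; omega
      exact Nat.add_le_add_right (ih _ h4 h3 rfl) 1

theorem lstar_nat (k : ℕ) : lstar (k : ℝ) ≤ k := by
  induction k with
  | zero => rw [lstar_of_le_one (by simp)]
  | succ k ih =>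
    by_cases h1 : ((k + 1 : ℕ) : ℝ) ≤ 1
    · rw [lstar_of_le_one h1]; exact Nat.zero_le _
    · have h1' : 1 < ((k + 1 : ℕ) : ℝ) := not_le.1 h1
      rw [lstar_of_gt h1']
      have h2 : Real.logb 2 ((k + 1 : ℕ) : ℝ) ≤ k := by
        apply logb_le_of_le (by linarith)
        exact_mod_cast nat_add_one_le_two_pow k
      exact Nat.add_le_add_right ((lstar_mono h2).trans ih) 1

theorem lstar_pow (x : ℝ) : lstar ((2 : ℝ) ^ x) ≤ 1 + lstar x := by
  by_cases h1 : (2 : ℝ) ^ x ≤ 1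
  · rw [lstar_of_le_one h1]; exact Nat.zero_le _
  · rw [lstar_of_gt (not_le.1 h1), Real.logb_rpow (by norm_num) (by norm_num), add_comm]

private theorem lstar_natpow (k : ℕ) : lstar ((2 ^ k : ℕ) : ℝ) ≤ 1 + lstar (k : ℝ) := by
  have h := lstar_pow (k : ℝ)
  rw [Real.rpow_natCast] at h
  push_cast
  exact h

private theorem tower_aux (b : ℕ) : 2 ^ 2 ^ b + 2 ≤ 2 ^ 2 ^ (b + 1) := by
  have h3 : 2 ≤ 2 ^ 2 ^ b := by
    calc 2 = 2 ^ 1 := by norm_num
      _ ≤ 2 ^ 2 ^ b := Nat.pow_le_pow_right (by norm_num) Nat.one_le_two_pow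
  rw [pow_succ, pow_mul]
  nlinarith

private theorem lstar_small_aux {b L : ℕ} (h : L ≤ 2 ^ 2 ^ 2 ^ b) :
    lstar (4 * L : ℝ) ≤ b + 4 := by
  have h4 : 4 * L ≤ 2 ^ 2 ^ 2 ^ (b + 1) := by
    calc 4 * L ≤ 4 * 2 ^ 2 ^ 2 ^ b := Nat.mul_le_mul_left 4 h
      _ = 2 ^ (2 ^ 2 ^ b + 2) := by rw [pow_add]; ring
      _ ≤ 2 ^ 2 ^ 2 ^ (b + 1) := Nat.pow_le_pow_right (by norm_num) (tower_aux b)
  have h5 : (4 * L : ℝ) ≤ ((2 ^ 2 ^ 2 ^ (b + 1) : ℕ) : ℝ) := by
    have h6 : ((4 * L : ℕ) : ℝ) ≤ ((2 ^ 2 ^ 2 ^ (b + 1) : ℕ) : ℝ) := Nat.cast_le.2 h4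
    rwa [Nat.cast_mul, Nat.cast_ofNat] at h6
  have h7 := lstar_mono h5
  have h8 := lstar_natpow (2 ^ 2 ^ (b + 1))
  have h9 := lstar_natpow (2 ^ (b + 1))
  have h10 := lstar_natpow (b + 1)
  have h11 := lstar_nat (b + 1)
  omega

/-- Proof. `4 L ≤ 2^(2^2^(w+31) + 2) ≤ 2^2^2^(w+32)`: `3 + lstar (w+32) ≤ w + 35`. -/
theorem lstar_small {w L : ℕ} (h : L ≤ 2 ^ 2 ^ 2 ^ (w + 31)) : lstar (4 * L : ℝ) ≤ w + 35 := by
  obtain ⟨b, hb⟩ : ∃ b, b = w + 31 := ⟨_, rfl⟩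
  rw [← hb] at h
  have h1 := lstar_small_aux h
  omega

/-- Proof. `4 L > 1` (if `L ≥ 1`), `logb 2 (4L) = 2 + logb 2 L ≤ 2 + 2m ≤ 4m`. -/
theorem lstar_step {L m : ℕ} (hm : 1 ≤ m) (h : L ≤ 4 ^ m) :
    lstar (4 * L : ℝ) ≤ 1 + lstar (4 * m : ℝ) := by
  by_cases h1 : (4 * L : ℝ) ≤ 1
  · rw [lstar_of_le_one h1]; exact Nat.zero_le _
  · have h1' : 1 < (4 * L : ℝ) := not_le.1 h1
    rw [lstar_of_gt h1', add_comm]
    apply Nat.add_le_add_left
    apply lstar_mono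
    have h2 : 4 * L ≤ 2 ^ (4 * m) := by
      calc 4 * L ≤ 4 * 4 ^ m := Nat.mul_le_mul_left 4 h
        _ = 2 ^ (2 * m + 2) := by
            rw [pow_add, pow_mul]; norm_num; ring
        _ ≤ 2 ^ (4 * m) := Nat.pow_le_pow_right (by norm_num) (by omega)
    have h3 : (4 * L : ℝ) ≤ (2 : ℝ) ^ (4 * m) := by
      have h4 : ((4 * L : ℕ) : ℝ) ≤ ((2 ^ (4 * m) : ℕ) : ℝ) := Nat.cast_le.2 h2
      push_cast at h4
      exact h4
    have h5 := logb_le_of_le (by linarith) h3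
    push_cast at h5
    exact h5

end Pool.Agent.Lib.MP_af4270_co
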