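import Pool.Agent.Lib.MP_af4270_co.GMDefs

/-!
# PAN-E: the analytic part of the recursion
-/

set_option autoImplicit false
set_option linter.unusedSectionVars false
set_option linter.unusedVariables false

namespace Pool.Agent.Lib.MP_af4270_co

open Finset

/-- the analytic part of the recursion. Proof. `u = Y/(2X) ≥ (1 - 2^(-w)/2)/(1+2^(-w)) ≥ 1 - 1.5 * 2^(-w)` because `(1/2)^(2w) ≤ X (1/2)^w / 2` (`(1/2)^w ≤ X/2`). `phi X - phi Y - 1 = log2 u + 2Y - 2X`
`= log2 u - 2X + 4uX`. If `u ≥ 1` it is `≥ 2X > 0`. If `u < 1`: `log2 u ≥ -1.5 * 1.5 * 2^(-w) ≥ -1.125 X` and `4uX - 2X ≥ 1.9 X`. -/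
theorem phi_step {X Y : ℝ} {w : ℕ} (hw : 8 ≤ w) (hX : 0 < X) (hwX : (1 / 2 : ℝ) ^ w ≤ X / 2)
    (h : X ≤ (1 / 2) * (1 + (1 / 2) ^ w) * Y + (1 / 2) ^ (2 * w)) : phi Y + 1 ≤ phi X := by
  have hδ0 : (0 : ℝ) < (1 / 2) ^ w := by positivity
  have hδ1 : (1 / 2 : ℝ) ^ w ≤ 1 / 256 := by
    calc (1 / 2 : ℝ) ^ w ≤ (1 / 2) ^ 8 := pow_le_pow_of_le_one (by norm_num) (by norm_num) hw
      _ = 1 / 256 := by norm_num
  have hsq : (1 / 2 : ℝ) ^ (2 * w) = (1 / 2) ^ w * (1 / 2) ^ w := by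
    rw [two_mul, pow_add]
  rw [hsq] at h
  generalize (1 / 2 : ℝ) ^ w = δ at *
  have hδX : δ * δ ≤ δ * (X / 2) := mul_le_mul_of_nonneg_left hwX hδ0.le
  have hu0 : X * (1 - δ / 2) ≤ 1 / 2 * (1 + δ) * Y := by nlinarith
  have hYpos : 0 < Y := by
    by_contra hY
    have h1 : 1 / 2 * (1 + δ) * Y ≤ 0 :=
      mul_nonpos_of_nonneg_of_nonpos (by positivity) (not_lt.1 hY)
    have h2 : 0 < X * (1 - δ / 2) := mul_pos hX (by linarith)
    linarith
  obtain ⟨u, hu⟩ : ∃ u : ℝ, u = Y / (2 * X) := ⟨_, rfl⟩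
  have hYu : Y = 2 * X * u := by
    rw [hu]; field_simp
  have hupos : 0 < u := by rw [hu]; positivity
  have hu1 : 1 - 3 / 2 * δ ≤ u := by
    have h3 : X * (1 - δ / 2) ≤ X * ((1 + δ) * u) := by rw [hYu] at hu0; linarith
    have h4 : 1 - δ / 2 ≤ (1 + δ) * u := le_of_mul_le_mul_left h3 hX
    by_contra hc
    have h5 : u < 1 - 3 / 2 * δ := not_le.1 hc
    have h6 : (1 + δ) * u < (1 + δ) * (1 - 3 / 2 * δ) :=
      mul_lt_mul_of_pos_left h5 (by linarith)
    nlinarith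
  have hkey : 0 ≤ Real.logb 2 u + 4 * u * X - 2 * X := by
    rcases le_or_gt 1 u with h1 | h1
    · have h2 : 0 ≤ Real.logb 2 u := Real.logb_nonneg (by norm_num) h1
      nlinarith
    · have hlog : 1 - u⁻¹ ≤ Real.log u := Real.one_sub_inv_le_log_of_pos hupos
      have hu99 : (99 / 100 : ℝ) ≤ u := by linarith
      have h7 : -(76 / 100) * X ≤ 1 - u⁻¹ := by
        have h8 : u⁻¹ * u = 1 := inv_mul_cancel₀ hupos.ne'
        have h9 : 0 < u⁻¹ := inv_pos.2 hupos
        have h10 : (u - 1) * (100 / 99) ≤ (1 - u⁻¹) := by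
          have h11 : 1 - u⁻¹ = (u - 1) * u⁻¹ := by
            rw [sub_mul, mul_inv_cancel₀ hupos.ne', one_mul]
          rw [h11]
          have h12 : u⁻¹ ≤ 100 / 99 := by
            rw [inv_le_comm₀ hupos (by norm_num)]
            norm_num
            linarith
          nlinarith
        nlinarith
      have hl2 : (69 / 100 : ℝ) ≤ Real.log 2 := by
        have := Real.log_two_gt_d9
        linarith
      have h13 : -(12 / 10) * X ≤ Real.logb 2 u := by
        unfold Real.logb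
        rw [le_div_iff₀ (by linarith)]
        nlinarith
      nlinarith
  have hlogY : Real.logb 2 Y = 1 + Real.logb 2 X + Real.logb 2 u := by
    rw [hYu, Real.logb_mul (by positivity) hupos.ne', Real.logb_mul (by norm_num) hX.ne',
      Real.logb_self_eq_one (by norm_num)]
  unfold phi
  rw [hlogY]
  nlinarith


end Pool.Agent.Lib.MP_af4270_co
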