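import Pool.Agent.Lib.MP_af4270_co.GMRecS

/-!
# PAN-E: the recursion
-/

set_option autoImplicit false
set_option linter.unusedSectionVars false
set_option linter.unusedVariables false

namespace Pool.Agent.Lib.MP_af4270_co

open Finset

variable {V E : Type} [Fintype V] [DecidableEq V] [Fintype E] [DecidableEq E]

namespace GM

variable {H : GM V E} {Cy : (E → ZMod 2) → Prop} {n T L : ℕ} {B : Finset E} {D : ℕ → (E → ZMod 2)}

/-- Proof. Strong induction on `j` with `rec_step` for `B = BB D j`, `T = |supp (D j)|`, `L = j` (`Sys.scale`, `le_rk`, `len_le`: `T ≤ 2^j+2 ≤ 2 * 2^j`). `hsub`: `m < 2^m ≤ j`. `hsub'`: `2^m + 2 ≤ j + 2 ≤ 2^j + 2 ≤ n`. -/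
theorem Sys.scale_bound (hSD : StructD) (S : H.Sys Cy n) (hD : Gr Cy D n) {j : ℕ} (hj : 1 ≤ j)
    (hjn : 2 ^ j + 2 ≤ n) :
    (lstar (4 * j : ℝ) : ℝ) - 100 ≤ phi (((supp (D j)).card : ℝ) / 2 ^ H.rk (BB D j)) := by
  induction j using Nat.strong_induction_on with
  | _ j ih =>
    have hT : (supp (D j)).card ≤ 2 ^ j + 2 := S.len_le hD hjn
    have hrk : j ≤ H.rk (BB D j) := S.le_rk hD hjn
    have hpow : 2 ^ j ≤ 2 ^ H.rk (BB D j) := Nat.pow_le_pow_right (by norm_num) hrk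
    have h2j : 2 ≤ 2 ^ j := by
      calc 2 = 2 ^ 1 := by norm_num
        _ ≤ 2 ^ j := Nat.pow_le_pow_right (by norm_num) hj
    have hT1 : 1 ≤ (supp (D j)).card :=
      Finset.card_pos.2 (supp_nonempty (S.sgl _ (hD.cy j hjn)).2.1)
    have hmj : ∀ m, 2 ^ m ≤ j → m < j := fun m hm => lt_of_lt_of_le Nat.lt_two_pow_self hm
    refine Scale.rec_step hSD S hD (S.scale hD hjn) hrk hj hT1 (by omega)
      (fun m hm => BB_mono D (hmj m hm).le) (fun w _ _ _ m hm => ?_) (fun m hm1 hm hmn => ?_)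
    · have := Nat.lt_two_pow_self (n := j)
      omega
    · exact ih m (hmj m hm) hm1 hmn

theorem top_arith {w r n : ℕ} (hw : 8 ≤ w) (h1 : 2 ^ r ≤ 2 ^ (w - 1) * (n + 1))
    (h2 : 2 ^ 2 ^ 2 ^ (w + 31) ≤ r) : r + 2 ≤ n := by
  have h3 : 2 * w + 8 ≤ r := by
    have a1 : w + 31 < 2 ^ (w + 31) := Nat.lt_two_pow_self
    have a2 : 2 ^ (w + 31) < 2 ^ 2 ^ (w + 31) := Nat.lt_two_pow_self
    have a3 : 2 ^ 2 ^ (w + 31) < 2 ^ 2 ^ 2 ^ (w + 31) := Nat.lt_two_pow_self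
    have a4 : 2 ^ (w + 31) = 2 * 2 ^ (w + 30) := by rw [pow_succ]; ring
    have a5 : w + 30 < 2 ^ (w + 30) := Nat.lt_two_pow_self
    omega
  by_contra hc
  have h4 : n + 1 ≤ r + 2 := by omega
  have h5 : 2 ^ r = 2 ^ (w - 1) * 2 ^ (r - w + 1) := by
    rw [← pow_add]; congr 1; omega
  have h6 : 2 ^ (r - w + 1) ≤ n + 1 := by
    rw [h5] at h1
    exact Nat.le_of_mul_le_mul_left h1 (by positivity)
  have h7 : 2 ^ (r / 2 + 5) ≤ 2 ^ (r - w + 1) := Nat.pow_le_pow_right (by norm_num) (by omega)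
  have h8 : 2 ^ (r / 2 + 5) = 32 * 2 ^ (r / 2) := by rw [pow_add]; ring
  have h9 : r / 2 < 2 ^ (r / 2) := Nat.lt_two_pow_self
  omega

open Classical in
/-- the top scale. Proof. `B = {e : ∃ R, Cy R ∧ R e ≠ 0}`, `T = n+1`, `L = rk B`. `2^(rk B) ≥ n - 1` (the `n-2` cycles and 0 are distinct elements of `ZB B`), so `rk B ≥ 1` and `T ≤ 2 * 2^(rk B)` (`n ≥ 3`).
`hsub'`: `2^m + 2 ≤ rk B + 2 ≤ n` because `n + 1 ≥ 2^(rk B - w + 1)` and `rk B ≥ 2^2^2^(w+31)`. -/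
theorem Sys.top_bound (hSD : StructD) (S : H.Sys Cy n) (hn : 3 ≤ n) :
    ∃ r : ℕ, 1 ≤ r ∧ n ≤ 2 ^ (r + 1) ∧ (∃ B : Finset E, r = H.rk B) ∧
      (lstar (4 * r : ℝ) : ℝ) - 100 ≤ phi (((n : ℝ) + 1) / 2 ^ r) := by
  obtain ⟨D₀, hD₀⟩ := S.exists_gr
  -- make the sequence zero outside the range
  set D : ℕ → (E → ZMod 2) := fun j => if 2 ^ j + 2 ≤ n then D₀ j else 0 with hDdef
  have hDeq : ∀ j, 2 ^ j + 2 ≤ n → D j = D₀ j := fun j hj => by simp only [hDdef, hj, if_true]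
  have hspn : ∀ i, 2 ^ i + 2 ≤ n → spn D i = spn D₀ i := fun i hi =>
    spn_congr fun j hj => hDeq j (pow_add_two_le hj.le hi)
  have hD : Gr Cy D n := by
    constructor
    · intro i hi; rw [hDeq i hi]; exact hD₀.cy i hi
    · intro i hi; rw [hDeq i hi, hspn i hi]; exact hD₀.ind i hi
    · intro i hi R hR hlt
      rw [hDeq i hi] at hlt
      rw [hspn i hi]; exact hD₀.low i hi R hR hlt
  set B : Finset E := univ.filter (fun e => ∃ R, Cy R ∧ R e ≠ 0) with hBdef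
  have hCB : ∀ R, Cy R → R ∈ H.ZB B := by
    intro R hR
    rw [H.mem_ZB]
    refine ⟨(S.sgl R hR).1, fun e he => ?_⟩
    rw [hBdef, mem_filter]
    exact ⟨mem_univ _, R, hR, mem_supp.1 he⟩
  have hB : H.Scale Cy B (n + 1) := by
    constructor
    · intro ℓ h3 hl
      obtain ⟨R, h1, h2⟩ := S.pan ℓ h3 (by omega)
      exact ⟨R, h1, hCB R h1, h2⟩
    · intro e he
      rw [hBdef, mem_filter] at he
      obtain ⟨-, R, h1, h2⟩ := he
      exact ⟨R, h1, hCB R h1, h2⟩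
  have hcard : n - 1 ≤ 2 ^ H.rk B := by
    obtain ⟨T, hT1, -, hT3⟩ := exists_lengths (m := n + 1) (P := fun R => Cy R ∧ R ∈ H.ZB B)
      (fun ℓ h3 hl => by
        obtain ⟨R, h1, h2, h4⟩ := hB.len ℓ h3 hl
        exact ⟨R, ⟨h1, h2⟩, h4⟩)
    have h0 : (0 : E → ZMod 2) ∉ T := fun h => (S.sgl 0 (hT3 0 h).1).2.1 rfl
    have h1 : (insert 0 T).card ≤ H.cn B (fun _ => True) := by
      unfold cn
      refine Finset.card_le_card fun R hR => ?_
      simp only [mem_filter, mem_univ, true_and, and_true]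
      rw [mem_insert] at hR
      rcases hR with rfl | hR
      · exact Submodule.zero_mem _
      · exact (hT3 R hR).2
    rw [Finset.card_insert_of_notMem h0, hT1, H.cn_true] at h1
    omega
  have hrk1 : 1 ≤ H.rk B := by
    rcases Nat.eq_zero_or_pos (H.rk B) with h | h
    · rw [h, pow_zero] at hcard; omega
    · exact h
  have h2rk : 2 ≤ 2 ^ H.rk B := by
    calc 2 = 2 ^ 1 := by norm_num
      _ ≤ _ := Nat.pow_le_pow_right (by norm_num) hrk1
  refine ⟨H.rk B, hrk1, ?_, ⟨B, rfl⟩, ?_⟩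
  · rw [pow_succ]; omega
  · have h := Scale.rec_step hSD S hD hB le_rfl hrk1 (by omega) (by omega) (fun m hm => ?_)
      (fun w hw h1 h2 m hm => ?_) (fun m hm1 hm hmn => S.scale_bound hSD hD hm1 hmn)
    · push_cast at h
      exact h
    · intro e he
      rw [BB, mem_biUnion] at he
      obtain ⟨j, -, hj⟩ := he
      by_cases hjn : 2 ^ j + 2 ≤ n
      · rw [hBdef, mem_filter]
        exact ⟨mem_univ _, D j, hD.cy j hjn, mem_supp.1 hj⟩
      · exfalso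
        rw [mem_supp] at hj
        apply hj
        simp only [hDdef, hjn, if_false, Pi.zero_apply]
    · have := top_arith hw h1 h2
      omega

end GM

end Pool.Agent.Lib.MP_af4270_co
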