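import Pool.Agent.Lib.MP_af4270_co.GMStep
import Pool.Agent.Lib.MP_af4270_co.GMLstar
import Pool.Agent.Lib.MP_af4270_co.GMPhi

/-!
# PAN-E: recursion step
-/

set_option autoImplicit false
set_option linter.unusedSectionVars false
set_option linter.unusedVariables false

namespace Pool.Agent.Lib.MP_af4270_co

open Finset

variable {V E : Type} [Fintype V] [DecidableEq V] [Fintype E] [DecidableEq E]

namespace GM

variable {H : GM V E} {Cy : (E → ZMod 2) → Prop} {n T L : ℕ} {B : Finset E} {D : ℕ → (E → ZMod 2)}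

private theorem phi_ge_of_le_two {X : ℝ} (hX : 0 < X) (h2 : X ≤ 2) : -5 ≤ phi X := by
  unfold phi
  have h1 : Real.logb 2 X ≤ Real.logb 2 2 := Real.logb_le_logb_of_le (by norm_num) hX h2
  rw [Real.logb_self_eq_one (by norm_num)] at h1
  linarith

private theorem phi_ge_of_small {X : ℝ} {v : ℕ} (hX : 0 < X) (h : (2 : ℝ) ^ v * X ≤ 1) :
    (v : ℝ) - 2 ≤ phi X := by
  unfold phi
  have hv : (0 : ℝ) < 2 ^ v := by positivity
  have h1 : Real.logb 2 ((2 : ℝ) ^ v * X) ≤ 0 := by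
    apply Real.logb_nonpos (by norm_num) (by positivity) h
  rw [Real.logb_mul hv.ne' hX.ne', Real.logb_pow, Real.logb_self_eq_one (by norm_num),
    mul_one] at h1
  have h2 : X ≤ 1 := by
    have h3 : (1 : ℝ) ≤ 2 ^ v := one_le_pow₀ (by norm_num)
    nlinarith
  linarith

/-- Proof. `X = T/2^(rk B)`, `w = max 8 (⌈-log2 X⌉ + 1)`: `2^(-w) ≤ X/2` and `X ≥ 2^(-w+1)`. If `L ≤ 2^2^2^(w+31)`: `lstar (4L) ≤ w + 35` (`lstar_small`); `w = 8`: `phi X ≥ -1 - 4` since `X ≤ 2`; `w > 8`: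
`-log2 X ≥ w - 2` and `X ≤ 1`: `phi X ≥ w - 4`. Otherwise `one_step`, `phi_step`, `ih`, `lstar_step`: `phi X ≥ phi X_m + 1 ≥ lstar (4m) - 99 ≥ lstar (4L) - 100`. -/
theorem Scale.rec_step (hSD : StructD) (S : H.Sys Cy n) (hD : Gr Cy D n) (hB : H.Scale Cy B T)
    (hL : L ≤ H.rk B) (hL1 : 1 ≤ L) (hT : 1 ≤ T) (hX2 : T ≤ 2 * 2 ^ H.rk B)
    (hsub : ∀ m, 2 ^ m ≤ L → BB D m ⊆ B)
    (hsub' : ∀ w, 8 ≤ w → 2 ^ H.rk B ≤ 2 ^ (w - 1) * T → 2 ^ 2 ^ 2 ^ (w + 31) ≤ L →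
      ∀ m, 2 ^ m ≤ L → 2 ^ m + 2 ≤ n)
    (ih : ∀ m : ℕ, 1 ≤ m → 2 ^ m ≤ L → 2 ^ m + 2 ≤ n →
      (lstar (4 * m : ℝ) : ℝ) - 100 ≤ phi (((supp (D m)).card : ℝ) / 2 ^ H.rk (BB D m))) :
    (lstar (4 * L : ℝ) : ℝ) - 100 ≤ phi ((T : ℝ) / 2 ^ H.rk B) := by
  obtain ⟨X, hX⟩ : ∃ X : ℝ, X = (T : ℝ) / 2 ^ H.rk B := ⟨_, rfl⟩
  have hR0 : (0 : ℝ) < 2 ^ H.rk B := by positivity
  have hTr : (1 : ℝ) ≤ T := by exact_mod_cast hT
  have hX0 : 0 < X := by rw [hX]; positivity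
  have hXT : X * 2 ^ H.rk B = T := by rw [hX]; field_simp
  have hXle : X ≤ 2 := by
    rw [hX, div_le_iff₀ hR0]
    exact_mod_cast hX2
  have hex : ∃ w, 8 ≤ w ∧ 2 ^ H.rk B ≤ 2 ^ (w - 1) * T := by
    refine ⟨H.rk B + 9, by omega, ?_⟩
    calc 2 ^ H.rk B ≤ 2 ^ (H.rk B + 9 - 1) := Nat.pow_le_pow_right (by norm_num) (by omega)
      _ ≤ 2 ^ (H.rk B + 9 - 1) * T := Nat.le_mul_of_pos_right _ hT
  classical
  obtain ⟨w, ⟨hw8, hwT⟩, hmin⟩ : ∃ w, (8 ≤ w ∧ 2 ^ H.rk B ≤ 2 ^ (w - 1) * T) ∧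
      ∀ v < w, ¬ (8 ≤ v ∧ 2 ^ H.rk B ≤ 2 ^ (v - 1) * T) :=
    ⟨Nat.find hex, Nat.find_spec hex, fun v hv => Nat.find_min hex hv⟩
  rw [← hX]
  have hphi : (w : ℝ) - 65 ≤ phi X := by
    by_cases h8 : w = 8
    · have := phi_ge_of_le_two hX0 hXle
      rw [h8]; push_cast; linarith
    · have h1 := hmin (w - 1) (by omega)
      have h2 : 2 ^ (w - 1 - 1) * T < 2 ^ H.rk B := by
        by_contra hc
        exact h1 ⟨by omega, not_lt.1 hc⟩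
      have h3 : (2 : ℝ) ^ (w - 1 - 1) * T ≤ 2 ^ H.rk B := by exact_mod_cast h2.le
      have h4 : (2 : ℝ) ^ (w - 1 - 1) * X ≤ 1 := by
        rw [← hXT] at h3
        have h5 : ((2 : ℝ) ^ (w - 1 - 1) * X) * 2 ^ H.rk B ≤ 1 * 2 ^ H.rk B := by
          rw [mul_assoc, one_mul]; exact h3
        exact le_of_mul_le_mul_right h5 hR0
      have h6 := phi_ge_of_small hX0 h4
      have h7 : ((w - 1 - 1 : ℕ) : ℝ) = (w : ℝ) - 2 := by
        rw [show w - 1 - 1 = w - 2 by omega, Nat.cast_sub (by omega)]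
        norm_num
      rw [h7] at h6
      linarith
  rcases le_total L (2 ^ 2 ^ 2 ^ (w + 31)) with hLs | hLs
  · have h1 := lstar_small hLs
    have h2 : (lstar (4 * L : ℝ) : ℝ) ≤ (w : ℝ) + 35 := by exact_mod_cast h1
    linarith
  · have hs : ∀ m, 2 ^ m ≤ L → 2 ^ m + 2 ≤ n ∧ BB D m ⊆ B :=
      fun m hm => ⟨hsub' w hw8 hwT hLs m hm, hsub m hm⟩
    obtain ⟨m, hm1, hmL, hm4, hmX⟩ := hB.one_step hSD S hD hw8 hL hLs hwT hs
    rw [← hX] at hmX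
    have hwX : (1 / 2 : ℝ) ^ w ≤ X / 2 := by
      have h1 : (2 : ℝ) ^ H.rk B ≤ 2 ^ (w - 1) * T := by exact_mod_cast hwT
      rw [← hXT, ← mul_assoc] at h1
      have h2 : 1 ≤ (2 : ℝ) ^ (w - 1) * X := by
        have h5 : 1 * (2 : ℝ) ^ H.rk B ≤ ((2 : ℝ) ^ (w - 1) * X) * 2 ^ H.rk B := by
          rw [one_mul]; exact h1
        exact le_of_mul_le_mul_right h5 hR0
      have h3 : (2 : ℝ) ^ w = 2 * 2 ^ (w - 1) := by
        rw [← pow_succ', show w - 1 + 1 = w by omega]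
      rw [one_div, inv_pow, inv_le_iff_one_le_mul₀ (by positivity), h3]
      nlinarith
    have hphi2 := phi_step hw8 hX0 hwX hmX
    have hih := ih m hm1 hmL (hs m hmL).1
    have hls := lstar_step hm1 hm4
    have hls' : (lstar (4 * L : ℝ) : ℝ) ≤ 1 + (lstar (4 * m : ℝ) : ℝ) := by exact_mod_cast hls
    linarith

end GM

end Pool.Agent.Lib.MP_af4270_co
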