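import Pool.Agent.Lib.MP_af4270_co.GMBasic

/-!
# PAN-E: arithmetic of one step
-/

set_option autoImplicit false
set_option linter.unusedSectionVars false
set_option linter.unusedVariables false

namespace Pool.Agent.Lib.MP_af4270_co

open Finset

private theorem lin_le_pow (w : ℕ) (hw : 8 ≤ w) : 4 * w + 40 ≤ 2 ^ w := by
  induction w, hw using Nat.le_induction with
  | base => norm_num
  | succ w hw ih => rw [pow_succ]; omega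

theorem step_num1 {w : ℕ} (hw : 8 ≤ w) (m : ℕ) :
    128 * ((4 * w + 40) * (2 ^ m + 2 * m)) ≤ 2 ^ (w + 16) * 2 ^ m := by
  have h1 : m < 2 ^ m := Nat.lt_two_pow_self
  have h2 := lin_le_pow w hw
  have h3 : 2 ^ m + 2 * m ≤ 4 * 2 ^ m := by omega
  calc 128 * ((4 * w + 40) * (2 ^ m + 2 * m)) ≤ 128 * (2 ^ w * (4 * 2 ^ m)) :=
        Nat.mul_le_mul_left _ (Nat.mul_le_mul h2 h3)
    _ = 2 ^ w * 2 ^ 9 * 2 ^ m := by ring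
    _ ≤ 2 ^ w * 2 ^ 16 * 2 ^ m := by
        apply Nat.mul_le_mul_right
        apply Nat.mul_le_mul_left
        norm_num
    _ = 2 ^ (w + 16) * 2 ^ m := by rw [pow_add]

/-- Proof. `(2^2^2^(w+30))^2 ≤ 2^2^2^(w+31) ≤ L`. -/
theorem step_num2 {w L : ℕ} (hJ : 2 ^ 2 ^ 2 ^ (w + 31) ≤ L) :
    2 * (2 ^ 2 ^ 2 ^ (w + 30) + 2) < L := by
  obtain ⟨b, hb⟩ : ∃ b, b = 2 ^ (w + 30) := ⟨_, rfl⟩
  have hb2 : 2 ≤ b := by
    rw [hb]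
    calc 2 = 2 ^ 1 := by norm_num
      _ ≤ 2 ^ (w + 30) := Nat.pow_le_pow_right (by norm_num) (by omega)
  have e1 : 2 ^ (w + 31) = b + b := by
    rw [hb, show w + 31 = (w + 30) + 1 by ring, pow_succ]; ring
  rw [e1] at hJ
  rw [← hb]
  obtain ⟨a, ha⟩ : ∃ a, a = 2 ^ b := ⟨_, rfl⟩
  have ha4 : 4 ≤ a := by
    rw [ha]
    calc 4 = 2 ^ 2 := by norm_num
      _ ≤ 2 ^ b := Nat.pow_le_pow_right (by norm_num) hb2
  have e2 : 2 ^ (b + b) = a * a := by rw [ha, pow_add]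
  rw [e2] at hJ
  rw [← ha]
  have h3 : a + 3 ≤ a * a := by nlinarith
  have h4 : 2 ^ (a + 3) ≤ 2 ^ (a * a) := Nat.pow_le_pow_right (by norm_num) h3
  have h5 : 2 ^ (a + 3) = 2 ^ a * 8 := by rw [pow_add]; norm_num
  have h6 : 1 ≤ 2 ^ a := Nat.one_le_two_pow
  omega

/-- Proof. `Nat.log 2 L ≥ 2^2^(w+31)` is much larger than `(w+3) 2^w`. `L < 2^(Nat.log 2 L + 1) ≤ 4^m` since `2 m ≥ 2 (log - (w+16) - 4(w+3)2^w) ≥ log + 1`. -/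
theorem step_num3 {w L : ℕ} (hw : 8 ≤ w) (hJ : 2 ^ 2 ^ 2 ^ (w + 31) ≤ L) :
    2 ^ (w + 16) * 2 ^ (Nat.log 2 L - (w + 16)) ≤ L ∧
    8 * ((w + 3) * 2 ^ w) ≤ Nat.log 2 L - (w + 16) ∧
    ∀ m, Nat.log 2 L - (w + 16) ≤ m + 4 * ((w + 3) * 2 ^ w) → 1 ≤ m ∧ L ≤ 4 ^ m := by
  have hL0 : L ≠ 0 := by
    have : 0 < 2 ^ 2 ^ 2 ^ (w + 31) := by positivity
    omega
  have h1 : 2 ^ 2 ^ (w + 31) ≤ Nat.log 2 L := by
    have := Nat.log_mono_right (b := 2) hJ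
    rwa [Nat.log_pow (by norm_num)] at this
  obtain ⟨l, hl⟩ : ∃ l, l = Nat.log 2 L := ⟨_, rfl⟩
  rw [← hl] at h1 ⊢
  have h2 : 2 ^ l ≤ L := by rw [hl]; exact Nat.pow_log_le_self 2 hL0
  have h3 : L < 2 ^ (l + 1) := by rw [hl]; exact Nat.lt_pow_succ_log_self (by norm_num) L
  -- lower bound for `l`
  have hw2 := lin_le_pow w hw
  have h4 : 2 * w + 5 ≤ 2 ^ (w + 31) := by
    have : 2 ^ w ≤ 2 ^ (w + 31) := Nat.pow_le_pow_right (by norm_num) (by omega)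
    omega
  have h5 : 2 ^ (2 * w + 5) ≤ l := (Nat.pow_le_pow_right (by norm_num) h4).trans h1
  have h6 : (w + 3) * 2 ^ w ≤ 2 ^ w * 2 ^ w := Nat.mul_le_mul_right _ (by omega)
  have h7 : 2 ^ (2 * w + 5) = 2 ^ w * 2 ^ w * 32 := by
    rw [pow_add, two_mul, pow_add]; norm_num
  have h8 : 2 ^ w ≤ 2 ^ w * 2 ^ w := Nat.le_mul_of_pos_left _ (by positivity)
  obtain ⟨Q, hQ⟩ : ∃ Q, Q = (w + 3) * 2 ^ w := ⟨_, rfl⟩
  obtain ⟨P, hP⟩ : ∃ P, P = 2 ^ w * 2 ^ w := ⟨_, rfl⟩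
  rw [← hQ, ← hP] at h6
  rw [← hP] at h7 h8
  rw [← hQ]
  have h9 : 8 * Q + 2 * (w + 16) + 1 ≤ l := by omega
  refine ⟨?_, by omega, fun m hm => ?_⟩
  · rw [← pow_add, show w + 16 + (l - (w + 16)) = l by omega]
    exact h2
  · have h10 : l + 1 ≤ 2 * m := by omega
    refine ⟨by omega, ?_⟩
    calc L ≤ 2 ^ (l + 1) := h3.le
      _ ≤ 2 ^ (2 * m) := Nat.pow_le_pow_right (by norm_num) h10
      _ = 4 ^ m := by rw [pow_mul]; norm_num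

/-- Proof. Divide by `2 * 2^rB * 2^rm`: `(T-3)/2^rB ≤ (1/2)(g+1)/2^rm + a/2^rB`, `a/2^rB ≤ 2^(-2w-4)`, `3/2^rB ≤ 2^(-2w-4)`. -/
theorem step_num4 {w T g t a rB rm : ℕ} (h1 : 2 * (T - 3) * 2 ^ rm ≤ (g + 1) * 2 ^ rB + 2 * a * 2 ^ rm)
    (h2 : 2 ^ (2 * w + 4) * a ≤ 2 ^ rB) (h3 : (g + 1) * 2 ^ w ≤ (2 ^ w + 1) * t)
    (h4 : 3 * 2 ^ (2 * w + 4) ≤ 2 ^ rB) :
    (T : ℝ) / 2 ^ rB ≤ (1 / 2) * (1 + (1 / 2) ^ w) * ((t : ℝ) / 2 ^ rm) + (1 / 2) ^ (2 * w) := by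
  obtain ⟨T', hT'⟩ : ∃ T', T' = T - 3 := ⟨_, rfl⟩
  have hT : (T : ℝ) ≤ T' + 3 := by
    have : T ≤ T' + 3 := by omega
    exact_mod_cast this
  rw [← hT'] at h1
  have h1' : 2 * (T' : ℝ) * 2 ^ rm ≤ (g + 1) * 2 ^ rB + 2 * a * 2 ^ rm := by exact_mod_cast h1
  have h2' : (2 : ℝ) ^ (2 * w + 4) * a ≤ 2 ^ rB := by exact_mod_cast h2
  have h3' : ((g : ℝ) + 1) * 2 ^ w ≤ (2 ^ w + 1) * t := by exact_mod_cast h3
  have h4' : (3 : ℝ) * 2 ^ (2 * w + 4) ≤ 2 ^ rB := by exact_mod_cast h4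
  have pB : (0 : ℝ) < 2 ^ rB := by positivity
  have pm : (0 : ℝ) < 2 ^ rm := by positivity
  have pw : (0 : ℝ) < 2 ^ w := by positivity
  have p4 : (0 : ℝ) < 2 ^ (2 * w + 4) := by positivity
  have a1 : (T' : ℝ) / 2 ^ rB ≤ 1 / 2 * (((g : ℝ) + 1) / 2 ^ rm) + a / 2 ^ rB := by
    rw [div_le_iff₀ pB]
    have : (1 / 2 * (((g : ℝ) + 1) / 2 ^ rm) + a / 2 ^ rB) * 2 ^ rB =
        ((g + 1) * 2 ^ rB + 2 * a * 2 ^ rm) / (2 * 2 ^ rm) := by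
      field_simp
    rw [this, le_div_iff₀ (by positivity)]
    linarith
  have a2 : (a : ℝ) / 2 ^ rB ≤ 1 / 2 ^ (2 * w + 4) := by
    rw [div_le_div_iff₀ pB p4]
    linarith
  have a3 : (3 : ℝ) / 2 ^ rB ≤ 1 / 2 ^ (2 * w + 4) := by
    rw [div_le_div_iff₀ pB p4]
    linarith
  have a4 : ((g : ℝ) + 1) / 2 ^ rm ≤ (1 + (1 / 2) ^ w) * ((t : ℝ) / 2 ^ rm) := by
    have : (1 + (1 / 2 : ℝ) ^ w) * ((t : ℝ) / 2 ^ rm) = ((2 ^ w + 1) * t / 2 ^ w) / 2 ^ rm := by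
      rw [one_div_pow]
      field_simp
    rw [this]
    apply div_le_div_of_nonneg_right _ pm.le
    rw [le_div_iff₀ pw]
    exact h3'
  have a5 : (1 : ℝ) / 2 ^ (2 * w + 4) ≤ 1 / 16 * (1 / 2) ^ (2 * w) := by
    rw [one_div_pow, pow_add]
    apply le_of_eq
    field_simp
    norm_num
  have a6 : (0 : ℝ) ≤ (1 / 2) ^ (2 * w) := by positivity
  have a7 : (T : ℝ) / 2 ^ rB ≤ (T' : ℝ) / 2 ^ rB + 3 / 2 ^ rB := by
    rw [← add_div]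
    exact div_le_div_of_nonneg_right hT pB.le
  have a8 : 1 / 2 * (((g : ℝ) + 1) / 2 ^ rm) ≤
      1 / 2 * ((1 + (1 / 2) ^ w) * ((t : ℝ) / 2 ^ rm)) :=
    mul_le_mul_of_nonneg_left a4 (by norm_num)
  have a9 : (1 / 2 : ℝ) * (1 + (1 / 2) ^ w) * ((t : ℝ) / 2 ^ rm) =
      1 / 2 * ((1 + (1 / 2) ^ w) * ((t : ℝ) / 2 ^ rm)) := by ring
  rw [a9]
  linarith

end Pool.Agent.Lib.MP_af4270_co
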