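import Pool.Agent.Lib.MP_af4270_co.GMFib
import Pool.Agent.Lib.MP_af4270_co.GMGreedy
import Pool.Agent.Lib.MP_af4270_co.GMExV
import Pool.Agent.Lib.MP_af4270_co.GMGood
import Pool.Agent.Lib.MP_af4270_co.GMStepN

/-!
# PAN-E: one step of the recursion
-/

set_option autoImplicit false
set_option linter.unusedSectionVars false
set_option linter.unusedVariables false

namespace Pool.Agent.Lib.MP_af4270_co

open Finset

variable {V E : Type} [Fintype V] [DecidableEq V] [Fintype E] [DecidableEq E]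

namespace GM

variable {H : GM V E} {Cy : (E → ZMod 2) → Prop} {n w T L : ℕ} {B : Finset E} {D : ℕ → (E → ZMod 2)}

private theorem big_L {w L : ℕ} (hJ : 2 ^ 2 ^ 2 ^ (w + 31) ≤ L) : 2 * w + 10 ≤ L := by
  obtain ⟨a, ha⟩ : ∃ a, a = w + 31 := ⟨_, rfl⟩
  rw [← ha] at hJ
  have h1 : 2 ^ a < 2 ^ 2 ^ a := Nat.lt_two_pow_self
  have h2 : 2 ^ 2 ^ a < 2 ^ 2 ^ 2 ^ a := Nat.lt_two_pow_self
  have h3 : 2 * w + 10 ≤ 2 ^ a := by
    have h4 : w < 2 ^ w := Nat.lt_two_pow_self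
    have h5 : 2 ^ a = 2 ^ w * 2147483648 := by
      rw [ha, pow_add]; norm_num
    omega
  omega

/-- lower bound for the number of cycles of a scale -/
private theorem Scale.sub_three_le_cn (hB : H.Scale Cy B T) : T - 3 ≤ H.cn B Cy := by
  classical
  obtain ⟨S, hS1, hS2, hS3⟩ := exists_lengths (m := T) (P := fun R => Cy R ∧ R ∈ H.ZB B)
    (fun ℓ h3 hl => by
      obtain ⟨R, h1, h2, h4⟩ := hB.len ℓ h3 hl
      exact ⟨R, ⟨h1, h2⟩, h4⟩)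
  rw [← hS1]
  unfold cn
  refine Finset.card_le_card fun R hR => ?_
  simp only [mem_filter, mem_univ, true_and]
  exact ⟨(hS3 R hR).2, (hS3 R hR).1⟩

/-- Proof. `m₁ = Nat.log 2 L - (w+16)`, so `2^(w+16) 2^m₁ ≤ L` (`step_num3`), and `vB (BB D m₁) ≤ 2^m₁ + 2 m₁`; `step_num1`: `128 (4w+40) |vB| ≤ 2^(w+16) 2^m₁ ≤ L`; `step_num2`; so `exists_f` applies to `Bm = BB D m₁`
(`hw`: `T ≥ 6` because `2^(rk B) ≤ 2^(w-1) T` and `rk B ≥ L` is huge, so `T ≤ 2(T-3)` and `2^(rk B) ≤ 2^w (T-3) ≤ 2^w cn B Cy` by `len`) and gives `f`. (S') for `Bm = BB D m₁`: `2^m₁ ≤ 2^(rk Bm) ≤ 2^w (|Bm|+1)` (`le_rk`).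
`good_m` with `g m = |BB D m|`, `t m = |supp (D m)|` (`BB_succ_card`, `BB_le`) gives `m`, `m < m₁`; `f = 0` on `ZB (BB D m) ≤ ZB (BB D m₁)`; (S'') for `BB D m` and `step_num4`. `step_num3` gives `1 ≤ m`, `L ≤ 4^m`. -/
theorem Scale.one_step (hSD : StructD) (S : H.Sys Cy n) (hD : Gr Cy D n) (hw : 8 ≤ w)
    (hB : H.Scale Cy B T) (hL : L ≤ H.rk B) (hJ : 2 ^ 2 ^ 2 ^ (w + 31) ≤ L)
    (hX : 2 ^ H.rk B ≤ 2 ^ (w - 1) * T)
    (hsub : ∀ m, 2 ^ m ≤ L → 2 ^ m + 2 ≤ n ∧ BB D m ⊆ B) :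
    ∃ m, 1 ≤ m ∧ 2 ^ m ≤ L ∧ L ≤ 4 ^ m ∧
      (T : ℝ) / 2 ^ H.rk B ≤ (1 / 2) * (1 + (1 / 2) ^ w) *
        (((supp (D m)).card : ℝ) / 2 ^ H.rk (BB D m)) + (1 / 2) ^ (2 * w) := by
  obtain ⟨hA, hBn, hC⟩ := step_num3 hw hJ
  obtain ⟨m₁, hm₁⟩ : ∃ m₁, m₁ = Nat.log 2 L - (w + 16) := ⟨_, rfl⟩
  rw [← hm₁] at hA hBn hC
  have h2m₁ : 2 ^ m₁ ≤ L := by
    refine le_trans ?_ hA
    exact Nat.le_mul_of_pos_left _ (Nat.two_pow_pos _)
  obtain ⟨hn₁, hsub₁⟩ := hsub m₁ h2m₁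
  have hLbig := big_L hJ
  -- T ≥ 8
  have hT8 : 8 ≤ T := by
    by_contra hc
    have h1 : 2 ^ (w - 1) * T < 2 ^ (w - 1) * 8 :=
      Nat.mul_lt_mul_of_pos_left (not_le.1 hc) (Nat.two_pow_pos _)
    have h2 : 2 ^ (w - 1) * 8 = 2 ^ (w + 2) := by
      rw [show w + 2 = (w - 1) + 3 by omega, pow_add]; norm_num
    have h3 : 2 ^ (w + 2) ≤ 2 ^ H.rk B := Nat.pow_le_pow_right (by norm_num) (by omega)
    omega
  have hXT : 2 ^ H.rk B ≤ 2 ^ w * (T - 3) := by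
    calc 2 ^ H.rk B ≤ 2 ^ (w - 1) * T := hX
      _ ≤ 2 ^ (w - 1) * (2 * (T - 3)) := Nat.mul_le_mul_left _ (by omega)
      _ = 2 ^ w * (T - 3) := by
          rw [← mul_assoc, ← pow_succ, show w - 1 + 1 = w by omega]
  have hwcn : 2 ^ H.rk B ≤ 2 ^ w * H.cn B Cy :=
    hXT.trans (Nat.mul_le_mul_left _ hB.sub_three_le_cn)
  have hnum2 := step_num2 hJ
  have hnum1 := step_num1 hw m₁
  have hvB := S.vB_le hD hn₁
  have hn' : 2 ^ 2 ^ 2 ^ (w + 30) + 64 * ((4 * w + 40) * (H.vB (BB D m₁)).card) + 2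
      < 2 * H.rk B := by
    have h1 : (4 * w + 40) * (H.vB (BB D m₁)).card ≤ (4 * w + 40) * (2 ^ m₁ + 2 * m₁) :=
      Nat.mul_le_mul_left _ hvB
    generalize 2 ^ 2 ^ 2 ^ (w + 30) = X at *
    generalize (4 * w + 40) * (H.vB (BB D m₁)).card = Y at *
    generalize (4 * w + 40) * (2 ^ m₁ + 2 * m₁) = Z at *
    omega
  obtain ⟨f, hf1, hf0, hf2⟩ := hB.exists_f hSD S hsub₁ hwcn hn'
  have hSp := hB.Sp hsub₁
  have hle := S.le_rk hD hn₁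
  have hlow : 2 ^ m₁ ≤ 2 ^ w * ((BB D m₁).card + 1) := by
    have h1 : (T - 3) * 2 ^ H.rk (BB D m₁) ≤ (T - 3) * (2 ^ w * ((BB D m₁).card + 1)) := by
      calc (T - 3) * 2 ^ H.rk (BB D m₁) ≤ ((BB D m₁).card + 1) * 2 ^ H.rk B := hSp
        _ ≤ ((BB D m₁).card + 1) * (2 ^ w * (T - 3)) := Nat.mul_le_mul_left _ hXT
        _ = _ := by ring
    have h2 : 2 ^ H.rk (BB D m₁) ≤ 2 ^ w * ((BB D m₁).card + 1) :=
      Nat.le_of_mul_le_mul_left h1 (by omega)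
    exact (Nat.pow_le_pow_right (by norm_num) hle).trans h2
  obtain ⟨m, hm, hm2, hm3⟩ := good_m w m₁ (fun m => (BB D m).card) (fun m => (supp (D m)).card) hw
    (fun m _ => BB_succ_card D m)
    (fun m hm => S.BB_le hD (pow_add_two_le hm hn₁)) hlow hBn
  obtain ⟨h1m, hL4⟩ := hC m hm2
  refine ⟨m, h1m, (Nat.pow_le_pow_right (by norm_num) hm.le).trans h2m₁, hL4, ?_⟩
  have hsubm : BB D m ⊆ B := (BB_mono D hm.le).trans hsub₁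
  have hSpp := hB.Spp hsubm f hf1
    (fun R hR => hf0 R (H.ZB_mono (BB_mono D hm.le) hR))
  refine step_num4 hSpp hf2 hm3 ?_
  calc 3 * 2 ^ (2 * w + 4) ≤ 2 ^ 2 * 2 ^ (2 * w + 4) := Nat.mul_le_mul_right _ (by norm_num)
    _ = 2 ^ (2 * w + 6) := by rw [← pow_add]; congr 1; ring
    _ ≤ 2 ^ H.rk B := Nat.pow_le_pow_right (by norm_num) (by omega)

end GM

end Pool.Agent.Lib.MP_af4270_co
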