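import Pool.Agent.Lib.MP_af4270_co.TJoin

/-!
# Guarded vertices
-/

set_option autoImplicit false
set_option linter.unusedSectionVars false

namespace Pool.Agent.Lib.MP_af4270_co

open Finset

variable {V E : Type} [Fintype V] [DecidableEq V] [Fintype E] [DecidableEq E]

namespace Cub

variable (Γ : Cub V E)

/-- balls in the graph -/
def ball (x : V) : ℕ → Finset V
  | 0 => {x}
  | (n + 1) => ball x n ∪ univ.filter (fun y => (Γ.bt {y} (ball x n)).Nonempty)

/-- `x` is guarded by the functional `v`: `v` is represented by an edge set close to `x`,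
and there is a cycle close to `x` -/
def Guard (v : Finset E) (x : V) : Prop :=
  (∃ S : Finset E, (∀ R ∈ Γ.Z, par S R = par v R) ∧
      ∀ e ∈ S, Γ.s e ∈ ball Γ x 3 ∨ Γ.t e ∈ ball Γ x 3) ∧
    ∃ D ∈ Γ.Z, D ≠ 0 ∧ supp D ⊆ Γ.EU (ball Γ x 20)

theorem ball_mono (x : V) {m n : ℕ} (h : m ≤ n) : Γ.ball x m ⊆ Γ.ball x n := by
  induction n, h using Nat.le_induction with
  | base => exact Finset.Subset.refl _
  | succ k _ ih => exact ih.trans Finset.subset_union_left

theorem mem_ball_self (x : V) (n : ℕ) : x ∈ Γ.ball x n :=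
  Γ.ball_mono x (Nat.zero_le n) (by simp [ball])

/-- the far end of an edge at a vertex of a ball is in the next ball -/
theorem mem_ball_succ {x y z : V} {n : ℕ} (hy : y ∈ Γ.ball x n) {e : E}
    (he : (Γ.s e = y ∧ Γ.t e = z) ∨ (Γ.s e = z ∧ Γ.t e = y)) : z ∈ Γ.ball x (n + 1) := by
  rw [ball, mem_union, mem_filter]
  right
  refine ⟨mem_univ _, e, ?_⟩
  rw [mem_bt]
  rcases he with ⟨h1, h2⟩ | ⟨h1, h2⟩
  · right; rw [h1, h2]; exact ⟨hy, mem_singleton_self z⟩
  · left; rw [h1, h2]; exact ⟨mem_singleton_self z, hy⟩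

theorem ball_succ_iff {x z : V} {n : ℕ} : z ∈ Γ.ball x (n + 1) ↔ z ∈ Γ.ball x n ∨
    ∃ y ∈ Γ.ball x n, ∃ e, (Γ.s e = y ∧ Γ.t e = z) ∨ (Γ.s e = z ∧ Γ.t e = y) := by
  constructor
  · intro h
    rw [ball, mem_union, mem_filter] at h
    rcases h with h | ⟨_, e, he⟩
    · exact Or.inl h
    · right
      rw [mem_bt] at he
      simp only [mem_singleton] at he
      rcases he with ⟨h1, h2⟩ | ⟨h1, h2⟩
      · exact ⟨Γ.t e, h2, e, Or.inr ⟨h1, rfl⟩⟩
      · exact ⟨Γ.s e, h1, e, Or.inl ⟨rfl, h2⟩⟩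
  · rintro (h | ⟨y, hy, e, he⟩)
    · exact Γ.ball_mono x (Nat.le_succ n) h
    · exact Γ.mem_ball_succ hy he

/-- `|ball x n| ≤ 4 ^ n` -/
theorem card_ball_le (x : V) (n : ℕ) : (Γ.ball x n).card ≤ 4 ^ n := by
  induction n with
  | zero => simp [ball]
  | succ n ih =>
    have h1 : univ.filter (fun y => (Γ.bt {y} (ball Γ x n)).Nonempty)
        ⊆ (Γ.ball x n).biUnion (fun y => (Γ.dt y).image Γ.hd) := by
      intro z hz
      rw [mem_filter] at hz
      obtain ⟨_, e, he⟩ := hz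
      rw [mem_bt] at he
      simp only [mem_singleton] at he
      rw [mem_biUnion]
      rcases he with ⟨h1, h2⟩ | ⟨h1, h2⟩
      · exact ⟨Γ.t e, h2, mem_image.2 ⟨(e, true), by simp, by simpa using h1⟩⟩
      · exact ⟨Γ.s e, h1, mem_image.2 ⟨(e, false), by simp, by simpa using h2⟩⟩
    have h2 : (univ.filter (fun y => (Γ.bt {y} (ball Γ x n)).Nonempty)).card
        ≤ (Γ.ball x n).card * 3 := by
      refine (Finset.card_le_card h1).trans (Finset.card_biUnion_le_card_mul _ _ _ ?_)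
      intro y _
      exact (Finset.card_image_le).trans (Γ.card_dt y).le
    have h3 := Finset.card_union_le (ball Γ x n)
      (univ.filter (fun y => (Γ.bt {y} (ball Γ x n)).Nonempty))
    rw [ball, pow_succ]
    omega

end Cub

end Pool.Agent.Lib.MP_af4270_co
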