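import Pool.Agent.Lib.MP_af4270_co.ConnApi

/-!
# T-joins in connected sets and the number of even edge sets inside a connected set
-/

set_option autoImplicit false
set_option linter.unusedSectionVars false

namespace Pool.Agent.Lib.MP_af4270_co

open Finset

variable {V E : Type} [Fintype V] [DecidableEq V] [Fintype E] [DecidableEq E]

namespace Cub

variable (Γ : Cub V E)

/-- degree parity of `J` at `x` -/
def od (J : E → ZMod 2) (x : V) : ZMod 2 := ∑ d ∈ Γ.dt x, J d.1

theorem mem_Z_iff_od {R : E → ZMod 2} : R ∈ Γ.Z ↔ ∀ x, Γ.od R x = 0 := Iff.rfl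

theorem od_add (J J' : E → ZMod 2) (x : V) : Γ.od (J + J') x = Γ.od J x + Γ.od J' x := by
  simp [od, Finset.sum_add_distrib]

theorem od_zero (x : V) : Γ.od 0 x = 0 := by simp [od]

theorem od_sum {ι : Type} (T : Finset ι) (J : ι → E → ZMod 2) (x : V) :
    Γ.od (∑ i ∈ T, J i) x = ∑ i ∈ T, Γ.od (J i) x := by
  simp only [od, Finset.sum_apply]
  rw [Finset.sum_comm]

/-- degree parity of a single edge -/
theorem od_single (e : E) (x : V) : Γ.od (fun f => if f = e then 1 else 0) x
    = (if x = Γ.s e then 1 else 0) + (if x = Γ.t e then 1 else 0) := by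
  rw [od, Γ.sum_dt x (fun f => if f = e then (1 : ZMod 2) else 0)]
  rw [Finset.sum_eq_single e]
  · simp [eq_comm]
  · intro b _ hb; simp [hb]
  · simp

/-- paths in connected sets -/
theorem exists_pathJoin {U : Finset V} (hU : Γ.Conn U) {x y : V} (hx : x ∈ U) (hy : y ∈ U) :
    ∃ J : E → ZMod 2, supp J ⊆ Γ.EU U ∧
      ∀ z, Γ.od J z = (if z = x then 1 else 0) + (if z = y then 1 else 0) := by
  classical
  set S : Finset V := U.filter (fun y => ∃ J : E → ZMod 2, supp J ⊆ Γ.EU U ∧
      ∀ z, Γ.od J z = (if z = x then 1 else 0) + (if z = y then 1 else 0)) with hS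
  have hstep : ∀ a b : V, ∀ e : E, ((Γ.s e = a ∧ Γ.t e = b) ∨ (Γ.t e = a ∧ Γ.s e = b)) →
      a ∈ S → b ∈ U → b ∈ S := by
    intro a b e he ha hb
    rw [hS, mem_filter] at ha ⊢
    obtain ⟨haU, J, hJ, hJod⟩ := ha
    refine ⟨hb, J + (fun f => if f = e then 1 else 0), ?_, ?_⟩
    · intro f hf
      rw [mem_supp, Pi.add_apply] at hf
      by_cases hfe : f = e
      · subst hfe
        rw [mem_EU]
        rcases he with ⟨h1, h2⟩ | ⟨h1, h2⟩
        · rw [h1, h2]; exact ⟨haU, hb⟩
        · rw [h1, h2]; exact ⟨hb, haU⟩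
      · simp only [hfe, if_false, add_zero] at hf
        exact hJ (mem_supp.2 hf)
    · intro z
      rw [od_add, hJod, od_single]
      have h2 : (1 : ZMod 2) + 1 = 0 := by decide
      rcases he with ⟨h1, h3⟩ | ⟨h1, h3⟩ <;> subst h1 <;> subst h3
      · by_cases h4 : z = x <;> by_cases h5 : z = Γ.s e <;> by_cases h6 : z = Γ.t e <;>
          simp only [h4, h5, h6, if_true, if_false] <;> simp_all
      · by_cases h4 : z = x <;> by_cases h5 : z = Γ.s e <;> by_cases h6 : z = Γ.t e <;>
          simp only [h4, h5, h6, if_true, if_false] <;> simp_all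
  have hxS : x ∈ S := by
    rw [hS, mem_filter]
    refine ⟨hx, 0, by intro e he; simp at he, fun z => ?_⟩
    rw [od_zero]
    exact (zm_add_self _).symm
  have hcl : Γ.Cl U S := by
    rw [cl_iff]
    intro e
    exact ⟨fun h1 h2 => hstep _ _ e (Or.inl ⟨rfl, rfl⟩) h1 h2,
      fun h1 h2 => hstep _ _ e (Or.inr ⟨rfl, rfl⟩) h1 h2⟩
  have hSU : S = U := hU.cl_eq (Finset.filter_subset _ _) hcl ⟨x, hxS⟩
  have hyS : y ∈ S := by rw [hSU]; exact hy
  rw [hS, mem_filter] at hyS
  exact hyS.2

/-- `T`-joins in connected sets -/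
theorem exists_tjoin {U : Finset V} (hU : Γ.Conn U) {T : Finset V} (hT : T ⊆ U)
    (hev : Even T.card) :
    ∃ J : E → ZMod 2, supp J ⊆ Γ.EU U ∧ ∀ z, Γ.od J z = if z ∈ T then 1 else 0 := by
  classical
  obtain ⟨x, hx⟩ := hU.1
  have h1 : ∀ y ∈ U, ∃ J : E → ZMod 2, supp J ⊆ Γ.EU U ∧
      ∀ z, Γ.od J z = (if z = x then 1 else 0) + (if z = y then 1 else 0) :=
    fun y hy => Γ.exists_pathJoin hU hx hy
  choose! J hJ hJod using h1
  refine ⟨∑ y ∈ T, J y, ?_, fun z => ?_⟩
  · intro e he
    rw [mem_supp, Finset.sum_apply] at he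
    obtain ⟨y, hy, hne⟩ := Finset.exists_ne_zero_of_sum_ne_zero he
    exact hJ y (hT hy) (mem_supp.2 hne)
  · rw [od_sum, Finset.sum_congr rfl (fun y hy => hJod y (hT hy) z), Finset.sum_add_distrib,
      Finset.sum_const, Finset.sum_ite_eq]
    obtain ⟨k, hk⟩ := hev
    rw [hk, ← two_mul]
    have : (2 * k) • (if z = x then (1 : ZMod 2) else 0) = 0 := by
      rw [nsmul_eq_mul]
      have h2 : ((2 * k : ℕ) : ZMod 2) = 0 := by
        rw [ZMod.natCast_eq_zero_iff]; exact ⟨k, rfl⟩
      rw [h2, zero_mul]
    rw [this, zero_add]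

/-- degree parities as a sum over a set: handshake inside `U` -/
theorem sum_od {U : Finset V} {J : E → ZMod 2} (hJ : supp J ⊆ Γ.EU U) :
    ∑ x ∈ U, Γ.od J x = 0 := by
  have h := Γ.sum_inc U J
  unfold od
  rw [h, zm_add_self, add_zero]
  refine Finset.sum_eq_zero fun e he => ?_
  by_contra hc
  have h1 := Γ.mem_EU.1 (hJ (mem_supp.2 hc))
  rw [mem_bd] at he
  tauto

theorem od_eq_zero_of_notMem {U : Finset V} {J : E → ZMod 2} (hJ : supp J ⊆ Γ.EU U) {x : V}
    (hx : x ∉ U) : Γ.od J x = 0 := by
  refine Finset.sum_eq_zero fun d hd => ?_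
  by_contra hc
  have h1 := Γ.mem_EU.1 (hJ (mem_supp.2 hc))
  have h2 := Γ.mem_inc.1 (Γ.fst_mem_inc hd)
  rcases h2 with h2 | h2
  · exact hx (h2 ▸ h1.1)
  · exact hx (h2 ▸ h1.2)


/-- extension by zero of a function on the edges inside `U` -/
def extU (U : Finset V) (f : Γ.EU U → ZMod 2) : E → ZMod 2 :=
  fun e => if h : e ∈ Γ.EU U then f ⟨e, h⟩ else 0

/-- the number of even edge sets inside a connected set -/
theorem card_ZU {U : Finset V} (hU : Γ.Conn U) :
    Γ.cn (Γ.EU U) (fun _ => True) * 2 ^ (U.card - 1) = 2 ^ (Γ.EU U).card := by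
  classical
  obtain ⟨x₀, hx₀⟩ := hU.1
  -- the boundary map
  let φ : (Γ.EU U → ZMod 2) →+ (U → ZMod 2) :=
    { toFun := fun f x => Γ.od (Γ.extU U f) x
      map_zero' := by
        funext x
        have : Γ.extU U (0 : Γ.EU U → ZMod 2) = 0 := by
          funext e; simp [extU]
        rw [this, od_zero]; rfl
      map_add' := by
        intro f g
        funext x
        have : Γ.extU U (f + g) = Γ.extU U f + Γ.extU U g := by
          funext e; by_cases h : e ∈ Γ.EU U <;> simp [extU, h]
        rw [this, od_add]; rfl }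
  let σ : (U → ZMod 2) →+ ZMod 2 :=
    { toFun := fun g => ∑ x, g x
      map_zero' := by simp
      map_add' := by intro f g; simp [Finset.sum_add_distrib] }
  have hsuppext : ∀ f : Γ.EU U → ZMod 2, supp (Γ.extU U f) ⊆ Γ.EU U := by
    intro f e he
    by_contra h
    rw [mem_supp] at he
    exact he (by simp [extU, h])
  -- range of φ = kernel of σ
  have hrange : φ.range = σ.ker := by
    ext g
    constructor
    · rintro ⟨f, rfl⟩
      rw [AddMonoidHom.mem_ker]
      change ∑ x : U, Γ.od (Γ.extU U f) x = 0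
      rw [Finset.sum_coe_sort U (fun x => Γ.od (Γ.extU U f) x)]
      exact Γ.sum_od (hsuppext f)
    · intro hg
      rw [AddMonoidHom.mem_ker] at hg
      have hg' : ∑ x : U, g x = 0 := hg
      set T : Finset V := U.filter (fun x => ∃ h : x ∈ U, g ⟨x, h⟩ ≠ 0) with hT
      have hev : Even T.card := by
        have h1 : ((T.card : ℕ) : ZMod 2) = ∑ x : U, g x := by
          have h2 : ∑ x : U, g x = ∑ x ∈ U.attach, g x := by rw [Finset.univ_eq_attach]
          rw [h2]
          have h3 : ∀ x ∈ U.attach, g x = if (x : V) ∈ T then 1 else 0 := by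
            intro x _
            rcases zm_cases (g x) with h | h
            · rw [if_neg, h]
              intro h4
              rw [hT, mem_filter] at h4
              obtain ⟨_, h5, h6⟩ := h4
              exact h6 h
            · rw [if_pos, h]
              rw [hT, mem_filter]
              exact ⟨x.2, x.2, by rw [h]; decide⟩
          rw [Finset.sum_congr rfl h3, Finset.sum_attach U (fun x => if x ∈ T then (1 : ZMod 2) else 0),
            Finset.sum_ite_mem, hT, Finset.inter_eq_right.2 (Finset.filter_subset _ _), ← hT,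
            Finset.sum_const, nsmul_eq_mul, mul_one]
        rw [hg'] at h1
        rw [ZMod.natCast_eq_zero_iff] at h1
        exact even_iff_two_dvd.2 h1
      obtain ⟨J, hJ, hJod⟩ := Γ.exists_tjoin hU (Finset.filter_subset _ _) hev
      refine ⟨fun e => J e, ?_⟩
      funext x
      change Γ.od (Γ.extU U (fun e => J e)) x = g x
      have h1 : Γ.extU U (fun e => J e) = J := by
        funext e
        by_cases h : e ∈ Γ.EU U
        · simp [extU, h]
        · simp only [extU, h, dif_neg, not_false_eq_true]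
          by_contra hc
          exact h (hJ (mem_supp.2 (fun h => hc h.symm)))
      rw [h1, hJod]
      rcases zm_cases (g x) with h | h
      · rw [if_neg, h]
        intro h4
        rw [mem_filter] at h4
        obtain ⟨_, h5, h6⟩ := h4
        exact h6 h
      · rw [if_pos, h]
        rw [mem_filter]
        exact ⟨x.2, x.2, by rw [h]; decide⟩
  -- cardinalities
  have hker : Nat.card φ.ker = Γ.cn (Γ.EU U) (fun _ => True) := by
    rw [cn]
    have e1 : φ.ker ≃ {R : E → ZMod 2 // R ∈ (univ.filter (fun R : E → ZMod 2 =>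
        R ∈ Γ.ZB (Γ.EU U) ∧ True))} :=
      { toFun := fun f => ⟨Γ.extU U f.1, by
          rw [mem_filter]
          refine ⟨mem_univ _, (Γ.mem_ZB).2 ⟨?_, hsuppext _⟩, trivial⟩
          intro x
          by_cases hx : x ∈ U
          · have := congrFun ((AddMonoidHom.mem_ker).1 f.2) ⟨x, hx⟩
            exact this
          · exact Γ.od_eq_zero_of_notMem (hsuppext _) hx⟩
        invFun := fun R => ⟨fun e => R.1 e, by
          have hR := (mem_filter.1 R.2).2.1
          rw [Γ.mem_ZB] at hR
          rw [AddMonoidHom.mem_ker]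
          funext x
          change Γ.od (Γ.extU U (fun e => R.1 e)) x = 0
          have h1 : Γ.extU U (fun e => R.1 e) = R.1 := by
            funext e
            by_cases h : e ∈ Γ.EU U
            · simp [extU, h]
            · simp only [extU, h, dif_neg, not_false_eq_true]
              by_contra hc
              exact h (hR.2 (mem_supp.2 (fun h => hc h.symm)))
          rw [h1]
          exact hR.1 x⟩
        left_inv := by
          intro f
          ext e
          simp [extU, e.2]
        right_inv := by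
          intro R
          ext e
          have hR := (mem_filter.1 R.2).2.1
          rw [Γ.mem_ZB] at hR
          by_cases h : e ∈ Γ.EU U
          · simp [extU, h]
          · simp only [extU, h, dif_neg, not_false_eq_true]
            by_contra hc
            exact h (hR.2 (mem_supp.2 (fun h => hc h.symm))) }
    rw [Nat.card_congr e1, Nat.card_eq_fintype_card, Fintype.card_coe]
    congr!
  have hdom : Nat.card (Γ.EU U → ZMod 2) = 2 ^ (Γ.EU U).card := by
    rw [Nat.card_eq_fintype_card, Fintype.card_fun, ZMod.card, Fintype.card_coe]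
  have hcod : Nat.card (U → ZMod 2) = 2 ^ U.card := by
    rw [Nat.card_eq_fintype_card, Fintype.card_fun, ZMod.card, Fintype.card_coe]
  have h1 : Nat.card (Γ.EU U → ZMod 2) = Nat.card φ.ker * Nat.card φ.range := by
    rw [← AddSubgroup.card_mul_index φ.ker, AddSubgroup.index_ker]
  have h2 : Nat.card (U → ZMod 2) = Nat.card σ.ker * Nat.card σ.range := by
    rw [← AddSubgroup.card_mul_index σ.ker, AddSubgroup.index_ker]
  have h3 : σ.range = ⊤ := by
    rw [AddMonoidHom.range_eq_top]
    intro a
    refine ⟨fun x => if x = ⟨x₀, hx₀⟩ then a else 0, ?_⟩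
    change ∑ x : U, (if x = ⟨x₀, hx₀⟩ then a else 0) = a
    simp
  have h4 : Nat.card σ.range = 2 := by
    rw [h3, AddSubgroup.card_top, Nat.card_eq_fintype_card, ZMod.card]
  rw [h4, hcod] at h2
  rw [hdom, hker, hrange] at h1
  have h5 : U.card = (U.card - 1) + 1 := by
    have : 0 < U.card := Finset.card_pos.2 ⟨x₀, hx₀⟩
    omega
  rw [h5, pow_succ] at h2
  have h6 : Nat.card σ.ker = 2 ^ (U.card - 1) := by
    have := Nat.eq_of_mul_eq_mul_right (by norm_num : 0 < 2) h2
    simpa using this.symm
  rw [h6] at h1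
  exact h1.symm

end Cub

end Pool.Agent.Lib.MP_af4270_co
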