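import Pool.Agent.Lib.MP_af4270_co.TJoin

/-!
# T-joins in sets that need not be connected

`T ⊆ U` and every component of `U` contains an even number of elements of `T`. Induction on `|T|`:
if `T = ∅` take `J = 0`. Otherwise choose `a ∈ T`, let `Q = comp U a` (connected), `T₁ = T ∩ Q` (even,
nonempty), `J₁` a `T₁`-join in `Q` (`exists_tjoin`); `T \ T₁` satisfies the hypothesis again
(for `x ∈ Q`: `comp U x = Q`, and `(T \ T₁) ∩ Q = ∅`; for `x ∉ Q`: `comp U x` is disjoint from `Q`
(`comp_disjoint`), so nothing changes). Add the joins; `EU Q ⊆ EU U`.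
-/

set_option autoImplicit false
set_option linter.unusedSectionVars false

namespace Pool.Agent.Lib.MP_af4270_co

open Finset

variable {V E : Type} [Fintype V] [DecidableEq V] [Fintype E] [DecidableEq E]

namespace Cub

variable (Γ : Cub V E)

theorem exists_tjoin2 {U T : Finset V} (hT : T ⊆ U)
    (hev : ∀ x ∈ U, Even (T ∩ Γ.comp U x).card) :
    ∃ J : E → ZMod 2, supp J ⊆ Γ.EU U ∧ ∀ z, Γ.od J z = if z ∈ T then 1 else 0 := by
  classical
  obtain ⟨n, hn⟩ : ∃ n, T.card = n := ⟨_, rfl⟩
  induction n using Nat.strong_induction_on generalizing T with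
  | _ n ih =>
    by_cases h0 : T = ∅
    · refine ⟨0, by intro e he; simp at he, fun z => ?_⟩
      rw [h0, od_zero]; simp
    · obtain ⟨a, ha⟩ := Finset.nonempty_iff_ne_empty.2 h0
      have haU := hT ha
      set Q := Γ.comp U a with hQ
      have haQ : a ∈ Q := mem_comp_self haU
      obtain ⟨J₁, hJ₁, hod₁⟩ := Γ.exists_tjoin (conn_comp haU) (T := T ∩ Q)
        Finset.inter_subset_right (hev a haU)
      have hsub : T \ Q ⊆ U := Finset.sdiff_subset.trans hT
      have hlt : (T \ Q).card < n := by
        rw [← hn]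
        refine Finset.card_lt_card ⟨Finset.sdiff_subset, fun h => ?_⟩
        exact (mem_sdiff.1 (h ha)).2 haQ
      have hev' : ∀ x ∈ U, Even ((T \ Q) ∩ Γ.comp U x).card := by
        intro x hx
        by_cases hxQ : x ∈ Q
        · have h1 : Γ.comp U x = Q := comp_eq haU hxQ
          rw [h1]
          have h2 : (T \ Q) ∩ Q = ∅ := by
            ext y; simp only [mem_inter, mem_sdiff]; simp
          rw [h2]; simp
        · have h1 : Disjoint Q (Γ.comp U x) := comp_disjoint haU hx hxQ
          have h2 : (T \ Q) ∩ Γ.comp U x = T ∩ Γ.comp U x := by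
            ext y
            simp only [mem_inter, mem_sdiff]
            constructor
            · rintro ⟨⟨h3, _⟩, h4⟩; exact ⟨h3, h4⟩
            · rintro ⟨h3, h4⟩
              exact ⟨⟨h3, fun h5 => (Finset.disjoint_left.1 h1) h5 h4⟩, h4⟩
          rw [h2]; exact hev x hx
      obtain ⟨J₂, hJ₂, hod₂⟩ := ih _ hlt hsub hev' rfl
      refine ⟨J₁ + J₂, ?_, fun z => ?_⟩
      · intro e he
        rw [mem_supp, Pi.add_apply] at he
        by_cases h1 : J₁ e = 0
        · rw [h1, zero_add] at he
          exact hJ₂ (mem_supp.2 he)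
        · exact Γ.EU_mono (comp_subset U a) (hJ₁ (mem_supp.2 h1))
      · rw [od_add, hod₁, hod₂]
        by_cases h1 : z ∈ T <;> by_cases h2 : z ∈ Q <;> simp [h1, h2]

/-- adding an edge-set inside `U` changes degree parities only in `U` -/
theorem od_sum_comp {U : Finset V} {J : E → ZMod 2} (hJ : supp J ⊆ Γ.EU U) :
    ∑ x ∈ U, Γ.od J x = 0 := Γ.sum_od hJ

end Cub

end Pool.Agent.Lib.MP_af4270_co
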