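import Pool.Agent.Lib.MP_af4270_co.GMGrDefs

/-!
# Upper bound: a pancyclic graph with few edges

The vertices are `0, ..., p - 1`. The edges are the edges of the Hamiltonian cycle, the chords
`a i - a (i+1)` for `i < k`, where `a i = 2 ^ i - 1 + i`, and the chords `0 - a t` for `t ∈ T`.
-/

set_option autoImplicit false
set_option linter.unusedSectionVars false

namespace Pool.Agent.Lib.MP_af4270_co

open Finset

/-- end points of the ears -/
def ua (i : ℕ) : ℕ := 2 ^ i - 1 + i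

theorem ua_zero : ua 0 = 0 := by simp [ua]

theorem ua_succ (i : ℕ) : ua (i + 1) = ua i + 2 ^ i + 1 := by
  unfold ua
  have h1 : 1 ≤ 2 ^ i := Nat.one_le_two_pow
  have h2 : 2 ^ (i + 1) = 2 * 2 ^ i := by ring
  omega

theorem ua_lt_succ (i : ℕ) : ua i < ua (i + 1) := by
  have h1 : 1 ≤ 2 ^ i := Nat.one_le_two_pow
  rw [ua_succ]; omega

theorem ua_mono {i j : ℕ} (h : i ≤ j) : ua i ≤ ua j :=
  monotone_nat_of_le_succ (fun n => (ua_lt_succ n).le) h

/-- the oriented edges -/
def UR (p k : ℕ) (T : Finset ℕ) (m n : ℕ) : Prop :=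
  n = m + 1 ∨ (∃ i < k, m = ua i ∧ n = ua (i + 1)) ∨ (m = 0 ∧ (n + 1 = p ∨ ∃ t ∈ T, n = ua t))

/-- the graph -/
def UG (p k : ℕ) (T : Finset ℕ) : SimpleGraph (Fin p) :=
  SimpleGraph.fromRel (fun x y => UR p k T x.1 y.1)

/-- path from `0` to `m` of length `L` on the vertices `0, ..., m` -/
def Rch {p : ℕ} (G : SimpleGraph (Fin p)) (m L : ℕ) : Prop :=
  ∃ (h0 : 0 < p) (hm : m < p) (q : G.Walk ⟨0, h0⟩ ⟨m, hm⟩), q.IsPath ∧ q.length = L ∧
    ∀ x ∈ q.support, x.1 ≤ m

theorem Rch.step {p : ℕ} {G : SimpleGraph (Fin p)} {m m' L : ℕ} (h : Rch G m L) (hlt : m < m')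
    (hm' : m' < p) (hadj : ∀ hm : m < p, G.Adj ⟨m, hm⟩ ⟨m', hm'⟩) : Rch G m' (L + 1) := by
  obtain ⟨h0, hm, q, hq, hl, hs⟩ := h
  refine ⟨h0, hm', q.concat (hadj hm), hq.concat (fun hc => ?_) _, ?_, ?_⟩
  · have := hs _ hc
    simp only at this
    omega
  · rw [SimpleGraph.Walk.length_concat, hl]
  · intro x hx
    rw [SimpleGraph.Walk.support_concat] at hx
    simp only [List.mem_append, List.mem_singleton] at hx
    rcases hx with hx | hx
    · exact (hs x hx).trans hlt.le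
    · rw [hx]

theorem Rch.close {p : ℕ} {G : SimpleGraph (Fin p)} {m L : ℕ} (h : Rch G m L) (hL : 2 ≤ L)
    (hadj : ∀ (h0 : 0 < p) (hm : m < p), G.Adj ⟨m, hm⟩ ⟨0, h0⟩) :
    ∃ v : Fin p, ∃ c : G.Walk v v, c.IsCycle ∧ c.length = L + 1 := by
  obtain ⟨h0, hm, q, hq, hl, hs⟩ := h
  refine ⟨_, SimpleGraph.Walk.cons (hadj h0 hm) q, ?_, ?_⟩
  · rw [SimpleGraph.Walk.cons_isCycle_iff]
    refine ⟨hq, fun hc => ?_⟩
    rw [Sym2.eq_swap] at hc
    have h1 := hq.eq_snd_of_mem_edges hc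
    have h2 : q.getVert q.length = q.getVert 1 :=
      (SimpleGraph.Walk.getVert_length q).trans h1
    have h3 := hq.getVert_injOn (by simp) (by simp; omega) h2
    omega
  · rw [SimpleGraph.Walk.length_cons, hl]

section

variable {p k : ℕ} {T : Finset ℕ}

theorem ug_adj {m n : ℕ} (hm : m < p) (hn : n < p) (hne : m ≠ n) (h : UR p k T m n) :
    (UG p k T).Adj ⟨m, hm⟩ ⟨n, hn⟩ := by
  rw [UG, SimpleGraph.fromRel_adj]
  exact ⟨fun h' => hne (by simpa using h'), Or.inl h⟩

theorem Rch.run {m L : ℕ} (h : Rch (UG p k T) m L) (j : ℕ) (hj : m + j < p) :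
    Rch (UG p k T) (m + j) (L + j) := by
  induction j with
  | zero => exact h
  | succ j ih =>
    have h1 := (ih (by omega)).step (m' := m + (j + 1)) (by omega) hj
      (fun hm => ug_adj hm hj (by omega) (Or.inl (by omega)))
    exact h1

theorem rch_ua (hk : ua k < p) {t : ℕ} (ht : t ≤ k) : ∀ s < 2 ^ t, Rch (UG p k T) (ua t) (t + s) := by
  induction t with
  | zero =>
    intro s hs
    have hs0 : s = 0 := by simpa using hs
    subst hs0
    have h0 : 0 < p := by omega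
    rw [ua_zero]
    exact ⟨h0, h0, SimpleGraph.Walk.nil, SimpleGraph.Walk.IsPath.nil, rfl, by simp⟩
  | succ t ih =>
    intro s hs
    have hp : ua (t + 1) < p := lt_of_le_of_lt (ua_mono ht) hk
    have ih := ih (by omega)
    rcases Nat.lt_or_ge s (2 ^ t) with h | h
    · have h1 := (ih s h).step (ua_lt_succ t) hp (fun hm => ug_adj hm hp (ua_lt_succ t).ne
        (Or.inr (Or.inl ⟨t, by omega, rfl, rfl⟩)))
      rwa [show t + s + 1 = t + 1 + s by omega] at h1
    · have h2 : s - 2 ^ t < 2 ^ t := by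
        have : 2 ^ (t + 1) = 2 * 2 ^ t := by ring
        omega
      have hu := ua_succ t
      have h3 := (ih _ h2).run (2 ^ t + 1) (by omega)
      rwa [show ua t + (2 ^ t + 1) = ua (t + 1) by omega,
        show t + (s - 2 ^ t) + (2 ^ t + 1) = t + 1 + s by omega] at h3

theorem ug_pancyclic (hk : ua k < p) (hk' : p ≤ 2 ^ (k + 1) + k)
    (hT : ∀ n, 3 ≤ n → n ≤ 2 ^ k + k → ∃ t ∈ T, t ≤ k ∧ t + 1 ≤ n ∧ n ≤ 2 ^ t + t) :
    Pancyclic (UG p k T) := by
  intro n hn hnp
  rcases Nat.lt_or_ge (2 ^ k + k) n with h | h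
  · -- long cycles
    have e1 : 2 ^ (k + 1) = 2 * 2 ^ k := by ring
    have h1 := rch_ua (T := T) hk le_rfl (2 ^ k - 1 - (p - n)) (by
      have : 1 ≤ 2 ^ k := Nat.one_le_two_pow
      omega)
    have h2 := h1.run (p - 1 - ua k) (by omega)
    have e2 : ua k = 2 ^ k - 1 + k := rfl
    have e3 : 1 ≤ 2 ^ k := Nat.one_le_two_pow
    rw [show ua k + (p - 1 - ua k) = p - 1 by omega,
      show k + (2 ^ k - 1 - (p - n)) + (p - 1 - ua k) = n - 1 by omega] at h2
    obtain ⟨v, c, hc, hl⟩ := h2.close (by omega) (fun h0 hm =>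
      (ug_adj h0 hm (by omega) (Or.inr (Or.inr ⟨rfl, Or.inl (by omega)⟩))).symm)
    exact ⟨v, c, hc, by omega⟩
  · -- short cycles
    obtain ⟨t, htT, htk, h1, h2⟩ := hT n hn h
    have h3 := rch_ua (T := T) hk htk (n - t - 1) (by omega)
    rw [show t + (n - t - 1) = n - 1 by omega] at h3
    have h4 : ua t ≠ 0 := by
      rcases Nat.eq_zero_or_pos t with h0 | h0
      · subst h0; simp at h2; omega
      · unfold ua; omega
    obtain ⟨v, c, hc, hl⟩ := h3.close (by omega) (fun h0 hm =>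
      (ug_adj h0 hm h4.symm (Or.inr (Or.inr ⟨rfl, Or.inr ⟨t, htT, rfl⟩⟩))).symm)
    exact ⟨v, c, hc, by omega⟩

theorem ug_card (hp : 0 < p) : Nat.card (UG p k T).edgeSet ≤ p + k + T.card := by
  classical
  obtain ⟨f, hf⟩ : ∃ f : ℕ → Fin p, ∀ x : Fin p, f x.1 = x :=
    ⟨fun n => ⟨n % p, Nat.mod_lt _ hp⟩, fun x => by
      apply Fin.ext; simp [Nat.mod_eq_of_lt x.2]⟩
  let F : Finset (ℕ × ℕ) := (range (p - 1)).image (fun i => (i, i + 1)) ∪ {(0, p - 1)} ∪
    (range k).image (fun i => (ua i, ua (i + 1))) ∪ T.image (fun t => (0, ua t))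
  have hF : F.card ≤ p + k + T.card := by
    have h1 := Finset.card_union_le ((range (p - 1)).image (fun i => (i, i + 1)) ∪ {(0, p - 1)} ∪
      (range k).image (fun i => (ua i, ua (i + 1)))) (T.image (fun t => (0, ua t)))
    have h2 := Finset.card_union_le ((range (p - 1)).image (fun i => (i, i + 1)) ∪ {(0, p - 1)})
      ((range k).image (fun i => (ua i, ua (i + 1))))
    have h3 := Finset.card_union_le ((range (p - 1)).image (fun i => (i, i + 1))) {(0, p - 1)}
    have h4 := Finset.card_image_le (s := range (p - 1)) (f := fun i => (i, i + 1))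
    have h5 := Finset.card_image_le (s := range k) (f := fun i => (ua i, ua (i + 1)))
    have h6 := Finset.card_image_le (s := T) (f := fun t => (0, ua t))
    rw [card_range] at h4 h5
    rw [card_singleton] at h3
    show (((range (p - 1)).image (fun i => (i, i + 1)) ∪ {(0, p - 1)} ∪
      (range k).image (fun i => (ua i, ua (i + 1)))) ∪ T.image (fun t => (0, ua t))).card ≤ _
    omega
  have hsub : (UG p k T).edgeSet ⊆ ↑(F.image (fun z => s(f z.1, f z.2))) := by
    intro e he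
    induction e with
    | _ x y =>
      rw [SimpleGraph.mem_edgeSet, UG, SimpleGraph.fromRel_adj] at he
      have aux : ∀ x y : Fin p, UR p k T x.1 y.1 → s(x, y) ∈ F.image (fun z => s(f z.1, f z.2)) := by
        intro x y h
        rw [mem_image]
        refine ⟨(x.1, y.1), ?_, by rw [hf, hf]⟩
        simp only [F, mem_union, mem_image, mem_singleton, mem_range, Prod.mk.injEq]
        rcases h with h | ⟨i, hi, h1, h2⟩ | ⟨h1, h2 | ⟨t, ht, h2⟩⟩
        · exact Or.inl (Or.inl (Or.inl ⟨x.1, by omega, rfl, h.symm⟩))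
        · exact Or.inl (Or.inr ⟨i, hi, h1.symm, h2.symm⟩)
        · exact Or.inl (Or.inl (Or.inr ⟨h1, by omega⟩))
        · exact Or.inr ⟨t, ht, h1.symm, h2.symm⟩
      rcases he.2 with h | h
      · exact aux x y h
      · rw [Sym2.eq_swap]; exact aux y x h
  calc Nat.card (UG p k T).edgeSet = (UG p k T).edgeSet.ncard := rfl
    _ ≤ (↑(F.image (fun z => s(f z.1, f z.2))) : Set (Sym2 (Fin p))).ncard :=
        Set.ncard_le_ncard hsub (Finset.finite_toSet _)
    _ = (F.image (fun z => s(f z.1, f z.2))).card := Set.ncard_coe_finset _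
    _ ≤ F.card := Finset.card_image_le
    _ ≤ _ := hF

end

end Pool.Agent.Lib.MP_af4270_co
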