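import Pool.Agent.Lib.MP_af4270_co.UBGraph
import Pool.Agent.Lib.MP_af4270_co.GMLstar

/-!
# Upper bound: `m(p) ≤ p + log₂ p + log* p`
-/

set_option autoImplicit false
set_option linter.unusedSectionVars false

namespace Pool.Agent.Lib.MP_af4270_co

open Finset

/-- choice of the nested chords -/
theorem exists_T (k : ℕ) : ∃ T : Finset ℕ,
    (∀ n, 3 ≤ n → n ≤ 2 ^ k + k → ∃ t ∈ T, t ≤ k ∧ t + 1 ≤ n ∧ n ≤ 2 ^ t + t) ∧
      T.card ≤ lstar ((k : ℝ) - 1) + 1 := by
  classical
  induction k using Nat.strong_induction_on with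
  | _ k ih =>
    rcases Nat.lt_or_ge k 3 with hk | hk
    · refine ⟨{k}, fun n hn hnk => ⟨k, mem_singleton_self k, le_rfl, by omega, hnk⟩, ?_⟩
      rw [card_singleton]; omega
    · have hex : ∃ j, k ≤ 2 ^ j + j := ⟨k, Nat.le_add_left k _⟩
      obtain ⟨k', h1, h2⟩ : ∃ k', k ≤ 2 ^ k' + k' ∧ ∀ j < k', ¬ k ≤ 2 ^ j + j :=
        ⟨Nat.find hex, Nat.find_spec hex, fun j hj => Nat.find_min hex hj⟩
      have hk'1 : 1 ≤ k' := by
        by_contra h
        have : k' = 0 := by omega
        subst this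
        simp at h1; omega
      have h3 := h2 (k' - 1) (by omega)
      have hlt : k' < k := by
        by_contra h
        have h4 := Nat.lt_two_pow_self (n := k' - 1)
        omega
      obtain ⟨T', hT', hc⟩ := ih k' hlt
      refine ⟨insert k T', fun n hn hnk => ?_, ?_⟩
      · rcases Nat.lt_or_ge k n with h | h
        · exact ⟨k, mem_insert_self k T', le_rfl, h, hnk⟩
        · obtain ⟨t, ht, a1, a2, a3⟩ := hT' n hn (h.trans h1)
          exact ⟨t, mem_insert_of_mem ht, by omega, a2, a3⟩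
      · have h4 : (2 : ℝ) ^ (k' - 1) ≤ (k : ℝ) - 1 := by
          have : 2 ^ (k' - 1) + 1 ≤ k := by omega
          have : ((2 ^ (k' - 1) + 1 : ℕ) : ℝ) ≤ k := by exact_mod_cast this
          push_cast at this
          linarith
        have h5 : ((k' : ℝ) - 1) ≤ Real.logb 2 ((k : ℝ) - 1) := by
          have h6 : Real.logb 2 ((2 : ℝ) ^ (k' - 1)) ≤ Real.logb 2 ((k : ℝ) - 1) :=
            Real.logb_le_logb_of_le (by norm_num) (by positivity) h4
          rw [Real.logb_pow, Real.logb_self_eq_one (by norm_num), mul_one,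
            Nat.cast_sub hk'1] at h6
          exact_mod_cast h6
        have h7 : (1 : ℝ) < (k : ℝ) - 1 := by
          have : (3 : ℝ) ≤ k := by exact_mod_cast hk
          linarith
        have h8 := lstar_of_gt h7
        have h9 := lstar_mono h5
        have h10 := Finset.card_insert_le k T'
        omega

/-- a pancyclic graph on `p` vertices with at most `p + log₂ p + log* p` edges -/
theorem exists_pancyclic {p : ℕ} (hp : 3 ≤ p) : ∃ G : SimpleGraph (Fin p), Pancyclic G ∧
    (Nat.card G.edgeSet : ℝ) ≤ p + Real.logb 2 p + lstar (p : ℝ) := by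
  classical
  have hex : ∃ j, p ≤ ua j := ⟨p, by unfold ua; omega⟩
  obtain ⟨j, h1, h2⟩ : ∃ j, p ≤ ua j ∧ ∀ i < j, ¬ p ≤ ua i :=
    ⟨Nat.find hex, Nat.find_spec hex, fun i hi => Nat.find_min hex hi⟩
  have hj : j ≠ 0 := by
    rintro rfl
    rw [ua_zero] at h1; omega
  obtain ⟨k, rfl⟩ : ∃ k, j = k + 1 := ⟨j - 1, by omega⟩
  have h3 := h2 k (by omega)
  push Not at h3
  obtain ⟨T, hT, hc⟩ := exists_T k
  refine ⟨UG p k T, ug_pancyclic h3 ?_ hT, ?_⟩
  · have h0 : 1 ≤ 2 ^ (k + 1) := Nat.one_le_two_pow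
    unfold ua at h1; omega
  · have h4 := ug_card (p := p) (k := k) (T := T) (by omega)
    have h5 : ((2 ^ k : ℕ) : ℝ) ≤ p := by
      have : 2 ^ k ≤ p := by unfold ua at h3; omega
      exact_mod_cast this
    have h6 : (k : ℝ) ≤ Real.logb 2 p := by
      have h7 : Real.logb 2 ((2 : ℝ) ^ k) ≤ Real.logb 2 p :=
        Real.logb_le_logb_of_le (by norm_num) (by positivity) (by exact_mod_cast h5)
      rwa [Real.logb_pow, Real.logb_self_eq_one (by norm_num), mul_one] at h7
    have h8 : (1 : ℝ) < p := by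
      have : (3 : ℝ) ≤ p := by exact_mod_cast hp
      linarith
    have h9 := lstar_of_gt h8
    have h10 : lstar ((k : ℝ) - 1) ≤ lstar (Real.logb 2 p) := lstar_mono (by linarith)
    have h11 : ((Nat.card (UG p k T).edgeSet : ℕ) : ℝ) ≤ ((p + k + T.card : ℕ) : ℝ) := by
      exact_mod_cast h4
    have h12 : ((T.card : ℕ) : ℝ) ≤ ((lstar (p : ℝ) : ℕ) : ℝ) := by
      have : T.card ≤ lstar (p : ℝ) := by omega
      exact_mod_cast this
    push_cast at h11
    linarith

end Pool.Agent.Lib.MP_af4270_co
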